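import Pool.Agent.MFI.Dg

/-!
# Isotopy invariance of matrix factorizations (MP_c8c50b_ag), helper42

Module MFI_CAT: the homotopy category of matrix factorizations, the functors `φ^*` between homotopy
categories, and: equivalent dg functors induce isomorphic functors of homotopy categories.
-/

set_option autoImplicit false

open CategoryTheory

namespace Pool.Agent.MFI

universe u

noncomputable section

variable {A : Type u} [CommRing A] {f : A}

/-! ## the homotopy category -/

lemma MHom.ext' {P Q : MF A f} {a b : MHom P Q} (h : a.u = b.u) : a = b := by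
  cases a; cases b; congr

lemma ZHom.ext' {P Q : MF A f} {a b : ZHom P Q} (h : a.u = b.u) : a = b := by
  obtain ⟨a, _, _⟩ := a
  obtain ⟨b, _, _⟩ := b
  have : a = b := MHom.ext' h
  subst this
  rfl

/-- the identity -/
def ZHom.one (P : MF A f) : ZHom P P where
  u := P.e
  eu := P.idem
  ue := P.idem
  ev := P.even
  cl := by rw [P.de, P.ed]

/-- the composition -/
def MHom.cmp {P Q R : MF A f} (a : MHom P Q) (b : MHom Q R) : MHom P R where
  u := b.u * a.u
  eu := by rw [← Matrix.mul_assoc, b.eu]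
  ue := by rw [Matrix.mul_assoc, a.ue]

/-- the composition of closed even morphisms -/
def ZHom.cmp {P Q R : MF A f} (a : ZHom P Q) (b : ZHom Q R) : ZHom P R where
  toMHom := a.toMHom.cmp b.toMHom
  ev := by
    change R.γ * (b.u * a.u) = b.u * a.u * P.γ
    rw [← Matrix.mul_assoc, b.ev, Matrix.mul_assoc, a.ev, Matrix.mul_assoc]
  cl := by
    change R.d * (b.u * a.u) = b.u * a.u * P.d
    rw [← Matrix.mul_assoc, b.cl, Matrix.mul_assoc, a.cl, Matrix.mul_assoc]

@[simp] lemma ZHom.cmp_u {P Q R : MF A f} (a : ZHom P Q) (b : ZHom Q R) :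
    (a.cmp b).u = b.u * a.u := rfl

/-- the zero morphism, sums and negatives -/
def MHom.zero' (P Q : MF A f) : MHom P Q := ⟨0, by simp, by simp⟩

def MHom.add' {P Q : MF A f} (a b : MHom P Q) : MHom P Q :=
  ⟨a.u + b.u, by rw [Matrix.mul_add, a.eu, b.eu], by rw [Matrix.add_mul, a.ue, b.ue]⟩

def MHom.neg' {P Q : MF A f} (a : MHom P Q) : MHom P Q :=
  ⟨-a.u, by rw [Matrix.mul_neg, a.eu], by rw [Matrix.neg_mul, a.ue]⟩

lemma ZHom.homotopic_refl {P Q : MF A f} (a : ZHom P Q) : a.Homotopic a :=
  ⟨MHom.zero' P Q, by simp [MHom.Odd, MHom.zero'], by simp [MHom.zero']⟩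

lemma ZHom.Homotopic.symm {P Q : MF A f} {a b : ZHom P Q} (h : a.Homotopic b) :
    b.Homotopic a := by
  obtain ⟨z, hz, h⟩ := h
  refine ⟨z.neg', ?_, ?_⟩
  · change Q.γ * (-z.u) = -(-z.u * P.γ)
    rw [Matrix.mul_neg, Matrix.neg_mul, hz]
  · change b.u - a.u = Q.d * (-z.u) + -z.u * P.d
    rw [Matrix.mul_neg, Matrix.neg_mul, ← neg_add, ← h, neg_sub]

lemma ZHom.Homotopic.trans {P Q : MF A f} {a b c : ZHom P Q} (h : a.Homotopic b)
    (h' : b.Homotopic c) : a.Homotopic c := by
  obtain ⟨z, hz, h⟩ := h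
  obtain ⟨z', hz', h'⟩ := h'
  refine ⟨z.add' z', ?_, ?_⟩
  · change Q.γ * (z.u + z'.u) = -((z.u + z'.u) * P.γ)
    rw [Matrix.mul_add, Matrix.add_mul, hz, hz', neg_add]
  · change a.u - c.u = Q.d * (z.u + z'.u) + (z.u + z'.u) * P.d
    rw [Matrix.mul_add, Matrix.add_mul, ← sub_add_sub_cancel a.u b.u c.u, h, h']
    abel

lemma ZHom.Homotopic.comp {P Q R : MF A f} {a a' : ZHom P Q} {b b' : ZHom Q R}
    (h : a.Homotopic a') (h' : b.Homotopic b') : (a.cmp b).Homotopic (a'.cmp b') := by
  obtain ⟨z, hz, h⟩ := h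
  obtain ⟨z', hz', h'⟩ := h'
  refine ⟨(z.cmp b.toMHom).add' (a'.toMHom.cmp z'), ?_, ?_⟩
  · change R.γ * (b.u * z.u + z'.u * a'.u) = -((b.u * z.u + z'.u * a'.u) * P.γ)
    rw [Matrix.mul_add, Matrix.add_mul, ← Matrix.mul_assoc, ← Matrix.mul_assoc, b.ev, hz',
      Matrix.neg_mul, Matrix.mul_assoc, Matrix.mul_assoc, hz, a'.ev, Matrix.mul_neg,
      Matrix.mul_assoc, Matrix.mul_assoc, neg_add]
  · change b.u * a.u - b'.u * a'.u = R.d * (b.u * z.u + z'.u * a'.u) +
      (b.u * z.u + z'.u * a'.u) * P.d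
    have e1 : b.u * a.u - b'.u * a'.u = b.u * (a.u - a'.u) + (b.u - b'.u) * a'.u := by
      rw [Matrix.mul_sub, Matrix.sub_mul]
      abel
    rw [e1, h, h', Matrix.mul_add, Matrix.add_mul, Matrix.mul_add, Matrix.add_mul,
      ← Matrix.mul_assoc b.u Q.d, ← b.cl, Matrix.mul_assoc z'.u Q.d, a'.cl]
    simp only [Matrix.mul_assoc]
    abel

/-- The homotopy category of matrix factorizations of `f` over `A`: the objects are the matrix
factorizations, the morphisms are the closed even morphisms up to homotopy. -/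
structure HMF (A : Type u) [CommRing A] (f : A) where
  /-- the matrix factorization -/
  mf : MF A f

/-- homotopy of closed even morphisms as a setoid -/
def ZHom.setoid (P Q : MF A f) : Setoid (ZHom P Q) where
  r := ZHom.Homotopic
  iseqv := ⟨ZHom.homotopic_refl, fun h => h.symm, fun h h' => h.trans h'⟩

instance : Category (HMF A f) where
  Hom P Q := Quotient (ZHom.setoid P.mf Q.mf)
  id P := Quotient.mk _ (ZHom.one P.mf)
  comp {P Q R} a b := Quotient.map₂ (sa := ZHom.setoid P.mf Q.mf) (sb := ZHom.setoid Q.mf R.mf)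
    (sc := ZHom.setoid P.mf R.mf) ZHom.cmp (fun _ _ h _ _ h' => ZHom.Homotopic.comp h h') a b
  id_comp {P Q} a := by
    induction a using Quotient.inductionOn with
    | h a =>
      apply congrArg (Quotient.mk _)
      apply ZHom.ext'
      exact a.ue
  comp_id {P Q} a := by
    induction a using Quotient.inductionOn with
    | h a =>
      apply congrArg (Quotient.mk _)
      apply ZHom.ext'
      exact a.eu
  assoc {P Q R S} a b c := by
    induction a using Quotient.inductionOn with
    | h a =>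
      induction b using Quotient.inductionOn with
      | h b =>
        induction c using Quotient.inductionOn with
        | h c =>
          apply congrArg (Quotient.mk _)
          apply ZHom.ext'
          exact (Matrix.mul_assoc c.u b.u a.u).symm

/-- pull back of closed even morphisms -/
def ZHom.pull {A' : Type u} [CommRing A'] {f' : A'} (φ : A →+* A') (h : φ f = f') {P Q : MF A f}
    (a : ZHom P Q) : ZHom (P.pull φ h) (Q.pull φ h) where
  toMHom := a.toMHom.pull φ h
  ev := by
    have key : sg A' Q.p Q.q * a.u.map φ = a.u.map φ * sg A' P.p P.q := by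
      rw [sg_map φ Q.p Q.q, sg_map φ P.p P.q, ← Matrix.map_mul, ← Matrix.map_mul, a.ev]
    exact key
  cl := by
    change Q.d.map φ * a.u.map φ = a.u.map φ * P.d.map φ
    rw [← Matrix.map_mul, ← Matrix.map_mul, a.cl]

lemma ZHom.Homotopic.pull {A' : Type u} [CommRing A'] {f' : A'} (φ : A →+* A') (h : φ f = f')
    {P Q : MF A f} {a b : ZHom P Q} (hab : a.Homotopic b) :
    (a.pull φ h).Homotopic (b.pull φ h) := by
  obtain ⟨z, hz, hab⟩ := hab
  refine ⟨z.pull φ h, ?_, ?_⟩
  · have key : sg A' Q.p Q.q * z.u.map φ = -(z.u.map φ * sg A' P.p P.q) := by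
      rw [sg_map φ Q.p Q.q, sg_map φ P.p P.q, ← Matrix.map_mul, ← Matrix.map_mul, hz]
      ext i j
      simp only [Matrix.map_apply, Matrix.neg_apply, map_neg]
    exact key
  · have key : a.u.map φ - b.u.map φ = Q.d.map φ * z.u.map φ + z.u.map φ * P.d.map φ := by
      rw [← Matrix.map_mul, ← Matrix.map_mul]
      have e1 : (a.u - b.u).map φ = (Q.d * z.u + z.u * P.d).map φ := by rw [hab]
      ext i j
      have e2 := congrFun (congrFun e1 i) j
      simpa only [Matrix.map_apply, Matrix.sub_apply, Matrix.add_apply, map_sub, map_add] using e2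
    exact key

/-- The functor `φ^*` between the homotopy categories. -/
def HMF.pull {A' : Type u} [CommRing A'] {f' : A'} (φ : A →+* A') (h : φ f = f') :
    HMF A f ⥤ HMF A' f' where
  obj P := ⟨P.mf.pull φ h⟩
  map {P Q} a := Quotient.map (sa := ZHom.setoid P.mf Q.mf)
    (sb := ZHom.setoid (P.mf.pull φ h) (Q.mf.pull φ h)) (ZHom.pull φ h)
    (fun _ _ hab => ZHom.Homotopic.pull φ h hab) a
  map_id P := rfl
  map_comp {P Q R} a b := by
    induction a using Quotient.inductionOn with
    | h a =>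
      induction b using Quotient.inductionOn with
      | h b =>
        apply congrArg (Quotient.mk _)
        apply ZHom.ext'
        exact Matrix.map_mul

/-! ## the homotopy category of factorizations with arbitrary modules -/

lemma FMap.ext' {P Q : Fact A f} {a b : FMap P Q} (h : ∀ v, a.g v = b.g v) : a = b := by
  obtain ⟨a, _, _⟩ := a
  obtain ⟨b, _, _⟩ := b
  have : a = b := LinearMap.ext h
  subst this
  rfl

/-- the identity -/
def FMap.one (P : Fact A f) : FMap P P := ⟨LinearMap.id, fun _ => rfl, fun _ => rfl⟩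

/-- the composition -/
def FMap.cmp {P Q R : Fact A f} (a : FMap P Q) (b : FMap Q R) : FMap P R where
  g := b.g ∘ₗ a.g
  ev v := by
    change R.γ (b.g (a.g v)) = b.g (a.g (P.γ v))
    rw [b.ev, a.ev]
  cl v := by
    change R.d (b.g (a.g v)) = b.g (a.g (P.d v))
    rw [b.cl, a.cl]

/-- homotopy of closed even maps -/
def FMap.Htp {P Q : Fact A f} (a b : FMap P Q) : Prop :=
  ∃ z : P.M →ₗ[A] Q.M, (∀ v, Q.γ (z v) = - z (P.γ v)) ∧
    ∀ v, a.g v - b.g v = Q.d (z v) + z (P.d v)

lemma FMap.htp_refl {P Q : Fact A f} (a : FMap P Q) : a.Htp a :=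
  ⟨0, fun v => by simp, fun v => by simp⟩

lemma FMap.Htp.symm {P Q : Fact A f} {a b : FMap P Q} (h : a.Htp b) : b.Htp a := by
  obtain ⟨z, hz, h⟩ := h
  refine ⟨-z, fun v => ?_, fun v => ?_⟩
  · rw [LinearMap.neg_apply, LinearMap.neg_apply, map_neg, hz]
  · rw [LinearMap.neg_apply, LinearMap.neg_apply, map_neg, ← neg_add, ← h, neg_sub]

lemma FMap.Htp.trans {P Q : Fact A f} {a b c : FMap P Q} (h : a.Htp b) (h' : b.Htp c) :
    a.Htp c := by
  obtain ⟨z, hz, h⟩ := h
  obtain ⟨z', hz', h'⟩ := h'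
  refine ⟨z + z', fun v => ?_, fun v => ?_⟩
  · rw [LinearMap.add_apply, LinearMap.add_apply, map_add, hz, hz', neg_add]
  · rw [LinearMap.add_apply, LinearMap.add_apply, map_add, ← sub_add_sub_cancel _ (b.g v) _, h, h']
    abel

lemma FMap.Htp.comp {P Q R : Fact A f} {a a' : FMap P Q} {b b' : FMap Q R}
    (h : a.Htp a') (h' : b.Htp b') : (a.cmp b).Htp (a'.cmp b') := by
  obtain ⟨z, hz, h⟩ := h
  obtain ⟨z', hz', h'⟩ := h'
  refine ⟨b.g ∘ₗ z + z' ∘ₗ a'.g, fun v => ?_, fun v => ?_⟩
  · change R.γ (b.g (z v) + z' (a'.g v)) = -(b.g (z (P.γ v)) + z' (a'.g (P.γ v)))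
    rw [map_add, b.ev, hz, hz', map_neg, neg_add, a'.ev]
  · change b.g (a.g v) - b'.g (a'.g v) = R.d (b.g (z v) + z' (a'.g v)) +
      (b.g (z (P.d v)) + z' (a'.g (P.d v)))
    have e1 : b.g (a.g v) - b'.g (a'.g v) =
        b.g (a.g v - a'.g v) + (b.g (a'.g v) - b'.g (a'.g v)) := by
      rw [map_sub]
      abel
    rw [e1, h, h', map_add, map_add, b.cl, a'.cl]
    abel

/-- homotopy as a setoid -/
def FMap.setoid (P Q : Fact A f) : Setoid (FMap P Q) where
  r := FMap.Htp
  iseqv := ⟨FMap.htp_refl, fun h => h.symm, fun h h' => h.trans h'⟩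

/-- the homotopy category of factorizations with arbitrary underlying modules -/
structure HFact (A : Type u) [CommRing A] (f : A) where
  /-- the factorization -/
  fa : Fact A f

instance : Category (HFact A f) where
  Hom P Q := Quotient (FMap.setoid P.fa Q.fa)
  id P := Quotient.mk _ (FMap.one P.fa)
  comp {P Q R} a b := Quotient.map₂ (sa := FMap.setoid P.fa Q.fa) (sb := FMap.setoid Q.fa R.fa)
    (sc := FMap.setoid P.fa R.fa) FMap.cmp (fun _ _ h _ _ h' => FMap.Htp.comp h h') a b
  id_comp {P Q} a := by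
    induction a using Quotient.inductionOn with
    | h a => rfl
  comp_id {P Q} a := by
    induction a using Quotient.inductionOn with
    | h a => rfl
  assoc {P Q R S} a b c := by
    induction a using Quotient.inductionOn with
    | h a =>
      induction b using Quotient.inductionOn with
      | h b =>
        induction c using Quotient.inductionOn with
        | h c => rfl

/-- the class of a closed even map -/
def FMap.cls {P Q : Fact A f} (a : FMap P Q) : (HFact.mk P) ⟶ (HFact.mk Q) := Quotient.mk _ a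

lemma FMap.cls_eq {P Q : Fact A f} {a b : FMap P Q} (h : a.Htp b) : a.cls = b.cls :=
  Quotient.sound (s := FMap.setoid P Q) h

/-- a homotopy equivalence is an isomorphism in the homotopy category -/
lemma FMap.isIso_cls {P Q : Fact A f} {a : FMap P Q} (h : a.IsHtpyEquiv) : IsIso a.cls := by
  obtain ⟨r, z, z', hz, hz', h, h'⟩ := h
  refine ⟨r.cls, ?_, ?_⟩
  · exact FMap.cls_eq (a := a.cmp r) (b := FMap.one P) ⟨z, hz, h⟩
  · exact FMap.cls_eq (a := r.cmp a) (b := FMap.one Q) ⟨z', hz', h'⟩

/-! ## linear maps between images of idempotent matrices -/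

lemma mat_ext {m n : Type} [Fintype n] [DecidableEq n] {M N : Matrix m n A}
    (h : ∀ v, M.mulVec v = N.mulVec v) : M = N :=
  Matrix.toLin'.injective (LinearMap.ext fun v => by
    rw [Matrix.toLin'_apply, Matrix.toLin'_apply, h])

/-- a linear map between images of idempotent matrices as a matrix -/
def MHom.of {P Q : MF A f} (g : P.fact.M →ₗ[A] Q.fact.M) : MHom P Q where
  u := LinearMap.toMatrix' (Q.val ∘ₗ g ∘ₗ LinearMap.rangeRestrict (Matrix.mulVecLin P.e))
  eu := by
    apply mat_ext
    intro v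
    rw [← Matrix.mulVec_mulVec, LinearMap.toMatrix'_mulVec]
    exact Q.e_coe _
  ue := by
    apply mat_ext
    intro v
    rw [← Matrix.mulVec_mulVec, LinearMap.toMatrix'_mulVec, LinearMap.toMatrix'_mulVec]
    change Q.val (g _) = Q.val (g _)
    congr 2
    apply Subtype.ext
    change P.e.mulVec (P.e.mulVec v) = P.e.mulVec v
    rw [Matrix.mulVec_mulVec, P.idem]

lemma MHom.of_lin {P Q : MF A f} (g : P.fact.M →ₗ[A] Q.fact.M) : (MHom.of g).lin = g := by
  ext1 v
  apply MF.val_inj
  rw [MHom.lin_coe]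
  change (LinearMap.toMatrix' _).mulVec _ = _
  rw [LinearMap.toMatrix'_mulVec]
  change Q.val (g _) = Q.val (g v)
  congr 2
  apply Subtype.ext
  exact P.e_coe v

lemma MHom.lin_inj {P Q : MF A f} {a b : MHom P Q} (h : ∀ v, a.lin v = b.lin v) : a.u = b.u := by
  apply mat_ext
  intro v
  have e : ∀ c : MHom P Q, c.u.mulVec v =
      Q.val (c.lin (LinearMap.rangeRestrict (Matrix.mulVecLin P.e) v)) := by
    intro c
    rw [MHom.lin_coe]
    change _ = c.u.mulVec (P.e.mulVec v)
    rw [Matrix.mulVec_mulVec, c.ue]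
  rw [e a, e b, h]

/-- a closed even morphism as a closed even map -/
def ZHom.fm {P Q : MF A f} (a : ZHom P Q) : FMap P.fact Q.fact where
  g := a.lin
  ev v := by
    apply MF.val_inj
    rw [MF.fact_γ_coe, MHom.lin_coe, MHom.lin_coe, MF.fact_γ_coe, Matrix.mulVec_mulVec,
      Matrix.mulVec_mulVec, a.ev]
  cl v := by
    apply MF.val_inj
    rw [MF.fact_d_coe, MHom.lin_coe, MHom.lin_coe, MF.fact_d_coe, Matrix.mulVec_mulVec,
      Matrix.mulVec_mulVec, a.cl]

lemma ZHom.Homotopic.fm {P Q : MF A f} {a b : ZHom P Q} (h : a.Homotopic b) :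
    a.fm.Htp b.fm := by
  obtain ⟨z, hz, h⟩ := h
  refine ⟨z.lin, fun v => ?_, fun v => ?_⟩
  · apply MF.val_inj
    rw [MF.fact_γ_coe, MHom.lin_coe, map_neg, MHom.lin_coe, MF.fact_γ_coe, Matrix.mulVec_mulVec,
      Matrix.mulVec_mulVec, hz, Matrix.neg_mulVec]
  · apply MF.val_inj
    rw [map_sub, map_add, MF.fact_d_coe, MHom.lin_coe, MHom.lin_coe, MF.fact_d_coe,
      Matrix.mulVec_mulVec, Matrix.mulVec_mulVec, ← Matrix.add_mulVec, ← h, Matrix.sub_mulVec]
    rfl

/-- the embedding of the homotopy category of matrix factorizations -/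
def HMF.emb (A : Type u) [CommRing A] (f : A) : HMF A f ⥤ HFact A f where
  obj P := ⟨P.mf.fact⟩
  map {P Q} a := Quotient.map (sa := ZHom.setoid P.mf Q.mf)
    (sb := FMap.setoid P.mf.fact Q.mf.fact) ZHom.fm (fun _ _ h => ZHom.Homotopic.fm h) a
  map_id P := by
    apply congrArg (Quotient.mk _)
    apply FMap.ext'
    intro v
    apply MF.val_inj
    exact P.mf.e_coe v
  map_comp {P Q R} a b := by
    induction a using Quotient.inductionOn with
    | h a =>
      induction b using Quotient.inductionOn with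
      | h b =>
        apply congrArg (Quotient.mk _)
        apply FMap.ext'
        intro v
        apply MF.val_inj
        change (b.u * a.u).mulVec (P.mf.val v) = b.u.mulVec (a.u.mulVec (P.mf.val v))
        rw [Matrix.mulVec_mulVec]

lemma MHom.of_mulVec {P Q : MF A f} (g : P.fact.M →ₗ[A] Q.fact.M) (w : Ix P.p P.q → A) :
    (MHom.of g).u.mulVec w = Q.val (g (LinearMap.rangeRestrict (Matrix.mulVecLin P.e) w)) :=
  LinearMap.toMatrix'_mulVec _ _

lemma MF.rr_γ (P : MF A f) (v : Ix P.p P.q → A) :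
    LinearMap.rangeRestrict (Matrix.mulVecLin P.e) (P.γ.mulVec v) =
      P.fact.γ (LinearMap.rangeRestrict (Matrix.mulVecLin P.e) v) := by
  apply MF.val_inj
  rw [MF.fact_γ_coe]
  change P.e.mulVec (P.γ.mulVec v) = P.γ.mulVec (P.e.mulVec v)
  rw [Matrix.mulVec_mulVec, Matrix.mulVec_mulVec, P.even]

lemma MF.rr_d (P : MF A f) (v : Ix P.p P.q → A) :
    LinearMap.rangeRestrict (Matrix.mulVecLin P.e) (P.d.mulVec v) =
      P.fact.d (LinearMap.rangeRestrict (Matrix.mulVecLin P.e) v) := by
  apply MF.val_inj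
  rw [MF.fact_d_coe]
  change P.e.mulVec (P.d.mulVec v) = P.d.mulVec (P.e.mulVec v)
  rw [Matrix.mulVec_mulVec, Matrix.mulVec_mulVec, P.ed, P.de]

/-- a closed even map as a closed even morphism -/
def ZHom.of {P Q : MF A f} (a : FMap P.fact Q.fact) : ZHom P Q where
  toMHom := MHom.of a.g
  ev := by
    apply mat_ext
    intro v
    rw [← Matrix.mulVec_mulVec, ← Matrix.mulVec_mulVec, MHom.of_mulVec, MHom.of_mulVec,
      ← MF.fact_γ_coe, a.ev, P.rr_γ]
  cl := by
    apply mat_ext
    intro v
    rw [← Matrix.mulVec_mulVec, ← Matrix.mulVec_mulVec, MHom.of_mulVec, MHom.of_mulVec,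
      ← MF.fact_d_coe, a.cl, P.rr_d]

lemma ZHom.of_fm {P Q : MF A f} (a : FMap P.fact Q.fact) : (ZHom.of a).fm = a := by
  apply FMap.ext'
  intro v
  change (MHom.of a.g).lin v = a.g v
  rw [MHom.of_lin]

instance : (HMF.emb A f).Full where
  map_surjective {P Q} a := by
    induction a using Quotient.inductionOn with
    | h a => exact ⟨Quotient.mk _ (ZHom.of (P := P.mf) (Q := Q.mf) a),
        congrArg (Quotient.mk _) (ZHom.of_fm (P := P.mf) (Q := Q.mf) a)⟩

lemma ZHom.homotopic_of_fm {P Q : MF A f} {a b : ZHom P Q} (h : a.fm.Htp b.fm) :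
    a.Homotopic b := by
  obtain ⟨z, hz, h⟩ := h
  have e4 : ∀ (c : ZHom P Q) v, c.u.mulVec v =
      Q.val (c.lin (LinearMap.rangeRestrict (Matrix.mulVecLin P.e) v)) := by
    intro c v
    rw [MHom.lin_coe]
    change _ = c.u.mulVec (P.e.mulVec v)
    rw [Matrix.mulVec_mulVec, c.ue]
  refine ⟨MHom.of z, ?_, ?_⟩
  · apply mat_ext
    intro v
    rw [Matrix.neg_mulVec, ← Matrix.mulVec_mulVec, ← Matrix.mulVec_mulVec, MHom.of_mulVec,
      MHom.of_mulVec, P.rr_γ, ← MF.fact_γ_coe, hz, map_neg]
  · apply mat_ext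
    intro v
    rw [Matrix.sub_mulVec, Matrix.add_mulVec, ← Matrix.mulVec_mulVec, ← Matrix.mulVec_mulVec,
      MHom.of_mulVec, MHom.of_mulVec, P.rr_d, e4 a, e4 b, ← MF.fact_d_coe, ← map_sub, ← map_add]
    exact congrArg Q.val (h _)

instance : (HMF.emb A f).Faithful where
  map_injective {P Q} a b hab := by
    induction a using Quotient.inductionOn with
    | h a =>
      induction b using Quotient.inductionOn with
      | h b =>
        have h : a.fm.Htp b.fm := Quotient.exact (s := FMap.setoid P.mf.fact Q.mf.fact) hab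
        exact Quotient.sound (s := ZHom.setoid P.mf Q.mf) (ZHom.homotopic_of_fm h)

/-! ## dg functors and the homotopy category -/

section Functor

variable {A' : Type u} [CommRing A'] {f' : A'} (K : DGF A f A' f')

lemma DGF.map_zero' {P Q : MF A f} (a : MHom P Q) (h : a.u = 0) : K.map a = 0 := by
  have h1 := K.map_add a a a (by rw [h, add_zero])
  exact left_eq_add.1 h1

lemma DGF.map_neg' {P Q : MF A f} (a b : MHom P Q) (h : b.u = -a.u) : K.map b = - K.map a := by
  have h1 := K.map_add a b (MHom.zero' P Q) (by rw [h, add_neg_cancel]; rfl)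
  rw [K.map_zero' (MHom.zero' P Q) rfl] at h1
  exact (neg_eq_of_add_eq_zero_right h1.symm).symm

lemma DGF.map_even {P Q : MF A f} (a : MHom P Q) (h : a.Even) (v : (K.obj P).M) :
    (K.obj Q).γ (K.map a v) = K.map a ((K.obj P).γ v) := by
  have h1 := K.map_gr a a (by
    rw [h, Matrix.mul_assoc, sg_sq, Matrix.mul_one]) ((K.obj P).γ v)
  rw [(K.obj P).γγ] at h1
  exact h1.symm

lemma DGF.map_odd {P Q : MF A f} (a : MHom P Q) (h : a.Odd) (v : (K.obj P).M) :
    (K.obj Q).γ (K.map a v) = - K.map a ((K.obj P).γ v) := by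
  have h1 := K.map_gr a a.neg' (by
    change -a.u = _
    rw [h, Matrix.neg_mul, Matrix.mul_assoc, sg_sq, Matrix.mul_one]) ((K.obj P).γ v)
  rw [(K.obj P).γγ, K.map_neg' a a.neg' rfl] at h1
  exact h1.symm

/-- the closed even map attached to a closed even morphism -/
def DGF.zmap {P Q : MF A f} (a : ZHom P Q) : FMap (K.obj P) (K.obj Q) where
  g := K.map a.toMHom
  ev v := K.map_even a.toMHom a.ev v
  cl v := by
    have h1 := K.map_d a.toMHom (MHom.zero' P Q) (by
      change (0 : Matrix _ _ A) = _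
      rw [a.ev, Matrix.mul_assoc a.u, sg_sq, Matrix.mul_one, a.cl, sub_self]) v
    rw [K.map_zero' _ rfl, LinearMap.zero_apply, K.map_even a.toMHom a.ev, (K.obj P).γγ] at h1
    exact (sub_eq_zero.1 h1.symm)

lemma DGF.zmap_htp {P Q : MF A f} {a b : ZHom P Q} (h : a.Homotopic b) :
    (K.zmap a).Htp (K.zmap b) := by
  obtain ⟨z, hz, h⟩ := h
  refine ⟨K.map z, fun v => K.map_odd z hz v, fun v => ?_⟩
  have h1 := K.map_d z (a.toMHom.add' b.toMHom.neg') (by
    change a.u + -b.u = _
    rw [← sub_eq_add_neg, h, hz, Matrix.neg_mul, Matrix.neg_mul, Matrix.mul_assoc z.u, sg_sq,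
      Matrix.mul_one, sub_neg_eq_add]) v
  rw [K.map_add a.toMHom b.toMHom.neg' _ rfl, K.map_neg' b.toMHom b.toMHom.neg' rfl,
    K.map_odd z hz, (K.obj P).γγ, sub_neg_eq_add] at h1
  rw [← h1]
  change K.map a.toMHom v - K.map b.toMHom v = K.map a.toMHom v + - K.map b.toMHom v
  rw [sub_eq_add_neg]

/-- the functor between homotopy categories induced by a dg functor -/
def DGF.toH : HMF A f ⥤ HFact A' f' where
  obj P := ⟨K.obj P.mf⟩
  map {P Q} a := Quotient.map (sa := ZHom.setoid P.mf Q.mf)
    (sb := FMap.setoid (K.obj P.mf) (K.obj Q.mf)) K.zmap (fun _ _ h => K.zmap_htp h) a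
  map_id P := by
    apply congrArg (Quotient.mk _)
    apply FMap.ext'
    intro v
    change K.map (ZHom.one P.mf).toMHom v = v
    rw [K.map_one _ rfl]
    rfl
  map_comp {P Q R} a b := by
    induction a using Quotient.inductionOn with
    | h a =>
      induction b using Quotient.inductionOn with
      | h b =>
        apply congrArg (Quotient.mk _)
        apply FMap.ext'
        intro v
        change K.map (a.cmp b).toMHom v = K.map b.toMHom (K.map a.toMHom v)
        rw [K.map_comp a.toMHom b.toMHom (a.cmp b).toMHom rfl]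
        rfl

variable {K}

/-- a weak equivalence of dg functors induces an isomorphism of functors -/
def Wk.toH {F : DGF A f A' f'} (w : Wk K F) : K.toH ≅ F.toH := by
  have hi : ∀ P, IsIso (w.η P).cls := fun P => FMap.isIso_cls (w.eqv P)
  exact NatIso.ofComponents (fun P => (@asIso _ _ _ _ (w.η P.mf).cls (hi P.mf)))
    (fun {P Q} a => by
      induction a using Quotient.inductionOn with
      | h a =>
        apply congrArg (Quotient.mk _)
        apply FMap.ext'
        intro v
        exact w.nat a.toMHom v)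

/-- the dg functor `φ^*` induces the functor `φ^*` -/
def DGF.pullIso (φ : A →+* A') (h : φ f = f') :
    (DGF.pull φ h).toH ≅ HMF.pull φ h ⋙ HMF.emb A' f' :=
  NatIso.ofComponents (fun _ => Iso.refl _) (fun {P Q} a => by
    induction a using Quotient.inductionOn with
    | h a => rfl)

/-- Equivalent dg functors `φ^*`, `φ'^*` induce isomorphic functors of homotopy categories. -/
theorem m_CAT (φ φ' : A →+* A') (h : φ f = f') (h' : φ' f = f')
    (H : DGEq (DGF.pull φ h) (DGF.pull φ' h')) : Nonempty (HMF.pull φ h ≅ HMF.pull φ' h') := by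
  obtain ⟨K, ⟨w⟩, ⟨w'⟩⟩ := H
  exact ⟨Functor.fullyFaithfulCancelRight (HMF.emb A' f')
    ((DGF.pullIso φ h).symm ≪≫ w.toH.symm ≪≫ w'.toH ≪≫ DGF.pullIso φ' h')⟩

end Functor

end

end Pool.Agent.MFI
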