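import Pool.Agent.MFI.FlowB

/-!
# Isotopy invariance of matrix factorizations (MP_c8c50b_ag), helper26

Part 14: the extension of the flow is multiplicative and onto on the graded pieces.
-/

set_option autoImplicit false

open PowerSeries
open Finset.HasAntidiagonal (antidiagonal mem_antidiagonal)

namespace Pool.Agent.MFI

noncomputable section

section ExtMul

variable {E E' : Type*} [Ring E] [Ring E']

lemma ext_X_mul (ψ : E →+ PowerSeries E') (Z : PowerSeries E) :
    ext ψ (X * Z) = X * ext ψ Z := by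
  have h := ext_lin ψ (Int.castRingHom E) (Int.castRingHom E') (by
    intro a y
    have h1 : (Int.castRingHom E) a * y = a • y := by
      rw [eq_intCast, zsmul_eq_mul]
    rw [h1, map_zsmul, zsmul_eq_mul]
    congr 1
    rw [eq_intCast]
    exact (map_intCast (C : E' →+* PowerSeries E') a).symm) (X : PowerSeries ℤ) Z
  rwa [PowerSeries.map_X, PowerSeries.map_X] at h

lemma shift_eq (X' : PowerSeries E) :
    X' = C (coeff 0 X') + X * PowerSeries.mk fun m => coeff (m + 1) X' := by
  ext m
  rcases m with _ | m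
  · rw [map_add, coeff_zero_mul']
    simp
  · rw [map_add, coeff_succ_X_mul, coeff_mk, coeff_C, if_neg (Nat.succ_ne_zero m), zero_add]

lemma ext_mul (ψ : E →+ PowerSeries E') (hm : ∀ x y, ψ (x * y) = ψ x * ψ y)
    (U V : PowerSeries E) : ext ψ (U * V) = ext ψ U * ext ψ V := by
  have key : ∀ m, ∀ U V : PowerSeries E, coeff m (ext ψ (U * V)) = coeff m (ext ψ U * ext ψ V) := by
    intro m
    induction m with
    | zero =>
      intro U V
      have e1 : ext ψ (U * V) = ψ (coeff 0 U) * ext ψ V +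
          X * ext ψ ((PowerSeries.mk fun m => coeff (m + 1) U) * V) := by
        conv_lhs => rw [shift_eq U]
        rw [add_mul, map_add, ext_C_mul ψ _ _ (hm _), mul_assoc, ext_X_mul]
      have e2 : ext ψ U = ψ (coeff 0 U) + X * ext ψ (PowerSeries.mk fun m => coeff (m + 1) U) := by
        conv_lhs => rw [shift_eq U]
        rw [map_add, ext_C, ext_X_mul]
      rw [e1, e2, add_mul, map_add, map_add, mul_assoc, coeff_zero_X_mul, coeff_zero_X_mul]
    | succ m ih =>
      intro U V
      have e1 : ext ψ (U * V) = ψ (coeff 0 U) * ext ψ V +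
          X * ext ψ ((PowerSeries.mk fun m => coeff (m + 1) U) * V) := by
        conv_lhs => rw [shift_eq U]
        rw [add_mul, map_add, ext_C_mul ψ _ _ (hm _), mul_assoc, ext_X_mul]
      have e2 : ext ψ U = ψ (coeff 0 U) + X * ext ψ (PowerSeries.mk fun m => coeff (m + 1) U) := by
        conv_lhs => rw [shift_eq U]
        rw [map_add, ext_C, ext_X_mul]
      rw [e1, e2, add_mul, map_add, map_add, mul_assoc, coeff_succ_X_mul, coeff_succ_X_mul, ih]
  ext m
  exact key m U V

/-- restricted series over a commutative ring form a subring -/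
def rstS {R : Type*} [CommRing R] (φ : Filt R) : Subring (PowerSeries R) where
  carrier := {X | φ.Rst X}
  mul_mem' := fun h1 h2 => Filt.Rst.mul h1 h2
  one_mem' := Filt.Rst.one
  add_mem' := fun h1 h2 => Filt.Rst.add h1 h2
  zero_mem' := Filt.Rst.zero
  neg_mem' := fun h => Filt.Rst.neg h

end ExtMul

section InvB

variable {n : ℕ} {A : Type*} [CommRing A] [Algebra ℚ A] {𝔡 : Cder n A} {I : Ideal A} {f : A}

/-- the Jacobian matrix of the family -/
def Fam.Jt (Φ : Fam 𝔡 I f) (i k : Fin n) : PowerSeries A :=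
  PowerSeries.mk fun m => 𝔡.D k (coeff m (Φ.φ (𝔡.x i)))

variable (Φ : Fam 𝔡 I f)

omit [Algebra ℚ A] in
lemma Fam.Jt_rst (i k : Fin n) : (fA I).Rst (Φ.Jt i k) := by
  intro N
  obtain ⟨M, hM⟩ := Φ.rst (𝔡.x i) (N + 1)
  refine ⟨M, fun m hm => ?_⟩
  rw [Fam.Jt, coeff_mk]
  exact D_pow 𝔡 k (hM m hm)

omit [Algebra ℚ A] in
lemma Fam.Jt_map (i k : Fin n) : PowerSeries.map (Ideal.Quotient.mk I) (Φ.Jt i k) = Φ.J i k := by
  ext m
  rw [PowerSeries.coeff_map, Fam.Jt, coeff_mk, Fam.J, coeff_mk]

omit [Algebra ℚ A] in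
/-- an inverse modulo `I` of the Jacobian matrix, with restricted entries -/
lemma Fam.exists_K (hdet : (Matrix.of Φ.J).det = 1) :
    ∃ K : Matrix (Fin n) (Fin n) (PowerSeries A), (∀ i k, (fA I).Rst (K i k)) ∧
      ∀ i k, (fA I).InF 1 ((K * Matrix.of Φ.Jt) i k - if i = k then 1 else 0) := by
  set J' : Matrix (Fin n) (Fin n) (rstS (fA I)) := Matrix.of fun i k => ⟨Φ.Jt i k, Φ.Jt_rst i k⟩
    with hJ'
  have e0 : J'.map (rstS (fA I)).subtype = Matrix.of Φ.Jt := by
    ext1 i k
    rfl
  set K := J'.adjugate.map (rstS (fA I)).subtype with hK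
  have e1 : K = (Matrix.of Φ.Jt).adjugate := by
    rw [hK, ← e0]
    exact (RingHom.map_adjugate (rstS (fA I)).subtype J')
  refine ⟨K, fun i k => (J'.adjugate i k).2, fun i k => ?_⟩
  have e2 : K * Matrix.of Φ.Jt = (Matrix.of Φ.Jt).det • 1 := by
    rw [e1, Matrix.adjugate_mul]
  have e3 : PowerSeries.map (Ideal.Quotient.mk I) (Matrix.of Φ.Jt).det = 1 := by
    rw [RingHom.map_det, ← hdet]
    congr 1
  intro m
  rw [mem_fA, pow_one, ← Ideal.Quotient.eq_zero_iff_mem, ← PowerSeries.coeff_map, map_sub, e2,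
    Matrix.smul_apply, smul_eq_mul, map_mul, e3, one_mul, Matrix.one_apply]
  split_ifs <;> simp

variable {Φ}

lemma FamOK.approx (h : FamOK Φ) (hdet : (Matrix.of Φ.J).det = 1) (N : ℕ) (x : BB n A)
    (hx : x ∈ (fB n I).F N) : ∃ Y : PowerSeries (BB n A), (fB n I).Rst Y ∧ (fB n I).InF N Y ∧
      (fB n I).InF (N + 1) (C x - ext (flB Φ) Y) := by
  have hmul := flB_mul Φ
  refine approx_ind (I := I) (fun N x => ∃ Y : PowerSeries (BB n A), (fB n I).Rst Y ∧
    (fB n I).InF N Y ∧ (fB n I).InF (N + 1) (C x - ext (flB Φ) Y)) ?_ ?_ ?_ ?_ ?_ hx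
  · rintro M x y ⟨Y, h1, h2, h3⟩ ⟨Z, h4, h5, h6⟩
    refine ⟨Y + Z, h1.add h4, h2.add h5, ?_⟩
    rw [map_add, map_add, show C x + C y - (ext (flB Φ) Y + ext (flB Φ) Z) =
      (C x - ext (flB Φ) Y) + (C y - ext (flB Φ) Z) by ring]
    exact h3.add h6
  · rintro M M' x y ⟨Y, h1, h2, h3⟩ ⟨Z, h4, h5, h6⟩
    refine ⟨Y * Z, h1.mul h4, h2.mul h5, ?_⟩
    have e1 : (fB n I).InF M' (ext (flB Φ) Z) := ext_inF (fun x hx => h.flB_F M' x hx) h5
    have e2 : (fB n I).InF M (ext (flB Φ) Y) := ext_inF (fun x hx => h.flB_F M x hx) h2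
    have e3 : (fB n I).InF M (C x) := by
      have := (h3.mono (Nat.le_succ M)).add e2
      rwa [sub_add_cancel] at this
    rw [ext_mul _ hmul, map_mul, show C x * C y - ext (flB Φ) Y * ext (flB Φ) Z =
      C x * (C y - ext (flB Φ) Z) + (C x - ext (flB Φ) Y) * ext (flB Φ) Z by ring]
    refine Filt.InF.add ?_ ?_
    · have := e3.mul h6
      rwa [← add_assoc] at this
    · have := h3.mul e1
      rwa [add_right_comm] at this
  · intro M x hx
    refine ⟨0, Filt.Rst.zero, Filt.InF.zero, ?_⟩
    rw [map_zero, sub_zero]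
    intro m
    rw [coeff_C]
    split_ifs
    · exact hx
    · exact zero_mem _
  · intro M a ha
    refine ⟨C (cc a), Filt.Rst.C _, ?_, ?_⟩
    · intro m
      rw [coeff_C]
      split_ifs
      · exact cc_F ha
      · exact zero_mem _
    · rw [ext_C, flB_cc, sub_self]
      exact Filt.InF.zero
  · intro l
    obtain ⟨K, hK, hKJ⟩ := Φ.exists_K hdet
    have hone : flB Φ 1 = 1 := by
      have := flB_cc Φ 1
      rwa [map_one (cc : A →+* BB n A), map_one (C : BB n A →+* _)] at this
    have hcl : ∀ a y, flB Φ (cc a * y) = C (cc a) * flB Φ y := by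
      intro a y
      rw [hmul, flB_cc]
    have hlin : ∀ (r : PowerSeries A) (Y : PowerSeries (BB n A)),
        ext (flB Φ) (PowerSeries.map cc r * Y) = PowerSeries.map cc r * ext (flB Φ) Y :=
      fun r Y => ext_lin (flB Φ) cc cc hcl r Y
    have hext1 : ext (flB Φ) 1 = 1 := by
      have := ext_C (flB Φ) 1
      rwa [map_one, hone] at this
    have hcc : ∀ (r : PowerSeries A), ext (flB Φ) (PowerSeries.map cc r) = PowerSeries.map cc r := by
      intro r
      have := hlin r 1
      rwa [mul_one, hext1, mul_one] at this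
    set e : Fin n → PowerSeries A := fun i => Φ.φ (𝔡.x i) - C (𝔡.x i) with he
    set Z : Fin n → PowerSeries (BB n A) := fun i => C (ee i) - PowerSeries.map cc (e i) with hZ
    have hccF : ∀ N, ∀ x ∈ (fA I).F N, (cc x : BB n A) ∈ (fB n I).F N := fun N x hx => cc_F hx
    have r1 : ∀ i, (fB n I).Rst (Z i) := by
      intro i
      refine (Filt.Rst.C _).sub (map_Rst (φ := fA I) cc hccF ?_)
      exact (Φ.rst _).sub (Filt.Rst.C _)
    have r2 : ∀ i, (fB n I).InF 1 (Z i) := by
      intro i
      refine Filt.InF.sub ?_ (map_InF (φ := fA I) cc (hccF 1) (h.one _))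
      intro m
      rw [coeff_C]
      split_ifs
      · exact ee_F i
      · exact zero_mem _
    refine ⟨∑ i, PowerSeries.map cc (K l i) * Z i, ?_, ?_, ?_⟩
    · exact Filt.Rst.sum _ _ fun i _ => (map_Rst (φ := fA I) cc hccF (hK l i)).mul (r1 i)
    · exact Filt.InF.sum _ _ fun i _ => (r2 i).mul_left _
    · have e1 : ∀ i, ext (flB Φ) (Z i) =
          PowerSeries.map (tay 𝔡) (Φ.φ (𝔡.x i)) - PowerSeries.map cc (Φ.φ (𝔡.x i)) := by
        intro i
        simp only [hZ, he]
        rw [map_sub, ext_C, h.flB_ee, hcc, map_sub, PowerSeries.map_C]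
        ring
      have e2 : ∀ i, (fB n I).InF 2 (ext (flB Φ) (Z i) -
          ∑ m, PowerSeries.map cc (Φ.Jt i m) * C (ee m)) := by
        intro i j
        have e3 := tay_two (I := I) 𝔡 (coeff j (Φ.φ (𝔡.x i)))
        rw [e1, map_sub, map_sub, map_sum, PowerSeries.coeff_map, PowerSeries.coeff_map]
        have e4 : ∀ m, coeff j (PowerSeries.map cc (Φ.Jt i m) * C (ee m) : PowerSeries (BB n A)) =
            cc (𝔡.D m (coeff j (Φ.φ (𝔡.x i)))) * ee m := by
          intro m
          rw [coeff_mul_C, PowerSeries.coeff_map, Fam.Jt, coeff_mk]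
        rw [Finset.sum_congr rfl fun m _ => e4 m]
        exact e3
      have e5 : ext (flB Φ) (∑ i, PowerSeries.map cc (K l i) * Z i) =
          ∑ i, PowerSeries.map cc (K l i) * (ext (flB Φ) (Z i) -
            ∑ m, PowerSeries.map cc (Φ.Jt i m) * C (ee m)) +
          ∑ m, PowerSeries.map cc ((K * Matrix.of Φ.Jt) l m - if l = m then 1 else 0) * C (ee m) +
          C (ee l) := by
        have e6 : ∑ m, PowerSeries.map cc (if l = m then (1 : PowerSeries A) else 0) *
            C (ee m : BB n A) = C (ee l) := by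
          rw [Finset.sum_eq_single l]
          · rw [if_pos rfl, map_one, one_mul]
          · intro m _ hm
            rw [if_neg (Ne.symm hm), map_zero, zero_mul]
          · intro h
            exact absurd (Finset.mem_univ l) h
        have e7 : ∑ i, PowerSeries.map cc (K l i) * ∑ m, PowerSeries.map cc (Φ.Jt i m) *
            C (ee m : BB n A) = ∑ m, PowerSeries.map cc ((K * Matrix.of Φ.Jt) l m) *
              C (ee m : BB n A) := by
          simp only [Finset.mul_sum]
          rw [Finset.sum_comm]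
          refine Finset.sum_congr rfl fun m _ => ?_
          rw [Matrix.mul_apply, map_sum, Finset.sum_mul]
          refine Finset.sum_congr rfl fun i _ => ?_
          rw [map_mul, mul_assoc]
          rfl
        simp only [map_sub, sub_mul, mul_sub, Finset.sum_sub_distrib]
        rw [e6, e7, map_sum]
        simp only [hlin]
        ring
      rw [e5, show (C (ee l) - (∑ i, PowerSeries.map cc (K l i) * (ext (flB Φ) (Z i) -
            ∑ m, PowerSeries.map cc (Φ.Jt i m) * C (ee m)) +
          ∑ m, PowerSeries.map cc ((K * Matrix.of Φ.Jt) l m - if l = m then 1 else 0) * C (ee m) +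
          C (ee l)) : PowerSeries (BB n A)) = -(∑ i, PowerSeries.map cc (K l i) *
          (ext (flB Φ) (Z i) - ∑ m, PowerSeries.map cc (Φ.Jt i m) * C (ee m)) +
          ∑ m, PowerSeries.map cc ((K * Matrix.of Φ.Jt) l m - if l = m then 1 else 0) *
            C (ee m)) by ring]
      refine (Filt.InF.add (Filt.InF.sum _ _ fun i _ => (e2 i).mul_left _)
        (Filt.InF.sum _ _ fun m _ => ?_)).neg
      have e8 : (fB n I).InF 1 (C (ee m)) := by
        intro j
        rw [coeff_C]
        split_ifs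
        · exact ee_F m
        · exact zero_mem _
      exact (map_InF (φ := fA I) cc (hccF 1) (hKJ l m)).mul e8

end InvB

end

end Pool.Agent.MFI
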