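import Pool.Agent.MFI.St

/-!
# Isotopy invariance of matrix factorizations (MP_c8c50b_ag), helper26

Statements with `k`-linear dg functors.
-/

set_option autoImplicit false

open PowerSeries

namespace Pool.Agent.MFI

universe u

noncomputable section

/-- the dg functor `K` is `k`-linear on morphisms -/
def DGF.Lin (k : Type u) [CommRing k] {A : Type u} [CommRing A] [Algebra k A] {f : A}
    {A' : Type u} [CommRing A'] [Algebra k A'] {f' : A'} (K : DGF A f A' f') : Prop :=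
  ∀ {P Q : MF A f} (r : k) (a c : MHom P Q), c.u = algebraMap k A r • a.u →
    ∀ v, K.map c v = algebraMap k A' r • K.map a v

/-- two dg functors are equivalent over `k` if they are joined by weak equivalences `F ← K → G`
with a `k`-linear dg functor `K` -/
def DGEqL (k : Type u) [CommRing k] {A : Type u} [CommRing A] [Algebra k A] {f : A}
    {A' : Type u} [CommRing A'] [Algebra k A'] {f' : A'} (F G : DGF A f A' f') : Prop :=
  ∃ K : DGF A f A' f', K.Lin k ∧ Nonempty (Wk K F) ∧ Nonempty (Wk K G)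

/-- module FINB, `k`-linear form -/
def S_FINBL : Prop := ∀ {k : Type u} [Field k] {n : ℕ} {A : Type u} [CommRing A] [Algebra ℚ A]
  [Algebra k A] (T : A →+* BB n A), (∀ r : k, T (algebraMap k A r) = cc (algebraMap k A r)) →
  (∀ a, ev0 (T a) = a) → ∀ (f : A) (h : Fin n → BB n A), (∑ i, ee i * h i = cc f - T f) →
  ∀ (φ : A →+* A) (hφ : φ f = f) (Ψ : BB n A ≃+* BB n A), (∀ a, Ψ (cc a) = cc a) →
  (∀ a, Ψ (T a) = T (φ a)) → ∀ G H : Matrix (Fk n) (Fk n) (BB n A), G * H = 1 → H * G = 1 →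
  (DD h).map Ψ * G = G * DD h → gam (BB n A) * G = G * gam (BB n A) →
  DGEqL k (DGF.pull (RingHom.id A) (rfl : (RingHom.id A) f = f)) (DGF.pull φ hφ)

/-- the core theorem, `k`-linear form -/
def S_COREL : Prop := ∀ {k : Type u} [Field k] {n : ℕ} {A : Type u} [CommRing A] [Algebra ℚ A]
  [Algebra k A] (𝔡 : Cder n A) (I : Ideal A), (∀ j (r : k), 𝔡.D j (algebraMap k A r) = 0) →
  IsAdicComplete I A → IsReduced (A ⧸ I) → (minimalPrimes (A ⧸ I)).Finite →
  ∀ f : A, (∀ k, 𝔡.D k f ∈ I) → ∀ (Φ : Fam 𝔡 I f) (τ : k) (φ : A →+* A),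
  (∀ a, φ a = (fA I).ev (algebraMap k A τ) (Φ.φ a)) → ∀ h : φ f = f,
  DGEqL k (DGF.pull (RingHom.id A) (rfl : (RingHom.id A) f = f)) (DGF.pull φ h)

/-- the final statement for dg functors, `k`-linear form: `φ_t^*` is equivalent to `φ_0^*` -/
def S_GENL : Prop := ∀ {k A : Type u} [Field k] [CharZero k] [CommRing A] [Algebra k A]
  (I : Ideal A) [IsAdicComplete I A] [IsReduced (A ⧸ I)], (minimalPrimes (A ⧸ I)).Finite →
  ∀ {n : ℕ} (X : Etale k A I n) (f : A), (∀ i, X.D i f ∈ I) → ∀ (Φ : Family X f)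
  (ψ : k → (A →+* A)), (∀ t, IsValue I Φ.φ t (ψ t)) → Function.Bijective (ψ 0) →
  ∀ (h : ∀ t, ψ t f = f) (t : k), DGEqL k (DGF.pull (ψ 0) (h 0)) (DGF.pull (ψ t) (h t))

end

end Pool.Agent.MFI
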