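import Pool.Agent.MFI.HamB
import Pool.Agent.MFI.InvB
import Pool.Agent.MFI.St2

/-!
# Isotopy invariance of matrix factorizations (MP_c8c50b_ag), helper26

Part 16: the core theorem, evaluation at `t = τ`.
-/

set_option autoImplicit false

open PowerSeries
open Finset.HasAntidiagonal (antidiagonal mem_antidiagonal)

namespace Pool.Agent.MFI

universe u

noncomputable section

section Euler

variable {n : ℕ} {A : Type*} [CommRing A] [Algebra ℚ A]

omit [Algebra ℚ A] in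
lemma coeff_ee_pd (j : Fin n) (Y : BB n A) (α : Fin n →₀ ℕ) :
    MvPowerSeries.coeff α (ee j * pd j Y) = (α j : A) * MvPowerSeries.coeff α Y := by
  classical
  rw [ee, MvPowerSeries.X, MvPowerSeries.coeff_monomial_mul]
  split_ifs with h
  · have h1 : 1 ≤ α j := by rwa [Finsupp.single_le_iff] at h
    rw [one_mul, coeff_pd, tsub_add_cancel_of_le h, mul_comm]
    congr 1
    have h2 : (α - Finsupp.single j 1 : Fin n →₀ ℕ) j + 1 = α j := by
      rw [Finsupp.tsub_apply, Finsupp.single_eq_same]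
      omega
    rw [← h2]
    push_cast
    rfl
  · have h1 : α j = 0 := by
      rw [Finsupp.single_le_iff] at h
      omega
    rw [h1, Nat.cast_zero, zero_mul]

/-- every function vanishing on the diagonal is in the ideal `(ε_1, …, ε_n)` -/
lemma exists_h (G : BB n A) (hG : ev0 G = 0) : ∃ h : Fin n → BB n A, ∑ i, ee i * h i = G := by
  refine ⟨fun i => pd i (dvd 0 G), ?_⟩
  ext α
  rw [map_sum, Finset.sum_congr rfl fun i _ => coeff_ee_pd i (dvd 0 G) α, ← Finset.sum_mul]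
  have e1 : MvPowerSeries.coeff α (dvd 0 G) = (((α.degree + 0 : ℕ) : ℚ)⁻¹) •
      MvPowerSeries.coeff α G := rfl
  have e2 : ∑ i, (α i : A) = algebraMap ℚ A (α.degree : ℚ) := by
    rw [map_natCast, Finsupp.degree_eq_sum, Nat.cast_sum]
  rw [e1, add_zero, e2, ← Algebra.smul_def, smul_smul]
  by_cases hα : α = 0
  · subst hα
    rw [map_zero, Nat.cast_zero, zero_mul, zero_smul]
    exact hG.symm
  · have h1 : (α.degree : ℚ) ≠ 0 := by
      intro h2
      have h3 : α.degree = 0 := by exact_mod_cast h2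
      exact hα ((Finsupp.degree_eq_zero_iff α).1 h3)
    rw [mul_inv_cancel₀ h1, one_smul]

end Euler

section ExtComp

variable {E : Type*} [Ring E]

lemma ext_comp (ψ : E →+ PowerSeries E) (ψ' : E →+ PowerSeries E)
    (h : ∀ x, ext ψ (ψ' x) = C x) (X : PowerSeries E) : ext ψ (ext ψ' X) = X := by
  have key : ∀ m, ∀ X : PowerSeries E, coeff m (ext ψ (ext ψ' X)) = coeff m X := by
    intro m
    induction m with
    | zero =>
      intro X
      conv_lhs => rw [shift_eq X]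
      rw [map_add, map_add, ext_C, h, ext_X_mul, ext_X_mul, map_add, coeff_zero_X_mul, add_zero,
        coeff_C, if_pos rfl]
    | succ m ih =>
      intro X
      conv_lhs => rw [shift_eq X]
      rw [map_add, map_add, ext_C, h, ext_X_mul, ext_X_mul, map_add, coeff_succ_X_mul, ih,
        coeff_mk, coeff_C, if_neg (Nat.succ_ne_zero m), zero_add]
  ext m
  exact key m X

end ExtComp

/-- the core theorem -/
theorem m_COREL (hEV : S_EV.{u}) (hEVM : S_EVM.{u}) (hCPL : S_CPL.{u}) (hINV : S_INV.{u})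
    (hFAM : S_FAM.{u}) (hJAC : S_JAC.{u}) (hFINB : S_FINBL.{u}) : S_COREL.{u} := by
  intro k _ n A _ _ _ 𝔡 I hk hcpl hred hfin f hf Φ τ φ hφ hff
  obtain ⟨g1, g2, g3, g4, g5, g6, g7⟩ := hFAM 𝔡 I f Φ hf
  have hΦ : FamOK Φ := ⟨hf, g1, g2, g3, g4, g5, g6⟩
  obtain ⟨h, hh⟩ := exists_h (cc f - tay 𝔡 f : BB n A) (by
    rw [map_sub, ev0_tay, sub_eq_zero]
    exact MvPowerSeries.constantCoeff_C f)
  obtain ⟨hJ, hdet⟩ := hJAC 𝔡 I f Φ hf (fun k i => chi I (pd k (h i)))
    (fun k l => msym (I := I) h hh k l)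
  obtain ⟨rG, rH⟩ := hΦ.GG_Rst hred hfin h hJ
  set G := GG DE (wE Φ) (bE Φ) (DD h) with hG
  set H := HH DE (wE Φ) (bE Φ) (DD h) with hH
  have cA := hCPL.1 I hcpl
  have cB := hCPL.2.1 I n cA
  have cE := hCPL.2.2 (Fk n) (fB n I) cB
  set τA : A := algebraMap k A τ with hτA
  set τB : BB n A := cc τA with hτB
  set τE : Matrix (Fk n) (Fk n) (BB n A) := algebraMap (BB n A) _ τB with hτE
  obtain ⟨a1, a2, a3, a4, a5, a6⟩ := hEV (fA I) cA τA (fun x => mul_comm _ _)
  obtain ⟨b1, b2, b3, b4, b5, b6⟩ := hEV (fB n I) cB τB (fun x => mul_comm _ _)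
  obtain ⟨c1, c2, c3, c4, c5, c6⟩ := hEV (fM (Fk n) (fB n I)) cE τE
    (fun x => Algebra.commutes _ _)
  have htT : tay 𝔡 τA = τB := tay_const 𝔡 fun j => hk j τ
  -- the automorphism
  have hfl1 : flB Φ 1 = 1 := by
    have := flB_cc Φ 1
    rwa [map_one (cc : A →+* BB n A), map_one (C : BB n A →+* _)] at this
  have hflτ : flB Φ τB = C τB := flB_cc Φ τA
  set ψ := flB Φ with hψ
  have hψ0 : ∀ x, coeff 0 (ψ x) = x := flB_zero_coeff Φ
  have hψF : ∀ N, ∀ x ∈ (fB n I).F N, (fB n I).InF N (ψ x) := fun N x hx => hΦ.flB_F N x hx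
  have hψr : ∀ x, (fB n I).Rst (ψ x) := hΦ.flB_rst
  have hψm : ∀ x y, ψ (x * y) = ψ x * ψ y := flB_mul Φ
  have hinv : ∀ X, (fB n I).Rst X → (fB n I).Rst (inv ψ X) :=
    hINV (fB n I) ψ hψ0 hψF hψr (fun N x hx => hΦ.approx hdet N x hx)
  set ψ' : BB n A →+ PowerSeries (BB n A) := (invA ψ hψ0).comp
    (C : BB n A →+* PowerSeries (BB n A)).toAddMonoidHom with hψ'
  have hψ'x : ∀ x, ψ' x = inv ψ (C x) := fun x => rfl
  have hext' : ∀ X, ext ψ (ext ψ' X) = X :=
    ext_comp ψ ψ' fun x => by rw [hψ'x, ext_inv ψ hψ0]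
  set Ψ : BB n A →+* BB n A :=
    { toFun := fun x => (fB n I).ev τB (ψ x)
      map_one' := by
        rw [hfl1]
        have := b5 1
        rwa [map_one] at this
      map_mul' := fun x y => by rw [hψm, b4 _ _ (hψr x) (hψr y)]
      map_zero' := by
        rw [map_zero]
        have := b5 0
        rwa [map_zero] at this
      map_add' := fun x y => by rw [map_add, b3 _ _ (hψr x) (hψr y)] } with hΨ
  have hΨx : ∀ x, Ψ x = (fB n I).ev τB (ψ x) := fun x => rfl
  have hbij : Function.Bijective Ψ := by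
    have i1 : ∀ x, (fB n I).Rst (ψ' x) := fun x => hinv _ (Filt.Rst.C x)
    have i2 : ∀ N, ∀ x ∈ (fB n I).F N, (fB n I).InF N (ψ' x) := by
      intro N x hx
      rw [hψ'x]
      refine inv_inF (hψF N) fun m => ?_
      rw [coeff_C]
      split_ifs
      · exact hx
      · exact zero_mem _
    have m1 := hEVM (fB n I) (fB n I) cB cB τB τB (fun x => mul_comm _ _)
      (fun x => mul_comm _ _) ψ (fun x => by rw [hψm, hflτ]) hψF hψr
    have m2 := hEVM (fB n I) (fB n I) cB cB τB τB (fun x => mul_comm _ _)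
      (fun x => mul_comm _ _) ψ' (fun x => by
        have e1 : ext ψ (ψ' (x * τB) - ψ' x * C τB) = 0 := by
          rw [map_sub, hψ'x, ext_inv ψ hψ0, ext_mul ψ hψm, hψ'x, ext_inv ψ hψ0, ext_C, hflτ,
            map_mul, sub_self]
        exact sub_eq_zero.1 (ext_inj ψ hψ0 e1)) i2 i1
    have k1 : ∀ x, Ψ ((fB n I).ev τB (ψ' x)) = x := by
      intro x
      rw [hΨx, ← (m1 _ (i1 x)).2, hψ'x, ext_inv ψ hψ0, b5]
    have k2 : ∀ x, (fB n I).ev τB (ψ' (Ψ x)) = x := by
      intro x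
      rw [hΨx, ← (m2 _ (hψr x)).2]
      have e1 : ext ψ' (ψ x) = C x := by
        have e2 : ext ψ (ext ψ' (ψ x) - C x) = 0 := by
          rw [map_sub, hext', ext_C, sub_self]
        exact sub_eq_zero.1 (ext_inj ψ hψ0 e2)
      rw [e1, b5]
    exact ⟨fun x y hxy => by rw [← k2 x, ← k2 y, hxy], fun x => ⟨_, k1 x⟩⟩
  -- the intertwiner
  have hev : ∀ X : PowerSeries (Matrix (Fk n) (Fk n) (BB n A)),
      (fM (Fk n) (fB n I)).Rst X → ∀ a c,
      (fM (Fk n) (fB n I)).ev τE X a c = (fB n I).ev τB (toM X a c) := by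
    intro X hX a c
    refine (b2 _ _ fun N => ?_).symm
    obtain ⟨M, hM⟩ := c1 X hX N
    refine ⟨M, fun m hm => ?_⟩
    have h1 := hM m hm a c
    have h2 : psum τE X m a c = psum τB (toM X a c) m := by
      rw [psum, psum, Matrix.sum_apply]
      refine Finset.sum_congr rfl fun j _ => ?_
      rw [hτE, ← map_pow, coeff_toM, ← Algebra.commutes, ← Algebra.smul_def, Matrix.smul_apply,
        smul_eq_mul, mul_comm]
    rw [Matrix.sub_apply, h2] at h1
    exact h1
  have hham := ham Φ hh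
  have hGH : G * H = 1 := GG_HH
  have hHG : H * G = 1 := HH_GG
  set G0 := (fM (Fk n) (fB n I)).ev τE G with hG0
  set H0 := (fM (Fk n) (fB n I)).ev τE H with hH0
  have one' : (fM (Fk n) (fB n I)).ev τE 1 = 1 := by
    have := c5 1
    rwa [map_one] at this
  refine hFINB (tay 𝔡) (fun r => tay_const 𝔡 fun j => hk j r) (ev0_tay 𝔡) f h hh φ hff
    (RingEquiv.ofBijective Ψ hbij) ?_ ?_ G0 H0 ?_ ?_ ?_ ?_
  · intro a
    change Ψ (cc a) = cc a
    rw [hΨx, hψ, flB_cc, b5]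
  · intro a
    change Ψ (tay 𝔡 a) = tay 𝔡 (φ a)
    rw [hΨx, hψ, flB_tay, hφ]
    refine b2 _ _ fun N => ?_
    obtain ⟨M, hM⟩ := a1 _ (Φ.rst a) N
    refine ⟨M, fun m hm => ?_⟩
    have h1 := tay_F 𝔡 (hM m hm)
    rw [map_sub] at h1
    have h2 : tay 𝔡 (psum τA (Φ.φ a) m) = psum τB (PowerSeries.map (tay 𝔡) (Φ.φ a)) m := by
      rw [psum, psum, map_sum]
      refine Finset.sum_congr rfl fun j _ => ?_
      rw [map_mul, map_pow, htT, PowerSeries.coeff_map]
    rwa [h2] at h1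
  · rw [hG0, hH0, ← c4 _ _ rG rH, hGH, one']
  · rw [hG0, hH0, ← c4 _ _ rH rG, hHG, one']
  · have e1 : (DD h).map (RingEquiv.ofBijective Ψ hbij) =
        (fM (Fk n) (fB n I)).ev τE (fl DE (wE Φ) (DD h)) := by
      ext1 a c
      rw [hev _ (hΦ.flE_Rst _), fl_entry]
      rfl
    have e2 := hham.intertwine
    rw [e1, hG0, ← c4 _ _ (hΦ.flE_Rst _) rG, e2, c4 _ _ rG (Filt.Rst.C _), c5]
  · have e2 := hham.even (gam_DD h) DE_gam
    have e3 := congrArg ((fM (Fk n) (fB n I)).ev τE) e2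
    rw [c4 _ _ (Filt.Rst.C _) rG, c4 _ _ rG (Filt.Rst.C _), c5] at e3
    exact e3

end

end Pool.Agent.MFI
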