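import Pool.Agent.MFI.FlowF
import Pool.Agent.MFI.St2

/-!
# Isotopy invariance of matrix factorizations (MP_c8c50b_ag), helper26

Part 20: the core theorem over a frame, evaluation at `t = τ`.
-/

set_option autoImplicit false

open PowerSeries
open Finset.HasAntidiagonal (antidiagonal mem_antidiagonal)

namespace Pool.Agent.MFI

universe u

noncomputable section

/-- the core theorem over a frame -/
def S_COREF : Prop := ∀ {k A : Type u} [Field k] [CommRing A] [Algebra k A] [Algebra ℚ A]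
  (I : Ideal A), IsAdicComplete I A → IsReduced (A ⧸ I) → (minimalPrimes (A ⧸ I)).Finite →
  ∀ {n : ℕ} (X : Frame k A I n) (f : A), (∀ i, X.D i f ∈ I) → ∀ (Φ : FamF X f) (τ : k)
  (φ : A →+* A), (∀ a, φ a = (fA I).ev (algebraMap k A τ) (Φ.φ a)) → ∀ h : φ f = f,
  DGEqL k (DGF.pull (RingHom.id A) (rfl : (RingHom.id A) f = f)) (DGF.pull φ h)

/-- the core theorem over a frame -/
theorem m_COREF (hFINB : S_FINBL.{u}) : S_COREF.{u} := by
  intro k A _ _ _ _ I hcpl hred hfin n X f hf Φ τ φ hφ hff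
  have hhaus : IsHausdorff I A := inferInstance
  obtain ⟨h, hh⟩ := exists_h (cc f - X.T f : BB n A) (by
    rw [map_sub, X.ev0_T, sub_eq_zero]
    exact MvPowerSeries.constantCoeff_C f)
  have hJ := Φ.js hf (fun i j => chi I (pd i (h j))) (fun i j => X.msym hf h hh i j)
  have hdet := hJ.det
  obtain ⟨rG, rH⟩ := Φ.GG_Rst hf hred hfin h hJ
  set G := GG X.DE Φ.wE Φ.bE (DD h) with hG
  set H := HH X.DE Φ.wE Φ.bE (DD h) with hH
  have cA := m_CPL.1 I hcpl
  have cB := m_CPL.2.1 I n cA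
  have cE := m_CPL.2.2 (Fk n) (fB n I) cB
  set τA : A := algebraMap k A τ with hτA
  set τB : BB n A := cc τA with hτB
  set τE : Matrix (Fk n) (Fk n) (BB n A) := algebraMap (BB n A) _ τB with hτE
  obtain ⟨a1, a2, a3, a4, a5, a6⟩ := m_EV (fA I) cA τA (fun x => mul_comm _ _)
  obtain ⟨b1, b2, b3, b4, b5, b6⟩ := m_EV (fB n I) cB τB (fun x => mul_comm _ _)
  obtain ⟨c1, c2, c3, c4, c5, c6⟩ := m_EV (fM (Fk n) (fB n I)) cE τE
    (fun x => Algebra.commutes _ _)
  have hTk : ∀ r : k, X.T (algebraMap k A r) = cc (algebraMap k A r) :=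
    fun r => X.T_const fun i => (X.D i).map_algebraMap r
  have htT : X.T τA = τB := hTk τ
  -- the automorphism
  have hfl1 : Φ.flB 1 = 1 := by
    have := Φ.flB_cc 1
    rwa [map_one (cc : A →+* BB n A), map_one (C : BB n A →+* _)] at this
  have hflτ : Φ.flB τB = C τB := Φ.flB_cc τA
  set ψ := Φ.flB with hψ
  have hψ0 : ∀ x, coeff 0 (ψ x) = x := Φ.flB_zero_coeff
  have hψF : ∀ N, ∀ x ∈ (fB n I).F N, (fB n I).InF N (ψ x) := fun N x hx => Φ.flB_F hf N x hx
  have hψr : ∀ x, (fB n I).Rst (ψ x) := Φ.flB_rst hf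
  have hψm : ∀ x y, ψ (x * y) = ψ x * ψ y := Φ.flB_mul
  have hinv : ∀ X, (fB n I).Rst X → (fB n I).Rst (inv ψ X) :=
    m_INV (fB n I) ψ hψ0 hψF hψr (fun N x hx => Φ.approx hf hdet N x hx)
  set ψ' : BB n A →+ PowerSeries (BB n A) := (invA ψ hψ0).comp
    (C : BB n A →+* PowerSeries (BB n A)).toAddMonoidHom with hψ'
  have hψ'x : ∀ x, ψ' x = inv ψ (C x) := fun x => rfl
  have hext' : ∀ X, ext ψ (ext ψ' X) = X :=
    ext_comp ψ ψ' fun x => by rw [hψ'x, ext_inv ψ hψ0]
  set Ψ : BB n A →+* BB n A :=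
    { toFun := fun x => (fB n I).ev τB (ψ x)
      map_one' := by
        rw [hfl1]
        have := b5 1
        rwa [map_one] at this
      map_mul' := fun x y => by rw [hψm, b4 _ _ (hψr x) (hψr y)]
      map_zero' := by
        rw [map_zero]
        have := b5 0
        rwa [map_zero] at this
      map_add' := fun x y => by rw [map_add, b3 _ _ (hψr x) (hψr y)] } with hΨ
  have hΨx : ∀ x, Ψ x = (fB n I).ev τB (ψ x) := fun x => rfl
  have hbij : Function.Bijective Ψ := by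
    have i1 : ∀ x, (fB n I).Rst (ψ' x) := fun x => hinv _ (Filt.Rst.C x)
    have i2 : ∀ N, ∀ x ∈ (fB n I).F N, (fB n I).InF N (ψ' x) := by
      intro N x hx
      rw [hψ'x]
      refine inv_inF (hψF N) fun m => ?_
      rw [coeff_C]
      split_ifs
      · exact hx
      · exact zero_mem _
    have m1 := m_EVM (fB n I) (fB n I) cB cB τB τB (fun x => mul_comm _ _)
      (fun x => mul_comm _ _) ψ (fun x => by rw [hψm, hflτ]) hψF hψr
    have m2 := m_EVM (fB n I) (fB n I) cB cB τB τB (fun x => mul_comm _ _)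
      (fun x => mul_comm _ _) ψ' (fun x => by
        have e1 : ext ψ (ψ' (x * τB) - ψ' x * C τB) = 0 := by
          rw [map_sub, hψ'x, ext_inv ψ hψ0, ext_mul ψ hψm, hψ'x, ext_inv ψ hψ0, ext_C, hflτ,
            map_mul, sub_self]
        exact sub_eq_zero.1 (ext_inj ψ hψ0 e1)) i2 i1
    have k1 : ∀ x, Ψ ((fB n I).ev τB (ψ' x)) = x := by
      intro x
      rw [hΨx, ← (m1 _ (i1 x)).2, hψ'x, ext_inv ψ hψ0, b5]
    have k2 : ∀ x, (fB n I).ev τB (ψ' (Ψ x)) = x := by
      intro x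
      rw [hΨx, ← (m2 _ (hψr x)).2]
      have e1 : ext ψ' (ψ x) = C x := by
        have e2 : ext ψ (ext ψ' (ψ x) - C x) = 0 := by
          rw [map_sub, hext', ext_C, sub_self]
        exact sub_eq_zero.1 (ext_inj ψ hψ0 e2)
      rw [e1, b5]
    exact ⟨fun x y hxy => by rw [← k2 x, ← k2 y, hxy], fun x => ⟨_, k1 x⟩⟩
  -- the intertwiner
  have hev : ∀ X : PowerSeries (Matrix (Fk n) (Fk n) (BB n A)),
      (fM (Fk n) (fB n I)).Rst X → ∀ a c,
      (fM (Fk n) (fB n I)).ev τE X a c = (fB n I).ev τB (toM X a c) := by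
    intro X hX a c
    refine (b2 _ _ fun N => ?_).symm
    obtain ⟨M, hM⟩ := c1 X hX N
    refine ⟨M, fun m hm => ?_⟩
    have h1 := hM m hm a c
    have h2 : psum τE X m a c = psum τB (toM X a c) m := by
      rw [psum, psum, Matrix.sum_apply]
      refine Finset.sum_congr rfl fun j _ => ?_
      rw [hτE, ← map_pow, coeff_toM, ← Algebra.commutes, ← Algebra.smul_def, Matrix.smul_apply,
        smul_eq_mul, mul_comm]
    rw [Matrix.sub_apply, h2] at h1
    exact h1
  have hham := Φ.ham hh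
  have hGH : G * H = 1 := GG_HH
  have hHG : H * G = 1 := HH_GG
  set G0 := (fM (Fk n) (fB n I)).ev τE G with hG0
  set H0 := (fM (Fk n) (fB n I)).ev τE H with hH0
  have one' : (fM (Fk n) (fB n I)).ev τE 1 = 1 := by
    have := c5 1
    rwa [map_one] at this
  refine hFINB X.T hTk X.ev0_T f h hh φ hff
    (RingEquiv.ofBijective Ψ hbij) ?_ ?_ G0 H0 ?_ ?_ ?_ ?_
  · intro a
    change Ψ (cc a) = cc a
    rw [hΨx, hψ, Φ.flB_cc, b5]
  · intro a
    change Ψ (X.T a) = X.T (φ a)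
    rw [hΨx, hψ, Φ.flB_T, hφ]
    refine b2 _ _ fun N => ?_
    obtain ⟨M, hM⟩ := a1 _ (Φ.rst a) N
    refine ⟨M, fun m hm => ?_⟩
    have h1 := X.T_F N _ (hM m hm)
    rw [map_sub] at h1
    have h2 : X.T (psum τA (Φ.φ a) m) = psum τB (PowerSeries.map X.T (Φ.φ a)) m := by
      rw [psum, psum, map_sum]
      refine Finset.sum_congr rfl fun j _ => ?_
      rw [map_mul, map_pow, htT, PowerSeries.coeff_map]
    rwa [h2] at h1
  · rw [hG0, hH0, ← c4 _ _ rG rH, hGH, one']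
  · rw [hG0, hH0, ← c4 _ _ rH rG, hHG, one']
  · have e1 : (DD h).map (RingEquiv.ofBijective Ψ hbij) =
        (fM (Fk n) (fB n I)).ev τE (fl X.DE Φ.wE (DD h)) := by
      ext1 a c
      rw [hev _ (Φ.flE_Rst hf _), Φ.fl_entry]
      rfl
    have e2 := hham.intertwine
    rw [e1, hG0, ← c4 _ _ (Φ.flE_Rst hf _) rG, e2, c4 _ _ rG (Filt.Rst.C _), c5]
  · have e2 := hham.even (gam_DD h) X.DE_gam
    have e3 := congrArg ((fM (Fk n) (fB n I)).ev τE) e2
    rw [c4 _ _ (Filt.Rst.C _) rG, c4 _ _ rG (Filt.Rst.C _), c5] at e3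
    exact e3

end

end Pool.Agent.MFI
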