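import Pool.Agent.MFI.Ser

/-!
# Isotopy invariance of matrix factorizations (MP_c8c50b_ag), helper42

Part DC1: restricted power series over an adic ring, their values, primitives.
-/

set_option autoImplicit false

open PowerSeries
open Finset.HasAntidiagonal (antidiagonal mem_antidiagonal)

namespace Pool.Agent.MFI.DC

noncomputable section

section Val

variable {k A : Type*} [Field k] [CommRing A] [Algebra k A] (I : Ideal A)

/-- the coefficients of a restricted power series tend to zero -/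
def Rst (F : PowerSeries A) : Prop := ∀ N, ∃ M, ∀ m ≥ M, coeff m F ∈ I ^ N

/-- `a` is the value at `c` of the restricted power series `F` -/
def Val (c : k) (F : PowerSeries A) (a : A) : Prop :=
  ∀ N, ∃ P : Polynomial (A ⧸ I ^ N),
    (P : PowerSeries (A ⧸ I ^ N)) = PowerSeries.map (Ideal.Quotient.mk (I ^ N)) F ∧
      P.eval (algebraMap k (A ⧸ I ^ N) c) = Ideal.Quotient.mk (I ^ N) a

variable {I} {c : k}

theorem Val.add {F G : PowerSeries A} {a b : A} (hF : Val I c F a) (hG : Val I c G b) :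
    Val I c (F + G) (a + b) := by
  intro N
  obtain ⟨P, hP, hP'⟩ := hF N
  obtain ⟨Q, hQ, hQ'⟩ := hG N
  exact ⟨P + Q, by rw [Polynomial.coe_add, hP, hQ, map_add], by
    rw [Polynomial.eval_add, hP', hQ', map_add]⟩

theorem Val.mul {F G : PowerSeries A} {a b : A} (hF : Val I c F a) (hG : Val I c G b) :
    Val I c (F * G) (a * b) := by
  intro N
  obtain ⟨P, hP, hP'⟩ := hF N
  obtain ⟨Q, hQ, hQ'⟩ := hG N
  exact ⟨P * Q, by rw [Polynomial.coe_mul, hP, hQ, map_mul], by
    rw [Polynomial.eval_mul, hP', hQ', map_mul]⟩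

theorem val_C (a : A) : Val I c (C a) a := by
  intro N
  exact ⟨Polynomial.C (Ideal.Quotient.mk (I ^ N) a), by
    rw [Polynomial.coe_C, PowerSeries.map_C], by rw [Polynomial.eval_C]⟩

theorem val_zero : Val I c (0 : PowerSeries A) 0 := by
  have h := val_C (I := I) (c := c) (0 : A)
  rwa [map_zero] at h

theorem Val.neg {F : PowerSeries A} {a : A} (hF : Val I c F a) : Val I c (-F) (-a) := by
  intro N
  obtain ⟨P, hP, hP'⟩ := hF N
  exact ⟨-P, by rw [Polynomial.coe_neg, hP, map_neg], by rw [Polynomial.eval_neg, hP', map_neg]⟩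

theorem Val.sub {F G : PowerSeries A} {a b : A} (hF : Val I c F a) (hG : Val I c G b) :
    Val I c (F - G) (a - b) := by
  rw [sub_eq_add_neg, sub_eq_add_neg]
  exact hF.add hG.neg

theorem Val.sum {ι : Type*} (s : Finset ι) {F : ι → PowerSeries A} {a : ι → A}
    (h : ∀ i ∈ s, Val I c (F i) (a i)) : Val I c (∑ i ∈ s, F i) (∑ i ∈ s, a i) := by
  classical
  induction s using Finset.induction_on with
  | empty =>
    rw [Finset.sum_empty, Finset.sum_empty]
    exact val_zero
  | insert a s ha ih =>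
    rw [Finset.sum_insert ha, Finset.sum_insert ha]
    exact (h a (Finset.mem_insert_self a s)).add
      (ih fun i hi => h i (Finset.mem_insert_of_mem hi))

theorem Val.smul (x : k) {F : PowerSeries A} {a : A} (hF : Val I c F a) :
    Val I c (x • F) (x • a) := by
  have h := (val_C (I := I) (c := c) (algebraMap k A x)).mul hF
  have e1 : C (algebraMap k A x) * F = x • F := by
    ext m
    rw [coeff_C_mul, ← Algebra.smul_def]
    rfl
  rwa [e1, ← Algebra.smul_def] at h

/-- the partial sums converge to the value -/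
theorem Val.lim {F : PowerSeries A} {a : A} (hF : Val I c F a) (N : ℕ) :
    ∃ M, ∀ m ≥ M, (∑ i ∈ Finset.range m, c ^ i • coeff i F) - a ∈ I ^ N := by
  obtain ⟨P, hP, hP'⟩ := hF N
  refine ⟨P.natDegree + 1, fun m hm => ?_⟩
  rw [← Ideal.Quotient.eq, ← hP', Polynomial.eval_eq_sum_range' (n := m) (by omega), map_sum]
  refine Finset.sum_congr rfl fun i _ => ?_
  have e1 : P.coeff i = Ideal.Quotient.mk (I ^ N) (coeff i F) := by
    rw [← PowerSeries.coeff_map, ← hP, Polynomial.coeff_coe]
  rw [e1, Algebra.smul_def, map_mul, map_pow, map_pow, mul_comm]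
  rfl

theorem Val.rst {F : PowerSeries A} {a : A} (hF : Val I c F a) : Rst I F := by
  intro N
  obtain ⟨P, hP, _⟩ := hF N
  refine ⟨P.natDegree + 1, fun m hm => ?_⟩
  have e1 : Ideal.Quotient.mk (I ^ N) (coeff m F) = P.coeff m := by
    rw [← PowerSeries.coeff_map, ← hP, Polynomial.coeff_coe]
  rw [← Ideal.Quotient.eq_zero_iff_mem, e1]
  exact Polynomial.coeff_eq_zero_of_natDegree_lt (by omega)

/-- the converse of `Val.lim` -/
theorem val_of_lim {F : PowerSeries A} {a : A} (hR : Rst I F)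
    (h : ∀ N, ∃ M, ∀ m ≥ M, (∑ i ∈ Finset.range m, c ^ i • coeff i F) - a ∈ I ^ N) :
    Val I c F a := by
  intro N
  obtain ⟨M, hM⟩ := h N
  obtain ⟨M', hM'⟩ := hR N
  have hm1 : M ≤ max M M' + 1 := (le_max_left _ _).trans (Nat.le_succ _)
  have hm2 : M' ≤ max M M' + 1 := (le_max_right _ _).trans (Nat.le_succ _)
  refine ⟨trunc (max M M' + 1) (PowerSeries.map (Ideal.Quotient.mk (I ^ N)) F), ?_, ?_⟩
  · ext i
    rw [Polynomial.coeff_coe, coeff_trunc, PowerSeries.coeff_map]
    split_ifs with h1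
    · rfl
    · symm
      rw [Ideal.Quotient.eq_zero_iff_mem]
      exact hM' i (by omega)
  · have h1 := hM _ hm1
    rw [← Ideal.Quotient.eq] at h1
    rw [← h1, map_sum, Polynomial.eval_eq_sum_range' (natDegree_trunc_lt _ _)]
    refine Finset.sum_congr rfl fun i hi => ?_
    rw [coeff_trunc, if_pos (Finset.mem_range.1 hi), PowerSeries.coeff_map, Algebra.smul_def,
      map_mul, map_pow, map_pow, mul_comm]
    rfl

theorem Rst.val_zero (k : Type*) [Field k] [Algebra k A] {F : PowerSeries A} (hF : Rst I F) :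
    Val I (0 : k) F (coeff 0 F) := by
  refine val_of_lim hF fun N => ⟨1, fun m hm => ?_⟩
  obtain ⟨j, rfl⟩ : ∃ j, m = j + 1 := ⟨m - 1, by omega⟩
  rw [Finset.sum_range_succ', pow_zero, one_smul, Finset.sum_eq_zero, zero_add, sub_self]
  · exact zero_mem _
  · intro i _
    rw [zero_pow (Nat.succ_ne_zero i), zero_smul]

theorem Rst.add {F G : PowerSeries A} (hF : Rst I F) (hG : Rst I G) : Rst I (F + G) := by
  intro N
  obtain ⟨M, hM⟩ := hF N
  obtain ⟨M', hM'⟩ := hG N
  refine ⟨max M M', fun m hm => ?_⟩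
  rw [map_add]
  exact add_mem (hM m (le_trans (le_max_left _ _) hm)) (hM' m (le_trans (le_max_right _ _) hm))

theorem Rst.neg {F : PowerSeries A} (hF : Rst I F) : Rst I (-F) := by
  intro N
  obtain ⟨M, hM⟩ := hF N
  exact ⟨M, fun m hm => by rw [map_neg]; exact neg_mem (hM m hm)⟩

theorem Rst.sub {F G : PowerSeries A} (hF : Rst I F) (hG : Rst I G) : Rst I (F - G) := by
  rw [sub_eq_add_neg]
  exact hF.add hG.neg

theorem Rst.mul {F G : PowerSeries A} (hF : Rst I F) (hG : Rst I G) : Rst I (F * G) := by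
  intro N
  obtain ⟨M, hM⟩ := hF N
  obtain ⟨M', hM'⟩ := hG N
  refine ⟨M + M', fun m hm => ?_⟩
  rw [coeff_mul]
  refine sum_mem fun p hp => ?_
  have h1 := mem_antidiagonal.1 hp
  rcases Nat.lt_or_ge p.1 M with h2 | h2
  · exact Ideal.mul_mem_left _ _ (hM' p.2 (by omega))
  · exact Ideal.mul_mem_right _ _ (hM p.1 h2)

theorem rst_C (a : A) : Rst I (C a) := fun N => ⟨1, fun m hm => by
  rw [coeff_C, if_neg (by omega)]
  exact zero_mem _⟩

theorem rst_zero : Rst I (0 : PowerSeries A) := fun N => ⟨0, fun m _ => by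
  rw [map_zero]
  exact zero_mem _⟩

theorem Rst.sum {ι : Type*} (s : Finset ι) {F : ι → PowerSeries A}
    (h : ∀ i ∈ s, Rst I (F i)) : Rst I (∑ i ∈ s, F i) := by
  classical
  induction s using Finset.induction_on with
  | empty =>
    rw [Finset.sum_empty]
    exact rst_zero
  | insert a s ha ih =>
    rw [Finset.sum_insert ha]
    exact (h a (Finset.mem_insert_self a s)).add
      (ih fun i hi => h i (Finset.mem_insert_of_mem hi))

theorem Rst.smul (x : k) {F : PowerSeries A} (hF : Rst I F) : Rst I (x • F) := by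
  intro N
  obtain ⟨M, hM⟩ := hF N
  refine ⟨M, fun m hm => ?_⟩
  have e1 : coeff m (x • F) = x • coeff m F := rfl
  rw [e1, Algebra.smul_def]
  exact Ideal.mul_mem_left _ _ (hM m hm)

theorem Rst.dt {F : PowerSeries A} (hF : Rst I F) : Rst I (dt F) := by
  intro N
  obtain ⟨M, hM⟩ := hF N
  refine ⟨M, fun m hm => ?_⟩
  rw [coeff_dt]
  exact nsmul_mem (hM _ (by omega)) _

/-- completeness: restricted power series have values -/
theorem Rst.val [IsAdicComplete I A] (c : k) {F : PowerSeries A} (hF : Rst I F) :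
    ∃ a, Val I c F a := by
  choose M hM using hF
  have hS : ∀ N m m', M N ≤ m → m ≤ m' →
      (∑ i ∈ Finset.range m', c ^ i • coeff i F) - (∑ i ∈ Finset.range m, c ^ i • coeff i F) ∈
        I ^ N := by
    intro N m m' h1 h2
    rw [← Finset.sum_range_add_sum_Ico _ h2, add_sub_cancel_left]
    refine sum_mem fun i hi => ?_
    rw [Algebra.smul_def]
    exact Ideal.mul_mem_left _ _ (hM N i (by have := (Finset.mem_Ico.1 hi).1; omega))
  set g : ℕ → ℕ := fun N => ∑ j ∈ Finset.range (N + 1), M j with hg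
  have hg1 : ∀ N, M N ≤ g N := fun N =>
    Finset.single_le_sum (f := M) (fun _ _ => Nat.zero_le _) (Finset.mem_range.2 (Nat.lt_succ_self N))
  have hg2 : ∀ N N', N ≤ N' → g N ≤ g N' := fun N N' h =>
    Finset.sum_le_sum_of_subset (Finset.range_subset_range.2 (by omega))
  obtain ⟨L, hL⟩ := IsPrecomplete.prec' (I := I) (M := A)
    (fun N => ∑ i ∈ Finset.range (g N), c ^ i • coeff i F) (by
      intro m n hmn
      rw [SModEq.sub_mem, smul_eq_mul, Ideal.mul_top, ← neg_sub]
      exact neg_mem (hS m _ _ (hg1 m) (hg2 _ _ hmn)))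
  refine ⟨L, val_of_lim (fun N => ⟨M N, fun m hm => hM N m hm⟩) fun N => ⟨g N, fun m hm => ?_⟩⟩
  have h1 := hL N
  rw [SModEq.sub_mem, smul_eq_mul, Ideal.mul_top] at h1
  have h2 := add_mem (hS N _ _ (hg1 N) hm) h1
  rwa [sub_add_sub_cancel] at h2

theorem Val.unique [IsHausdorff I A] {F : PowerSeries A} {a b : A} (ha : Val I c F a)
    (hb : Val I c F b) : a = b := by
  rw [← sub_eq_zero]
  refine IsHausdorff.haus' (I := I) _ fun N => ?_
  rw [SModEq.zero, smul_eq_mul, Ideal.mul_top]
  obtain ⟨M, hM⟩ := ha.lim N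
  obtain ⟨M', hM'⟩ := hb.lim N
  have h1 := sub_mem (hM' _ (le_max_right M M')) (hM _ (le_max_left M M'))
  rwa [sub_sub_sub_cancel_left] at h1

end Val

section Prim

variable (k : Type*) {A : Type*} [Field k] [CharZero k] [CommRing A] [Algebra k A] {I : Ideal A}

/-- the primitive with value zero at zero -/
def prim (F : PowerSeries A) : PowerSeries A :=
  mk fun m => match m with
    | 0 => 0
    | (m + 1) => ((m + 1 : k)⁻¹) • coeff m F

omit [CharZero k] in
@[simp] theorem coeff_prim_zero (F : PowerSeries A) : coeff 0 (prim k F) = 0 := by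
  rw [prim, coeff_mk]

omit [CharZero k] in
@[simp] theorem coeff_prim_succ (F : PowerSeries A) (m : ℕ) :
    coeff (m + 1) (prim k F) = ((m + 1 : k)⁻¹) • coeff m F := by
  rw [prim, coeff_mk]

theorem nsmul_ksmul (m : ℕ) (x : A) : ((m + 1 : k)⁻¹) • ((m + 1) • x) = x := by
  have h2 : ((m + 1) • x : A) = ((m + 1 : k)) • x := by
    rw [show ((m + 1 : k)) = ((m + 1 : ℕ) : k) by push_cast; rfl, Nat.cast_smul_eq_nsmul]
  rw [h2, smul_smul, inv_mul_cancel₀ (by exact_mod_cast Nat.succ_ne_zero m), one_smul]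

theorem ksmul_nsmul (m : ℕ) (x : A) : (m + 1) • (((m + 1 : k)⁻¹) • x) = x := by
  have h2 : ((m + 1) • (((m + 1 : k)⁻¹) • x) : A) = ((m + 1 : k)) • (((m + 1 : k)⁻¹) • x) := by
    rw [show ((m + 1 : k)) = ((m + 1 : ℕ) : k) by push_cast; rfl, Nat.cast_smul_eq_nsmul]
  rw [h2, smul_smul, mul_inv_cancel₀ (by exact_mod_cast Nat.succ_ne_zero m), one_smul]

theorem dt_prim (F : PowerSeries A) : dt (prim k F) = F := by
  ext m
  rw [coeff_dt, coeff_prim_succ, ksmul_nsmul]

theorem prim_dt (F : PowerSeries A) : prim k (dt F) = F - C (coeff 0 F) := by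
  ext m
  rcases m with _ | m
  · rw [coeff_prim_zero]
    simp
  · rw [coeff_prim_succ, coeff_dt, nsmul_ksmul, map_sub, coeff_C, if_neg (Nat.succ_ne_zero m),
      sub_zero]

omit [CharZero k] in
theorem prim_add (F G : PowerSeries A) : prim k (F + G) = prim k F + prim k G := by
  ext m
  rcases m with _ | m
  · rw [map_add, coeff_prim_zero, coeff_prim_zero, coeff_prim_zero, add_zero]
  · rw [map_add, coeff_prim_succ, coeff_prim_succ, coeff_prim_succ, map_add, smul_add]

omit [CharZero k] in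
theorem Rst.prim {F : PowerSeries A} (hF : Rst I F) : Rst I (prim k F) := by
  intro N
  obtain ⟨M, hM⟩ := hF N
  refine ⟨M + 1, fun m hm => ?_⟩
  obtain ⟨j, rfl⟩ : ∃ j, m = j + 1 := ⟨m - 1, by omega⟩
  rw [coeff_prim_succ, Algebra.smul_def]
  exact Ideal.mul_mem_left _ _ (hM j (by omega))

end Prim

end

end Pool.Agent.MFI.DC
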