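import Pool.Agent.MFI.DC1

/-!
# Isotopy invariance of matrix factorizations (MP_c8c50b_ag), helper42

Part DC2: Koszul boundaries of degree one, Taylor sums along a path, the comparison of two paths
with the same ends.
-/

set_option autoImplicit false

open PowerSeries
open Finset.HasAntidiagonal (antidiagonal mem_antidiagonal)

namespace Pool.Agent.MFI.DC

noncomputable section

/-! ## Koszul boundaries -/

section Bd

variable {A : Type*} [CommRing A] {n : ℕ}

/-- the boundaries `Σ_ij β_ij g_j θ_i`, `β` antisymmetric, of the Koszul complex of `g` -/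
def Bd (g : Fin n → A) : Submodule A (Fin n → A) where
  carrier := {v | ∃ β : Fin n → Fin n → A, (∀ i j, β i j = - β j i) ∧
    ∀ i, v i = ∑ j, β i j * g j}
  add_mem' := by
    rintro v w ⟨β, h1, h2⟩ ⟨β', h1', h2'⟩
    refine ⟨fun i j => β i j + β' i j, fun i j => ?_, fun i => ?_⟩
    · change β i j + β' i j = -(β j i + β' j i)
      rw [h1 i j, h1' i j]; ring
    · rw [Pi.add_apply, h2, h2', ← Finset.sum_add_distrib]
      exact Finset.sum_congr rfl fun j _ => by ring
  zero_mem' := ⟨fun _ _ => 0, fun _ _ => by simp, fun i => by simp⟩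
  smul_mem' := by
    rintro c v ⟨β, h1, h2⟩
    refine ⟨fun i j => c * β i j, fun i j => ?_, fun i => ?_⟩
    · change c * β i j = -(c * β j i)
      rw [h1 i j]; ring
    · rw [Pi.smul_apply, h2, smul_eq_mul, Finset.mul_sum]
      exact Finset.sum_congr rfl fun j _ => by ring

variable {g : Fin n → A}

theorem mem_Bd {v : Fin n → A} : v ∈ Bd g ↔ ∃ β : Fin n → Fin n → A,
    (∀ i j, β i j = - β j i) ∧ ∀ i, v i = ∑ j, β i j * g j := Iff.rfl

/-- the ideal of `g` times a cycle is a boundary -/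
theorem mul_cycle {c : Fin n → A} {z : Fin n → A} (hz : ∑ j, z j * g j = 0) :
    (fun i => (∑ j, c j * g j) * z i) ∈ Bd g := by
  refine ⟨fun i j => z i * c j - c i * z j, fun i j => by ring, fun i => ?_⟩
  have e1 : ∑ j, (z i * c j - c i * z j) * g j =
      z i * (∑ j, c j * g j) - c i * ∑ j, z j * g j := by
    rw [Finset.mul_sum, Finset.mul_sum, ← Finset.sum_sub_distrib]
    exact Finset.sum_congr rfl fun j _ => by ring
  rw [e1, hz, mul_zero, sub_zero, mul_comm]

/-- `W_N`: boundaries plus vectors with entries in `I^N` -/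
def Wn (g : Fin n → A) (I : Ideal A) (N : ℕ) : Submodule A (Fin n → A) :=
  Bd g ⊔ Submodule.pi Set.univ (fun _ => I ^ N)

theorem mem_Wn_of_Bd {I : Ideal A} {N : ℕ} {v : Fin n → A} (h : v ∈ Bd g) : v ∈ Wn g I N :=
  Submodule.mem_sup_left h

theorem mem_Wn_of_pow {I : Ideal A} {N : ℕ} {v : Fin n → A} (h : ∀ i, v i ∈ I ^ N) :
    v ∈ Wn g I N :=
  Submodule.mem_sup_right (Submodule.mem_pi.2 fun i _ => h i)

/-- Krull: boundaries are closed -/
theorem mem_Bd_of_Wn [IsNoetherianRing A] {I : Ideal A} [IsAdicComplete I A] {v : Fin n → A}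
    (h : ∀ N, v ∈ Wn g I N) : v ∈ Bd g := by
  have h1 : (⨅ i : ℕ, I ^ i • ⊤ : Submodule A ((Fin n → A) ⧸ Bd g)) = ⊥ :=
    Ideal.iInf_pow_smul_eq_bot_of_le_jacobson _ (IsAdicComplete.le_jacobson_bot I)
  rw [← Submodule.Quotient.mk_eq_zero, ← Submodule.mem_bot A, ← h1, Submodule.mem_iInf]
  intro N
  obtain ⟨b, hb, c, hc, hbc⟩ := Submodule.mem_sup.1 (h N)
  have e1 : (Submodule.Quotient.mk v : (Fin n → A) ⧸ Bd g) = Submodule.Quotient.mk c := by
    rw [Submodule.Quotient.eq, ← hbc, add_sub_cancel_right]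
    exact hb
  rw [e1]
  have e2 : c = ∑ i, c i • (Pi.single i 1 : Fin n → A) := by
    ext j
    simp [Finset.sum_apply, Pi.single_apply]
  rw [e2, ← Submodule.mkQ_apply, map_sum]
  refine sum_mem fun i _ => ?_
  rw [map_smul]
  exact Submodule.smul_mem_smul (Submodule.mem_pi.1 hc i trivial) trivial

end Bd

/-! ## values and submodules -/

section ValMem

variable {k A : Type*} [Field k] [CommRing A] [Algebra k A] {I : Ideal A} {c : k} {n : ℕ}

theorem smul_mem_sub (x : k) {V : Submodule A (Fin n → A)} {v : Fin n → A} (h : v ∈ V) :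
    x • v ∈ V := by
  have e : x • v = (algebraMap k A x) • v := by
    ext i
    rw [Pi.smul_apply, Pi.smul_apply, Algebra.smul_def, smul_eq_mul]
  rw [e]
  exact V.smul_mem _ h

theorem val_mem {g : Fin n → A} {N : ℕ} {F : Fin n → PowerSeries A}
    {a : Fin n → A} (hF : ∀ l, Val I c (F l) (a l))
    (h : ∀ r, (fun l => coeff r (F l)) ∈ Wn g I N) : a ∈ Wn g I N := by
  choose M hM using fun l => (hF l).lim N
  set m := ∑ l, M l with hm
  have e1 : a = (∑ i ∈ Finset.range m, c ^ i • fun l => coeff i (F l)) -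
      fun l => (∑ i ∈ Finset.range m, c ^ i • coeff i (F l)) - a l := by
    ext l
    rw [Pi.sub_apply, Finset.sum_apply]
    simp only [Pi.smul_apply, sub_sub_cancel]
  rw [e1]
  refine sub_mem (sum_mem fun i _ => smul_mem_sub _ (h i)) (mem_Wn_of_pow fun l => hM l m ?_)
  exact Finset.single_le_sum (f := M) (fun _ _ => Nat.zero_le _) (Finset.mem_univ l)

end ValMem

/-! ## Taylor sums -/

section Taylor

variable (k : Type*) {A B : Type*} [Field k] [CharZero k] [CommRing A] [CommRing B] [Algebra k B]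
  {n : ℕ} (D : Fin n → A → A) (ι : A → B)

/-- the homogeneous part of degree `m` in `Y` of the Taylor series `a(x + Y)` -/
def ty (Y : Fin n → B) : ℕ → A → B
  | 0, a => ι a
  | (m + 1), a => ((m + 1 : k)⁻¹) • ∑ i, Y i * ty Y m (D i a)

end Taylor

section Path

variable {k A : Type*} [Field k] [CharZero k] [CommRing A] [Algebra k A] {n : ℕ}
  {D : Fin n → A → A} {I : Ideal A}

omit [CharZero k] in
theorem coeff_ksmul (x : k) (F : PowerSeries A) (m : ℕ) : coeff m (x • F) = x • coeff m F := rfl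

omit [CharZero k] in
theorem ksmul_mem {N : ℕ} (x : k) {a : A} (h : a ∈ I ^ N) : x • a ∈ I ^ N := by
  rw [Algebra.smul_def]
  exact Ideal.mul_mem_left _ _ h

/-- all coefficients lie in `I^N` -/
def InP (I : Ideal A) (N : ℕ) (F : PowerSeries A) : Prop := ∀ m, coeff m F ∈ I ^ N

theorem InP.add {N : ℕ} {F G : PowerSeries A} (hF : InP I N F) (hG : InP I N G) :
    InP I N (F + G) := fun m => by rw [map_add]; exact add_mem (hF m) (hG m)

theorem InP.neg {N : ℕ} {F : PowerSeries A} (hF : InP I N F) : InP I N (-F) :=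
  fun m => by rw [map_neg]; exact neg_mem (hF m)

theorem InP.sub {N : ℕ} {F G : PowerSeries A} (hF : InP I N F) (hG : InP I N G) :
    InP I N (F - G) := fun m => by rw [map_sub]; exact sub_mem (hF m) (hG m)

theorem InP.sum {N : ℕ} {ι : Type*} (s : Finset ι) {F : ι → PowerSeries A}
    (h : ∀ i ∈ s, InP I N (F i)) : InP I N (∑ i ∈ s, F i) := fun m => by
  rw [map_sum]
  exact sum_mem fun i hi => h i hi m

theorem InP.mul {N M : ℕ} {F G : PowerSeries A} (hF : InP I N F) (hG : InP I M G) :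
    InP I (N + M) (F * G) := fun m => by
  rw [coeff_mul]
  refine sum_mem fun p _ => ?_
  rw [pow_add]
  exact Ideal.mul_mem_mul (hF _) (hG _)

omit [CharZero k] in
theorem InP.smul {N : ℕ} (x : k) {F : PowerSeries A} (hF : InP I N F) : InP I N (x • F) :=
  fun m => ksmul_mem x (hF m)

theorem inP_zero (F : PowerSeries A) : InP I 0 F := fun m => by simp

theorem InP.mono {N M : ℕ} (h : N ≤ M) {F : PowerSeries A} (hF : InP I M F) : InP I N F :=
  fun m => Ideal.pow_le_pow_right h (hF m)

theorem InP.mul_left {N : ℕ} (G : PowerSeries A) {F : PowerSeries A} (hF : InP I N F) :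
    InP I N (G * F) := by
  have := (inP_zero (I := I) G).mul hF
  rwa [zero_add] at this

theorem InP.mul_right {N : ℕ} (G : PowerSeries A) {F : PowerSeries A} (hF : InP I N F) :
    InP I N (F * G) := hF.mul (inP_zero (I := I) G)

theorem InP.dt {N : ℕ} {F : PowerSeries A} (hF : InP I N F) : InP I N (dt F) := fun m => by
  rw [coeff_dt]
  exact nsmul_mem (hF _) _

theorem inP_of_dt (k : Type*) [Field k] [CharZero k] [Algebra k A] {N : ℕ} {F : PowerSeries A}
    (h0 : coeff 0 F ∈ I ^ N) (h : InP I N (MFI.dt F)) : InP I N F := by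
  intro m
  rcases m with _ | m
  · exact h0
  · have h1 := ksmul_mem (k := k) ((m + 1 : k)⁻¹) (h m)
    rwa [coeff_dt, nsmul_ksmul] at h1

omit [CharZero k] in
/-- the Taylor sums lie in the powers of `I` -/
theorem ty_inP {Y : Fin n → PowerSeries A} (hY : ∀ i, InP I 1 (Y i)) (m : ℕ) :
    ∀ a, InP I m (ty k D C Y m a) := by
  induction m with
  | zero => exact fun a => inP_zero _
  | succ m ih =>
    intro a
    rw [ty]
    refine InP.smul _ (InP.sum _ fun i _ => ?_)
    rw [add_comm]
    exact (hY i).mul (ih _)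

omit [CharZero k] in
theorem dt_smul' (x : k) (F : PowerSeries A) : dt (x • F) = x • dt F := by
  ext m
  rw [coeff_dt, coeff_ksmul, coeff_ksmul, coeff_dt, smul_comm]

/-- the derivative of a Taylor sum along a path -/
theorem dt_ty (hcomm : ∀ i j a, D i (D j a) = D j (D i a)) (Y : Fin n → PowerSeries A) (m : ℕ) :
    ∀ a, dt (ty k D C Y (m + 1) a) = ∑ i, dt (Y i) * ty k D C Y m (D i a) := by
  induction m with
  | zero =>
    intro a
    rw [ty, dt_smul', map_sum]
    simp only [Nat.cast_zero, zero_add, inv_one, one_smul, ty, dt_mul, dt_C, mul_zero, add_zero]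
  | succ m ih =>
    intro a
    rw [ty, dt_smul', map_sum]
    have e1 : ∀ i, dt (Y i * ty k D C Y (m + 1) (D i a)) =
        dt (Y i) * ty k D C Y (m + 1) (D i a) +
          ∑ j, Y i * (dt (Y j) * ty k D C Y m (D j (D i a))) := by
      intro i
      rw [dt_mul, ih, Finset.mul_sum]
    rw [Finset.sum_congr rfl fun i _ => e1 i, Finset.sum_add_distrib]
    have e2 : ∑ i, ∑ j, Y i * (dt (Y j) * ty k D C Y m (D j (D i a))) =
        ∑ j, dt (Y j) * ((m + 1 : k) • ty k D C Y (m + 1) (D j a)) := by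
      rw [Finset.sum_comm]
      refine Finset.sum_congr rfl fun j _ => ?_
      rw [ty, smul_smul, mul_inv_cancel₀ (by exact_mod_cast Nat.succ_ne_zero m), one_smul,
        Finset.mul_sum]
      refine Finset.sum_congr rfl fun i _ => ?_
      rw [hcomm j i]
      ring
    rw [e2, ← Finset.sum_add_distrib, Finset.smul_sum]
    refine Finset.sum_congr rfl fun i _ => ?_
    rw [← mul_add, ← mul_smul_comm]
    congr 1
    have e5 : ty k D C Y (m + 1) (D i a) + (m + 1 : k) • ty k D C Y (m + 1) (D i a) =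
        (1 + ((m : k) + 1)) • ty k D C Y (m + 1) (D i a) := by
      rw [add_smul (1 : k) ((m : k) + 1), one_smul]
    have e3 : ((m + 1 : ℕ) : k) + 1 ≠ 0 := by exact_mod_cast Nat.succ_ne_zero (m + 1)
    have e4 : (((m + 1 : ℕ) : k) + 1)⁻¹ * (1 + ((m : k) + 1)) = 1 := by
      rw [show (1 : k) + ((m : k) + 1) = ((m + 1 : ℕ) : k) + 1 by push_cast; ring,
        inv_mul_cancel₀ e3]
    rw [e5, smul_smul, e4, one_smul]

theorem telesc (T : ℕ → PowerSeries A) (N : ℕ) :
    (∑ m ∈ Finset.range N, T m) - (∑ m ∈ Finset.range N, ((m + 1 : k)⁻¹) • T m) -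
      (∑ m ∈ Finset.range N, ((m + 2 : k)⁻¹ * (m + 1)) • T (m + 1)) =
      -(((N : k) * (N + 1 : k)⁻¹) • T N) := by
  induction N with
  | zero => simp
  | succ N ih =>
    rw [Finset.sum_range_succ, Finset.sum_range_succ, Finset.sum_range_succ]
    have e1 : (N + 1 : k) ≠ 0 := by exact_mod_cast Nat.succ_ne_zero N
    have e2 : T N - ((N + 1 : k)⁻¹) • T N = ((N : k) * (N + 1 : k)⁻¹) • T N := by
      rw [← one_smul k (T N), smul_smul, ← sub_smul, mul_one, smul_smul, mul_one]
      congr 1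
      field_simp
      ring
    have e3 : (((N + 1 : ℕ) : k) * (((N + 1 : ℕ) : k) + 1)⁻¹) • T (N + 1) =
        ((N + 2 : k)⁻¹ * (N + 1)) • T (N + 1) := by
      congr 1
      push_cast
      rw [mul_comm, add_assoc]
      norm_num
    rw [e3]
    linear_combination (exp := 1) ih + e2

theorem pathA (hcomm : ∀ i j a, D i (D j a) = D j (D i a)) {N : ℕ} (hN : 1 ≤ N)
    {g : Fin n → A} (hsym : ∀ i j, D j (g i) = D i (g j))
    {Y : Fin n → PowerSeries A} (hY : ∀ i, InP I 1 (Y i))
    {h : Fin n → Fin n → PowerSeries A} (hh : ∀ i, Y i = ∑ m, h i m * C (g m))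
    {F : Fin n → PowerSeries A}
    (hF : ∀ i, InP I N (F i - ∑ m ∈ Finset.range N, ty k D C Y m (g i))) (r : ℕ) :
    (fun l => coeff r (dt (∑ i, (∑ m ∈ Finset.range N, ((m + 1 : k)⁻¹) • ty k D C Y m (g i)) *
      h i l) - ∑ i, F i * dt (h i l))) ∈ Wn g I N := by
  set G : Fin n → PowerSeries A :=
    fun i => ∑ m ∈ Finset.range N, ((m + 1 : k)⁻¹) • ty k D C Y m (g i) with hG
  set Q : Fin n → Fin n → PowerSeries A :=
    fun i j => ∑ m ∈ Finset.range N, ((m + 2 : k)⁻¹) • ty k D C Y m (D j (g i)) with hQ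
  have hQs : ∀ i j, Q i j = Q j i := fun i j => by
    rw [hQ]
    simp only [hsym i j]
  have e1 : ∀ i, InP I N (F i - G i - ∑ j, Q i j * Y j) := by
    intro i
    have e2 : ∑ j, Q i j * Y j =
        ∑ m ∈ Finset.range N, ((m + 2 : k)⁻¹ * (m + 1)) • ty k D C Y (m + 1) (g i) := by
      rw [hQ]
      simp only [Finset.sum_mul]
      rw [Finset.sum_comm]
      refine Finset.sum_congr rfl fun m _ => ?_
      rw [ty, smul_smul, mul_assoc, mul_inv_cancel₀ (by exact_mod_cast Nat.succ_ne_zero m),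
        mul_one, Finset.smul_sum]
      refine Finset.sum_congr rfl fun j _ => ?_
      rw [smul_mul_assoc, mul_comm]
    have e3 : F i - G i - ∑ j, Q i j * Y j =
        (F i - ∑ m ∈ Finset.range N, ty k D C Y m (g i)) +
          -(((N : k) * (N + 1 : k)⁻¹) • ty k D C Y N (g i)) := by
      rw [← telesc (k := k) (fun m => ty k D C Y m (g i)) N, e2]
      ring
    rw [e3]
    exact (hF i).add ((ty_inP hY N _).smul _).neg
  have e2 : ∀ i, InP I N (dt (G i) - ∑ j, Q i j * dt (Y j)) := by
    intro i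
    obtain ⟨N', rfl⟩ : ∃ N', N = N' + 1 := ⟨N - 1, by omega⟩
    have e4 : dt (G i) = ∑ m ∈ Finset.range N', ((m + 2 : k)⁻¹) •
        ∑ j, dt (Y j) * ty k D C Y m (D j (g i)) := by
      rw [hG]
      simp only [map_sum, dt_smul']
      rw [Finset.sum_range_succ', ty, dt_C, smul_zero, add_zero]
      refine Finset.sum_congr rfl fun m _ => ?_
      rw [dt_ty hcomm]
      congr 2
      push_cast
      ring
    have e5 : ∑ j, Q i j * dt (Y j) = dt (G i) +
        ((N' + 2 : k)⁻¹) • ∑ j, dt (Y j) * ty k D C Y N' (D j (g i)) := by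
      rw [e4, ← Finset.sum_range_succ (fun m : ℕ => ((m + 2 : k)⁻¹) •
        ∑ j, dt (Y j) * ty k D C Y m (D j (g i)))]
      rw [hQ]
      simp only [Finset.sum_mul]
      rw [Finset.sum_comm]
      refine Finset.sum_congr rfl fun m _ => ?_
      rw [Finset.smul_sum]
      refine Finset.sum_congr rfl fun j _ => ?_
      rw [smul_mul_assoc, mul_comm]
    rw [e5, sub_add_cancel_left]
    refine (InP.smul _ (InP.sum _ fun j _ => ?_)).neg
    rw [add_comm N' 1]
    exact (hY j).dt.mul (ty_inP hY N' _)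
  set β : Fin n → Fin n → PowerSeries A :=
    fun l m => ∑ i, ∑ j, Q i j * (dt (h j m) * h i l - h j m * dt (h i l)) with hβ
  have hβa : ∀ l m, β l m = - β m l := by
    intro l m
    rw [hβ]
    simp only
    rw [Finset.sum_comm (f := fun i j => Q i j * (dt (h j l) * h i m - h j l * dt (h i m))),
      ← Finset.sum_neg_distrib]
    refine Finset.sum_congr rfl fun i _ => ?_
    rw [← Finset.sum_neg_distrib]
    refine Finset.sum_congr rfl fun j _ => ?_
    rw [hQs j i]
    ring
  have key : ∀ l, dt (∑ i, G i * h i l) - ∑ i, F i * dt (h i l) =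
      (∑ m, β l m * C (g m)) + (∑ i, (dt (G i) - ∑ j, Q i j * dt (Y j)) * h i l -
        ∑ i, (F i - G i - ∑ j, Q i j * Y j) * dt (h i l)) := by
    intro l
    have e6 : ∑ m, β l m * C (g m) =
        ∑ i, ((∑ j, Q i j * dt (Y j)) * h i l - (∑ j, Q i j * Y j) * dt (h i l)) := by
      rw [hβ]
      simp only [Finset.sum_mul]
      rw [Finset.sum_comm]
      refine Finset.sum_congr rfl fun i _ => ?_
      rw [Finset.sum_comm, ← Finset.sum_sub_distrib]
      refine Finset.sum_congr rfl fun j _ => ?_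
      have e7 : dt (Y j) = ∑ m, dt (h j m) * C (g m) := by
        rw [hh j, map_sum]
        refine Finset.sum_congr rfl fun m _ => ?_
        rw [dt_mul, dt_C, mul_zero, add_zero]
      rw [e7, hh j, Finset.mul_sum, Finset.mul_sum, Finset.sum_mul, Finset.sum_mul,
        ← Finset.sum_sub_distrib]
      refine Finset.sum_congr rfl fun m _ => ?_
      ring
    rw [e6, map_sum, ← Finset.sum_sub_distrib, ← Finset.sum_sub_distrib,
      ← Finset.sum_add_distrib]
    refine Finset.sum_congr rfl fun i _ => ?_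
    rw [dt_mul]
    ring
  have e8 : (fun l => coeff r (dt (∑ i, G i * h i l) - ∑ i, F i * dt (h i l))) =
      (fun l => ∑ m, coeff r (β l m) * g m) +
        fun l => coeff r (∑ i, (dt (G i) - ∑ j, Q i j * dt (Y j)) * h i l -
        ∑ i, (F i - G i - ∑ j, Q i j * Y j) * dt (h i l)) := by
    ext l
    rw [key l, map_add, Pi.add_apply, map_sum]
    congr 1
    refine Finset.sum_congr rfl fun m _ => ?_
    rw [coeff_mul_C]
  rw [e8]
  refine add_mem (mem_Wn_of_Bd ⟨fun l m => coeff r (β l m), fun l m => ?_, fun l => rfl⟩)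
    (mem_Wn_of_pow fun l => ?_)
  · change coeff r (β l m) = - coeff r (β m l)
    rw [hβa l m, map_neg]
  · exact ((InP.sum _ fun i _ => (e2 i).mul_right _).sub
      (InP.sum _ fun i _ => (e1 i).mul_right _)) r

/-- the Taylor theorem along a path -/
theorem taylor (hcomm : ∀ i j a, D i (D j a) = D j (D i a)) {H : A → PowerSeries A}
    {Y : Fin n → PowerSeries A} (hY : ∀ i, InP I 1 (Y i))
    (hH : ∀ a, dt (H a) = ∑ i, H (D i a) * dt (Y i))
    (h0 : ∀ N a, coeff 0 (H a) - coeff 0 (∑ m ∈ Finset.range N, ty k D C Y m a) ∈ I ^ N)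
    (N : ℕ) : ∀ a, InP I N (H a - ∑ m ∈ Finset.range N, ty k D C Y m a) := by
  induction N with
  | zero => exact fun a => inP_zero _
  | succ N ih =>
    intro a
    refine inP_of_dt k ?_ ?_
    · rw [map_sub]
      exact h0 (N + 1) a
    · have e1 : dt (H a - ∑ m ∈ Finset.range (N + 1), ty k D C Y m a) =
          ∑ i, dt (Y i) * (H (D i a) - ∑ m ∈ Finset.range N, ty k D C Y m (D i a)) := by
        rw [map_sub, hH, map_sum, Finset.sum_range_succ', ty, dt_C, add_zero]
        have e2 : ∑ m ∈ Finset.range N, dt (ty k D C Y (m + 1) a) =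
            ∑ i, dt (Y i) * ∑ m ∈ Finset.range N, ty k D C Y m (D i a) := by
          simp only [dt_ty hcomm, Finset.mul_sum]
          rw [Finset.sum_comm]
        rw [e2, ← Finset.sum_sub_distrib]
        exact Finset.sum_congr rfl fun i _ => by ring
      rw [e1]
      refine InP.sum _ fun i _ => ?_
      rw [add_comm N 1]
      exact (hY i).dt.mul (ih _)

omit [CharZero k] in
theorem coeff_zero_ty (Y : Fin n → PowerSeries A) (m : ℕ) :
    ∀ a, coeff 0 (ty k D C Y m a) = ty k D id (fun i => coeff 0 (Y i)) m a := by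
  induction m with
  | zero => exact fun a => by simp [ty]
  | succ m ih =>
    intro a
    rw [ty, ty, coeff_ksmul, map_sum]
    congr 1
    refine Finset.sum_congr rfl fun i _ => ?_
    rw [coeff_zero_mul', ih]

omit [CharZero k] in
theorem val_ty {c : k} {Y : Fin n → PowerSeries A} {y : Fin n → A}
    (hY : ∀ i, Val I c (Y i) (y i)) (m : ℕ) :
    ∀ a, Val I c (ty k D C Y m a) (ty k D id y m a) := by
  induction m with
  | zero => exact fun a => val_C a
  | succ m ih =>
    intro a
    rw [ty, ty]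
    exact Val.smul _ (Val.sum _ fun i _ => (hY i).mul (ih _))

variable (k D) in
/-- the mean values `∫_0^1 g_i(x + σ y) dσ`, truncated -/
def GN (g : Fin n → A) (N : ℕ) (y : Fin n → A) (i : Fin n) : A :=
  ∑ m ∈ Finset.range N, ((m + 1 : k)⁻¹) • ty k D id y m (g i)

theorem pathB (hcomm : ∀ i j a, D i (D j a) = D j (D i a)) {N : ℕ} (hN : 1 ≤ N)
    {g : Fin n → A} (hsym : ∀ i j, D j (g i) = D i (g j))
    {Y : Fin n → PowerSeries A} (hY : ∀ i, InP I 1 (Y i))
    {h : Fin n → Fin n → PowerSeries A} (hh : ∀ i, Y i = ∑ m, h i m * C (g m))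
    {F : Fin n → PowerSeries A}
    (hF : ∀ i, InP I N (F i - ∑ m ∈ Finset.range N, ty k D C Y m (g i)))
    {c : k} {y : Fin n → A} (hy : ∀ i, Val I c (Y i) (y i)) {η : Fin n → Fin n → A}
    (hη : ∀ i l, Val I c (h i l) (η i l)) {e : Fin n → A}
    (he : ∀ l, Val I c (prim k (∑ i, F i * dt (h i l))) (e l)) :
    (fun l => (∑ i, GN k D g N y i * η i l) -
      (∑ i, GN k D g N (fun i => coeff 0 (Y i)) i * coeff 0 (h i l)) - e l) ∈ Wn g I N := by
  have hv : ∀ l, Val I c ((∑ i, (∑ m ∈ Finset.range N, ((m + 1 : k)⁻¹) • ty k D C Y m (g i)) *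
      h i l) - C (∑ i, GN k D g N (fun i => coeff 0 (Y i)) i * coeff 0 (h i l)) -
      prim k (∑ i, F i * dt (h i l))) ((∑ i, GN k D g N y i * η i l) -
      (∑ i, GN k D g N (fun i => coeff 0 (Y i)) i * coeff 0 (h i l)) - e l) := by
    intro l
    refine Val.sub (Val.sub (Val.sum _ fun i _ => Val.mul (Val.sum _ fun m _ => Val.smul _ ?_)
      (hη i l)) (val_C _)) (he l)
    exact val_ty hy m (g i)
  refine val_mem hv fun r => ?_
  rcases r with _ | r
  · have e1 : (fun l => coeff 0 ((∑ i, (∑ m ∈ Finset.range N, ((m + 1 : k)⁻¹) •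
        ty k D C Y m (g i)) * h i l) -
        C (∑ i, GN k D g N (fun i => coeff 0 (Y i)) i * coeff 0 (h i l)) -
        prim k (∑ i, F i * dt (h i l)))) = 0 := by
      ext l
      rw [map_sub, map_sub, coeff_prim_zero, coeff_zero_C, map_sum, sub_zero, Pi.zero_apply,
        sub_eq_zero]
      refine Finset.sum_congr rfl fun i _ => ?_
      rw [coeff_zero_mul', GN, map_sum]
      congr 1
      refine Finset.sum_congr rfl fun m _ => ?_
      rw [coeff_ksmul, coeff_zero_ty]
    rw [e1]
    exact zero_mem _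
  · have e1 : (fun l => coeff (r + 1) ((∑ i, (∑ m ∈ Finset.range N, ((m + 1 : k)⁻¹) •
        ty k D C Y m (g i)) * h i l) -
        C (∑ i, GN k D g N (fun i => coeff 0 (Y i)) i * coeff 0 (h i l)) -
        prim k (∑ i, F i * dt (h i l)))) = ((r + 1 : k)⁻¹) • fun l =>
          coeff r (dt (∑ i, (∑ m ∈ Finset.range N, ((m + 1 : k)⁻¹) • ty k D C Y m (g i)) *
          h i l) - ∑ i, F i * dt (h i l)) := by
      ext l
      rw [Pi.smul_apply, map_sub, map_sub, coeff_prim_succ, coeff_C, if_neg (Nat.succ_ne_zero r),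
        sub_zero, map_sub, smul_sub, coeff_dt, nsmul_ksmul]
    rw [e1]
    exact smul_mem_sub _ (pathA hcomm hN hsym hY hh hF r)

omit [CharZero k] in
theorem GN_mem (g : Fin n → A) (N : ℕ) {y : Fin n → A} (hy : ∀ i, y i ∈ Ideal.span (Set.range g))
    (i : Fin n) : GN k D g N y i ∈ Ideal.span (Set.range g) := by
  refine sum_mem fun m _ => ?_
  rw [Algebra.smul_def]
  refine Ideal.mul_mem_left _ _ ?_
  rcases m with _ | m
  · exact Ideal.subset_span ⟨i, rfl⟩
  · rw [ty, Algebra.smul_def]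
    exact Ideal.mul_mem_left _ _ (sum_mem fun j _ => Ideal.mul_mem_right _ _ (hy j))

omit [CharZero k] in
/-- independence of the choice of the lift -/
theorem indep (g : Fin n → A) (N : ℕ) {y : Fin n → A} {η η' : Fin n → Fin n → A}
    (hη : ∀ i, y i = ∑ m, η i m * g m) (hη' : ∀ i, y i = ∑ m, η' i m * g m) :
    (fun l => (∑ i, GN k D g N y i * η i l) - ∑ i, GN k D g N y i * η' i l) ∈ Bd g := by
  have hy : ∀ i, y i ∈ Ideal.span (Set.range g) := fun i => by
    rw [hη i]
    exact sum_mem fun m _ => Ideal.mul_mem_left _ _ (Ideal.subset_span ⟨m, rfl⟩)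
  choose c hc using fun i => (Ideal.mem_span_range_iff_exists_fun).1 (GN_mem (k := k) (D := D) g N hy i)
  have e1 : (fun l => (∑ i, GN k D g N y i * η i l) - ∑ i, GN k D g N y i * η' i l) =
      ∑ i, fun l => (∑ j, c i j * g j) * (η i l - η' i l) := by
    ext l
    rw [Finset.sum_apply, ← Finset.sum_sub_distrib]
    refine Finset.sum_congr rfl fun i _ => ?_
    rw [hc i]
    ring
  rw [e1]
  refine sum_mem fun i _ => mul_cycle ?_
  rw [← sub_self (y i)]
  nth_rewrite 1 [hη i]
  rw [hη' i, ← Finset.sum_sub_distrib]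
  exact Finset.sum_congr rfl fun j _ => by ring

end Path

end

end Pool.Agent.MFI.DC
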