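import Pool.Agent.MFI.DC2

/-!
# Isotopy invariance of matrix factorizations (MP_c8c50b_ag), helper42

Part DC3: a family of automorphisms of `(A, f)` such that each member is the end of a path of Koszul
homotopies preserving `f` has Koszul exact velocity.
-/

set_option autoImplicit false

open PowerSeries
open Finset.HasAntidiagonal (antidiagonal mem_antidiagonal)

namespace Pool.Agent.MFI.DC

noncomputable section

/-! ## polynomials with values in a subspace -/

section Vand

theorem vand {k X : Type*} [Field k] [Infinite k] [AddCommGroup X] [Module k X]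
    (V : Submodule k X) (p : ℕ → X) (M : ℕ)
    (h : ∀ c : k, ∑ i ∈ Finset.range M, c ^ i • p i ∈ V) : ∀ i < M, p i ∈ V := by
  intro i hi
  rw [← Submodule.Quotient.mk_eq_zero, ← Module.forall_dual_apply_eq_zero_iff k]
  intro l
  set P : Polynomial k := ∑ j ∈ Finset.range M,
    Polynomial.C (l (Submodule.Quotient.mk (p j))) * Polynomial.X ^ j with hP
  have h0 : P = 0 := by
    apply Polynomial.funext
    intro c
    rw [hP, Polynomial.eval_finsetSum, Polynomial.eval_zero]
    have h1 : (Submodule.Quotient.mk (∑ i ∈ Finset.range M, c ^ i • p i) : X ⧸ V) = 0 := by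
      rw [Submodule.Quotient.mk_eq_zero]
      exact h c
    have h2 := congrArg l h1
    rw [map_zero, ← Submodule.mkQ_apply, map_sum, map_sum] at h2
    rw [← h2]
    refine Finset.sum_congr rfl fun j _ => ?_
    rw [Polynomial.eval_mul, Polynomial.eval_C, Polynomial.eval_pow, Polynomial.eval_X, map_smul,
      map_smul, smul_eq_mul, mul_comm]
    rfl
  have h1 := congrArg (fun Q => Polynomial.coeff Q i) h0
  rw [hP] at h1
  simp only [Polynomial.finsetSum_coeff, Polynomial.coeff_C_mul_X_pow, Polynomial.coeff_zero] at h1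
  rw [Finset.sum_eq_single i] at h1
  · simpa using h1
  · intro j _ hj
    rw [if_neg (Ne.symm hj)]
  · intro h2
    exact absurd (Finset.mem_range.2 hi) h2

/-- choice of restricted lifts -/
theorem choose_rst {T : Type*} (L : ℕ → T → Prop) (Lev : ℕ → T → Prop)
    (hmono : ∀ e e' b, e ≤ e' → Lev e' b → Lev e b) (h0 : ∀ r, ∃ b, L r b ∧ Lev 0 b)
    (h1 : ∀ N, ∃ M, ∀ r ≥ M, ∃ b, L r b ∧ Lev N b) :
    ∃ b : ℕ → T, (∀ r, L r (b r)) ∧ ∀ N, ∃ M, ∀ r ≥ M, Lev N (b r) := by
  classical
  have h2 : ∀ r, ∃ b, L r b ∧ Lev (Nat.findGreatest (fun e => ∃ b, L r b ∧ Lev e b) r) b :=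
    fun r => Nat.findGreatest_spec (P := fun e => ∃ b, L r b ∧ Lev e b) (Nat.zero_le r) (h0 r)
  choose b hb hb' using h2
  refine ⟨b, hb, fun N => ?_⟩
  obtain ⟨M, hM⟩ := h1 N
  refine ⟨max M N, fun r hr => hmono _ _ _ ?_ (hb' r)⟩
  exact Nat.le_findGreatest (le_trans (le_max_right _ _) hr) (hM r (le_trans (le_max_left _ _) hr))

end Vand

section Main

variable {k A : Type*} [Field k] [CharZero k] [CommRing A] [Algebra k A] {n : ℕ}
  {D : Fin n → A → A} {I : Ideal A} {g x : Fin n → A}

/-- A path of Koszul homotopies from the identity to `ψ`: homomorphisms `H : A → A⟨s⟩` and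
`Θ` with `dH/ds = d Θ`, such that `∫ Θ(f) ds` is a boundary. -/
structure Pth (k : Type*) {A : Type*} [Field k] [CommRing A] [Algebra k A] {n : ℕ}
    (D : Fin n → A → A) (I : Ideal A) (g x : Fin n → A) (ψ : A → A) where
  H : A → PowerSeries A
  Θ : Fin n → Fin n → PowerSeries A
  rst : ∀ a, Rst I (H a)
  rstΘ : ∀ i j, Rst I (Θ i j)
  init : ∀ a, coeff 0 (H a) = a
  chain : ∀ a, dt (H a) = ∑ i, H (D i a) * dt (H (x i))
  hom : ∀ i, dt (H (x i)) = ∑ j, Θ i j * C (g j)
  fin : ∀ a, Val I (1 : k) (H a) (ψ a)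
  e : Fin n → A
  val : ∀ l, Val I (1 : k) (prim k (∑ i, H (g i) * Θ i l)) (e l)
  bd : e ∈ Bd g

theorem series_eq {F G : PowerSeries A} (k : Type*) [Field k] [CharZero k] [Algebra k A]
    (h0 : coeff 0 F = coeff 0 G) (h : dt F = dt G) : F = G := by
  have h1 := prim_dt k F
  rw [h, prim_dt k G, h0] at h1
  exact (sub_left_inj.1 h1).symm

omit [CharZero k] in
theorem ty_zero (m : ℕ) (a : A) : ty k D id (fun _ => (0 : A)) (m + 1) a = 0 := by
  rw [ty]
  simp

omit [CharZero k] in
theorem sum_ty_zero {N : ℕ} (hN : 1 ≤ N) (a : A) :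
    ∑ m ∈ Finset.range N, ty k D id (fun _ => (0 : A)) m a = a := by
  obtain ⟨N', rfl⟩ : ∃ N', N = N' + 1 := ⟨N - 1, by omega⟩
  rw [Finset.sum_range_succ', Finset.sum_eq_zero fun m _ => ty_zero m a, zero_add, ty]
  rfl

/-- what we use about the end `ψ` of a path -/
theorem Pth.spec [IsAdicComplete I A] (hcomm : ∀ i j a, D i (D j a) = D j (D i a))
    (hsym : ∀ i j, D j (g i) = D i (g j)) (hg : ∀ i, g i ∈ I) {N0 : ℕ}
    (hN0 : I ^ N0 ≤ Ideal.span (Set.range g)) {ψ : A → A} (p : Pth k D I g x ψ) :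
    (∀ a, ψ a - a ∈ Ideal.span (Set.range g)) ∧
    (∀ N a, ψ a - ∑ m ∈ Finset.range N, ty k D id (fun i => ψ (x i) - x i) m a ∈ I ^ N) ∧
    ∃ η : Fin n → Fin n → A, (∀ i, ψ (x i) - x i = ∑ m, η i m * g m) ∧
      ∀ N, (fun l => ∑ i, GN k D g N (fun i => ψ (x i) - x i) i * η i l) ∈ Wn g I N := by
  have hgJ : ∀ i, g i ∈ Ideal.span (Set.range g) := fun i => Ideal.subset_span ⟨i, rfl⟩
  have hJI : Ideal.span (Set.range g) ≤ I := by
    rw [Ideal.span_le]
    rintro _ ⟨i, rfl⟩
    exact hg i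
  -- the coefficients of `H a` of positive index lie in `J`
  have hc : ∀ a m, coeff (m + 1) (p.H a) ∈ Ideal.span (Set.range g) := by
    intro a m
    have h1 : coeff m (dt (p.H a)) ∈ Ideal.span (Set.range g) := by
      rw [p.chain, map_sum]
      refine sum_mem fun i _ => ?_
      rw [coeff_mul]
      refine sum_mem fun q _ => Ideal.mul_mem_left _ _ ?_
      rw [p.hom, map_sum]
      refine sum_mem fun j _ => ?_
      rw [coeff_mul_C]
      exact Ideal.mul_mem_left _ _ (hgJ j)
    rw [← nsmul_ksmul k m (coeff (m + 1) (p.H a)), ← coeff_dt, Algebra.smul_def]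
    exact Ideal.mul_mem_left _ _ h1
  have h1 : ∀ a, ψ a - a ∈ Ideal.span (Set.range g) := by
    intro a
    obtain ⟨M, hM⟩ := (p.fin a).lim N0
    have h2 := hM (M + 1) (by omega)
    rw [Finset.sum_range_succ', pow_zero, one_smul, p.init] at h2
    have h3 : ∑ m ∈ Finset.range M, (1 : k) ^ (m + 1) • coeff (m + 1) (p.H a) ∈
        Ideal.span (Set.range g) := by
      refine sum_mem fun m _ => ?_
      rw [one_pow, one_smul]
      exact hc a m
    have h4 := sub_mem h3 (hN0 h2)
    convert! h4 using 1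
    ring
  set Y : Fin n → PowerSeries A := fun i => p.H (x i) - C (x i) with hY
  have hY1 : ∀ i, InP I 1 (Y i) := by
    intro i m
    rw [pow_one]
    rcases m with _ | m
    · rw [hY, map_sub, p.init]
      simp
    · rw [hY, map_sub, coeff_C, if_neg (Nat.succ_ne_zero m), sub_zero]
      exact hJI (hc _ m)
  have hY0 : ∀ i, coeff 0 (Y i) = 0 := fun i => by
    rw [hY, map_sub, p.init]
    simp
  have hdY : ∀ i, dt (Y i) = dt (p.H (x i)) := fun i => by
    rw [hY, map_sub, dt_C, sub_zero]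
  have hYv : ∀ i, Val I (1 : k) (Y i) (ψ (x i) - x i) := fun i => (p.fin _).sub (val_C _)
  have hT : ∀ N a, InP I N (p.H a - ∑ m ∈ Finset.range N, ty k D C Y m a) := by
    intro N
    refine taylor hcomm hY1 (fun a => ?_) (fun N a => ?_) N
    · rw [p.chain]
      exact Finset.sum_congr rfl fun i _ => by rw [hdY]
    · rcases Nat.eq_zero_or_pos N with rfl | hN
      · simp
      · rw [map_sum, p.init, Finset.sum_congr rfl fun m _ => coeff_zero_ty (k := k) Y m a]
        have e1 : (fun i => coeff 0 (Y i)) = fun _ => (0 : A) := funext hY0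
        rw [e1, sum_ty_zero hN, sub_self]
        exact zero_mem _
  set h : Fin n → Fin n → PowerSeries A := fun i m => prim k (p.Θ i m) with hh
  have hhY : ∀ i, Y i = ∑ m, h i m * C (g m) := by
    intro i
    apply series_eq k
    · rw [hY0, map_sum]
      symm
      refine Finset.sum_eq_zero fun m _ => ?_
      rw [coeff_zero_mul', hh, coeff_prim_zero, zero_mul]
    · rw [hdY, p.hom, map_sum]
      refine Finset.sum_congr rfl fun m _ => ?_
      rw [dt_mul, dt_C, mul_zero, add_zero, hh, dt_prim]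
  choose η hη using fun i m => (Rst.prim k (p.rstΘ i m)).val (1 : k)
  refine ⟨h1, fun N a => ?_, η, fun i => ?_, fun N => ?_⟩
  · have h2 : Val I (1 : k) (p.H a - ∑ m ∈ Finset.range N, ty k D C Y m a)
        (ψ a - ∑ m ∈ Finset.range N, ty k D id (fun i => ψ (x i) - x i) m a) :=
      (p.fin a).sub (Val.sum _ fun m _ => val_ty hYv m a)
    obtain ⟨M, hM⟩ := h2.lim N
    have h3 : ∑ i ∈ Finset.range M, (1 : k) ^ i •
        coeff i (p.H a - ∑ m ∈ Finset.range N, ty k D C Y m a) ∈ I ^ N :=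
      sum_mem fun i _ => ksmul_mem _ (hT N a i)
    have h4 := sub_mem h3 (hM M le_rfl)
    rwa [sub_sub_cancel] at h4
  · have h2 : Val I (1 : k) (Y i) (∑ m, η i m * g m) := by
      rw [hhY]
      exact Val.sum _ fun m _ => (hη i m).mul (val_C _)
    exact (hYv i).unique h2
  · rcases Nat.eq_zero_or_pos N with rfl | hN
    · exact mem_Wn_of_pow fun i => by simp
    · have hval : ∀ l, Val I (1 : k) (prim k (∑ i, p.H (g i) * dt (h i l))) (p.e l) := by
        intro l
        have e1 : ∀ i, dt (h i l) = p.Θ i l := fun i => dt_prim k _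
        simp only [e1]
        exact p.val l
      have h2 := pathB hcomm hN hsym hY1 hhY (fun i => hT N (g i)) hYv hη hval
      have e2 : (fun l => (∑ i, GN k D g N (fun i => ψ (x i) - x i) i * η i l) -
          (∑ i, GN k D g N (fun i => coeff 0 (Y i)) i * coeff 0 (h i l)) - p.e l) =
          (fun l => ∑ i, GN k D g N (fun i => ψ (x i) - x i) i * η i l) - p.e := by
        ext l
        rw [Pi.sub_apply]
        have e3 : ∑ i, GN k D g N (fun i => coeff 0 (Y i)) i * coeff 0 (h i l) = 0 :=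
          Finset.sum_eq_zero fun i _ => by rw [hh, coeff_prim_zero, mul_zero]
        rw [e3, sub_zero]
      rw [e2] at h2
      have h3 := add_mem h2 (mem_Wn_of_Bd (I := I) (N := N) p.bd)
      rwa [sub_add_cancel] at h3

end Main

/-! ## cycles and boundaries -/

section Cyc

variable {A : Type*} [CommRing A] {n : ℕ} {g : Fin n → A} {I : Ideal A}

/-- the cycles of degree one -/
def Zc (g : Fin n → A) : Submodule A (Fin n → A) where
  carrier := {z | ∑ j, z j * g j = 0}
  add_mem' := by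
    intro z w hz hw
    have hz' : ∑ j, z j * g j = 0 := hz
    have hw' : ∑ j, w j * g j = 0 := hw
    change ∑ j, (z j + w j) * g j = 0
    rw [← add_zero (0 : A)]
    nth_rewrite 1 [← hz']
    rw [← hw', ← Finset.sum_add_distrib]
    exact Finset.sum_congr rfl fun j _ => by ring
  zero_mem' := by
    change ∑ j, (0 : A) * g j = 0
    simp
  smul_mem' := by
    intro c z hz
    have hz' : ∑ j, z j * g j = 0 := hz
    change ∑ j, (c * z j) * g j = 0
    rw [← mul_zero c, ← hz', Finset.mul_sum]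
    exact Finset.sum_congr rfl fun j _ => by ring

theorem mem_Zc {z : Fin n → A} : z ∈ Zc g ↔ ∑ j, z j * g j = 0 := Iff.rfl

theorem span_smul_Zc : Ideal.span (Set.range g) • Zc g ≤ Bd g := by
  rw [Submodule.smul_le]
  intro a ha z hz
  obtain ⟨c, rfl⟩ := (Ideal.mem_span_range_iff_exists_fun).1 ha
  exact mul_cycle hz

theorem pi_mem_smul_top {J : Ideal A} {v : Fin n → A} (h : ∀ i, v i ∈ J) :
    v ∈ J • (⊤ : Submodule A (Fin n → A)) := by
  have e2 : v = ∑ i, v i • (Pi.single i 1 : Fin n → A) := by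
    ext j
    simp [Finset.sum_apply, Pi.single_apply]
  rw [e2]
  exact sum_mem fun i _ => Submodule.smul_mem_smul (h i) trivial

theorem lift_of_mem {J : Ideal A} {v : Fin n → A} (h : v ∈ J • Bd g) :
    ∃ β : Fin n → Fin n → A, (∀ i j, β i j ∈ J) ∧ (∀ i j, β i j = - β j i) ∧
      ∀ i, v i = ∑ j, β i j * g j := by
  refine Submodule.smul_induction_on h ?_ ?_
  · rintro a ha w ⟨β, h1, h2⟩
    refine ⟨fun i j => a * β i j, fun i j => Ideal.mul_mem_right _ _ ha, fun i j => ?_,
      fun i => ?_⟩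
    · change a * β i j = -(a * β j i)
      rw [h1 i j]; ring
    · rw [Pi.smul_apply, h2, smul_eq_mul, Finset.mul_sum]
      exact Finset.sum_congr rfl fun j _ => by ring
  · rintro v w ⟨β, h0, h1, h2⟩ ⟨β', h0', h1', h2'⟩
    refine ⟨fun i j => β i j + β' i j, fun i j => add_mem (h0 i j) (h0' i j), fun i j => ?_,
      fun i => ?_⟩
    · change β i j + β' i j = -(β j i + β' j i)
      rw [h1 i j, h1' i j]; ring
    · rw [Pi.add_apply, h2, h2', ← Finset.sum_add_distrib]
      exact Finset.sum_congr rfl fun j _ => by ring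

/-- small cycles are boundaries of small elements (Artin-Rees) -/
theorem small_cycle [IsNoetherianRing A] {N0 : ℕ} (hN0 : I ^ N0 ≤ Ideal.span (Set.range g)) :
    ∃ K, ∀ e, ∀ v ∈ Zc g, (∀ i, v i ∈ I ^ (e + K)) → v ∈ I ^ e • Bd g := by
  obtain ⟨k0, hk⟩ := Ideal.exists_pow_inf_eq_pow_smul I (Zc g)
  refine ⟨N0 + k0, fun e v hv h => ?_⟩
  have h1 : v ∈ I ^ (e + (N0 + k0)) • ⊤ ⊓ Zc g := ⟨pi_mem_smul_top h, hv⟩
  rw [hk _ (by omega), show e + (N0 + k0) - k0 = e + N0 by omega] at h1
  have h2 : v ∈ I ^ (e + N0) • Zc g := Submodule.smul_mono le_rfl inf_le_right h1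
  rw [pow_add, Submodule.mul_smul] at h2
  have h3 : I ^ N0 • Zc g ≤ Bd g := (Submodule.smul_mono hN0 le_rfl).trans span_smul_Zc
  exact Submodule.smul_mono le_rfl h3 h2

/-- small elements of the ideal have small coefficients -/
theorem small_ideal {N0 : ℕ} (hN0 : I ^ N0 ≤ Ideal.span (Set.range g)) (e : ℕ) {a : A}
    (ha : a ∈ I ^ (e + N0)) : ∃ c : Fin n → A, (∀ j, c j ∈ I ^ e) ∧ a = ∑ j, c j * g j := by
  rw [pow_add] at ha
  refine Submodule.mul_induction_on ha ?_ ?_
  · intro u hu v hv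
    obtain ⟨c, rfl⟩ := (Ideal.mem_span_range_iff_exists_fun).1 (hN0 hv)
    refine ⟨fun j => u * c j, fun j => Ideal.mul_mem_right _ _ hu, ?_⟩
    rw [Finset.mul_sum]
    exact Finset.sum_congr rfl fun j _ => by ring
  · rintro u v ⟨c, h1, rfl⟩ ⟨c', h1', rfl⟩
    refine ⟨fun j => c j + c' j, fun j => add_mem (h1 j) (h1' j), ?_⟩
    rw [← Finset.sum_add_distrib]
    exact Finset.sum_congr rfl fun j _ => by ring

end Cyc

/-! ## the family -/

section Fam

variable {k A : Type*} [Field k] [CharZero k] [CommRing A] [Algebra k A] {n : ℕ}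
  {D : Fin n → A → A} {I : Ideal A} {g x : Fin n → A}

theorem coeff_mem_of_val {V : Ideal A} {N0 : ℕ} (hV : I ^ N0 ≤ V) {F : PowerSeries A}
    (hF : Rst I F) (h : ∀ c : k, ∃ a ∈ V, Val I c F a) (m : ℕ) : coeff m F ∈ V := by
  obtain ⟨M, hM⟩ := hF N0
  rcases Nat.lt_or_ge m M with hm | hm
  · refine vand (V.restrictScalars k) (fun i => coeff i F) M (fun c => ?_) m hm
    obtain ⟨a, ha, hv⟩ := h c
    obtain ⟨M', hM'⟩ := hv.lim N0
    have h1 := hM' (max M M') (le_max_right _ _)
    rw [← Finset.sum_range_add_sum_Ico _ (le_max_left M M')] at h1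
    have h2 : ∑ i ∈ Finset.Ico M (max M M'), c ^ i • coeff i F ∈ V := by
      refine sum_mem fun i hi => ?_
      rw [Algebra.smul_def]
      exact Ideal.mul_mem_left _ _ (hV (hM i (Finset.mem_Ico.1 hi).1))
    have h3 := add_mem (sub_mem (hV h1) h2) ha
    change (∑ i ∈ Finset.range M, c ^ i • coeff i F) ∈ V
    convert! h3 using 1
    ring
  · exact hV (hM m hm)

theorem fam_one [IsAdicComplete I A] (hcomm : ∀ i j a, D i (D j a) = D j (D i a))
    (hsym : ∀ i j, D j (g i) = D i (g j)) (hg : ∀ i, g i ∈ I) {N0 : ℕ}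
    (hN0 : I ^ N0 ≤ Ideal.span (Set.range g)) {φ : A → PowerSeries A} (hr : ∀ a, Rst I (φ a))
    {ψ : k → A → A} (hv : ∀ c a, Val I c (φ a) (ψ c a))
    (hp : ∀ c, Nonempty (Pth k D I g x (ψ c))) (a : A) (m : ℕ) :
    coeff m (φ a - C a) ∈ Ideal.span (Set.range g) := by
  refine coeff_mem_of_val (k := k) hN0 ((hr a).sub (rst_C a)) (fun c => ?_) m
  obtain ⟨p⟩ := hp c
  exact ⟨ψ c a - a, (p.spec hcomm hsym hg hN0).1 a, (hv c a).sub (val_C a)⟩

theorem fam_inv [IsHausdorff I A] {φ : A → PowerSeries A} (hr : ∀ a, Rst I (φ a))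
    {ψ : k → A → A} (hv : ∀ c a, Val I c (φ a) (ψ c a)) {f : A} (hf : ∀ c, ψ c f = f) :
    φ f = C f := by
  rw [← sub_eq_zero]
  ext m
  rw [map_zero]
  refine IsHausdorff.haus' (I := I) _ fun N => ?_
  rw [SModEq.zero, smul_eq_mul, Ideal.mul_top]
  refine coeff_mem_of_val (k := k) (V := I ^ N) (N0 := N) le_rfl ((hr f).sub (rst_C f))
    (fun c => ⟨0, zero_mem _, ?_⟩) m
  have h1 := (hv c f).sub (val_C (I := I) (c := c) f)
  rwa [hf, sub_self] at h1

/-- coefficientwise derivative -/
def Dc (D : Fin n → A → A) (j : Fin n) (F : PowerSeries A) : PowerSeries A :=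
  PowerSeries.mk fun r => D j (coeff r F)

theorem fam_two [IsNoetherianRing A] [IsAdicComplete I A]
    (hcomm : ∀ i j a, D i (D j a) = D j (D i a))
    (hsym : ∀ i j, D j (g i) = D i (g j)) (hg : ∀ i, g i ∈ I) {N0 : ℕ}
    (hN0 : I ^ N0 ≤ Ideal.span (Set.range g)) {φ : A → PowerSeries A} (hr : ∀ a, Rst I (φ a))
    {ψ : k → A → A} (hv : ∀ c a, Val I c (φ a) (ψ c a))
    (hp : ∀ c, Nonempty (Pth k D I g x (ψ c)))
    (hchain : ∀ a, dt (φ a) = ∑ i, φ (D i a) * dt (φ (x i)))
    {f : A} (hgf : ∀ i, g i = D i f) (hinv : φ f = C f)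
    (hDc : ∀ j a, Dc D j (φ a) = ∑ l, φ (D l a) * Dc D j (φ (x l)))
    (hDpow : ∀ j N a, a ∈ I ^ (N + 1) → D j a ∈ I ^ N) (hD0 : ∀ j, D j 0 = 0) :
    ∃ b : Fin n → Fin n → PowerSeries A, (∀ i j, Rst I (b i j)) ∧ (∀ i j, b i j = - b j i) ∧
      ∀ i, dt (φ (x i)) = ∑ j, b i j * φ (g j) := by
  have hJI : Ideal.span (Set.range g) ≤ I := by
    rw [Ideal.span_le]
    rintro _ ⟨i, rfl⟩
    exact hg i
  have hone := fam_one hcomm hsym hg hN0 hr hv hp
  -- the lift `Θ'` of the velocity
  have hw : ∀ i r, coeff r (dt (φ (x i))) ∈ Ideal.span (Set.range g) := by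
    intro i r
    have h1 := hone (x i) (r + 1)
    rw [map_sub, coeff_C, if_neg (Nat.succ_ne_zero r), sub_zero] at h1
    rw [coeff_dt, nsmul_eq_mul]
    exact Ideal.mul_mem_left _ _ h1
  have hΘ : ∀ i, ∃ T : Fin n → PowerSeries A, (∀ j, Rst I (T j)) ∧
      dt (φ (x i)) = ∑ j, T j * C (g j) := by
    intro i
    obtain ⟨b, hb, hb'⟩ := choose_rst (T := Fin n → A)
      (fun r c => coeff r (dt (φ (x i))) = ∑ j, c j * g j) (fun e c => ∀ j, c j ∈ I ^ e)
      (fun e e' b h hb j => Ideal.pow_le_pow_right h (hb j))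
      (fun r => by
        obtain ⟨c, hc⟩ := (Ideal.mem_span_range_iff_exists_fun).1 (hw i r)
        exact ⟨c, hc.symm, fun j => by simp⟩)
      (fun N => by
        obtain ⟨M, hM⟩ := (hr (x i)).dt (N + N0)
        refine ⟨M, fun r hr' => ?_⟩
        obtain ⟨c, hc, hc'⟩ := small_ideal hN0 N (hM r hr')
        exact ⟨c, hc', hc⟩)
    refine ⟨fun j => PowerSeries.mk fun r => b r j, fun j N => ?_, ?_⟩
    · obtain ⟨M, hM⟩ := hb' N
      exact ⟨M, fun m hm => by rw [coeff_mk]; exact hM m hm j⟩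
    · ext r
      rw [hb r, map_sum]
      exact Finset.sum_congr rfl fun j _ => by rw [coeff_mul_C, coeff_mk]
  choose Θ hΘr hΘ using hΘ
  -- the vector `R`
  set R : Fin n → PowerSeries A := fun l => ∑ i, φ (g i) * Θ i l with hR
  have hRr : ∀ l, Rst I (R l) := fun l => Rst.sum _ fun i _ => (hr _).mul (hΘr i l)
  have hRc : ∀ r, (fun l => coeff r (R l)) ∈ Zc g := by
    intro r
    rw [mem_Zc]
    have h1 : ∑ l, R l * C (g l) = 0 := by
      have h2 := hchain f
      rw [hinv, dt_C] at h2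
      rw [h2, hR]
      simp only [Finset.sum_mul]
      rw [Finset.sum_comm]
      refine Finset.sum_congr rfl fun i _ => ?_
      rw [hΘ i, ← hgf, Finset.mul_sum]
      exact Finset.sum_congr rfl fun l _ => by ring
    have h2 := congrArg (coeff r) h1
    rw [map_sum, map_zero] at h2
    rw [← h2]
    exact Finset.sum_congr rfl fun l _ => by rw [coeff_mul_C]
  -- the primitive of `R` has values in the boundaries
  set Y : Fin n → PowerSeries A := fun i => φ (x i) - C (x i) with hY
  have hY1 : ∀ i, InP I 1 (Y i) := fun i m => by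
    rw [pow_one]
    exact hJI (hone (x i) m)
  have hdY : ∀ i, dt (Y i) = dt (φ (x i)) := fun i => by
    rw [hY, map_sub, dt_C, sub_zero]
  have hφ0 : ∀ a, coeff 0 (φ a) = ψ 0 a := fun a => ((hr a).val_zero k).unique (hv 0 a)
  obtain ⟨p0⟩ := hp 0
  obtain ⟨-, hT0, η0, hη0, hW0⟩ := p0.spec hcomm hsym hg hN0
  have hcY : (fun i => coeff 0 (Y i)) = fun i => ψ 0 (x i) - x i := by
    ext i
    rw [hY, map_sub, hφ0]
    simp
  have hT : ∀ N a, InP I N (φ a - ∑ m ∈ Finset.range N, ty k D C Y m a) := by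
    intro N
    refine taylor hcomm hY1 (fun a => ?_) (fun N a => ?_) N
    · rw [hchain]
      exact Finset.sum_congr rfl fun i _ => by rw [hdY]
    · rw [map_sum, hφ0, Finset.sum_congr rfl fun m _ => coeff_zero_ty (k := k) Y m a, hcY]
      exact hT0 N a
  set h : Fin n → Fin n → PowerSeries A := fun i m => C (η0 i m) + prim k (Θ i m) with hh
  have hhr : ∀ i m, Rst I (h i m) := fun i m => (rst_C _).add (Rst.prim k (hΘr i m))
  have hhd : ∀ i m, dt (h i m) = Θ i m := fun i m => by
    rw [hh, map_add, dt_C, zero_add, dt_prim]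
  have hh0 : ∀ i m, coeff 0 (h i m) = η0 i m := fun i m => by
    rw [hh, map_add, coeff_prim_zero]
    simp
  have hhY : ∀ i, Y i = ∑ m, h i m * C (g m) := by
    intro i
    apply series_eq k
    · have h1 : coeff 0 (Y i) = ψ 0 (x i) - x i := congrFun hcY i
      rw [h1, hη0 i, map_sum]
      exact Finset.sum_congr rfl fun m _ => by rw [coeff_mul_C, hh0]
    · rw [hdY, hΘ i, map_sum]
      refine Finset.sum_congr rfl fun m _ => ?_
      rw [dt_mul, dt_C, mul_zero, add_zero, hhd]
  have hE : ∀ c : k, ∀ e : Fin n → A, (∀ l, Val I c (prim k (R l)) (e l)) → e ∈ Bd g := by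
    intro c e he
    refine mem_Bd_of_Wn (I := I) fun N => ?_
    rcases Nat.eq_zero_or_pos N with rfl | hN
    · exact mem_Wn_of_pow fun i => by simp
    obtain ⟨pc⟩ := hp c
    obtain ⟨-, -, ηc, hηc, hWc⟩ := pc.spec hcomm hsym hg hN0
    choose η hη using fun i m => (hhr i m).val c
    have hYv : ∀ i, Val I c (Y i) (ψ c (x i) - x i) := fun i => (hv c _).sub (val_C _)
    have h1 := pathB hcomm hN hsym hY1 hhY (fun i => hT N (g i)) hYv hη (e := e) (fun l => by
      simp only [hhd]
      exact he l)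
    have hηg : ∀ i, ψ c (x i) - x i = ∑ m, η i m * g m := by
      intro i
      have h2 : Val I c (Y i) (∑ m, η i m * g m) := by
        rw [hhY]
        exact Val.sum _ fun m _ => (hη i m).mul (val_C _)
      exact (hYv i).unique h2
    have h2 := mem_Wn_of_Bd (I := I) (N := N) (indep (k := k) (D := D) g N hηg hηc)
    have e1 : e = ((fun l => (∑ i, GN k D g N (fun i => ψ c (x i) - x i) i * η i l) -
          ∑ i, GN k D g N (fun i => ψ c (x i) - x i) i * ηc i l) +
        (fun l => ∑ i, GN k D g N (fun i => ψ c (x i) - x i) i * ηc i l)) -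
        (fun l => ∑ i, GN k D g N (fun i => ψ 0 (x i) - x i) i * η0 i l) -
        (fun l => (∑ i, GN k D g N (fun i => ψ c (x i) - x i) i * η i l) -
      (∑ i, GN k D g N (fun i => coeff 0 (Y i)) i * coeff 0 (h i l)) - e l) := by
      ext l
      rw [hcY]
      simp only [Pi.sub_apply, Pi.add_apply, hh0]
      ring
    rw [e1]
    exact sub_mem (sub_mem (add_mem h2 (hWc N)) (hW0 N)) h1
  -- the coefficients of `R` are boundaries
  obtain ⟨K, hK⟩ := small_cycle (I := I) (g := g) hN0
  have hsm : ∀ N, ∃ M, ∀ r ≥ M, (fun l => coeff r (R l)) ∈ I ^ N • Bd g := by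
    intro N
    choose M hM using fun l => hRr l (N + K)
    refine ⟨∑ l, M l, fun r hr' => hK N _ (hRc r) fun l => hM l r (le_trans ?_ hr')⟩
    exact Finset.single_le_sum (f := M) (fun _ _ => Nat.zero_le _) (Finset.mem_univ l)
  obtain ⟨M0, hM0⟩ := hsm 0
  have hM0' : ∀ r ≥ M0, (fun l => coeff r (R l)) ∈ Bd g := fun r hr' =>
    Submodule.smul_le_right (hM0 r hr')
  have hprim : ∀ r, (fun l => coeff (r + 1) (prim k (R l))) =
      ((r + 1 : k)⁻¹) • fun l => coeff r (R l) := by
    intro r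
    ext l
    rw [Pi.smul_apply, coeff_prim_succ]
  have hall : ∀ r, (fun l => coeff r (R l)) ∈ Bd g := by
    intro r
    rcases Nat.lt_or_ge r M0 with hlt | hge
    · have h1 := vand ((Bd g).restrictScalars k) (fun j => fun l => coeff j (prim k (R l)))
        (M0 + 1) (fun c => ?_) (r + 1) (by omega)
      · have h2 : (fun l => coeff (r + 1) (prim k (R l))) ∈ Bd g := h1
        rw [hprim] at h2
        have h3 := smul_mem_sub (r + 1 : k) h2
        rwa [smul_smul, mul_inv_cancel₀ (by exact_mod_cast Nat.succ_ne_zero r), one_smul] at h3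
      · choose e he using fun l => (Rst.prim k (hRr l)).val c
        have hb := hE c e he
        change (∑ i ∈ Finset.range (M0 + 1), c ^ i • fun l => coeff i (prim k (R l))) ∈ Bd g
        refine mem_Bd_of_Wn (I := I) fun N => ?_
        choose M hM using fun l => (he l).lim N
        set m := max (M0 + 1) (∑ l, M l) with hm
        have hm1 : M0 + 1 ≤ m := le_max_left _ _
        have h4 : (fun l => (∑ i ∈ Finset.range m, c ^ i • coeff i (prim k (R l))) - e l) ∈
            Wn g I N := mem_Wn_of_pow fun l => hM l m (le_trans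
              (Finset.single_le_sum (f := M) (fun _ _ => Nat.zero_le _) (Finset.mem_univ l))
              (le_max_right _ _))
        have h5 : (∑ i ∈ Finset.Ico (M0 + 1) m, c ^ i • fun l => coeff i (prim k (R l))) ∈
            Bd g := by
          refine sum_mem fun i hi => smul_mem_sub _ ?_
          obtain ⟨j, rfl⟩ : ∃ j, i = j + 1 := ⟨i - 1, by have := (Finset.mem_Ico.1 hi).1; omega⟩
          rw [hprim]
          exact smul_mem_sub _ (hM0' j (by have := (Finset.mem_Ico.1 hi).1; omega))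
        have h6 : (∑ i ∈ Finset.range (M0 + 1), c ^ i • fun l => coeff i (prim k (R l))) =
            (fun l => (∑ i ∈ Finset.range m, c ^ i • coeff i (prim k (R l))) - e l) + e -
              ∑ i ∈ Finset.Ico (M0 + 1) m, c ^ i • fun l => coeff i (prim k (R l)) := by
          rw [eq_sub_iff_add_eq, Finset.sum_range_add_sum_Ico _ hm1]
          ext l
          rw [Finset.sum_apply, Pi.add_apply]
          simp only [Pi.smul_apply, sub_add_cancel]
        rw [h6]
        exact sub_mem (add_mem h4 (mem_Wn_of_Bd hb)) (mem_Wn_of_Bd h5)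
    · exact hM0' r hge
  obtain ⟨β, hβ, hβ'⟩ := choose_rst (T := Fin n → Fin n → A)
    (fun r β => (∀ i j, β i j = - β j i) ∧ ∀ l, coeff r (R l) = ∑ j, β l j * g j)
    (fun e β => ∀ i j, β i j ∈ I ^ e)
    (fun e e' b h hb i j => Ideal.pow_le_pow_right h (hb i j))
    (fun r => by
      obtain ⟨β, h1, h2⟩ := mem_Bd.1 (hall r)
      exact ⟨β, ⟨h1, h2⟩, fun i j => by simp⟩)
    (fun N => by
      obtain ⟨M, hM⟩ := hsm N
      refine ⟨M, fun r hr' => ?_⟩
      obtain ⟨β, h0, h1, h2⟩ := lift_of_mem (hM r hr')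
      exact ⟨β, ⟨h1, h2⟩, h0⟩)
  set B : Fin n → Fin n → PowerSeries A := fun i j => PowerSeries.mk fun r => β r i j with hB
  have hBr : ∀ i j, Rst I (B i j) := fun i j N => by
    obtain ⟨M, hM⟩ := hβ' N
    exact ⟨M, fun m hm => by rw [hB, coeff_mk]; exact hM m hm i j⟩
  have hBa : ∀ i j, B i j = - B j i := fun i j => by
    ext r
    rw [map_neg, hB, coeff_mk, coeff_mk, (hβ r).1 i j]
  have hRB : ∀ l, R l = ∑ j, B l j * C (g j) := fun l => by
    ext r
    rw [(hβ r).2 l, map_sum]
    exact Finset.sum_congr rfl fun j _ => by rw [coeff_mul_C, hB, coeff_mk]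
  -- the Jacobian matrix
  set M : Fin n → Fin n → PowerSeries A := fun j l => Dc D j (φ (x l)) with hM
  have hMr : ∀ j l, Rst I (M j l) := fun j l N => by
    obtain ⟨K, hK⟩ := hr (x l) (N + 1)
    refine ⟨K, fun m hm => ?_⟩
    have e1 : coeff m (M j l) = D j (coeff m (φ (x l))) := coeff_mk _ _
    rw [e1]
    exact hDpow j N _ (hK m hm)
  have hgM : ∀ j, C (g j) = ∑ l, M j l * φ (g l) := by
    intro j
    have h1 := hDc j f
    have h2 : Dc D j (φ f) = C (g j) := by
      rw [hinv]
      ext r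
      rw [Dc, coeff_mk, coeff_C, coeff_C]
      split_ifs
      · rw [hgf]
      · exact hD0 j
    rw [← h2, h1]
    exact Finset.sum_congr rfl fun l _ => by rw [hM, hgf l, mul_comm]
  set Cm : Fin n → Fin n → PowerSeries A := fun i l => ∑ j, Θ i j * M j l with hCm
  set B' : Fin n → Fin n → PowerSeries A := fun i l => ∑ j, ∑ m, M j i * B j m * M m l with hB'
  refine ⟨fun i l => Cm i l - Cm l i + B' i l, fun i l => ?_, fun i l => ?_, fun i => ?_⟩
  · exact ((Rst.sum _ fun j _ => (hΘr i j).mul (hMr j l)).sub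
      (Rst.sum _ fun j _ => (hΘr l j).mul (hMr j i))).add
      (Rst.sum _ fun j _ => Rst.sum _ fun m _ => ((hMr j i).mul (hBr j m)).mul (hMr m l))
  · have h1 : B' i l = - B' l i := by
      rw [hB']
      simp only
      rw [Finset.sum_comm, ← Finset.sum_neg_distrib]
      refine Finset.sum_congr rfl fun j _ => ?_
      rw [← Finset.sum_neg_distrib]
      refine Finset.sum_congr rfl fun m _ => ?_
      rw [hBa m j]
      ring
    change Cm i l - Cm l i + B' i l = -(Cm l i - Cm i l + B' l i)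
    rw [h1]
    ring
  · have e1 : ∑ l, Cm i l * φ (g l) = dt (φ (x i)) := by
      rw [hΘ i, hCm]
      simp only [Finset.sum_mul]
      rw [Finset.sum_comm]
      refine Finset.sum_congr rfl fun j _ => ?_
      rw [hgM j, Finset.mul_sum]
      exact Finset.sum_congr rfl fun l _ => by ring
    have e2 : ∑ l, Cm l i * φ (g l) = ∑ l, B' i l * φ (g l) := by
      have e3 : ∑ l, Cm l i * φ (g l) = ∑ j, M j i * R j := by
        rw [hCm, hR]
        simp only [Finset.sum_mul, Finset.mul_sum]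
        rw [Finset.sum_comm]
        refine Finset.sum_congr rfl fun j _ => Finset.sum_congr rfl fun l _ => by ring
      rw [e3, hB']
      simp only [Finset.sum_mul]
      rw [Finset.sum_comm]
      refine Finset.sum_congr rfl fun j _ => ?_
      rw [hRB j, Finset.mul_sum, Finset.sum_comm]
      refine Finset.sum_congr rfl fun m _ => ?_
      rw [hgM m, Finset.mul_sum, Finset.mul_sum]
      exact Finset.sum_congr rfl fun l _ => by ring
    simp only [add_mul, sub_mul]
    rw [Finset.sum_add_distrib, Finset.sum_sub_distrib, e1, e2, sub_add_cancel]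

end Fam

end

end Pool.Agent.MFI.DC
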