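import Pool.Agent.MFI.DC3

/-!
# Isotopy invariance of matrix factorizations (MP_c8c50b_ag), helper42

Part DC4: a sequence of polynomial vectors with a telescoping Koszul relation starts with a boundary
(the vanishing of `H^{-1}` of the de Rham complex of `K`, in the form we need).
-/

set_option autoImplicit false

namespace Pool.Agent.MFI.DC

noncomputable section

open MvPolynomial

variable {A : Type*} [CommRing A] {n : ℕ} {g : Fin n → A}

/-- the value at `y = g` -/
abbrev evg (g : Fin n → A) : MvPolynomial (Fin n) A →+* A := MvPolynomial.eval g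

/-- two consecutive terms -/
theorem tele_step (k : Type*) [Field k] [CharZero k] [Algebra k A] {p : ℕ} {ζ ζ' : Fin n → MvPolynomial (Fin n) A}
    (h : ∀ l, (ζ l).IsHomogeneous p) (h' : ∀ l, (ζ' l).IsHomogeneous (p + 1))
    (hrel : ∑ l, ζ l * X l + ∑ l, ζ' l * C (g l) = 0) :
    (fun l => evg g (ζ l) + evg g (ζ' l)) ∈ Bd g := by
  -- the matrix of partial derivatives
  set B : Fin n → Fin n → A := fun m l => evg g (pderiv m (ζ l)) + evg g (pderiv m (ζ' l)) with hB
  have e1 : ∀ m, evg g (ζ m) = - ∑ l, B m l * g l := by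
    intro m
    have h1 := congrArg (fun P => evg g (pderiv m P)) hrel
    simp only [map_add, map_sum, map_zero] at h1
    have h2 : ∀ l, evg g (pderiv m (ζ l * X l)) =
        evg g (pderiv m (ζ l)) * g l + if l = m then evg g (ζ l) else 0 := by
      intro l
      rw [Derivation.leibniz, pderiv_X, smul_eq_mul, smul_eq_mul, map_add, map_mul, map_mul,
        eval_X, Pi.single_apply]
      split_ifs with h3
      · rw [map_one]; ring
      · rw [map_zero]; ring
    have h3 : ∀ l, evg g (pderiv m (ζ' l * C (g l))) = evg g (pderiv m (ζ' l)) * g l := by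
      intro l
      rw [Derivation.leibniz, pderiv_C, smul_zero, zero_add, smul_eq_mul, map_mul, eval_C,
        mul_comm]
    rw [Finset.sum_congr rfl fun l _ => h2 l, Finset.sum_congr rfl fun l _ => h3 l,
      Finset.sum_add_distrib, Finset.sum_ite_eq' Finset.univ m, if_pos (Finset.mem_univ m)] at h1
    have h4 : ∑ l, B m l * g l = ∑ l, evg g (pderiv m (ζ l)) * g l +
        ∑ l, evg g (pderiv m (ζ' l)) * g l := by
      rw [← Finset.sum_add_distrib]
      exact Finset.sum_congr rfl fun l _ => by rw [hB]; ring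
    rw [h4]
    linear_combination h1
  have e2 : ∀ l, ∑ m, B m l * g m = p • evg g (ζ l) + (p + 1) • evg g (ζ' l) := by
    intro l
    have h1 := congrArg (evg g) (h l).sum_X_mul_pderiv
    have h2 := congrArg (evg g) (h' l).sum_X_mul_pderiv
    rw [map_sum, map_nsmul] at h1 h2
    rw [← h1, ← h2, ← Finset.sum_add_distrib]
    refine Finset.sum_congr rfl fun m _ => ?_
    rw [map_mul, map_mul, eval_X, hB]
    ring
  have key : (fun l => evg g (ζ l) + evg g (ζ' l)) =
      ((p + 1 : k)⁻¹) • fun l => ∑ m, (B m l - B l m) * g m := by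
    ext l
    rw [Pi.smul_apply]
    have h1 : ∑ m, (B m l - B l m) * g m = (p + 1) • (evg g (ζ l) + evg g (ζ' l)) := by
      have h2 : ∑ m, (B m l - B l m) * g m = ∑ m, B m l * g m - ∑ m, B l m * g m := by
        rw [← Finset.sum_sub_distrib]
        exact Finset.sum_congr rfl fun m _ => by ring
      rw [h2, e2, nsmul_eq_mul, nsmul_eq_mul, nsmul_eq_mul]
      push_cast
      linear_combination - (e1 l)
    rw [h1, nsmul_ksmul]
  rw [key]
  exact smul_mem_sub _ ⟨fun l m => B m l - B l m, fun l m => by ring, fun l => rfl⟩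

/-- evaluation of a homogeneous polynomial at small elements -/
theorem eval_mem {I : Ideal A} (hg : ∀ i, g i ∈ I) {p : ℕ} {P : MvPolynomial (Fin n) A}
    (h : P.IsHomogeneous p) : evg g P ∈ I ^ p := by
  rw [evg, MvPolynomial.eval_eq]
  refine sum_mem fun d hd => Ideal.mul_mem_left _ _ ?_
  have h1 : d.degree = p := by
    by_contra h0
    exact (MvPolynomial.mem_support_iff.1 hd) (h.coeff_eq_zero h0)
  rw [← h1, Finsupp.degree]
  have h2 : ∏ i ∈ d.support, g i ^ d i ∈ ∏ i ∈ d.support, I ^ d i :=
    Ideal.prod_mem_prod fun i _ => Ideal.pow_mem_pow (hg i) _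
  rwa [Finset.prod_pow_eq_pow_sum] at h2

/-- the first term of a telescoping sequence is a boundary -/
theorem tele (k : Type*) [Field k] [CharZero k] [Algebra k A] [IsNoetherianRing A] {I : Ideal A}
    [IsAdicComplete I A] (hg : ∀ i, g i ∈ I)
    (ζ : ℕ → Fin n → MvPolynomial (Fin n) A) (h : ∀ p l, (ζ p l).IsHomogeneous p)
    (hrel : ∀ p, ∑ l, ζ p l * X l + ∑ l, ζ (p + 1) l * C (g l) = 0) :
    (fun l => evg g (ζ 0 l)) ∈ Bd g := by
  have h1 : ∀ p, (fun l => evg g (ζ 0 l) - (-1) ^ p * evg g (ζ p l)) ∈ Bd g := by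
    intro p
    induction p with
    | zero =>
      simp only [pow_zero, one_mul, sub_self]
      exact zero_mem _
    | succ p ih =>
      have h2 := (Bd g).smul_mem ((-1) ^ p) (tele_step k (h p) (h (p + 1)) (hrel p))
      have h3 := add_mem ih h2
      convert! h3 using 1
      ext l
      simp only [Pi.add_apply, Pi.smul_apply, smul_eq_mul]
      ring
  refine mem_Bd_of_Wn (I := I) fun N => ?_
  have h2 : (fun l => evg g (ζ 0 l)) = (fun l => evg g (ζ 0 l) - (-1) ^ N * evg g (ζ N l)) +
      fun l => (-1) ^ N * evg g (ζ N l) := by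
    ext l
    rw [Pi.add_apply]
    ring
  rw [h2]
  exact add_mem (mem_Wn_of_Bd (h1 N)) (mem_Wn_of_pow fun l =>
    Ideal.mul_mem_left _ _ (eval_mem hg (h N l)))

end

end Pool.Agent.MFI.DC
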