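import Pool.Agent.MFI.CoreF

/-!
# Isotopy invariance of matrix factorizations (MP_c8c50b_ag), helper26

Statements over frames: all affine smooth formal schemes.
-/

set_option autoImplicit false

open PowerSeries

namespace Pool.Agent.MFI

universe u

noncomputable section

/-- A family `φ : 𝒰 × 𝔸¹ → 𝒰` of morphisms preserving `f`, given by the homomorphism
`φ : A → A⟨t⟩` into restricted power series, whose velocity field is Koszul exact:
`dφ_t(x_i)/dt = Σ_j b_ij φ_t(D_j f)` with an antisymmetric matrix `b` over `A⟨t⟩`. -/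
structure FamilyF {k : Type u} [Field k] {A : Type u} [CommRing A] [Algebra k A] {I : Ideal A}
    {n : ℕ} (X : Frame k A I n) (f : A) where
  φ : A →ₐ[k] PowerSeries A
  rst : ∀ a N, ∃ M, ∀ m ≥ M, coeff m (φ a) ∈ I ^ N
  cont : ∀ a ∈ I, ∀ m, coeff m (φ a) ∈ I
  inv : φ f = C f
  b : Fin n → Fin n → PowerSeries A
  brst : ∀ i j N, ∃ M, ∀ m ≥ M, coeff m (b i j) ∈ I ^ N
  anti : ∀ i j, b i j = - b j i
  vel : ∀ i, PowerSeries.derivative A (φ (X.x i)) = ∑ j, b i j * φ (X.D j f)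

/-- the final statement for dg functors over a frame: `φ_t^*` is equivalent to `φ_0^*` -/
def S_GENF : Prop := ∀ {k A : Type u} [Field k] [CharZero k] [CommRing A] [Algebra k A]
  (I : Ideal A) [IsAdicComplete I A] [IsReduced (A ⧸ I)], (minimalPrimes (A ⧸ I)).Finite →
  ∀ {n : ℕ} (X : Frame k A I n) (f : A), (∀ i, X.D i f ∈ I) → ∀ (Φ : FamilyF X f)
  (ψ : k → (A →+* A)), (∀ t, IsValue I Φ.φ t (ψ t)) → Function.Bijective (ψ 0) →
  ∀ (h : ∀ t, ψ t f = f) (t : k), DGEqL k (DGF.pull (ψ 0) (h 0)) (DGF.pull (ψ t) (h t))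

end

end Pool.Agent.MFI
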