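import Pool.Agent.MFI.DC3
import Pool.Agent.MFI.St3

/-!
# Isotopy invariance of matrix factorizations (MP_c8c50b_ag), helper42

Part DF1: frames. The diagonal of `A ⊗ A`, Taylor's formula with remainder, evaluation along a path.
-/

set_option autoImplicit false

open PowerSeries
open Finset.HasAntidiagonal (antidiagonal mem_antidiagonal)
open scoped TensorProduct

namespace Pool.Agent.MFI.DC

universe u

noncomputable section

section Diag

variable {k A : Type u} [Field k] [CommRing A] [Algebra k A] {I : Ideal A} {n : ℕ}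

variable (k A) in
/-- functions on the square of the space -/
abbrev EE : Type u := A ⊗[k] A

variable (k) in
/-- the first projection -/
def i1 : A →ₐ[k] EE k A := Algebra.TensorProduct.includeLeft

variable (k) in
/-- the second projection -/
def i2 : A →ₐ[k] EE k A := Algebra.TensorProduct.includeRight

variable (k A) in
/-- the restriction to the diagonal -/
def mu : EE k A →ₐ[k] A := Algebra.TensorProduct.lmul' k

variable (k A) in
/-- the ideal of the diagonal -/
def Dg : Ideal (EE k A) := KaehlerDifferential.ideal k A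

variable (k) in
/-- the ideal generated by `I^N` in the first factor -/
def IE (I : Ideal A) (N : ℕ) : Ideal (EE k A) := Ideal.map (i1 k : A →ₐ[k] EE k A) (I ^ N)

lemma i1_apply (a : A) : i1 k a = a ⊗ₜ 1 := rfl

lemma i2_apply (a : A) : i2 k a = 1 ⊗ₜ a := rfl

lemma mu_tmul (a b : A) : mu k A (a ⊗ₜ b) = a * b := rfl

lemma mu_i1 (a : A) : mu k A (i1 k a) = a := by rw [i1_apply, mu_tmul, mul_one]

lemma mu_i2 (a : A) : mu k A (i2 k a) = a := by rw [i2_apply, mu_tmul, one_mul]

lemma mem_Dg {z : EE k A} : z ∈ Dg k A ↔ mu k A z = 0 := Iff.rfl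

lemma diff_mem (a : A) : i2 k a - i1 k a ∈ Dg k A := by
  rw [mem_Dg, map_sub, mu_i1, mu_i2, sub_self]

lemma i1_mem_IE {N : ℕ} {a : A} (h : a ∈ I ^ N) : i1 k a ∈ IE k I N :=
  Ideal.mem_map_of_mem _ h

lemma IE_mono {N M : ℕ} (h : N ≤ M) : IE k I M ≤ IE k I N :=
  Ideal.map_mono (Ideal.pow_le_pow_right h)

/-- the first order Taylor formula -/
lemma first (X : Frame k A I n) (N : ℕ) (a : A) :
    i2 k a - i1 k a - ∑ j, i1 k (X.D j a) * (i2 k (X.x j) - i1 k (X.x j)) ∈
      Dg k A ^ 2 ⊔ IE k I N := by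
  set Q : Ideal (EE k A) := Dg k A ^ 2 ⊔ IE k I N with hQ
  let g : A →+* EE k A ⧸ Q := (Ideal.Quotient.mk Q).comp (i1 k : A →ₐ[k] EE k A).toRingHom
  let φ : Filt (EE k A ⧸ Q) :=
    { F := fun m => (Ideal.map g (I ^ m)).toAddSubgroup
      zero := fun x => by
        change x ∈ Ideal.map g (I ^ 0)
        rw [pow_zero, Ideal.one_eq_top, Ideal.map_top]
        trivial
      mono := fun m x hx => by
        have h1 : x ∈ Ideal.map g (I ^ (m + 1)) := hx
        exact Ideal.map_mono (Ideal.pow_le_pow_right (Nat.le_succ m)) h1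
      mul := fun i j x y hx hy => by
        change x * y ∈ Ideal.map g (I ^ (i + j))
        rw [pow_add, Ideal.map_mul]
        exact Ideal.mul_mem_mul hx hy }
  let δ : A →+ EE k A ⧸ Q := (Ideal.Quotient.mk Q).toAddMonoidHom.comp
    ((i2 k : A →ₐ[k] EE k A).toLinearMap.toAddMonoidHom -
      (i1 k : A →ₐ[k] EE k A).toLinearMap.toAddMonoidHom)
  have hδ : ∀ a, δ a = Ideal.Quotient.mk Q (i2 k a - i1 k a) := fun a => rfl
  have h1 : δ a = ∑ j, g (X.D j a) * δ (X.x j) := by
    refine X.gen_ring g φ (fun N a ha => Ideal.mem_map_of_mem _ ha) (fun x hx => ?_) δ ?_ ?_ a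
    · have h2 : x ∈ Ideal.map g (I ^ N) := hx N
      have h3 : Ideal.map g (I ^ N) = Ideal.map (Ideal.Quotient.mk Q) (IE k I N) := by
        rw [IE, ← Ideal.map_coe (i1 k : A →ₐ[k] EE k A), Ideal.map_map]
        rfl
      have h4 : Ideal.map (Ideal.Quotient.mk Q) (IE k I N) = ⊥ := by
        rw [Ideal.map_eq_bot_iff_le_ker, Ideal.mk_ker]
        exact le_sup_right
      rw [h3, h4] at h2
      exact h2
    · intro a b
      change Ideal.Quotient.mk Q (i2 k (a * b) - i1 k (a * b)) =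
        Ideal.Quotient.mk Q (i1 k a) * Ideal.Quotient.mk Q (i2 k b - i1 k b) +
        Ideal.Quotient.mk Q (i1 k b) * Ideal.Quotient.mk Q (i2 k a - i1 k a)
      rw [← map_mul, ← map_mul, ← map_add, Ideal.Quotient.eq]
      have h2 : i2 k (a * b) - i1 k (a * b) -
          (i1 k a * (i2 k b - i1 k b) + i1 k b * (i2 k a - i1 k a)) =
          (i2 k a - i1 k a) * (i2 k b - i1 k b) := by
        rw [map_mul, map_mul]
        ring
      rw [h2, hQ, pow_two]
      exact Ideal.mem_sup_left (Ideal.mul_mem_mul (diff_mem a) (diff_mem b))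
    · intro r
      rw [hδ, AlgHom.commutes, AlgHom.commutes, sub_self, map_zero]
  have h2 : Ideal.Quotient.mk Q (i2 k a - i1 k a) =
      Ideal.Quotient.mk Q (∑ j, i1 k (X.D j a) * (i2 k (X.x j) - i1 k (X.x j))) := by
    rw [← hδ, h1, map_sum]
    refine Finset.sum_congr rfl fun j _ => ?_
    rw [map_mul]
    rfl
  exact (Ideal.Quotient.eq).1 h2

/-- the ideal of the functions `y_j = x_j ∘ pr_2 - x_j ∘ pr_1` -/
def Yd (X : Frame k A I n) : Ideal (EE k A) :=
  Ideal.span (Set.range fun j => i2 k (X.x j) - i1 k (X.x j))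

lemma dg_le (X : Frame k A I n) (N : ℕ) : Dg k A ≤ Yd X ⊔ Dg k A ^ 2 ⊔ IE k I N := by
  conv_lhs => rw [Dg, ← KaehlerDifferential.span_range_eq_ideal]
  rw [Ideal.span_le]
  rintro _ ⟨a, rfl⟩
  have h1 := first X N a
  have h2 : ∑ j, i1 k (X.D j a) * (i2 k (X.x j) - i1 k (X.x j)) ∈ Yd X :=
    sum_mem fun j _ => Ideal.mul_mem_left _ _ (Ideal.subset_span ⟨j, rfl⟩)
  have h3 : Dg k A ^ 2 ⊔ IE k I N ≤ Yd X ⊔ Dg k A ^ 2 ⊔ IE k I N := by
    rw [sup_assoc]
    exact le_sup_right
  have h4 : Yd X ≤ Yd X ⊔ Dg k A ^ 2 ⊔ IE k I N := by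
    rw [sup_assoc]
    exact le_sup_left
  have h5 := add_mem (h3 h1) (h4 h2)
  rw [sub_add_cancel] at h5
  exact h5

lemma dg2_le (X : Frame k A I n) (N m : ℕ) :
    Dg k A ^ 2 ≤ Dg k A * Yd X ⊔ (Dg k A ^ (m + 2) ⊔ IE k I N) := by
  induction m with
  | zero => exact le_trans le_sup_left le_sup_right
  | succ m ih =>
    refine ih.trans (sup_le le_sup_left (sup_le ?_ (le_trans le_sup_right le_sup_right)))
    have h1 : Dg k A ^ (m + 2) = Dg k A ^ (m + 1) * Dg k A := by rw [← pow_succ]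
    rw [h1]
    refine (Ideal.mul_mono_right (dg_le X N)).trans ?_
    rw [Ideal.mul_sup, Ideal.mul_sup]
    refine sup_le (sup_le ?_ ?_) ?_
    · refine le_trans (Ideal.mul_mono_left ?_) le_sup_left
      exact Ideal.pow_le_self (Nat.succ_ne_zero m)
    · rw [← pow_add]
      exact le_trans le_sup_left le_sup_right
    · have h5 : Dg k A ^ (m + 1) * IE k I N ≤ IE k I N := Ideal.mul_le_right
      exact h5.trans (le_trans le_sup_right le_sup_right)

/-- **Taylor's formula with remainder.** -/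
theorem taylorE (X : Frame k A I n) (N : ℕ) (a : A) :
    ∃ G : Fin n → EE k A, (∀ j, G j - i1 k (X.D j a) ∈ Dg k A) ∧
      i2 k a - i1 k a - ∑ j, G j * (i2 k (X.x j) - i1 k (X.x j)) ∈ Dg k A ^ N ⊔ IE k I N := by
  have h1 : i2 k a - i1 k a - ∑ j, i1 k (X.D j a) * (i2 k (X.x j) - i1 k (X.x j)) ∈
      Dg k A * Yd X ⊔ (Dg k A ^ N ⊔ IE k I N) := by
    have h2 := first X N a
    have h3 : Dg k A ^ 2 ⊔ IE k I N ≤ Dg k A * Yd X ⊔ (Dg k A ^ N ⊔ IE k I N) := by
      refine sup_le ((dg2_le X N N).trans (sup_le_sup_left (sup_le_sup_right ?_ _) _))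
        (le_trans le_sup_right le_sup_right)
      exact Ideal.pow_le_pow_right (by omega)
    exact h3 h2
  obtain ⟨u, hu, v, hv, huv⟩ := Submodule.mem_sup.1 h1
  have h2 : u ∈ Dg k A • Submodule.span (EE k A)
      (Set.range fun j => i2 k (X.x j) - i1 k (X.x j)) := hu
  obtain ⟨c, hc, hc'⟩ := (Submodule.mem_ideal_smul_span_iff_exists_sum _ _ _).1 h2
  refine ⟨fun j => i1 k (X.D j a) + c j, fun j => ?_, ?_⟩
  · rw [add_sub_cancel_left]
    exact hc j
  · have h3 : ∑ j, c j * (i2 k (X.x j) - i1 k (X.x j)) = u := by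
      rw [← hc', Finsupp.sum_fintype]
      · rfl
      · intro i
        exact zero_smul _ _
    have h4 : i2 k a - i1 k a - ∑ j, (i1 k (X.D j a) + c j) * (i2 k (X.x j) - i1 k (X.x j)) =
        v := by
      simp only [add_mul, Finset.sum_add_distrib]
      rw [h3, ← sub_sub, ← huv, add_sub_cancel_left]
    rw [h4]
    exact hv

/-- the derivations acting on the second factor -/
def D2 (X : Frame k A I n) (m : Fin n) : EE k A →ₗ[k] EE k A :=
  TensorProduct.map LinearMap.id (X.D m).toLinearMap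

lemma D2_tmul (X : Frame k A I n) (m : Fin n) (a b : A) :
    D2 X m (a ⊗ₜ b) = a ⊗ₜ X.D m b := rfl

lemma D2_i1 (X : Frame k A I n) (m : Fin n) (a : A) : D2 X m (i1 k a) = 0 := by
  rw [i1_apply, D2_tmul, Derivation.map_one_eq_zero, TensorProduct.tmul_zero]

lemma D2_i2 (X : Frame k A I n) (m : Fin n) (a : A) : D2 X m (i2 k a) = i2 k (X.D m a) := rfl

lemma D2_mul (X : Frame k A I n) (m : Fin n) (u v : EE k A) :
    D2 X m (u * v) = D2 X m u * v + u * D2 X m v := by
  induction u using TensorProduct.induction_on with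
  | zero => simp
  | add u u' h h' =>
    rw [add_mul, map_add, h, h', map_add, add_mul, add_mul]
    ring
  | tmul a b =>
    induction v using TensorProduct.induction_on with
    | zero => simp
    | add v v' h h' =>
      rw [mul_add, map_add, h, h', map_add, mul_add, mul_add]
      ring
    | tmul c d =>
      rw [Algebra.TensorProduct.tmul_mul_tmul, D2_tmul, D2_tmul, D2_tmul, Derivation.leibniz,
        Algebra.TensorProduct.tmul_mul_tmul, Algebra.TensorProduct.tmul_mul_tmul,
        TensorProduct.tmul_add, smul_eq_mul, smul_eq_mul, mul_comm d, add_comm]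

lemma D2_pow (X : Frame k A I n) (m : Fin n) (P : Ideal (EE k A)) (N : ℕ) :
    ∀ z ∈ P ^ (N + 1), D2 X m z ∈ P ^ N := by
  induction N with
  | zero => intro z _; simp
  | succ N ih =>
    intro z hz
    rw [pow_succ] at hz
    refine Submodule.mul_induction_on hz ?_ ?_
    · intro u hu v hv
      rw [D2_mul]
      refine add_mem ?_ (Ideal.mul_mem_right _ _ hu)
      rw [pow_succ]
      exact Ideal.mul_mem_mul (ih u hu) hv
    · intro u v hu hv
      rw [map_add]
      exact add_mem hu hv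

lemma D2_IE (X : Frame k A I n) (m : Fin n) (N : ℕ) :
    ∀ z ∈ IE k I N, D2 X m z ∈ IE k I N := by
  intro z hz
  refine Submodule.span_induction (p := fun z _ => D2 X m z ∈ IE k I N) ?_ ?_ ?_ ?_ hz
  · rintro _ ⟨a, ha, rfl⟩
    rw [D2_i1]
    exact zero_mem _
  · rw [map_zero]
    exact zero_mem _
  · intro u v _ _ hu hv
    rw [map_add]
    exact add_mem hu hv
  · intro c u hu hu'
    rw [smul_eq_mul, D2_mul]
    exact add_mem (Ideal.mul_mem_left _ _ hu) (Ideal.mul_mem_left _ _ hu')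

lemma D2_K (X : Frame k A I n) (m : Fin n) (N : ℕ) {z : EE k A}
    (hz : z ∈ Dg k A ^ (N + 1) ⊔ IE k I (N + 1)) : D2 X m z ∈ Dg k A ^ N ⊔ IE k I N := by
  obtain ⟨u, hu, v, hv, rfl⟩ := Submodule.mem_sup.1 hz
  rw [map_add]
  exact add_mem (Ideal.mem_sup_left (D2_pow X m _ N u hu))
    (Ideal.mem_sup_right (D2_IE X m N v (IE_mono (Nat.le_succ N) hv)))

end Diag

/-! ## evaluation -/

section Eval

variable {k A : Type u} [Field k] [CommRing A] [Algebra k A] {I : Ideal A} {n : ℕ}

/-- evaluation along a path -/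
def evp (H : A →ₐ[k] PowerSeries A) : EE k A →ₐ[k] PowerSeries A :=
  Algebra.TensorProduct.productMap (IsScalarTower.toAlgHom k A (PowerSeries A)) H

/-- evaluation at a morphism -/
def evc (ψ : A →ₐ[k] A) : EE k A →ₐ[k] A :=
  Algebra.TensorProduct.productMap (AlgHom.id k A) ψ

lemma evp_tmul (H : A →ₐ[k] PowerSeries A) (a b : A) : evp H (a ⊗ₜ b) = C a * H b := by
  rw [evp, Algebra.TensorProduct.productMap_apply_tmul]
  rfl

lemma evp_i1 (H : A →ₐ[k] PowerSeries A) (a : A) : evp H (i1 k a) = C a := by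
  rw [i1_apply, evp_tmul, map_one, mul_one]

lemma evp_i2 (H : A →ₐ[k] PowerSeries A) (a : A) : evp H (i2 k a) = H a := by
  rw [i2_apply, evp_tmul, map_one, one_mul]

lemma evc_tmul (ψ : A →ₐ[k] A) (a b : A) : evc ψ (a ⊗ₜ b) = a * ψ b := by
  rw [evc, Algebra.TensorProduct.productMap_apply_tmul]
  rfl

lemma val_evp {c : k} {H : A →ₐ[k] PowerSeries A} {ψ : A →ₐ[k] A}
    (h : ∀ a, Val I c (H a) (ψ a)) (z : EE k A) : Val I c (evp H z) (evc ψ z) := by
  induction z using TensorProduct.induction_on with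
  | zero =>
    rw [map_zero, map_zero]
    exact val_zero
  | add u v hu hv =>
    rw [map_add, map_add]
    exact hu.add hv
  | tmul a b =>
    rw [evp_tmul, evc_tmul]
    exact (val_C a).mul (h b)

lemma coeff_evp {H : A →ₐ[k] PowerSeries A} {J : Ideal A}
    (hJ : ∀ a m, coeff m (H a - C a) ∈ J) (z : EE k A) (m : ℕ) :
    coeff m (evp H z - C (mu k A z)) ∈ J := by
  induction z using TensorProduct.induction_on generalizing m with
  | zero =>
    rw [map_zero, map_zero, map_zero, sub_zero, map_zero]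
    exact zero_mem _
  | add u v hu hv =>
    rw [map_add, map_add, map_add, add_sub_add_comm, map_add]
    exact add_mem (hu m) (hv m)
  | tmul a b =>
    rw [evp_tmul, mu_tmul, map_mul, ← mul_sub, coeff_C_mul]
    exact Ideal.mul_mem_left _ _ (hJ b m)

lemma evp_Dg {H : A →ₐ[k] PowerSeries A} {J : Ideal A}
    (hJ : ∀ a m, coeff m (H a - C a) ∈ J) {z : EE k A} (hz : z ∈ Dg k A) (m : ℕ) :
    coeff m (evp H z) ∈ J := by
  have h1 := coeff_evp hJ z m
  rwa [mem_Dg.1 hz, map_zero, sub_zero] at h1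

lemma evp_Dg_pow {H : A →ₐ[k] PowerSeries A} {J : Ideal A}
    (hJ : ∀ a m, coeff m (H a - C a) ∈ J) (hJI : J ≤ I) (N : ℕ) :
    ∀ z ∈ Dg k A ^ N, InP I N (evp H z) := by
  induction N with
  | zero => exact fun z _ => inP_zero _
  | succ N ih =>
    intro z hz
    rw [pow_succ] at hz
    refine Submodule.mul_induction_on hz ?_ ?_
    · intro u hu v hv
      rw [map_mul]
      refine (ih u hu).mul fun m => ?_
      rw [pow_one]
      exact hJI (evp_Dg hJ hv m)
    · intro u v hu hv
      rw [map_add]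
      exact hu.add hv

lemma evp_IE (H : A →ₐ[k] PowerSeries A) (N : ℕ) : ∀ z ∈ IE k I N, InP I N (evp H z) := by
  intro z hz
  refine Submodule.span_induction (p := fun z _ => InP I N (evp H z)) ?_ ?_ ?_ ?_ hz
  · rintro _ ⟨a, ha, rfl⟩
    intro m
    rw [evp_i1, coeff_C]
    split_ifs
    · exact ha
    · exact zero_mem _
  · intro m
    rw [map_zero, map_zero]
    exact zero_mem _
  · intro u v _ _ hu hv
    rw [map_add]
    exact hu.add hv
  · intro c u _ hu
    rw [smul_eq_mul, map_mul]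
    exact hu.mul_left _

lemma evp_K {H : A →ₐ[k] PowerSeries A} {J : Ideal A}
    (hJ : ∀ a m, coeff m (H a - C a) ∈ J) (hJI : J ≤ I) {N : ℕ} {z : EE k A}
    (hz : z ∈ Dg k A ^ N ⊔ IE k I N) : InP I N (evp H z) := by
  obtain ⟨u, hu, v, hv, rfl⟩ := Submodule.mem_sup.1 hz
  rw [map_add]
  exact (evp_Dg_pow hJ hJI N u hu).add (evp_IE H N v hv)

lemma dt_evp (X : Frame k A I n) {H : A →ₐ[k] PowerSeries A}
    (hch : ∀ a, dt (H a) = ∑ m, H (X.D m a) * dt (H (X.x m))) (z : EE k A) :
    dt (evp H z) = ∑ m, evp H (D2 X m z) * dt (H (X.x m)) := by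
  induction z using TensorProduct.induction_on with
  | zero => simp
  | add u v hu hv =>
    rw [map_add, map_add, hu, hv, ← Finset.sum_add_distrib]
    refine Finset.sum_congr rfl fun m _ => ?_
    rw [map_add, map_add, add_mul]
  | tmul a b =>
    rw [evp_tmul, dt_mul, dt_C, zero_mul, zero_add, hch, Finset.mul_sum]
    refine Finset.sum_congr rfl fun m _ => ?_
    rw [D2_tmul, evp_tmul, mul_assoc]

lemma evc_Dg {ψ : A →ₐ[k] A} {J : Ideal A} (hJ : ∀ a, ψ a - a ∈ J) (z : EE k A) :
    evc ψ z - mu k A z ∈ J := by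
  induction z using TensorProduct.induction_on with
  | zero =>
    rw [map_zero, map_zero, sub_zero]
    exact zero_mem _
  | add u v hu hv =>
    rw [map_add, map_add, add_sub_add_comm]
    exact add_mem hu hv
  | tmul a b =>
    rw [evc_tmul, mu_tmul, ← mul_sub]
    exact Ideal.mul_mem_left _ _ (hJ b)

end Eval

end

end Pool.Agent.MFI.DC
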