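import Pool.Agent.MFI.DF1

/-!
# Isotopy invariance of matrix factorizations (MP_c8c50b_ag), helper42

Part DF2: frames. The potential of the action integral; the ends of paths.
-/

set_option autoImplicit false

open PowerSeries
open Finset.HasAntidiagonal (antidiagonal mem_antidiagonal)
open scoped TensorProduct

namespace Pool.Agent.MFI.DC

universe u

noncomputable section

section Chain

variable {k A : Type u} [Field k] [CommRing A] [Algebra k A] {I : Ideal A} {n : ℕ}

/-- the filtration of `A[[s]]` by the powers of `I` -/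
def filI (I : Ideal A) : Filt (PowerSeries A) where
  F N :=
    { carrier := {F | InP I N F}
      add_mem' := fun h h' => h.add h'
      zero_mem' := fun m => by rw [map_zero]; exact zero_mem _
      neg_mem' := fun h => h.neg }
  zero F := inP_zero F
  mono N F h := h.mono (Nat.le_succ N)
  mul i j F G hF hG := hF.mul hG

lemma filI_sep [IsHausdorff I A] {F : PowerSeries A} (h : ∀ N, InP I N F) : F = 0 := by
  ext m
  rw [map_zero]
  refine IsHausdorff.haus' (I := I) _ fun N => ?_
  rw [SModEq.zero, smul_eq_mul, Ideal.mul_top]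
  exact h N m

lemma hom_InP {H : A →+* PowerSeries A} (hI : ∀ a m, coeff m (H a - C a) ∈ I) (N : ℕ) :
    ∀ a ∈ I ^ N, InP I N (H a) := by
  have h1 : ∀ a ∈ I, InP I 1 (H a) := by
    intro a ha m
    have h2 := hI a m
    rw [map_sub] at h2
    have h3 : coeff m (C a) ∈ I := by
      rw [coeff_C]
      split_ifs
      · exact ha
      · exact zero_mem _
    have h4 := add_mem h2 h3
    rw [pow_one]
    rwa [sub_add_cancel] at h4
  induction N with
  | zero => exact fun a _ => inP_zero _
  | succ N ih =>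
    intro a ha
    rw [pow_succ] at ha
    refine Submodule.mul_induction_on ha ?_ ?_
    · intro x hx y hy
      rw [map_mul]
      exact (ih x hx).mul (h1 y hy)
    · intro x y hx hy
      rw [map_add]
      exact hx.add hy

lemma algebraMap_ser (r : k) : algebraMap k (PowerSeries A) r = C (algebraMap k A r) := by
  rw [IsScalarTower.algebraMap_apply k A (PowerSeries A)]
  rfl

/-- the chain rule along a path -/
theorem chainF [IsHausdorff I A] (X : Frame k A I n) {H : A →ₐ[k] PowerSeries A}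
    (hI : ∀ a m, coeff m (H a - C a) ∈ I) (a : A) :
    dt (H a) = ∑ m, H (X.D m a) * dt (H (X.x m)) := by
  refine X.gen_ring H.toRingHom (filI I) (hom_InP hI) (fun F hF => filI_sep hF)
    (dt.comp H.toLinearMap.toAddMonoidHom) ?_ ?_ a
  · intro a b
    change dt (H (a * b)) = H a * dt (H b) + H b * dt (H a)
    rw [map_mul, dt_mul]
    ring
  · intro r
    change dt (H (algebraMap k A r)) = 0
    rw [AlgHom.commutes, algebraMap_ser, dt_C]

lemma D_pow (D : Derivation k A A) (N : ℕ) : ∀ a ∈ I ^ (N + 1), D a ∈ I ^ N := by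
  induction N with
  | zero => intro z _; simp
  | succ N ih =>
    intro z hz
    rw [pow_succ] at hz
    refine Submodule.mul_induction_on hz ?_ ?_
    · intro u hu v hv
      rw [Derivation.leibniz, smul_eq_mul, smul_eq_mul]
      refine add_mem (Ideal.mul_mem_right _ _ hu) ?_
      rw [pow_succ, mul_comm v]
      exact Ideal.mul_mem_mul (ih u hu) hv
    · intro u v hu hv
      rw [map_add]
      exact add_mem hu hv

/-- coefficientwise application of a derivation -/
def dcs (D : Derivation k A A) : PowerSeries A →+ PowerSeries A where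
  toFun F := PowerSeries.mk fun r => D (coeff r F)
  map_zero' := by
    ext m
    rw [coeff_mk, map_zero, map_zero]
  map_add' F G := by
    ext m
    rw [coeff_mk, map_add, map_add, map_add, coeff_mk, coeff_mk]

lemma coeff_dcs (D : Derivation k A A) (F : PowerSeries A) (m : ℕ) :
    coeff m (dcs D F) = D (coeff m F) := by
  change coeff m (PowerSeries.mk fun r => D (coeff r F)) = _
  rw [coeff_mk]

lemma dcs_mul (D : Derivation k A A) (F G : PowerSeries A) :
    dcs D (F * G) = dcs D F * G + F * dcs D G := by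
  ext m
  rw [coeff_dcs, map_add, coeff_mul, coeff_mul, coeff_mul, map_sum, ← Finset.sum_add_distrib]
  refine Finset.sum_congr rfl fun p _ => ?_
  rw [Derivation.leibniz, coeff_dcs, coeff_dcs, smul_eq_mul, smul_eq_mul]
  ring

lemma dcs_C (D : Derivation k A A) (a : A) : dcs D (C a) = C (D a) := by
  ext m
  rw [coeff_dcs, coeff_C, coeff_C]
  split_ifs
  · rfl
  · exact map_zero D

/-- the chain rule for the Jacobian matrix -/
theorem jacF [IsHausdorff I A] (X : Frame k A I n) {H : A →ₐ[k] PowerSeries A}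
    (hI : ∀ a m, coeff m (H a - C a) ∈ I) (j : Fin n) (a : A) :
    dcs (X.D j) (H a) = ∑ m, H (X.D m a) * dcs (X.D j) (H (X.x m)) := by
  refine X.gen_ring H.toRingHom (filI I) (hom_InP hI) (fun F hF => filI_sep hF)
    ((dcs (X.D j)).comp H.toLinearMap.toAddMonoidHom) ?_ ?_ a
  · intro a b
    change dcs (X.D j) (H (a * b)) = H a * dcs (X.D j) (H b) + H b * dcs (X.D j) (H a)
    rw [map_mul, dcs_mul]
    ring
  · intro r
    change dcs (X.D j) (H (algebraMap k A r)) = 0
    rw [AlgHom.commutes, algebraMap_ser, dcs_C, Derivation.map_algebraMap, map_zero]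

end Chain

section Pot

variable {k A : Type u} [Field k] [CharZero k] [CommRing A] [Algebra k A] {I : Ideal A} {n : ℕ}

/-- the remainder functions of `f` -/
def Adm (X : Frame k A I n) (f : A) (N : ℕ) (G : Fin n → EE k A) : Prop :=
  (∀ j, G j - i1 k (X.D j f) ∈ Dg k A) ∧
    i2 k f - i1 k f - ∑ j, G j * (i2 k (X.x j) - i1 k (X.x j)) ∈ Dg k A ^ N ⊔ IE k I N

omit [CharZero k] in
lemma mul_ser_mem {g : Fin n → A} {F : PowerSeries A}
    (hF : ∀ m, coeff m F ∈ Ideal.span (Set.range g)) {z : Fin n → PowerSeries A}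
    (hz : ∑ l, z l * C (g l) = 0) (r : ℕ) : (fun l => coeff r (F * z l)) ∈ Bd g := by
  have h1 : ∀ m, (fun l => coeff m (z l)) ∈ Zc g := by
    intro m
    rw [mem_Zc]
    have h2 := congrArg (coeff m) hz
    rw [map_sum, map_zero] at h2
    rw [← h2]
    exact Finset.sum_congr rfl fun l _ => by rw [coeff_mul_C]
  have e1 : (fun l => coeff r (F * z l)) =
      ∑ p ∈ antidiagonal r, coeff p.1 F • fun l => coeff p.2 (z l) := by
    ext l
    rw [coeff_mul, Finset.sum_apply]
    rfl
  rw [e1]
  exact sum_mem fun p _ => span_smul_Zc (Submodule.smul_mem_smul (hF _) (h1 _))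

omit [CharZero k] in
lemma Adm.mu {X : Frame k A I n} {f : A} {N : ℕ} {G : Fin n → EE k A} (hG : Adm X f N G)
    (i : Fin n) : mu k A (G i) = X.D i f := by
  have h1 := mem_Dg.1 (hG.1 i)
  rwa [map_sub, mu_i1, sub_eq_zero] at h1

omit [CharZero k] in
lemma Adm.coeff_mem {X : Frame k A I n} {f : A} {N : ℕ} {G : Fin n → EE k A}
    (hG : Adm X f N G) {H : A →ₐ[k] PowerSeries A}
    (hJ : ∀ a m, coeff m (H a - C a) ∈ Ideal.span (Set.range fun i => X.D i f)) (i : Fin n)
    (m : ℕ) : coeff m (evp H (G i)) ∈ Ideal.span (Set.range fun i => X.D i f) := by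
  have h1 := coeff_evp hJ (G i) m
  rw [hG.mu, map_sub] at h1
  have h2 : coeff m (C (X.D i f)) ∈ Ideal.span (Set.range fun i => X.D i f) := by
    rw [coeff_C]
    split_ifs
    · exact Ideal.subset_span ⟨i, rfl⟩
    · exact zero_mem _
  have h3 := add_mem h1 h2
  rwa [sub_add_cancel] at h3

omit [CharZero k] in
lemma Adm.evc_mem {X : Frame k A I n} {f : A} {N : ℕ} {G : Fin n → EE k A}
    (hG : Adm X f N G) {ψ : A →ₐ[k] A}
    (hJ : ∀ a, ψ a - a ∈ Ideal.span (Set.range fun i => X.D i f)) (i : Fin n) :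
    evc ψ (G i) ∈ Ideal.span (Set.range fun i => X.D i f) := by
  have h1 := evc_Dg hJ (G i)
  rw [hG.mu] at h1
  have h2 : X.D i f ∈ Ideal.span (Set.range fun i => X.D i f) := Ideal.subset_span ⟨i, rfl⟩
  have h3 := add_mem h1 h2
  rwa [sub_add_cancel] at h3

omit [CharZero k] in
theorem potA (X : Frame k A I n) {f : A} {N : ℕ} {G : Fin n → EE k A}
    (hG : Adm X f (N + 1) G) {H : A →ₐ[k] PowerSeries A}
    (hJ : ∀ a m, coeff m (H a - C a) ∈ Ideal.span (Set.range fun i => X.D i f))
    (hJI : Ideal.span (Set.range fun i => X.D i f) ≤ I)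
    (hch : ∀ a, dt (H a) = ∑ m, H (X.D m a) * dt (H (X.x m)))
    {h : Fin n → Fin n → PowerSeries A}
    (hh : ∀ i, H (X.x i) - C (X.x i) = ∑ l, h i l * C (X.D l f)) (r : ℕ) :
    (fun l => coeff r (dt (∑ i, evp H (G i) * h i l) - ∑ i, H (X.D i f) * dt (h i l))) ∈
      Wn (fun i => X.D i f) I N := by
  set g : Fin n → A := fun i => X.D i f with hg
  set Gs : Fin n → PowerSeries A := fun i => evp H (G i) with hGs
  set F : Fin n → PowerSeries A := fun m => H (g m) with hF
  set Q : Fin n → Fin n → PowerSeries A := fun m i => evp H (D2 X m (G i)) with hQ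
  set Y : Fin n → PowerSeries A := fun i => H (X.x i) - C (X.x i) with hY
  set E : Fin n → Fin n → PowerSeries A := fun m i => H (X.D m (X.x i)) with hE
  set ε : Fin n → PowerSeries A := fun m => F m - ∑ i, E m i * Gs i - ∑ i, Q m i * Y i with hε
  set z : Fin n → Fin n → PowerSeries A := fun i l => dt (h i l) - ∑ m, E m i * dt (h m l) with hz
  have hdY : ∀ i, dt (Y i) = dt (H (X.x i)) := fun i => by rw [hY, map_sub, dt_C, sub_zero]
  have hYg : ∀ i, Y i = ∑ l, h i l * C (g l) := hh
  have hdYg : ∀ i, dt (Y i) = ∑ l, dt (h i l) * C (g l) := by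
    intro i
    rw [hYg, map_sum]
    refine Finset.sum_congr rfl fun l _ => ?_
    rw [dt_mul, dt_C, mul_zero, add_zero]
  have R1 : ∀ i, dt (Gs i) = ∑ m, Q m i * dt (Y m) := by
    intro i
    rw [hGs, dt_evp X hch]
    exact Finset.sum_congr rfl fun m _ => by rw [hdY]
  have R2 : ∀ m, InP I N (ε m) := by
    intro m
    have h1 := evp_K hJ hJI (D2_K X m N hG.2)
    have h2 : evp H (D2 X m (i2 k f - i1 k f -
        ∑ j, G j * (i2 k (X.x j) - i1 k (X.x j)))) = ε m := by
      rw [map_sub (D2 X m), map_sub (D2 X m), D2_i2, D2_i1, sub_zero, map_sum (D2 X m),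
        map_sub (evp H), map_sum (evp H), evp_i2]
      have h3 : ∀ j, evp H (D2 X m (G j * (i2 k (X.x j) - i1 k (X.x j)))) =
          Q m j * Y j + E m j * Gs j := by
        intro j
        rw [D2_mul, map_sub (D2 X m), D2_i2, D2_i1, sub_zero, map_add, map_mul, map_mul, map_sub,
          evp_i1, evp_i2, evp_i2]
        rw [hQ, hY, hE, hGs]
        ring
      rw [Finset.sum_congr rfl fun j _ => h3 j, Finset.sum_add_distrib, hε, hF, hg]
      ring
    rwa [h2] at h1
  have R3 : ∀ i, ∑ l, z i l * C (g l) = 0 := by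
    intro i
    have h1 := hch (X.x i)
    rw [← hdY, hdYg] at h1
    have h2 : ∀ m, H (X.D m (X.x i)) * dt (H (X.x m)) = ∑ l, E m i * dt (h m l) * C (g l) := by
      intro m
      rw [← hdY, hdYg, Finset.mul_sum]
      exact Finset.sum_congr rfl fun l _ => by rw [hE]; ring
    rw [Finset.sum_congr rfl fun m _ => h2 m, Finset.sum_comm] at h1
    rw [hz]
    simp only [sub_mul, Finset.sum_mul]
    rw [Finset.sum_sub_distrib, h1, sub_self]
  set β : Fin n → Fin n → PowerSeries A :=
    fun l p => ∑ m, ∑ i, Q m i * (h i l * dt (h m p) - h i p * dt (h m l)) with hβ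
  have hβa : ∀ l p, β l p = - β p l := by
    intro l p
    rw [hβ]
    simp only
    rw [← Finset.sum_neg_distrib]
    refine Finset.sum_congr rfl fun m _ => ?_
    rw [← Finset.sum_neg_distrib]
    refine Finset.sum_congr rfl fun i _ => ?_
    ring
  have key : ∀ l, dt (∑ i, Gs i * h i l) - ∑ i, F i * dt (h i l) =
      (∑ p, β l p * C (g p)) + (∑ i, Gs i * z i l) - ∑ m, ε m * dt (h m l) := by
    intro l
    have e6 : ∑ p, β l p * C (g p) = ∑ m, ∑ i, Q m i * (dt (Y m) * h i l - Y i * dt (h m l)) := by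
      rw [hβ]
      simp only [Finset.sum_mul]
      rw [Finset.sum_comm]
      refine Finset.sum_congr rfl fun m _ => ?_
      rw [Finset.sum_comm]
      refine Finset.sum_congr rfl fun i _ => ?_
      rw [hdYg, hYg, Finset.sum_mul, Finset.sum_mul, ← Finset.sum_sub_distrib, Finset.mul_sum]
      refine Finset.sum_congr rfl fun p _ => ?_
      ring
    have e7 : dt (∑ i, Gs i * h i l) = ∑ m, ∑ i, Q m i * (dt (Y m) * h i l) +
        ∑ i, Gs i * dt (h i l) := by
      rw [map_sum, Finset.sum_comm, ← Finset.sum_add_distrib]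
      refine Finset.sum_congr rfl fun i _ => ?_
      rw [dt_mul, R1, Finset.sum_mul]
      congr 1
      refine Finset.sum_congr rfl fun m _ => ?_
      ring
    have e8 : ∑ i, Gs i * z i l = ∑ i, Gs i * dt (h i l) -
        ∑ m, ∑ i, E m i * Gs i * dt (h m l) := by
      rw [hz]
      simp only [mul_sub, Finset.mul_sum]
      rw [Finset.sum_sub_distrib]
      congr 1
      rw [Finset.sum_comm]
      refine Finset.sum_congr rfl fun m _ => Finset.sum_congr rfl fun i _ => ?_
      ring
    have e9 : ∑ m, ε m * dt (h m l) = ∑ m, F m * dt (h m l) -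
        ∑ m, ∑ i, E m i * Gs i * dt (h m l) - ∑ m, ∑ i, Q m i * (Y i * dt (h m l)) := by
      rw [hε]
      simp only [sub_mul, Finset.sum_mul]
      rw [Finset.sum_sub_distrib, Finset.sum_sub_distrib]
      congr 1
      refine Finset.sum_congr rfl fun m _ => Finset.sum_congr rfl fun i _ => ?_
      ring
    have e10 : ∑ m, ∑ i, Q m i * (dt (Y m) * h i l - Y i * dt (h m l)) =
        ∑ m, ∑ i, Q m i * (dt (Y m) * h i l) - ∑ m, ∑ i, Q m i * (Y i * dt (h m l)) := by
      simp only [mul_sub, Finset.sum_sub_distrib]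
    rw [e6, e7, e8, e9, e10]
    ring
  have e8 : (fun l => coeff r (dt (∑ i, Gs i * h i l) - ∑ i, F i * dt (h i l))) =
      (fun l => ∑ p, coeff r (β l p) * g p) + (∑ i, fun l => coeff r (Gs i * z i l)) -
        fun l => coeff r (∑ m, ε m * dt (h m l)) := by
    ext l
    rw [key l, map_sub, map_add, Pi.sub_apply, Pi.add_apply, map_sum, map_sum, Finset.sum_apply]
    congr 2
    refine Finset.sum_congr rfl fun m _ => ?_
    rw [coeff_mul_C]
  rw [e8]
  refine sub_mem (add_mem (mem_Wn_of_Bd ⟨fun l m => coeff r (β l m), fun l m => ?_,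
    fun l => rfl⟩) (mem_Wn_of_Bd (sum_mem fun i _ => ?_))) (mem_Wn_of_pow fun l => ?_)
  · change coeff r (β l m) = - coeff r (β m l)
    rw [hβa l m, map_neg]
  · exact mul_ser_mem (hG.coeff_mem hJ i) (R3 i) r
  · exact (InP.sum _ fun m _ => (R2 m).mul_right _) r

omit [CharZero k] in
lemma coeff_zero_evp {H : A →ₐ[k] PowerSeries A} {ψ : A →ₐ[k] A}
    (h0 : ∀ a, coeff 0 (H a) = ψ a) (z : EE k A) : coeff 0 (evp H z) = evc ψ z := by
  induction z using TensorProduct.induction_on with
  | zero => rw [map_zero, map_zero, map_zero]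
  | add u v hu hv => rw [map_add, map_add, map_add, hu, hv]
  | tmul a b => rw [evp_tmul, evc_tmul, coeff_C_mul, h0]

theorem potB (X : Frame k A I n) {f : A} {N : ℕ} {G : Fin n → EE k A}
    (hG : Adm X f (N + 1) G) {H : A →ₐ[k] PowerSeries A}
    (hJ : ∀ a m, coeff m (H a - C a) ∈ Ideal.span (Set.range fun i => X.D i f))
    (hJI : Ideal.span (Set.range fun i => X.D i f) ≤ I)
    (hch : ∀ a, dt (H a) = ∑ m, H (X.D m a) * dt (H (X.x m)))
    {h : Fin n → Fin n → PowerSeries A}
    (hh : ∀ i, H (X.x i) - C (X.x i) = ∑ l, h i l * C (X.D l f))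
    {ψ0 : A →ₐ[k] A} (h0 : ∀ a, coeff 0 (H a) = ψ0 a)
    {c : k} {ψ : A →ₐ[k] A} (hv : ∀ a, Val I c (H a) (ψ a)) {η : Fin n → Fin n → A}
    (hη : ∀ i l, Val I c (h i l) (η i l)) {e : Fin n → A}
    (he : ∀ l, Val I c (prim k (∑ i, H (X.D i f) * dt (h i l))) (e l)) :
    (fun l => (∑ i, evc ψ (G i) * η i l) -
      (∑ i, evc ψ0 (G i) * coeff 0 (h i l)) - e l) ∈ Wn (fun i => X.D i f) I N := by
  have hvl : ∀ l, Val I c ((∑ i, evp H (G i) * h i l) -
      C (∑ i, evc ψ0 (G i) * coeff 0 (h i l)) -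
      prim k (∑ i, H (X.D i f) * dt (h i l))) ((∑ i, evc ψ (G i) * η i l) -
      (∑ i, evc ψ0 (G i) * coeff 0 (h i l)) - e l) := by
    intro l
    exact Val.sub (Val.sub (Val.sum _ fun i _ => Val.mul (val_evp hv _) (hη i l)) (val_C _)) (he l)
  refine val_mem hvl fun r => ?_
  rcases r with _ | r
  · have e1 : (fun l => coeff 0 ((∑ i, evp H (G i) * h i l) -
        C (∑ i, evc ψ0 (G i) * coeff 0 (h i l)) -
        prim k (∑ i, H (X.D i f) * dt (h i l)))) = 0 := by
      ext l
      rw [map_sub, map_sub, coeff_prim_zero, coeff_zero_C, map_sum, sub_zero, Pi.zero_apply,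
        sub_eq_zero]
      refine Finset.sum_congr rfl fun i _ => ?_
      rw [coeff_zero_mul', coeff_zero_evp h0]
    rw [e1]
    exact zero_mem _
  · have e1 : (fun l => coeff (r + 1) ((∑ i, evp H (G i) * h i l) -
        C (∑ i, evc ψ0 (G i) * coeff 0 (h i l)) -
        prim k (∑ i, H (X.D i f) * dt (h i l)))) = ((r + 1 : k)⁻¹) • fun l =>
          coeff r (dt (∑ i, evp H (G i) * h i l) - ∑ i, H (X.D i f) * dt (h i l)) := by
      ext l
      rw [Pi.smul_apply, map_sub, map_sub, coeff_prim_succ, coeff_C, if_neg (Nat.succ_ne_zero r),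
        sub_zero, map_sub, smul_sub, coeff_dt, nsmul_ksmul]
    rw [e1]
    exact smul_mem_sub _ (potA X hG hJ hJI hch hh r)

omit [CharZero k] in
/-- independence of the choice of the lift -/
theorem indepF (X : Frame k A I n) {f : A} {N : ℕ} {G : Fin n → EE k A}
    (hG : Adm X f N G) {ψ : A →ₐ[k] A}
    (hJ : ∀ a, ψ a - a ∈ Ideal.span (Set.range fun i => X.D i f)) {y : Fin n → A}
    {η η' : Fin n → Fin n → A} (hη : ∀ i, y i = ∑ m, η i m * X.D m f)
    (hη' : ∀ i, y i = ∑ m, η' i m * X.D m f) :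
    (fun l => (∑ i, evc ψ (G i) * η i l) - ∑ i, evc ψ (G i) * η' i l) ∈
      Bd (fun i => X.D i f) := by
  have e1 : (fun l => (∑ i, evc ψ (G i) * η i l) - ∑ i, evc ψ (G i) * η' i l) =
      ∑ i, evc ψ (G i) • fun l => (η i l - η' i l) := by
    ext l
    rw [Finset.sum_apply, ← Finset.sum_sub_distrib]
    refine Finset.sum_congr rfl fun i _ => ?_
    rw [Pi.smul_apply, smul_eq_mul]
    ring
  rw [e1]
  refine sum_mem fun i _ => span_smul_Zc (Submodule.smul_mem_smul (hG.evc_mem hJ i) ?_)
  rw [mem_Zc, ← sub_self (y i)]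
  nth_rewrite 1 [hη i]
  rw [hη' i, ← Finset.sum_sub_distrib]
  exact Finset.sum_congr rfl fun j _ => by ring

/-- A path of Koszul homotopies from the identity to `ψ`: a homomorphism `H : A → A⟨s⟩` and
`Θ` with `dH/ds = d Θ`, such that `∫ Θ(f) ds` is a boundary. -/
structure PthF (X : Frame k A I n) (f : A) (ψ : A →ₐ[k] A) where
  H : A →ₐ[k] PowerSeries A
  Θ : Fin n → Fin n → PowerSeries A
  rst : ∀ a, Rst I (H a)
  rstΘ : ∀ i j, Rst I (Θ i j)
  init : ∀ a, coeff 0 (H a) = a
  vel : ∀ a m, coeff (m + 1) (H a) ∈ Ideal.span (Set.range fun i => X.D i f)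
  hom : ∀ i, dt (H (X.x i)) = ∑ j, Θ i j * C (X.D j f)
  fin : ∀ a, Val I (1 : k) (H a) (ψ a)
  e : Fin n → A
  val : ∀ l, Val I (1 : k) (prim k (∑ i, H (X.D i f) * Θ i l)) (e l)
  bd : e ∈ Bd (fun i => X.D i f)

/-- what we use about the end `ψ` of a path -/
theorem PthF.spec [IsAdicComplete I A] (X : Frame k A I n) {f : A} (hg : ∀ i, X.D i f ∈ I)
    {N0 : ℕ} (hN0 : I ^ N0 ≤ Ideal.span (Set.range fun i => X.D i f)) {ψ : A →ₐ[k] A}
    (p : PthF X f ψ) :
    (∀ a, ψ a - a ∈ Ideal.span (Set.range fun i => X.D i f)) ∧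
    ∃ η : Fin n → Fin n → A, (∀ i, ψ (X.x i) - X.x i = ∑ m, η i m * X.D m f) ∧
      ∀ N G, Adm X f (N + 1) G → (fun l => ∑ i, evc ψ (G i) * η i l) ∈
        Wn (fun i => X.D i f) I N := by
  have hJI : Ideal.span (Set.range fun i => X.D i f) ≤ I := by
    rw [Ideal.span_le]
    rintro _ ⟨i, rfl⟩
    exact hg i
  have hJ : ∀ a m, coeff m (p.H a - C a) ∈ Ideal.span (Set.range fun i => X.D i f) := by
    intro a m
    rcases m with _ | m
    · rw [map_sub, p.init, coeff_zero_C, sub_self]
      exact zero_mem _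
    · rw [map_sub, coeff_C, if_neg (Nat.succ_ne_zero m), sub_zero]
      exact p.vel a m
  have hch := chainF X (H := p.H) fun a m => hJI (hJ a m)
  have h1 : ∀ a, ψ a - a ∈ Ideal.span (Set.range fun i => X.D i f) := by
    intro a
    obtain ⟨M, hM⟩ := (p.fin a).lim N0
    have h2 := hM (M + 1) (by omega)
    rw [Finset.sum_range_succ', pow_zero, one_smul, p.init] at h2
    have h3 : ∑ m ∈ Finset.range M, (1 : k) ^ (m + 1) • coeff (m + 1) (p.H a) ∈
        Ideal.span (Set.range fun i => X.D i f) := by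
      refine sum_mem fun m _ => ?_
      rw [one_pow, one_smul]
      exact p.vel a m
    have h4 := sub_mem h3 (hN0 h2)
    convert! h4 using 1
    ring
  set h : Fin n → Fin n → PowerSeries A := fun i m => prim k (p.Θ i m) with hh
  have hhY : ∀ i, p.H (X.x i) - C (X.x i) = ∑ m, h i m * C (X.D m f) := by
    intro i
    apply series_eq k
    · rw [map_sub, p.init, coeff_zero_C, sub_self, map_sum]
      symm
      refine Finset.sum_eq_zero fun m _ => ?_
      rw [coeff_zero_mul', hh, coeff_prim_zero, zero_mul]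
    · rw [map_sub, dt_C, sub_zero, p.hom, map_sum]
      refine Finset.sum_congr rfl fun m _ => ?_
      rw [dt_mul, dt_C, mul_zero, add_zero, hh, dt_prim]
  choose η hη using fun i m => (Rst.prim k (p.rstΘ i m)).val (1 : k)
  refine ⟨h1, η, fun i => ?_, fun N G hG => ?_⟩
  · have h2 : Val I (1 : k) (p.H (X.x i) - C (X.x i)) (∑ m, η i m * X.D m f) := by
      rw [hhY]
      exact Val.sum _ fun m _ => (hη i m).mul (val_C _)
    exact ((p.fin _).sub (val_C _)).unique h2
  · have hval : ∀ l, Val I (1 : k) (prim k (∑ i, p.H (X.D i f) * dt (h i l))) (p.e l) := by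
      intro l
      have e1 : ∀ i, dt (h i l) = p.Θ i l := fun i => dt_prim k _
      simp only [e1]
      exact p.val l
    have h2 := potB X hG hJ hJI hch hhY (ψ0 := AlgHom.id k A) p.init p.fin hη hval
    have e2 : (fun l => (∑ i, evc ψ (G i) * η i l) -
        (∑ i, evc (AlgHom.id k A) (G i) * coeff 0 (h i l)) - p.e l) =
        (fun l => ∑ i, evc ψ (G i) * η i l) - p.e := by
      ext l
      rw [Pi.sub_apply]
      have e3 : ∑ i, evc (AlgHom.id k A) (G i) * coeff 0 (h i l) = 0 :=
        Finset.sum_eq_zero fun i _ => by rw [hh, coeff_prim_zero, mul_zero]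
      rw [e3, sub_zero]
    rw [e2] at h2
    have h3 := add_mem h2 (mem_Wn_of_Bd (I := I) (N := N) p.bd)
    rwa [sub_add_cancel] at h3

end Pot

end

end Pool.Agent.MFI.DC
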