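import Pool.Agent.MFI.DF2

/-!
# Isotopy invariance of matrix factorizations (MP_c8c50b_ag), helper42

Part DF3: frames. A family of automorphisms of `(A, f)` such that each member is the end of a path of
Koszul homotopies preserving the symplectic form has Koszul exact velocity.
-/

set_option autoImplicit false

open PowerSeries
open Finset.HasAntidiagonal (antidiagonal mem_antidiagonal)
open scoped TensorProduct

namespace Pool.Agent.MFI.DC

universe u

noncomputable section

variable {k A : Type u} [Field k] [CharZero k] [CommRing A] [Algebra k A] {I : Ideal A} {n : ℕ}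

lemma dt_eq_derivative {S : Type*} [CommRing S] (F : PowerSeries S) :
    dt F = PowerSeries.derivative S F := by
  ext m
  rw [coeff_dt, coeff_derivative, nsmul_eq_mul, mul_comm]
  push_cast
  ring

theorem fam_oneF [IsAdicComplete I A] (X : Frame k A I n) {f : A} (hg : ∀ i, X.D i f ∈ I)
    {N0 : ℕ} (hN0 : I ^ N0 ≤ Ideal.span (Set.range fun i => X.D i f)) {φ : A →ₐ[k] PowerSeries A}
    (hr : ∀ a, Rst I (φ a)) {ψ : k → A →ₐ[k] A} (hv : ∀ c a, Val I c (φ a) (ψ c a))
    (hp : ∀ c, Nonempty (PthF X f (ψ c))) (a : A) (m : ℕ) :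
    coeff m (φ a - C a) ∈ Ideal.span (Set.range fun i => X.D i f) := by
  refine coeff_mem_of_val (k := k) hN0 ((hr a).sub (rst_C a)) (fun c => ?_) m
  obtain ⟨p⟩ := hp c
  exact ⟨ψ c a - a, (p.spec X hg hN0).1 a, (hv c a).sub (val_C a)⟩

/-- **Main lemma of the `dCrit` part.** -/
theorem famF [IsNoetherianRing A] [IsAdicComplete I A] (X : Frame k A I n) {f : A}
    (hg : ∀ i, X.D i f ∈ I) {N0 : ℕ} (hN0 : I ^ N0 ≤ Ideal.span (Set.range fun i => X.D i f))
    (φ : A →ₐ[k] PowerSeries A) (hr : ∀ a, Rst I (φ a)) {ψ : k → A →ₐ[k] A}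
    (hv : ∀ c a, Val I c (φ a) (ψ c a)) (hψf : ∀ c, ψ c f = f)
    (hp : ∀ c, Nonempty (PthF X f (ψ c))) : ∃ Φ : FamilyF X f, Φ.φ = φ := by
  have hJI : Ideal.span (Set.range fun i => X.D i f) ≤ I := by
    rw [Ideal.span_le]
    rintro _ ⟨i, rfl⟩
    exact hg i
  have hinv : φ f = C f := fam_inv (φ := fun a => φ a) hr (ψ := fun c a => ψ c a) hv hψf
  have hone := fam_oneF X hg hN0 hr hv hp
  have hchain := chainF X (H := φ) fun a m => hJI (hone a m)
  -- the lift `Θ'` of the velocity
  have hw : ∀ i r, coeff r (dt (φ (X.x i))) ∈ Ideal.span (Set.range fun i => X.D i f) := by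
    intro i r
    have h1 := hone (X.x i) (r + 1)
    rw [map_sub, coeff_C, if_neg (Nat.succ_ne_zero r), sub_zero] at h1
    rw [coeff_dt, nsmul_eq_mul]
    exact Ideal.mul_mem_left _ _ h1
  have hΘ : ∀ i, ∃ T : Fin n → PowerSeries A, (∀ j, Rst I (T j)) ∧
      dt (φ (X.x i)) = ∑ j, T j * C (X.D j f) := by
    intro i
    obtain ⟨b, hb, hb'⟩ := choose_rst (T := Fin n → A)
      (fun r c => coeff r (dt (φ (X.x i))) = ∑ j, c j * X.D j f) (fun e c => ∀ j, c j ∈ I ^ e)
      (fun e e' b h hb j => Ideal.pow_le_pow_right h (hb j))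
      (fun r => by
        obtain ⟨c, hc⟩ := (Ideal.mem_span_range_iff_exists_fun).1 (hw i r)
        exact ⟨c, hc.symm, fun j => by simp⟩)
      (fun N => by
        obtain ⟨M, hM⟩ := (hr (X.x i)).dt (N + N0)
        refine ⟨M, fun r hr' => ?_⟩
        obtain ⟨c, hc, hc'⟩ := small_ideal hN0 N (hM r hr')
        exact ⟨c, hc', hc⟩)
    refine ⟨fun j => PowerSeries.mk fun r => b r j, fun j N => ?_, ?_⟩
    · obtain ⟨M, hM⟩ := hb' N
      exact ⟨M, fun m hm => by rw [coeff_mk]; exact hM m hm j⟩
    · ext r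
      rw [hb r, map_sum]
      exact Finset.sum_congr rfl fun j _ => by rw [coeff_mul_C, coeff_mk]
  choose Θ hΘr hΘ using hΘ
  -- the vector `R`
  set R : Fin n → PowerSeries A := fun l => ∑ i, φ (X.D i f) * Θ i l with hR
  have hRr : ∀ l, Rst I (R l) := fun l => Rst.sum _ fun i _ => (hr _).mul (hΘr i l)
  have hRc : ∀ r, (fun l => coeff r (R l)) ∈ Zc (fun i => X.D i f) := by
    intro r
    rw [mem_Zc]
    have h1 : ∑ l, R l * C (X.D l f) = 0 := by
      have h2 := hchain f
      rw [hinv, dt_C] at h2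
      rw [h2, hR]
      simp only [Finset.sum_mul]
      rw [Finset.sum_comm]
      refine Finset.sum_congr rfl fun i _ => ?_
      rw [hΘ i, Finset.mul_sum]
      exact Finset.sum_congr rfl fun l _ => by ring
    have h2 := congrArg (coeff r) h1
    rw [map_sum, map_zero] at h2
    rw [← h2]
    exact Finset.sum_congr rfl fun l _ => by rw [coeff_mul_C]
  -- the primitive of `R` has values in the boundaries
  have hφ0 : ∀ a, coeff 0 (φ a) = ψ 0 a := fun a => ((hr a).val_zero k).unique (hv 0 a)
  obtain ⟨p0⟩ := hp 0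
  obtain ⟨-, η0, hη0, hW0⟩ := p0.spec X hg hN0
  set h : Fin n → Fin n → PowerSeries A := fun i m => C (η0 i m) + prim k (Θ i m) with hh
  have hhr : ∀ i m, Rst I (h i m) := fun i m => (rst_C _).add (Rst.prim k (hΘr i m))
  have hhd : ∀ i m, dt (h i m) = Θ i m := fun i m => by
    rw [hh, map_add, dt_C, zero_add, dt_prim]
  have hh0 : ∀ i m, coeff 0 (h i m) = η0 i m := fun i m => by
    rw [hh, map_add, coeff_prim_zero]
    simp
  have hhY : ∀ i, φ (X.x i) - C (X.x i) = ∑ m, h i m * C (X.D m f) := by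
    intro i
    apply series_eq k
    · have h1 : coeff 0 (φ (X.x i) - C (X.x i)) = ψ 0 (X.x i) - X.x i := by
        rw [map_sub, hφ0]
        simp
      rw [h1, hη0 i, map_sum]
      exact Finset.sum_congr rfl fun m _ => by rw [coeff_mul_C, hh0]
    · rw [map_sub, dt_C, sub_zero, hΘ i, map_sum]
      refine Finset.sum_congr rfl fun m _ => ?_
      rw [dt_mul, dt_C, mul_zero, add_zero, hhd]
  have hE : ∀ c : k, ∀ e : Fin n → A, (∀ l, Val I c (prim k (R l)) (e l)) →
      e ∈ Bd (fun i => X.D i f) := by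
    intro c e he
    refine mem_Bd_of_Wn (I := I) fun N => ?_
    obtain ⟨G, hG1, hG2⟩ := taylorE X (N + 1) f
    have hG : Adm X f (N + 1) G := ⟨hG1, hG2⟩
    obtain ⟨pc⟩ := hp c
    obtain ⟨hJc, ηc, hηc, hWc⟩ := pc.spec X hg hN0
    choose η hη using fun i m => (hhr i m).val c
    have h1 := potB X hG hone hJI hchain hhY hφ0 (hv c) hη (e := e) (fun l => by
      simp only [hhd]
      exact he l)
    have hηg : ∀ i, ψ c (X.x i) - X.x i = ∑ m, η i m * X.D m f := by
      intro i
      have h2 : Val I c (φ (X.x i) - C (X.x i)) (∑ m, η i m * X.D m f) := by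
        rw [hhY]
        exact Val.sum _ fun m _ => (hη i m).mul (val_C _)
      exact ((hv c _).sub (val_C _)).unique h2
    have h2 := mem_Wn_of_Bd (I := I) (N := N) (indepF X hG hJc hηg hηc)
    have e1 : e = ((fun l => (∑ i, evc (ψ c) (G i) * η i l) -
          ∑ i, evc (ψ c) (G i) * ηc i l) +
        (fun l => ∑ i, evc (ψ c) (G i) * ηc i l)) -
        (fun l => ∑ i, evc (ψ 0) (G i) * η0 i l) -
        (fun l => (∑ i, evc (ψ c) (G i) * η i l) -
      (∑ i, evc (ψ 0) (G i) * coeff 0 (h i l)) - e l) := by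
      ext l
      simp only [Pi.sub_apply, Pi.add_apply, hh0]
      ring
    rw [e1]
    exact sub_mem (sub_mem (add_mem h2 (hWc N G hG)) (hW0 N G hG)) h1
  -- the coefficients of `R` are boundaries
  obtain ⟨K, hK⟩ := small_cycle (I := I) (g := fun i => X.D i f) hN0
  have hsm : ∀ N, ∃ M, ∀ r ≥ M, (fun l => coeff r (R l)) ∈ I ^ N • Bd (fun i => X.D i f) := by
    intro N
    choose M hM using fun l => hRr l (N + K)
    refine ⟨∑ l, M l, fun r hr' => hK N _ (hRc r) fun l => hM l r (le_trans ?_ hr')⟩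
    exact Finset.single_le_sum (f := M) (fun _ _ => Nat.zero_le _) (Finset.mem_univ l)
  obtain ⟨M0, hM0⟩ := hsm 0
  have hM0' : ∀ r ≥ M0, (fun l => coeff r (R l)) ∈ Bd (fun i => X.D i f) := fun r hr' =>
    Submodule.smul_le_right (hM0 r hr')
  have hprim : ∀ r, (fun l => coeff (r + 1) (prim k (R l))) =
      ((r + 1 : k)⁻¹) • fun l => coeff r (R l) := by
    intro r
    ext l
    rw [Pi.smul_apply, coeff_prim_succ]
  have hall : ∀ r, (fun l => coeff r (R l)) ∈ Bd (fun i => X.D i f) := by
    intro r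
    rcases Nat.lt_or_ge r M0 with hlt | hge
    · have h1 := vand ((Bd (fun i => X.D i f)).restrictScalars k)
        (fun j => fun l => coeff j (prim k (R l))) (M0 + 1) (fun c => ?_) (r + 1) (by omega)
      · have h2 : (fun l => coeff (r + 1) (prim k (R l))) ∈ Bd (fun i => X.D i f) := h1
        rw [hprim] at h2
        have h3 := smul_mem_sub (r + 1 : k) h2
        rwa [smul_smul, mul_inv_cancel₀ (by exact_mod_cast Nat.succ_ne_zero r), one_smul] at h3
      · choose e he using fun l => (Rst.prim k (hRr l)).val c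
        have hb := hE c e he
        change (∑ i ∈ Finset.range (M0 + 1), c ^ i • fun l => coeff i (prim k (R l))) ∈
          Bd (fun i => X.D i f)
        refine mem_Bd_of_Wn (I := I) fun N => ?_
        choose M hM using fun l => (he l).lim N
        set m := max (M0 + 1) (∑ l, M l) with hm
        have hm1 : M0 + 1 ≤ m := le_max_left _ _
        have h4 : (fun l => (∑ i ∈ Finset.range m, c ^ i • coeff i (prim k (R l))) - e l) ∈
            Wn (fun i => X.D i f) I N := mem_Wn_of_pow fun l => hM l m (le_trans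
              (Finset.single_le_sum (f := M) (fun _ _ => Nat.zero_le _) (Finset.mem_univ l))
              (le_max_right _ _))
        have h5 : (∑ i ∈ Finset.Ico (M0 + 1) m, c ^ i • fun l => coeff i (prim k (R l))) ∈
            Bd (fun i => X.D i f) := by
          refine sum_mem fun i hi => smul_mem_sub _ ?_
          obtain ⟨j, rfl⟩ : ∃ j, i = j + 1 := ⟨i - 1, by have := (Finset.mem_Ico.1 hi).1; omega⟩
          rw [hprim]
          exact smul_mem_sub _ (hM0' j (by have := (Finset.mem_Ico.1 hi).1; omega))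
        have h6 : (∑ i ∈ Finset.range (M0 + 1), c ^ i • fun l => coeff i (prim k (R l))) =
            (fun l => (∑ i ∈ Finset.range m, c ^ i • coeff i (prim k (R l))) - e l) + e -
              ∑ i ∈ Finset.Ico (M0 + 1) m, c ^ i • fun l => coeff i (prim k (R l)) := by
          rw [eq_sub_iff_add_eq, Finset.sum_range_add_sum_Ico _ hm1]
          ext l
          rw [Finset.sum_apply, Pi.add_apply]
          simp only [Pi.smul_apply, sub_add_cancel]
        rw [h6]
        exact sub_mem (add_mem h4 (mem_Wn_of_Bd hb)) (mem_Wn_of_Bd h5)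
    · exact hM0' r hge
  obtain ⟨β, hβ, hβ'⟩ := choose_rst (T := Fin n → Fin n → A)
    (fun r β => (∀ i j, β i j = - β j i) ∧ ∀ l, coeff r (R l) = ∑ j, β l j * X.D j f)
    (fun e β => ∀ i j, β i j ∈ I ^ e)
    (fun e e' b h hb i j => Ideal.pow_le_pow_right h (hb i j))
    (fun r => by
      obtain ⟨β, h1, h2⟩ := mem_Bd.1 (hall r)
      exact ⟨β, ⟨h1, h2⟩, fun i j => by simp⟩)
    (fun N => by
      obtain ⟨M, hM⟩ := hsm N
      refine ⟨M, fun r hr' => ?_⟩
      obtain ⟨β, h0, h1, h2⟩ := lift_of_mem (hM r hr')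
      exact ⟨β, ⟨h1, h2⟩, h0⟩)
  set B : Fin n → Fin n → PowerSeries A := fun i j => PowerSeries.mk fun r => β r i j with hB
  have hBr : ∀ i j, Rst I (B i j) := fun i j N => by
    obtain ⟨M, hM⟩ := hβ' N
    exact ⟨M, fun m hm => by rw [hB, coeff_mk]; exact hM m hm i j⟩
  have hBa : ∀ i j, B i j = - B j i := fun i j => by
    ext r
    rw [map_neg, hB, coeff_mk, coeff_mk, (hβ r).1 i j]
  have hRB : ∀ l, R l = ∑ j, B l j * C (X.D j f) := fun l => by
    ext r
    rw [(hβ r).2 l, map_sum]
    exact Finset.sum_congr rfl fun j _ => by rw [coeff_mul_C, hB, coeff_mk]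
  -- the Jacobian matrix
  set M : Fin n → Fin n → PowerSeries A := fun j l => dcs (X.D j) (φ (X.x l)) with hM
  have hMr : ∀ j l, Rst I (M j l) := fun j l N => by
    obtain ⟨K, hK⟩ := hr (X.x l) (N + 1)
    refine ⟨K, fun m hm => ?_⟩
    rw [hM, coeff_dcs]
    exact D_pow (X.D j) N _ (hK m hm)
  have hgM : ∀ j, C (X.D j f) = ∑ l, M j l * φ (X.D l f) := by
    intro j
    rw [← dcs_C, ← hinv, jacF X (H := φ) (fun a m => hJI (hone a m)) j f]
    exact Finset.sum_congr rfl fun l _ => by rw [hM, mul_comm]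
  set Cm : Fin n → Fin n → PowerSeries A := fun i l => ∑ j, Θ i j * M j l with hCm
  set B' : Fin n → Fin n → PowerSeries A := fun i l => ∑ j, ∑ m, M j i * B j m * M m l with hB'
  have hfin : ∀ i, dt (φ (X.x i)) = ∑ l, (Cm i l - Cm l i + B' i l) * φ (X.D l f) := by
    intro i
    have e1 : ∑ l, Cm i l * φ (X.D l f) = dt (φ (X.x i)) := by
      rw [hΘ i, hCm]
      simp only [Finset.sum_mul]
      rw [Finset.sum_comm]
      refine Finset.sum_congr rfl fun j _ => ?_
      rw [hgM j, Finset.mul_sum]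
      exact Finset.sum_congr rfl fun l _ => by ring
    have e2 : ∑ l, Cm l i * φ (X.D l f) = ∑ l, B' i l * φ (X.D l f) := by
      have e3 : ∑ l, Cm l i * φ (X.D l f) = ∑ j, M j i * R j := by
        rw [hCm, hR]
        simp only [Finset.sum_mul, Finset.mul_sum]
        rw [Finset.sum_comm]
        refine Finset.sum_congr rfl fun j _ => Finset.sum_congr rfl fun l _ => by ring
      rw [e3, hB']
      simp only [Finset.sum_mul]
      rw [Finset.sum_comm]
      refine Finset.sum_congr rfl fun j _ => ?_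
      rw [hRB j, Finset.mul_sum, Finset.sum_comm]
      refine Finset.sum_congr rfl fun m _ => ?_
      rw [hgM m, Finset.mul_sum, Finset.mul_sum]
      exact Finset.sum_congr rfl fun l _ => by ring
    simp only [add_mul, sub_mul]
    rw [Finset.sum_add_distrib, Finset.sum_sub_distrib, e1, e2, sub_add_cancel]
  refine ⟨{
    φ := φ
    rst := hr
    cont := fun a ha m => ?_
    inv := hinv
    b := fun i l => Cm i l - Cm l i + B' i l
    brst := fun i l => ?_
    anti := fun i l => ?_
    vel := fun i => ?_ }, rfl⟩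
  · have h1 := hom_InP (H := φ.toRingHom) (fun a m => hJI (hone a m)) 1 a
      (by rwa [pow_one]) m
    rwa [pow_one] at h1
  · exact ((Rst.sum _ fun j _ => (hΘr i j).mul (hMr j l)).sub
      (Rst.sum _ fun j _ => (hΘr l j).mul (hMr j i))).add
      (Rst.sum _ fun j _ => Rst.sum _ fun m _ => ((hMr j i).mul (hBr j m)).mul (hMr m l))
  · have h1 : B' i l = - B' l i := by
      rw [hB']
      simp only
      rw [Finset.sum_comm, ← Finset.sum_neg_distrib]
      refine Finset.sum_congr rfl fun j _ => ?_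
      rw [← Finset.sum_neg_distrib]
      refine Finset.sum_congr rfl fun m _ => ?_
      rw [hBa m j]
      ring
    change Cm i l - Cm l i + B' i l = -(Cm l i - Cm i l + B' l i)
    rw [h1]
    ring
  · rw [← dt_eq_derivative, hfin]

end

end Pool.Agent.MFI.DC
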