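import Pool.Agent.MFI.DFb

/-!
# Isotopy invariance of matrix factorizations (MP_c8c50b_ag), helper42

Definitions for the derived critical locus. `𝒰 = Spf A` is an affine smooth formal scheme over `k`
with a frame: functions `x_1, …, x_n` and derivations `D_1, …, D_n` with `da = Σ_j D_j(a) dx_j`, and
`f ∈ A`.

* `dCrit(f)` is the spectrum of the Koszul cdga `K`: the cdga over `A` generated by
  `θ_1, …, θ_n` of cohomological degree `-1` with the relations `θ_i = Σ_j D_i(x_j) θ_j` (so that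
  `K = Sym_A(T[1])` for the module `T` of vector fields, and `θ_i = D_i`) and with `d θ_i = D_i f`.
* `DR X` is the graded mixed cdga `DR(K)` of differential forms on `K`: the quotient of the free
  graded commutative `A`-algebra on `θ_i`, `ξ_i = δ x_i`, `y_i = δ θ_i` by the relations
  `θ_i = Σ_j D_i(x_j) θ_j`, `ξ_j = Σ_i D_i(x_j) ξ_i` and
  `y_i = Σ_j (D_i(x_j) y_j + δ(D_i(x_j)) θ_j)`,
  with the differential `d` of `K` (`DR.d`) and the de Rham differential `δ` (`DR.δ`). The total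
  degree (cohomological degree plus weight) of `θ_i, ξ_i, y_i` is `-1, 1, 0`, and `d`, `δ` are
  anticommuting derivations of total degree `1`. `K` is the part of weight `0`.
* The canonical `(-1)`-shifted symplectic form is the closed two-form `ω = Σ_i y_i ξ_i`
  (weight `2`, cohomological degree `-1`, `d ω = 0`, `δ ω = 0`).
* A path in the space of automorphisms of `dCrit(f)` is a homotopy of cdgas
  `H + ds Θ : K → K⟨s⟩[ds]` (`⟨s⟩`: restricted power series), and it extends to a map of graded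
  mixed cdgas `H + ds Θ : DR(K) → DR(K)⟨s⟩[ds]`.
* The path preserves the symplectic structure if the loop of closed two-forms of degree `-1` given
  by `(H + ds Θ)(ω)` is trivial: `∫_0^1 Θ(ω) ds` is the total boundary `(d + δ)(η_2 + η_3 + …)` of
  an element of `F² DR(K)`.
-/

set_option autoImplicit false

open scoped TensorProduct

namespace Pool.Agent.MFI

universe u

noncomputable section

section Rel

variable {k : Type u} [Field k] {A : Type u} [CommRing A] [Algebra k A] {I : Ideal A} {n : ℕ}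

/-- `θ_i - Σ_j D_i(x_j) θ_j` -/
def rel1 (X : Frame k A I n) (i : Fin n) : DRa k A n :=
  drθ k A i - ∑ j, dra k n (X.D i (X.x j)) * drθ k A j

/-- `ξ_j - Σ_i D_i(x_j) ξ_i` -/
def rel2 (X : Frame k A I n) (j : Fin n) : DRa k A n :=
  drξ k A j - ∑ i, dra k n (X.D i (X.x j)) * drξ k A i

/-- `y_i - Σ_j (D_i(x_j) y_j + δ(D_i(x_j)) θ_j)` -/
def rel3 (X : Frame k A I n) (i : Fin n) : DRa k A n :=
  dry k A i - ∑ j, (dra k n (X.D i (X.x j)) * dry k A j +
    drδ X (dra k n (X.D i (X.x j))) * drθ k A j)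

/-- The two-sided ideal of the relations of `DR(K)`. -/
def DRrel (X : Frame k A I n) : Ideal (DRa k A n) :=
  Ideal.span {w | ∃ r v, (∃ i, r = rel1 X i ∨ r = rel2 X i ∨ r = rel3 X i) ∧ w = r * v}

lemma mul_mem_DRrel (X : Frame k A I n) {w : DRa k A n} (h : w ∈ DRrel X) (v : DRa k A n) :
    w * v ∈ DRrel X := by
  refine Submodule.span_induction (p := fun w _ => w * v ∈ DRrel X) ?_ ?_ ?_ ?_ h
  · rintro _ ⟨r, u, hr, rfl⟩
    exact Ideal.subset_span ⟨r, u * v, hr, by rw [mul_assoc]⟩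
  · rw [zero_mul]
    exact zero_mem _
  · intro x y _ _ hx hy
    rw [add_mul]
    exact add_mem hx hy
  · intro c x _ hx
    rw [smul_eq_mul, mul_assoc]
    exact Ideal.mul_mem_left _ _ hx

instance (X : Frame k A I n) : (DRrel X).IsTwoSided := ⟨fun v h => mul_mem_DRrel X h v⟩

lemma rel_mem (X : Frame k A I n) {r : DRa k A n}
    (h : ∃ i, r = rel1 X i ∨ r = rel2 X i ∨ r = rel3 X i) : r ∈ DRrel X :=
  Ideal.subset_span ⟨r, 1, h, by rw [mul_one]⟩

lemma rel1_mem (X : Frame k A I n) (i : Fin n) : rel1 X i ∈ DRrel X :=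
  rel_mem X ⟨i, Or.inl rfl⟩

lemma rel2_mem (X : Frame k A I n) (i : Fin n) : rel2 X i ∈ DRrel X :=
  rel_mem X ⟨i, Or.inr (Or.inl rfl)⟩

lemma rel3_mem (X : Frame k A I n) (i : Fin n) : rel3 X i ∈ DRrel X :=
  rel_mem X ⟨i, Or.inr (Or.inr rfl)⟩

lemma drs_drδ_dra (X : Frame k A I n) (a : A) :
    drs k A n (drδ X (dra k n a)) = - drδ X (dra k n a) := by
  rw [drδ_dra, map_sum, ← Finset.sum_neg_distrib]
  refine Finset.sum_congr rfl fun j _ => ?_
  rw [map_mul, drs_dra, drs_ξ, dmul_neg]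

lemma drs_rel (X : Frame k A I n) {r : DRa k A n}
    (h : ∃ i, r = rel1 X i ∨ r = rel2 X i ∨ r = rel3 X i) : drs k A n r ∈ DRrel X := by
  obtain ⟨i, rfl | rfl | rfl⟩ := h
  · have e : drs k A n (rel1 X i) = - rel1 X i := by
      rw [rel1, map_sub, map_sum, drs_θ, neg_sub, sub_eq_add_neg, ← Finset.sum_neg_distrib,
        add_comm, ← sub_eq_add_neg]
      congr 1
      refine Finset.sum_congr rfl fun j _ => ?_
      rw [map_mul, drs_dra, drs_θ, dmul_neg, neg_neg]
    rw [e]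
    exact neg_mem (rel1_mem X i)
  · have e : drs k A n (rel2 X i) = - rel2 X i := by
      rw [rel2, map_sub, map_sum, drs_ξ, neg_sub, sub_eq_add_neg, ← Finset.sum_neg_distrib,
        add_comm, ← sub_eq_add_neg]
      congr 1
      refine Finset.sum_congr rfl fun j _ => ?_
      rw [map_mul, drs_dra, drs_ξ, dmul_neg, neg_neg]
    rw [e]
    exact neg_mem (rel2_mem X i)
  · have e : drs k A n (rel3 X i) = rel3 X i := by
      rw [rel3, map_sub, map_sum, drs_y]
      congr 1
      refine Finset.sum_congr rfl fun j _ => ?_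
      rw [map_add, map_mul, map_mul, drs_dra, drs_y, drs_drδ_dra, drs_θ, dneg_mul, dmul_neg, neg_neg]
    rw [e]
    exact rel3_mem X i

/-- `δ δ a = 0` modulo the relations -/
lemma drδδ_mem [CharZero k] [IsHausdorff I A] (X : Frame k A I n) (a : A) :
    drδ X (drδ X (dra k n a)) ∈ DRrel X := by
  set S : Fin n → Fin n → A := fun p q => ∑ l, X.D q (X.x l) * X.D p (X.D l a) with hS
  have hS1 : ∀ p q, S p q = X.D p (X.D q a) - ∑ l, X.D l a * X.D p (X.D q (X.x l)) := by
    intro p q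
    have h1 := congrArg (X.D p) (X.rel q a)
    rw [map_sum] at h1
    rw [h1, ← Finset.sum_sub_distrib, hS]
    refine Finset.sum_congr rfl fun l _ => ?_
    rw [Derivation.leibniz, smul_eq_mul, smul_eq_mul]
    ring
  have hSs : ∀ p q, S p q = S q p := by
    intro p q
    have h1 := X.gen A ⁅X.D p, X.D q⁆ a
    simp only [Derivation.commutator_apply, smul_eq_mul, mul_sub] at h1
    rw [Finset.sum_sub_distrib] at h1
    rw [hS1, hS1]
    linear_combination h1
  have h0 : ∑ p, ∑ q, dra k n (S p q) * (drξ k A p * drξ k A q) = 0 := by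
    have h1 : ∑ p, ∑ q, dra k n (S p q) * (drξ k A p * drξ k A q) =
        - ∑ p, ∑ q, dra k n (S p q) * (drξ k A p * drξ k A q) := by
      nth_rewrite 1 [Finset.sum_comm]
      rw [← Finset.sum_neg_distrib]
      refine Finset.sum_congr rfl fun q _ => ?_
      rw [← Finset.sum_neg_distrib]
      refine Finset.sum_congr rfl fun p _ => ?_
      rw [hSs, drξ_swap, dmul_neg]
    have h2 : (2 : k) • ∑ p, ∑ q, dra k n (S p q) * (drξ k A p * drξ k A q) = 0 := by
      rw [two_smul]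
      nth_rewrite 1 [h1]
      exact neg_add_cancel _
    exact (smul_eq_zero.1 h2).resolve_left two_ne_zero
  have h2 : drδ X (drδ X (dra k n a)) =
      ∑ l, ∑ p, dra k n (X.D p (X.D l a)) * drξ k A p * rel2 X l := by
    have h3 : drδ X (drδ X (dra k n a)) =
        ∑ l, ∑ p, dra k n (X.D p (X.D l a)) * drξ k A p * drξ k A l := by
      rw [drδ_dra, map_sum]
      refine Finset.sum_congr rfl fun l _ => ?_
      rw [drδ_mul, drδ_ξ, mul_zero, add_zero, drδ_dra, Finset.sum_mul]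
    have h4 : ∑ l, ∑ p, dra k n (X.D p (X.D l a)) * drξ k A p *
        (∑ i, dra k n (X.D i (X.x l)) * drξ k A i) =
        ∑ p, ∑ q, dra k n (S p q) * (drξ k A p * drξ k A q) := by
      rw [Finset.sum_comm]
      refine Finset.sum_congr rfl fun p _ => ?_
      simp only [Finset.mul_sum]
      rw [Finset.sum_comm]
      refine Finset.sum_congr rfl fun q _ => ?_
      rw [hS]
      simp only
      rw [dra_sum, Finset.sum_mul]
      refine Finset.sum_congr rfl fun l _ => ?_
      rw [dra_mul, mul_assoc, ← mul_assoc (drξ k A p), ← dra_comm, mul_assoc (dra k n _),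
        ← mul_assoc, ← dra_mul, ← dra_mul, mul_comm]
    rw [h3]
    simp only [rel2, dmul_sub]
    simp only [Finset.sum_sub_distrib]
    rw [h4, h0, sub_zero]
  rw [h2]
  exact sum_mem fun l _ => sum_mem fun p _ => Ideal.mul_mem_left _ _ (rel2_mem X l)

lemma drδ_rel [CharZero k] [IsHausdorff I A] (X : Frame k A I n) {r : DRa k A n}
    (h : ∃ i, r = rel1 X i ∨ r = rel2 X i ∨ r = rel3 X i) : drδ X r ∈ DRrel X := by
  obtain ⟨i, rfl | rfl | rfl⟩ := h
  · have e : drδ X (rel1 X i) = rel3 X i := by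
      rw [rel1, map_sub, map_sum, drδ_θ, rel3]
      congr 1
      refine Finset.sum_congr rfl fun j _ => ?_
      rw [drδ_mul, drs_dra, drδ_θ, add_comm]
    rw [e]
    exact rel3_mem X i
  · have e : drδ X (rel2 X i) = - drδ X (drδ X (dra k n (X.x i))) := by
      rw [rel2, map_sub, drδ_ξ, zero_sub, drδ_dra]
    rw [e]
    exact neg_mem (drδδ_mem X _)
  · have e : drδ X (rel3 X i) =
        - ∑ j, drδ X (drδ X (dra k n (X.D i (X.x j)))) * drθ k A j := by
      rw [rel3, map_sub, drδ_y, zero_sub, map_sum]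
      congr 1
      refine Finset.sum_congr rfl fun j _ => ?_
      rw [map_add, drδ_mul, drδ_mul, drs_dra, drδ_y, mul_zero, add_zero, drδ_θ, drs_drδ_dra,
        dneg_mul]
      abel
    rw [e]
    exact neg_mem (sum_mem fun j _ => mul_mem_DRrel X (drδδ_mem X _) _)

lemma drd_drδ_dra (X : Frame k A I n) (f a : A) : drd X f (drδ X (dra k n a)) = 0 := by
  rw [drδ_dra, map_sum]
  refine Finset.sum_eq_zero fun j _ => ?_
  rw [drd_mul, drd_dra, drd_ξ, zero_mul, mul_zero, add_zero]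

lemma drd_rel [IsHausdorff I A] (X : Frame k A I n) (f : A) {r : DRa k A n}
    (h : ∃ i, r = rel1 X i ∨ r = rel2 X i ∨ r = rel3 X i) : drd X f r ∈ DRrel X := by
  have hg : ∀ i, dra k n (X.D i f) = ∑ j, dra k n (X.D i (X.x j)) * dra k n (X.D j f) := by
    intro i
    nth_rewrite 1 [X.rel i f]
    rw [dra_sum]
    exact Finset.sum_congr rfl fun j _ => dra_mul _ _
  obtain ⟨i, rfl | rfl | rfl⟩ := h
  · have e : drd X f (rel1 X i) = 0 := by
      rw [rel1, map_sub, map_sum, drd_θ, hg, sub_eq_zero]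
      refine Finset.sum_congr rfl fun j _ => ?_
      rw [drd_mul, drd_dra, zero_mul, zero_add, drs_dra, drd_θ]
    rw [e]
    exact zero_mem _
  · have e : drd X f (rel2 X i) = 0 := by
      rw [rel2, map_sub, drd_ξ, zero_sub, ← drδ_dra, drd_drδ_dra, neg_zero]
    rw [e]
    exact zero_mem _
  · have e : drd X f (rel3 X i) = 0 := by
      rw [rel3, map_sub, map_sum, drd_y, hg, map_sum, ← Finset.sum_neg_distrib, sub_eq_zero]
      refine Finset.sum_congr rfl fun j _ => ?_
      rw [map_add, drd_mul, drd_mul, drd_dra, drs_dra, drd_y, drd_drδ_dra, drd_θ, drs_drδ_dra,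
        drδ_mul, drs_dra, zero_mul, zero_mul, zero_add, zero_add, dmul_neg, dneg_mul]
      abel
    rw [e]
    exact zero_mem _

lemma op_mem (X : Frame k A I n) {T : DRa k A n →ₗ[k] DRa k A n}
    (hT : ∀ u v, T (u * v) = T u * v + drs k A n u * T v)
    (h : ∀ r, (∃ i, r = rel1 X i ∨ r = rel2 X i ∨ r = rel3 X i) → T r ∈ DRrel X)
    {w : DRa k A n} (hw : w ∈ DRrel X) : T w ∈ DRrel X := by
  refine Submodule.span_induction (p := fun w _ => T w ∈ DRrel X) ?_ ?_ ?_ ?_ hw
  · rintro _ ⟨r, v, hr, rfl⟩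
    rw [hT]
    exact add_mem (mul_mem_DRrel X (h r hr) v) (mul_mem_DRrel X (drs_rel X hr) _)
  · rw [map_zero]
    exact zero_mem _
  · intro x y _ _ hx hy
    rw [map_add]
    exact add_mem hx hy
  · intro c x hx hx'
    rw [smul_eq_mul, hT]
    exact add_mem (Ideal.mul_mem_left _ _ hx) (Ideal.mul_mem_left _ _ hx')

end Rel

section DR

variable {k : Type u} [Field k] {A : Type u} [CommRing A] [Algebra k A] {I : Ideal A} {n : ℕ}

/-- The algebra `DR(K)` of differential forms on the Koszul algebra `K`. -/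
def DR (X : Frame k A I n) : Type u := DRa k A n ⧸ DRrel X

instance (X : Frame k A I n) : Ring (DR X) := inferInstanceAs (Ring (DRa k A n ⧸ DRrel X))

instance (X : Frame k A I n) : Algebra k (DR X) :=
  inferInstanceAs (Algebra k (DRa k A n ⧸ DRrel X))

/-- The projection of the free algebra onto `DR(K)`. -/
def DR.mk (X : Frame k A I n) : DRa k A n →ₐ[k] DR X := Ideal.Quotient.mkₐ k (DRrel X)

lemma DR.mk_surj (X : Frame k A I n) : Function.Surjective (DR.mk X) :=
  Ideal.Quotient.mkₐ_surjective k (DRrel X)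

lemma DR.mk_eq_zero (X : Frame k A I n) {w : DRa k A n} : DR.mk X w = 0 ↔ w ∈ DRrel X :=
  Ideal.Quotient.eq_zero_iff_mem

/-- Linear maps out of `DR(K)`. -/
def DR.lift (X : Frame k A I n) {M : Type u} [AddCommGroup M] [Module k M]
    (φ : DRa k A n →ₗ[k] M) (h : ∀ w ∈ DRrel X, φ w = 0) : DR X →ₗ[k] M where
  toFun := QuotientAddGroup.lift (DRrel X).toAddSubgroup φ.toAddMonoidHom h
  map_add' := map_add _
  map_smul' c z := by
    obtain ⟨w, rfl⟩ := DR.mk_surj X z
    rw [← map_smul]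
    exact map_smul φ c w

lemma DR.lift_mk (X : Frame k A I n) {M : Type u} [AddCommGroup M] [Module k M]
    (φ : DRa k A n →ₗ[k] M) (h : ∀ w ∈ DRrel X, φ w = 0) (w : DRa k A n) :
    DR.lift X φ h (DR.mk X w) = φ w := rfl

/-- The differential of `DR(K)`: `d a = 0`, `d θ_i = D_i f`, `d ξ_i = 0`, `d y_i = - δ(D_i f)`. -/
def DR.d [IsHausdorff I A] (X : Frame k A I n) (f : A) : DR X →ₗ[k] DR X :=
  DR.lift X ((DR.mk X).toLinearMap ∘ₗ drd X f) fun _ hw =>
    (DR.mk_eq_zero X).2 (op_mem X (drd_mul X f) (fun _ h => drd_rel X f h) hw)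

/-- The de Rham differential: `δ a = Σ_j D_j a ξ_j`, `δ θ_i = y_i`, `δ ξ_i = 0`, `δ y_i = 0`. -/
def DR.δ [CharZero k] [IsHausdorff I A] (X : Frame k A I n) : DR X →ₗ[k] DR X :=
  DR.lift X ((DR.mk X).toLinearMap ∘ₗ drδ X) fun _ hw =>
    (DR.mk_eq_zero X).2 (op_mem X (drδ_mul X) (fun _ h => drδ_rel X h) hw)

/-- A function `a ∈ A` as an element of `DR(K)`. -/
def DR.a (X : Frame k A I n) (a : A) : DR X := DR.mk X (dra k n a)

/-- `θ_i` as an element of `DR(K)`. -/
def DR.θ (X : Frame k A I n) (i : Fin n) : DR X := DR.mk X (drθ k A i)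

/-- `ξ_i = δ x_i` as an element of `DR(K)`. -/
def DR.ξ (X : Frame k A I n) (i : Fin n) : DR X := DR.mk X (drξ k A i)

/-- `y_i = δ θ_i` as an element of `DR(K)`. -/
def DR.y (X : Frame k A I n) (i : Fin n) : DR X := DR.mk X (dry k A i)

/-- The `(-1)`-shifted symplectic form `ω = Σ_i δθ_i δx_i`. -/
def DR.ω (X : Frame k A I n) : DR X := ∑ i, DR.y X i * DR.ξ X i

/-- The part of `DR(K)` of weight `p` and cohomological degree `-q`: it is spanned by the products
`a θ_{i_1} ⋯ θ_{i_r} ξ_{j_1} ⋯ ξ_{j_s} y_{l_1} ⋯ y_{l_t}` with `t + s = p` and `t + r = q`. -/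
def DR.gr (X : Frame k A I n) (p q : ℕ) : Submodule k (DR X) :=
  Submodule.span k {w | ∃ (a : A) (l l' l'' : List (Fin n)),
    l''.length + l'.length = p ∧ l''.length + l.length = q ∧
    w = DR.a X a * (l.map (DR.θ X)).prod * (l'.map (DR.ξ X)).prod * (l''.map (DR.y X)).prod}

/-- The `I`-adic filtration of `DR(K)`. -/
def DR.fil (X : Frame k A I n) (N : ℕ) : Submodule k (DR X) :=
  Submodule.span k {w | ∃ a ∈ I ^ N, ∃ v, w = DR.a X a * v}

/-- `v` is the sum `Σ_j c_j w_j` in the `I`-adic topology. -/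
def DR.lim (X : Frame k A I n) (c : ℕ → k) (w : ℕ → DR X) (v : DR X) : Prop :=
  ∀ N, ∃ M, ∀ m ≥ M, v - ∑ j ∈ Finset.range m, c j • w j ∈ DR.fil X N

/-- **`ψ` induces the identity on `dCrit(f)`, together with its `(-1)`-shifted symplectic
structure.** A path from the identity to the automorphism induced by `ψ` in the space of symplectic
automorphisms of `dCrit(f)`: a homotopy `H + ds Θ : DR(K) → DR(K)⟨s⟩[ds]` of maps of graded
mixed cdgas, and a trivialization of the loop `(H + ds Θ)(ω)` of closed two-forms. The coefficients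
of `s^m` in `H(w)` and `Θ(w)` are `H m w` and `Θ m w`. -/
structure SympPath [CharZero k] [IsHausdorff I A] (X : Frame k A I n) (f : A) (ψ : A ≃ₐ[k] A) where
  /-- `H(w) = Σ_m s^m H_m(w)` -/
  H : ℕ → DR X →ₗ[k] DR X
  /-- `Θ(w) = Σ_m s^m Θ_m(w)` -/
  Θ : ℕ → DR X →ₗ[k] DR X
  -- the series are restricted
  Hrst : ∀ w N, ∃ M, ∀ m ≥ M, H m w ∈ DR.fil X N
  Θrst : ∀ w N, ∃ M, ∀ m ≥ M, Θ m w ∈ DR.fil X N
  -- `H + ds Θ` preserves weight and cohomological degree (`ds` has degree one)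
  Hgr : ∀ m p q, ∀ w ∈ DR.gr X p q, H m w ∈ DR.gr X p q
  Θgr : ∀ m p q, ∀ w ∈ DR.gr X p q, Θ m w ∈ DR.gr X p (q + 1)
  -- `H + ds Θ` is a homomorphism of graded algebras
  Hone : H 0 1 = 1 ∧ ∀ m, H (m + 1) 1 = 0
  Hmul : ∀ m v w, H m (v * w) = ∑ j ∈ Finset.range (m + 1), H j v * H (m - j) w
  Θmul : ∀ m p q, ∀ v ∈ DR.gr X p q, ∀ w, Θ m (v * w) =
    ∑ j ∈ Finset.range (m + 1), (Θ j v * H (m - j) w + (-1) ^ (p + q) * (H j v * Θ (m - j) w))
  -- it is compatible with the differentials `d + ds ∂_s` and `δ`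
  Hd : ∀ m w, H m (DR.d X f w) = DR.d X f (H m w)
  Θd : ∀ (m : ℕ) w, (m + 1 : k) • H (m + 1) w = DR.d X f (Θ m w) + Θ m (DR.d X f w)
  Hδ : ∀ m w, H m (DR.δ X w) = DR.δ X (H m w)
  Θδ : ∀ m w, Θ m (DR.δ X w) = - DR.δ X (Θ m w)
  -- the start is the identity
  start : ∀ w, H 0 w = w
  -- the end is the automorphism induced by `ψ`: `a ↦ ψ(a)`, `θ_i = D_i ↦ ψ ∘ D_i ∘ ψ⁻¹`
  stop : ∀ a, DR.lim X (fun _ => 1) (fun m => H m (DR.a X a)) (DR.a X (ψ a))
  stopθ : ∀ i, DR.lim X (fun _ => 1) (fun m => H m (DR.θ X i))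
    (∑ j, DR.a X (ψ (X.D i (ψ.symm (X.x j)))) * DR.θ X j)
  -- the loop of closed two-forms is trivial: `∫_0^1 Θ(ω) ds = (d + δ)(η_2 + η_3 + …)`
  η : ℕ → DR X
  ηgr : ∀ p ≥ 2, η p ∈ DR.gr X p (p + 1)
  loop : DR.lim X (fun m => (m + 1 : k)⁻¹) (fun m => Θ m (DR.ω X)) (DR.d X f (η 2))
  closed : ∀ p ≥ 2, DR.δ X (η p) + DR.d X f (η (p + 1)) = 0

end DR

end

end Pool.Agent.MFI
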