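import Pool.Agent.MFI.DC4
import Pool.Agent.MFI.DFDef

/-!
# Isotopy invariance of matrix factorizations (MP_c8c50b_ag), helper42

Part DF5: the functionals on `DR(K)`: forms modulo `θ, ξ`, coefficients of `θ_l` modulo `ξ`.
-/

set_option autoImplicit false

open scoped TensorProduct

namespace Pool.Agent.MFI

universe u

noncomputable section

variable {k : Type u} [Field k] {A : Type u} [CommRing A] [Algebra k A] {I : Ideal A} {n : ℕ}

variable (k n) in
/-- coefficient of `1` in the exterior algebra -/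
def e0 : Lam k n →ₐ[k] k :=
  (ExteriorAlgebra.algebraMapInv : ExteriorAlgebra k (Fin n ⊕ Fin n → k) →ₐ[k] k)

lemma e0_ι (v : Fin n ⊕ Fin n → k) : e0 k n (lι k v) = 0 := by
  have h : (ExteriorAlgebra.algebraMapInv : ExteriorAlgebra k (Fin n ⊕ Fin n → k) →ₐ[k] k)
    (ExteriorAlgebra.ι k v) = 0 := by
    rw [ExteriorAlgebra.algebraMapInv]
    simp
  exact h

lemma e0_sg (w : Lam k n) : e0 k n (lsg k n w) = e0 k n w := by
  refine Lam_ind (P := fun w => e0 k n (lsg k n w) = e0 k n w) ?_ ?_ ?_ w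
  · intro r
    rw [AlgHom.commutes]
  · intro x y hx hy
    rw [map_add, map_add, map_add, hx, hy]
  · intro v x _
    rw [map_mul, map_mul, map_mul, lsg_ι, map_neg, e0_ι, neg_zero, zero_mul, zero_mul]

/-- substitution of `e y` for `y` -/
def yev (X : Frame k A I n) : YPol k n →ₐ[k] MvPolynomial (Fin n) A :=
  (MvPolynomial.aeval (fun i => ∑ j, MvPolynomial.C (X.D i (X.x j)) * MvPolynomial.X j) :
    MvPolynomial (Fin n) k →ₐ[k] MvPolynomial (Fin n) A)

lemma yev_yX (X : Frame k A I n) (i : Fin n) : yev X (yX k i) =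
    ∑ j, MvPolynomial.C (X.D i (X.x j)) * MvPolynomial.X j :=
  MvPolynomial.aeval_X _ _

/-- forms modulo `θ, ξ` -/
def c0 (X : Frame k A I n) : DRa k A n →ₐ[k] MvPolynomial (Fin n) A :=
  Algebra.TensorProduct.productMap (IsScalarTower.toAlgHom k A (MvPolynomial (Fin n) A))
    (Algebra.TensorProduct.productMap (yev X)
      ((Algebra.ofId k (MvPolynomial (Fin n) A)).comp (e0 k n)))

lemma c0_tmul (X : Frame k A I n) (a : A) (p : YPol k n) (w : Lam k n) :
    c0 X (a ⊗ₜ (p ⊗ₜ w)) = MvPolynomial.C a * (yev X p * algebraMap k _ (e0 k n w)) := by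
  rw [c0, Algebra.TensorProduct.productMap_apply_tmul,
    Algebra.TensorProduct.productMap_apply_tmul]
  rfl

/-- the operator `∂/∂θ_m` -/
def pth (k : Type u) [Field k] (A : Type u) [CommRing A] [Algebra k A] {n : ℕ} (m : Fin n) :
    DRa k A n →ₗ[k] DRa k A n :=
  TensorProduct.map LinearMap.id (TensorProduct.map LinearMap.id (lctr k m))

lemma pth_tmul (m : Fin n) (a : A) (p : YPol k n) (w : Lam k n) :
    pth k A m (a ⊗ₜ (p ⊗ₜ w)) = a ⊗ₜ (p ⊗ₜ lctr k m w) := rfl

lemma pth_mul (m : Fin n) (u v : DRa k A n) :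
    pth k A m (u * v) = pth k A m u * v + drs k A n u * pth k A m v :=
  leib_one LinearMap.id LinearMap.id (lctr k m) (fun _ _ => rfl) (fun _ _ => rfl) (lctr_mul m) u v

lemma c0_drs (X : Frame k A I n) (u : DRa k A n) : c0 X (drs k A n u) = c0 X u := by
  refine ten_ind (p := fun u => c0 X (drs k A n u) = c0 X u) ?_ ?_ ?_ u
  · rw [map_zero]
  · intro x y hx hy
    rw [map_add, map_add, map_add, hx, hy]
  · intro a p w
    rw [drs_tmul, c0_tmul, c0_tmul, e0_sg]

/-- the coefficient of `θ_l` modulo `ξ` -/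
def c1 (X : Frame k A I n) (l : Fin n) : DRa k A n →ₗ[k] MvPolynomial (Fin n) A :=
  ∑ m, LinearMap.mulLeft k (MvPolynomial.C (X.D m (X.x l))) ∘ₗ (c0 X).toLinearMap ∘ₗ pth k A m

lemma c1_apply (X : Frame k A I n) (l : Fin n) (w : DRa k A n) :
    c1 X l w = ∑ m, MvPolynomial.C (X.D m (X.x l)) * c0 X (pth k A m w) := by
  rw [c1, LinearMap.sum_apply]
  rfl

lemma c1_mul (X : Frame k A I n) (l : Fin n) (u v : DRa k A n) :
    c1 X l (u * v) = c1 X l u * c0 X v + c0 X u * c1 X l v := by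
  rw [c1_apply, c1_apply, c1_apply, Finset.sum_mul, Finset.mul_sum, ← Finset.sum_add_distrib]
  refine Finset.sum_congr rfl fun m _ => ?_
  rw [pth_mul, map_add, map_mul, map_mul, c0_drs]
  ring

lemma c0_dra (X : Frame k A I n) (a : A) : c0 X (dra k n a) = MvPolynomial.C a := by
  rw [dra, c0_tmul, map_one, map_one, map_one, mul_one, mul_one]

lemma c0_θ (X : Frame k A I n) (i : Fin n) : c0 X (drθ k A i) = 0 := by
  rw [drθ, c0_tmul, lθ, e0_ι, map_zero, mul_zero, mul_zero]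

lemma c0_ξ (X : Frame k A I n) (i : Fin n) : c0 X (drξ k A i) = 0 := by
  rw [drξ, c0_tmul, lξ, e0_ι, map_zero, mul_zero, mul_zero]

lemma c0_y (X : Frame k A I n) (i : Fin n) : c0 X (dry k A i) =
    ∑ j, MvPolynomial.C (X.D i (X.x j)) * MvPolynomial.X j := by
  rw [dry, c0_tmul, map_one, map_one, map_one, mul_one, one_mul, yev_yX]

lemma c1_dra (X : Frame k A I n) (l : Fin n) (a : A) : c1 X l (dra k n a) = 0 := by
  rw [c1_apply]
  refine Finset.sum_eq_zero fun m _ => ?_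
  rw [dra, pth_tmul, lctr_one, TensorProduct.tmul_zero, TensorProduct.tmul_zero, map_zero,
    mul_zero]

lemma c1_θ (X : Frame k A I n) (l i : Fin n) :
    c1 X l (drθ k A i) = MvPolynomial.C (X.D i (X.x l)) := by
  rw [c1_apply, Finset.sum_eq_single i]
  · rw [drθ, pth_tmul, lctr_θ, if_pos rfl, c0_tmul, map_one, map_one, map_one, map_one, mul_one,
      mul_one, mul_one]
  · intro m _ hm
    rw [drθ, pth_tmul, lctr_θ, if_neg hm, TensorProduct.tmul_zero, TensorProduct.tmul_zero,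
      map_zero, mul_zero]
  · intro h
    exact absurd (Finset.mem_univ i) h

lemma c1_ξ (X : Frame k A I n) (l i : Fin n) : c1 X l (drξ k A i) = 0 := by
  rw [c1_apply]
  refine Finset.sum_eq_zero fun m _ => ?_
  rw [drξ, pth_tmul, lctr_ξ, TensorProduct.tmul_zero, TensorProduct.tmul_zero, map_zero,
    mul_zero]

lemma c1_y (X : Frame k A I n) (l i : Fin n) : c1 X l (dry k A i) = 0 := by
  rw [c1_apply]
  refine Finset.sum_eq_zero fun m _ => ?_
  rw [dry, pth_tmul, lctr_one, TensorProduct.tmul_zero, TensorProduct.tmul_zero, map_zero,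
    mul_zero]

lemma c0_drδ_dra (X : Frame k A I n) (a : A) : c0 X (drδ X (dra k n a)) = 0 := by
  rw [drδ_dra, map_sum]
  refine Finset.sum_eq_zero fun j _ => ?_
  rw [map_mul, c0_ξ, mul_zero]

section Haus

variable [IsHausdorff I A]

lemma ee_C (X : Frame k A I n) (i l : Fin n) :
    ∑ j, MvPolynomial.C (X.D i (X.x j)) * MvPolynomial.C (X.D j (X.x l)) =
      (MvPolynomial.C (X.D i (X.x l)) : MvPolynomial (Fin n) A) := by
  rw [X.rel i (X.x l), map_sum]
  exact Finset.sum_congr rfl fun j _ => (map_mul _ _ _).symm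

lemma ee_X (X : Frame k A I n) (i : Fin n) :
    ∑ j, MvPolynomial.C (X.D i (X.x j)) *
      (∑ l, MvPolynomial.C (X.D j (X.x l)) * MvPolynomial.X l) =
      (∑ l, MvPolynomial.C (X.D i (X.x l)) * MvPolynomial.X l : MvPolynomial (Fin n) A) := by
  simp only [Finset.mul_sum, ← mul_assoc]
  rw [Finset.sum_comm]
  refine Finset.sum_congr rfl fun l _ => ?_
  rw [← Finset.sum_mul, ee_C]

lemma c0_rel (X : Frame k A I n) {r : DRa k A n}
    (h : ∃ i, r = rel1 X i ∨ r = rel2 X i ∨ r = rel3 X i) : c0 X r = 0 := by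
  obtain ⟨i, rfl | rfl | rfl⟩ := h
  · rw [rel1, map_sub, map_sum, c0_θ, zero_sub, neg_eq_zero]
    refine Finset.sum_eq_zero fun j _ => ?_
    rw [map_mul, c0_θ, mul_zero]
  · rw [rel2, map_sub, map_sum, c0_ξ, zero_sub, neg_eq_zero]
    refine Finset.sum_eq_zero fun j _ => ?_
    rw [map_mul, c0_ξ, mul_zero]
  · rw [rel3, map_sub, map_sum, c0_y, ← ee_X, sub_eq_zero]
    refine Finset.sum_congr rfl fun j _ => ?_
    rw [map_add, map_mul, map_mul, c0_dra, c0_y, c0_θ, mul_zero, add_zero]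

lemma c1_rel (X : Frame k A I n) (l : Fin n) {r : DRa k A n}
    (h : ∃ i, r = rel1 X i ∨ r = rel2 X i ∨ r = rel3 X i) : c1 X l r = 0 := by
  obtain ⟨i, rfl | rfl | rfl⟩ := h
  · rw [rel1, map_sub, map_sum, c1_θ, ← ee_C, sub_eq_zero]
    refine Finset.sum_congr rfl fun j _ => ?_
    rw [c1_mul, c1_dra, zero_mul, zero_add, c0_dra, c1_θ]
  · rw [rel2, map_sub, map_sum, c1_ξ, zero_sub, neg_eq_zero]
    refine Finset.sum_eq_zero fun j _ => ?_
    rw [c1_mul, c1_dra, c1_ξ, zero_mul, mul_zero, add_zero]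
  · rw [rel3, map_sub, map_sum, c1_y, zero_sub, neg_eq_zero]
    refine Finset.sum_eq_zero fun j _ => ?_
    rw [map_add, c1_mul, c1_mul, c1_dra, c1_y, c0_θ, c0_drδ_dra, zero_mul, mul_zero, mul_zero,
      zero_mul, add_zero, add_zero]

lemma c0_c1_mem (X : Frame k A I n) {w : DRa k A n} (hw : w ∈ DRrel X) :
    c0 X w = 0 ∧ ∀ l, c1 X l w = 0 := by
  refine Submodule.span_induction (p := fun w _ => c0 X w = 0 ∧ ∀ l, c1 X l w = 0) ?_ ?_ ?_ ?_ hw
  · rintro _ ⟨r, v, hr, rfl⟩
    refine ⟨by rw [map_mul, c0_rel X hr, zero_mul], fun l => ?_⟩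
    rw [c1_mul, c1_rel X l hr, c0_rel X hr, zero_mul, zero_mul, add_zero]
  · exact ⟨map_zero _, fun l => map_zero _⟩
  · intro x y _ _ hx hy
    exact ⟨by rw [map_add, hx.1, hy.1, add_zero], fun l => by
      rw [map_add, hx.2 l, hy.2 l, add_zero]⟩
  · intro c x _ hx
    rw [smul_eq_mul]
    refine ⟨by rw [map_mul, hx.1, mul_zero], fun l => ?_⟩
    rw [c1_mul, hx.1, hx.2 l, mul_zero, mul_zero, add_zero]

lemma e0_ξ_mul (w : Lam k n) (i : Fin n) : e0 k n (lξ k i * w) = 0 := by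
  rw [map_mul, lξ, e0_ι, zero_mul]

omit [IsHausdorff I A] in
lemma c0_δ (X : Frame k A I n) (w : DRa k A n) :
    c0 X (drδ X w) = ∑ l, MvPolynomial.X l * c1 X l w := by
  have h1 : c0 X (drδ X w) = ∑ m, (∑ l, MvPolynomial.C (X.D m (X.x l)) * MvPolynomial.X l) *
      c0 X (pth k A m w) := by
    refine ten_ind (p := fun w => c0 X (drδ X w) =
      ∑ m, (∑ l, MvPolynomial.C (X.D m (X.x l)) * MvPolynomial.X l) *
        c0 X (pth k A m w)) ?_ ?_ ?_ w
    · simp only [map_zero, mul_zero, Finset.sum_const_zero]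
    · intro x y hx hy
      simp only [map_add, mul_add, Finset.sum_add_distrib]
      rw [hx, hy]
    · intro a p w
      rw [drδ_tmul, map_add, map_sum, map_sum, Finset.sum_eq_zero, zero_add]
      · refine Finset.sum_congr rfl fun m _ => ?_
        rw [c0_tmul, pth_tmul, c0_tmul, map_mul, yev_yX]
        ring
      · intro j _
        rw [c0_tmul, e0_ξ_mul, map_zero, mul_zero, mul_zero]
  rw [h1]
  simp only [c1_apply, Finset.mul_sum, Finset.sum_mul]
  rw [Finset.sum_comm]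
  refine Finset.sum_congr rfl fun l _ => Finset.sum_congr rfl fun m _ => ?_
  ring

lemma c0_d (X : Frame k A I n) (f : A) (w : DRa k A n) :
    c0 X (drd X f w) = ∑ l, MvPolynomial.C (X.D l f) * c1 X l w := by
  have h1 : c0 X (drd X f w) = ∑ m, MvPolynomial.C (X.D m f) * c0 X (pth k A m w) := by
    refine ten_ind (p := fun w => c0 X (drd X f w) =
      ∑ m, MvPolynomial.C (X.D m f) * c0 X (pth k A m w)) ?_ ?_ ?_ w
    · simp only [map_zero, mul_zero, Finset.sum_const_zero]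
    · intro x y hx hy
      simp only [map_add, mul_add, Finset.sum_add_distrib]
      rw [hx, hy]
    · intro a p w
      rw [drd_tmul, map_sub, map_sum]
      have h2 : c0 X (∑ i, ∑ j, (X.D j (X.D i f) * a) ⊗ₜ[k]
          (ypd k i p ⊗ₜ[k] (lξ k j * w))) = 0 := by
        rw [map_sum]
        refine Finset.sum_eq_zero fun i _ => ?_
        rw [map_sum]
        refine Finset.sum_eq_zero fun j _ => ?_
        rw [c0_tmul, e0_ξ_mul, map_zero, mul_zero, mul_zero]
      rw [h2, sub_zero]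
      refine Finset.sum_congr rfl fun m _ => ?_
      rw [c0_tmul, pth_tmul, c0_tmul, map_mul]
      ring
  rw [h1]
  simp only [c1_apply, Finset.mul_sum]
  rw [Finset.sum_comm]
  refine Finset.sum_congr rfl fun m _ => ?_
  rw [X.rel m f, map_sum, Finset.sum_mul]
  refine Finset.sum_congr rfl fun l _ => ?_
  rw [map_mul]
  ring

/-! ## the functionals on `DR(K)` -/

/-- forms modulo `θ, ξ` -/
def C0 (X : Frame k A I n) : DR X →ₗ[k] MvPolynomial (Fin n) A :=
  DR.lift X (c0 X).toLinearMap fun _ hw => (c0_c1_mem X hw).1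

/-- the coefficient of `θ_l` modulo `ξ` -/
def C1 (X : Frame k A I n) (l : Fin n) : DR X →ₗ[k] MvPolynomial (Fin n) A :=
  DR.lift X (c1 X l) fun _ hw => (c0_c1_mem X hw).2 l

lemma C0_mk (X : Frame k A I n) (w : DRa k A n) : C0 X (DR.mk X w) = c0 X w := rfl

lemma C1_mk (X : Frame k A I n) (l : Fin n) (w : DRa k A n) : C1 X l (DR.mk X w) = c1 X l w := rfl

lemma C0_mul (X : Frame k A I n) (u v : DR X) : C0 X (u * v) = C0 X u * C0 X v := by
  obtain ⟨u, rfl⟩ := DR.mk_surj X u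
  obtain ⟨v, rfl⟩ := DR.mk_surj X v
  rw [← map_mul, C0_mk, C0_mk, C0_mk, map_mul]

lemma C0_one (X : Frame k A I n) : C0 X 1 = 1 := by
  rw [← map_one (DR.mk X), C0_mk, map_one]

lemma C1_mul (X : Frame k A I n) (l : Fin n) (u v : DR X) :
    C1 X l (u * v) = C1 X l u * C0 X v + C0 X u * C1 X l v := by
  obtain ⟨u, rfl⟩ := DR.mk_surj X u
  obtain ⟨v, rfl⟩ := DR.mk_surj X v
  rw [← map_mul, C1_mk, C1_mk, C1_mk, C0_mk, C0_mk, c1_mul]

lemma C0_a (X : Frame k A I n) (a : A) : C0 X (DR.a X a) = MvPolynomial.C a := c0_dra X a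

lemma C0_θ (X : Frame k A I n) (i : Fin n) : C0 X (DR.θ X i) = 0 := c0_θ X i

lemma C0_ξ (X : Frame k A I n) (i : Fin n) : C0 X (DR.ξ X i) = 0 := c0_ξ X i

lemma C0_y (X : Frame k A I n) (i : Fin n) : C0 X (DR.y X i) =
    ∑ j, MvPolynomial.C (X.D i (X.x j)) * MvPolynomial.X j := c0_y X i

lemma C1_a (X : Frame k A I n) (l : Fin n) (a : A) : C1 X l (DR.a X a) = 0 := c1_dra X l a

lemma C1_θ (X : Frame k A I n) (l i : Fin n) :
    C1 X l (DR.θ X i) = MvPolynomial.C (X.D i (X.x l)) := c1_θ X l i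

lemma C1_ξ (X : Frame k A I n) (l i : Fin n) : C1 X l (DR.ξ X i) = 0 := c1_ξ X l i

lemma C1_y (X : Frame k A I n) (l i : Fin n) : C1 X l (DR.y X i) = 0 := c1_y X l i

lemma C0_δ [CharZero k] (X : Frame k A I n) (w : DR X) :
    C0 X (DR.δ X w) = ∑ l, MvPolynomial.X l * C1 X l w := by
  obtain ⟨w, rfl⟩ := DR.mk_surj X w
  exact c0_δ X w

lemma C0_d (X : Frame k A I n) (f : A) (w : DR X) :
    C0 X (DR.d X f w) = ∑ l, MvPolynomial.C (X.D l f) * C1 X l w := by
  obtain ⟨w, rfl⟩ := DR.mk_surj X w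
  exact c0_d X f w

lemma C1_one (X : Frame k A I n) (l : Fin n) : C1 X l 1 = 0 := by
  rw [← map_one (DR.mk X), C1_mk, ← dra_one, c1_dra]

/-! ## gradings -/

lemma C0_prodθ (X : Frame k A I n) (l : List (Fin n)) (h : l ≠ []) :
    C0 X (l.map (DR.θ X)).prod = 0 := by
  obtain ⟨i, l', rfl⟩ := List.exists_cons_of_ne_nil h
  rw [List.map_cons, List.prod_cons, C0_mul, C0_θ, zero_mul]

lemma C0_prodξ (X : Frame k A I n) (l : List (Fin n)) (h : l ≠ []) :
    C0 X (l.map (DR.ξ X)).prod = 0 := by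
  obtain ⟨i, l', rfl⟩ := List.exists_cons_of_ne_nil h
  rw [List.map_cons, List.prod_cons, C0_mul, C0_ξ, zero_mul]

lemma C1_prodξ (X : Frame k A I n) (i : Fin n) (l : List (Fin n)) :
    C1 X i (l.map (DR.ξ X)).prod = 0 := by
  induction l with
  | nil => rw [List.map_nil, List.prod_nil, C1_one]
  | cons j l ih =>
    rw [List.map_cons, List.prod_cons, C1_mul, C1_ξ, ih, zero_mul, mul_zero, add_zero]

lemma C1_prody (X : Frame k A I n) (i : Fin n) (l : List (Fin n)) :
    C1 X i (l.map (DR.y X)).prod = 0 := by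
  induction l with
  | nil => rw [List.map_nil, List.prod_nil, C1_one]
  | cons j l ih =>
    rw [List.map_cons, List.prod_cons, C1_mul, C1_y, ih, zero_mul, mul_zero, add_zero]

lemma C0_prody (X : Frame k A I n) (l : List (Fin n)) :
    (C0 X (l.map (DR.y X)).prod).IsHomogeneous l.length := by
  induction l with
  | nil =>
    rw [List.map_nil, List.prod_nil, C0_one]
    exact MvPolynomial.isHomogeneous_one _ _
  | cons j l ih =>
    rw [List.map_cons, List.prod_cons, C0_mul, C0_y, List.length_cons, add_comm]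
    refine MvPolynomial.IsHomogeneous.mul ?_ ih
    refine MvPolynomial.IsHomogeneous.sum _ _ _ fun i _ => ?_
    have h1 := (MvPolynomial.isHomogeneous_C (Fin n) (X.D j (X.x i))).mul
      (MvPolynomial.isHomogeneous_X A i)
    rwa [zero_add] at h1

lemma C1_prodθ (X : Frame k A I n) (i : Fin n) (l : List (Fin n)) :
    (C1 X i (l.map (DR.θ X)).prod).IsHomogeneous 0 ∧
      (l.length ≠ 1 → C1 X i (l.map (DR.θ X)).prod = 0) := by
  rcases l with _ | ⟨j, l⟩
  · rw [List.map_nil, List.prod_nil, C1_one]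
    exact ⟨MvPolynomial.isHomogeneous_zero _ _ _, fun _ => rfl⟩
  · rw [List.map_cons, List.prod_cons, C1_mul, C1_θ, C0_θ, zero_mul, add_zero]
    by_cases hl : l = []
    · subst hl
      refine ⟨?_, fun h => absurd rfl h⟩
      rw [List.map_nil, List.prod_nil, C0_one, mul_one]
      exact MvPolynomial.isHomogeneous_C _ _
    · rw [C0_prodθ X l hl, mul_zero]
      exact ⟨MvPolynomial.isHomogeneous_zero _ _ _, fun _ => rfl⟩

lemma C1_gen (X : Frame k A I n) (i : Fin n) (a : A) (l l' l'' : List (Fin n)) :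
    C1 X i (DR.a X a * (l.map (DR.θ X)).prod * (l'.map (DR.ξ X)).prod *
      (l''.map (DR.y X)).prod) = MvPolynomial.C a * C1 X i (l.map (DR.θ X)).prod *
      C0 X (l'.map (DR.ξ X)).prod * C0 X (l''.map (DR.y X)).prod := by
  rw [C1_mul, C1_mul, C1_mul, C1_prody, C1_prodξ, C1_a, C0_a, zero_mul, zero_add, mul_zero,
    mul_zero, add_zero, add_zero]

lemma C1_hom (X : Frame k A I n) (i : Fin n) {p q : ℕ} {w : DR X} (hw : w ∈ DR.gr X p q) :
    (C1 X i w).IsHomogeneous p ∧ (q ≠ p + 1 → C1 X i w = 0) := by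
  refine Submodule.span_induction
    (p := fun w _ => (C1 X i w).IsHomogeneous p ∧ (q ≠ p + 1 → C1 X i w = 0)) ?_ ?_ ?_ ?_ hw
  · rintro _ ⟨a, l, l', l'', h1, h2, rfl⟩
    rw [C1_gen]
    by_cases hl' : l' = []
    · subst hl'
      rw [List.map_nil, List.prod_nil, C0_one, mul_one]
      have hp : l''.length = p := by simpa using h1
      refine ⟨?_, fun hq => ?_⟩
      · have h3 := ((MvPolynomial.isHomogeneous_C (Fin n) a).mul (C1_prodθ X i l).1).mul
          (C0_prody X l'')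
        rwa [hp, zero_add, zero_add] at h3
      · rw [(C1_prodθ X i l).2 (by omega), mul_zero, zero_mul]
    · rw [C0_prodξ X l' hl', mul_zero, zero_mul]
      exact ⟨MvPolynomial.isHomogeneous_zero _ _ _, fun _ => rfl⟩
  · rw [map_zero]
    exact ⟨MvPolynomial.isHomogeneous_zero _ _ _, fun _ => rfl⟩
  · intro x y _ _ hx hy
    rw [map_add]
    exact ⟨hx.1.add hy.1, fun hq => by rw [hx.2 hq, hy.2 hq, add_zero]⟩
  · intro c x _ hx
    rw [map_smul]
    refine ⟨?_, fun hq => by rw [hx.2 hq, smul_zero]⟩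
    have h3 := (MvPolynomial.isHomogeneous_C (Fin n) (algebraMap k A c)).mul hx.1
    rw [zero_add] at h3
    convert! h3 using 1
    rw [Algebra.smul_def]
    rfl

lemma C0_fil (X : Frame k A I n) {N : ℕ} {w : DR X} (hw : w ∈ DR.fil X N) (α : Fin n →₀ ℕ) :
    MvPolynomial.coeff α (C0 X w) ∈ I ^ N := by
  refine Submodule.span_induction
    (p := fun w _ => MvPolynomial.coeff α (C0 X w) ∈ I ^ N) ?_ ?_ ?_ ?_ hw
  · rintro _ ⟨a, ha, v, rfl⟩
    rw [C0_mul, C0_a, MvPolynomial.coeff_C_mul]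
    exact Ideal.mul_mem_right _ _ ha
  · rw [map_zero, MvPolynomial.coeff_zero]
    exact zero_mem _
  · intro x y _ _ hx hy
    rw [map_add, MvPolynomial.coeff_add]
    exact add_mem hx hy
  · intro c x _ hx
    rw [map_smul, MvPolynomial.coeff_smul, Algebra.smul_def]
    exact Ideal.mul_mem_left _ _ hx

lemma C1_fil (X : Frame k A I n) (l : Fin n) {N : ℕ} {w : DR X} (hw : w ∈ DR.fil X N)
    (α : Fin n →₀ ℕ) : MvPolynomial.coeff α (C1 X l w) ∈ I ^ N := by
  refine Submodule.span_induction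
    (p := fun w _ => MvPolynomial.coeff α (C1 X l w) ∈ I ^ N) ?_ ?_ ?_ ?_ hw
  · rintro _ ⟨a, ha, v, rfl⟩
    rw [C1_mul, C1_a, C0_a, zero_mul, zero_add, MvPolynomial.coeff_C_mul]
    exact Ideal.mul_mem_right _ _ ha
  · rw [map_zero, MvPolynomial.coeff_zero]
    exact zero_mem _
  · intro x y _ _ hx hy
    rw [map_add, MvPolynomial.coeff_add]
    exact add_mem hx hy
  · intro c x _ hx
    rw [map_smul, MvPolynomial.coeff_smul, Algebra.smul_def]
    exact Ideal.mul_mem_left _ _ hx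

end Haus

/-! ## elements -/

lemma DR.a_mem (X : Frame k A I n) (a : A) : DR.a X a ∈ DR.gr X 0 0 :=
  Submodule.subset_span ⟨a, [], [], [], rfl, rfl, by
    simp only [List.map_nil, List.prod_nil, mul_one]⟩

lemma DR.a_one (X : Frame k A I n) : DR.a X 1 = 1 := by
  rw [DR.a, dra_one, map_one]

lemma DR.θ_mem (X : Frame k A I n) (i : Fin n) : DR.θ X i ∈ DR.gr X 0 1 :=
  Submodule.subset_span ⟨1, [i], [], [], rfl, rfl, by
    simp only [List.map_nil, List.prod_nil, mul_one, List.map_cons, List.prod_cons, DR.a_one,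
      one_mul]⟩

lemma DR.y_mem (X : Frame k A I n) (i : Fin n) : DR.y X i ∈ DR.gr X 1 1 :=
  Submodule.subset_span ⟨1, [], [], [i], rfl, rfl, by
    simp only [List.map_nil, List.prod_nil, mul_one, List.map_cons, List.prod_cons, DR.a_one,
      one_mul]⟩

lemma DR.a_mul (X : Frame k A I n) (a b : A) : DR.a X (a * b) = DR.a X a * DR.a X b := by
  rw [DR.a, dra_mul, map_mul]
  rfl

lemma DR.a_add (X : Frame k A I n) (a b : A) : DR.a X (a + b) = DR.a X a + DR.a X b := by
  rw [DR.a, dra_add, map_add]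
  rfl

lemma DR.a_zero (X : Frame k A I n) : DR.a X 0 = 0 := by
  rw [DR.a, dra_zero, map_zero]

lemma DR.a_algebraMap (X : Frame k A I n) (r : k) :
    DR.a X (algebraMap k A r) = r • (1 : DR X) := by
  have h1 : dra k n (algebraMap k A r) = r • (1 : DRa k A n) := by
    rw [dra, Algebra.algebraMap_eq_smul_one, ← TensorProduct.smul_tmul']
    rfl
  rw [DR.a, h1, map_smul, map_one]

lemma DR.d_a [IsHausdorff I A] (X : Frame k A I n) (f a : A) : DR.d X f (DR.a X a) = 0 := by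
  change DR.mk X (drd X f (dra k n a)) = 0
  rw [drd_dra, map_zero]

lemma DR.d_θ [IsHausdorff I A] (X : Frame k A I n) (f : A) (i : Fin n) :
    DR.d X f (DR.θ X i) = DR.a X (X.D i f) := by
  change DR.mk X (drd X f (drθ k A i)) = _
  rw [drd_θ]
  rfl

lemma DR.δ_θ [CharZero k] [IsHausdorff I A] (X : Frame k A I n) (i : Fin n) :
    DR.δ X (DR.θ X i) = DR.y X i := by
  change DR.mk X (drδ X (drθ k A i)) = _
  rw [drδ_θ]
  rfl

lemma DR.δ_x [CharZero k] [IsHausdorff I A] (X : Frame k A I n) (i : Fin n) :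
    DR.δ X (DR.a X (X.x i)) = DR.ξ X i := by
  change DR.mk X (drδ X (dra k n (X.x i))) = DR.mk X (drξ k A i)
  rw [eq_comm, ← sub_eq_zero, ← map_sub, DR.mk_eq_zero, drδ_dra]
  exact rel2_mem X i

end

end Pool.Agent.MFI
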