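import Pool.Agent.MFI.DF3
import Pool.Agent.MFI.DF5

/-!
# Isotopy invariance of matrix factorizations (MP_c8c50b_ag), helper42

Part DF6: from the literal hypothesis on `dCrit(f)` to the Koszul exactness of the velocity.
-/

set_option autoImplicit false

open PowerSeries
open Finset.HasAntidiagonal (antidiagonal mem_antidiagonal)
open scoped TensorProduct

namespace Pool.Agent.MFI

universe u

noncomputable section

variable {k : Type u} [Field k] {A : Type u} [CommRing A] [Algebra k A] {I : Ideal A}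
  {n : ℕ}

section Path

section Func

variable [IsHausdorff I A] {X : Frame k A I n} {f : A}

/-- the constant coefficient of a form modulo `θ, ξ` -/
def κ0 (X : Frame k A I n) (w : DR X) : A := MvPolynomial.constantCoeff (C0 X w)

/-- the constant coefficient of the coefficient of `θ_l` modulo `ξ` -/
def κ1 (X : Frame k A I n) (l : Fin n) (w : DR X) : A := MvPolynomial.constantCoeff (C1 X l w)

lemma κ0_mul (u v : DR X) : κ0 X (u * v) = κ0 X u * κ0 X v := by
  rw [κ0, C0_mul, map_mul]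
  rfl

lemma κ0_add (u v : DR X) : κ0 X (u + v) = κ0 X u + κ0 X v := by
  rw [κ0, map_add, map_add]
  rfl

lemma κ0_sum {ι : Type*} (s : Finset ι) (u : ι → DR X) :
    κ0 X (∑ i ∈ s, u i) = ∑ i ∈ s, κ0 X (u i) := by
  rw [κ0, map_sum, map_sum]
  rfl

lemma κ0_smul (r : k) (u : DR X) : κ0 X (r • u) = r • κ0 X u := by
  rw [κ0, map_smul, κ0, MvPolynomial.constantCoeff_smul]

lemma κ0_sub (u v : DR X) : κ0 X (u - v) = κ0 X u - κ0 X v := by
  rw [κ0, map_sub, map_sub]
  rfl

lemma κ0_a (a : A) : κ0 X (DR.a X a) = a := by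
  rw [κ0, C0_a, MvPolynomial.constantCoeff_C]

lemma κ0_one : κ0 X 1 = 1 := by
  rw [κ0, C0_one, map_one]

lemma κ0_zero : κ0 X 0 = 0 := by
  rw [κ0, map_zero, map_zero]

lemma κ0_d (w : DR X) : κ0 X (DR.d X f w) = ∑ l, κ1 X l w * X.D l f := by
  rw [κ0, C0_d, map_sum]
  refine Finset.sum_congr rfl fun l _ => ?_
  rw [map_mul, MvPolynomial.constantCoeff_C, mul_comm]
  rfl

lemma κ0_fil {N : ℕ} {w : DR X} (hw : w ∈ DR.fil X N) : κ0 X w ∈ I ^ N := by
  have h := C0_fil X hw 0
  rwa [← MvPolynomial.constantCoeff_eq] at h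

lemma κ1_fil (l : Fin n) {N : ℕ} {w : DR X} (hw : w ∈ DR.fil X N) : κ1 X l w ∈ I ^ N := by
  have h := C1_fil X l hw 0
  rwa [← MvPolynomial.constantCoeff_eq] at h

/-- forms of weight zero and degree `-1` -/
lemma C1_gr01 (l : Fin n) {w : DR X} (hw : w ∈ DR.gr X 0 1) :
    C1 X l w = MvPolynomial.C (κ1 X l w) := by
  have h := (MvPolynomial.totalDegree_eq_zero_iff_eq_C).1
    (Nat.le_zero.1 (C1_hom X l hw).1.totalDegree_le)
  rw [h, κ1, h, MvPolynomial.constantCoeff_C, MvPolynomial.coeff_C, if_pos rfl]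

end Func

variable [CharZero k] [IsAdicComplete I A] {X : Frame k A I n} {f : A} {ψ : A ≃ₐ[k] A}

/-- the homomorphism `A → A⟨s⟩` of a path -/
def SympPath.h (p : SympPath X f ψ) : A →ₐ[k] PowerSeries A where
  toFun a := PowerSeries.mk fun m => κ0 X (p.H m (DR.a X a))
  map_one' := by
    ext m
    rw [coeff_mk, DR.a_one, coeff_one]
    rcases m with _ | m
    · rw [p.Hone.1, κ0_one, if_pos rfl]
    · rw [p.Hone.2 m, κ0_zero, if_neg (Nat.succ_ne_zero m)]
  map_mul' a b := by
    ext m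
    rw [coeff_mk, coeff_mul, DR.a_mul, p.Hmul, κ0_sum, Finset.Nat.sum_antidiagonal_eq_sum_range_succ
      (fun i j => coeff i (PowerSeries.mk fun m => κ0 X (p.H m (DR.a X a))) *
        coeff j (PowerSeries.mk fun m => κ0 X (p.H m (DR.a X b)))) m]
    refine Finset.sum_congr rfl fun j _ => ?_
    rw [κ0_mul, coeff_mk, coeff_mk]
  map_zero' := by
    ext m
    rw [coeff_mk, DR.a_zero, map_zero, κ0_zero, map_zero]
  map_add' a b := by
    ext m
    rw [coeff_mk, map_add, coeff_mk, coeff_mk, DR.a_add, map_add, κ0_add]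
  commutes' r := by
    ext m
    rw [coeff_mk, DC.algebraMap_ser, coeff_C, DR.a_algebraMap, map_smul, κ0_smul]
    rcases m with _ | m
    · rw [p.Hone.1, κ0_one, if_pos rfl, Algebra.algebraMap_eq_smul_one]
    · rw [p.Hone.2 m, κ0_zero, smul_zero, if_neg (Nat.succ_ne_zero m)]

lemma SympPath.coeff_h (p : SympPath X f ψ) (a : A) (m : ℕ) :
    coeff m (p.h a) = κ0 X (p.H m (DR.a X a)) := by
  change coeff m (PowerSeries.mk fun m => κ0 X (p.H m (DR.a X a))) = _
  rw [coeff_mk]

/-- the coefficients of `Θ(a)` -/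
def SympPath.t (p : SympPath X f ψ) (a : A) (l : Fin n) : PowerSeries A :=
  PowerSeries.mk fun m => κ1 X l (p.Θ m (DR.a X a))

/-- the coefficients of `H(θ_i)` -/
def SympPath.τ (p : SympPath X f ψ) (i l : Fin n) : PowerSeries A :=
  PowerSeries.mk fun m => κ1 X l (p.H m (DR.θ X i))

lemma SympPath.dt_h (p : SympPath X f ψ) (a : A) :
    dt (p.h a) = ∑ l, p.t a l * C (X.D l f) := by
  ext m
  have h1 := congrArg (κ0 X) (p.Θd m (DR.a X a))
  rw [DR.d_a, map_zero, add_zero, κ0_smul, κ0_d, ← p.coeff_h] at h1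
  rw [coeff_dt, map_sum]
  have h2 : ((m + 1) • coeff (m + 1) (p.h a) : A) = (m + 1 : k) • coeff (m + 1) (p.h a) := by
    rw [show ((m + 1 : k)) = ((m + 1 : ℕ) : k) by push_cast; rfl, Nat.cast_smul_eq_nsmul]
  rw [h2, h1]
  refine Finset.sum_congr rfl fun l _ => ?_
  rw [coeff_mul_C, SympPath.t, coeff_mk]

lemma SympPath.h_g (p : SympPath X f ψ) (i : Fin n) :
    p.h (X.D i f) = ∑ l, p.τ i l * C (X.D l f) := by
  ext m
  rw [p.coeff_h, ← DR.d_θ, p.Hd, κ0_d, map_sum]
  refine Finset.sum_congr rfl fun l _ => ?_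
  rw [coeff_mul_C, SympPath.τ, coeff_mk]

lemma SympPath.rst (p : SympPath X f ψ) (a : A) : DC.Rst I (p.h a) := by
  intro N
  obtain ⟨M, hM⟩ := p.Hrst (DR.a X a) N
  exact ⟨M, fun m hm => by rw [p.coeff_h]; exact κ0_fil (hM m hm)⟩

lemma SympPath.rstt (p : SympPath X f ψ) (a : A) (l : Fin n) : DC.Rst I (p.t a l) := by
  intro N
  obtain ⟨M, hM⟩ := p.Θrst (DR.a X a) N
  exact ⟨M, fun m hm => by rw [SympPath.t, coeff_mk]; exact κ1_fil l (hM m hm)⟩

lemma SympPath.rstτ (p : SympPath X f ψ) (i l : Fin n) : DC.Rst I (p.τ i l) := by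
  intro N
  obtain ⟨M, hM⟩ := p.Hrst (DR.θ X i) N
  exact ⟨M, fun m hm => by rw [SympPath.τ, coeff_mk]; exact κ1_fil l (hM m hm)⟩

lemma SympPath.fin (p : SympPath X f ψ) (a : A) : DC.Val I (1 : k) (p.h a) (ψ a) := by
  refine DC.val_of_lim (p.rst a) fun N => ?_
  obtain ⟨M, hM⟩ := p.stop a N
  refine ⟨M, fun m hm => ?_⟩
  have h1 := neg_mem (κ0_fil (hM m hm))
  rw [κ0_sub, κ0_a, κ0_sum, neg_sub] at h1
  convert! h1 using 2
  refine Finset.sum_congr rfl fun j _ => ?_
  rw [κ0_smul, one_pow, p.coeff_h]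

/-- the image of the symplectic form, modulo `θ, ξ` -/
lemma SympPath.C0_ω (p : SympPath X f ψ) (m : ℕ) : C0 X (p.Θ m (DR.ω X)) =
    - ∑ l, ∑ l', MvPolynomial.X l * MvPolynomial.X l' *
      MvPolynomial.C (coeff m (∑ i, p.τ i l * p.t (X.x i) l')) := by
  have hH : ∀ m i, C0 X (p.H m (DR.ξ X i)) = 0 := by
    intro m i
    rw [← DR.δ_x, p.Hδ, C0_δ]
    refine Finset.sum_eq_zero fun l _ => ?_
    rw [(C1_hom X l (p.Hgr m 0 0 _ (DR.a_mem X _))).2 (by omega), mul_zero]
  have hy : ∀ m i, C0 X (p.H m (DR.y X i)) =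
      ∑ l, MvPolynomial.X l * MvPolynomial.C (coeff m (p.τ i l)) := by
    intro m i
    rw [← DR.δ_θ, p.Hδ, C0_δ]
    refine Finset.sum_congr rfl fun l _ => ?_
    rw [C1_gr01 l (p.Hgr m 0 1 _ (DR.θ_mem X i)), SympPath.τ, coeff_mk]
  have hξ : ∀ m i, C0 X (p.Θ m (DR.ξ X i)) =
      - ∑ l, MvPolynomial.X l * MvPolynomial.C (coeff m (p.t (X.x i) l)) := by
    intro m i
    rw [← DR.δ_x, p.Θδ, map_neg, C0_δ]
    congr 1
    refine Finset.sum_congr rfl fun l _ => ?_
    rw [C1_gr01 l (p.Θgr m 0 0 _ (DR.a_mem X _)), SympPath.t, coeff_mk]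
  have h1 : ∀ i, C0 X (p.Θ m (DR.y X i * DR.ξ X i)) =
      - ∑ l, ∑ l', MvPolynomial.X l * MvPolynomial.X l' *
        MvPolynomial.C (coeff m (p.τ i l * p.t (X.x i) l')) := by
    intro i
    rw [p.Θmul m 1 1 _ (DR.y_mem X i), map_sum]
    have h2 : ∀ j ∈ Finset.range (m + 1), C0 X (p.Θ j (DR.y X i) * p.H (m - j) (DR.ξ X i) +
        (-1) ^ (1 + 1) * (p.H j (DR.y X i) * p.Θ (m - j) (DR.ξ X i))) =
        - ∑ l, ∑ l', MvPolynomial.X l * MvPolynomial.X l' *
          MvPolynomial.C (coeff j (p.τ i l) * coeff (m - j) (p.t (X.x i) l')) := by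
      intro j _
      rw [map_add, C0_mul, hH, mul_zero, zero_add, neg_one_sq, one_mul, C0_mul, hy, hξ, mul_neg,
        Finset.sum_mul]
      congr 1
      refine Finset.sum_congr rfl fun l _ => ?_
      rw [Finset.mul_sum]
      refine Finset.sum_congr rfl fun l' _ => ?_
      rw [map_mul]
      ring
    rw [Finset.sum_congr rfl h2, Finset.sum_neg_distrib, Finset.sum_comm]
    congr 1
    refine Finset.sum_congr rfl fun l _ => ?_
    rw [Finset.sum_comm]
    refine Finset.sum_congr rfl fun l' _ => ?_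
    rw [coeff_mul, Finset.Nat.sum_antidiagonal_eq_sum_range_succ
      (fun a b => coeff a (p.τ i l) * coeff b (p.t (X.x i) l')) m, map_sum, Finset.mul_sum]
  rw [DR.ω, map_sum, map_sum, Finset.sum_congr rfl fun i _ => h1 i, Finset.sum_neg_distrib,
    Finset.sum_comm]
  congr 1
  refine Finset.sum_congr rfl fun l _ => ?_
  rw [Finset.sum_comm]
  refine Finset.sum_congr rfl fun l' _ => ?_
  rw [map_sum, map_sum, Finset.mul_sum]

/-- the path of the core lemma -/
theorem SympPath.toPthF [IsNoetherianRing A] (p : SympPath X f ψ) (hg : ∀ i, X.D i f ∈ I) :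
    Nonempty (DC.PthF X f ψ.toAlgHom) := by
  set T : Fin n → Fin n → PowerSeries A := fun l l' => ∑ i, p.τ i l * p.t (X.x i) l' with hT
  have hTr : ∀ l l', DC.Rst I (T l l') := fun l l' =>
    DC.Rst.sum _ fun i _ => (p.rstτ i l).mul (p.rstt _ l')
  choose E hE using fun l l' => (DC.Rst.prim k (hTr l l')).val (1 : k)
  set e : Fin n → A := fun l' => ∑ l, X.D l f * E l l' with he
  have hval : ∀ l', DC.Val I (1 : k) (DC.prim k (∑ i, p.h (X.D i f) * p.t (X.x i) l')) (e l') := by
    intro l'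
    have h1 : DC.prim k (∑ i, p.h (X.D i f) * p.t (X.x i) l') =
        ∑ l, C (X.D l f) * DC.prim k (T l l') := by
      apply DC.series_eq k
      · rw [DC.coeff_prim_zero, map_sum]
        symm
        refine Finset.sum_eq_zero fun l _ => ?_
        rw [coeff_C_mul, DC.coeff_prim_zero, mul_zero]
      · rw [DC.dt_prim, map_sum]
        have h2 : ∀ l, dt (C (X.D l f) * DC.prim k (T l l')) =
            ∑ i, C (X.D l f) * (p.τ i l * p.t (X.x i) l') := by
          intro l
          rw [dt_mul, dt_C, zero_mul, zero_add, DC.dt_prim, hT, Finset.mul_sum]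
        rw [Finset.sum_congr rfl fun l _ => h2 l, Finset.sum_comm]
        refine Finset.sum_congr rfl fun i _ => ?_
        rw [p.h_g, Finset.sum_mul]
        refine Finset.sum_congr rfl fun l _ => ?_
        ring
    rw [h1]
    exact DC.Val.sum _ fun l _ => (DC.val_C _).mul (hE l l')
  have hvel : ∀ a m, coeff (m + 1) (p.h a) ∈ Ideal.span (Set.range fun i => X.D i f) := by
    intro a m
    have h1 := congrArg (coeff m) (p.dt_h a)
    rw [coeff_dt, map_sum] at h1
    rw [← DC.nsmul_ksmul k m (coeff (m + 1) (p.h a)), h1, Algebra.smul_def]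
    refine Ideal.mul_mem_left _ _ (sum_mem fun l _ => ?_)
    rw [coeff_mul_C]
    exact Ideal.mul_mem_left _ _ (Ideal.subset_span ⟨l, rfl⟩)
  -- the quadratic relation
  have hquad : C0 X (DR.d X f (p.η 2)) + ∑ l, ∑ l', MvPolynomial.X l * MvPolynomial.X l' *
      MvPolynomial.C (E l l') = 0 := by
    ext α
    rw [MvPolynomial.coeff_zero]
    refine IsHausdorff.haus' (I := I) _ fun N => ?_
    rw [SModEq.zero, smul_eq_mul, Ideal.mul_top]
    obtain ⟨M, hM⟩ := p.loop N
    choose K hK using fun l l' => (hE l l').lim N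
    set m := M + ∑ l, ∑ l', K l l' with hm
    have hKm : ∀ l l', K l l' ≤ m + 1 := by
      intro l l'
      have h1 : K l l' ≤ ∑ l', K l l' :=
        Finset.single_le_sum (f := fun l' => K l l') (fun _ _ => Nat.zero_le _) (Finset.mem_univ l')
      have h2 : ∑ l', K l l' ≤ ∑ l, ∑ l', K l l' :=
        Finset.single_le_sum (f := fun l => ∑ l', K l l') (fun _ _ => Nat.zero_le _)
          (Finset.mem_univ l)
      omega
    have h1 := C0_fil X (hM m (Nat.le_add_right _ _)) α
    have h2 : C0 X (DR.d X f (p.η 2)) + ∑ l, ∑ l', MvPolynomial.X l * MvPolynomial.X l' *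
        MvPolynomial.C (E l l') =
        C0 X (DR.d X f (p.η 2) - ∑ j ∈ Finset.range m, ((j + 1 : k)⁻¹) • p.Θ j (DR.ω X)) -
        ∑ l, ∑ l', MvPolynomial.X l * MvPolynomial.X l' *
        MvPolynomial.C ((∑ i ∈ Finset.range (m + 1), (1 : k) ^ i •
          coeff i (DC.prim k (T l l'))) - E l l') := by
      have h3 : C0 X (∑ j ∈ Finset.range m, ((j + 1 : k)⁻¹) • p.Θ j (DR.ω X)) =
          - ∑ l, ∑ l', MvPolynomial.X l * MvPolynomial.X l' *
          MvPolynomial.C (∑ i ∈ Finset.range (m + 1), (1 : k) ^ i •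
          coeff i (DC.prim k (T l l'))) := by
        rw [map_sum]
        have h4 : ∀ j : ℕ, C0 X (((j + 1 : k)⁻¹) • p.Θ j (DR.ω X)) =
            - ∑ l, ∑ l', MvPolynomial.X l * MvPolynomial.X l' *
              MvPolynomial.C (coeff (j + 1) (DC.prim k (T l l'))) := by
          intro j
          rw [map_smul, p.C0_ω, smul_neg, Finset.smul_sum]
          congr 1
          refine Finset.sum_congr rfl fun l _ => ?_
          rw [Finset.smul_sum]
          refine Finset.sum_congr rfl fun l' _ => ?_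
          rw [DC.coeff_prim_succ, ← mul_smul_comm]
          congr 1
          rw [Algebra.smul_def, Algebra.smul_def, map_mul]
          rfl
        rw [Finset.sum_congr rfl fun j _ => h4 j, Finset.sum_neg_distrib, Finset.sum_comm]
        congr 1
        refine Finset.sum_congr rfl fun l _ => ?_
        rw [Finset.sum_comm]
        refine Finset.sum_congr rfl fun l' _ => ?_
        rw [← Finset.mul_sum, ← map_sum, Finset.sum_range_succ', DC.coeff_prim_zero, smul_zero,
          add_zero]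
        simp only [one_pow, one_smul]
      rw [map_sub, h3]
      simp only [map_sub, mul_sub, Finset.sum_sub_distrib]
      abel
    rw [h2, MvPolynomial.coeff_sub]
    refine sub_mem h1 ?_
    rw [MvPolynomial.coeff_sum]
    refine sum_mem fun l _ => ?_
    rw [MvPolynomial.coeff_sum]
    refine sum_mem fun l' _ => ?_
    rw [mul_comm, MvPolynomial.coeff_C_mul]
    exact Ideal.mul_mem_right _ _ (hK l l' _ (hKm l l'))
  -- the telescoping sequence
  let ζ : ℕ → Fin n → MvPolynomial (Fin n) A := fun q => match q with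
    | 0 => fun l' => - MvPolynomial.C (e l')
    | 1 => fun l => ∑ l', MvPolynomial.C (E l l') * MvPolynomial.X l'
    | (q + 2) => fun l => C1 X l (p.η (q + 2))
  have hζ : ∀ q l, (ζ q l).IsHomogeneous q := by
    intro q l
    rcases q with _ | _ | q
    · exact (MvPolynomial.isHomogeneous_C _ _).neg
    · refine MvPolynomial.IsHomogeneous.sum _ _ _ fun i _ => ?_
      have h1 := (MvPolynomial.isHomogeneous_C (Fin n) (E l i)).mul
        (MvPolynomial.isHomogeneous_X A i)
      rwa [zero_add] at h1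
    · exact (C1_hom X l (p.ηgr (q + 2) (by omega))).1
  have hrel : ∀ q, ∑ l, ζ q l * MvPolynomial.X l + ∑ l, ζ (q + 1) l * MvPolynomial.C (X.D l f) =
      0 := by
    intro q
    rcases q with _ | _ | q
    · change ∑ l, (- MvPolynomial.C (e l)) * MvPolynomial.X l +
        ∑ l, (∑ l', MvPolynomial.C (E l l') * MvPolynomial.X l') * MvPolynomial.C (X.D l f) = 0
      simp only [he, map_sum, map_mul, Finset.sum_mul, neg_mul, Finset.sum_neg_distrib]
      rw [neg_add_eq_zero, Finset.sum_comm]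
      refine Finset.sum_congr rfl fun l _ => Finset.sum_congr rfl fun l' _ => ?_
      ring
    · change ∑ l, (∑ l', MvPolynomial.C (E l l') * MvPolynomial.X l') * MvPolynomial.X l +
        ∑ l, C1 X l (p.η 2) * MvPolynomial.C (X.D l f) = 0
      rw [← hquad, C0_d, add_comm]
      congr 1
      · exact Finset.sum_congr rfl fun l _ => mul_comm _ _
      · refine Finset.sum_congr rfl fun l _ => ?_
        rw [Finset.sum_mul]
        refine Finset.sum_congr rfl fun l' _ => ?_
        ring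
    · change ∑ l, C1 X l (p.η (q + 2)) * MvPolynomial.X l +
        ∑ l, C1 X l (p.η (q + 3)) * MvPolynomial.C (X.D l f) = 0
      have h1 := congrArg (C0 X) (p.closed (q + 2) (by omega))
      rw [map_add, C0_δ, C0_d, map_zero] at h1
      rw [← h1]
      congr 1
      · exact Finset.sum_congr rfl fun l _ => mul_comm _ _
      · exact Finset.sum_congr rfl fun l _ => mul_comm _ _
  have hbd := DC.tele k hg ζ hζ hrel
  have hbd' : e ∈ DC.Bd (fun i => X.D i f) := by
    have h1 := neg_mem hbd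
    convert! h1 using 1
    ext l
    change e l = -(MvPolynomial.eval (fun i => X.D i f) (-MvPolynomial.C (e l)))
    rw [map_neg, neg_neg, MvPolynomial.eval_C]
  exact ⟨{
    H := p.h
    Θ := fun i l => p.t (X.x i) l
    rst := p.rst
    rstΘ := fun i l => p.rstt _ l
    init := fun a => by rw [p.coeff_h, p.start, κ0_a]
    vel := hvel
    hom := fun i => p.dt_h (X.x i)
    fin := fun a => p.fin a
    e := e
    val := hval
    bd := hbd' }⟩

end Path

/-- **The `dCrit` theorem.** A family `φ : 𝒰 × 𝔸¹ → 𝒰` of automorphisms of `(𝒰, f)` such that every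
member induces the identity on `dCrit(f)` with its `(-1)`-shifted symplectic structure has a Koszul
exact velocity field. -/
theorem m_DC [CharZero k] [IsNoetherianRing A] [IsAdicComplete I A] (X : Frame k A I n) {f : A}
    (hg : ∀ i, X.D i f ∈ I) (hcrit : ∃ N, I ^ N ≤ Ideal.span (Set.range fun i => X.D i f))
    (φ : A →ₐ[k] PowerSeries A) (hr : ∀ a N, ∃ M, ∀ m ≥ M, coeff m (φ a) ∈ I ^ N)
    (ψ : k → (A ≃ₐ[k] A)) (hv : ∀ t, IsValue I φ t (ψ t)) (hψf : ∀ t, ψ t f = f)
    (hp : ∀ t, Nonempty (SympPath X f (ψ t))) : ∃ Φ : FamilyF X f, Φ.φ = φ := by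
  obtain ⟨N0, hN0⟩ := hcrit
  refine DC.famF X hg hN0 φ hr (ψ := fun t => (ψ t).toAlgHom) (fun t a => ?_) hψf fun t => ?_
  · refine DC.val_of_lim (hr a) fun N => ?_
    obtain ⟨M, hM⟩ := hv t a N
    refine ⟨M, fun m hm => ?_⟩
    have h1 := neg_mem (hM m hm)
    rw [neg_sub] at h1
    convert! h1 using 2
    refine Finset.sum_congr rfl fun j _ => ?_
    rw [Algebra.smul_def, map_pow, mul_comm]
  · obtain ⟨p⟩ := hp t
    exact p.toPthF hg

end

end Pool.Agent.MFI
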