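import Pool.Agent.MFI.DF5

/-!
# Isotopy invariance of matrix factorizations (MP_c8c50b_ag), helper42

Checks on the definitions of `DFDef.lean`: `DR(K)` is a graded mixed cdga (`d² = 0`, `δ² = 0`,
`dδ + δd = 0`, both are odd derivations), `ω` is closed, the identity is joined to itself by the
constant path.
-/

set_option autoImplicit false

open scoped TensorProduct

namespace Pool.Agent.MFI

universe u

noncomputable section

variable {k : Type u} [Field k] {A : Type u} [CommRing A] [Algebra k A] {I : Ideal A} {n : ℕ}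

/-! ## the parity automorphism -/

lemma lsg_lsg (w : Lam k n) : lsg k n (lsg k n w) = w := by
  refine Lam_ind (P := fun w => lsg k n (lsg k n w) = w) ?_ ?_ ?_ w
  · intro r
    rw [AlgHom.commutes, AlgHom.commutes]
  · intro x y hx hy
    rw [map_add, map_add, hx, hy]
  · intro v x hx
    rw [map_mul, map_mul, lsg_ι, map_neg, lsg_ι, neg_neg, hx]

lemma lsg_lctr (i : Fin n) (w : Lam k n) : lsg k n (lctr k i w) = - lctr k i (lsg k n w) := by
  refine Lam_ind (P := fun w => lsg k n (lctr k i w) = - lctr k i (lsg k n w)) ?_ ?_ ?_ w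
  · intro r
    rw [AlgHom.commutes, Algebra.algebraMap_eq_smul_one, map_smul, lctr_one, smul_zero, map_zero,
      neg_zero]
  · intro x y hx hy
    rw [map_add, map_add, hx, hy, map_add, map_add, neg_add]
  · intro v x hx
    rw [lctr_ι_mul, map_sub, map_smul, map_mul, hx, map_mul, lsg_ι, neg_mul, neg_mul, map_neg,
      lctr_ι_mul]
    rw [mul_neg]
    abel

lemma drs_drs (w : DRa k A n) : drs k A n (drs k A n w) = w := by
  refine ten_ind (p := fun w => drs k A n (drs k A n w) = w) ?_ ?_ ?_ w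
  · rw [map_zero, map_zero]
  · intro x y hx hy
    rw [map_add, map_add, hx, hy]
  · intro a p w
    rw [drs_tmul, drs_tmul, lsg_lsg]

lemma drs_drd (X : Frame k A I n) (f : A) (w : DRa k A n) :
    drs k A n (drd X f w) = - drd X f (drs k A n w) := by
  refine ten_ind (p := fun w => drs k A n (drd X f w) = - drd X f (drs k A n w)) ?_ ?_ ?_ w
  · rw [map_zero, map_zero, map_zero, neg_zero]
  · intro x y hx hy
    rw [map_add, map_add, hx, hy, map_add, map_add]
    abel
  · intro a p w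
    rw [drs_tmul, drd_tmul, drd_tmul, map_sub, map_sum, map_sum, neg_sub', ← Finset.sum_neg_distrib,
      sub_neg_eq_add, sub_eq_add_neg, ← Finset.sum_neg_distrib]
    congr 1
    · refine Finset.sum_congr rfl fun i _ => ?_
      rw [drs_tmul, lsg_lctr, TensorProduct.tmul_neg, TensorProduct.tmul_neg]
    · refine Finset.sum_congr rfl fun i _ => ?_
      rw [map_sum, ← Finset.sum_neg_distrib]
      refine Finset.sum_congr rfl fun j _ => ?_
      rw [drs_tmul, map_mul, lsg_ξ, neg_mul, TensorProduct.tmul_neg, TensorProduct.tmul_neg,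
        neg_neg]

lemma drs_drδ (X : Frame k A I n) (w : DRa k A n) :
    drs k A n (drδ X w) = - drδ X (drs k A n w) := by
  refine ten_ind (p := fun w => drs k A n (drδ X w) = - drδ X (drs k A n w)) ?_ ?_ ?_ w
  · rw [map_zero, map_zero, map_zero, neg_zero]
  · intro x y hx hy
    rw [map_add, map_add, hx, hy, map_add, map_add]
    abel
  · intro a p w
    rw [drs_tmul, drδ_tmul, drδ_tmul, map_add, map_sum, map_sum, neg_add, ← Finset.sum_neg_distrib,
      ← Finset.sum_neg_distrib]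
    congr 1
    · refine Finset.sum_congr rfl fun i _ => ?_
      rw [drs_tmul, map_mul, lsg_ξ, neg_mul, TensorProduct.tmul_neg, TensorProduct.tmul_neg]
    · refine Finset.sum_congr rfl fun i _ => ?_
      rw [drs_tmul, lsg_lctr, TensorProduct.tmul_neg, TensorProduct.tmul_neg]

lemma drs_mem (X : Frame k A I n) {w : DRa k A n} (hw : w ∈ DRrel X) :
    drs k A n w ∈ DRrel X := by
  refine Submodule.span_induction (p := fun w _ => drs k A n w ∈ DRrel X) ?_ ?_ ?_ ?_ hw
  · rintro _ ⟨r, v, hr, rfl⟩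
    rw [map_mul]
    exact mul_mem_DRrel X (drs_rel X hr) _
  · rw [map_zero]
    exact zero_mem _
  · intro x y _ _ hx hy
    rw [map_add]
    exact add_mem hx hy
  · intro c x _ hx
    rw [smul_eq_mul, map_mul]
    exact Ideal.mul_mem_left _ _ hx

/-- the parity automorphism of `DR(K)` -/
def DR.sg (X : Frame k A I n) : DR X →ₗ[k] DR X :=
  DR.lift X ((DR.mk X).toLinearMap ∘ₗ (drs k A n).toLinearMap) fun _ hw =>
    (DR.mk_eq_zero X).2 (drs_mem X hw)

lemma DR.sg_mk (X : Frame k A I n) (w : DRa k A n) :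
    DR.sg X (DR.mk X w) = DR.mk X (drs k A n w) := rfl

lemma DR.sg_sg (X : Frame k A I n) (w : DR X) : DR.sg X (DR.sg X w) = w := by
  obtain ⟨w, rfl⟩ := DR.mk_surj X w
  rw [DR.sg_mk, DR.sg_mk, drs_drs]

lemma DR.d_mk [IsHausdorff I A] (X : Frame k A I n) (f : A) (w : DRa k A n) :
    DR.d X f (DR.mk X w) = DR.mk X (drd X f w) := rfl

lemma DR.δ_mk [CharZero k] [IsHausdorff I A] (X : Frame k A I n) (w : DRa k A n) :
    DR.δ X (DR.mk X w) = DR.mk X (drδ X w) := rfl

/-- `d` is an odd derivation -/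
lemma DR.d_mul [IsHausdorff I A] (X : Frame k A I n) (f : A) (u v : DR X) :
    DR.d X f (u * v) = DR.d X f u * v + DR.sg X u * DR.d X f v := by
  obtain ⟨u, rfl⟩ := DR.mk_surj X u
  obtain ⟨v, rfl⟩ := DR.mk_surj X v
  rw [← map_mul, DR.d_mk, drd_mul, map_add, map_mul, map_mul]
  rfl

/-- `δ` is an odd derivation -/
lemma DR.δ_mul [CharZero k] [IsHausdorff I A] (X : Frame k A I n) (u v : DR X) :
    DR.δ X (u * v) = DR.δ X u * v + DR.sg X u * DR.δ X v := by
  obtain ⟨u, rfl⟩ := DR.mk_surj X u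
  obtain ⟨v, rfl⟩ := DR.mk_surj X v
  rw [← map_mul, DR.δ_mk, drδ_mul, map_add, map_mul, map_mul]
  rfl

lemma DR.sg_d [IsHausdorff I A] (X : Frame k A I n) (f : A) (u : DR X) :
    DR.sg X (DR.d X f u) = - DR.d X f (DR.sg X u) := by
  obtain ⟨u, rfl⟩ := DR.mk_surj X u
  rw [DR.d_mk, DR.sg_mk, DR.sg_mk, DR.d_mk, drs_drd, map_neg]

lemma DR.sg_δ [CharZero k] [IsHausdorff I A] (X : Frame k A I n) (u : DR X) :
    DR.sg X (DR.δ X u) = - DR.δ X (DR.sg X u) := by
  obtain ⟨u, rfl⟩ := DR.mk_surj X u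
  rw [DR.δ_mk, DR.sg_mk, DR.sg_mk, DR.δ_mk, drs_drδ, map_neg]

/-! ## generators -/

lemma lι_eq (v : Fin n ⊕ Fin n → k) :
    lι k v = ∑ i, v (Sum.inl i) • lθ k i + ∑ i, v (Sum.inr i) • lξ k i := by
  have h1 : ∀ w : Fin n ⊕ Fin n → k, lι k w =
      (ExteriorAlgebra.ι k : (Fin n ⊕ Fin n → k) →ₗ[k] _) w := fun _ => rfl
  have h2 : v = ∑ j, v j • (Pi.single j 1 : Fin n ⊕ Fin n → k) := by
    ext j
    simp [Finset.sum_apply, Pi.single_apply]
  have h3 : lι k v = ∑ j, v j • lι k (Pi.single j 1) := by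
    conv_lhs => rw [h2, h1]
    exact (map_sum (ExteriorAlgebra.ι k : (Fin n ⊕ Fin n → k) →ₗ[k] _) _ _).trans
      (Finset.sum_congr rfl fun j _ => map_smul (ExteriorAlgebra.ι k) (v j) _)
  rw [h3, Fintype.sum_sum_type]
  rfl

/-- an induction principle: `DR(K)` is generated by `a, θ_i, ξ_i, y_i` -/
theorem DR.ind (X : Frame k A I n) {P : DR X → Prop} (hadd : ∀ u v, P u → P v → P (u + v))
    (hmul : ∀ u v, P u → P v → P (u * v)) (ha : ∀ a, P (DR.a X a)) (hθ : ∀ i, P (DR.θ X i))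
    (hξ : ∀ i, P (DR.ξ X i)) (hy : ∀ i, P (DR.y X i)) (w : DR X) : P w := by
  have h0 : P 0 := by
    have := ha 0
    rwa [DR.a_zero] at this
  have h1 : P 1 := by
    have := ha 1
    rwa [DR.a_one] at this
  have hr : ∀ r : k, P (r • (1 : DR X)) := fun r => by
    have := ha (algebraMap k A r)
    rwa [DR.a_algebraMap] at this
  have hs : ∀ (r : k) u, P u → P (r • u) := fun r u hu => by
    have := hmul _ _ (hr r) hu
    rwa [smul_mul_assoc, one_mul] at this
  have hsum : ∀ (s : Finset (Fin n)) (u : Fin n → DR X), (∀ i, P (u i)) → P (∑ i ∈ s, u i) := by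
    classical
    intro s u hu
    induction s using Finset.induction_on with
    | empty => rwa [Finset.sum_empty]
    | insert a s h ih => rw [Finset.sum_insert h]; exact hadd _ _ (hu a) ih
  obtain ⟨w, rfl⟩ := DR.mk_surj X w
  refine ten_ind (p := fun w => P (DR.mk X w)) ?_ ?_ ?_ w
  · rwa [map_zero]
  · intro x y hx hy
    rw [map_add]
    exact hadd _ _ hx hy
  · intro a p w
    have e1 : (a ⊗ₜ[k] (p ⊗ₜ[k] w) : DRa k A n) =
        dra k n a * (1 ⊗ₜ[k] (p ⊗ₜ[k] 1)) * (1 ⊗ₜ[k] (1 ⊗ₜ[k] w)) := by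
      rw [dra, Algebra.TensorProduct.tmul_mul_tmul, Algebra.TensorProduct.tmul_mul_tmul,
        Algebra.TensorProduct.tmul_mul_tmul, Algebra.TensorProduct.tmul_mul_tmul]
      simp only [mul_one, one_mul]
    rw [e1, map_mul, map_mul]
    refine hmul _ _ (hmul _ _ (ha a) ?_) ?_
    · let g : MvPolynomial (Fin n) k →ₐ[k] DR X := (DR.mk X).comp
        ((Algebra.TensorProduct.includeRight : (YPol k n ⊗[k] Lam k n) →ₐ[k] DRa k A n).comp
          (Algebra.TensorProduct.includeLeft : YPol k n →ₐ[k] (YPol k n ⊗[k] Lam k n)))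
      change P (g p)
      refine MvPolynomial.induction_on (motive := fun p => P (g p)) p ?_ ?_ ?_
      · intro r
        have h3 : g (MvPolynomial.C r) = r • (1 : DR X) := by
          rw [← MvPolynomial.algebraMap_eq, AlgHom.commutes, Algebra.algebraMap_eq_smul_one]
        rw [h3]
        exact hr r
      · intro p q hp hq
        rw [map_add]
        exact hadd _ _ hp hq
      · intro p i hp
        rw [map_mul]
        exact hmul _ _ hp (hy i)
    · refine Lam_ind (P := fun w => P (DR.mk X (1 ⊗ₜ[k] (1 ⊗ₜ[k] w)))) ?_ ?_ ?_ w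
      · intro r
        have h3 : (1 ⊗ₜ[k] ((1 : YPol k n) ⊗ₜ[k] algebraMap k (Lam k n) r) : DRa k A n) =
            r • (1 : DRa k A n) := by
          rw [Algebra.algebraMap_eq_smul_one, TensorProduct.tmul_smul, TensorProduct.tmul_smul]
          rfl
        rw [h3, map_smul, map_one]
        exact hr r
      · intro x y hx hy
        rw [TensorProduct.tmul_add, TensorProduct.tmul_add, map_add]
        exact hadd _ _ hx hy
      · intro v x hx
        have h3 : (1 ⊗ₜ[k] ((1 : YPol k n) ⊗ₜ[k] (lι k v * x)) : DRa k A n) =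
            (∑ i, v (Sum.inl i) • drθ k A i + ∑ i, v (Sum.inr i) • drξ k A i) *
              (1 ⊗ₜ[k] (1 ⊗ₜ[k] x)) := by
          have h4 : (∑ i, v (Sum.inl i) • drθ k A i + ∑ i, v (Sum.inr i) • drξ k A i :
              DRa k A n) = 1 ⊗ₜ[k] (1 ⊗ₜ[k] lι k v) := by
            rw [lι_eq, TensorProduct.tmul_add, TensorProduct.tmul_add, TensorProduct.tmul_sum,
              TensorProduct.tmul_sum, TensorProduct.tmul_sum, TensorProduct.tmul_sum]
            simp only [TensorProduct.tmul_smul]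
            rfl
          rw [h4, Algebra.TensorProduct.tmul_mul_tmul, Algebra.TensorProduct.tmul_mul_tmul,
            one_mul, one_mul]
        rw [h3, map_mul, map_add, map_sum, map_sum]
        refine hmul _ _ (hadd _ _ (hsum _ _ fun i => ?_) (hsum _ _ fun i => ?_)) hx
        · rw [map_smul]
          exact hs _ _ (hθ i)
        · rw [map_smul]
          exact hs _ _ (hξ i)

/-- an even derivation which vanishes on the generators is zero -/
lemma DR.der_zero (X : Frame k A I n) (E : DR X →ₗ[k] DR X)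
    (hE : ∀ u v, E (u * v) = E u * v + u * E v) (ha : ∀ a, E (DR.a X a) = 0)
    (hθ : ∀ i, E (DR.θ X i) = 0) (hξ : ∀ i, E (DR.ξ X i) = 0) (hy : ∀ i, E (DR.y X i) = 0)
    (w : DR X) : E w = 0 := by
  refine DR.ind X (P := fun w => E w = 0) ?_ ?_ ha hθ hξ hy w
  · intro u v hu hv
    rw [map_add, hu, hv, add_zero]
  · intro u v hu hv
    rw [hE, hu, hv, zero_mul, mul_zero, add_zero]

section Mixed

variable [CharZero k] [IsHausdorff I A] (X : Frame k A I n) (f : A)

omit [CharZero k] in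
lemma DR.d_ξ (i : Fin n) : DR.d X f (DR.ξ X i) = 0 := by
  change DR.mk X (drd X f (drξ k A i)) = 0
  rw [drd_ξ, map_zero]

lemma DR.d_y (i : Fin n) : DR.d X f (DR.y X i) = - DR.δ X (DR.a X (X.D i f)) := by
  change DR.mk X (drd X f (dry k A i)) = _
  rw [drd_y, map_neg]
  rfl

lemma DR.δ_ξ (i : Fin n) : DR.δ X (DR.ξ X i) = 0 := by
  change DR.mk X (drδ X (drξ k A i)) = 0
  rw [drδ_ξ, map_zero]

lemma DR.δ_y (i : Fin n) : DR.δ X (DR.y X i) = 0 := by
  change DR.mk X (drδ X (dry k A i)) = 0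
  rw [drδ_y, map_zero]

lemma DR.δ_a (a : A) : DR.δ X (DR.a X a) = ∑ j, DR.a X (X.D j a) * DR.ξ X j := by
  change DR.mk X (drδ X (dra k n a)) = _
  rw [drδ_dra, map_sum]
  exact Finset.sum_congr rfl fun j _ => map_mul _ _ _

lemma DR.δδ_a (a : A) : DR.δ X (DR.δ X (DR.a X a)) = 0 :=
  (DR.mk_eq_zero X).2 (drδδ_mem X a)

lemma DR.dδ_a (a : A) : DR.d X f (DR.δ X (DR.a X a)) = 0 := by
  change DR.mk X (drd X f (drδ X (dra k n a))) = 0
  rw [drd_drδ_dra, map_zero]

/-- `d² = 0` -/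
theorem DR.d_d (w : DR X) : DR.d X f (DR.d X f w) = 0 := by
  refine DR.der_zero X (DR.d X f ∘ₗ DR.d X f) ?_ ?_ ?_ ?_ ?_ w
  · intro u v
    simp only [LinearMap.comp_apply]
    rw [DR.d_mul, map_add, DR.d_mul, DR.d_mul, DR.sg_d, DR.sg_sg]
    rw [neg_mul]
    abel
  · intro a
    rw [LinearMap.comp_apply, DR.d_a, map_zero]
  · intro i
    rw [LinearMap.comp_apply, DR.d_θ, DR.d_a]
  · intro i
    rw [LinearMap.comp_apply, DR.d_ξ, map_zero]
  · intro i
    rw [LinearMap.comp_apply, DR.d_y, map_neg, DR.dδ_a, neg_zero]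

/-- `δ² = 0` -/
theorem DR.δ_δ (w : DR X) : DR.δ X (DR.δ X w) = 0 := by
  refine DR.der_zero X (DR.δ X ∘ₗ DR.δ X) ?_ ?_ ?_ ?_ ?_ w
  · intro u v
    simp only [LinearMap.comp_apply]
    rw [DR.δ_mul, map_add, DR.δ_mul, DR.δ_mul, DR.sg_δ, DR.sg_sg]
    rw [neg_mul]
    abel
  · intro a
    exact DR.δδ_a X a
  · intro i
    rw [LinearMap.comp_apply, DR.δ_θ, DR.δ_y]
  · intro i
    rw [LinearMap.comp_apply, DR.δ_ξ, map_zero]
  · intro i
    rw [LinearMap.comp_apply, DR.δ_y, map_zero]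

/-- `dδ + δd = 0` -/
theorem DR.d_δ (w : DR X) : DR.d X f (DR.δ X w) + DR.δ X (DR.d X f w) = 0 := by
  refine DR.der_zero X (DR.d X f ∘ₗ DR.δ X + DR.δ X ∘ₗ DR.d X f) ?_ ?_ ?_ ?_ ?_ w
  · intro u v
    simp only [LinearMap.add_apply, LinearMap.comp_apply]
    rw [DR.δ_mul, DR.d_mul, map_add, map_add, DR.d_mul, DR.d_mul, DR.δ_mul, DR.δ_mul, DR.sg_d,
      DR.sg_δ, DR.sg_sg]
    rw [neg_mul, neg_mul, add_mul, mul_add]
    abel
  · intro a
    rw [LinearMap.add_apply, LinearMap.comp_apply, LinearMap.comp_apply, DR.d_a, map_zero,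
      DR.dδ_a, add_zero]
  · intro i
    rw [LinearMap.add_apply, LinearMap.comp_apply, LinearMap.comp_apply, DR.δ_θ, DR.d_θ, DR.d_y,
      neg_add_cancel]
  · intro i
    rw [LinearMap.add_apply, LinearMap.comp_apply, LinearMap.comp_apply, DR.δ_ξ, DR.d_ξ, map_zero,
      map_zero, add_zero]
  · intro i
    rw [LinearMap.add_apply, LinearMap.comp_apply, LinearMap.comp_apply, DR.δ_y, DR.d_y, map_zero,
      map_neg, DR.δδ_a, neg_zero, add_zero]

omit [CharZero k] [IsHausdorff I A] in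
lemma DR.sg_y (i : Fin n) : DR.sg X (DR.y X i) = DR.y X i := by
  rw [DR.y, DR.sg_mk, drs_y]

/-- `δ ω = 0` -/
theorem DR.δ_ω : DR.δ X (DR.ω X) = 0 := by
  rw [DR.ω, map_sum]
  refine Finset.sum_eq_zero fun i _ => ?_
  rw [DR.δ_mul, DR.δ_y, DR.δ_ξ, zero_mul, mul_zero, add_zero]

/-- `ω = δ λ` for the Liouville form `λ = Σ_i θ_i ξ_i` -/
theorem DR.ω_eq : DR.ω X = DR.δ X (∑ i, DR.θ X i * DR.ξ X i) := by
  rw [DR.ω, map_sum]
  refine Finset.sum_congr rfl fun i _ => ?_
  rw [DR.δ_mul, DR.δ_θ, DR.δ_ξ, mul_zero, add_zero]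

/-- `d λ = δ f` -/
theorem DR.d_liouville : DR.d X f (∑ i, DR.θ X i * DR.ξ X i) = DR.δ X (DR.a X f) := by
  rw [map_sum, DR.δ_a]
  refine Finset.sum_congr rfl fun i _ => ?_
  rw [DR.d_mul, DR.d_θ, DR.d_ξ, mul_zero, add_zero]

/-- `d ω = 0` -/
theorem DR.d_ω : DR.d X f (DR.ω X) = 0 := by
  have h := DR.d_δ X f (∑ i, DR.θ X i * DR.ξ X i)
  rw [← DR.ω_eq, DR.d_liouville, DR.δδ_a, add_zero] at h
  exact h

omit [CharZero k] [IsHausdorff I A] in
lemma sum_refl (u : DR X) {m : ℕ} (hm : m ≥ 1) : ∑ j ∈ Finset.range m, (1 : k) •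
    ((if j = 0 then LinearMap.id else 0 : DR X →ₗ[k] DR X) u) = u := by
  rw [Finset.sum_eq_single 0]
  · rw [if_pos rfl, one_smul]
    rfl
  · intro j _ hj
    rw [if_neg hj, LinearMap.zero_apply, smul_zero]
  · intro h
    exact absurd (Finset.mem_range.2 hm) h

/-- the constant path -/
def SympPath.refl : SympPath X f AlgEquiv.refl where
  H m := if m = 0 then LinearMap.id else 0
  Θ _ := 0
  Hrst w N := ⟨1, fun m hm => by
    rw [if_neg (by omega)]
    exact zero_mem _⟩
  Θrst w N := ⟨0, fun m _ => zero_mem _⟩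
  Hgr m p q w hw := by
    split_ifs
    · exact hw
    · exact zero_mem _
  Θgr m p q w _ := zero_mem _
  Hone := ⟨rfl, fun m => by rw [if_neg (Nat.succ_ne_zero m)]; rfl⟩
  Hmul m v w := by
    rcases m with _ | m
    · simp
    · rw [if_neg (Nat.succ_ne_zero m)]
      symm
      refine Finset.sum_eq_zero fun j hj => ?_
      by_cases h : j = 0
      · subst h
        rw [if_neg (c := m + 1 - 0 = 0) (by omega)]
        simp
      · rw [if_neg h]
        simp
  Θmul m p q v _ w := by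
    symm
    refine Finset.sum_eq_zero fun j _ => ?_
    simp
  Hd m w := by
    split_ifs
    · rfl
    · simp
  Θd m w := by
    rw [if_neg (Nat.succ_ne_zero m)]
    simp
  Hδ m w := by
    split_ifs
    · rfl
    · simp
  Θδ m w := by simp
  start w := rfl
  stop a N := ⟨1, fun m hm => by
    change DR.a X a - ∑ j ∈ Finset.range m, (1 : k) •
      ((if j = 0 then LinearMap.id else 0 : DR X →ₗ[k] DR X) (DR.a X a)) ∈ _
    rw [sum_refl X _ hm, sub_self]
    exact zero_mem _⟩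
  stopθ i N := ⟨1, fun m hm => by
    have h1 : ∑ j, DR.a X (X.D i (X.x j)) * DR.θ X j = DR.θ X i := by
      have h2 := (DR.mk_eq_zero X).2 (rel1_mem X i)
      rw [rel1, map_sub, map_sum, sub_eq_zero] at h2
      rw [DR.θ, h2]
      exact Finset.sum_congr rfl fun j _ => (map_mul _ _ _).symm
    change ∑ j, DR.a X (X.D i (X.x j)) * DR.θ X j - ∑ j ∈ Finset.range m, (1 : k) •
      ((if j = 0 then LinearMap.id else 0 : DR X →ₗ[k] DR X) (DR.θ X i)) ∈ _
    rw [sum_refl X _ hm, h1, sub_self]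
    exact zero_mem _⟩
  η _ := 0
  ηgr p _ := zero_mem _
  loop N := ⟨0, fun m _ => by
    simp⟩
  closed p _ := by simp

end Mixed

end

end Pool.Agent.MFI
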