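import Pool.Agent.MFI.Frm

/-!
# Isotopy invariance of matrix factorizations (MP_c8c50b_ag), helper42

The free graded commutative algebra `DRa k A n = A ⊗ k[y_1, …, y_n] ⊗ Λ(θ_1, …, θ_n, ξ_1, …, ξ_n)`,
with the operators `d` and `δ`.
-/

set_option autoImplicit false

open scoped TensorProduct

namespace Pool.Agent.MFI

universe u

noncomputable section

/-- The exterior algebra over `k` on `θ_1, …, θ_n` (left summand), `ξ_1, …, ξ_n` (right summand). -/
def Lam (k : Type u) [Field k] (n : ℕ) : Type u := ExteriorAlgebra k (Fin n ⊕ Fin n → k)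

instance (k : Type u) [Field k] (n : ℕ) : Ring (Lam k n) :=
  inferInstanceAs (Ring (ExteriorAlgebra k (Fin n ⊕ Fin n → k)))

instance (k : Type u) [Field k] (n : ℕ) : Algebra k (Lam k n) :=
  inferInstanceAs (Algebra k (ExteriorAlgebra k (Fin n ⊕ Fin n → k)))

/-- The polynomial algebra `k[y_1, …, y_n]`. -/
def YPol (k : Type u) [Field k] (n : ℕ) : Type u := MvPolynomial (Fin n) k

instance (k : Type u) [Field k] (n : ℕ) : CommRing (YPol k n) :=
  inferInstanceAs (CommRing (MvPolynomial (Fin n) k))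

instance (k : Type u) [Field k] (n : ℕ) : Algebra k (YPol k n) :=
  inferInstanceAs (Algebra k (MvPolynomial (Fin n) k))

/-- The algebra `A ⊗ k[y_1, …, y_n] ⊗ Λ(θ_1, …, θ_n, ξ_1, …, ξ_n)`: the free graded commutative
`A`-algebra on `θ_i, ξ_i` (odd) and `y_i` (even). -/
abbrev DRa (k : Type u) [Field k] (A : Type u) [CommRing A] [Algebra k A] (n : ℕ) : Type u :=
  A ⊗[k] (YPol k n ⊗[k] Lam k n)

section Lam

variable {k : Type u} [Field k] {n : ℕ}

variable (k) in
/-- A generator of the exterior algebra. -/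
def lι (v : Fin n ⊕ Fin n → k) : Lam k n := ExteriorAlgebra.ι k v

variable (k) in
/-- The generator `θ_i`. -/
def lθ (i : Fin n) : Lam k n := lι k (Pi.single (Sum.inl i) 1)

variable (k) in
/-- The generator `ξ_i`. -/
def lξ (i : Fin n) : Lam k n := lι k (Pi.single (Sum.inr i) 1)

variable (k) in
/-- The odd derivation `∂/∂θ_i` of the exterior algebra. -/
def lctr (i : Fin n) : Lam k n →ₗ[k] Lam k n :=
  CliffordAlgebra.contractLeft (Q := (0 : QuadraticForm k (Fin n ⊕ Fin n → k)))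
    (LinearMap.proj (Sum.inl i))

variable (k n) in
/-- The parity automorphism of the exterior algebra. -/
def lsg : Lam k n →ₐ[k] Lam k n :=
  CliffordAlgebra.involute (Q := (0 : QuadraticForm k (Fin n ⊕ Fin n → k)))

lemma lctr_ι_mul (l : Fin n) (v : Fin n ⊕ Fin n → k) (w : Lam k n) :
    lctr k l (lι k v * w) = v (Sum.inl l) • w - lι k v * lctr k l w :=
  CliffordAlgebra.contractLeft_ι_mul
    (Q := (0 : QuadraticForm k (Fin n ⊕ Fin n → k))) (LinearMap.proj (Sum.inl l)) v w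

lemma lctr_one (l : Fin n) : lctr k l (1 : Lam k n) = 0 :=
  CliffordAlgebra.contractLeft_one
    (0 : QuadraticForm k (Fin n ⊕ Fin n → k)) (LinearMap.proj (Sum.inl l))

lemma lctr_ι (l : Fin n) (v : Fin n ⊕ Fin n → k) :
    lctr k l (lι k v) = algebraMap k _ (v (Sum.inl l)) :=
  CliffordAlgebra.contractLeft_ι
    (0 : QuadraticForm k (Fin n ⊕ Fin n → k)) (LinearMap.proj (Sum.inl l)) v

lemma lsg_ι (v : Fin n ⊕ Fin n → k) : lsg k n (lι k v) = - lι k v :=
  CliffordAlgebra.involute_ι (Q := (0 : QuadraticForm k (Fin n ⊕ Fin n → k))) v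

lemma lι_sq (v : Fin n ⊕ Fin n → k) : lι k v * lι k v = 0 :=
  ExteriorAlgebra.ι_sq_zero v

lemma lι_add (v w : Fin n ⊕ Fin n → k) : lι k (v + w) = lι k v + lι k w :=
  map_add (ExteriorAlgebra.ι k) v w

lemma lι_swap (v w : Fin n ⊕ Fin n → k) : lι k v * lι k w = - (lι k w * lι k v) := by
  have h := lι_sq (v + w)
  rw [lι_add, add_mul, mul_add, mul_add, lι_sq, lι_sq, zero_add, add_zero] at h
  exact eq_neg_of_add_eq_zero_left h

/-- induction -/
lemma Lam_ind {P : Lam k n → Prop} (h0 : ∀ r : k, P (algebraMap k _ r))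
    (hadd : ∀ x y, P x → P y → P (x + y)) (h : ∀ v x, P x → P (lι k v * x)) (x : Lam k n) :
    P x :=
  CliffordAlgebra.left_induction (Q := (0 : QuadraticForm k (Fin n ⊕ Fin n → k)))
    (P := P) h0 hadd (fun x v hx => h v x hx) x

lemma lι_mul (v : Fin n ⊕ Fin n → k) (w : Lam k n) : lι k v * w = lsg k n w * lι k v := by
  refine Lam_ind (P := fun w => lι k v * w = lsg k n w * lι k v) ?_ ?_ ?_ w
  · intro r
    rw [AlgHom.commutes, Algebra.commutes]
  · intro x y hx hy
    rw [mul_add, hx, hy, map_add, add_mul]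
  · intro m x hx
    rw [← mul_assoc, lι_swap, map_mul, lsg_ι, mul_assoc (-lι k m), ← hx]
    rw [neg_mul, neg_mul, mul_assoc]

lemma lctr_mul (l : Fin n) (w z : Lam k n) :
    lctr k l (w * z) = lctr k l w * z + lsg k n w * lctr k l z := by
  refine Lam_ind (P := fun w => lctr k l (w * z) = lctr k l w * z + lsg k n w * lctr k l z)
    ?_ ?_ ?_ w
  · intro r
    have h1 : lctr k l (algebraMap k (Lam k n) r) = 0 := by
      rw [Algebra.algebraMap_eq_smul_one, map_smul, lctr_one, smul_zero]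
    rw [h1, zero_mul, zero_add, AlgHom.commutes, ← Algebra.smul_def, ← Algebra.smul_def, map_smul]
  · intro x y hx hy
    rw [add_mul, map_add, hx, hy, map_add, map_add, add_mul, add_mul]
    abel
  · intro m x hx
    rw [mul_assoc, lctr_ι_mul, hx, lctr_ι_mul, map_mul, lsg_ι, sub_mul, smul_mul_assoc, mul_add]
    rw [neg_mul, neg_mul, mul_assoc, mul_assoc]
    abel

lemma lctr_θ (l i : Fin n) : lctr k l (lθ k i) = if l = i then 1 else 0 := by
  rw [lθ, lctr_ι]
  by_cases h : l = i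
  · subst h
    rw [Pi.single_eq_same, map_one, if_pos rfl]
  · rw [if_neg h, Pi.single_apply, if_neg (by simpa using h), map_zero]

lemma lctr_ξ (l i : Fin n) : lctr k l (lξ k i) = 0 := by
  rw [lξ, lctr_ι, Pi.single_apply, if_neg (by simp), map_zero]

end Lam

/-! ## generic Leibniz rules -/

section Gen

variable {k : Type u} [Field k] {A : Type u} [CommRing A] [Algebra k A] {P L : Type u}
  [CommRing P] [Algebra k P] [Ring L] [Algebra k L]

/-- induction for triple tensor products -/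
lemma ten_ind {p : A ⊗[k] (P ⊗[k] L) → Prop} (h0 : p 0) (hadd : ∀ x y, p x → p y → p (x + y))
    (h : ∀ a b c, p (a ⊗ₜ (b ⊗ₜ c))) (x : A ⊗[k] (P ⊗[k] L)) : p x := by
  induction x using TensorProduct.induction_on with
  | zero => exact h0
  | tmul a s =>
    induction s using TensorProduct.induction_on with
    | zero => rw [TensorProduct.tmul_zero]; exact h0
    | tmul b c => exact h a b c
    | add s t hs ht => rw [TensorProduct.tmul_add]; exact hadd _ _ hs ht
  | add x y hx hy => exact hadd _ _ hx hy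

/-- the parity automorphism -/
def tsg (σ : L →ₐ[k] L) : A ⊗[k] (P ⊗[k] L) →ₐ[k] A ⊗[k] (P ⊗[k] L) :=
  Algebra.TensorProduct.map (AlgHom.id k A) (Algebra.TensorProduct.map (AlgHom.id k P) σ)

lemma tsg_tmul (σ : L →ₐ[k] L) (a : A) (b : P) (c : L) :
    tsg σ (a ⊗ₜ (b ⊗ₜ c)) = a ⊗ₜ (b ⊗ₜ σ c) := rfl

/-- odd derivations -/
def Leib (σ : L →ₐ[k] L) (T : A ⊗[k] (P ⊗[k] L) →ₗ[k] A ⊗[k] (P ⊗[k] L)) : Prop :=
  ∀ u v, T (u * v) = T u * v + tsg σ u * T v

lemma Leib.add {σ : L →ₐ[k] L} {S T : A ⊗[k] (P ⊗[k] L) →ₗ[k] A ⊗[k] (P ⊗[k] L)}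
    (hS : Leib σ S) (hT : Leib σ T) : Leib σ (S + T) := fun u v => by
  rw [LinearMap.add_apply, LinearMap.add_apply, LinearMap.add_apply, hS, hT, add_mul, mul_add]
  abel

lemma Leib.sub {σ : L →ₐ[k] L} {S T : A ⊗[k] (P ⊗[k] L) →ₗ[k] A ⊗[k] (P ⊗[k] L)}
    (hS : Leib σ S) (hT : Leib σ T) : Leib σ (S - T) := fun u v => by
  rw [LinearMap.sub_apply, LinearMap.sub_apply, LinearMap.sub_apply, hS, hT, sub_mul, mul_sub]
  abel

lemma Leib.sum {σ : L →ₐ[k] L} {ι : Type*} (s : Finset ι)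
    {T : ι → A ⊗[k] (P ⊗[k] L) →ₗ[k] A ⊗[k] (P ⊗[k] L)} (hT : ∀ i ∈ s, Leib σ (T i)) :
    Leib σ (∑ i ∈ s, T i) := fun u v => by
  rw [LinearMap.sum_apply, LinearMap.sum_apply, LinearMap.sum_apply, Finset.sum_mul,
    Finset.mul_sum, ← Finset.sum_add_distrib]
  exact Finset.sum_congr rfl fun i hi => hT i hi u v

lemma leib_of {σ : L →ₐ[k] L} (α : A →ₗ[k] A) (π : P →ₗ[k] P) (lam : L →ₗ[k] L)
    (h : ∀ a a' b b' c c', α (a * a') ⊗ₜ[k] (π (b * b') ⊗ₜ[k] lam (c * c')) =
      (α a * a') ⊗ₜ[k] ((π b * b') ⊗ₜ[k] (lam c * c')) +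
      (a * α a') ⊗ₜ[k] ((b * π b') ⊗ₜ[k] (σ c * lam c'))) :
    Leib σ (TensorProduct.map α (TensorProduct.map π lam)) := by
  intro u v
  refine ten_ind (p := fun u => TensorProduct.map α (TensorProduct.map π lam) (u * v) =
    TensorProduct.map α (TensorProduct.map π lam) u * v +
      tsg σ u * TensorProduct.map α (TensorProduct.map π lam) v) ?_ ?_ ?_ u
  · simp only [zero_mul, map_zero, add_zero]
  · intro x y hx hy
    simp only [add_mul, map_add, hx, hy]
    abel
  · intro a b c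
    refine ten_ind (p := fun v => TensorProduct.map α (TensorProduct.map π lam)
      (a ⊗ₜ (b ⊗ₜ c) * v) = TensorProduct.map α (TensorProduct.map π lam) (a ⊗ₜ (b ⊗ₜ c)) * v +
      tsg σ (a ⊗ₜ (b ⊗ₜ c)) * TensorProduct.map α (TensorProduct.map π lam) v) ?_ ?_ ?_ v
    · simp only [mul_zero, map_zero, add_zero]
    · intro x y hx hy
      simp only [mul_add, map_add, hx, hy]
      abel
    · intro a' b' c'
      rw [Algebra.TensorProduct.tmul_mul_tmul, Algebra.TensorProduct.tmul_mul_tmul,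
        TensorProduct.map_tmul, TensorProduct.map_tmul, TensorProduct.map_tmul,
        TensorProduct.map_tmul, TensorProduct.map_tmul, TensorProduct.map_tmul, tsg_tmul,
        Algebra.TensorProduct.tmul_mul_tmul, Algebra.TensorProduct.tmul_mul_tmul,
        Algebra.TensorProduct.tmul_mul_tmul, Algebra.TensorProduct.tmul_mul_tmul]
      exact h a a' b b' c c'

/-- type 1: `α ⊗ π` multiplication, `λ` an odd derivation -/
lemma leib_one {σ : L →ₐ[k] L} (α : A →ₗ[k] A) (π : P →ₗ[k] P) (lam : L →ₗ[k] L)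
    (hα : ∀ a a', α (a * a') = α a * a') (hπ : ∀ b b', π (b * b') = π b * b')
    (hlam : ∀ c c', lam (c * c') = lam c * c' + σ c * lam c') :
    Leib σ (TensorProduct.map α (TensorProduct.map π lam)) := by
  refine leib_of α π lam fun a a' b b' c c' => ?_
  rw [hα, hπ, hlam, TensorProduct.tmul_add, TensorProduct.tmul_add]
  congr 2
  · rw [← hα, mul_comm, hα, mul_comm]
  · congr 1
    rw [← hπ, mul_comm, hπ, mul_comm]

end Gen

end

end Pool.Agent.MFI
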