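import Pool.Agent.MFI.DFa

/-!
# Isotopy invariance of matrix factorizations (MP_c8c50b_ag), helper42

The algebra of differential forms on the Koszul algebra of a function on an affine smooth formal
scheme.

`𝒰 = Spf A` is an affine smooth formal scheme over `k` with a frame: functions `x_1, …, x_n` and
derivations `D_1, …, D_n` with `da = Σ_j D_j(a) dx_j`; `e_ij = D_i(x_j)` is an idempotent matrix,
`D_i = Σ_j e_ij D_j` and `dx_j = Σ_i e_ij dx_i`. Let `f ∈ A`.

* The derived critical locus `dCrit(f)` is the spectrum of the Koszul cdga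
  `K = Sym_A(T[1]) = A[θ_1, …, θ_n]/(θ_i - Σ_j e_ij θ_j)`, with `θ_i` (the derivation `D_i`) of
  cohomological degree `-1`, `d θ_i = D_i f`.
* The graded mixed cdga `DR(K)` of differential forms on `K` is the quotient of the free graded
  commutative `A`-algebra `DRa k A n` on `θ_i`, `ξ_i = δ x_i`, `y_i = δ θ_i` by the relations
  `θ_i = Σ_j e_ij θ_j`, `ξ_j = Σ_i e_ij ξ_i` and `y_i = Σ_j (e_ij y_j + δ(e_ij) θ_j)`.
-/

set_option autoImplicit false

open scoped TensorProduct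

namespace Pool.Agent.MFI

universe u

noncomputable section

section Elements

variable (k : Type u) [Field k] {A : Type u} [CommRing A] [Algebra k A]

/-- A function `a ∈ A` as an element of the free algebra. -/
def dra (n : ℕ) (a : A) : DRa k A n := a ⊗ₜ (1 ⊗ₜ 1)

/-- `θ_i` as an element of the free algebra. -/
def drθ (A : Type u) [CommRing A] [Algebra k A] {n : ℕ} (i : Fin n) : DRa k A n :=
  1 ⊗ₜ (1 ⊗ₜ lθ k i)

/-- `ξ_i = δ x_i` as an element of the free algebra. -/
def drξ (A : Type u) [CommRing A] [Algebra k A] {n : ℕ} (i : Fin n) : DRa k A n :=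
  1 ⊗ₜ (1 ⊗ₜ lξ k i)

/-- the variable `y_i` -/
def yX {n : ℕ} (i : Fin n) : YPol k n := (MvPolynomial.X i : MvPolynomial (Fin n) k)

/-- `y_i = δ θ_i` as an element of the free algebra. -/
def dry (A : Type u) [CommRing A] [Algebra k A] {n : ℕ} (i : Fin n) : DRa k A n :=
  1 ⊗ₜ (yX k i ⊗ₜ 1)

/-- the derivation `∂/∂y_i` of `k[y_1, …, y_n]` -/
def ypd {n : ℕ} (i : Fin n) : YPol k n →ₗ[k] YPol k n :=
  (MvPolynomial.pderiv i : Derivation k (MvPolynomial (Fin n) k) (MvPolynomial (Fin n) k)).toLinearMap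

end Elements

section Ops

variable {k : Type u} [Field k] {A : Type u} [CommRing A] [Algebra k A] {I : Ideal A} {n : ℕ}

/-- The differential: `d a = 0`, `d θ_i = D_i f`, `d ξ_i = 0`,
`d y_i = - δ(D_i f) = - Σ_j D_j D_i f ξ_j`. -/
def drd (X : Frame k A I n) (f : A) : DRa k A n →ₗ[k] DRa k A n :=
  (∑ i, TensorProduct.map (LinearMap.mulLeft k (X.D i f)) (TensorProduct.map LinearMap.id
    (lctr k i))) -
  ∑ i, ∑ j, TensorProduct.map (LinearMap.mulLeft k (X.D j (X.D i f)))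
    (TensorProduct.map (ypd k i) (LinearMap.mulLeft k (lξ k j)))

/-- The de Rham differential: `δ a = Σ_j D_j a ξ_j`, `δ θ_i = y_i`, `δ ξ_i = 0`, `δ y_i = 0`. -/
def drδ (X : Frame k A I n) : DRa k A n →ₗ[k] DRa k A n :=
  (∑ j, TensorProduct.map (X.D j).toLinearMap (TensorProduct.map LinearMap.id
    (LinearMap.mulLeft k (lξ k j)))) +
  ∑ i, TensorProduct.map LinearMap.id (TensorProduct.map
    (LinearMap.mulLeft k (yX k i)) (lctr k i))

lemma mvpd_mul (i : Fin n) (p q : MvPolynomial (Fin n) k) :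
    MvPolynomial.pderiv i (p * q) = MvPolynomial.pderiv i p * q + p * MvPolynomial.pderiv i q := by
  rw [Derivation.leibniz, smul_eq_mul, smul_eq_mul]
  ring

lemma mvpd_X (i j : Fin n) : MvPolynomial.pderiv i (MvPolynomial.X j : MvPolynomial (Fin n) k) =
    if i = j then 1 else 0 := by
  rw [MvPolynomial.pderiv_X, Pi.single_apply]
  by_cases h : i = j
  · rw [if_pos h, if_pos h.symm]
  · rw [if_neg h, if_neg (Ne.symm h)]

lemma ypd_mul (i : Fin n) (p q : YPol k n) : ypd k i (p * q) = ypd k i p * q + p * ypd k i q :=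
  mvpd_mul i p q

lemma ypd_one (i : Fin n) : ypd k i (1 : YPol k n) = 0 :=
  Derivation.map_one_eq_zero
    (MvPolynomial.pderiv i : Derivation k (MvPolynomial (Fin n) k) (MvPolynomial (Fin n) k))

lemma ypd_yX (i j : Fin n) : ypd k i (yX k j) = if i = j then 1 else 0 :=
  mvpd_X i j

/-- the parity automorphism of the free algebra -/
def drs (k : Type u) [Field k] (A : Type u) [CommRing A] [Algebra k A] (n : ℕ) :
    DRa k A n →ₐ[k] DRa k A n := tsg (lsg k n)

lemma leib_two (α : A →ₗ[k] A) (π : YPol k n →ₗ[k] YPol k n) (j : Fin n)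
    (h : ∀ a a' b b' (c : Lam k n), α (a * a') ⊗ₜ[k] (π (b * b') ⊗ₜ[k] c) =
      (α a * a') ⊗ₜ[k] ((π b * b') ⊗ₜ[k] c) + (a * α a') ⊗ₜ[k] ((b * π b') ⊗ₜ[k] c)) :
    Leib (lsg k n) (TensorProduct.map α (TensorProduct.map π (LinearMap.mulLeft k (lξ k j)))) := by
  refine leib_of α π _ fun a a' b b' c c' => ?_
  rw [LinearMap.mulLeft_apply, LinearMap.mulLeft_apply, LinearMap.mulLeft_apply, h]
  congr 1
  · rw [mul_assoc]
  · rw [← mul_assoc, lξ, lι_mul, mul_assoc]

lemma drd_leib (X : Frame k A I n) (f : A) : Leib (lsg k n) (drd X f) := by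
  refine (Leib.sum _ fun i _ => leib_one _ _ _ (fun a a' => ?_) (fun b b' => rfl)
    (lctr_mul i)).sub (Leib.sum _ fun i _ => Leib.sum _ fun j _ => leib_two _ _ j
    fun a a' b b' c => ?_)
  · rw [LinearMap.mulLeft_apply, LinearMap.mulLeft_apply, mul_assoc]
  · rw [LinearMap.mulLeft_apply, LinearMap.mulLeft_apply, LinearMap.mulLeft_apply, ypd_mul,
      TensorProduct.add_tmul, TensorProduct.tmul_add]
    congr 2
    · rw [mul_assoc]
    · ring

lemma drδ_leib (X : Frame k A I n) : Leib (lsg k n) (drδ X) := by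
  refine (Leib.sum _ fun j _ => leib_two _ _ j fun a a' b b' c => ?_).add
    (Leib.sum _ fun i _ => leib_one _ _ _ (fun a a' => rfl) (fun b b' => ?_) (lctr_mul i))
  · have h1 : (X.D j).toLinearMap (a * a') =
        (X.D j).toLinearMap a * a' + a * (X.D j).toLinearMap a' := by
      change X.D j (a * a') = X.D j a * a' + a * X.D j a'
      rw [Derivation.leibniz, smul_eq_mul, smul_eq_mul]
      ring
    rw [h1, TensorProduct.add_tmul]
    rfl
  · rw [LinearMap.mulLeft_apply, LinearMap.mulLeft_apply, mul_assoc]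

lemma drd_mul (X : Frame k A I n) (f : A) (u v : DRa k A n) :
    drd X f (u * v) = drd X f u * v + drs k A n u * drd X f v := drd_leib X f u v

lemma drδ_mul (X : Frame k A I n) (u v : DRa k A n) :
    drδ X (u * v) = drδ X u * v + drs k A n u * drδ X v := drδ_leib X u v

/-! values on generators -/

lemma drs_tmul (a : A) (p : YPol k n) (w : Lam k n) :
    drs k A n (a ⊗ₜ (p ⊗ₜ w)) = a ⊗ₜ (p ⊗ₜ lsg k n w) := rfl

lemma drd_tmul (X : Frame k A I n) (f : A) (a : A) (p : YPol k n) (w : Lam k n) :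
    drd X f (a ⊗ₜ (p ⊗ₜ w)) = (∑ i, (X.D i f * a) ⊗ₜ[k] (p ⊗ₜ[k] lctr k i w)) -
      ∑ i, ∑ j, (X.D j (X.D i f) * a) ⊗ₜ[k] (ypd k i p ⊗ₜ[k] (lξ k j * w)) := by
  rw [drd, LinearMap.sub_apply, LinearMap.sum_apply, LinearMap.sum_apply]
  simp only [LinearMap.sum_apply]
  rfl

lemma drδ_tmul (X : Frame k A I n) (a : A) (p : YPol k n) (w : Lam k n) :
    drδ X (a ⊗ₜ (p ⊗ₜ w)) = (∑ j, (X.D j a) ⊗ₜ[k] (p ⊗ₜ[k] (lξ k j * w))) +
      ∑ i, a ⊗ₜ[k] ((yX k i * p) ⊗ₜ[k] lctr k i w) := by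
  rw [drδ, LinearMap.add_apply, LinearMap.sum_apply, LinearMap.sum_apply]
  rfl

lemma dmul_neg (u v : DRa k A n) : u * -v = -(u * v) := mul_neg u v

lemma dneg_mul (u v : DRa k A n) : -u * v = -(u * v) := neg_mul u v

lemma dmul_sub (u v w : DRa k A n) : u * (v - w) = u * v - u * w := mul_sub u v w

lemma dra_mul (a b : A) : dra k n (a * b) = dra k n a * dra k n b := by
  rw [dra, dra, dra, Algebra.TensorProduct.tmul_mul_tmul, Algebra.TensorProduct.tmul_mul_tmul,
    mul_one, mul_one]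

lemma dra_add (a b : A) : dra k n (a + b) = dra k n a + dra k n b := TensorProduct.add_tmul _ _ _

lemma dra_zero : dra k n (0 : A) = 0 := TensorProduct.zero_tmul _ _

lemma dra_one : dra k n (1 : A) = 1 := rfl

lemma dra_sum {ι : Type*} (s : Finset ι) (a : ι → A) :
    dra k n (∑ i ∈ s, a i) = ∑ i ∈ s, dra k n (a i) := TensorProduct.sum_tmul _ _ _

lemma dra_neg (a : A) : dra k n (-a) = -dra k n a := TensorProduct.neg_tmul _ _

lemma dra_sub (a b : A) : dra k n (a - b) = dra k n a - dra k n b := TensorProduct.sub_tmul _ _ _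

/-- functions are central -/
lemma dra_comm (a : A) (w : DRa k A n) : dra k n a * w = w * dra k n a := by
  refine ten_ind (p := fun w => dra k n a * w = w * dra k n a) ?_ ?_ ?_ w
  · rw [mul_zero, zero_mul]
  · intro x y hx hy
    rw [mul_add, add_mul, hx, hy]
  · intro b p c
    rw [dra, Algebra.TensorProduct.tmul_mul_tmul, Algebra.TensorProduct.tmul_mul_tmul,
      Algebra.TensorProduct.tmul_mul_tmul, Algebra.TensorProduct.tmul_mul_tmul, one_mul, one_mul,
      mul_one, mul_one, mul_comm]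

lemma drs_dra (a : A) : drs k A n (dra k n a) = dra k n a := by
  rw [dra, drs_tmul, map_one]

lemma lsg_θ (i : Fin n) : lsg k n (lθ k i) = - lθ k i := lsg_ι _

lemma lsg_ξ (i : Fin n) : lsg k n (lξ k i) = - lξ k i := lsg_ι _

lemma drs_θ (i : Fin n) : drs k A n (drθ k A i) = - drθ k A i := by
  rw [drθ, drs_tmul, lsg_θ, TensorProduct.tmul_neg, TensorProduct.tmul_neg]

lemma drs_ξ (i : Fin n) : drs k A n (drξ k A i) = - drξ k A i := by
  rw [drξ, drs_tmul, lsg_ξ, TensorProduct.tmul_neg, TensorProduct.tmul_neg]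

lemma drs_y (i : Fin n) : drs k A n (dry k A i) = dry k A i := by
  rw [dry, drs_tmul, map_one]

lemma drδ_dra (X : Frame k A I n) (a : A) :
    drδ X (dra k n a) = ∑ j, dra k n (X.D j a) * drξ k A j := by
  rw [dra, drδ_tmul]
  have h1 : ∑ i : Fin n, a ⊗ₜ[k] ((yX k i * 1) ⊗ₜ[k] lctr k i (1 : Lam k n)) = 0 :=
    Finset.sum_eq_zero fun i _ => by
      rw [lctr_one, TensorProduct.tmul_zero, TensorProduct.tmul_zero]
  rw [h1, add_zero]
  refine Finset.sum_congr rfl fun j _ => ?_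
  rw [dra, drξ, Algebra.TensorProduct.tmul_mul_tmul, Algebra.TensorProduct.tmul_mul_tmul, mul_one,
    mul_one, mul_one, one_mul]

lemma drδ_θ (X : Frame k A I n) (i : Fin n) : drδ X (drθ k A i) = dry k A i := by
  rw [drθ, drδ_tmul]
  have h1 : ∑ j : Fin n, X.D j 1 ⊗ₜ[k] ((1 : YPol k n) ⊗ₜ[k] (lξ k j * lθ k i)) = 0 :=
    Finset.sum_eq_zero fun j _ => by
      rw [Derivation.map_one_eq_zero, TensorProduct.zero_tmul]
  rw [h1, zero_add, Finset.sum_eq_single i]
  · rw [lctr_θ, if_pos rfl, mul_one]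
    rfl
  · intro l _ hl
    rw [lctr_θ, if_neg hl, TensorProduct.tmul_zero, TensorProduct.tmul_zero]
  · intro h
    exact absurd (Finset.mem_univ i) h

lemma drδ_ξ (X : Frame k A I n) (i : Fin n) : drδ X (drξ k A i) = 0 := by
  rw [drξ, drδ_tmul]
  have h1 : ∑ j : Fin n, X.D j 1 ⊗ₜ[k] ((1 : YPol k n) ⊗ₜ[k] (lξ k j * lξ k i)) = 0 :=
    Finset.sum_eq_zero fun j _ => by
      rw [Derivation.map_one_eq_zero, TensorProduct.zero_tmul]
  rw [h1, zero_add]
  refine Finset.sum_eq_zero fun l _ => ?_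
  rw [lctr_ξ, TensorProduct.tmul_zero, TensorProduct.tmul_zero]

lemma drδ_y (X : Frame k A I n) (i : Fin n) : drδ X (dry k A i) = 0 := by
  rw [dry, drδ_tmul]
  have h1 : ∑ j : Fin n, X.D j 1 ⊗ₜ[k] (yX k i ⊗ₜ[k] (lξ k j * 1)) = 0 :=
    Finset.sum_eq_zero fun j _ => by
      rw [Derivation.map_one_eq_zero, TensorProduct.zero_tmul]
  rw [h1, zero_add]
  refine Finset.sum_eq_zero fun l _ => ?_
  rw [lctr_one, TensorProduct.tmul_zero, TensorProduct.tmul_zero]

lemma drd_dra (X : Frame k A I n) (f a : A) : drd X f (dra k n a) = 0 := by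
  rw [dra, drd_tmul]
  have h1 : ∑ i : Fin n, (X.D i f * a) ⊗ₜ[k] ((1 : YPol k n) ⊗ₜ[k] lctr k i 1) = 0 :=
    Finset.sum_eq_zero fun i _ => by
      rw [lctr_one, TensorProduct.tmul_zero, TensorProduct.tmul_zero]
  rw [h1, zero_sub, neg_eq_zero]
  refine Finset.sum_eq_zero fun i _ => Finset.sum_eq_zero fun j _ => ?_
  rw [ypd_one, TensorProduct.zero_tmul, TensorProduct.tmul_zero]

lemma drd_θ (X : Frame k A I n) (f : A) (i : Fin n) :
    drd X f (drθ k A i) = dra k n (X.D i f) := by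
  rw [drθ, drd_tmul]
  have h1 : ∑ l : Fin n, ∑ j : Fin n, (X.D j (X.D l f) * 1) ⊗ₜ[k]
      (ypd k l (1 : YPol k n) ⊗ₜ[k] (lξ k j * lθ k i)) = 0 :=
    Finset.sum_eq_zero fun l _ => Finset.sum_eq_zero fun j _ => by
      rw [ypd_one, TensorProduct.zero_tmul, TensorProduct.tmul_zero]
  rw [h1, sub_zero, Finset.sum_eq_single i]
  · rw [lctr_θ, if_pos rfl, mul_one]
    rfl
  · intro l _ hl
    rw [lctr_θ, if_neg hl, TensorProduct.tmul_zero, TensorProduct.tmul_zero]
  · intro h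
    exact absurd (Finset.mem_univ i) h

lemma drd_ξ (X : Frame k A I n) (f : A) (i : Fin n) : drd X f (drξ k A i) = 0 := by
  rw [drξ, drd_tmul]
  have h1 : ∑ l : Fin n, ∑ j : Fin n, (X.D j (X.D l f) * 1) ⊗ₜ[k]
      (ypd k l (1 : YPol k n) ⊗ₜ[k] (lξ k j * lξ k i)) = 0 :=
    Finset.sum_eq_zero fun l _ => Finset.sum_eq_zero fun j _ => by
      rw [ypd_one, TensorProduct.zero_tmul, TensorProduct.tmul_zero]
  rw [h1, sub_zero]
  refine Finset.sum_eq_zero fun l _ => ?_
  rw [lctr_ξ, TensorProduct.tmul_zero, TensorProduct.tmul_zero]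

lemma drd_y (X : Frame k A I n) (f : A) (i : Fin n) :
    drd X f (dry k A i) = - drδ X (dra k n (X.D i f)) := by
  rw [dry, drd_tmul, drδ_dra]
  have h1 : ∑ l : Fin n, (X.D l f * 1) ⊗ₜ[k] (yX k i ⊗ₜ[k] lctr k l 1) = 0 :=
    Finset.sum_eq_zero fun l _ => by
      rw [lctr_one, TensorProduct.tmul_zero, TensorProduct.tmul_zero]
  rw [h1, zero_sub, neg_inj, Finset.sum_eq_single i]
  · refine Finset.sum_congr rfl fun j _ => ?_
    rw [ypd_yX, if_pos rfl, dra, drξ, Algebra.TensorProduct.tmul_mul_tmul,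
      Algebra.TensorProduct.tmul_mul_tmul, mul_one, mul_one, mul_one, one_mul]
  · intro l _ hl
    refine Finset.sum_eq_zero fun j _ => ?_
    rw [ypd_yX, if_neg hl, TensorProduct.zero_tmul, TensorProduct.tmul_zero]
  · intro h
    exact absurd (Finset.mem_univ i) h

lemma drξ_swap (i j : Fin n) : drξ k A i * drξ k A j = - (drξ k A j * drξ k A i) := by
  rw [drξ, drξ, Algebra.TensorProduct.tmul_mul_tmul, Algebra.TensorProduct.tmul_mul_tmul,
    Algebra.TensorProduct.tmul_mul_tmul, Algebra.TensorProduct.tmul_mul_tmul, lξ, lξ, lι_swap,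
    TensorProduct.tmul_neg, TensorProduct.tmul_neg]

end Ops

end

end Pool.Agent.MFI
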