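import Pool.Agent.MFI.DFSan

/-!
# Isotopy invariance of matrix factorizations (MP_c8c50b_ag), helper42

The universal property of `DR X`.
-/

set_option autoImplicit false

open scoped TensorProduct

namespace Pool.Agent.MFI

universe u

noncomputable section

section Lift

variable {k : Type u} [Field k] [CharZero k] {A : Type u} [CommRing A] [Algebra k A] {n : ℕ}
  {R : Type u} [Ring R] [Algebra k R]

omit [CharZero k] in
lemma odd_sq_aux (g : Fin n ⊕ Fin n → R) (v : Fin n ⊕ Fin n → k) :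
    Fintype.linearCombination k g v * Fintype.linearCombination k g v =
      ∑ s, ∑ t, (v s * v t) • (g s * g t) := by
  rw [Fintype.linearCombination_apply, Finset.sum_mul_sum]
  refine Finset.sum_congr rfl fun s _ => Finset.sum_congr rfl fun t _ => ?_
  rw [smul_mul_smul_comm]

lemma odd_sq (g : Fin n ⊕ Fin n → R) (hg : ∀ s t, g s * g t = -(g t * g s))
    (v : Fin n ⊕ Fin n → k) :
    Fintype.linearCombination k g v * Fintype.linearCombination k g v = 0 := by
  have h1 := odd_sq_aux g v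
  have h2 : ∑ s, ∑ t, (v s * v t) • (g s * g t) = - ∑ s, ∑ t, (v s * v t) • (g s * g t) := by
    nth_rewrite 1 [Finset.sum_comm]
    rw [← Finset.sum_neg_distrib]
    refine Finset.sum_congr rfl fun t _ => ?_
    rw [← Finset.sum_neg_distrib]
    refine Finset.sum_congr rfl fun s _ => ?_
    rw [hg s t, smul_neg, mul_comm]
  have h3 : (2 : k) • ∑ s, ∑ t, (v s * v t) • (g s * g t) = 0 := by
    rw [two_smul]
    nth_rewrite 1 [h2]
    exact neg_add_cancel _
  rw [h1]
  exact (smul_eq_zero.1 h3).resolve_left two_ne_zero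

/-- The homomorphism defined by the odd generators. -/
def lamLift (g : Fin n ⊕ Fin n → R) (hg : ∀ s t, g s * g t = -(g t * g s)) : Lam k n →ₐ[k] R :=
  (ExteriorAlgebra.lift k ⟨Fintype.linearCombination k g, odd_sq g hg⟩ :
    ExteriorAlgebra k (Fin n ⊕ Fin n → k) →ₐ[k] R)

lemma lamLift_ι (g : Fin n ⊕ Fin n → R) (hg : ∀ s t, g s * g t = -(g t * g s))
    (v : Fin n ⊕ Fin n → k) : lamLift g hg (lι k v) = ∑ s, v s • g s := by
  have h := ExteriorAlgebra.lift_ι_apply k (Fintype.linearCombination k g) (odd_sq g hg) v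
  rw [← Fintype.linearCombination_apply]
  exact h

lemma lamLift_single (g : Fin n ⊕ Fin n → R) (hg : ∀ s t, g s * g t = -(g t * g s))
    (s : Fin n ⊕ Fin n) : lamLift g hg (lι k (Pi.single s 1)) = g s := by
  rw [lamLift_ι, Finset.sum_eq_single s]
  · rw [Pi.single_eq_same, one_smul]
  · intro t _ h
    rw [Pi.single_eq_of_ne h, zero_smul]
  · intro h
    exact absurd (Finset.mem_univ s) h

lemma lamLift_comm (g : Fin n ⊕ Fin n → R) (hg : ∀ s t, g s * g t = -(g t * g s)) (z : R)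
    (hz : ∀ s, z * g s = g s * z) (w : Lam k n) : Commute z (lamLift g hg w) := by
  refine Lam_ind (P := fun w => Commute z (lamLift g hg w)) ?_ ?_ ?_ w
  · intro r
    rw [AlgHom.commutes]
    exact (Algebra.commutes r z).symm
  · intro x y hx hy
    rw [map_add]
    exact hx.add_right hy
  · intro v x hx
    rw [map_mul, lamLift_ι]
    refine Commute.mul_right ?_ hx
    refine Commute.sum_right _ _ _ fun s _ => ?_
    exact Commute.smul_right (hz s) _

omit [CharZero k] in
/-- The homomorphism defined by the commuting elements `y`. -/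
lemma exists_yLift (y : Fin n → R) (hy : ∀ i j, y i * y j = y j * y i) :
    ∃ φ : YPol k n →ₐ[k] R, ∀ i, φ (yX k i) = y i := by
  let S := Algebra.adjoin k (Set.range y)
  let _i : CommRing S := Algebra.adjoinCommRingOfComm k (s := Set.range y) (by
    rintro _ ⟨i, rfl⟩ _ ⟨j, rfl⟩
    exact hy i j)
  let ψ : MvPolynomial (Fin n) k →ₐ[k] S :=
    MvPolynomial.aeval (fun i => (⟨y i, Algebra.subset_adjoin ⟨i, rfl⟩⟩ : S))
  refine ⟨(S.val.comp ψ : MvPolynomial (Fin n) k →ₐ[k] R), fun i => ?_⟩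
  change ((ψ (MvPolynomial.X i) : S) : R) = y i
  rw [MvPolynomial.aeval_X]

omit [CharZero k] in
lemma yLift_comm (φ : YPol k n →ₐ[k] R) (z : R) (hz : ∀ i, Commute z (φ (yX k i)))
    (p : YPol k n) : Commute z (φ p) := by
  have h : ∀ q : MvPolynomial (Fin n) k, Commute z (φ q) := by
    intro q
    induction q using MvPolynomial.induction_on with
    | C r =>
      have : φ (MvPolynomial.C r : MvPolynomial (Fin n) k) = algebraMap k R r := φ.commutes r
      rw [this]
      exact (Algebra.commutes r z).symm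
    | add p q hp hq =>
      have : φ (p + q : MvPolynomial (Fin n) k) = φ p + φ q := map_add φ _ _
      rw [this]
      exact hp.add_right hq
    | mul_X p i hp =>
      have : φ (p * MvPolynomial.X i : MvPolynomial (Fin n) k) = φ p * φ (yX k i) :=
        map_mul φ _ _
      rw [this]
      exact hp.mul_right (hz i)
  exact h p

/-- The universal property of the free algebra. -/
theorem exists_dra_lift (α : A →ₐ[k] R) (θ ξ y : Fin n → R)
    (aθ : ∀ b i, α b * θ i = θ i * α b) (aξ : ∀ b i, α b * ξ i = ξ i * α b)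
    (ay : ∀ b i, α b * y i = y i * α b)
    (θθ : ∀ i j, θ i * θ j = -(θ j * θ i)) (ξξ : ∀ i j, ξ i * ξ j = -(ξ j * ξ i))
    (θξ : ∀ i j, θ i * ξ j = -(ξ j * θ i)) (yθ : ∀ i j, y i * θ j = θ j * y i)
    (yξ : ∀ i j, y i * ξ j = ξ j * y i) (yy : ∀ i j, y i * y j = y j * y i) :
    ∃ Φ : DRa k A n →ₐ[k] R, (∀ a, Φ (dra k n a) = α a) ∧ (∀ i, Φ (drθ k A i) = θ i) ∧
      (∀ i, Φ (drξ k A i) = ξ i) ∧ ∀ i, Φ (dry k A i) = y i := by
  let g : Fin n ⊕ Fin n → R := Sum.elim θ ξ
  have hg : ∀ s t, g s * g t = -(g t * g s) := by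
    rintro (i | i) (j | j)
    · exact θθ i j
    · exact θξ i j
    · change ξ i * θ j = -(θ j * ξ i)
      rw [θξ j i, neg_neg]
    · exact ξξ i j
  obtain ⟨φ, hφ⟩ := exists_yLift (k := k) y yy
  have h1 : ∀ (p : YPol k n) (w : Lam k n), Commute (φ p) (lamLift g hg w) := by
    intro p w
    refine lamLift_comm g hg (φ p) (fun s => ?_) w
    refine (yLift_comm φ (g s) (fun i => ?_) p).symm
    rw [hφ]
    rcases s with j | j
    · exact (yθ i j).symm
    · exact (yξ i j).symm
  let Φ₁ : YPol k n ⊗[k] Lam k n →ₐ[k] R := Algebra.TensorProduct.lift φ (lamLift g hg) h1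
  have h2 : ∀ (a : A) (u : YPol k n ⊗[k] Lam k n), Commute (α a) (Φ₁ u) := by
    intro a u
    induction u using TensorProduct.induction_on with
    | zero => rw [map_zero]; exact Commute.zero_right _
    | tmul p w =>
      rw [Algebra.TensorProduct.lift_tmul]
      refine Commute.mul_right (yLift_comm φ (α a) (fun i => ?_) p)
        (lamLift_comm g hg (α a) (fun s => ?_) w)
      · rw [hφ]
        exact ay a i
      · rcases s with j | j
        · exact aθ a j
        · exact aξ a j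
    | add x y hx hy => rw [map_add]; exact hx.add_right hy
  refine ⟨Algebra.TensorProduct.lift α Φ₁ h2, ?_, ?_, ?_, ?_⟩
  · intro a
    rw [dra, Algebra.TensorProduct.lift_tmul, Algebra.TensorProduct.lift_tmul, map_one, map_one,
      mul_one, mul_one]
  · intro i
    rw [drθ, Algebra.TensorProduct.lift_tmul, Algebra.TensorProduct.lift_tmul, map_one, map_one,
      one_mul, one_mul, lθ, lamLift_single]
    rfl
  · intro i
    rw [drξ, Algebra.TensorProduct.lift_tmul, Algebra.TensorProduct.lift_tmul, map_one, map_one,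
      one_mul, one_mul, lξ, lamLift_single]
    rfl
  · intro i
    rw [dry, Algebra.TensorProduct.lift_tmul, Algebra.TensorProduct.lift_tmul, map_one, map_one,
      one_mul, mul_one, hφ]

end Lift

section LiftDR

variable {k : Type u} [Field k] [CharZero k] {A : Type u} [CommRing A] [Algebra k A]
  {I : Ideal A} {n : ℕ} {R : Type u} [Ring R] [Algebra k R]

/-- The universal property of `DR X`: existence. -/
theorem exists_DR_lift (X : Frame k A I n) (α : A →ₐ[k] R) (θ ξ y : Fin n → R)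
    (aθ : ∀ b i, α b * θ i = θ i * α b) (aξ : ∀ b i, α b * ξ i = ξ i * α b)
    (ay : ∀ b i, α b * y i = y i * α b)
    (θθ : ∀ i j, θ i * θ j = -(θ j * θ i)) (ξξ : ∀ i j, ξ i * ξ j = -(ξ j * ξ i))
    (θξ : ∀ i j, θ i * ξ j = -(ξ j * θ i)) (yθ : ∀ i j, y i * θ j = θ j * y i)
    (yξ : ∀ i j, y i * ξ j = ξ j * y i) (yy : ∀ i j, y i * y j = y j * y i)
    (r1 : ∀ i, θ i = ∑ j, α (X.D i (X.x j)) * θ j)
    (r2 : ∀ j, ξ j = ∑ i, α (X.D i (X.x j)) * ξ i)
    (r3 : ∀ i, y i = ∑ j, (α (X.D i (X.x j)) * y j +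
      (∑ l, α (X.D l (X.D i (X.x j))) * ξ l) * θ j)) :
    ∃ Φ : DR X →ₐ[k] R, (∀ a, Φ (DR.a X a) = α a) ∧ (∀ i, Φ (DR.θ X i) = θ i) ∧
      (∀ i, Φ (DR.ξ X i) = ξ i) ∧ ∀ i, Φ (DR.y X i) = y i := by
  obtain ⟨Φ, ha, hθ, hξ, hy⟩ := exists_dra_lift α θ ξ y aθ aξ ay θθ ξξ θξ yθ yξ yy
  have hr : ∀ r, (∃ i, r = rel1 X i ∨ r = rel2 X i ∨ r = rel3 X i) → Φ r = 0 := by
    rintro r ⟨i, rfl | rfl | rfl⟩
    · rw [rel1, map_sub, map_sum, hθ, sub_eq_zero, r1 i]
      refine Finset.sum_congr rfl fun j _ => ?_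
      rw [map_mul, ha, hθ]
    · rw [rel2, map_sub, map_sum, hξ, sub_eq_zero, r2 i]
      refine Finset.sum_congr rfl fun j _ => ?_
      rw [map_mul, ha, hξ]
    · rw [rel3, map_sub, map_sum, hy, sub_eq_zero, r3 i]
      refine Finset.sum_congr rfl fun j _ => ?_
      rw [map_add, map_mul, map_mul, ha, hy, hθ, drδ_dra, map_sum]
      congr 2
      refine Finset.sum_congr rfl fun l _ => ?_
      rw [map_mul, ha, hξ]
  have h0 : ∀ w ∈ DRrel X, Φ w = 0 := by
    intro w hw
    refine Submodule.span_induction (p := fun w _ => Φ w = 0) ?_ ?_ ?_ ?_ hw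
    · rintro _ ⟨r, u, h, rfl⟩
      rw [map_mul, hr r h, zero_mul]
    · exact map_zero _
    · intro x z _ _ hx hz
      rw [map_add, hx, hz, add_zero]
    · intro c x _ hx
      rw [smul_eq_mul, map_mul, hx, mul_zero]
  let Ψ : DR X →ₐ[k] R := (Ideal.Quotient.liftₐ (DRrel X) Φ h0 : (DRa k A n ⧸ DRrel X) →ₐ[k] R)
  have hΨ : ∀ w, Ψ (DR.mk X w) = Φ w := fun w => rfl
  exact ⟨Ψ, fun a => (hΨ _).trans (ha a), fun i => (hΨ _).trans (hθ i),
    fun i => (hΨ _).trans (hξ i), fun i => (hΨ _).trans (hy i)⟩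

omit [CharZero k] in
/-- The universal property of `DR X`: uniqueness. -/
theorem DR_hom_ext (X : Frame k A I n) {Φ Ψ : DR X →ₐ[k] R} (ha : ∀ a, Φ (DR.a X a) = Ψ (DR.a X a))
    (hθ : ∀ i, Φ (DR.θ X i) = Ψ (DR.θ X i)) (hξ : ∀ i, Φ (DR.ξ X i) = Ψ (DR.ξ X i))
    (hy : ∀ i, Φ (DR.y X i) = Ψ (DR.y X i)) : Φ = Ψ := by
  ext w
  refine DR.ind X (P := fun w => Φ w = Ψ w) ?_ ?_ ha hθ hξ hy w
  · intro u v hu hv
    rw [map_add, map_add, hu, hv]
  · intro u v hu hv
    rw [map_mul, map_mul, hu, hv]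

end LiftDR

end

end Pool.Agent.MFI
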