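import Pool.Agent.MFI.PubDR
import Pool.Agent.MFI.DU1

/-!
# Isotopy invariance of matrix factorizations (MP_c8c50b_ag), helper42

Every model of the graded mixed cdga `DR(K)` is isomorphic to `DR X`, and a symplectic path in a
model gives a symplectic path in `DR X`.
-/

set_option autoImplicit false

open scoped TensorProduct

namespace Pool.Agent.MFI

universe u

noncomputable section

section Own

variable {k : Type u} [Field k] {A : Type u} [CommRing A] [Algebra k A] {I : Ideal A} {n : ℕ}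

lemma drθ_swap (i j : Fin n) : drθ k A i * drθ k A j = - (drθ k A j * drθ k A i) := by
  rw [drθ, drθ, Algebra.TensorProduct.tmul_mul_tmul, Algebra.TensorProduct.tmul_mul_tmul,
    Algebra.TensorProduct.tmul_mul_tmul, Algebra.TensorProduct.tmul_mul_tmul, lθ, lθ, lι_swap,
    TensorProduct.tmul_neg, TensorProduct.tmul_neg]

lemma drθξ_swap (i j : Fin n) : drθ k A i * drξ k A j = - (drξ k A j * drθ k A i) := by
  rw [drθ, drξ, Algebra.TensorProduct.tmul_mul_tmul, Algebra.TensorProduct.tmul_mul_tmul,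
    Algebra.TensorProduct.tmul_mul_tmul, Algebra.TensorProduct.tmul_mul_tmul, lθ, lξ, lι_swap,
    TensorProduct.tmul_neg, TensorProduct.tmul_neg]

lemma dry_comm (i : Fin n) (w : DRa k A n) : dry k A i * w = w * dry k A i := by
  refine ten_ind (p := fun w => dry k A i * w = w * dry k A i) ?_ ?_ ?_ w
  · rw [mul_zero, zero_mul]
  · intro x y hx hy
    rw [mul_add, add_mul, hx, hy]
  · intro b p c
    rw [dry, Algebra.TensorProduct.tmul_mul_tmul, Algebra.TensorProduct.tmul_mul_tmul,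
      Algebra.TensorProduct.tmul_mul_tmul, Algebra.TensorProduct.tmul_mul_tmul, one_mul, one_mul,
      mul_one, mul_one, mul_comm]

/-- The generators of `DR X`. -/
def DR.elt (X : Frame k A I n) : DRElt k A n (DR X) where
  a := DR.a X
  a_mul := DR.a_mul X
  a_add := DR.a_add X
  a_alg r := by rw [DR.a_algebraMap, Algebra.algebraMap_eq_smul_one]
  θ := DR.θ X
  ξ := DR.ξ X
  y := DR.y X

lemma DR.elt_rel [CharZero k] [IsHausdorff I A] (X : Frame k A I n) : (DR.elt X).Rel X where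
  a_comm b w := by
    obtain ⟨w, rfl⟩ := DR.mk_surj X w
    change DR.mk X (dra k n b) * DR.mk X w = DR.mk X w * DR.mk X (dra k n b)
    rw [← map_mul, ← map_mul, dra_comm]
  y_comm i w := by
    obtain ⟨w, rfl⟩ := DR.mk_surj X w
    change DR.mk X (dry k A i) * DR.mk X w = DR.mk X w * DR.mk X (dry k A i)
    rw [← map_mul, ← map_mul, dry_comm]
  θ_θ i j := by
    change DR.mk X (drθ k A i) * DR.mk X (drθ k A j) =
      -(DR.mk X (drθ k A j) * DR.mk X (drθ k A i))
    rw [← map_mul, ← map_mul, ← map_neg, drθ_swap]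
  θ_ξ i j := by
    change DR.mk X (drθ k A i) * DR.mk X (drξ k A j) =
      -(DR.mk X (drξ k A j) * DR.mk X (drθ k A i))
    rw [← map_mul, ← map_mul, ← map_neg, drθξ_swap]
  ξ_ξ i j := by
    change DR.mk X (drξ k A i) * DR.mk X (drξ k A j) =
      -(DR.mk X (drξ k A j) * DR.mk X (drξ k A i))
    rw [← map_mul, ← map_mul, ← map_neg, drξ_swap]
  rel_θ i := by
    have h := (DR.mk_eq_zero X).2 (rel1_mem X i)
    rw [rel1, map_sub, map_sum, sub_eq_zero] at h
    refine h.trans (Finset.sum_congr rfl fun j _ => ?_)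
    rw [map_mul]
    rfl
  rel_ξ j := by
    have h := (DR.mk_eq_zero X).2 (rel2_mem X j)
    rw [rel2, map_sub, map_sum, sub_eq_zero] at h
    refine h.trans (Finset.sum_congr rfl fun i _ => ?_)
    rw [map_mul]
    rfl
  rel_y i := by
    have h := (DR.mk_eq_zero X).2 (rel3_mem X i)
    rw [rel3, map_sub, map_sum, sub_eq_zero] at h
    refine h.trans (Finset.sum_congr rfl fun j _ => ?_)
    rw [map_add, map_mul, map_mul, drδ_dra, map_sum]
    congr 2

/-- `A → R` as a homomorphism of algebras -/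
def DRElt.hom {R : Type u} [Ring R] [Algebra k R] (g : DRElt k A n R) : A →ₐ[k] R where
  toFun := g.a
  map_one' := by
    have := g.a_alg 1
    rwa [map_one, map_one] at this
  map_mul' := g.a_mul
  map_zero' := by
    have := g.a_alg 0
    rwa [map_zero, map_zero] at this
  map_add' := g.a_add
  commutes' := g.a_alg

end Own

section Equiv

variable {k : Type u} [Field k] [CharZero k] {A : Type u} [CommRing A] [Algebra k A]
  {I : Ideal A} [IsHausdorff I A] {n : ℕ} {X : Frame k A I n}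

/-- Every model of the algebra `DR(K)` is isomorphic to `DR X`. -/
theorem DRAlg.exists_equiv (M : DRAlg X) : ∃ E : M.R ≃ₐ[k] DR X, M.g.Maps (DR.elt X) E := by
  obtain ⟨F, hF, -⟩ := M.univ (DR X) (DR.elt X) (DR.elt_rel X)
  obtain ⟨Φ, ha, hθ, hξ, hy⟩ := exists_DR_lift X M.g.hom M.g.θ M.g.ξ M.g.y
    (fun b i => M.rel.a_comm b _) (fun b i => M.rel.a_comm b _) (fun b i => M.rel.a_comm b _)
    M.rel.θ_θ M.rel.ξ_ξ M.rel.θ_ξ (fun i j => M.rel.y_comm i _) (fun i j => M.rel.y_comm i _)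
    (fun i j => M.rel.y_comm i _) M.rel.rel_θ M.rel.rel_ξ M.rel.rel_y
  have h1 : F.comp Φ = AlgHom.id k (DR X) := by
    refine DR_hom_ext X (fun a => ?_) (fun i => ?_) (fun i => ?_) (fun i => ?_)
    · rw [AlgHom.comp_apply, ha]
      exact hF.1 a
    · rw [AlgHom.comp_apply, hθ]
      exact hF.2.1 i
    · rw [AlgHom.comp_apply, hξ]
      exact hF.2.2.1 i
    · rw [AlgHom.comp_apply, hy]
      exact hF.2.2.2 i
  have h2 : Φ.comp F = AlgHom.id k M.R := by
    obtain ⟨G, _, hG⟩ := M.univ M.R M.g M.rel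
    rw [hG (Φ.comp F) ⟨fun b => ?_, fun i => ?_, fun i => ?_, fun i => ?_⟩,
      hG (AlgHom.id k M.R) ⟨fun b => rfl, fun i => rfl, fun i => rfl, fun i => rfl⟩]
    · rw [AlgHom.comp_apply, hF.1]
      exact ha b
    · rw [AlgHom.comp_apply, hF.2.1]
      exact hθ i
    · rw [AlgHom.comp_apply, hF.2.2.1]
      exact hξ i
    · rw [AlgHom.comp_apply, hF.2.2.2]
      exact hy i
  exact ⟨AlgEquiv.ofAlgHom F Φ h1 h2, hF⟩

omit [CharZero k] [IsHausdorff I A] in
lemma DRAlg.map_mon (M : DRAlg X) {E : M.R ≃ₐ[k] DR X} (hE : M.g.Maps (DR.elt X) E) (b : A)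
    (i j l : List (Fin n)) : E (M.mon b i j l) =
      DR.a X b * (i.map (DR.θ X)).prod * (j.map (DR.ξ X)).prod * (l.map (DR.y X)).prod := by
  have hθ : (E ∘ M.g.θ) = DR.θ X := funext hE.2.1
  have hξ : (E ∘ M.g.ξ) = DR.ξ X := funext hE.2.2.1
  have hy : (E ∘ M.g.y) = DR.y X := funext hE.2.2.2
  rw [DRAlg.mon, map_mul, map_mul, map_mul, map_list_prod, map_list_prod, map_list_prod,
    List.map_map, List.map_map, List.map_map, hθ, hξ, hy]
  congr 3
  exact hE.1 b

omit [CharZero k] [IsHausdorff I A] in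
lemma DRAlg.smul_mon (M : DRAlg X) (r : k) (b : A) (i j l : List (Fin n)) :
    r • M.mon b i j l = M.mon (algebraMap k A r * b) i j l := by
  rw [DRAlg.mon, DRAlg.mon, M.g.a_mul, M.g.a_alg, Algebra.algebraMap_eq_smul_one, smul_mul_assoc,
    one_mul, smul_mul_assoc, smul_mul_assoc, smul_mul_assoc]

omit [CharZero k] [IsHausdorff I A] in
lemma DRAlg.mem_gr (M : DRAlg X) {E : M.R ≃ₐ[k] DR X} (hE : M.g.Maps (DR.elt X) E) (p q : ℕ)
    (w : M.R) : w ∈ M.gr p q ↔ E w ∈ DR.gr X p q := by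
  constructor
  · intro h
    refine AddSubgroup.closure_induction (p := fun w _ => E w ∈ DR.gr X p q) ?_ ?_ ?_ ?_ h
    · rintro _ ⟨b, i, j, l, h1, h2, rfl⟩
      rw [M.map_mon hE]
      exact Submodule.subset_span ⟨b, i, j, l, h1, h2, rfl⟩
    · rw [map_zero]
      exact zero_mem _
    · intro u v _ _ hu hv
      rw [map_add]
      exact add_mem hu hv
    · intro u _ hu
      rw [map_neg]
      exact neg_mem hu
  · intro h
    have hs : ∀ (r : k) (v : M.R), v ∈ M.gr p q → r • v ∈ M.gr p q := by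
      intro r v hv
      refine AddSubgroup.closure_induction (p := fun v _ => r • v ∈ M.gr p q) ?_ ?_ ?_ ?_ hv
      · rintro _ ⟨b, i, j, l, h1, h2, rfl⟩
        rw [M.smul_mon]
        exact AddSubgroup.subset_closure ⟨_, i, j, l, h1, h2, rfl⟩
      · rw [smul_zero]
        exact AddSubgroup.zero_mem _
      · intro u v _ _ hu hv
        rw [smul_add]
        exact AddSubgroup.add_mem _ hu hv
      · intro u _ hu
        rw [smul_neg]
        exact AddSubgroup.neg_mem _ hu
    have key : ∀ v ∈ DR.gr X p q, E.symm v ∈ M.gr p q := by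
      intro v hv
      refine Submodule.span_induction (p := fun v _ => E.symm v ∈ M.gr p q) ?_ ?_ ?_ ?_ hv
      · rintro _ ⟨b, i, j, l, h1, h2, rfl⟩
        rw [← M.map_mon hE, AlgEquiv.symm_apply_apply]
        exact AddSubgroup.subset_closure ⟨_, i, j, l, h1, h2, rfl⟩
      · rw [map_zero]
        exact AddSubgroup.zero_mem _
      · intro u v _ _ hu hv
        rw [map_add]
        exact AddSubgroup.add_mem _ hu hv
      · intro r v _ hv
        rw [map_smul]
        exact hs r _ hv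
    have := key _ h
    rwa [AlgEquiv.symm_apply_apply] at this

omit [CharZero k] [IsHausdorff I A] in
/-- a derivation of a model corresponds to a derivation of `DR X` if it does so on generators -/
lemma DRAlg.map_der (M : DRAlg X) {E : M.R ≃ₐ[k] DR X} (hE : M.g.Maps (DR.elt X) E)
    {T : M.R → M.R} (hT : M.IsOddDer T) (T' : DR X →ₗ[k] DR X)
    (hT' : ∀ u v, T' (u * v) = T' u * v + DR.sg X u * T' v)
    (ha : ∀ b, E (T (M.g.a b)) = T' (DR.a X b)) (hθ : ∀ i, E (T (M.g.θ i)) = T' (DR.θ X i))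
    (hξ : ∀ i, E (T (M.g.ξ i)) = T' (DR.ξ X i)) (hy : ∀ i, E (T (M.g.y i)) = T' (DR.y X i))
    (w : M.R) : E (T w) = T' (E w) := by
  have hgen : ∀ (p q : ℕ) (g : M.R), E g ∈ DR.gr X p q →
      DR.sg X (E g) = (-1) ^ (p + q) * E g → E (T g) = T' (E g) →
      ∀ v, E (T v) = T' (E v) → E (T (g * v)) = T' (E g * E v) := by
    intro p q g h1 h2 h3 v hv
    rw [hT.leib p q g ((M.mem_gr hE p q g).2 h1), map_add, map_mul, map_mul, map_mul, hv, h3, hT',
      h2, map_pow, map_neg, map_one, mul_assoc]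
  have main : ∀ u : DR X, ∀ v, E (T v) = T' (E v) → E (T (E.symm u * v)) = T' (u * E v) := by
    intro u
    refine DR.ind X (P := fun u => ∀ v, E (T v) = T' (E v) →
      E (T (E.symm u * v)) = T' (u * E v)) ?_ ?_ ?_ ?_ ?_ ?_ u
    · intro u u' hu hu' v hv
      rw [map_add, add_mul, hT.lin.map_add, map_add, hu v hv, hu' v hv, add_mul, map_add]
    · intro u u' hu hu' v hv
      have h1 : E (T (E.symm u' * v)) = T' (E (E.symm u' * v)) := by
        rw [hu' v hv, map_mul E, AlgEquiv.apply_symm_apply]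
      have h2 := hu _ h1
      rw [← mul_assoc, ← map_mul] at h2
      rw [h2, map_mul E, AlgEquiv.apply_symm_apply, mul_assoc]
    · intro b v hv
      have e : E (M.g.a b) = DR.a X b := hE.1 b
      rw [← e, AlgEquiv.symm_apply_apply]
      refine hgen 0 0 _ ?_ ?_ ?_ v hv
      · rw [e]
        exact DR.a_mem X b
      · rw [e, DR.a, DR.sg_mk, drs_dra, pow_zero, one_mul]
      · rw [ha, e]
    · intro i v hv
      have e : E (M.g.θ i) = DR.θ X i := hE.2.1 i
      rw [← e, AlgEquiv.symm_apply_apply]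
      refine hgen 0 1 _ ?_ ?_ ?_ v hv
      · rw [e]
        exact DR.θ_mem X i
      · rw [e, DR.θ, DR.sg_mk, drs_θ, zero_add, pow_one, neg_mul, one_mul, map_neg]
      · rw [hθ, e]
    · intro i v hv
      have e : E (M.g.ξ i) = DR.ξ X i := hE.2.2.1 i
      rw [← e, AlgEquiv.symm_apply_apply]
      refine hgen 1 0 _ ?_ ?_ ?_ v hv
      · rw [e]
        exact Submodule.subset_span ⟨1, [], [i], [], rfl, rfl, by
          simp only [List.map_nil, List.prod_nil, mul_one, List.map_cons, List.prod_cons,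
            DR.a_one, one_mul]⟩
      · rw [e, DR.ξ, DR.sg_mk, drs_ξ, add_zero, pow_one, neg_mul, one_mul, map_neg]
      · rw [hξ, e]
    · intro i v hv
      have e : E (M.g.y i) = DR.y X i := hE.2.2.2 i
      rw [← e, AlgEquiv.symm_apply_apply]
      refine hgen 1 1 _ ?_ ?_ ?_ v hv
      · rw [e]
        exact DR.y_mem X i
      · rw [e, DR.y, DR.sg_mk, drs_y, ← two_mul, mul_one, neg_one_sq, one_mul]
      · rw [hy, e]
  have e1 : M.g.a 1 = 1 := M.g.hom.map_one
  have h1 : E (T 1) = T' (E 1) := by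
    have := ha 1
    rwa [e1, DR.a_one, ← map_one E] at this
  have h2 := main (E w) 1 h1
  rwa [AlgEquiv.symm_apply_apply, mul_one, map_one, mul_one] at h2

variable {f : A}

omit [CharZero k] [IsHausdorff I A] in
lemma DRModel.mem_fil (M : DRModel X f) {E : M.R ≃ₐ[k] DR X} (hE : M.g.Maps (DR.elt X) E) (N : ℕ)
    (w : M.R) : w ∈ M.fil N ↔ E w ∈ DR.fil X N := by
  constructor
  · intro h
    refine AddSubgroup.closure_induction (p := fun w _ => E w ∈ DR.fil X N) ?_ ?_ ?_ ?_ h
    · rintro _ ⟨b, hb, v, rfl⟩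
      rw [map_mul]
      exact Submodule.subset_span ⟨b, hb, E v, congrArg (· * E v) (hE.1 b)⟩
    · rw [map_zero]
      exact zero_mem _
    · intro u v _ _ hu hv
      rw [map_add]
      exact add_mem hu hv
    · intro u _ hu
      rw [map_neg]
      exact neg_mem hu
  · intro h
    have hs : ∀ (r : k) (v : M.R), v ∈ M.fil N → r • v ∈ M.fil N := by
      intro r v hv
      refine AddSubgroup.closure_induction (p := fun v _ => r • v ∈ M.fil N) ?_ ?_ ?_ ?_ hv
      · rintro _ ⟨b, hb, v, rfl⟩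
        rw [← mul_smul_comm]
        exact AddSubgroup.subset_closure ⟨b, hb, r • v, rfl⟩
      · rw [smul_zero]
        exact AddSubgroup.zero_mem _
      · intro u v _ _ hu hv
        rw [smul_add]
        exact AddSubgroup.add_mem _ hu hv
      · intro u _ hu
        rw [smul_neg]
        exact AddSubgroup.neg_mem _ hu
    have key : ∀ v ∈ DR.fil X N, E.symm v ∈ M.fil N := by
      intro v hv
      refine Submodule.span_induction (p := fun v _ => E.symm v ∈ M.fil N) ?_ ?_ ?_ ?_ hv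
      · rintro _ ⟨b, hb, v, rfl⟩
        have e : E.symm (DR.a X b) = M.g.a b := by
          rw [AlgEquiv.symm_apply_eq]
          exact (hE.1 b).symm
        rw [map_mul, e]
        exact AddSubgroup.subset_closure ⟨b, hb, _, rfl⟩
      · rw [map_zero]
        exact AddSubgroup.zero_mem _
      · intro u v _ _ hu hv
        rw [map_add]
        exact AddSubgroup.add_mem _ hu hv
      · intro r v _ hv
        rw [map_smul]
        exact hs r _ hv
    have := key _ h
    rwa [AlgEquiv.symm_apply_apply] at this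

omit [CharZero k] [IsHausdorff I A] in
lemma DRModel.map_lim (M : DRModel X f) {E : M.R ≃ₐ[k] DR X} (hE : M.g.Maps (DR.elt X) E)
    {c : ℕ → k} {w : ℕ → M.R} {v : M.R} (h : M.Lim c w v) :
    DR.lim X c (fun m => E (w m)) (E v) := by
  intro N
  obtain ⟨m₀, hm₀⟩ := h N
  refine ⟨m₀, fun m hm => ?_⟩
  have h1 := (M.mem_fil hE N _).1 (hm₀ m hm)
  rw [map_sub, map_sum] at h1
  simp only [map_smul] at h1
  exact h1

lemma DRModel.map_form (M : DRModel X f) {E : M.R ≃ₐ[k] DR X} (hE : M.g.Maps (DR.elt X) E)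
    (b : A) : E (M.g.form X b) = DR.δ X (DR.a X b) := by
  rw [DR.δ_a, DRElt.form, map_sum]
  refine Finset.sum_congr rfl fun l _ => ?_
  rw [map_mul]
  congr 1
  · exact hE.1 _
  · exact hE.2.2.1 _

lemma DRModel.map_d (M : DRModel X f) {E : M.R ≃ₐ[k] DR X} (hE : M.g.Maps (DR.elt X) E)
    (w : M.R) : E (M.d w) = DR.d X f (E w) := by
  refine M.toDRAlg.map_der hE M.d_der (DR.d X f) (DR.d_mul X f) ?_ ?_ ?_ ?_ w
  · intro b
    rw [M.d_a, map_zero, DR.d_a]
  · intro i
    rw [M.d_θ, DR.d_θ]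
    exact hE.1 _
  · intro i
    rw [M.d_ξ, map_zero, DR.d_ξ]
  · intro i
    rw [M.d_y, map_neg, M.map_form hE, DR.d_y]
    rfl

lemma DRModel.map_δ (M : DRModel X f) {E : M.R ≃ₐ[k] DR X} (hE : M.g.Maps (DR.elt X) E)
    (w : M.R) : E (M.δ w) = DR.δ X (E w) := by
  refine M.toDRAlg.map_der hE M.δ_der (DR.δ X) (DR.δ_mul X) ?_ ?_ ?_ ?_ w
  · intro b
    rw [M.δ_a, M.map_form hE]
  · intro i
    rw [M.δ_θ, DR.δ_θ]
    exact hE.2.2.2 _
  · intro i
    rw [M.δ_ξ, map_zero, DR.δ_ξ]
  · intro i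
    rw [M.δ_y, map_zero, DR.δ_y]

/-- The path in `DR X` given by a path in a model. -/
theorem IsIdOnDCrit.sympPath {ψ : A ≃ₐ[k] A} (h : IsIdOnDCrit X f ψ) :
    Nonempty (SympPath X f ψ) := by
  obtain ⟨M, P, ⟨hstop, hstopθ⟩, η, hη, hloop, hclosed⟩ := h
  obtain ⟨E, hE⟩ := M.toDRAlg.exists_equiv
  let tr : (T : M.R → M.R) → IsLinearMap k T → (DR X →ₗ[k] DR X) := fun T hT =>
    E.toLinearMap ∘ₗ (IsLinearMap.mk' T hT) ∘ₗ E.symm.toLinearMap
  have htr : ∀ (T : M.R → M.R) (hT : IsLinearMap k T) (w : M.R), tr T hT (E w) = E (T w) := by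
    intro T hT w
    change E (T (E.symm (E w))) = E (T w)
    rw [AlgEquiv.symm_apply_apply]
  have hω : E M.ω = DR.ω X := by
    rw [DRModel.ω, map_sum, DR.ω]
    refine Finset.sum_congr rfl fun i _ => ?_
    rw [map_mul]
    congr 1
    · exact hE.2.2.2 i
    · exact hE.2.2.1 i
  refine ⟨{
    H := fun m => tr (P.H m) (P.H_ser.lin m)
    Θ := fun m => tr (P.Θ m) (P.Θ_ser.lin m)
    Hrst := ?_
    Θrst := ?_
    Hgr := ?_
    Θgr := ?_
    Hone := ?_
    Hmul := ?_
    Θmul := ?_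
    Hd := ?_
    Θd := ?_
    Hδ := ?_
    Θδ := ?_
    start := ?_
    stop := ?_
    stopθ := ?_
    η := fun p => E (η p)
    ηgr := ?_
    loop := ?_
    closed := ?_ }⟩
  · intro w N
    obtain ⟨w, rfl⟩ := E.surjective w
    obtain ⟨m₀, hm₀⟩ := P.H_ser.rst w N
    refine ⟨m₀, fun m hm => ?_⟩
    rw [htr]
    exact (M.mem_fil hE N _).1 (hm₀ m hm)
  · intro w N
    obtain ⟨w, rfl⟩ := E.surjective w
    obtain ⟨m₀, hm₀⟩ := P.Θ_ser.rst w N
    refine ⟨m₀, fun m hm => ?_⟩
    rw [htr]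
    exact (M.mem_fil hE N _).1 (hm₀ m hm)
  · intro m p q w hw
    obtain ⟨w, rfl⟩ := E.surjective w
    rw [htr]
    exact (M.mem_gr hE _ _ _).1 (P.hom.H_gr m p q w ((M.mem_gr hE _ _ _).2 hw))
  · intro m p q w hw
    obtain ⟨w, rfl⟩ := E.surjective w
    rw [htr]
    exact (M.mem_gr hE _ _ _).1 (P.hom.Θ_gr m p q w ((M.mem_gr hE _ _ _).2 hw))
  · constructor
    · rw [← map_one E, htr, P.path.start]
    · intro m
      rw [← map_one E, htr, P.hom.one, map_zero]
  · intro m v w
    obtain ⟨v, rfl⟩ := E.surjective v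
    obtain ⟨w, rfl⟩ := E.surjective w
    rw [← map_mul, htr, P.hom.H_mul, map_sum]
    refine Finset.sum_congr rfl fun j _ => ?_
    rw [htr, htr, map_mul]
  · intro m p q v hv w
    obtain ⟨v, rfl⟩ := E.surjective v
    obtain ⟨w, rfl⟩ := E.surjective w
    rw [← map_mul, htr, P.hom.Θ_mul m p q v ((M.mem_gr hE _ _ _).2 hv), map_sum]
    refine Finset.sum_congr rfl fun j _ => ?_
    rw [htr, htr, htr, htr, map_add, map_mul, map_mul, map_mul, map_pow, map_neg, map_one]
  · intro m w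
    obtain ⟨w, rfl⟩ := E.surjective w
    rw [← M.map_d hE, htr, htr, P.path.H_d, M.map_d hE]
  · intro m w
    obtain ⟨w, rfl⟩ := E.surjective w
    rw [← M.map_d hE, htr, htr, htr, ← map_smul, P.path.Θ_d, map_add, M.map_d hE]
  · intro m w
    obtain ⟨w, rfl⟩ := E.surjective w
    rw [← M.map_δ hE, htr, htr, P.path.H_δ, M.map_δ hE]
  · intro m w
    obtain ⟨w, rfl⟩ := E.surjective w
    rw [← M.map_δ hE, htr, htr, P.path.Θ_δ, map_neg, M.map_δ hE]
  · intro w
    obtain ⟨w, rfl⟩ := E.surjective w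
    rw [htr, P.path.start]
  · intro b
    have h1 := M.map_lim hE (hstop b)
    have e : E (M.g.a (ψ b)) = DR.a X (ψ b) := hE.1 _
    have e' : E (M.g.a b) = DR.a X b := hE.1 _
    rw [e] at h1
    rw [← e']
    simp only [htr]
    exact h1
  · intro i
    have h1 := M.map_lim hE (hstopθ i)
    have e' : E (M.g.θ i) = DR.θ X i := hE.2.1 _
    have e : E (∑ j, M.g.a (ψ (X.del i (ψ.symm (X.x j)))) * M.g.θ j) =
        ∑ j, DR.a X (ψ (X.D i (ψ.symm (X.x j)))) * DR.θ X j := by
      rw [map_sum]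
      refine Finset.sum_congr rfl fun j _ => ?_
      rw [map_mul]
      congr 1
      · exact hE.1 _
      · exact hE.2.1 _
    rw [e] at h1
    rw [← e']
    simp only [htr]
    exact h1
  · intro p hp
    exact (M.mem_gr hE _ _ _).1 (hη p hp)
  · have h1 := M.map_lim hE hloop
    rw [M.map_d hE] at h1
    rw [← hω]
    simp only [htr]
    exact h1
  · intro p hp
    have h1 := congrArg E (hclosed p hp)
    rwa [map_add, map_zero, M.map_δ hE, M.map_d hE] at h1

end Equiv

end

end Pool.Agent.MFI
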