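import Pool.Agent.MFI.DU2

/-!
# Isotopy invariance of matrix factorizations (MP_c8c50b_ag), helper42

Sanity checks: `DR X` is a model of the graded mixed cdga `DR(K)`, a symplectic path in `DR X` gives
a symplectic path in the model, and the identity induces the identity on `dCrit(f)`.
-/

set_option autoImplicit false

open scoped TensorProduct

namespace Pool.Agent.MFI

universe u

noncomputable section

section Model

variable {k : Type u} [Field k] [CharZero k] {A : Type u} [CommRing A] [Algebra k A]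
  {I : Ideal A} [IsHausdorff I A] {n : ℕ}

/-- `DR X` as a model of the algebra `DR(K)`. -/
def drAlg (X : Frame k A I n) : DRAlg X where
  R := DR X
  g := DR.elt X
  rel := DR.elt_rel X
  univ R' _ _ g' h := by
    obtain ⟨Φ, ha, hθ, hξ, hy⟩ := exists_DR_lift X g'.hom g'.θ g'.ξ g'.y
      (fun b i => h.a_comm b _) (fun b i => h.a_comm b _) (fun b i => h.a_comm b _)
      h.θ_θ h.ξ_ξ h.θ_ξ (fun i j => h.y_comm i _) (fun i j => h.y_comm i _)
      (fun i j => h.y_comm i _) h.rel_θ h.rel_ξ h.rel_y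
    refine ⟨Φ, ⟨ha, hθ, hξ, hy⟩, fun Ψ hΨ => ?_⟩
    exact DR_hom_ext X (fun a => (hΨ.1 a).trans (ha a).symm)
      (fun i => (hΨ.2.1 i).trans (hθ i).symm) (fun i => (hΨ.2.2.1 i).trans (hξ i).symm)
      (fun i => (hΨ.2.2.2 i).trans (hy i).symm)

lemma drAlg_gr (X : Frame k A I n) (p q : ℕ) (w : DR X) :
    w ∈ (drAlg X).gr p q ↔ w ∈ DR.gr X p q :=
  (drAlg X).mem_gr (E := (AlgEquiv.refl : DR X ≃ₐ[k] DR X))
    ⟨fun _ => rfl, fun _ => rfl, fun _ => rfl, fun _ => rfl⟩ p q w

omit [CharZero k] [IsHausdorff I A] in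
lemma DR.sg_mul (X : Frame k A I n) (u v : DR X) :
    DR.sg X (u * v) = DR.sg X u * DR.sg X v := by
  obtain ⟨u, rfl⟩ := DR.mk_surj X u
  obtain ⟨v, rfl⟩ := DR.mk_surj X v
  rw [← map_mul, DR.sg_mk, DR.sg_mk, DR.sg_mk, map_mul, map_mul]

omit [CharZero k] [IsHausdorff I A] in
lemma DR.sg_prod (X : Frame k A I n) (c : Fin n → DR X) (e : ℕ)
    (hc : ∀ i, DR.sg X (c i) = (-1) ^ e * c i) (l : List (Fin n)) :
    DR.sg X (l.map c).prod = (-1) ^ (e * l.length) * (l.map c).prod := by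
  induction l with
  | nil =>
    rw [List.map_nil, List.prod_nil, List.length_nil, mul_zero, pow_zero, one_mul, ← DR.a_one,
      DR.a, DR.sg_mk, drs_dra]
  | cons i l ih =>
    rw [List.map_cons, List.prod_cons, List.length_cons, DR.sg_mul, hc, ih, mul_add, mul_one,
      pow_add]
    have h1 : ∀ m : ℕ, c i * (-1) ^ m = (-1) ^ m * c i := fun m =>
      ((Commute.neg_one_left (c i)).pow_left m).symm.eq
    rw [mul_assoc, ← mul_assoc (c i), h1]
    simp only [← mul_assoc]
    rw [← pow_add, ← pow_add, add_comm]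

omit [CharZero k] [IsHausdorff I A] in
/-- the parity automorphism is `(-1)^(p + q)` on the part of weight `p` and degree `-q` -/
lemma DR.sg_gr (X : Frame k A I n) (p q : ℕ) (w : DR X) (hw : w ∈ DR.gr X p q) :
    DR.sg X w = (-1) ^ (p + q) * w := by
  refine Submodule.span_induction (p := fun w _ => DR.sg X w = (-1) ^ (p + q) * w) ?_ ?_ ?_ ?_ hw
  · rintro _ ⟨b, i, j, l, h1, h2, rfl⟩
    have hb : DR.sg X (DR.a X b) = DR.a X b := by rw [DR.a, DR.sg_mk, drs_dra]
    have hθ := DR.sg_prod X (DR.θ X) 1 (fun i => by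
      rw [DR.θ, DR.sg_mk, drs_θ, pow_one, neg_mul, one_mul, map_neg]) i
    have hξ := DR.sg_prod X (DR.ξ X) 1 (fun i => by
      rw [DR.ξ, DR.sg_mk, drs_ξ, pow_one, neg_mul, one_mul, map_neg]) j
    have hy := DR.sg_prod X (DR.y X) 0 (fun i => by
      rw [DR.y, DR.sg_mk, drs_y, pow_zero, one_mul]) l
    rw [one_mul] at hθ hξ
    rw [zero_mul, pow_zero, one_mul] at hy
    rw [DR.sg_mul, DR.sg_mul, DR.sg_mul, hb, hθ, hξ, hy]
    have hc : ∀ (m : ℕ) (u : DR X), u * (-1) ^ m = (-1) ^ m * u := fun m u =>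
      ((Commute.neg_one_left u).pow_left m).symm.eq
    have e : ((-1 : DR X)) ^ (p + q) = (-1) ^ (i.length + j.length) := by
      rw [← h1, ← h2, show l.length + j.length + (l.length + i.length) =
        2 * l.length + (i.length + j.length) by ring, pow_add, pow_mul, neg_one_sq, one_pow,
        one_mul]
    rw [e, pow_add]
    simp only [← mul_assoc]
    rw [hc _ (DR.a X b)]
    simp only [mul_assoc]
    rw [← mul_assoc (i.map (DR.θ X)).prod, hc _ (i.map (DR.θ X)).prod]
    simp only [← mul_assoc]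
    rw [mul_assoc ((-1 : DR X) ^ i.length) (DR.a X b), hc _ (DR.a X b)]
    simp only [mul_assoc]
  · rw [map_zero, mul_zero]
  · intro u v _ _ hu hv
    rw [map_add, hu, hv, mul_add]
  · intro r v _ hv
    rw [map_smul, hv, mul_smul_comm]

/-- `DR X` as a model of the graded mixed cdga `DR(K)`. -/
def drModel (X : Frame k A I n) (f : A) : DRModel X f where
  toDRAlg := drAlg X
  d := DR.d X f
  d_der := {
    lin := (DR.d X f).isLinear
    leib := fun p q v hv w => by
      have h := DR.d_mul X f v w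
      rw [DR.sg_gr X p q v ((drAlg_gr X p q v).1 hv), mul_assoc] at h
      exact h }
  d_a b := DR.d_a X f b
  d_θ i := DR.d_θ X f i
  d_ξ i := DR.d_ξ X f i
  d_y i := by
    change DR.d X f (DR.y X i) = - ∑ l, DR.a X (X.D l (X.D i f)) * DR.ξ X l
    rw [DR.d_y, DR.δ_a]
  δ := DR.δ X
  δ_der := {
    lin := (DR.δ X).isLinear
    leib := fun p q v hv w => by
      have h := DR.δ_mul X v w
      rw [DR.sg_gr X p q v ((drAlg_gr X p q v).1 hv), mul_assoc] at h
      exact h }
  δ_a b := DR.δ_a X b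
  δ_θ i := DR.δ_θ X i
  δ_ξ i := DR.δ_ξ X i
  δ_y i := DR.δ_y X i

lemma drModel_fil (X : Frame k A I n) (f : A) (N : ℕ) (w : DR X) :
    w ∈ (drModel X f).fil N ↔ w ∈ DR.fil X N :=
  (drModel X f).mem_fil (E := (AlgEquiv.refl : DR X ≃ₐ[k] DR X))
    ⟨fun _ => rfl, fun _ => rfl, fun _ => rfl, fun _ => rfl⟩ N w

lemma drModel_lim (X : Frame k A I n) (f : A) {c : ℕ → k} {w : ℕ → DR X} {v : DR X}
    (h : DR.lim X c w v) : (drModel X f).Lim c w v := by
  intro N
  obtain ⟨m₀, hm₀⟩ := h N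
  exact ⟨m₀, fun m hm => (drModel_fil X f N _).2 (hm₀ m hm)⟩

/-- A symplectic path in `DR X` gives a symplectic path in the model. -/
theorem SympPath.isIdOnDCrit {X : Frame k A I n} {f : A} {ψ : A ≃ₐ[k] A} (P : SympPath X f ψ) :
    IsIdOnDCrit X f ψ := by
  refine ⟨drModel X f, {
    H := fun m => P.H m
    Θ := fun m => P.Θ m
    H_ser := ⟨fun m => (P.H m).isLinear, fun w N => ?_⟩
    Θ_ser := ⟨fun m => (P.Θ m).isLinear, fun w N => ?_⟩
    hom := {
      H_gr := fun m p q w hw => (drAlg_gr X p q _).2 (P.Hgr m p q w ((drAlg_gr X p q w).1 hw))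
      Θ_gr := fun m p q w hw =>
        (drAlg_gr X p (q + 1) _).2 (P.Θgr m p q w ((drAlg_gr X p q w).1 hw))
      one := P.Hone.2
      H_mul := P.Hmul
      Θ_mul := fun m p q v hv w => P.Θmul m p q v ((drAlg_gr X p q v).1 hv) w }
    path := {
      H_d := P.Hd
      Θ_d := P.Θd
      H_δ := P.Hδ
      Θ_δ := P.Θδ
      start := P.start } }, ⟨fun b => ?_, fun i => ?_⟩, P.η, ?_, ?_, ?_⟩
  · obtain ⟨m₀, hm₀⟩ := P.Hrst w N
    exact ⟨m₀, fun m hm => (drModel_fil X f N _).2 (hm₀ m hm)⟩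
  · obtain ⟨m₀, hm₀⟩ := P.Θrst w N
    exact ⟨m₀, fun m hm => (drModel_fil X f N _).2 (hm₀ m hm)⟩
  · exact drModel_lim X f (P.stop b)
  · exact drModel_lim X f (P.stopθ i)
  · exact fun p hp => (drAlg_gr X p (p + 1) _).2 (P.ηgr p hp)
  · exact drModel_lim X f P.loop
  · exact P.closed

/-- The two formulations agree. -/
theorem isIdOnDCrit_iff {X : Frame k A I n} {f : A} {ψ : A ≃ₐ[k] A} :
    IsIdOnDCrit X f ψ ↔ Nonempty (SympPath X f ψ) :=
  ⟨fun h => h.sympPath, fun ⟨P⟩ => P.isIdOnDCrit⟩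

/-- The identity induces the identity. -/
theorem isIdOnDCrit_refl (X : Frame k A I n) (f : A) : IsIdOnDCrit X f AlgEquiv.refl :=
  (SympPath.refl X f).isIdOnDCrit

end Model

end

end Pool.Agent.MFI
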