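import Pool.Agent.MFI.Flow

/-!
# Isotopy invariance of matrix factorizations (MP_c8c50b_ag), helper26

Part 4: the fundamental matrix `G` of a Hamiltonian isotopy: `Δ_t G = G Δ` for a square root `Δ` of
the potential `F`.
-/

set_option autoImplicit false

open PowerSeries

namespace Pool.Agent.MFI

noncomputable section

variable {E : Type*} [Ring E] [Algebra ℚ E] {n : ℕ}

/-- the data of a Hamiltonian isotopy with an odd square root `Δ` of the potential -/
structure Ham (D : Fin n → E →+ E) (w : Fin n → PowerSeries E) (b : Fin n → Fin n → PowerSeries E)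
    (F Δ : E) : Prop where
  leib : ∀ k x y, D k (x * y) = D k x * y + x * D k y
  wc : ∀ k (Z : PowerSeries E), w k * Z = Z * w k
  bc : ∀ k j (Z : PowerSeries E), b k j * Z = Z * b k j
  anti : ∀ k j, b k j = - b j k
  weq : ∀ k, w k = ∑ j, b k j * fl D w (D j F)
  sq : Δ * Δ = F

variable {D : Fin n → E →+ E} {w : Fin n → PowerSeries E} {b : Fin n → Fin n → PowerSeries E}
  {F Δ : E}

/-- `Σ b_kj φ_t((D_j Δ)(D_k Δ))` -/
def Bt (D : Fin n → E →+ E) (w : Fin n → PowerSeries E) (b : Fin n → Fin n → PowerSeries E)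
    (Δ : E) : PowerSeries E :=
  ∑ k, ∑ j, b k j * fl D w (D j Δ * D k Δ)

/-- the matrix of the connection -/
def Mt (D : Fin n → E →+ E) (w : Fin n → PowerSeries E) (b : Fin n → Fin n → PowerSeries E)
    (Δ : E) : PowerSeries E :=
  C (algebraMap ℚ E (-(1 / 2))) * Bt D w b Δ

lemma half_comm (q : ℚ) (Z : PowerSeries E) :
    C (algebraMap ℚ E q) * Z = Z * C (algebraMap ℚ E q) := by
  ext m
  rw [coeff_C_mul, coeff_mul_C, Algebra.commutes]

lemma Ham.velocity (h : Ham D w b F Δ) :
    dt (fl D w Δ) + dt (fl D w Δ) = fl D w Δ * Bt D w b Δ - Bt D w b Δ * fl D w Δ := by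
  have hm := fl_mul h.leib h.wc
  set d := fl D w Δ with hd
  have hDF : ∀ j, D j F = Δ * D j Δ + D j Δ * Δ := by
    intro j
    rw [← h.sq, h.leib, add_comm]
  have e1 : dt d = ∑ k, w k * fl D w (D k Δ) := dt_fl D w Δ
  have e2 : dt d = ∑ k, ∑ j, b k j * (fl D w (D j F) * fl D w (D k Δ)) := by
    rw [e1]
    refine Finset.sum_congr rfl fun k _ => ?_
    rw [h.weq k, Finset.sum_mul]
    refine Finset.sum_congr rfl fun j _ => ?_
    rw [mul_assoc]
  have e3 : ∀ k j, fl D w (D j F) * fl D w (D k Δ) =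
      d * fl D w (D j Δ * D k Δ) + fl D w (D j Δ) * fl D w (D k F) -
        fl D w (D j Δ * D k Δ) * d := by
    intro k j
    rw [hDF j, hDF k, fl_add, fl_add, hm, hm, hm, hm, hm]
    noncomm_ring
  have e4 : ∑ k, ∑ j, b k j * (fl D w (D j Δ) * fl D w (D k F)) = - dt d := by
    rw [Finset.sum_comm, e1, ← Finset.sum_neg_distrib]
    refine Finset.sum_congr rfl fun j _ => ?_
    have e5 : ∑ k, b k j * fl D w (D k F) = - w j := by
      rw [h.weq j, ← Finset.sum_neg_distrib]
      refine Finset.sum_congr rfl fun k _ => ?_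
      rw [h.anti k j, neg_mul]
    have e6 : ∀ k, b k j * (fl D w (D j Δ) * fl D w (D k F)) =
        fl D w (D j Δ) * (b k j * fl D w (D k F)) := by
      intro k
      rw [← mul_assoc, h.bc, mul_assoc]
    rw [Finset.sum_congr rfl fun k _ => e6 k, ← Finset.mul_sum, e5, mul_neg, h.wc]
  have e7 : dt d = d * Bt D w b Δ + ∑ k, ∑ j, b k j * (fl D w (D j Δ) * fl D w (D k F)) -
      Bt D w b Δ * d := by
    rw [e2, Bt, Finset.mul_sum, Finset.sum_mul, ← Finset.sum_add_distrib,
      ← Finset.sum_sub_distrib]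
    refine Finset.sum_congr rfl fun k _ => ?_
    rw [Finset.mul_sum, Finset.sum_mul, ← Finset.sum_add_distrib, ← Finset.sum_sub_distrib]
    refine Finset.sum_congr rfl fun j _ => ?_
    rw [e3 k j, ← mul_assoc d (b k j), ← h.bc k j d]
    noncomm_ring
  rw [e4] at e7
  nth_rewrite 1 [e7]
  abel

/-- the fundamental matrix and its inverse -/
def GG (D : Fin n → E →+ E) (w : Fin n → PowerSeries E) (b : Fin n → Fin n → PowerSeries E)
    (Δ : E) : PowerSeries E := solS (Mt D w b Δ)

def HH (D : Fin n → E →+ E) (w : Fin n → PowerSeries E) (b : Fin n → Fin n → PowerSeries E)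
    (Δ : E) : PowerSeries E := solrS (-(Mt D w b Δ))

lemma dt_GG : dt (GG D w b Δ) = Mt D w b Δ * GG D w b Δ := dt_solS _

lemma dt_HH : dt (HH D w b Δ) = -(HH D w b Δ * Mt D w b Δ) := by
  rw [HH, dt_solrS, mul_neg]

lemma GG_HH : GG D w b Δ * HH D w b Δ = 1 := sol_mul_right _

lemma HH_GG : HH D w b Δ * GG D w b Δ = 1 := sol_mul_left _

lemma coeff_GG : coeff 0 (GG D w b Δ) = 1 := coeff_zero_solS _

/-- `Δ_t G = G Δ` -/
theorem Ham.intertwine (h : Ham D w b F Δ) :
    fl D w Δ * GG D w b Δ = GG D w b Δ * C Δ := by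
  have h1 : fl D w Δ * GG D w b Δ - GG D w b Δ * C Δ = 0 := by
    refine ode_unique (M := Mt D w b Δ) ?_ ?_
    · rw [map_sub, coeff_zero_mul', coeff_zero_mul', coeff_zero_fl, coeff_GG]
      simp
    · rw [map_sub, dt_mul, dt_mul, dt_GG, dt_C, mul_zero, add_zero]
      have e1 : dt (fl D w Δ) = Mt D w b Δ * fl D w Δ - fl D w Δ * Mt D w b Δ := by
        have e2 := h.velocity
        have e3 : C (algebraMap ℚ E (1 / 2)) * (dt (fl D w Δ) + dt (fl D w Δ)) =
            dt (fl D w Δ) := by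
          rw [mul_add, ← add_mul, ← map_add, ← map_add]
          norm_num
        rw [← e3, e2, Mt, mul_assoc, ← mul_assoc (fl D w Δ), ← half_comm, mul_assoc,
          show (-(1 / 2) : ℚ) = -(1 / 2) from rfl, map_neg, map_neg]
        noncomm_ring
      rw [e1]
      noncomm_ring
  exact sub_eq_zero.1 h1

/-- `G` commutes with a grading operator -/
theorem Ham.even (h : Ham D w b F Δ) {γ : E} (hγ : γ * Δ = -(Δ * γ))
    (hDγ : ∀ k, D k γ = 0) : C γ * GG D w b Δ = GG D w b Δ * C γ := by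
  have hm := fl_mul h.leib h.wc
  have e1 : ∀ k, γ * D k Δ = -(D k Δ * γ) := by
    intro k
    have e2 := congrArg (D k) hγ
    rw [map_neg, h.leib, h.leib, hDγ, zero_mul, mul_zero, zero_add, add_zero] at e2
    exact e2
  have e3 : ∀ j k, C γ * fl D w (D j Δ * D k Δ) = fl D w (D j Δ * D k Δ) * C γ := by
    intro j k
    rw [← fl_const D w hDγ, ← hm, ← hm]
    congr 1
    rw [← mul_assoc, e1, neg_mul, mul_assoc, e1, mul_neg, neg_neg, mul_assoc]
  have e4 : C γ * Mt D w b Δ = Mt D w b Δ * C γ := by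
    rw [Mt, Bt, ← mul_assoc, ← half_comm, mul_assoc, mul_assoc, Finset.mul_sum, Finset.sum_mul]
    congr 1
    refine Finset.sum_congr rfl fun k _ => ?_
    rw [Finset.mul_sum, Finset.sum_mul]
    refine Finset.sum_congr rfl fun j _ => ?_
    rw [← mul_assoc, ← h.bc, mul_assoc, e3, mul_assoc]
  have h1 : C γ * GG D w b Δ - GG D w b Δ * C γ = 0 := by
    refine ode_unique (M := Mt D w b Δ) ?_ ?_
    · rw [map_sub, coeff_zero_mul', coeff_zero_mul', coeff_GG]
      simp
    · rw [map_sub, dt_mul, dt_mul, dt_GG, dt_C, zero_mul, zero_add, mul_zero, add_zero,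
        ← mul_assoc, e4]
      noncomm_ring
  exact sub_eq_zero.1 h1

end

end Pool.Agent.MFI
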