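import Pool.Agent.MFI.Red
import Pool.Agent.MFI.Thm

/-!
# Isotopy invariance of matrix factorizations (MP_c8c50b_ag), helper26

Part 10: definitions. The ring `BB n A` of functions on the formal neighbourhood of the diagonal
(first point `x = y + ε`, second point `y`), its filtration, the Taylor homomorphism, the values of
restricted power series, the family.
-/

set_option autoImplicit false

open Finset.HasAntidiagonal (antidiagonal mem_antidiagonal)

namespace Pool.Agent.MFI

noncomputable section

/-! ## completeness and values of restricted series -/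

/-- the filtration is separated and complete -/
structure Filt.Cpl {E : Type*} [Ring E] (φ : Filt E) : Prop where
  sep : ∀ x, (∀ N, x ∈ φ.F N) → x = 0
  lim : ∀ u : ℕ → E, (∀ N, ∃ M, ∀ m ≥ M, u (m + 1) - u m ∈ φ.F N) →
    ∃ x, ∀ N, ∃ M, ∀ m ≥ M, x - u m ∈ φ.F N

/-- the `M`-th truncated sum of `X` at `τ` -/
def psum {E : Type*} [Ring E] (τ : E) (X : PowerSeries E) (M : ℕ) : E :=
  ∑ m ∈ Finset.range M, PowerSeries.coeff m X * τ ^ m

open Classical in
/-- the value of a (restricted) series at `τ` -/
def Filt.ev {E : Type*} [Ring E] (φ : Filt E) (τ : E) (X : PowerSeries E) : E :=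
  if h : ∃ x, ∀ N, ∃ M, ∀ m ≥ M, x - psum τ X m ∈ φ.F N then h.choose else 0

/-! ## filtrations -/

/-- the `I`-adic filtration -/
def fA {A : Type*} [CommRing A] (I : Ideal A) : Filt A where
  F N := (I ^ N).toAddSubgroup
  zero x := by simp
  mono N x h := Ideal.pow_le_pow_right (Nat.le_succ N) h
  mul i j x y hx hy := by
    have : x * y ∈ I ^ (i + j) := by
      rw [pow_add]
      exact Ideal.mul_mem_mul hx hy
    exact this

lemma mem_fA {A : Type*} [CommRing A] {I : Ideal A} {N : ℕ} {x : A} :
    x ∈ (fA I).F N ↔ x ∈ I ^ N := Iff.rfl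

/-- the entrywise filtration of a matrix ring -/
def fM {E : Type*} [Ring E] (V : Type*) [Fintype V] [DecidableEq V] (φ : Filt E) :
    Filt (Matrix V V E) where
  F N := 
    { carrier := {M | ∀ i j, M i j ∈ φ.F N}
      add_mem' := fun ha hb i j => add_mem (ha i j) (hb i j)
      zero_mem' := fun i j => zero_mem _
      neg_mem' := fun ha i j => neg_mem (ha i j) }
  zero M i j := φ.zero _
  mono N M h i j := φ.mono N _ (h i j)
  mul a b M M' h h' i j := by
    rw [Matrix.mul_apply]
    exact sum_mem fun k _ => φ.mul a b _ _ (h i k) (h' k j)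

lemma mem_fM {E : Type*} [Ring E] {V : Type*} [Fintype V] [DecidableEq V] {φ : Filt E} {N : ℕ}
    {M : Matrix V V E} : M ∈ (fM V φ).F N ↔ ∀ i j, M i j ∈ φ.F N := Iff.rfl

/-! ## jets -/

/-- functions on the formal neighbourhood of the diagonal -/
abbrev BB (n : ℕ) (A : Type*) := MvPowerSeries (Fin n) A

variable {n : ℕ} {A : Type*} [CommRing A]

/-- functions of the second point `y` -/
abbrev cc : A →+* BB n A := MvPowerSeries.C

/-- restriction to the diagonal -/
abbrev ev0 : BB n A →+* A := MvPowerSeries.constantCoeff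

/-- the coordinates `ε_i` -/
abbrev ee (i : Fin n) : BB n A := MvPowerSeries.X i

/-- the derivative with respect to `ε_k` -/
def pd (k : Fin n) : BB n A →+ BB n A := (MvPowerSeries.pderiv A k).toLinearMap.toAddMonoidHom

/-- the filtration: `F ∈ F N` iff the coefficient of `ε^α` lies in `I^(N-|α|)` -/
def fB (n : ℕ) (I : Ideal A) : Filt (BB n A) where
  F N := 
    { carrier := {X | ∀ α : Fin n →₀ ℕ, MvPowerSeries.coeff α X ∈ I ^ (N - α.degree)}
      add_mem' := fun ha hb α => by
        rw [map_add]
        exact add_mem (ha α) (hb α)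
      zero_mem' := fun α => by
        rw [map_zero]
        exact zero_mem _
      neg_mem' := fun ha α => by
        rw [map_neg]
        exact neg_mem (ha α) }
  zero X α := by
    rw [Nat.zero_sub, pow_zero, Ideal.one_eq_top]
    trivial
  mono N X h α := Ideal.pow_le_pow_right (by omega) (h α)
  mul a b X Y h h' α := by
    classical
    rw [MvPowerSeries.coeff_mul]
    refine sum_mem fun p hp => ?_
    have h1 : p.1 + p.2 = α := mem_antidiagonal.1 hp
    have h2 : α.degree = p.1.degree + p.2.degree := by rw [← h1, map_add]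
    have h3 := Ideal.mul_mem_mul (h p.1) (h' p.2)
    rw [← pow_add] at h3
    exact Ideal.pow_le_pow_right (by omega) h3

lemma mem_fB {I : Ideal A} {N : ℕ} {X : BB n A} :
    X ∈ (fB n I).F N ↔ ∀ α : Fin n →₀ ℕ, MvPowerSeries.coeff α X ∈ I ^ (N - α.degree) := Iff.rfl

/-- commuting derivations with dual coordinates -/
structure Cder (n : ℕ) (A : Type*) [CommRing A] where
  D : Fin n → A →+ A
  leib : ∀ k a b, D k (a * b) = D k a * b + a * D k b
  comm : ∀ i j a, D i (D j a) = D j (D i a)
  x : Fin n → A
  dual : ∀ i j, D i (x j) = if i = j then 1 else 0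

variable (𝔡 : Cder n A)

instance : LeftCommutative (fun (k : Fin n) (a : A) => 𝔡.D k a) := ⟨fun i j a => 𝔡.comm i j a⟩

/-- the iterated derivative `∂^α a` -/
def dpow (α : Fin n →₀ ℕ) (a : A) : A :=
  Multiset.foldr (fun (k : Fin n) (a : A) => 𝔡.D k a) a (Finsupp.toMultiset α)

/-- the factorial of a multi-index -/
def mfac (α : Fin n →₀ ℕ) : ℕ := ∏ i, (α i).factorial

variable [Algebra ℚ A]

/-- the Taylor series `a(y + ε)`, as a function -/
def tayf (a : A) : BB n A := fun α => ((mfac α : ℚ)⁻¹) • dpow 𝔡 α a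

/-- The operator dividing the coefficient of `ε^α` by `|α| + r`. -/
def dvd (r : ℕ) (X : BB n A) : BB n A :=
  fun α => (((α.degree + r : ℕ) : ℚ)⁻¹) • MvPowerSeries.coeff α X

/-! ## the family -/

/-- the family `φ_t` with `φ_0 = 1` : a homomorphism to restricted power series whose velocity
field is Koszul exact -/
structure Fam (I : Ideal A) (f : A) where
  φ : A →+* PowerSeries A
  rst : ∀ a, (fA I).Rst (φ a)
  init : ∀ a, PowerSeries.coeff 0 (φ a) = a
  b : Fin n → Fin n → PowerSeries A
  brst : ∀ i j, (fA I).Rst (b i j)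
  anti : ∀ i j, b i j = - b j i
  vel : ∀ a, dt (φ a) = ∑ k, (∑ j, b k j * φ (𝔡.D j f)) * φ (𝔡.D k a)

variable {𝔡} {I : Ideal A} {f : A}

/-- the velocity -/
def Fam.w (Φ : Fam 𝔡 I f) (k : Fin n) : PowerSeries A := ∑ j, Φ.b k j * Φ.φ (𝔡.D j f)

end

end Pool.Agent.MFI
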