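import Pool.Agent.MFI.Def

/-!
# Isotopy invariance of matrix factorizations (MP_c8c50b_ag), helper26

Part 11: definitions: matrix factorizations, their dg category and their homotopy category, dg
functors, equivalence of dg functors.
-/

set_option autoImplicit false

open CategoryTheory

namespace Pool.Agent.MFI

universe u

noncomputable section

/-- the index set of the standard graded module `A^p ⊕ A^q` -/
abbrev Ix (p q : ℕ) := Fin p ⊕ Fin q

/-- the grading operator of `A^p ⊕ A^q`: `1` on `A^p` and `-1` on `A^q` -/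
def sg (A : Type u) [CommRing A] (p q : ℕ) : Matrix (Ix p q) (Ix p q) A :=
  Matrix.fromBlocks 1 0 0 (-1)

/-- A `ℤ/2`-graded matrix factorization of `f` over `A`. The underlying graded module is the
projective module `E = E₀ ⊕ E₁`, the image of the even idempotent matrix `e` acting on
`A^p ⊕ A^q`; the differential is the odd matrix `d` (so `d = (d₀ : E₀ → E₁, d₁ : E₁ → E₀)`), with
`d₁ d₀ = f` and `d₀ d₁ = f`. -/
structure MF (A : Type u) [CommRing A] (f : A) where
  p : ℕ
  q : ℕ
  e : Matrix (Ix p q) (Ix p q) A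
  d : Matrix (Ix p q) (Ix p q) A
  idem : e * e = e
  even : sg A p q * e = e * sg A p q
  odd : sg A p q * d = -(d * sg A p q)
  ed : e * d = d
  de : d * e = d
  dd : d * d = f • e

variable {A : Type u} [CommRing A] {f : A}

/-- the grading operator of a matrix factorization -/
abbrev MF.γ (P : MF A f) : Matrix (Ix P.p P.q) (Ix P.p P.q) A := sg A P.p P.q

/-- The graded module of all morphisms from `P` to `Q`: all linear maps `E_P → E_Q`. -/
@[ext]
structure MHom (P Q : MF A f) where
  u : Matrix (Ix Q.p Q.q) (Ix P.p P.q) A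
  eu : Q.e * u = u
  ue : u * P.e = u

/-- even (degree `0`) morphisms -/
def MHom.Even {P Q : MF A f} (a : MHom P Q) : Prop := Q.γ * a.u = a.u * P.γ

/-- odd (degree `1`) morphisms -/
def MHom.Odd {P Q : MF A f} (a : MHom P Q) : Prop := Q.γ * a.u = -(a.u * P.γ)

/-- closed even morphisms -/
structure ZHom (P Q : MF A f) extends MHom P Q where
  ev : Q.γ * u = u * P.γ
  cl : Q.d * u = u * P.d

/-- homotopy of closed even morphisms: `a - b = d z + z d` with `z` odd -/
def ZHom.Homotopic {P Q : MF A f} (a b : ZHom P Q) : Prop :=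
  ∃ z : MHom P Q, z.Odd ∧ a.u - b.u = Q.d * z.u + z.u * P.d

lemma sg_map {A' : Type u} [CommRing A'] (φ : A →+* A') (p q : ℕ) :
    sg A' p q = (sg A p q).map φ := by
  rw [sg, sg, Matrix.fromBlocks_map]
  congr 1
  · exact (Matrix.map_one φ (map_zero φ) (map_one φ)).symm
  · ext i j; simp
  · ext i j; simp
  · ext i j
    by_cases hij : i = j
    · subst hij; simp
    · simp [Matrix.one_apply_ne hij]

lemma sg_sq (p q : ℕ) : sg A p q * sg A p q = 1 := by
  rw [sg, Matrix.fromBlocks_multiply]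
  simp

/-- pull back along a ring homomorphism `φ` with `φ f = f'` -/
def MF.pull {A' : Type u} [CommRing A'] {f' : A'} (φ : A →+* A') (h : φ f = f') (P : MF A f) :
    MF A' f' where
  p := P.p
  q := P.q
  e := P.e.map φ
  d := P.d.map φ
  idem := by rw [← Matrix.map_mul, P.idem]
  even := by
    rw [sg_map φ P.p P.q, ← Matrix.map_mul, P.even, Matrix.map_mul]
  odd := by
    rw [sg_map φ P.p P.q, ← Matrix.map_mul, P.odd, ← Matrix.map_mul]
    ext i j
    rw [Matrix.map_apply, Matrix.neg_apply, map_neg, Matrix.neg_apply, Matrix.map_apply]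
  ed := by rw [← Matrix.map_mul, P.ed]
  de := by rw [← Matrix.map_mul, P.de]
  dd := by
    rw [← Matrix.map_mul, P.dd]
    ext i j
    simp [h]

/-! ## factorizations with arbitrary underlying module, dg functors -/

/-- A `ℤ/2`-graded factorization of `f` with an arbitrary underlying module. The grading is given by
the involution `γ` (`1` on the even part, `-1` on the odd part). -/
structure Fact (A : Type u) [CommRing A] (f : A) where
  M : Type u
  [grp : AddCommGroup M]
  [mod : Module A M]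
  γ : M →ₗ[A] M
  d : M →ₗ[A] M
  γγ : ∀ v, γ (γ v) = v
  γd : ∀ v, γ (d v) = - d (γ v)
  dd : ∀ v, d (d v) = f • v

attribute [instance] Fact.grp Fact.mod

/-- even closed maps -/
structure FMap (P Q : Fact A f) where
  g : P.M →ₗ[A] Q.M
  ev : ∀ v, Q.γ (g v) = g (P.γ v)
  cl : ∀ v, Q.d (g v) = g (P.d v)

/-- a homotopy equivalence -/
def FMap.IsHtpyEquiv {P Q : Fact A f} (g : FMap P Q) : Prop :=
  ∃ (r : FMap Q P) (z : P.M →ₗ[A] P.M) (z' : Q.M →ₗ[A] Q.M),
    (∀ v, P.γ (z v) = - z (P.γ v)) ∧ (∀ v, Q.γ (z' v) = - z' (Q.γ v)) ∧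
    (∀ v, r.g (g.g v) - v = P.d (z v) + z (P.d v)) ∧
    (∀ v, g.g (r.g v) - v = Q.d (z' v) + z' (Q.d v))

/-- Dg functors from the dg category of matrix factorizations of `f` over `A` to the dg category of
all factorizations of `f'` over `A'`. (A linear map `u` of graded modules has the graded commutator
`d u - (γ u γ) d` as differential.) -/
structure DGF (A : Type u) [CommRing A] (f : A) (A' : Type u) [CommRing A'] (f' : A') where
  obj : MF A f → Fact A' f'
  map : ∀ {P Q : MF A f}, MHom P Q → ((obj P).M →ₗ[A'] (obj Q).M)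
  map_add : ∀ {P Q : MF A f} (a b c : MHom P Q), c.u = a.u + b.u → map c = map a + map b
  map_one : ∀ {P : MF A f} (a : MHom P P), a.u = P.e → map a = LinearMap.id
  map_comp : ∀ {P Q R : MF A f} (a : MHom P Q) (b : MHom Q R) (c : MHom P R), c.u = b.u * a.u →
    map c = map b ∘ₗ map a
  map_gr : ∀ {P Q : MF A f} (a c : MHom P Q), c.u = Q.γ * a.u * P.γ →
    ∀ v, map c v = (obj Q).γ (map a ((obj P).γ v))
  map_d : ∀ {P Q : MF A f} (a c : MHom P Q), c.u = Q.d * a.u - Q.γ * a.u * P.γ * P.d →
    ∀ v, map c v = (obj Q).d (map a v) - (obj Q).γ (map a ((obj P).γ ((obj P).d v)))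

/-- A weak equivalence of dg functors: a closed even natural transformation which is a homotopy
equivalence for every object. -/
structure Wk {A' : Type u} [CommRing A'] {f' : A'} (K F : DGF A f A' f') where
  η : ∀ P, FMap (K.obj P) (F.obj P)
  nat : ∀ {P Q : MF A f} (a : MHom P Q) v, (η Q).g (K.map a v) = F.map a ((η P).g v)
  eqv : ∀ P, (η P).IsHtpyEquiv

/-- two dg functors are equivalent if they are joined by weak equivalences `F ← K → G` -/
def DGEq {A' : Type u} [CommRing A'] {f' : A'} (F G : DGF A f A' f') : Prop :=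
  ∃ K : DGF A f A' f', Nonempty (Wk K F) ∧ Nonempty (Wk K G)

/-- the factorization with underlying module the image of `e` -/
def MF.fact (P : MF A f) : Fact A f where
  M := LinearMap.range (Matrix.mulVecLin P.e)
  γ := (Matrix.mulVecLin P.γ).restrict (by
    rintro _ ⟨v, rfl⟩
    refine ⟨P.γ.mulVec v, ?_⟩
    simp only [Matrix.mulVecLin_apply, Matrix.mulVec_mulVec, P.even])
  d := (Matrix.mulVecLin P.d).restrict (by
    rintro _ ⟨v, rfl⟩
    refine ⟨P.d.mulVec v, ?_⟩
    simp only [Matrix.mulVecLin_apply, Matrix.mulVec_mulVec, P.ed, P.de])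
  γγ := by
    rintro ⟨v, hv⟩
    apply Subtype.ext
    simp only [LinearMap.restrict_apply, Matrix.mulVecLin_apply, Matrix.mulVec_mulVec, sg_sq,
      Matrix.one_mulVec]
  γd := by
    rintro ⟨v, hv⟩
    apply Subtype.ext
    simp only [LinearMap.restrict_apply, Matrix.mulVecLin_apply, Matrix.mulVec_mulVec, P.odd,
      Matrix.neg_mulVec, Submodule.coe_neg]
  dd := by
    rintro ⟨_, ⟨v, rfl⟩⟩
    apply Subtype.ext
    simp only [LinearMap.restrict_apply, Matrix.mulVecLin_apply, Matrix.mulVec_mulVec, P.dd,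
      P.de, Submodule.coe_smul, Matrix.smul_mulVec]

/-- a morphism of matrix factorizations as a linear map -/
def MHom.lin {P Q : MF A f} (a : MHom P Q) : P.fact.M →ₗ[A] Q.fact.M :=
  (Matrix.mulVecLin a.u).restrict (by
    rintro _ ⟨v, rfl⟩
    refine ⟨a.u.mulVec v, ?_⟩
    simp only [Matrix.mulVecLin_apply, Matrix.mulVec_mulVec, a.eu, a.ue])

/-- the inclusion of the image of `e` -/
def MF.val (P : MF A f) : P.fact.M →ₗ[A] (Ix P.p P.q → A) :=
  Submodule.subtype (LinearMap.range (Matrix.mulVecLin P.e))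

lemma MF.val_inj (P : MF A f) {v w : P.fact.M} (h : P.val v = P.val w) : v = w :=
  Subtype.ext h

lemma MHom.lin_coe {P Q : MF A f} (a : MHom P Q) (v : P.fact.M) :
    Q.val (a.lin v) = a.u.mulVec (P.val v) := rfl

lemma MF.fact_γ_coe (P : MF A f) (v : P.fact.M) :
    P.val (P.fact.γ v) = P.γ.mulVec (P.val v) := rfl

lemma MF.fact_d_coe (P : MF A f) (v : P.fact.M) :
    P.val (P.fact.d v) = P.d.mulVec (P.val v) := rfl

lemma MF.e_coe (P : MF A f) (v : P.fact.M) : P.e.mulVec (P.val v) = P.val v := by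
  obtain ⟨_, ⟨v, rfl⟩⟩ := v
  change P.e.mulVec (P.e.mulVec v) = P.e.mulVec v
  rw [Matrix.mulVec_mulVec, P.idem]

lemma MF.exists_val (P : MF A f) {v : Ix P.p P.q → A} (h : P.e.mulVec v = v) :
    ∃ w : P.fact.M, P.val w = v := ⟨⟨v, ⟨v, h⟩⟩, rfl⟩

/-- pull back of morphisms -/
def MHom.pull {A' : Type u} [CommRing A'] {f' : A'} (φ : A →+* A') (h : φ f = f') {P Q : MF A f}
    (a : MHom P Q) : MHom (P.pull φ h) (Q.pull φ h) where
  u := a.u.map φ
  eu := by
    change Q.e.map φ * a.u.map φ = a.u.map φ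
    rw [← Matrix.map_mul, a.eu]
  ue := by
    change a.u.map φ * P.e.map φ = a.u.map φ
    rw [← Matrix.map_mul, a.ue]

/-- The dg functor `φ^*`, with values in the dg category of all factorizations. -/
def DGF.pull {A' : Type u} [CommRing A'] {f' : A'} (φ : A →+* A') (h : φ f = f') :
    DGF A f A' f' where
  obj P := (P.pull φ h).fact
  map a := (a.pull φ h).lin
  map_add {P Q} a b c hc := by
    ext1 v
    apply MF.val_inj
    rw [LinearMap.add_apply, LinearMap.map_add, MHom.lin_coe, MHom.lin_coe, MHom.lin_coe]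
    change (c.u.map φ).mulVec _ = (a.u.map φ).mulVec _ + (b.u.map φ).mulVec _
    rw [← Matrix.add_mulVec, hc]
    congr 1
    ext i j
    simp
  map_one {P} a ha := by
    ext1 v
    apply MF.val_inj
    rw [MHom.lin_coe]
    change (a.u.map φ).mulVec _ = _
    rw [ha]
    exact (P.pull φ h).e_coe v
  map_comp a b c hc := by
    ext1 v
    apply MF.val_inj
    rw [LinearMap.comp_apply, MHom.lin_coe, MHom.lin_coe, MHom.lin_coe]
    change (c.u.map φ).mulVec _ = (b.u.map φ).mulVec ((a.u.map φ).mulVec _)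
    rw [Matrix.mulVec_mulVec, hc, Matrix.map_mul]
  map_gr {P Q} a c hc v := by
    apply MF.val_inj
    rw [MF.fact_γ_coe, MHom.lin_coe, MHom.lin_coe, MF.fact_γ_coe]
    change (c.u.map φ).mulVec _ = (sg A' _ _).mulVec ((a.u.map φ).mulVec
      ((sg A' _ _).mulVec _))
    rw [Matrix.mulVec_mulVec, Matrix.mulVec_mulVec, hc, Matrix.map_mul, Matrix.map_mul]
    rw [MF.γ, MF.γ, ← sg_map φ, ← sg_map φ, Matrix.mul_assoc]
  map_d {P Q} a c hc v := by
    apply MF.val_inj
    rw [map_sub, MF.fact_γ_coe, MHom.lin_coe, MF.fact_d_coe, MHom.lin_coe, MHom.lin_coe,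
      MF.fact_γ_coe, MF.fact_d_coe]
    change (c.u.map φ).mulVec _ = (Q.d.map φ).mulVec ((a.u.map φ).mulVec _) -
      (sg A' _ _).mulVec ((a.u.map φ).mulVec ((sg A' _ _).mulVec ((P.d.map φ).mulVec _)))
    rw [Matrix.mulVec_mulVec, Matrix.mulVec_mulVec, Matrix.mulVec_mulVec, Matrix.mulVec_mulVec, hc,
      ← Matrix.sub_mulVec]
    congr 1
    have e1 : (Q.d * a.u - Q.γ * a.u * P.γ * P.d).map φ =
        (Q.d * a.u).map φ - (Q.γ * a.u * P.γ * P.d).map φ := by
      ext i j
      simp only [Matrix.map_apply, Matrix.sub_apply, map_sub]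
    rw [e1, Matrix.map_mul, Matrix.map_mul, Matrix.map_mul, Matrix.map_mul, MF.γ, MF.γ,
      ← sg_map φ, ← sg_map φ, Matrix.mul_assoc, Matrix.mul_assoc]

end

end Pool.Agent.MFI
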