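import Pool.Agent.MFI.Frm

/-!
# Isotopy invariance of matrix factorizations (MP_c8c50b_ag), helper26

Part 18: families over a frame: first properties, the chain rules, the Jacobian matrix.
(The determinant of a solution: helper27, module JAC.)
-/

set_option autoImplicit false

open PowerSeries
open Finset.HasAntidiagonal (antidiagonal mem_antidiagonal)

namespace Pool.Agent.MFI

universe u

noncomputable section

section General

/-- the filtration of the ring of power series -/
def fP {E : Type*} [Ring E] (φ : Filt E) : Filt (PowerSeries E) where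
  F N := 
    { carrier := {X | φ.InF N X}
      add_mem' := fun ha hb => Filt.InF.add ha hb
      zero_mem' := Filt.InF.zero
      neg_mem' := fun ha => Filt.InF.neg ha }
  zero _ _ := φ.zero _
  mono N _ h := Filt.InF.mono (Nat.le_succ N) h
  mul _ _ _ _ h h' := Filt.InF.mul h h'

lemma mem_fP {E : Type*} [Ring E] {φ : Filt E} {N : ℕ} {X : PowerSeries E} :
    X ∈ (fP φ).F N ↔ φ.InF N X := Iff.rfl

/-- coefficientwise application -/
def pco {E : Type*} [Ring E] (δ : E →+ E) : PowerSeries E →+ PowerSeries E where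
  toFun X := PowerSeries.mk fun m => δ (coeff m X)
  map_zero' := by ext m; simp
  map_add' X Y := by ext m; simp

lemma coeff_pco {E : Type*} [Ring E] (δ : E →+ E) (X : PowerSeries E) (m : ℕ) :
    coeff m (pco δ X) = δ (coeff m X) := by simp [pco]

lemma pco_mul {E : Type*} [Ring E] (δ : E →+ E) (hδ : ∀ a b, δ (a * b) = δ a * b + a * δ b)
    (X Y : PowerSeries E) : pco δ (X * Y) = pco δ X * Y + X * pco δ Y := by
  ext m
  rw [coeff_pco, coeff_mul, map_sum, map_add, coeff_mul, coeff_mul, ← Finset.sum_add_distrib]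
  refine Finset.sum_congr rfl fun p _ => ?_
  rw [hδ, coeff_pco, coeff_pco]

lemma dt_pco {E : Type*} [Ring E] (δ : E →+ E) (X : PowerSeries E) :
    dt (pco δ X) = pco δ (dt X) := by
  ext m
  rw [coeff_dt, coeff_pco, coeff_pco, coeff_dt, map_nsmul]

lemma pco_C {E : Type*} [Ring E] (δ : E →+ E) (x : E) : pco δ (C x) = C (δ x) := by
  ext m
  rw [coeff_pco, coeff_C, coeff_C]
  split_ifs
  · rfl
  · exact map_zero δ

/-- a series whose derivative lies in `F N` -/
lemma inF_of_dt {E : Type*} [Ring E] [Algebra ℚ E] {φ : Filt E} {N : ℕ} {X : PowerSeries E}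
    (h : φ.InF N (dt X)) (h0 : coeff 0 X ∈ φ.F N) : φ.InF N X := by
  intro m
  rcases m with _ | m
  · exact h0
  · have h1 := φ.qsmul ((m + 1 : ℚ)⁻¹) (h m)
    rw [coeff_dt] at h1
    have h2 : ((m + 1 : ℚ)⁻¹) • ((m + 1) • coeff (m + 1) X) = coeff (m + 1) X := by
      have h3 : ((m + 1) • coeff (m + 1) X : E) = ((m + 1 : ℚ)) • coeff (m + 1) X := by
        rw [show ((m + 1 : ℚ)) = ((m + 1 : ℕ) : ℚ) by push_cast; rfl, Nat.cast_smul_eq_nsmul]
      rw [h3, smul_smul, inv_mul_cancel₀ (by positivity), one_smul]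
    rwa [h2] at h1

lemma eq_zero_of_eq_neg {E : Type*} [Ring E] [Algebra ℚ E] {x : E} (h : x = -x) : x = 0 := by
  have h1 : (1 + 1) • x = 0 := by
    rw [add_smul, one_smul]
    nth_rewrite 2 [h]
    exact add_neg_cancel x
  exact nsmul_inj h1

lemma dt_eq_deriv {S : Type*} [CommRing S] (y : PowerSeries S) :
    dt y = PowerSeries.derivative S y := by
  ext m
  rw [coeff_dt, coeff_derivative, nsmul_eq_mul, mul_comm]
  push_cast
  rfl

/-- the determinant of a solution (helper27) -/
lemma JS.det {S : Type*} [CommRing S] [Algebra ℚ S] {n : ℕ} {m : Fin n → Fin n → S}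
    {β J : Fin n → Fin n → PowerSeries S} (h : JS m β J) : (Matrix.of J).det = 1 := by
  have h1 : PowerSeries.derivative S (Matrix.of J).det =
      (Matrix.of fun i l => ∑ j, β i j * C (m j l + m l j)).trace * (Matrix.of J).det := by
    apply liouville
    intro i k
    rw [Matrix.mul_apply, ← dt_eq_deriv]
    exact h.ode i k
  have h2 : (Matrix.of fun i l => ∑ j, β i j * C (m j l + m l j)).trace = 0 := by
    rw [Matrix.trace]
    simp only [Matrix.diag_apply, Matrix.of_apply]
    refine eq_zero_of_eq_neg ?_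
    nth_rewrite 1 [Finset.sum_comm]
    rw [← Finset.sum_neg_distrib]
    refine Finset.sum_congr rfl fun j _ => ?_
    rw [← Finset.sum_neg_distrib]
    refine Finset.sum_congr rfl fun k _ => ?_
    rw [h.anti k j, neg_mul, add_comm]
  rw [h2, zero_mul, ← dt_eq_deriv] at h1
  rw [eq_C_of_dt h1]
  have h3 : coeff 0 (Matrix.of J).det = 1 := by
    have h4 : coeff 0 (Matrix.of J).det =
        ((PowerSeries.constantCoeff (R := S)).mapMatrix (Matrix.of J)).det := by
      rw [← RingHom.map_det, coeff_zero_eq_constantCoeff_apply]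
    rw [h4]
    have h5 : (PowerSeries.constantCoeff (R := S)).mapMatrix (Matrix.of J) = 1 := by
      ext i k
      rw [RingHom.mapMatrix_apply, Matrix.map_apply, Matrix.of_apply,
        ← coeff_zero_eq_constantCoeff_apply, h.init, Matrix.one_apply]
    rw [h5, Matrix.det_one]
  rw [h3, map_one]

end General

variable {k A : Type u} [Field k] [CommRing A] [Algebra k A] {I : Ideal A} {n : ℕ}

/-- a family with `φ_0 = 1` over a frame -/
structure FamF (X : Frame k A I n) (f : A) where
  φ : A →+* PowerSeries A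
  lin : ∀ r : k, φ (algebraMap k A r) = C (algebraMap k A r)
  rst : ∀ a, (fA I).Rst (φ a)
  cont : ∀ a ∈ I, (fA I).InF 1 (φ a)
  init : ∀ a, coeff 0 (φ a) = a
  b : Fin n → Fin n → PowerSeries A
  brst : ∀ i j, (fA I).Rst (b i j)
  anti : ∀ i j, b i j = - b j i
  vel : ∀ i, dt (φ (X.x i)) = ∑ j, b i j * φ (X.D j f)

variable {X : Frame k A I n} {f : A} (Φ : FamF X f)

/-- the velocity -/
def FamF.w (i : Fin n) : PowerSeries A := ∑ j, Φ.b i j * Φ.φ (X.D j f)

lemma FamF.pow (N : ℕ) (a : A) (ha : a ∈ I ^ N) : (fA I).InF N (Φ.φ a) := by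
  induction N generalizing a with
  | zero => exact fun m => (fA I).zero _
  | succ N ih =>
    have key : Φ.φ a ∈ (fP (fA I)).F (N + 1) := by
      rw [pow_succ] at ha
      refine Submodule.mul_induction_on ha ?_ ?_
      · intro x hx y hy
        rw [map_mul]
        exact (fP (fA I)).mul N 1 _ _ (ih x hx) (Φ.cont y hy)
      · intro x y hx hy
        rw [map_add]
        exact add_mem hx hy
    exact key

lemma sep_fP [IsHausdorff I A] (F : PowerSeries A) (h : ∀ N, F ∈ (fP (fA I)).F N) : F = 0 := by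
  ext m
  refine IsHausdorff.haus (inferInstance : IsHausdorff I A) _ fun N => ?_
  rw [SModEq.zero]
  have h1 : coeff m F ∈ I ^ N := h N m
  simpa using h1

/-- the equation of the family -/
lemma FamF.dt_φ [IsHausdorff I A] (a : A) :
    dt (Φ.φ a) = ∑ j, Φ.φ (X.D j a) * Φ.w j := by
  have h := X.gen_ring Φ.φ (fP (fA I)) Φ.pow sep_fP (dt.comp Φ.φ.toAddMonoidHom) (by
    intro a b
    change dt (Φ.φ (a * b)) = Φ.φ a * dt (Φ.φ b) + Φ.φ b * dt (Φ.φ a)
    rw [map_mul, dt_mul]
    ring) (by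
    intro r
    change dt (Φ.φ (algebraMap k A r)) = 0
    rw [Φ.lin, dt_C]) a
  change dt (Φ.φ a) = ∑ j, Φ.φ (X.D j a) * dt (Φ.φ (X.x j)) at h
  rw [h]
  exact Finset.sum_congr rfl fun j _ => by rw [Φ.vel]; rfl

/-- the chain rule -/
lemma FamF.pco_φ [IsHausdorff I A] (i : Fin n) (a : A) :
    pco (X.δ i) (Φ.φ a) = ∑ j, Φ.φ (X.D j a) * pco (X.δ i) (Φ.φ (X.x j)) := by
  refine X.gen_ring Φ.φ (fP (fA I)) Φ.pow sep_fP ((pco (X.δ i)).comp Φ.φ.toAddMonoidHom) ?_ ?_ a
  · intro a b
    change pco (X.δ i) (Φ.φ (a * b)) = Φ.φ a * pco (X.δ i) (Φ.φ b) + Φ.φ b * pco (X.δ i) (Φ.φ a)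
    rw [map_mul, pco_mul _ (X.δ_mul i)]
    ring
  · intro r
    change pco (X.δ i) (Φ.φ (algebraMap k A r)) = 0
    rw [Φ.lin, pco_C, X.δ_apply, (X.D i).map_algebraMap, map_zero]

/-- commutators of the derivations -/
lemma Frame.relc [IsHausdorff I A] (i j : Fin n) (a : A) (ha : ∀ l, X.D l a ∈ I) :
    X.D i (X.D j a) - X.D j (X.D i a) ∈ I := by
  have h := X.gen A ⁅X.D i, X.D j⁆ a
  rw [Derivation.commutator_apply] at h
  rw [h]
  exact sum_mem fun l _ => Ideal.mul_mem_right _ _ (ha l)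

variable (hf : ∀ i, X.D i f ∈ I)
include hf

lemma FamF.w1 (i : Fin n) : (fA I).InF 1 (Φ.w i) :=
  Filt.InF.sum _ _ fun j _ => Filt.InF.mul_left _ (Φ.cont _ (hf j))

omit hf in
lemma FamF.wr (i : Fin n) : (fA I).Rst (Φ.w i) :=
  Filt.Rst.sum _ _ fun j _ => (Φ.brst i j).mul (Φ.rst _)

variable [Algebra ℚ A]

lemma FamF.one [IsHausdorff I A] (a : A) : (fA I).InF 1 (Φ.φ a - C a) := by
  refine inF_of_dt ?_ ?_
  · rw [map_sub, dt_C, sub_zero, Φ.dt_φ]
    exact Filt.InF.sum _ _ fun j _ => Filt.InF.mul_left _ (Φ.w1 hf j)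
  · rw [map_sub, Φ.init, coeff_C, if_pos rfl, sub_self]
    exact zero_mem _

omit hf in
lemma FamF.fix [IsHausdorff I A] : Φ.φ f = C f := by
  have h1 : dt (Φ.φ f) = 0 := by
    rw [Φ.dt_φ]
    have e1 : ∑ j, Φ.φ (X.D j f) * Φ.w j = ∑ j, ∑ l, Φ.φ (X.D j f) * (Φ.b j l * Φ.φ (X.D l f)) := by
      refine Finset.sum_congr rfl fun j _ => ?_
      rw [FamF.w, Finset.mul_sum]
    rw [e1]
    refine eq_zero_of_eq_neg ?_
    nth_rewrite 1 [Finset.sum_comm]
    rw [← Finset.sum_neg_distrib]
    refine Finset.sum_congr rfl fun j _ => ?_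
    rw [← Finset.sum_neg_distrib]
    refine Finset.sum_congr rfl fun l _ => ?_
    rw [Φ.anti l j]
    ring
  rw [eq_C_of_dt h1, Φ.init]

/-- the Jacobian matrix -/
def FamF.Jt (i j : Fin n) : PowerSeries A :=
  (if i = j then 1 else 0) + pco (X.δ j) (Φ.φ (X.x i) - C (X.x i))

omit hf [Algebra ℚ A] in
lemma FamF.Jt_rst (i j : Fin n) : (fA I).Rst (Φ.Jt i j) := by
  refine Filt.Rst.add ?_ ?_
  · split_ifs
    · exact Filt.Rst.one
    · exact Filt.Rst.zero
  · intro N
    obtain ⟨M, hM⟩ := ((Φ.rst (X.x i)).sub (Filt.Rst.C (X.x i))) (N + 1)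
    refine ⟨M, fun m hm => ?_⟩
    rw [coeff_pco]
    have key : ∀ (N : ℕ) (a : A), a ∈ I ^ (N + 1) → X.δ j a ∈ I ^ N := by
      intro N
      induction N with
      | zero =>
        intro a _
        rw [pow_zero, Ideal.one_eq_top]
        trivial
      | succ N ih =>
        intro a ha
        rw [pow_succ] at ha
        refine Submodule.mul_induction_on ha ?_ ?_
        · intro x hx y hy
          rw [X.δ_mul]
          refine add_mem ?_ (Ideal.mul_mem_right _ _ hx)
          rw [pow_succ]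
          exact Ideal.mul_mem_mul (ih x hx) hy
        · intro x y hx hy
          rw [map_add]
          exact add_mem hx hy
    exact key N _ (hM m hm)

/-- the Jacobian matrix modulo `I` -/
def FamF.J (i j : Fin n) : PowerSeries (A ⧸ I) :=
  PowerSeries.map (Ideal.Quotient.mk I) (Φ.Jt i j)

omit hf [Algebra ℚ A] in
lemma map_zero_of_InF {F : PowerSeries A} (h : (fA I).InF 1 F) :
    PowerSeries.map (Ideal.Quotient.mk I) F = 0 := by
  ext l
  rw [PowerSeries.coeff_map, map_zero, Ideal.Quotient.eq_zero_iff_mem]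
  have := h l
  rwa [mem_fA, pow_one] at this

omit hf [Algebra ℚ A] in
lemma EvZ_of_Rst {F : PowerSeries A} (h : (fA I).Rst F) :
    EvZ (PowerSeries.map (Ideal.Quotient.mk I) F) := by
  obtain ⟨M, hM⟩ := h 1
  refine ⟨M, fun l hl => ?_⟩
  rw [PowerSeries.coeff_map, Ideal.Quotient.eq_zero_iff_mem]
  have := hM l hl
  rwa [mem_fA, pow_one] at this

lemma FamF.js [IsHausdorff I A] (m : Fin n → Fin n → A ⧸ I)
    (hm : ∀ i j, m i j + m j i = - Ideal.Quotient.mk I (X.D i (X.D j f))) :
    JS m (fun i j => - PowerSeries.map (Ideal.Quotient.mk I) (Φ.b i j)) Φ.J := by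
  have q2 : ∀ a, PowerSeries.map (Ideal.Quotient.mk I) (Φ.φ a) = C (Ideal.Quotient.mk I a) := by
    intro a
    have h1 := map_zero_of_InF (Φ.one hf a)
    rw [map_sub, sub_eq_zero, PowerSeries.map_C] at h1
    exact h1
  have q3 : ∀ j, PowerSeries.map (Ideal.Quotient.mk I) (Φ.φ (X.D j f)) = 0 := by
    intro j
    rw [q2, Ideal.Quotient.eq_zero_iff_mem.2 (hf j), map_zero]
  refine ⟨fun i j => ?_, fun i k => ?_, fun i k => ?_, fun i k => ?_, fun i k => ?_⟩
  · rw [Φ.anti i j, map_neg]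
  · have e0 : ∀ l, pco (X.δ k) (Φ.φ (X.x l)) = Φ.Jt l k - C ((if l = k then 1 else 0) -
        X.D k (X.x l)) := by
      intro l
      rw [FamF.Jt, map_sub, pco_C, X.δ_apply, map_sub]
      split_ifs
      · rw [map_one]; ring
      · rw [map_zero]; ring
    have e1 : dt (Φ.J i k) = PowerSeries.map (Ideal.Quotient.mk I) (pco (X.δ k) (Φ.w i)) := by
      rw [FamF.J, FamF.Jt]
      have h1 : dt (PowerSeries.map (Ideal.Quotient.mk I) ((if i = k then 1 else 0) +
          pco (X.δ k) (Φ.φ (X.x i) - C (X.x i)))) = PowerSeries.map (Ideal.Quotient.mk I)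
          (dt ((if i = k then 1 else 0) + pco (X.δ k) (Φ.φ (X.x i) - C (X.x i)))) :=
        dt_map _ _
      rw [h1, map_add dt, dt_pco, map_sub dt, dt_C, sub_zero, Φ.vel]
      have h2 : dt (if i = k then (1 : PowerSeries A) else 0) = 0 := by
        split_ifs
        · exact dt_one
        · exact map_zero _
      rw [h2, zero_add]
      rfl
    have e2 : ∀ j, PowerSeries.map (Ideal.Quotient.mk I) (pco (X.δ k) (Φ.b i j * Φ.φ (X.D j f))) =
        ∑ l, PowerSeries.map (Ideal.Quotient.mk I) (Φ.b i j) *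
          (C (Ideal.Quotient.mk I (X.D j (X.D l f))) * Φ.J l k) := by
      intro j
      rw [pco_mul _ (X.δ_mul k), map_add, map_mul, q3, mul_zero, zero_add, map_mul, Φ.pco_φ,
        map_sum, ← Finset.mul_sum]
      congr 1
      have e3 : ∀ l, PowerSeries.map (Ideal.Quotient.mk I)
          (Φ.φ (X.D l (X.D j f)) * pco (X.δ k) (Φ.φ (X.x l))) =
          C (Ideal.Quotient.mk I (X.D j (X.D l f))) * Φ.J l k -
            C (Ideal.Quotient.mk I (X.D l (X.D j f) * ((if l = k then 1 else 0) -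
              X.D k (X.x l)))) := by
        intro l
        have e4 : Ideal.Quotient.mk I (X.D j (X.D l f)) = Ideal.Quotient.mk I (X.D l (X.D j f)) :=
          (Ideal.Quotient.eq.2 (Frame.relc j l f hf))
        rw [map_mul, q2, e0, map_sub, PowerSeries.map_C, mul_sub, e4, ← map_mul C, ← map_mul]
        rfl
      rw [Finset.sum_congr rfl fun l _ => e3 l, Finset.sum_sub_distrib, sub_eq_self, ← map_sum,
        ← map_sum]
      have e5 : ∑ l, X.D l (X.D j f) * ((if l = k then 1 else 0) - X.D k (X.x l)) = 0 := by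
        simp only [mul_sub, Finset.sum_sub_distrib, mul_ite, mul_one, mul_zero]
        rw [Finset.sum_ite_eq' Finset.univ k, if_pos (Finset.mem_univ k), X.rel k (X.D j f),
          sub_eq_zero]
        exact Finset.sum_congr rfl fun l _ => mul_comm _ _
      rw [e5, map_zero, map_zero]
    rw [e1, FamF.w, map_sum, map_sum, Finset.sum_congr rfl fun j _ => e2 j, Finset.sum_comm]
    refine Finset.sum_congr rfl fun l _ => ?_
    rw [Finset.sum_mul]
    refine Finset.sum_congr rfl fun j _ => ?_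
    rw [hm, map_neg, neg_mul_neg, mul_assoc]
  · rw [FamF.J, FamF.Jt, map_add, map_add, PowerSeries.coeff_map, PowerSeries.coeff_map, coeff_pco,
      map_sub, Φ.init, coeff_C, if_pos rfl, sub_self, map_zero, map_zero, add_zero]
    split_ifs
    · rw [coeff_zero_one, map_one]
    · rw [map_zero, map_zero]
  · obtain ⟨M, hM⟩ := EvZ_of_Rst (Φ.brst i k)
    exact ⟨M, fun l hl => by rw [map_neg, hM l hl, neg_zero]⟩
  · exact EvZ_of_Rst (Φ.Jt_rst i k)

omit hf [Algebra ℚ A] in
/-- an inverse modulo `I` of the Jacobian matrix, with restricted entries -/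
lemma FamF.exists_K (hdet : (Matrix.of Φ.J).det = 1) :
    ∃ K : Matrix (Fin n) (Fin n) (PowerSeries A), (∀ i j, (fA I).Rst (K i j)) ∧
      ∀ i j, (fA I).InF 1 ((K * Matrix.of Φ.Jt) i j - if i = j then 1 else 0) := by
  set J' : Matrix (Fin n) (Fin n) (rstS (fA I)) := Matrix.of fun i j => ⟨Φ.Jt i j, Φ.Jt_rst i j⟩
    with hJ'
  have e0 : J'.map (rstS (fA I)).subtype = Matrix.of Φ.Jt := by
    ext1 i j
    rfl
  set K := J'.adjugate.map (rstS (fA I)).subtype with hK
  have e1 : K = (Matrix.of Φ.Jt).adjugate := by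
    rw [hK, ← e0]
    exact (RingHom.map_adjugate (rstS (fA I)).subtype J')
  refine ⟨K, fun i j => (J'.adjugate i j).2, fun i j => ?_⟩
  have e2 : K * Matrix.of Φ.Jt = (Matrix.of Φ.Jt).det • 1 := by
    rw [e1, Matrix.adjugate_mul]
  have e3 : PowerSeries.map (Ideal.Quotient.mk I) (Matrix.of Φ.Jt).det = 1 := by
    rw [RingHom.map_det, ← hdet]
    congr 1
  intro m
  rw [mem_fA, pow_one, ← Ideal.Quotient.eq_zero_iff_mem, ← PowerSeries.coeff_map, map_sub, e2,
    Matrix.smul_apply, smul_eq_mul, map_mul, e3, one_mul, Matrix.one_apply]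
  split_ifs <;> simp

end

end Pool.Agent.MFI
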