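import Pool.Agent.MFI.Ser

/-!
# Isotopy invariance of matrix factorizations (MP_c8c50b_ag), helper26

Part 2: filtered rings, restricted power series, and the lifting lemma: a fundamental matrix which
is a polynomial modulo the first step of the filtration is a restricted power series.
-/

set_option autoImplicit false

open PowerSeries
open Finset.HasAntidiagonal (antidiagonal mem_antidiagonal)

namespace Pool.Agent.MFI

noncomputable section

/-- a filtration of a ring by two-sided ideals -/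
structure Filt (E : Type*) [Ring E] where
  F : ℕ → AddSubgroup E
  zero : ∀ x, x ∈ F 0
  mono : ∀ N x, x ∈ F (N + 1) → x ∈ F N
  mul : ∀ i j x y, x ∈ F i → y ∈ F j → x * y ∈ F (i + j)

namespace Filt

variable {E : Type*} [Ring E] (φ : Filt E)

lemma mono' {N M : ℕ} (h : N ≤ M) {x : E} (hx : x ∈ φ.F M) : x ∈ φ.F N := by
  induction M, h using Nat.le_induction with
  | base => exact hx
  | succ M _ ih => exact ih (φ.mono M x hx)

lemma mul_left {N : ℕ} (y : E) {x : E} (hx : x ∈ φ.F N) : y * x ∈ φ.F N := by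
  have := φ.mul 0 N y x (φ.zero y) hx
  rwa [zero_add] at this

lemma mul_right {N : ℕ} (y : E) {x : E} (hx : x ∈ φ.F N) : x * y ∈ φ.F N :=
  φ.mul N 0 x y hx (φ.zero y)

lemma qsmul [Algebra ℚ E] {N : ℕ} (q : ℚ) {x : E} (hx : x ∈ φ.F N) : q • x ∈ φ.F N := by
  rw [Algebra.smul_def]
  exact φ.mul_left _ hx

/-- all coefficients lie in `F N` -/
def InF (N : ℕ) (X : PowerSeries E) : Prop := ∀ m, coeff m X ∈ φ.F N

/-- almost all coefficients lie in `F N` -/
def Pol (N : ℕ) (X : PowerSeries E) : Prop := ∃ M, ∀ m ≥ M, coeff m X ∈ φ.F N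

/-- restricted power series -/
def Rst (X : PowerSeries E) : Prop := ∀ N, φ.Pol N X

variable {φ}

lemma Pol.add {N : ℕ} {X Y : PowerSeries E} (hX : φ.Pol N X) (hY : φ.Pol N Y) :
    φ.Pol N (X + Y) := by
  obtain ⟨M, hM⟩ := hX
  obtain ⟨M', hM'⟩ := hY
  refine ⟨max M M', fun m hm => ?_⟩
  rw [map_add]
  exact add_mem (hM m (le_trans (le_max_left _ _) hm)) (hM' m (le_trans (le_max_right _ _) hm))

lemma Pol.neg {N : ℕ} {X : PowerSeries E} (hX : φ.Pol N X) : φ.Pol N (-X) := by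
  obtain ⟨M, hM⟩ := hX
  refine ⟨M, fun m hm => ?_⟩
  rw [map_neg]
  exact neg_mem (hM m hm)

lemma Pol.sub {N : ℕ} {X Y : PowerSeries E} (hX : φ.Pol N X) (hY : φ.Pol N Y) :
    φ.Pol N (X - Y) := by
  rw [sub_eq_add_neg]
  exact hX.add hY.neg

lemma Pol.zero {N : ℕ} : φ.Pol N 0 := ⟨0, fun m _ => by rw [map_zero]; exact zero_mem _⟩

lemma Pol.sum {N : ℕ} {ι : Type*} (s : Finset ι) (X : ι → PowerSeries E)
    (h : ∀ i ∈ s, φ.Pol N (X i)) : φ.Pol N (∑ i ∈ s, X i) := by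
  classical
  induction s using Finset.induction_on with
  | empty => exact Pol.zero
  | insert a s ha ih =>
    rw [Finset.sum_insert ha]
    exact (h a (Finset.mem_insert_self a s)).add
      (ih fun i hi => h i (Finset.mem_insert_of_mem hi))

lemma Pol.mul {N : ℕ} {X Y : PowerSeries E} (hX : φ.Pol N X) (hY : φ.Pol N Y) :
    φ.Pol N (X * Y) := by
  obtain ⟨M, hM⟩ := hX
  obtain ⟨M', hM'⟩ := hY
  refine ⟨M + M', fun m hm => ?_⟩
  rw [coeff_mul]
  refine sum_mem fun p hp => ?_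
  have h1 := mem_antidiagonal.1 hp
  rcases Nat.lt_or_ge p.1 M with h2 | h2
  · exact φ.mul_left _ (hM' p.2 (by omega))
  · exact φ.mul_right _ (hM p.1 h2)

lemma Pol.dt {N : ℕ} {X : PowerSeries E} (hX : φ.Pol N X) : φ.Pol N (dt X) := by
  obtain ⟨M, hM⟩ := hX
  refine ⟨M, fun m hm => ?_⟩
  rw [coeff_dt]
  exact nsmul_mem (hM _ (by omega)) _

lemma Pol.of_dt [Algebra ℚ E] {N : ℕ} {X : PowerSeries E} (hX : φ.Pol N (MFI.dt X)) :
    φ.Pol N X := by
  obtain ⟨M, hM⟩ := hX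
  refine ⟨M + 1, fun m hm => ?_⟩
  obtain ⟨j, rfl⟩ : ∃ j, m = j + 1 := ⟨m - 1, by omega⟩
  have h1 := φ.qsmul ((j + 1 : ℚ)⁻¹) (hM j (by omega))
  rw [coeff_dt] at h1
  have h2 : ((j + 1 : ℚ)⁻¹) • ((j + 1) • coeff (j + 1) X) = coeff (j + 1) X := by
    have h3 : ((j + 1) • coeff (j + 1) X : E) = ((j + 1 : ℚ)) • coeff (j + 1) X := by
      rw [show ((j + 1 : ℚ)) = ((j + 1 : ℕ) : ℚ) by push_cast; rfl, Nat.cast_smul_eq_nsmul]
    rw [h3, smul_smul, inv_mul_cancel₀ (by positivity), one_smul]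
  rwa [h2] at h1

lemma Pol.mono {N M : ℕ} (h : N ≤ M) {X : PowerSeries E} (hX : φ.Pol M X) : φ.Pol N X := by
  obtain ⟨K, hK⟩ := hX
  exact ⟨K, fun m hm => φ.mono' h (hK m hm)⟩

lemma InF.pol {N : ℕ} {X : PowerSeries E} (hX : φ.InF N X) : φ.Pol N X := ⟨0, fun m _ => hX m⟩

lemma InF.add {N : ℕ} {X Y : PowerSeries E} (hX : φ.InF N X) (hY : φ.InF N Y) :
    φ.InF N (X + Y) := fun m => by
  rw [map_add]
  exact add_mem (hX m) (hY m)

lemma InF.neg {N : ℕ} {X : PowerSeries E} (hX : φ.InF N X) : φ.InF N (-X) := fun m => by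
  rw [map_neg]
  exact neg_mem (hX m)

lemma InF.sub {N : ℕ} {X Y : PowerSeries E} (hX : φ.InF N X) (hY : φ.InF N Y) :
    φ.InF N (X - Y) := fun m => by
  rw [map_sub]
  exact sub_mem (hX m) (hY m)

lemma InF.zero {N : ℕ} : φ.InF N 0 := fun m => by rw [map_zero]; exact zero_mem _

lemma InF.sum {N : ℕ} {ι : Type*} (s : Finset ι) (X : ι → PowerSeries E)
    (h : ∀ i ∈ s, φ.InF N (X i)) : φ.InF N (∑ i ∈ s, X i) := fun m => by
  rw [map_sum]
  exact sum_mem fun i hi => h i hi m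

lemma InF.mul {i j : ℕ} {X Y : PowerSeries E} (hX : φ.InF i X) (hY : φ.InF j Y) :
    φ.InF (i + j) (X * Y) := fun m => by
  rw [coeff_mul]
  exact sum_mem fun p _ => φ.mul i j _ _ (hX p.1) (hY p.2)

lemma InF.mul_left {N : ℕ} (Y : PowerSeries E) {X : PowerSeries E} (hX : φ.InF N X) :
    φ.InF N (Y * X) := fun m => by
  rw [coeff_mul]
  exact sum_mem fun p _ => φ.mul_left _ (hX p.2)

lemma InF.mul_right {N : ℕ} (Y : PowerSeries E) {X : PowerSeries E} (hX : φ.InF N X) :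
    φ.InF N (X * Y) := fun m => by
  rw [coeff_mul]
  exact sum_mem fun p _ => φ.mul_right _ (hX p.1)

lemma InF.dt {N : ℕ} {X : PowerSeries E} (hX : φ.InF N X) : φ.InF N (dt X) := fun m => by
  rw [coeff_dt]
  exact nsmul_mem (hX _) _

lemma InF.mono {N M : ℕ} (h : N ≤ M) {X : PowerSeries E} (hX : φ.InF M X) : φ.InF N X :=
  fun m => φ.mono' h (hX m)

lemma Rst.add {X Y : PowerSeries E} (hX : φ.Rst X) (hY : φ.Rst Y) : φ.Rst (X + Y) :=
  fun N => (hX N).add (hY N)

lemma Rst.neg {X : PowerSeries E} (hX : φ.Rst X) : φ.Rst (-X) := fun N => (hX N).neg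

lemma Rst.sub {X Y : PowerSeries E} (hX : φ.Rst X) (hY : φ.Rst Y) : φ.Rst (X - Y) :=
  fun N => (hX N).sub (hY N)

lemma Rst.mul {X Y : PowerSeries E} (hX : φ.Rst X) (hY : φ.Rst Y) : φ.Rst (X * Y) :=
  fun N => (hX N).mul (hY N)

lemma Rst.dt {X : PowerSeries E} (hX : φ.Rst X) : φ.Rst (dt X) := fun N => (hX N).dt

lemma Rst.zero : φ.Rst 0 := fun _ => Pol.zero

lemma Rst.sum {ι : Type*} (s : Finset ι) (X : ι → PowerSeries E)
    (h : ∀ i ∈ s, φ.Rst (X i)) : φ.Rst (∑ i ∈ s, X i) :=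
  fun N => Pol.sum s X fun i hi => h i hi N

lemma Rst.C (x : E) : φ.Rst (C x) := fun N => ⟨1, fun m hm => by
  rw [coeff_C, if_neg (by omega)]
  exact zero_mem _⟩

lemma Rst.one : φ.Rst 1 := Rst.C 1

lemma Rst.pow {X : PowerSeries E} (hX : φ.Rst X) (n : ℕ) : φ.Rst (X ^ n) := by
  induction n with
  | zero => rw [pow_zero]; exact Rst.one
  | succ n ih => rw [pow_succ]; exact ih.mul hX

lemma step_left {N : ℕ} {X Y : PowerSeries E} (h1 : φ.InF 1 Y) (h2 : φ.Pol (N + 1) Y)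
    (hX : φ.Pol N X) : φ.Pol (N + 1) (Y * X) := by
  obtain ⟨M, hM⟩ := h2
  obtain ⟨M', hM'⟩ := hX
  refine ⟨M + M', fun m hm => ?_⟩
  rw [coeff_mul]
  refine sum_mem fun p hp => ?_
  have h3 := mem_antidiagonal.1 hp
  rcases Nat.lt_or_ge p.1 M with h4 | h4
  · have := φ.mul 1 N _ _ (h1 p.1) (hM' p.2 (by omega))
    rwa [add_comm] at this
  · exact φ.mul_right _ (hM p.1 h4)

lemma step_right {N : ℕ} {X Y : PowerSeries E} (h1 : φ.InF 1 Y) (h2 : φ.Pol (N + 1) Y)
    (hX : φ.Pol N X) : φ.Pol (N + 1) (X * Y) := by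
  obtain ⟨M, hM⟩ := h2
  obtain ⟨M', hM'⟩ := hX
  refine ⟨M + M', fun m hm => ?_⟩
  rw [coeff_mul]
  refine sum_mem fun p hp => ?_
  have h3 := mem_antidiagonal.1 hp
  rcases Nat.lt_or_ge p.2 M with h4 | h4
  · exact φ.mul N 1 _ _ (hM' p.1 (by omega)) (h1 p.2)
  · exact φ.mul_left _ (hM p.2 h4)

/-- truncation -/
def trc (M : ℕ) (X : PowerSeries E) : PowerSeries E :=
  PowerSeries.mk fun m => if m < M then coeff m X else 0

lemma Rst.trc (M : ℕ) (X : PowerSeries E) : φ.Rst (trc M X) := fun N => ⟨M, fun m hm => by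
  rw [Filt.trc, coeff_mk, if_neg (by omega)]
  exact zero_mem _⟩

lemma sub_trc {N M : ℕ} {X : PowerSeries E} (h : ∀ m ≥ M, coeff m X ∈ φ.F N) :
    φ.InF N (X - Filt.trc M X) := fun m => by
  rw [map_sub, Filt.trc, coeff_mk]
  split_ifs with h1
  · rw [sub_self]; exact zero_mem _
  · rw [sub_zero]; exact h m (by omega)

/-- the lifting lemma for `G' = M G` -/
theorem lift_left [Algebra ℚ E] {M G H : PowerSeries E} (hM : φ.Rst M) (hG : MFI.dt G = M * G)
    (hH : MFI.dt H = -(H * M)) (hGH : G * H = 1) (h1 : φ.Pol 1 G) (h2 : φ.Pol 1 H) :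
    φ.Rst G := by
  obtain ⟨a, ha⟩ := h1
  obtain ⟨b, hb⟩ := h2
  set G1 := trc a G with hG1
  set K := trc b H with hK
  have e1 : φ.InF 1 (G - G1) := sub_trc ha
  have e2 : φ.InF 1 (H - K) := sub_trc hb
  have rG1 : φ.Rst G1 := Rst.trc a G
  have rK : φ.Rst K := Rst.trc b H
  set Y := MFI.dt K + K * M with hY
  have iY : φ.InF 1 Y := by
    have e3 : Y = -(MFI.dt (H - K) + (H - K) * M) := by
      rw [map_sub, hH, hY, sub_mul]
      abel
    rw [e3]
    exact (e2.dt.add (e2.mul_right M)).neg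
  have rY : φ.Rst Y := rK.dt.add (rK.mul hM)
  set z := G1 * K - 1 with hz
  have iz : φ.InF 1 z := by
    have e3 : z = -((G - G1) * K + G * (H - K)) := by
      rw [hz, ← hGH, sub_mul, mul_sub]
      abel
    rw [e3]
    exact ((e1.mul_right K).add (e2.mul_left G)).neg
  have rz : φ.Rst z := (rG1.mul rK).sub Rst.one
  set W := K * G with hW
  have dW : MFI.dt W = Y * G := by
    rw [hW, dt_mul, hG, hY, add_mul, mul_assoc]
  have eG : G = G1 * W - z * G := by
    rw [hz, hW, sub_mul, one_mul, mul_assoc]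
    abel
  have key : ∀ N, φ.Pol (N + 1) G := by
    intro N
    induction N with
    | zero => exact ⟨a, ha⟩
    | succ N ih =>
      have p1 : φ.Pol (N + 1 + 1) W := by
        refine Pol.of_dt ?_
        rw [dW]
        exact step_left iY (rY _) ih
      rw [eG]
      exact ((rG1 _).mul p1).sub (step_left iz (rz _) ih)
  intro N
  exact (key N).mono (Nat.le_succ N)

/-- the lifting lemma for `H' = - H M` -/
theorem lift_right [Algebra ℚ E] {M G H : PowerSeries E} (hM : φ.Rst M) (hG : MFI.dt G = M * G)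
    (hH : MFI.dt H = -(H * M)) (hGH : G * H = 1) (h1 : φ.Pol 1 G)
    (h2 : φ.Pol 1 H) : φ.Rst H := by
  obtain ⟨a, ha⟩ := h1
  obtain ⟨b, hb⟩ := h2
  set G1 := trc a G with hG1
  set K := trc b H with hK
  have e1 : φ.InF 1 (G - G1) := sub_trc ha
  have e2 : φ.InF 1 (H - K) := sub_trc hb
  have rG1 : φ.Rst G1 := Rst.trc a G
  have rK : φ.Rst K := Rst.trc b H
  set Y := MFI.dt G1 - M * G1 with hY
  have iY : φ.InF 1 Y := by
    have e3 : Y = -(MFI.dt (G - G1) - M * (G - G1)) := by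
      rw [map_sub, hG, hY, mul_sub]
      abel
    rw [e3]
    exact (e1.dt.sub (e1.mul_left M)).neg
  have rY : φ.Rst Y := rG1.dt.sub (hM.mul rG1)
  set z := G1 * K - 1 with hz
  have iz : φ.InF 1 z := by
    have e3 : z = -((G - G1) * K + G * (H - K)) := by
      rw [hz, ← hGH, sub_mul, mul_sub]
      abel
    rw [e3]
    exact ((e1.mul_right K).add (e2.mul_left G)).neg
  have rz : φ.Rst z := (rG1.mul rK).sub Rst.one
  set W := H * G1 with hW
  have dW : MFI.dt W = H * Y := by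
    rw [hW, dt_mul, hH, hY, mul_sub, neg_mul, mul_assoc]
    abel
  have eH : H = W * K - H * z := by
    rw [hz, hW, mul_sub, mul_one, mul_assoc]
    abel
  have key : ∀ N, φ.Pol (N + 1) H := by
    intro N
    induction N with
    | zero => exact ⟨b, hb⟩
    | succ N ih =>
      have p1 : φ.Pol (N + 1 + 1) W := by
        refine Pol.of_dt ?_
        rw [dW]
        exact step_right iY (rY _) ih
      rw [eH]
      exact (p1.mul (rK _)).sub (step_right iz (rz _) ih)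
  intro N
  exact (key N).mono (Nat.le_succ N)

end Filt

end

end Pool.Agent.MFI
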