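import Pool.Agent.MFI.Fil

/-!
# Isotopy invariance of matrix factorizations (MP_c8c50b_ag), helper26

Part 3: the flow of `Σ w_k(t) D_k`; extension of maps `E → E'[[t]]` to `E[[t]] → E'[[t]]`.
-/

set_option autoImplicit false

open PowerSeries
open Finset.HasAntidiagonal (antidiagonal mem_antidiagonal)

namespace Pool.Agent.MFI

noncomputable section

section Triple

variable {M : Type*} [AddCommMonoid M]

lemma triple (f : ℕ → ℕ → ℕ → M) (m : ℕ) :
    ∑ p ∈ antidiagonal m, ∑ q ∈ antidiagonal p.1, f q.1 q.2 p.2 =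
      ∑ p ∈ antidiagonal m, ∑ q ∈ antidiagonal p.2, f p.1 q.1 q.2 := by
  simp only [Finset.sum_sigma']
  apply Finset.sum_nbij' (fun ⟨⟨_i, j⟩, ⟨k, l⟩⟩ ↦ ⟨(k, l + j), (l, j)⟩)
    (fun ⟨⟨i, _j⟩, ⟨k, l⟩⟩ ↦ ⟨(i + k, l), (i, k)⟩) <;> aesop (add simp [add_assoc])

end Triple

section Flow

variable {E : Type*} [Ring E] [Algebra ℚ E] {ι : Type*} [Fintype ι]

/-- the coefficients of the flow -/
def flow (D : ι → E →+ E) (w : ι → PowerSeries E) : ℕ → E → E
  | 0, x => x
  | (m + 1), x => ((m + 1 : ℚ)⁻¹) • ∑ k, ∑ i : Fin (m + 1), coeff (m - i) (w k) * flow D w i (D k x)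
decreasing_by exact i.2

/-- the flow of `Σ w_k D_k` -/
def fl (D : ι → E →+ E) (w : ι → PowerSeries E) (x : E) : PowerSeries E :=
  mk fun m => flow D w m x

variable (D : ι → E →+ E) (w : ι → PowerSeries E)

@[simp] lemma coeff_fl (x : E) (m : ℕ) : coeff m (fl D w x) = flow D w m x := by simp [fl]

lemma coeff_zero_fl (x : E) : coeff 0 (fl D w x) = x := by rw [coeff_fl, flow]

lemma dt_fl (x : E) : dt (fl D w x) = ∑ k, w k * fl D w (D k x) := by
  ext m
  rw [coeff_dt, coeff_fl, flow, inv_nsmul, map_sum]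
  refine Finset.sum_congr rfl fun k _ => ?_
  rw [coeff_mul, sum_fin_anti (fun i j => coeff i (w k) * flow D w j (D k x)) m]
  refine Finset.sum_congr rfl fun p _ => ?_
  rw [coeff_fl]

omit [Algebra ℚ E] in
lemma fl_unique [Algebra ℚ E] {Y : Type*} (D' : ι → Y → Y) (u v : Y → PowerSeries E)
    (h0 : ∀ y, coeff 0 (u y) = coeff 0 (v y))
    (hu : ∀ y, dt (u y) = ∑ k, w k * u (D' k y)) (hv : ∀ y, dt (v y) = ∑ k, w k * v (D' k y)) :
    ∀ y, u y = v y := by
  have key : ∀ m, ∀ i ≤ m, ∀ y, coeff i (u y) = coeff i (v y) := by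
    intro m
    induction m with
    | zero =>
      intro i hi y
      rw [Nat.le_zero.1 hi, h0]
    | succ m ih =>
      intro i hi y
      rcases Nat.lt_or_ge i (m + 1) with h1 | h1
      · exact ih i (Nat.lt_succ_iff.1 h1) y
      · have h2 : i = m + 1 := le_antisymm hi h1
        subst h2
        have h3 : (m + 1) • (coeff (m + 1) (u y) - coeff (m + 1) (v y)) = 0 := by
          rw [smul_sub, ← coeff_dt, ← coeff_dt, hu, hv, map_sum, map_sum, sub_eq_zero]
          refine Finset.sum_congr rfl fun k _ => ?_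
          rw [coeff_mul, coeff_mul]
          refine Finset.sum_congr rfl fun p hp => ?_
          have h4 := mem_antidiagonal.1 hp
          rw [ih p.2 (by omega)]
        exact sub_eq_zero.1 (nsmul_inj h3)
  intro y
  ext m
  exact key m m le_rfl y

lemma fl_add (x y : E) : fl D w (x + y) = fl D w x + fl D w y := by
  refine fl_unique w (Y := E × E) (fun k p => (D k p.1, D k p.2)) (fun p => fl D w (p.1 + p.2))
    (fun p => fl D w p.1 + fl D w p.2) ?_ ?_ ?_ (x, y)
  · intro p
    rw [map_add, coeff_zero_fl, coeff_zero_fl, coeff_zero_fl]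
  · intro p
    rw [dt_fl]
    simp only [map_add]
  · intro p
    rw [map_add, dt_fl, dt_fl, ← Finset.sum_add_distrib]
    refine Finset.sum_congr rfl fun k _ => ?_
    rw [mul_add]

lemma fl_zero : fl D w 0 = 0 := by
  have h := fl_add D w 0 0
  rw [add_zero] at h
  exact left_eq_add.1 h

/-- the flow as an additive map -/
def flA : E →+ PowerSeries E where
  toFun := fl D w
  map_zero' := fl_zero D w
  map_add' := fl_add D w

@[simp] lemma flA_apply (x : E) : flA D w x = fl D w x := rfl

lemma fl_sub (x y : E) : fl D w (x - y) = fl D w x - fl D w y := map_sub (flA D w) x y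

lemma fl_neg (x : E) : fl D w (-x) = - fl D w x := map_neg (flA D w) x

lemma fl_sum {κ : Type*} (s : Finset κ) (f : κ → E) :
    fl D w (∑ i ∈ s, f i) = ∑ i ∈ s, fl D w (f i) := map_sum (flA D w) f s

lemma fl_const {x : E} (hx : ∀ k, D k x = 0) : fl D w x = C x := by
  have h1 : dt (fl D w x) = 0 := by
    rw [dt_fl]
    refine Finset.sum_eq_zero fun k _ => ?_
    rw [hx k, fl_zero, mul_zero]
  rw [eq_C_of_dt h1, coeff_zero_fl]

variable {D w}

lemma fl_mul (hD : ∀ k x y, D k (x * y) = D k x * y + x * D k y)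
    (hw : ∀ k (Z : PowerSeries E), w k * Z = Z * w k) (x y : E) :
    fl D w (x * y) = fl D w x * fl D w y := by
  have key : ∀ m, ∀ i ≤ m, ∀ x y, coeff i (fl D w (x * y) - fl D w x * fl D w y) = 0 := by
    intro m
    induction m with
    | zero =>
      intro i hi x y
      rw [Nat.le_zero.1 hi, map_sub, coeff_zero_mul', coeff_zero_fl, coeff_zero_fl, coeff_zero_fl,
        sub_self]
    | succ m ih =>
      intro i hi x y
      rcases Nat.lt_or_ge i (m + 1) with h1 | h1
      · exact ih i (Nat.lt_succ_iff.1 h1) x y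
      · have h2 : i = m + 1 := le_antisymm hi h1
        subst h2
        apply nsmul_inj (m := m)
        rw [← coeff_dt]
        have h3 : dt (fl D w (x * y) - fl D w x * fl D w y) =
            ∑ k, w k * ((fl D w (D k x * y) - fl D w (D k x) * fl D w y) +
              (fl D w (x * D k y) - fl D w x * fl D w (D k y))) := by
          rw [map_sub, dt_mul, dt_fl, dt_fl, dt_fl, Finset.sum_mul, Finset.mul_sum,
            ← Finset.sum_add_distrib, ← Finset.sum_sub_distrib]
          refine Finset.sum_congr rfl fun k _ => ?_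
          rw [hD, fl_add, ← mul_assoc (fl D w x), ← hw k (fl D w x), mul_assoc, mul_assoc]
          noncomm_ring
        rw [h3, map_sum]
        refine Finset.sum_eq_zero fun k _ => ?_
        refine coeff_mul_zero_right fun j hj => ?_
        rw [map_add, ih j hj, ih j hj, add_zero]
  have h4 : fl D w (x * y) - fl D w x * fl D w y = 0 := by
    ext m
    rw [key m m le_rfl, map_zero]
  exact sub_eq_zero.1 h4

/-- the flow preserves a filtration if `w` has coefficients in `F 1` -/
lemma fl_inF {φ : Filt E} (hDF : ∀ k N x, x ∈ φ.F (N + 1) → D k x ∈ φ.F N)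
    (hw1 : ∀ k, φ.InF 1 (w k)) (N : ℕ) (x : E) (hx : x ∈ φ.F N) : φ.InF N (fl D w x) := by
  have key : ∀ m, ∀ i ≤ m, ∀ N x, x ∈ φ.F N → coeff i (fl D w x) ∈ φ.F N := by
    intro m
    induction m with
    | zero =>
      intro i hi N x hx
      rwa [Nat.le_zero.1 hi, coeff_zero_fl]
    | succ m ih =>
      intro i hi N x hx
      rcases Nat.lt_or_ge i (m + 1) with h1 | h1
      · exact ih i (Nat.lt_succ_iff.1 h1) N x hx
      · have h2 : i = m + 1 := le_antisymm hi h1
        subst h2
        rw [coeff_fl, flow]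
        refine φ.qsmul _ (sum_mem fun k _ => sum_mem fun i _ => ?_)
        rcases N with _ | N
        · exact φ.zero _
        · have h3 := φ.mul 1 N _ _ (hw1 k (m - i)) (by
            have := ih i (Nat.lt_succ_iff.1 i.2) N (D k x) (hDF k N x hx)
            rwa [coeff_fl] at this)
          rwa [add_comm] at h3
  exact fun m => key m m le_rfl N x hx

lemma fl_sub_inF {φ : Filt E} (hw1 : ∀ k, φ.InF 1 (w k)) (x : E) :
    φ.InF 1 (fl D w x - C x) := by
  intro m
  rcases m with _ | m
  · rw [map_sub, coeff_zero_fl]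
    simp
  · rw [map_sub, coeff_fl, flow, coeff_C, if_neg (Nat.succ_ne_zero m), sub_zero]
    exact φ.qsmul _ (sum_mem fun k _ => sum_mem fun i _ => φ.mul_right _ (hw1 k _))

end Flow

section Ext

variable {E E' : Type*} [Ring E] [Ring E']

/-- the extension of `ψ : E → E'[[t]]` to `E[[t]]` -/
def ext (ψ : E →+ PowerSeries E') : PowerSeries E →+ PowerSeries E' where
  toFun X := mk fun m => ∑ p ∈ antidiagonal m, coeff p.1 (ψ (coeff p.2 X))
  map_zero' := by
    ext m
    simp
  map_add' X Y := by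
    ext m
    simp [Finset.sum_add_distrib]

lemma coeff_ext (ψ : E →+ PowerSeries E') (X : PowerSeries E) (m : ℕ) :
    coeff m (ext ψ X) = ∑ p ∈ antidiagonal m, coeff p.1 (ψ (coeff p.2 X)) := by
  simp [ext]

lemma ext_C (ψ : E →+ PowerSeries E') (x : E) : ext ψ (C x) = ψ x := by
  ext m
  rw [coeff_ext, Finset.sum_eq_single (m, 0)]
  · simp
  · intro p hp hne
    have h1 := mem_antidiagonal.1 hp
    have h2 : p.2 ≠ 0 := by
      intro h3
      apply hne
      rw [h3, add_zero] at h1
      exact Prod.ext h1 h3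
    rw [coeff_C, if_neg h2, map_zero, map_zero]
  · intro h
    exact absurd (mem_antidiagonal.2 (add_zero m)) h

lemma ext_C_mul (ψ : E →+ PowerSeries E') (x : E) (Y : PowerSeries E)
    (h : ∀ y, ψ (x * y) = ψ x * ψ y) : ext ψ (C x * Y) = ψ x * ext ψ Y := by
  ext m
  rw [coeff_ext, coeff_mul]
  simp_rw [coeff_C_mul, h]
  simp only [coeff_mul, coeff_ext, Finset.mul_sum]
  exact triple (fun a b c => coeff a (ψ x) * coeff b (ψ (coeff c Y))) m

/-- compatibility with a subring of constants -/
lemma ext_lin (ψ : E →+ PowerSeries E') {A : Type*} [Ring A] (c : A →+* E) (c' : A →+* E')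
    (h : ∀ a y, ψ (c a * y) = C (c' a) * ψ y) (r : PowerSeries A)
    (Y : PowerSeries E) :
    ext ψ (PowerSeries.map c r * Y) = PowerSeries.map c' r * ext ψ Y := by
  ext m
  rw [coeff_ext, coeff_mul]
  have h1 : ∀ p ∈ antidiagonal m, coeff p.1 (ψ (coeff p.2 (PowerSeries.map c r * Y))) =
      ∑ q ∈ antidiagonal p.2, c' (coeff q.1 r) * coeff p.1 (ψ (coeff q.2 Y)) := by
    intro p _
    rw [coeff_mul, map_sum, map_sum]
    refine Finset.sum_congr rfl fun q _ => ?_
    rw [PowerSeries.coeff_map, h, coeff_C_mul]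
  have h2 : ∀ p ∈ antidiagonal m, coeff p.1 (PowerSeries.map c' r) * coeff p.2 (ext ψ Y) =
      ∑ q ∈ antidiagonal p.2, c' (coeff p.1 r) * coeff q.1 (ψ (coeff q.2 Y)) := by
    intro p _
    rw [PowerSeries.coeff_map, coeff_ext, Finset.mul_sum]
  rw [Finset.sum_congr rfl h1, Finset.sum_congr rfl h2,
    ← triple (fun b a d => c' (coeff a r) * coeff b (ψ (coeff d Y))) m,
    ← triple (fun a b d => c' (coeff a r) * coeff b (ψ (coeff d Y))) m]
  refine Finset.sum_congr rfl fun p _ => ?_
  rw [← Finset.Nat.sum_antidiagonal_swap]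
  rfl

/-- the formal inverse of `ext ψ` when `ψ x = x` modulo `t` -/
def invc (ψ : E →+ PowerSeries E) (X : PowerSeries E) : ℕ → E
  | 0 => coeff 0 X
  | (m + 1) => coeff (m + 1) X - ∑ i : Fin (m + 1), coeff (m + 1 - i) (ψ (invc ψ X i))
decreasing_by exact i.2

def inv (ψ : E →+ PowerSeries E) (X : PowerSeries E) : PowerSeries E := mk (invc ψ X)

lemma ext_inv (ψ : E →+ PowerSeries E) (h0 : ∀ x, coeff 0 (ψ x) = x) (X : PowerSeries E) :
    ext ψ (inv ψ X) = X := by
  ext m
  rw [coeff_ext]
  simp only [inv, coeff_mk]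
  rcases m with _ | m
  · simp [h0, invc]
  · rw [← sum_fin_anti (fun i j => coeff i (ψ (invc ψ X j))) (m + 1), Fin.sum_univ_castSucc]
    simp only [Fin.val_castSucc, Fin.val_last, Nat.sub_self, h0]
    rw [invc]
    abel

lemma ext_inj (ψ : E →+ PowerSeries E) (h0 : ∀ x, coeff 0 (ψ x) = x) {X : PowerSeries E}
    (h : ext ψ X = 0) : X = 0 := by
  have key : ∀ m, ∀ i ≤ m, coeff i X = 0 := by
    intro m
    induction m with
    | zero =>
      intro i hi
      have h1 := congrArg (coeff 0) h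
      rw [coeff_ext] at h1
      rw [Nat.le_zero.1 hi]
      simpa [h0] using h1
    | succ m ih =>
      intro i hi
      rcases Nat.lt_or_ge i (m + 1) with h1 | h1
      · exact ih i (Nat.lt_succ_iff.1 h1)
      · have h2 : i = m + 1 := le_antisymm hi h1
        subst h2
        have h3 := congrArg (coeff (m + 1)) h
        rw [coeff_ext, Finset.sum_eq_single (0, m + 1)] at h3
        · simpa [h0] using h3
        · intro p hp hne
          have h4 := mem_antidiagonal.1 hp
          have h5 : p.2 ≤ m := by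
            by_contra h6
            have h7 : p.2 = m + 1 := by omega
            exact hne (Prod.ext (by simp only; omega) h7)
          rw [ih p.2 h5, map_zero, map_zero]
        · intro h
          exact absurd (mem_antidiagonal.2 (zero_add (m + 1))) h
  ext m
  rw [key m m le_rfl, map_zero]

lemma inv_ext (ψ : E →+ PowerSeries E) (h0 : ∀ x, coeff 0 (ψ x) = x) (X : PowerSeries E) :
    inv ψ (ext ψ X) = X := by
  have h1 : ext ψ (inv ψ (ext ψ X) - X) = 0 := by rw [map_sub, ext_inv ψ h0, sub_self]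
  exact sub_eq_zero.1 (ext_inj ψ h0 h1)

/-- the formal inverse as an additive map -/
def invA (ψ : E →+ PowerSeries E) (h0 : ∀ x, coeff 0 (ψ x) = x) :
    PowerSeries E →+ PowerSeries E where
  toFun := inv ψ
  map_zero' := by
    have h := inv_ext ψ h0 0
    rwa [map_zero] at h
  map_add' X Y := by
    have h1 : ext ψ (inv ψ (X + Y) - (inv ψ X + inv ψ Y)) = 0 := by
      rw [map_sub, map_add, ext_inv ψ h0, ext_inv ψ h0, ext_inv ψ h0, sub_self]
    exact sub_eq_zero.1 (ext_inj ψ h0 h1)

@[simp] lemma invA_apply (ψ : E →+ PowerSeries E) (h0 : ∀ x, coeff 0 (ψ x) = x)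
    (X : PowerSeries E) : invA ψ h0 X = inv ψ X := rfl

lemma ext_inF {φ : Filt E} {φ' : Filt E'} {ψ : E →+ PowerSeries E'} {N : ℕ}
    (h : ∀ x ∈ φ.F N, φ'.InF N (ψ x)) {X : PowerSeries E} (hX : φ.InF N X) :
    φ'.InF N (ext ψ X) := by
  intro m
  rw [coeff_ext]
  exact sum_mem fun p _ => h _ (hX p.2) _

lemma ext_rst {φ : Filt E} {φ' : Filt E'} {ψ : E →+ PowerSeries E'}
    (h : ∀ N, ∀ x ∈ φ.F N, φ'.InF N (ψ x)) (hr : ∀ x, φ'.Rst (ψ x)) {X : PowerSeries E}
    (hX : φ.Rst X) : φ'.Rst (ext ψ X) := by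
  intro N
  obtain ⟨M, hM⟩ := hX N
  choose K hK using fun x => hr x N
  refine ⟨M + ∑ i ∈ Finset.range M, K (coeff i X), fun m hm => ?_⟩
  rw [coeff_ext]
  refine sum_mem fun p hp => ?_
  have h1 := mem_antidiagonal.1 hp
  rcases Nat.lt_or_ge p.2 M with h2 | h2
  · refine hK _ _ ?_
    have h3 : K (coeff p.2 X) ≤ ∑ i ∈ Finset.range M, K (coeff i X) :=
      Finset.single_le_sum (f := fun i => K (coeff i X)) (fun _ _ => Nat.zero_le _)
        (Finset.mem_range.2 h2)
    omega
  · exact h N _ (hM p.2 h2) _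

lemma inv_inF {φ : Filt E} {ψ : E →+ PowerSeries E} {N : ℕ} (h : ∀ x ∈ φ.F N, φ.InF N (ψ x))
    {X : PowerSeries E} (hX : φ.InF N X) : φ.InF N (inv ψ X) := by
  have key : ∀ m, ∀ i ≤ m, coeff i (inv ψ X) ∈ φ.F N := by
    intro m
    induction m with
    | zero =>
      intro i hi
      rw [Nat.le_zero.1 hi, inv, coeff_mk, invc]
      exact hX 0
    | succ m ih =>
      intro i hi
      rcases Nat.lt_or_ge i (m + 1) with h1 | h1
      · exact ih i (Nat.lt_succ_iff.1 h1)
      · have h2 : i = m + 1 := le_antisymm hi h1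
        subst h2
        rw [inv, coeff_mk, invc]
        refine sub_mem (hX _) (sum_mem fun j _ => h _ ?_ _)
        have := ih j (Nat.lt_succ_iff.1 j.2)
        rwa [inv, coeff_mk] at this
  exact fun m => key m m le_rfl

end Ext

end

end Pool.Agent.MFI
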