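import Pool.Agent.MFI.Jet

/-!
# Isotopy invariance of matrix factorizations (MP_c8c50b_ag), helper26

Part 13: the flow of the family on the ring of jets (`y` fixed, `x = y + ε` moves).
-/

set_option autoImplicit false

open PowerSeries
open Finset.HasAntidiagonal (antidiagonal mem_antidiagonal)

namespace Pool.Agent.MFI

noncomputable section

section Approx

variable {n : ℕ} {A : Type*} [CommRing A] {I : Ideal A}

lemma eps_F (α : Fin n →₀ ℕ) {N : ℕ} (h : N ≤ α.degree) :
    (MvPowerSeries.monomial α 1 : BB n A) ∈ (fB n I).F N := by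
  classical
  intro β
  rw [MvPowerSeries.coeff_monomial]
  split_ifs with h1
  · rw [h1, show N - α.degree = 0 by omega, pow_zero, Ideal.one_eq_top]
    trivial
  · exact zero_mem _

/-- the induction principle for the graded ring -/
lemma approx_ind (P : ℕ → BB n A → Prop) (hadd : ∀ M x y, P M x → P M y → P M (x + y))
    (hmul : ∀ M M' x y, P M x → P M' y → P (M + M') (x * y))
    (hhi : ∀ M x, x ∈ (fB n I).F (M + 1) → P M x)
    (hc : ∀ M (a : A), a ∈ I ^ M → P M (cc a)) (he : ∀ l, P 1 (ee l)) {M : ℕ} {x : BB n A}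
    (hx : x ∈ (fB n I).F M) : P M x := by
  classical
  have hsum : ∀ (s : Finset (Fin n →₀ ℕ)) (g : (Fin n →₀ ℕ) → BB n A), (∀ α ∈ s, P M (g α)) →
      P M (∑ α ∈ s, g α) := by
    intro s g
    induction s using Finset.induction_on with
    | empty =>
      intro _
      rw [Finset.sum_empty]
      exact hhi M 0 (zero_mem _)
    | insert a s ha ih =>
      intro h
      rw [Finset.sum_insert ha]
      exact hadd M _ _ (h a (Finset.mem_insert_self a s))
        (ih fun i hi => h i (Finset.mem_insert_of_mem hi))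
  have hmon : ∀ α : Fin n →₀ ℕ, P α.degree (MvPowerSeries.monomial α 1) := by
    intro α
    refine single_ind (fun α => P α.degree (MvPowerSeries.monomial α 1)) ?_ ?_ α
    · rw [map_zero]
      have h1 := hc 0 1 (by rw [pow_zero, Ideal.one_eq_top]; trivial)
      exact h1
    · intro k α ih
      rw [deg_add_single]
      have h1 : (MvPowerSeries.monomial (α + Finsupp.single k 1) 1 : BB n A) =
          MvPowerSeries.monomial α 1 * ee k := by
        rw [ee, MvPowerSeries.X, MvPowerSeries.monomial_mul_monomial, one_mul]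
      rw [h1]
      exact hmul _ _ _ _ ih (he k)
  set box : Finset (Fin n →₀ ℕ) := Finset.Iic (Finsupp.equivFunOnFinite.symm fun _ => M) with hbox
  have hdeg : ∀ α : Fin n →₀ ℕ, α ∉ box → M + 1 ≤ α.degree := by
    intro α hα
    rw [hbox, Finset.mem_Iic] at hα
    obtain ⟨k, hk⟩ : ∃ k, M < α k := by
      by_contra hcon
      push Not at hcon
      exact hα fun k => hcon k
    have h1 : α k ≤ α.degree := Finsupp.le_degree k α
    omega
  have e1 : x = (x - ∑ α ∈ box, cc (MvPowerSeries.coeff α x) * MvPowerSeries.monomial α 1) +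
      ∑ α ∈ box, cc (MvPowerSeries.coeff α x) * MvPowerSeries.monomial α 1 := by
    rw [sub_add_cancel]
  rw [e1]
  refine hadd _ _ _ (hhi _ _ ?_) (hsum _ _ fun α _ => ?_)
  · intro β
    rw [map_sub, map_sum]
    have e2 : ∀ α ∈ box, MvPowerSeries.coeff β (cc (MvPowerSeries.coeff α x) *
        MvPowerSeries.monomial α 1 : BB n A) = if β = α then MvPowerSeries.coeff α x else 0 := by
      intro α _
      rw [MvPowerSeries.coeff_C_mul, MvPowerSeries.coeff_monomial]
      split_ifs <;> simp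
    rw [Finset.sum_congr rfl e2]
    by_cases hβ : β ∈ box
    · rw [Finset.sum_ite_eq, if_pos hβ, sub_self]
      exact zero_mem _
    · have h1 := hdeg β hβ
      rw [show M + 1 - β.degree = 0 by omega, pow_zero, Ideal.one_eq_top]
      trivial
  · by_cases h1 : α.degree ≤ M
    · have h2 := hmul _ _ _ _ (hc (M - α.degree) (MvPowerSeries.coeff α x) (hx α)) (hmon α)
      rwa [Nat.sub_add_cancel h1] at h2
    · exact hhi _ _ ((fB n I).mul_left _ (eps_F α (by omega)))

end Approx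

section MapLemmas

variable {E E' : Type*} [Ring E] [Ring E'] {φ : Filt E} {φ' : Filt E'}

lemma map_InF (g : E →+* E') {N : ℕ} (h : ∀ x ∈ φ.F N, g x ∈ φ'.F N) {X : PowerSeries E}
    (hX : φ.InF N X) : φ'.InF N (PowerSeries.map g X) := fun m => by
  rw [PowerSeries.coeff_map]
  exact h _ (hX m)

lemma map_Rst (g : E →+* E') (h : ∀ N, ∀ x ∈ φ.F N, g x ∈ φ'.F N) {X : PowerSeries E}
    (hX : φ.Rst X) : φ'.Rst (PowerSeries.map g X) := fun N => by
  obtain ⟨M, hM⟩ := hX N
  refine ⟨M, fun m hm => ?_⟩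
  rw [PowerSeries.coeff_map]
  exact h N _ (hM m hm)

end MapLemmas

section FlowB

variable {n : ℕ} {A : Type*} [CommRing A] [Algebra ℚ A] {𝔡 : Cder n A} {I : Ideal A} {f : A}

/-- the properties of the family of module FAM -/
structure FamOK (Φ : Fam 𝔡 I f) : Prop where
  crit : ∀ k, 𝔡.D k f ∈ I
  w1 : ∀ k, (fA I).InF 1 (Φ.w k)
  wr : ∀ k, (fA I).Rst (Φ.w k)
  one : ∀ a, (fA I).InF 1 (Φ.φ a - C a)
  pow : ∀ N, ∀ a ∈ I ^ N, (fA I).InF N (Φ.φ a)
  fix : Φ.φ f = C f
  dtx : ∀ j, dt (Φ.φ (𝔡.x j)) = Φ.w j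

/-- the velocity on the ring of jets -/
def wB (Φ : Fam 𝔡 I f) (k : Fin n) : PowerSeries (BB n A) := PowerSeries.map (tay 𝔡) (Φ.w k)

/-- the flow on the ring of jets -/
def flB (Φ : Fam 𝔡 I f) : BB n A →+ PowerSeries (BB n A) := flA pd (wB Φ)

variable (Φ : Fam 𝔡 I f)

lemma flB_apply (x : BB n A) : flB Φ x = fl pd (wB Φ) x := rfl

lemma flB_zero_coeff (x : BB n A) : coeff 0 (flB Φ x) = x := coeff_zero_fl _ _ x

lemma flB_mul (x y : BB n A) : flB Φ (x * y) = flB Φ x * flB Φ y :=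
  fl_mul pd_mul (fun _ _ => mul_comm _ _) x y

lemma flB_cc (a : A) : flB Φ (cc a) = C (cc a) := fl_const _ _ fun k => pd_cc k a

lemma flB_tay (a : A) : flB Φ (tay 𝔡 a) = PowerSeries.map (tay 𝔡) (Φ.φ a) := by
  refine fl_unique (wB Φ) (Y := A) (fun k a => 𝔡.D k a) (fun a => flB Φ (tay 𝔡 a))
    (fun a => PowerSeries.map (tay 𝔡) (Φ.φ a)) ?_ ?_ ?_ a
  · intro a
    rw [flB_zero_coeff, PowerSeries.coeff_map, Φ.init]
  · intro a
    rw [flB_apply, dt_fl]
    refine Finset.sum_congr rfl fun k _ => ?_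
    rw [pd_tay]
    rfl
  · intro a
    rw [dt_map, Φ.vel, map_sum]
    refine Finset.sum_congr rfl fun k _ => ?_
    rw [map_mul]
    rfl

variable {Φ}

lemma FamOK.wB1 (h : FamOK Φ) (k : Fin n) : (fB n I).InF 1 (wB Φ k) :=
  map_InF (φ := fA I) (tay 𝔡) (fun _ hx => tay_F 𝔡 hx) (h.w1 k)

lemma FamOK.wBr (h : FamOK Φ) (k : Fin n) : (fB n I).Rst (wB Φ k) :=
  map_Rst (φ := fA I) (tay 𝔡) (fun _ _ hx => tay_F 𝔡 hx) (h.wr k)

lemma FamOK.flB_F (h : FamOK Φ) (N : ℕ) (x : BB n A) (hx : x ∈ (fB n I).F N) :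
    (fB n I).InF N (flB Φ x) :=
  fl_inF (fun k _ _ hx => pd_F k hx) h.wB1 N x hx

lemma FamOK.flB_ee (_h : FamOK Φ) (l : Fin n) :
    flB Φ (ee l) = PowerSeries.map (tay 𝔡) (Φ.φ (𝔡.x l)) - C (cc (𝔡.x l)) := by
  have h1 : (ee l : BB n A) = tay 𝔡 (𝔡.x l) - cc (𝔡.x l) := by rw [tay_x]; ring
  rw [h1, map_sub, flB_tay, flB_cc]

lemma Fam.rst_map (Φ : Fam 𝔡 I f) (a : A) : (fB n I).Rst (PowerSeries.map (tay 𝔡) (Φ.φ a)) :=
  map_Rst (φ := fA I) (tay 𝔡) (fun _ _ hx => tay_F 𝔡 hx) (Φ.rst a)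

/-- the flow has restricted values -/
lemma FamOK.flB_rst (h : FamOK Φ) (x : BB n A) : (fB n I).Rst (flB Φ x) := by
  have key : ∀ {M : ℕ} {x : BB n A}, x ∈ (fB n I).F M →
      ∃ y ∈ (fB n I).F M, (fB n I).Rst (flB Φ y) ∧ x - y ∈ (fB n I).F (M + 1) := by
    intro M x hx
    refine approx_ind (I := I) (fun M x => ∃ y ∈ (fB n I).F M, (fB n I).Rst (flB Φ y) ∧
      x - y ∈ (fB n I).F (M + 1)) ?_ ?_ ?_ ?_ ?_ hx
    · rintro M x y ⟨x', h1, h2, h3⟩ ⟨y', h4, h5, h6⟩
      refine ⟨x' + y', add_mem h1 h4, ?_, ?_⟩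
      · rw [map_add]
        exact h2.add h5
      · rw [show x + y - (x' + y') = (x - x') + (y - y') by ring]
        exact add_mem h3 h6
    · rintro M M' x y ⟨x', h1, h2, h3⟩ ⟨y', h4, h5, h6⟩
      refine ⟨x' * y', (fB n I).mul _ _ _ _ h1 h4, ?_, ?_⟩
      · rw [flB_mul]
        exact h2.mul h5
      · have hx : x ∈ (fB n I).F M := by
          have := add_mem ((fB n I).mono _ _ h3) h1
          rwa [sub_add_cancel] at this
        have e1 := (fB n I).mul _ _ _ _ hx h6
        have e2 := (fB n I).mul _ _ _ _ h3 h4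
        rw [show x * y - x' * y' = x * (y - y') + (x - x') * y' by ring]
        refine add_mem ?_ ?_
        · rwa [← add_assoc] at e1
        · rwa [add_right_comm] at e2
    · intro M x hx
      refine ⟨0, zero_mem _, ?_, by rwa [sub_zero]⟩
      rw [map_zero]
      exact Filt.Rst.zero
    · intro M a ha
      refine ⟨cc a, cc_F ha, ?_, by rw [sub_self]; exact zero_mem _⟩
      rw [flB_cc]
      exact Filt.Rst.C _
    · intro l
      refine ⟨ee l, ee_F l, ?_, by rw [sub_self]; exact zero_mem _⟩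
      rw [h.flB_ee]
      exact (Φ.rst_map _).sub (Filt.Rst.C _)
  have key2 : ∀ N, ∃ y, (fB n I).Rst (flB Φ y) ∧ x - y ∈ (fB n I).F N := by
    intro N
    induction N with
    | zero => exact ⟨0, by rw [map_zero]; exact Filt.Rst.zero, (fB n I).zero _⟩
    | succ N ih =>
      obtain ⟨y, h1, h2⟩ := ih
      obtain ⟨y', _, h4, h5⟩ := key h2
      refine ⟨y + y', ?_, ?_⟩
      · rw [map_add]
        exact h1.add h4
      · rwa [show x - (y + y') = x - y - y' by ring]
  intro N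
  obtain ⟨y, h1, h2⟩ := key2 N
  have e1 : flB Φ x = flB Φ y + flB Φ (x - y) := by rw [← map_add, add_sub_cancel]
  rw [e1]
  exact (h1 N).add (h.flB_F N _ h2).pol

end FlowB

end

end Pool.Agent.MFI
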