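import Pool.Agent.MFI.FamF

/-!
# Isotopy invariance of matrix factorizations (MP_c8c50b_ag), helper26

Part 19: the flow of a family over a frame on the ring of jets, its inverse, and the fundamental
matrix on the Koszul kernel.
-/

set_option autoImplicit false

open PowerSeries
open Finset.HasAntidiagonal (antidiagonal mem_antidiagonal)

namespace Pool.Agent.MFI

universe u

noncomputable section

variable {k A : Type u} [Field k] [CommRing A] [Algebra k A] [Algebra ℚ A] {I : Ideal A} {n : ℕ}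
  {X : Frame k A I n} {f : A} (Φ : FamF X f) [IsHausdorff I A]

section Flow

omit [IsHausdorff I A] in
/-- the velocity on the ring of jets -/
def FamF.wB (i : Fin n) : PowerSeries (BB n A) := PowerSeries.map X.T (Φ.w i)

/-- the flow on the ring of jets -/
def FamF.flB : BB n A →+ PowerSeries (BB n A) := flA X.Dt Φ.wB

lemma FamF.flB_apply (x : BB n A) : Φ.flB x = fl X.Dt Φ.wB x := rfl

lemma FamF.flB_zero_coeff (x : BB n A) : coeff 0 (Φ.flB x) = x := coeff_zero_fl _ _ x

lemma FamF.flB_mul (x y : BB n A) : Φ.flB (x * y) = Φ.flB x * Φ.flB y :=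
  fl_mul X.Dt_mul (fun _ _ => mul_comm _ _) x y

lemma FamF.flB_cc (a : A) : Φ.flB (cc a) = C (cc a) := fl_const _ _ fun i => X.Dt_cc i a

lemma FamF.flB_T (a : A) : Φ.flB (X.T a) = PowerSeries.map X.T (Φ.φ a) := by
  refine fl_unique Φ.wB (Y := A) (fun i a => X.D i a) (fun a => Φ.flB (X.T a))
    (fun a => PowerSeries.map X.T (Φ.φ a)) ?_ ?_ ?_ a
  · intro a
    rw [Φ.flB_zero_coeff, PowerSeries.coeff_map, Φ.init]
  · intro a
    rw [Φ.flB_apply, dt_fl]
    refine Finset.sum_congr rfl fun i _ => ?_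
    rw [X.Dt_T]
    rfl
  · intro a
    rw [dt_map, Φ.dt_φ, map_sum]
    refine Finset.sum_congr rfl fun i _ => ?_
    rw [map_mul, mul_comm]
    rfl

omit [Algebra ℚ A] [IsHausdorff I A] in
lemma FamF.wBr [Algebra ℚ A] (i : Fin n) : (fB n I).Rst (Φ.wB i) :=
  map_Rst (φ := fA I) X.T (fun N _ hx => X.T_F N _ hx) (Φ.wr i)

variable (hf : ∀ i, X.D i f ∈ I)
include hf

omit [IsHausdorff I A] in
lemma FamF.wB1 (i : Fin n) : (fB n I).InF 1 (Φ.wB i) :=
  map_InF (φ := fA I) X.T (fun _ hx => X.T_F 1 _ hx) (Φ.w1 hf i)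

lemma FamF.flB_F (N : ℕ) (x : BB n A) (hx : x ∈ (fB n I).F N) :
    (fB n I).InF N (Φ.flB x) :=
  fl_inF (fun i _ _ hx => X.Dt_F i hx) (Φ.wB1 hf) N x hx

lemma FamF.flB_one (x : BB n A) : (fB n I).InF 1 (Φ.flB x - C x) :=
  fl_sub_inF (Φ.wB1 hf) x

/-- the flow has restricted values -/
lemma FamF.flB_rst (x : BB n A) : (fB n I).Rst (Φ.flB x) := by
  have key : ∀ N, ∀ x, (fB n I).Pol (N + 1) (Φ.flB x) := by
    intro N
    induction N with
    | zero =>
      intro x
      have h1 := (Φ.flB_one hf x).pol.add (Filt.Rst.C (φ := fB n I) x 1)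
      rwa [sub_add_cancel] at h1
    | succ N ih =>
      intro x
      refine Filt.Pol.of_dt ?_
      rw [Φ.flB_apply, dt_fl]
      exact Filt.Pol.sum _ _ fun i _ => Filt.step_left (Φ.wB1 hf i) (Φ.wBr i _) (ih _)
  intro N
  exact (key N x).mono (Nat.le_succ N)

/-- the flow of the coordinates `ε_l` modulo the second step -/
lemma FamF.flB_ee (l : Fin n) : (fB n I).InF 2
    (Φ.flB (ee l) - (C (ee l) + PowerSeries.map X.T (Φ.φ (X.x l) - C (X.x l)))) := by
  refine inF_of_dt ?_ ?_
  · rw [map_sub, map_add, dt_C, zero_add, dt_map, map_sub dt, dt_C, sub_zero, Φ.vel,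
      Φ.flB_apply, dt_fl]
    have e1 : ∑ i, Φ.wB i * fl X.Dt Φ.wB (X.Dt i (ee l)) -
        PowerSeries.map X.T (∑ j, Φ.b l j * Φ.φ (X.D j f)) =
        ∑ i, Φ.wB i * Φ.flB (X.L i l - (if i = l then 1 else 0)) := by
      have e2 : ∀ i, Φ.wB i * Φ.flB (X.L i l - (if i = l then 1 else 0)) =
          Φ.wB i * fl X.Dt Φ.wB (X.Dt i (ee l)) - (if i = l then Φ.wB l else 0) := by
        intro i
        rw [map_sub, mul_sub, X.Dt_ee]
        congr 1
        split_ifs with h
        · have e3 : Φ.flB 1 = 1 := by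
            have := Φ.flB_cc 1
            rwa [map_one (cc : A →+* BB n A), map_one (C : BB n A →+* _)] at this
          rw [e3, mul_one, h]
        · rw [map_zero, mul_zero]
      rw [Finset.sum_congr rfl fun i _ => e2 i, Finset.sum_sub_distrib,
        Finset.sum_ite_eq' Finset.univ l, if_pos (Finset.mem_univ l)]
      rfl
    rw [e1]
    refine Filt.InF.sum _ _ fun i _ => ?_
    exact (Φ.wB1 hf i).mul (Φ.flB_F hf 1 _ (X.L_one i l))
  · rw [map_sub, map_add, Φ.flB_zero_coeff, coeff_C, if_pos rfl, PowerSeries.coeff_map, map_sub,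
      Φ.init, coeff_C, if_pos rfl, sub_self, map_zero, add_zero, sub_self]
    exact zero_mem _

/-- the extension of the flow is onto on the graded pieces -/
lemma FamF.approx (hdet : (Matrix.of Φ.J).det = 1) (N : ℕ) (x : BB n A)
    (hx : x ∈ (fB n I).F N) : ∃ Y : PowerSeries (BB n A), (fB n I).Rst Y ∧ (fB n I).InF N Y ∧
      (fB n I).InF (N + 1) (C x - ext Φ.flB Y) := by
  have hmul := Φ.flB_mul
  refine approx_ind (I := I) (fun N x => ∃ Y : PowerSeries (BB n A), (fB n I).Rst Y ∧
    (fB n I).InF N Y ∧ (fB n I).InF (N + 1) (C x - ext Φ.flB Y)) ?_ ?_ ?_ ?_ ?_ hx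
  · rintro M x y ⟨Y, h1, h2, h3⟩ ⟨Z, h4, h5, h6⟩
    refine ⟨Y + Z, h1.add h4, h2.add h5, ?_⟩
    rw [map_add, map_add, show C x + C y - (ext Φ.flB Y + ext Φ.flB Z) =
      (C x - ext Φ.flB Y) + (C y - ext Φ.flB Z) by ring]
    exact h3.add h6
  · rintro M M' x y ⟨Y, h1, h2, h3⟩ ⟨Z, h4, h5, h6⟩
    refine ⟨Y * Z, h1.mul h4, h2.mul h5, ?_⟩
    have e1 : (fB n I).InF M' (ext Φ.flB Z) := ext_inF (fun x hx => Φ.flB_F hf M' x hx) h5
    have e2 : (fB n I).InF M (ext Φ.flB Y) := ext_inF (fun x hx => Φ.flB_F hf M x hx) h2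
    have e3 : (fB n I).InF M (C x) := by
      have := (h3.mono (Nat.le_succ M)).add e2
      rwa [sub_add_cancel] at this
    rw [ext_mul _ hmul, map_mul, show C x * C y - ext Φ.flB Y * ext Φ.flB Z =
      C x * (C y - ext Φ.flB Z) + (C x - ext Φ.flB Y) * ext Φ.flB Z by ring]
    refine Filt.InF.add ?_ ?_
    · have := e3.mul h6
      rwa [← add_assoc] at this
    · have := h3.mul e1
      rwa [add_right_comm] at this
  · intro M x hx
    refine ⟨0, Filt.Rst.zero, Filt.InF.zero, ?_⟩
    rw [map_zero, sub_zero]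
    intro m
    rw [coeff_C]
    split_ifs
    · exact hx
    · exact zero_mem _
  · intro M a ha
    refine ⟨C (cc a), Filt.Rst.C _, ?_, ?_⟩
    · intro m
      rw [coeff_C]
      split_ifs
      · exact cc_F ha
      · exact zero_mem _
    · rw [ext_C, Φ.flB_cc, sub_self]
      exact Filt.InF.zero
  · intro l
    obtain ⟨K, hK, hKJ⟩ := Φ.exists_K hdet
    have hone : Φ.flB 1 = 1 := by
      have := Φ.flB_cc 1
      rwa [map_one (cc : A →+* BB n A), map_one (C : BB n A →+* _)] at this
    have hcl : ∀ a y, Φ.flB (cc a * y) = C (cc a) * Φ.flB y := by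
      intro a y
      rw [hmul, Φ.flB_cc]
    have hlin : ∀ (r : PowerSeries A) (Y : PowerSeries (BB n A)),
        ext Φ.flB (PowerSeries.map cc r * Y) = PowerSeries.map cc r * ext Φ.flB Y :=
      fun r Y => ext_lin Φ.flB cc cc hcl r Y
    have hext1 : ext Φ.flB 1 = 1 := by
      have := ext_C Φ.flB 1
      rwa [map_one, hone] at this
    have hcc : ∀ (r : PowerSeries A), ext Φ.flB (PowerSeries.map cc r) = PowerSeries.map cc r := by
      intro r
      have := hlin r 1
      rwa [mul_one, hext1, mul_one] at this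
    set e : Fin n → PowerSeries A := fun i => Φ.φ (X.x i) - C (X.x i) with he
    set Z : Fin n → PowerSeries (BB n A) := fun i => C (ee i) - PowerSeries.map cc (e i) with hZ
    have hccF : ∀ N, ∀ x ∈ (fA I).F N, (cc x : BB n A) ∈ (fB n I).F N := fun N x hx => cc_F hx
    have hC : ∀ m : Fin n, (fB n I).InF 1 (C (ee m)) := by
      intro m j
      rw [coeff_C]
      split_ifs
      · exact ee_F m
      · exact zero_mem _
    have r1 : ∀ i, (fB n I).Rst (Z i) := by
      intro i
      refine (Filt.Rst.C _).sub (map_Rst (φ := fA I) cc hccF ?_)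
      exact (Φ.rst _).sub (Filt.Rst.C _)
    have r2 : ∀ i, (fB n I).InF 1 (Z i) := by
      intro i
      exact Filt.InF.sub (hC i) (map_InF (φ := fA I) cc (hccF 1) (Φ.one hf _))
    refine ⟨∑ i, PowerSeries.map cc (K l i) * Z i, ?_, ?_, ?_⟩
    · exact Filt.Rst.sum _ _ fun i _ => (map_Rst (φ := fA I) cc hccF (hK l i)).mul (r1 i)
    · exact Filt.InF.sum _ _ fun i _ => (r2 i).mul_left _
    · have e2 : ∀ i, (fB n I).InF 2 (ext Φ.flB (Z i) -
          ∑ m, PowerSeries.map cc (Φ.Jt i m) * C (ee m)) := by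
        intro i
        have g1 : ext Φ.flB (Z i) = Φ.flB (ee i) - PowerSeries.map cc (e i) := by
          simp only [hZ]
          rw [map_sub, ext_C, hcc]
        have g2 : ∑ m, PowerSeries.map cc (Φ.Jt i m) * C (ee m) = C (ee i) +
            ∑ m, PowerSeries.map cc (pco (X.δ m) (e i)) * C (ee m : BB n A) := by
          simp only [FamF.Jt, map_add, add_mul, Finset.sum_add_distrib]
          congr 1
          rw [Finset.sum_eq_single i]
          · rw [if_pos rfl, map_one, one_mul]
          · intro m _ hm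
            rw [if_neg (Ne.symm hm), map_zero, zero_mul]
          · intro h
            exact absurd (Finset.mem_univ i) h
        have g3 : (fB n I).InF 2 (PowerSeries.map X.T (e i) - PowerSeries.map cc (e i) -
            ∑ m, PowerSeries.map cc (pco (X.δ m) (e i)) * C (ee m)) := by
          intro j
          have h1 := bot_F (I := I) (X.T_two (coeff j (e i)))
          rw [map_sub, map_sub, map_sum, PowerSeries.coeff_map, PowerSeries.coeff_map]
          have h2 : ∀ m, coeff j (PowerSeries.map cc (pco (X.δ m) (e i)) * C (ee m) :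
              PowerSeries (BB n A)) = cc (X.D m (coeff j (e i))) * ee m := by
            intro m
            rw [coeff_mul_C, PowerSeries.coeff_map, coeff_pco]
            rfl
          rw [Finset.sum_congr rfl fun m _ => h2 m]
          exact h1
        have g4 := (Φ.flB_ee hf i).add g3
        rw [g1, g2]
        convert g4 using 1
        simp only [he]
        ring
      have e5 : ext Φ.flB (∑ i, PowerSeries.map cc (K l i) * Z i) =
          ∑ i, PowerSeries.map cc (K l i) * (ext Φ.flB (Z i) -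
            ∑ m, PowerSeries.map cc (Φ.Jt i m) * C (ee m)) +
          ∑ m, PowerSeries.map cc ((K * Matrix.of Φ.Jt) l m - if l = m then 1 else 0) * C (ee m) +
          C (ee l) := by
        have e6 : ∑ m, PowerSeries.map cc (if l = m then (1 : PowerSeries A) else 0) *
            C (ee m : BB n A) = C (ee l) := by
          rw [Finset.sum_eq_single l]
          · rw [if_pos rfl, map_one, one_mul]
          · intro m _ hm
            rw [if_neg (Ne.symm hm), map_zero, zero_mul]
          · intro h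
            exact absurd (Finset.mem_univ l) h
        have e7 : ∑ i, PowerSeries.map cc (K l i) * ∑ m, PowerSeries.map cc (Φ.Jt i m) *
            C (ee m : BB n A) = ∑ m, PowerSeries.map cc ((K * Matrix.of Φ.Jt) l m) *
              C (ee m : BB n A) := by
          simp only [Finset.mul_sum]
          rw [Finset.sum_comm]
          refine Finset.sum_congr rfl fun m _ => ?_
          rw [Matrix.mul_apply, map_sum, Finset.sum_mul]
          refine Finset.sum_congr rfl fun i _ => ?_
          rw [map_mul, mul_assoc]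
          rfl
        simp only [map_sub, sub_mul, mul_sub, Finset.sum_sub_distrib]
        rw [e6, e7, map_sum]
        simp only [hlin]
        ring
      rw [e5, show (C (ee l) - (∑ i, PowerSeries.map cc (K l i) * (ext Φ.flB (Z i) -
            ∑ m, PowerSeries.map cc (Φ.Jt i m) * C (ee m)) +
          ∑ m, PowerSeries.map cc ((K * Matrix.of Φ.Jt) l m - if l = m then 1 else 0) * C (ee m) +
          C (ee l)) : PowerSeries (BB n A)) = -(∑ i, PowerSeries.map cc (K l i) *
          (ext Φ.flB (Z i) - ∑ m, PowerSeries.map cc (Φ.Jt i m) * C (ee m)) +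
          ∑ m, PowerSeries.map cc ((K * Matrix.of Φ.Jt) l m - if l = m then 1 else 0) *
            C (ee m)) by ring]
      refine (Filt.InF.add (Filt.InF.sum _ _ fun i _ => (e2 i).mul_left _)
        (Filt.InF.sum _ _ fun m _ => ?_)).neg
      exact (map_InF (φ := fA I) cc (hccF 1) (hKJ l m)).mul (hC m)

end Flow

section Ham

/-- the entrywise derivations -/
def Frame.DE (X : Frame k A I n) (i : Fin n) :
    Matrix (Fk n) (Fk n) (BB n A) →+ Matrix (Fk n) (Fk n) (BB n A) :=
  (X.Dt i).mapMatrix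

variable (X) in
lemma Frame.DE_apply (i : Fin n) (M : Matrix (Fk n) (Fk n) (BB n A)) (a c : Fk n) :
    X.DE i M a c = X.Dt i (M a c) := rfl

variable (X) in
lemma Frame.DE_mul (i : Fin n) (M N : Matrix (Fk n) (Fk n) (BB n A)) :
    X.DE i (M * N) = X.DE i M * N + M * X.DE i N := by
  ext1 a c
  rw [X.DE_apply, Matrix.add_apply, Matrix.mul_apply, Matrix.mul_apply, Matrix.mul_apply, map_sum,
    ← Finset.sum_add_distrib]
  refine Finset.sum_congr rfl fun b _ => ?_
  rw [X.Dt_mul]
  rfl

variable (X) in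
lemma Frame.DE_smul (i : Fin n) (x : BB n A) (M : Matrix (Fk n) (Fk n) (BB n A))
    (hM : X.DE i M = 0) : X.DE i (x • M) = X.Dt i x • M := by
  ext1 a c
  rw [X.DE_apply, Matrix.smul_apply, Matrix.smul_apply, smul_eq_mul, smul_eq_mul, X.Dt_mul]
  have : X.Dt i (M a c) = 0 := by
    have := congrFun (congrFun hM a) c
    exact this
  rw [this, mul_zero, add_zero]

variable (X) in
lemma Frame.DE_op (i j : Fin n) (β : Bool) : X.DE i (op (BB n A) j β) = 0 := by
  have h1 : op (BB n A) j β = (op A j β).map cc := (op_map (cc : A →+* BB n A) j β).symm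
  rw [h1]
  ext1 a c
  rw [X.DE_apply, Matrix.map_apply, X.Dt_cc]
  rfl

variable (X) in
lemma Frame.DE_gam (i : Fin n) : X.DE i (gam (n := n) (BB n A)) = 0 := by
  have h1 : gam (n := n) (BB n A) = (gam (n := n) A).map cc :=
    (gam_map (n := n) (cc : A →+* BB n A)).symm
  rw [h1]
  ext1 a c
  rw [X.DE_apply, Matrix.map_apply, X.Dt_cc]
  rfl

variable (X) in
lemma Frame.chi_Dt (i : Fin n) (F : BB n A) : chi I (X.Dt i F) = chi I (pd i F) := by
  rw [X.Dt_apply, map_sum, Finset.sum_eq_single i]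
  · rw [map_mul]
    have h1 := chi_eq_zero.2 (X.L_one i i)
    rw [if_pos rfl, map_sub, map_one, sub_eq_zero] at h1
    rw [h1, one_mul]
  · intro j _ hj
    have h1 := chi_eq_zero.2 (X.L_one i j)
    rw [if_neg (Ne.symm hj), sub_zero] at h1
    rw [map_mul, h1, zero_mul]
  · intro h
    exact absurd (Finset.mem_univ i) h

variable (X) in
lemma Frame.chi_DE (i : Fin n) (h : Fin n → BB n A) :
    (chi I).mapMatrix (X.DE i (DD h)) = cR (fun i j => chi I (pd i (h j))) i := by
  have e0 : X.DE i (DD h) = ∑ j, (X.L i j • io (BB n A) j + X.Dt i (h j) • th (BB n A) j) := by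
    rw [DD, map_sum]
    refine Finset.sum_congr rfl fun j _ => ?_
    rw [map_add, X.DE_smul _ _ _ (X.DE_op _ _ _), X.DE_smul _ _ _ (X.DE_op _ _ _), X.Dt_ee]
  have e1 : ∀ (x : BB n A) (j : Fin n) (β : Bool), (chi I).mapMatrix (x • op (BB n A) j β) =
      chi I x • op (A ⧸ I) j β := by
    intro x j β
    have h1 : (chi I).mapMatrix (x • op (BB n A) j β) =
        chi I x • (chi I).mapMatrix (op (BB n A) j β) := by
      ext1 a c
      exact map_mul (chi I) _ _
    rw [h1]
    congr 1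
    exact op_map (chi I) j β
  rw [e0, map_sum, cR]
  have e2 : ∀ j, (chi I).mapMatrix (X.L i j • io (BB n A) j + X.Dt i (h j) • th (BB n A) j) =
      (if i = j then 1 else 0 : A ⧸ I) • io (A ⧸ I) j + chi I (pd i (h j)) • th (A ⧸ I) j := by
    intro j
    rw [map_add, e1, e1, X.chi_Dt]
    have h1 := chi_eq_zero.2 (X.L_one i j)
    rw [map_sub, sub_eq_zero] at h1
    rw [h1]
    congr 2
    split_ifs
    · exact map_one _
    · exact map_zero _
  rw [Finset.sum_congr rfl fun j _ => e2 j, Finset.sum_add_distrib]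
  congr 1
  rw [Finset.sum_eq_single i]
  · rw [if_pos rfl, one_smul]
  · intro j _ hj
    rw [if_neg (Ne.symm hj), zero_smul]
  · intro h
    exact absurd (Finset.mem_univ i) h

/-- the velocity as scalar matrices -/
def FamF.wE (i : Fin n) : PowerSeries (Matrix (Fk n) (Fk n) (BB n A)) := sc (Φ.wB i)

/-- the bivector as scalar matrices -/
def FamF.bE (i j : Fin n) : PowerSeries (Matrix (Fk n) (Fk n) (BB n A)) :=
  sc (-(PowerSeries.map X.T (Φ.b i j)))

lemma FamF.fl_entry (M : Matrix (Fk n) (Fk n) (BB n A)) (a c : Fk n) :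
    toM (fl X.DE Φ.wE M) a c = Φ.flB (M a c) := by
  refine fl_unique Φ.wB (Y := Matrix (Fk n) (Fk n) (BB n A)) (fun i M => X.DE i M)
    (fun M => toM (fl X.DE Φ.wE M) a c) (fun M => Φ.flB (M a c)) ?_ ?_ ?_ M
  · intro M
    rw [coeff_toM, coeff_zero_fl, Φ.flB_zero_coeff]
  · intro M
    have e1 : dt (toM (fl X.DE Φ.wE M) a c) = toM (dt (fl X.DE Φ.wE M)) a c := by
      ext m
      rw [coeff_dt, coeff_toM, coeff_toM, coeff_dt]
      rfl
    rw [e1, dt_fl, toM_sum, Matrix.sum_apply]
    refine Finset.sum_congr rfl fun i _ => ?_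
    rw [FamF.wE, toM_sc_mul]
    rfl
  · intro M
    rw [Φ.flB_apply, dt_fl]
    rfl

lemma FamF.coeff_fl_entry (M : Matrix (Fk n) (Fk n) (BB n A)) (a c : Fk n) (m : ℕ) :
    coeff m (fl X.DE Φ.wE M) a c = coeff m (Φ.flB (M a c)) := by
  rw [← Φ.fl_entry, coeff_toM]

lemma FamF.fl_smul_one (x : BB n A) :
    fl X.DE Φ.wE (x • (1 : Matrix (Fk n) (Fk n) (BB n A))) = sc (Φ.flB x) := by
  ext1 m
  ext1 a c
  rw [Φ.coeff_fl_entry, coeff_sc, Matrix.algebraMap_matrix_apply, Matrix.smul_apply, smul_eq_mul]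
  by_cases h : a = c
  · subst h
    rw [Matrix.one_apply_eq, mul_one, if_pos rfl]
    rfl
  · rw [Matrix.one_apply_ne h, mul_zero, if_neg h, map_zero, map_zero]

variable {h : Fin n → BB n A} (hh : ∑ i, ee i * h i = cc f - X.T f)
include hh

lemma FamF.ham : Ham X.DE Φ.wE Φ.bE ((cc f - X.T f : BB n A) • 1) (DD h) where
  leib := X.DE_mul
  wc i Z := sc_comm _ Z
  bc i j Z := sc_comm _ Z
  anti i j := by
    rw [FamF.bE, FamF.bE, Φ.anti i j, map_neg]
    simp [sc]
  weq i := by
    have e1 : ∀ j, X.DE j ((cc f - X.T f : BB n A) • (1 : Matrix (Fk n) (Fk n) (BB n A))) =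
        (-(X.T (X.D j f))) • 1 := by
      intro j
      have e2 : X.DE j (1 : Matrix (Fk n) (Fk n) (BB n A)) = 0 := by
        have h3 := X.DE_mul j (1 : Matrix (Fk n) (Fk n) (BB n A)) 1
        rw [mul_one, mul_one, one_mul] at h3
        exact (add_left_cancel ((add_zero _).trans h3)).symm
      rw [X.DE_smul _ _ _ e2, map_sub, X.Dt_cc, X.Dt_T, zero_sub]
    have e3 : ∀ j, Φ.bE i j * fl X.DE Φ.wE
        (X.DE j ((cc f - X.T f : BB n A) • (1 : Matrix (Fk n) (Fk n) (BB n A)))) =
        sc (PowerSeries.map X.T (Φ.b i j * Φ.φ (X.D j f))) := by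
      intro j
      rw [e1, Φ.fl_smul_one, FamF.bE, ← sc_mul, map_neg, Φ.flB_T, map_mul, neg_mul_neg]
    rw [Finset.sum_congr rfl fun j _ => e3 j, ← sc_sum, ← map_sum]
    rfl
  sq := by
    rw [DD, cliff_sq, hh]

omit hh

variable (hf : ∀ i, X.D i f ∈ I)
include hf

lemma FamF.flE_Rst (M : Matrix (Fk n) (Fk n) (BB n A)) :
    (fM (Fk n) (fB n I)).Rst (fl X.DE Φ.wE M) := by
  intro N
  choose K hK using fun a c => Φ.flB_rst hf (M a c) N
  refine ⟨∑ a, ∑ c, K a c, fun m hm a c => ?_⟩
  rw [Φ.coeff_fl_entry]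
  refine hK a c m (le_trans ?_ hm)
  exact le_trans (Finset.single_le_sum (f := fun c => K a c) (fun _ _ => Nat.zero_le _)
    (Finset.mem_univ c)) (Finset.single_le_sum (f := fun a => ∑ c, K a c)
      (fun _ _ => Nat.zero_le _) (Finset.mem_univ a))

lemma FamF.Mt_Rst (Δ : Matrix (Fk n) (Fk n) (BB n A)) :
    (fM (Fk n) (fB n I)).Rst (Mt X.DE Φ.wE Φ.bE Δ) := by
  rw [Mt, Bt]
  refine Filt.Rst.mul (Filt.Rst.C _) (Filt.Rst.sum _ _ fun i _ => Filt.Rst.sum _ _ fun j _ =>
    Filt.Rst.mul (sc_Rst (Filt.Rst.neg ?_)) (Φ.flE_Rst hf _))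
  exact map_Rst (φ := fA I) X.T (fun N _ hx => X.T_F N _ hx) (Φ.brst i j)

/-- reduction of the equation modulo the first step of the filtration -/
lemma FamF.map_Mt (h : Fin n → BB n A) :
    PowerSeries.map ((chi I).mapMatrix (m := Fk n)) (Mt X.DE Φ.wE Φ.bE (DD h)) =
      MR (fun i j => chi I (pd i (h j)))
        (fun i j => -(PowerSeries.map (Ideal.Quotient.mk I) (Φ.b i j))) := by
  have e1 : ∀ M : Matrix (Fk n) (Fk n) (BB n A),
      PowerSeries.map ((chi I).mapMatrix (m := Fk n)) (fl X.DE Φ.wE M) =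
        C ((chi I).mapMatrix M) := by
    intro M
    ext1 m
    ext1 a c
    have e3 := chi_eq_zero.2 (Φ.flB_one hf (M a c) m)
    rw [map_sub, map_sub, sub_eq_zero] at e3
    rw [PowerSeries.coeff_map, RingHom.mapMatrix_apply, Matrix.map_apply, Φ.coeff_fl_entry, e3,
      coeff_C, coeff_C]
    split_ifs
    · rfl
    · exact map_zero _
  have e4 : ∀ i j, PowerSeries.map ((chi I).mapMatrix (m := Fk n)) (Φ.bE i j) =
      sc (-(PowerSeries.map (Ideal.Quotient.mk I) (Φ.b i j))) := by
    intro i j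
    ext1 m
    ext1 a c
    rw [PowerSeries.coeff_map, RingHom.mapMatrix_apply, Matrix.map_apply, FamF.bE, coeff_sc,
      coeff_sc, Matrix.algebraMap_matrix_apply, Matrix.algebraMap_matrix_apply]
    split_ifs
    · change chi I (coeff m (-(PowerSeries.map X.T (Φ.b i j)))) =
        coeff m (-(PowerSeries.map (Ideal.Quotient.mk I) (Φ.b i j)))
      rw [map_neg (coeff m), map_neg (coeff m), map_neg (chi I), PowerSeries.coeff_map,
        PowerSeries.coeff_map, chi, RingHom.comp_apply, X.ev0_T]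
    · exact map_zero _
  rw [Mt, MR, map_mul, PowerSeries.map_C]
  congr 1
  · congr 1
    exact RingHom.map_rat_algebraMap _ _
  · rw [Bt, map_sum]
    refine Finset.sum_congr rfl fun i _ => ?_
    rw [map_sum]
    refine Finset.sum_congr rfl fun j _ => ?_
    rw [map_mul, e1, e4, map_mul ((chi I).mapMatrix (m := Fk n)), X.chi_DE, X.chi_DE]

omit Φ hf in
/-- the matrix `m` of second derivatives -/
lemma Frame.msym (X : Frame k A I n) (hf : ∀ i, X.D i f ∈ I) (h : Fin n → BB n A)
    (hh : ∑ i, ee i * h i = cc f - X.T f) (i l : Fin n) :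
    chi I (pd i (h l)) + chi I (pd l (h i)) = -(Ideal.Quotient.mk I (X.D i (X.D l f))) := by
  have e1 : ∀ (l : Fin n) (g : Fin n → BB n A), pd l (∑ i, ee i * g i) =
      g l + ∑ i, ee i * pd l (g i) := by
    intro l g
    rw [map_sum]
    have e2 : ∀ i, pd l (ee i * g i : BB n A) = (if l = i then g i else 0) + ee i * pd l (g i) := by
      intro i
      rw [pd_mul, pd_ee]
      split_ifs
      · rw [one_mul]
      · rw [zero_mul]
    rw [Finset.sum_congr rfl fun i _ => e2 i, Finset.sum_add_distrib, Finset.sum_ite_eq,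
      if_pos (Finset.mem_univ l)]
  have e3 := congrArg (fun z => chi I (pd i (pd l z))) hh
  have e4 : chi I (∑ j, ee j * pd i (pd l (h j)) : BB n A) = 0 := by
    rw [chi_eq_zero]
    exact sum_mem fun j _ => (fB n I).mul_right _ (ee_F j)
  rw [e1, map_add, e1, map_sub, pd_cc, zero_sub, map_neg, map_add, map_add, e4, add_zero,
    map_neg] at e3
  rw [e3]
  congr 1
  rw [X.pd_T, map_sum, map_sum]
  have e5 : ∀ j, chi I (pd i (X.T (X.D j f) * pd l (X.T (X.x j)))) =
      Ideal.Quotient.mk I (X.D i (X.D j f) * X.D l (X.x j)) := by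
    intro j
    have h1 : chi I (X.T (X.D j f)) = 0 := by
      rw [chi_eq_zero, mem_F1, X.ev0_T]
      exact hf j
    rw [pd_mul, map_add, map_mul, map_mul, h1, zero_mul, add_zero, chi, RingHom.comp_apply,
      RingHom.comp_apply, X.ev0_pd_T, X.ev0_pd_T, ← map_mul]
  rw [Finset.sum_congr rfl fun j _ => e5 j, ← map_sum, Ideal.Quotient.eq]
  have e6 : X.D i (X.D l f) = ∑ j, (X.D i (X.D l (X.x j)) * X.D j f +
      X.D i (X.D j f) * X.D l (X.x j)) := by
    rw [X.rel l f, map_sum]
    refine Finset.sum_congr rfl fun j _ => ?_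
    rw [Derivation.leibniz, smul_eq_mul, smul_eq_mul]
    ring
  rw [e6, Finset.sum_add_distrib, sub_add_eq_sub_sub_swap, sub_self, zero_sub]
  exact neg_mem (sum_mem fun j _ => Ideal.mul_mem_left _ _ (hf j))

/-- the fundamental matrix is restricted -/
theorem FamF.GG_Rst (hred : IsReduced (A ⧸ I))
    (hfin : (minimalPrimes (A ⧸ I)).Finite) (h : Fin n → BB n A)
    (hJ : JS (fun i j => chi I (pd i (h j)))
      (fun i j => -(PowerSeries.map (Ideal.Quotient.mk I) (Φ.b i j))) Φ.J) :
    (fM (Fk n) (fB n I)).Rst (GG X.DE Φ.wE Φ.bE (DD h)) ∧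
      (fM (Fk n) (fB n I)).Rst (HH X.DE Φ.wE Φ.bE (DD h)) := by
  set G := GG X.DE Φ.wE Φ.bE (DD h) with hG
  set H := HH X.DE Φ.wE Φ.bE (DD h) with hH
  set Y := (chi I : BB n A →+* A ⧸ I).mapMatrix (m := Fk n) with hY
  have e1 := spin_red hfin hJ (g := PowerSeries.map Y G) (e := PowerSeries.map Y H)
    (by rw [PowerSeries.coeff_map, hG, coeff_GG, map_one])
    (by
      have h1 := congrArg (coeff 0) (GG_HH (D := X.DE) (w := Φ.wE) (b := Φ.bE) (Δ := DD h))
      rw [coeff_zero_mul', coeff_GG, one_mul] at h1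
      rw [PowerSeries.coeff_map, hH, h1, coeff_zero_one, map_one])
    (by rw [← map_mul, hG, hH, GG_HH, map_one])
    (by rw [dt_map, hG, dt_GG, map_mul, Φ.map_Mt hf])
  have key : ∀ Z : PowerSeries (Matrix (Fk n) (Fk n) (BB n A)), EvZ (PowerSeries.map Y Z) →
      (fM (Fk n) (fB n I)).Pol 1 Z := by
    rintro Z ⟨N, hN⟩
    refine ⟨N, fun m hm a c => ?_⟩
    have h1 := congrFun (congrFun (hN m hm) a) c
    rw [PowerSeries.coeff_map] at h1
    exact chi_eq_zero.1 h1
  exact ⟨Filt.lift_left (Φ.Mt_Rst hf _) dt_GG dt_HH GG_HH (key _ e1.1) (key _ e1.2),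
    Filt.lift_right (Φ.Mt_Rst hf _) dt_GG dt_HH GG_HH (key _ e1.1) (key _ e1.2)⟩

end Ham

end

end Pool.Agent.MFI
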