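import Mathlib

/-!
# Isotopy invariance of matrix factorizations (MP_c8c50b_ag), helper26

Part 5: Fock space: creation and annihilation operators as matrices, the canonical anticommutation
relations, and generation of the full matrix algebra.
-/

set_option autoImplicit false

namespace Pool.Agent.MFI

open Function

/-- the index set of Fock space -/
abbrev Fk (n : ℕ) := Fin n → Bool

/-- the sign of a bit -/
def sb (x : Bool) : ℤ := if x then -1 else 1

lemma sb_not (x : Bool) : sb (!x) = - sb x := by cases x <;> simp [sb]

lemma sb_sq (x : Bool) : sb x * sb x = 1 := by cases x <;> simp [sb]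

variable {n : ℕ}

/-- the Jordan-Wigner sign -/
def sgn (i : Fin n) (a : Fk n) : ℤ := ∏ j ∈ Finset.univ.filter (· < i), sb (a j)

/-- the parity -/
def par (a : Fk n) : ℤ := ∏ j, sb (a j)

lemma sgn_sq (i : Fin n) (a : Fk n) : sgn i a * sgn i a = 1 := by
  rw [sgn, ← Finset.prod_mul_distrib]
  exact Finset.prod_eq_one fun j _ => sb_sq _

lemma par_sq (a : Fk n) : par a * par a = 1 := by
  rw [par, ← Finset.prod_mul_distrib]
  exact Finset.prod_eq_one fun j _ => sb_sq _

lemma sgn_update_lt {i k : Fin n} (h : i < k) (a : Fk n) :
    sgn k (update a i (!(a i))) = - sgn k a := by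
  have hi : i ∈ Finset.univ.filter (· < k) := by simpa using h
  rw [sgn, sgn, ← Finset.mul_prod_erase _ _ hi, ← Finset.mul_prod_erase _ _ hi, update_self,
    sb_not, neg_mul]
  congr 2
  refine Finset.prod_congr rfl fun j hj => ?_
  rw [update_of_ne (Finset.ne_of_mem_erase hj)]

lemma sgn_update_ge {i k : Fin n} (h : ¬ i < k) (a : Fk n) (x : Bool) :
    sgn k (update a i x) = sgn k a := by
  refine Finset.prod_congr rfl fun j hj => ?_
  have h1 : j < k := by simpa using hj
  rw [update_of_ne]
  rintro rfl
  exact h h1

lemma par_update (i : Fin n) (a : Fk n) : par (update a i (!(a i))) = - par a := by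
  have hi : i ∈ (Finset.univ : Finset (Fin n)) := Finset.mem_univ i
  rw [par, par, ← Finset.mul_prod_erase _ _ hi, ← Finset.mul_prod_erase _ _ hi, update_self,
    sb_not, neg_mul]
  congr 2
  refine Finset.prod_congr rfl fun j hj => ?_
  rw [update_of_ne (Finset.ne_of_mem_erase hj)]

section Ring

variable (R : Type*) [CommRing R]

/-- the elementary operators: `op i true` creates, `op i false` annihilates the fermion `i` -/
def op (i : Fin n) (β : Bool) : Matrix (Fk n) (Fk n) R := fun a c =>
  if a i = β ∧ c = update a i (!β) then ((sgn i a : ℤ) : R) else 0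

/-- the parity operator -/
def gam : Matrix (Fk n) (Fk n) R := Matrix.diagonal fun a => ((par a : ℤ) : R)

variable {R}

lemma op_map {R' : Type*} [CommRing R'] (f : R →+* R') (i : Fin n) (β : Bool) :
    (op R i β).map f = op R' i β := by
  ext a c
  simp only [Matrix.map_apply, op]
  split_ifs
  · simp
  · simp

lemma gam_map {R' : Type*} [CommRing R'] (f : R →+* R') :
    (gam R : Matrix (Fk n) (Fk n) R).map f = gam R' := by
  ext a c
  simp only [Matrix.map_apply, gam, Matrix.diagonal_apply]
  split_ifs
  · simp
  · simp

lemma op_mul (i : Fin n) (β : Bool) (M : Matrix (Fk n) (Fk n) R) (a c : Fk n) :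
    (op R i β * M) a c = if a i = β then ((sgn i a : ℤ) : R) * M (update a i (!β)) c else 0 := by
  rw [Matrix.mul_apply]
  by_cases h : a i = β
  · rw [if_pos h, Finset.sum_eq_single (update a i (!β))]
    · simp [op, h]
    · intro b _ hb
      simp [op, hb]
    · intro h1
      exact absurd (Finset.mem_univ _) h1
  · rw [if_neg h]
    refine Finset.sum_eq_zero fun b _ => ?_
    simp [op, h]

lemma op_mul_op (i k : Fin n) (β β' : Bool) (h : i ≠ k) (a c : Fk n) :
    (op R i β * op R k β') a c = if a i = β ∧ a k = β' ∧
      c = update (update a i (!β)) k (!β') then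
        ((sgn i a * sgn k (update a i (!β)) : ℤ) : R) else 0 := by
  rw [op_mul]
  by_cases h1 : a i = β
  · rw [if_pos h1, op, update_of_ne h.symm]
    by_cases h2 : a k = β' ∧ c = update (update a i (!β)) k (!β')
    · rw [if_pos h2, if_pos ⟨h1, h2⟩]
      push_cast
      ring
    · rw [if_neg h2, if_neg (fun h3 => h2 h3.2), mul_zero]
  · rw [if_neg h1, if_neg (fun h3 => h1 h3.1)]

lemma car_lt (i k : Fin n) (β β' : Bool) (h : i < k) :
    op R i β * op R k β' + op R k β' * op R i β = 0 := by
  ext a c
  rw [Matrix.add_apply, op_mul_op i k β β' h.ne, op_mul_op k i β' β h.ne', Matrix.zero_apply,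
    update_comm h.ne']
  by_cases h1 : a i = β ∧ a k = β' ∧ c = update (update a i (!β)) k (!β')
  · rw [if_pos h1, if_pos ⟨h1.2.1, h1.1, h1.2.2⟩, ← h1.1, sgn_update_lt h,
      sgn_update_ge (not_lt.2 h.le)]
    push_cast
    ring
  · rw [if_neg h1, if_neg (fun h2 => h1 ⟨h2.2.1, h2.1, h2.2.2⟩), add_zero]

/-- anticommutation for different indices -/
lemma car_ne (i k : Fin n) (β β' : Bool) (h : i ≠ k) :
    op R i β * op R k β' + op R k β' * op R i β = 0 := by
  rcases lt_or_gt_of_ne h with h1 | h1
  · exact car_lt i k β β' h1
  · rw [add_comm]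
    exact car_lt k i β' β h1

lemma op_sq (i : Fin n) (β : Bool) : op R i β * op R i β = 0 := by
  ext a c
  rw [op_mul]
  split_ifs with h
  · simp [op]
  · rfl

lemma num (i : Fin n) (β : Bool) :
    op R i β * op R i (!β) = Matrix.diagonal fun a => if a i = β then 1 else 0 := by
  ext a c
  rw [op_mul, Matrix.diagonal_apply]
  by_cases h : a i = β
  · have h1 : update (update a i (!β)) i β = a := by
      rw [update_idem, ← h, update_eq_self]
    rw [if_pos h, op, update_self, Bool.not_not, h1]
    by_cases h2 : a = c
    · rw [if_pos h2, if_pos ⟨rfl, h2.symm⟩, if_pos h, sgn_update_ge (lt_irrefl i), ← Int.cast_mul,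
        sgn_sq, Int.cast_one]
    · rw [if_neg h2, if_neg (fun h3 => h2 h3.2.symm), mul_zero]
  · rw [if_neg h]
    split_ifs <;> rfl

/-- the same index -/
lemma car_eq (i : Fin n) (β : Bool) :
    op R i β * op R i (!β) + op R i (!β) * op R i β = 1 := by
  have h1 := num (R := R) i β
  have h2 := num (R := R) i (!β)
  rw [Bool.not_not] at h2
  rw [h1, h2, Matrix.diagonal_add, ← Matrix.diagonal_one]
  congr 1
  funext a
  cases β <;> cases a i <;> simp

lemma gam_op (i : Fin n) (β : Bool) : gam R * op R i β = -(op R i β * gam R) := by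
  ext a c
  rw [Matrix.neg_apply, gam, Matrix.diagonal_mul, Matrix.mul_diagonal, op]
  by_cases h : a i = β ∧ c = update a i (!β)
  · have h1 : c = update a i (!(a i)) := by rw [h.1]; exact h.2
    rw [if_pos h, h1, par_update]
    push_cast
    ring
  · rw [if_neg h, mul_zero, zero_mul, neg_zero]

lemma gam_sq : gam R * gam R = (1 : Matrix (Fk n) (Fk n) R) := by
  rw [gam, Matrix.diagonal_mul_diagonal, ← Matrix.diagonal_one]
  congr 1
  funext a
  rw [← Int.cast_mul, par_sq, Int.cast_one]

/-- creation -/
abbrev th (R : Type*) [CommRing R] (i : Fin n) : Matrix (Fk n) (Fk n) R := op R i true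

/-- annihilation -/
abbrev io (R : Type*) [CommRing R] (i : Fin n) : Matrix (Fk n) (Fk n) R := op R i false

lemma th_th (i k : Fin n) : th R i * th R k + th R k * th R i = 0 := by
  by_cases h : i = k
  · subst h
    rw [op_sq, add_zero]
  · exact car_ne i k _ _ h

lemma io_io (i k : Fin n) : io R i * io R k + io R k * io R i = 0 := by
  by_cases h : i = k
  · subst h
    rw [op_sq, add_zero]
  · exact car_ne i k _ _ h

lemma io_th (i k : Fin n) : io R i * th R k + th R k * io R i = if i = k then 1 else 0 := by
  by_cases h : i = k
  · subst h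
    rw [if_pos rfl]
    exact car_eq i false
  · rw [if_neg h]
    exact car_ne i k _ _ h

/-- the elementary operators generate the matrix algebra -/
theorem gen_top {K : Type*} [CommRing K] (W : Subalgebra K (Matrix (Fk n) (Fk n) K))
    (hW : ∀ i β, op K i β ∈ W) : W = ⊤ := by
  classical
  have h1 : ∀ (b : Fk n) (s : Finset (Fin n)),
      (Matrix.diagonal fun a : Fk n => if ∀ i ∈ s, a i = b i then (1 : K) else 0) ∈ W := by
    intro b s
    induction s using Finset.induction_on with
    | empty =>
      have h2 : (Matrix.diagonal fun a : Fk n => if ∀ i ∈ (∅ : Finset (Fin n)), a i = b i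
          then (1 : K) else 0) = 1 := by
        rw [← Matrix.diagonal_one]
        congr 1
        funext a
        simp
      rw [h2]
      exact W.one_mem
    | insert i s _ ih =>
      have h2 := W.mul_mem (W.mul_mem (hW i (b i)) (hW i (!(b i)))) ih
      rw [num, Matrix.diagonal_mul_diagonal] at h2
      convert h2 using 2
      funext a
      by_cases h3 : a i = b i
      · simp [h3]
      · simp [h3]
  have h2 : ∀ b : Fk n, Matrix.single b b (1 : K) ∈ W := by
    intro b
    have h3 := h1 b Finset.univ
    convert h3 using 1
    ext a c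
    rw [Matrix.single_apply, Matrix.diagonal_apply]
    by_cases h4 : a = c
    · subst h4
      by_cases h5 : b = a
      · subst h5
        simp
      · have h6 : ¬ ∀ i ∈ (Finset.univ : Finset (Fin n)), a i = b i := fun h7 =>
          h5 (funext fun i => (h7 i (Finset.mem_univ i)).symm)
        rw [if_neg (fun h7 => h5 h7.1), if_pos rfl, if_neg h6]
    · rw [if_neg h4, if_neg]
      rintro ⟨h5, h6⟩
      exact h4 (h5.symm.trans h6)
  have h3 : ∀ (b : Fk n) (s : Finset (Fin n)),
      Matrix.single (fun i => if i ∈ s then !(b i) else b i) b (1 : K) ∈ W := by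
    intro b s
    induction s using Finset.induction_on with
    | empty => simpa using h2 b
    | insert i s his ih =>
      set d : Fk n := fun i => if i ∈ s then !(b i) else b i with hd
      have hdi : d i = b i := by rw [hd]; simp [his]
      have e1 : (fun j => if j ∈ insert i s then !(b j) else b j) = update d i (!(b i)) := by
        funext j
        by_cases hj : j = i
        · subst hj
          simp
        · rw [update_of_ne hj]
          simp [hj, hd]
      rw [e1]
      have h4 := W.mul_mem (hW i (!(b i))) ih
      have h5 : Matrix.single (update d i (!(b i))) b (1 : K) =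
          ((sgn i (update d i (!(b i))) : ℤ) : K) • (op K i (!(b i)) * Matrix.single d b (1 : K)) := by
        ext a c
        rw [Matrix.smul_apply, op_mul, Matrix.single_apply, Matrix.single_apply, Bool.not_not,
          smul_eq_mul]
        by_cases h6 : update d i (!(b i)) = a
        · subst h6
          have h7 : update (update d i (!(b i))) i (b i) = d := by
            rw [update_idem, ← hdi, update_eq_self]
          rw [update_self, if_pos rfl, h7]
          by_cases h8 : b = c
          · rw [if_pos ⟨rfl, h8⟩, if_pos ⟨rfl, h8⟩, mul_one, ← Int.cast_mul, sgn_sq, Int.cast_one]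
          · rw [if_neg (fun h9 => h8 h9.2), if_neg (fun h9 => h8 h9.2), mul_zero, mul_zero]
        · rw [if_neg (fun h9 => h6 h9.1)]
          by_cases h7 : a i = !(b i)
          · rw [if_pos h7, if_neg, mul_zero, mul_zero]
            rintro ⟨h9, -⟩
            apply h6
            rw [h9, update_idem, ← h7, update_eq_self]
          · rw [if_neg h7, mul_zero]
      rw [h5]
      exact W.smul_mem h4 _
  rw [eq_top_iff]
  intro M _
  rw [Matrix.matrix_eq_sum_single M]
  refine W.sum_mem fun a _ => W.sum_mem fun c _ => ?_
  have h4 := h3 c (Finset.univ.filter fun i => a i ≠ c i)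
  have h5 : (fun i => if i ∈ Finset.univ.filter (fun i => a i ≠ c i) then !(c i) else c i) = a := by
    funext i
    by_cases h6 : a i = c i
    · simp [h6]
    · have h7 : a i = !(c i) := by
        revert h6
        cases a i <;> cases c i <;> simp
      simp [h7]
  rw [h5] at h4
  have h6 : Matrix.single a c (M a c) = (M a c) • Matrix.single a c (1 : K) := by
    rw [Matrix.smul_single, smul_eq_mul, mul_one]
  rw [h6]
  exact W.smul_mem h4 _

end Ring

end Pool.Agent.MFI
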