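import Pool.Agent.MFI.St

/-!
# Isotopy invariance of matrix factorizations (MP_c8c50b_ag)

Module CPL: completeness of the filtrations (helper53).
-/

set_option autoImplicit false

namespace Pool.Agent.MFI

universe u

/-- telescoping -/
lemma mcpl_tele {E : Type*} [Ring E] (φ : Filt E) (u : ℕ → E) (N M : ℕ)
    (h : ∀ m ≥ M, u (m + 1) - u m ∈ φ.F N) {m m' : ℕ} (hm : M ≤ m) (hmm : m ≤ m') :
    u m' - u m ∈ φ.F N := by
  induction m', hmm using Nat.le_induction with
  | base =>
    rw [sub_self]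
    exact zero_mem _
  | succ k hk ih =>
    have h1 : u (k + 1) - u m = (u (k + 1) - u k) + (u k - u m) := by abel
    rw [h1]
    exact add_mem (h k (le_trans hm hk)) ih

lemma mcpl_adic {A : Type u} [CommRing A] (I : Ideal A) (hI : IsAdicComplete I A) :
    (fA I).Cpl := by
  have htop : ∀ n : ℕ, (I ^ n • ⊤ : Submodule A A) = I ^ n := fun n => by
    rw [smul_eq_mul, Ideal.mul_top]
  refine ⟨fun x hx => ?_, fun u hu => ?_⟩
  · refine hI.toIsHausdorff.haus x fun n => ?_
    rw [SModEq.sub_mem, sub_zero, htop]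
    exact hx n
  · choose M0 hM0 using hu
    -- an increasing subsequence
    let M : ℕ → ℕ := fun N => ∑ k ∈ Finset.range (N + 1), M0 k
    have hMle : ∀ N, M0 N ≤ M N := fun N =>
      Finset.single_le_sum (f := M0) (fun _ _ => Nat.zero_le _)
        (Finset.mem_range.2 (Nat.lt_succ_self N))
    have hMmono : Monotone M := by
      intro a b hab
      exact Finset.sum_le_sum_of_subset (Finset.range_subset_range.2 (by omega))
    have hcau : ∀ {m n : ℕ}, m ≤ n → u (M m) ≡ u (M n) [SMOD (I ^ m • ⊤ : Submodule A A)] := by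
      intro m n hmn
      rw [SModEq.sub_mem, htop, ← neg_sub]
      exact neg_mem (mcpl_tele (fA I) u m (M0 m) (hM0 m) (hMle m) (hMmono hmn))
    obtain ⟨x, hx⟩ := hI.toIsPrecomplete.prec hcau
    refine ⟨x, fun N => ⟨M N, fun m hm => ?_⟩⟩
    have h1 : u (M N) - x ∈ I ^ N := by
      have h2 := hx N
      rwa [SModEq.sub_mem, htop] at h2
    have h3 : u m - u (M N) ∈ (fA I).F N := mcpl_tele (fA I) u N (M0 N) (hM0 N) (hMle N) hm
    have h4 : x - u m = -((u (M N) - x) + (u m - u (M N))) := by abel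
    rw [h4]
    exact neg_mem (add_mem (show u (M N) - x ∈ (fA I).F N from h1) h3)

lemma mcpl_jet {A : Type u} [CommRing A] (I : Ideal A) (n : ℕ) (hA : (fA I).Cpl) :
    (fB n I).Cpl := by
  refine ⟨fun X hX => ?_, fun u hu => ?_⟩
  · ext α
    rw [map_zero]
    refine hA.sep _ fun N => ?_
    have h1 := hX (N + α.degree) α
    rwa [Nat.add_sub_cancel] at h1
  · have h1 : ∀ α : Fin n →₀ ℕ, ∃ x, ∀ N, ∃ M, ∀ m ≥ M,
        x - MvPowerSeries.coeff α (u m) ∈ (fA I).F N := by
      intro α
      refine hA.lim (fun m => MvPowerSeries.coeff α (u m)) fun N => ?_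
      obtain ⟨M, hM⟩ := hu (N + α.degree)
      refine ⟨M, fun m hm => ?_⟩
      have h2 := hM m hm α
      rw [Nat.add_sub_cancel, map_sub] at h2
      exact h2
    choose x hx using h1
    refine ⟨(x : (Fin n →₀ ℕ) → A), fun N => ?_⟩
    obtain ⟨M, hM⟩ := hu N
    refine ⟨M, fun m hm α => ?_⟩
    obtain ⟨M', hM'⟩ := hx α (N - α.degree)
    have h2 := hM' (max m M') (le_max_right _ _)
    have h3 := mcpl_tele (fB n I) u N M hM hm (le_max_left m M') α
    rw [map_sub] at h3 ⊢
    have h4 : MvPowerSeries.coeff α (show MvPowerSeries (Fin n) A from x) -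
        MvPowerSeries.coeff α (u m) =
        (x α - MvPowerSeries.coeff α (u (max m M'))) +
        (MvPowerSeries.coeff α (u (max m M')) - MvPowerSeries.coeff α (u m)) := by
      have h5 : MvPowerSeries.coeff α (show MvPowerSeries (Fin n) A from x) = x α := rfl
      rw [h5]
      abel
    have h6 := add_mem (show x α - MvPowerSeries.coeff α (u (max m M')) ∈ I ^ (N - α.degree)
      from h2) h3
    rw [← h4] at h6
    exact h6

lemma mcpl_mat {E : Type u} [Ring E] (V : Type) [Fintype V] [DecidableEq V] (φ : Filt E)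
    (hφ : φ.Cpl) : (fM V φ).Cpl := by
  refine ⟨fun X hX => ?_, fun u hu => ?_⟩
  · ext i j
    exact hφ.sep _ fun N => hX N i j
  · have h1 : ∀ i j : V, ∃ x, ∀ N, ∃ M, ∀ m ≥ M, x - u m i j ∈ φ.F N := by
      intro i j
      refine hφ.lim (fun m => u m i j) fun N => ?_
      obtain ⟨M, hM⟩ := hu N
      exact ⟨M, fun m hm => hM m hm i j⟩
    choose x hx using h1
    refine ⟨Matrix.of x, fun N => ?_⟩
    obtain ⟨M, hM⟩ := hu N
    refine ⟨M, fun m hm i j => ?_⟩
    obtain ⟨M', hM'⟩ := hx i j N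
    have h2 := hM' (max m M') (le_max_right _ _)
    have h3 := mcpl_tele (fM V φ) u N M hM hm (le_max_left m M') i j
    have h4 : (Matrix.of x - u m) i j = (x i j - u (max m M') i j) +
        (u (max m M') - u m) i j := by
      simp only [Matrix.sub_apply, Matrix.of_apply]
      abel
    rw [h4]
    exact add_mem h2 h3

theorem m_CPL : S_CPL.{u} :=
  ⟨fun I hI => mcpl_adic I hI, fun I n h => mcpl_jet I n h, fun V _ _ φ h => mcpl_mat V φ h⟩

end Pool.Agent.MFI
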