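import Pool.Agent.MFI.St

/-!
# Isotopy invariance of matrix factorizations (MP_c8c50b_ag), module EV

Values of restricted series in a complete filtered ring.
-/

set_option autoImplicit false

open PowerSeries
open Finset.HasAntidiagonal (antidiagonal mem_antidiagonal)

namespace Pool.Agent.MFI

universe u

noncomputable section

section One

variable {E : Type u} [Ring E] {φ : Filt E}

private lemma mev_psum_succ (τ : E) (X : PowerSeries E) (m : ℕ) :
    psum τ X (m + 1) = psum τ X m + coeff m X * τ ^ m := by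
  rw [psum, psum, Finset.sum_range_succ]

private lemma mev_spec (hC : φ.Cpl) (τ : E) {X : PowerSeries E} (hX : φ.Rst X) :
    ∀ N, ∃ M, ∀ m ≥ M, φ.ev τ X - psum τ X m ∈ φ.F N := by
  have h : ∃ x, ∀ N, ∃ M, ∀ m ≥ M, x - psum τ X m ∈ φ.F N := by
    refine hC.lim _ fun N => ?_
    obtain ⟨M, hM⟩ := hX N
    refine ⟨M, fun m hm => ?_⟩
    rw [mev_psum_succ, add_sub_cancel_left]
    exact φ.mul_right _ (hM m hm)
  rw [Filt.ev, dif_pos h]
  exact h.choose_spec

private lemma mev_uniq (hC : φ.Cpl) (τ : E) {X : PowerSeries E} {y : E}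
    (hy : ∀ N, ∃ M, ∀ m ≥ M, y - psum τ X m ∈ φ.F N) : φ.ev τ X = y := by
  have h : ∃ x, ∀ N, ∃ M, ∀ m ≥ M, x - psum τ X m ∈ φ.F N := ⟨y, hy⟩
  have h1 : ∀ N, ∃ M, ∀ m ≥ M, φ.ev τ X - psum τ X m ∈ φ.F N := by
    rw [Filt.ev, dif_pos h]
    exact h.choose_spec
  rw [← sub_eq_zero]
  refine hC.sep _ fun N => ?_
  obtain ⟨M, hM⟩ := h1 N
  obtain ⟨M', hM'⟩ := hy N
  have h2 := sub_mem (hM (max M M') (le_max_left _ _)) (hM' (max M M') (le_max_right _ _))
  rwa [sub_sub_sub_cancel_right] at h2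

private lemma mev_add (hC : φ.Cpl) (τ : E) {X Y : PowerSeries E} (hX : φ.Rst X)
    (hY : φ.Rst Y) : φ.ev τ (X + Y) = φ.ev τ X + φ.ev τ Y := by
  refine mev_uniq hC τ fun N => ?_
  obtain ⟨M, hM⟩ := mev_spec hC τ hX N
  obtain ⟨M', hM'⟩ := mev_spec hC τ hY N
  refine ⟨max M M', fun m hm => ?_⟩
  have h1 : psum τ (X + Y) m = psum τ X m + psum τ Y m := by
    simp only [psum, map_add, add_mul, Finset.sum_add_distrib]
  rw [h1, add_sub_add_comm]
  exact add_mem (hM m (le_trans (le_max_left _ _) hm)) (hM' m (le_trans (le_max_right _ _) hm))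

private lemma mev_psum_mul {τ : E} (hτ : ∀ x, τ * x = x * τ) (X Y : PowerSeries E) (m : ℕ) :
    psum τ X m * psum τ Y m - psum τ (X * Y) m =
      ∑ i ∈ Finset.range m, ∑ j ∈ Finset.Ico (m - i) m,
        coeff i X * coeff j Y * τ ^ (i + j) := by
  have hp : ∀ (k : ℕ) (x : E), τ ^ k * x = x * τ ^ k := fun k x =>
    ((show Commute τ x from hτ x).pow_left k).eq
  have h1 : psum τ X m * psum τ Y m = ∑ i ∈ Finset.range m, ∑ j ∈ Finset.range m,
      coeff i X * coeff j Y * τ ^ (i + j) := by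
    rw [psum, psum, Finset.sum_mul]
    refine Finset.sum_congr rfl fun i _ => ?_
    rw [Finset.mul_sum]
    refine Finset.sum_congr rfl fun j _ => ?_
    rw [pow_add, mul_assoc, ← mul_assoc (τ ^ i), hp i, mul_assoc, mul_assoc]
  have h2 : psum τ (X * Y) m = ∑ i ∈ Finset.range m, ∑ j ∈ Finset.range (m - i),
      coeff i X * coeff j Y * τ ^ (i + j) := by
    rw [← Finset.sum_range_diag_flip m fun i j => coeff i X * coeff j Y * τ ^ (i + j), psum]
    refine Finset.sum_congr rfl fun k _ => ?_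
    rw [coeff_mul, Finset.Nat.sum_antidiagonal_eq_sum_range_succ
      (fun i j => coeff i X * coeff j Y), Finset.sum_mul]
    refine Finset.sum_congr rfl fun i hi => ?_
    have h3 : i + (k - i) = k := by
      have := Finset.mem_range.1 hi
      omega
    rw [h3]
  rw [h1, h2, ← Finset.sum_sub_distrib]
  refine Finset.sum_congr rfl fun i _ => ?_
  rw [Finset.sum_Ico_eq_sub _ (Nat.sub_le m i)]

private lemma mev_mul (hC : φ.Cpl) {τ : E} (hτ : ∀ x, τ * x = x * τ) {X Y : PowerSeries E}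
    (hX : φ.Rst X) (hY : φ.Rst Y) : φ.ev τ (X * Y) = φ.ev τ X * φ.ev τ Y := by
  refine mev_uniq hC τ fun N => ?_
  obtain ⟨M, hM⟩ := mev_spec hC τ hX N
  obtain ⟨M', hM'⟩ := mev_spec hC τ hY N
  obtain ⟨K, hK⟩ := hX N
  obtain ⟨K', hK'⟩ := hY N
  refine ⟨M + M' + K + K', fun m hm => ?_⟩
  have e1 : φ.ev τ X * φ.ev τ Y - psum τ (X * Y) m =
      (φ.ev τ X - psum τ X m) * φ.ev τ Y + psum τ X m * (φ.ev τ Y - psum τ Y m) +
      (psum τ X m * psum τ Y m - psum τ (X * Y) m) := by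
    rw [sub_mul, mul_sub]
    abel
  rw [e1, mev_psum_mul hτ]
  refine add_mem (add_mem (φ.mul_right _ (hM m (by omega))) (φ.mul_left _ (hM' m (by omega)))) ?_
  refine sum_mem fun i hi => sum_mem fun j hj => φ.mul_right _ ?_
  have h1 := Finset.mem_Ico.1 hj
  rcases Nat.lt_or_ge i K with h2 | h2
  · exact φ.mul_left _ (hK' j (by omega))
  · exact φ.mul_right _ (hK i h2)

private lemma mev_C (hC : φ.Cpl) (τ x : E) : φ.ev τ (C x) = x := by
  refine mev_uniq hC τ fun N => ⟨1, fun m hm => ?_⟩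
  have h1 : psum τ (C x) m = x := by
    rw [psum, Finset.sum_eq_single 0]
    · simp
    · intro j _ hj
      rw [coeff_C, if_neg hj, zero_mul]
    · intro h
      exact absurd (Finset.mem_range.2 (by omega)) h
  rw [h1, sub_self]
  exact zero_mem _

private lemma mev_X (hC : φ.Cpl) (τ : E) : φ.ev τ (X : PowerSeries E) = τ := by
  refine mev_uniq hC τ fun N => ⟨2, fun m hm => ?_⟩
  have h1 : psum τ (X : PowerSeries E) m = τ := by
    rw [psum, Finset.sum_eq_single 1]
    · simp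
    · intro j _ hj
      rw [coeff_X, if_neg hj, zero_mul]
    · intro h
      exact absurd (Finset.mem_range.2 (by omega)) h
  rw [h1, sub_self]
  exact zero_mem _

private lemma mev_inF (hC : φ.Cpl) (τ : E) {X : PowerSeries E} {N : ℕ} (hX : φ.Rst X)
    (h : φ.InF N X) : φ.ev τ X ∈ φ.F N := by
  obtain ⟨M, hM⟩ := mev_spec hC τ hX N
  have h1 : psum τ X M ∈ φ.F N := sum_mem fun j _ => φ.mul_right _ (h j)
  have h2 := add_mem (hM M le_rfl) h1
  rwa [sub_add_cancel] at h2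

private lemma mev_rstX : φ.Rst (X : PowerSeries E) := fun N => ⟨2, fun m hm => by
  rw [coeff_X, if_neg (by omega)]
  exact zero_mem _⟩

private lemma mev_Xpow (hC : φ.Cpl) {τ : E} (hτ : ∀ x, τ * x = x * τ) (j : ℕ) :
    φ.ev τ ((X : PowerSeries E) ^ j) = τ ^ j := by
  induction j with
  | zero =>
    rw [pow_zero, pow_zero]
    exact mev_C hC τ 1
  | succ j ih => rw [pow_succ, mev_mul hC hτ (mev_rstX.pow j) mev_rstX, ih, mev_X hC, pow_succ]

private lemma mev_sum (hC : φ.Cpl) (τ : E) {ι : Type*} (s : Finset ι) (f : ι → PowerSeries E)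
    (h : ∀ i ∈ s, φ.Rst (f i)) : φ.ev τ (∑ i ∈ s, f i) = ∑ i ∈ s, φ.ev τ (f i) := by
  classical
  induction s using Finset.induction_on with
  | empty =>
    rw [Finset.sum_empty, Finset.sum_empty]
    have := mev_C hC τ 0
    rwa [map_zero] at this
  | insert a s ha ih =>
    rw [Finset.sum_insert ha, Finset.sum_insert ha,
      mev_add hC τ (h a (Finset.mem_insert_self a s))
        (Filt.Rst.sum s f fun i hi => h i (Finset.mem_insert_of_mem hi)),
      ih fun i hi => h i (Finset.mem_insert_of_mem hi)]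

private lemma mev_sub (hC : φ.Cpl) (τ : E) {X Y : PowerSeries E} (hX : φ.Rst X)
    (hY : φ.Rst Y) : φ.ev τ (X - Y) = φ.ev τ X - φ.ev τ Y := by
  have h := mev_add hC τ (hX.sub hY) hY
  rw [sub_add_cancel] at h
  rw [h, add_sub_cancel_right]

end One

theorem m_EV : S_EV.{u} := by
  intro E _ φ hC τ hτ
  exact ⟨fun X hX => mev_spec hC τ hX, fun X y hy => mev_uniq hC τ hy,
    fun X Y hX hY => mev_add hC τ hX hY, fun X Y hX hY => mev_mul hC hτ hX hY,
    fun x => mev_C hC τ x, fun X N hX h => mev_inF hC τ hX h⟩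

section Two

variable {E E' : Type u} [Ring E] [Ring E']

private lemma mev_ext_mono (ψ : E →+ PowerSeries E') (x : E) (j : ℕ) :
    ext ψ (C x * X ^ j) = ψ x * X ^ j := by
  ext m
  rw [coeff_ext, coeff_mul_X_pow']
  split_ifs with h
  · rw [Finset.sum_eq_single (m - j, j)]
    · rw [coeff_C_mul_X_pow, if_pos rfl]
    · intro p hp hne
      have h1 := mem_antidiagonal.1 hp
      have h2 : p.2 ≠ j := by
        intro h3
        exact hne (Prod.ext (by simp only; omega) h3)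
      rw [coeff_C_mul_X_pow, if_neg h2, map_zero, map_zero]
    · intro h1
      exact absurd (mem_antidiagonal.2 (Nat.sub_add_cancel h)) h1
  · refine Finset.sum_eq_zero fun p hp => ?_
    have h1 := mem_antidiagonal.1 hp
    rw [coeff_C_mul_X_pow, if_neg (by omega), map_zero, map_zero]

private lemma mev_trc (M : ℕ) (Y : PowerSeries E) :
    Filt.trc M Y = ∑ j ∈ Finset.range M, C (coeff j Y) * X ^ j := by
  ext m
  rw [Filt.trc, coeff_mk, map_sum]
  simp only [coeff_C_mul_X_pow]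
  rw [Finset.sum_ite_eq]
  simp only [Finset.mem_range]

private lemma mev_psi {ψ : E →+ PowerSeries E'} {τ : E} {τ' : E'}
    (h : ∀ x, ψ (x * τ) = ψ x * C τ') (x : E) (j : ℕ) : ψ (x * τ ^ j) = ψ x * C (τ' ^ j) := by
  induction j with
  | zero => simp
  | succ j ih => rw [pow_succ, ← mul_assoc, h, ih, mul_assoc, ← map_mul, pow_succ]

end Two

theorem m_EVM : S_EVM.{u} := by
  intro E E' _ _ φ φ' hC hC' τ τ' hτ hτ' ψ hψ hF hr Y hY
  have hRe : φ'.Rst (ext ψ Y) := ext_rst hF hr hY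
  refine ⟨hRe, ?_⟩
  rw [← sub_eq_zero]
  refine hC'.sep _ fun N => ?_
  obtain ⟨K, hK⟩ := hY N
  obtain ⟨M', hM'⟩ := mev_spec hC τ hY N
  set M := max K M' with hM
  set y := φ.ev τ Y with hy
  -- the value of the truncation
  have r1 : ∀ j, φ'.Rst (ψ (coeff j Y) * (X : PowerSeries E') ^ j) := fun j =>
    (hr _).mul (mev_rstX.pow j)
  have r2 : ∀ j, φ'.Rst (ψ (coeff j Y) * C (τ' ^ j)) := fun j =>
    (hr _).mul (Filt.Rst.C _)
  have e1 : ext ψ (Filt.trc M Y) = ∑ j ∈ Finset.range M, ψ (coeff j Y) * X ^ j := by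
    rw [mev_trc, map_sum]
    exact Finset.sum_congr rfl fun j _ => mev_ext_mono ψ _ j
  have e2 : ψ (psum τ Y M) = ∑ j ∈ Finset.range M, ψ (coeff j Y) * C (τ' ^ j) := by
    rw [psum, map_sum]
    exact Finset.sum_congr rfl fun j _ => mev_psi hψ _ j
  have e3 : φ'.ev τ' (ext ψ (Filt.trc M Y)) = φ'.ev τ' (ψ (psum τ Y M)) := by
    rw [e1, e2, mev_sum hC' τ' _ _ fun j _ => r1 j, mev_sum hC' τ' _ _ fun j _ => r2 j]
    refine Finset.sum_congr rfl fun j _ => ?_
    rw [mev_mul hC' hτ' (hr _) (mev_rstX.pow j), mev_mul hC' hτ' (hr _) (Filt.Rst.C _),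
      mev_Xpow hC' hτ', mev_C hC']
  have h1 : φ'.ev τ' (ext ψ (Y - Filt.trc M Y)) ∈ φ'.F N := by
    refine mev_inF hC' τ' ?_ ?_
    · exact ext_rst hF hr (hY.sub (Filt.Rst.trc M Y))
    · exact ext_inF (hF N) (Filt.sub_trc fun m hm => hK m (le_trans (le_max_left _ _) hm))
  have h2 : φ'.ev τ' (ψ (y - psum τ Y M)) ∈ φ'.F N :=
    mev_inF hC' τ' (hr _) (hF N _ (hM' M (le_max_right _ _)))
  rw [map_sub, mev_sub hC' τ' hRe (ext_rst hF hr (Filt.Rst.trc M Y)), e3] at h1
  rw [map_sub, mev_sub hC' τ' (hr _) (hr _)] at h2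
  have h3 := sub_mem h1 h2
  rwa [sub_sub_sub_cancel_right] at h3

end

end Pool.Agent.MFI
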