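import Pool.Agent.MFI.St

/-!
# Isotopy invariance of matrix factorizations (MP_c8c50b_ag), module INV (helper73)

The inverse of the extension of a filtered additive map preserves restricted series, if the
extension is onto on the graded pieces.
-/

set_option autoImplicit false

open PowerSeries
open Finset.HasAntidiagonal (antidiagonal mem_antidiagonal)

namespace Pool.Agent.MFI

universe u

noncomputable section

section Inv

variable {E : Type u} [Ring E]

private lemma minv_ext_X (ψ : E →+ PowerSeries E) (Z : PowerSeries E) :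
    ext ψ (X * Z) = X * ext ψ Z := by
  have h := ext_lin ψ (Int.castRingHom E) (Int.castRingHom E) (by
    intro a y
    have h1 : (Int.castRingHom E) a * y = a • y := by
      rw [eq_intCast, zsmul_eq_mul]
    rw [h1, map_zsmul, zsmul_eq_mul]
    congr 1
    rw [eq_intCast]
    exact (map_intCast (C : E →+* PowerSeries E) a).symm) (X : PowerSeries ℤ) Z
  rwa [PowerSeries.map_X] at h

private lemma minv_inv_X (ψ : E →+ PowerSeries E) (h0 : ∀ x, coeff 0 (ψ x) = x)
    (Z : PowerSeries E) : inv ψ (X * Z) = X * inv ψ Z := by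
  have h1 : ext ψ (inv ψ (X * Z) - X * inv ψ Z) = 0 := by
    rw [map_sub, minv_ext_X, ext_inv ψ h0, ext_inv ψ h0, sub_self]
  exact sub_eq_zero.1 (ext_inj ψ h0 h1)

private lemma minv_inv_add (ψ : E →+ PowerSeries E) (h0 : ∀ x, coeff 0 (ψ x) = x)
    (Y Z : PowerSeries E) : inv ψ (Y + Z) = inv ψ Y + inv ψ Z :=
  map_add (invA ψ h0) Y Z

private lemma minv_pol_X {φ : Filt E} {K : ℕ} {Z : PowerSeries E} (h : φ.Pol K Z) :
    φ.Pol K (X * Z) := by
  obtain ⟨M, hM⟩ := h
  refine ⟨M + 1, fun m hm => ?_⟩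
  obtain ⟨j, rfl⟩ : ∃ j, m = j + 1 := ⟨m - 1, by omega⟩
  rw [coeff_succ_X_mul]
  exact hM j (by omega)

private lemma minv_shift (X' : PowerSeries E) :
    X' = C (coeff 0 X') + X * PowerSeries.mk fun m => coeff (m + 1) X' := by
  ext m
  rcases m with _ | m
  · rw [map_add, coeff_zero_mul']
    simp
  · rw [map_add, coeff_succ_X_mul, coeff_mk, coeff_C, if_neg (Nat.succ_ne_zero m), zero_add]

/-- from the constants of `F N` to the series with coefficients in `F N` -/
private lemma minv_series {φ : Filt E} {ψ : E →+ PowerSeries E} (h0 : ∀ x, coeff 0 (ψ x) = x)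
    (hF : ∀ N, ∀ x ∈ φ.F N, φ.InF N (ψ x)) {K N : ℕ}
    (hc : ∀ x ∈ φ.F N, φ.Pol K (inv ψ (C x))) (M : ℕ) :
    ∀ Z : PowerSeries E, φ.InF N Z → (∀ m ≥ M, coeff m Z ∈ φ.F K) → φ.Pol K (inv ψ Z) := by
  induction M with
  | zero =>
    intro Z _ hK
    exact (inv_inF (hF K) (fun m => hK m (Nat.zero_le m))).pol
  | succ M ih =>
    intro Z hZ hK
    rw [minv_shift Z, minv_inv_add ψ h0, minv_inv_X ψ h0]
    refine (hc _ (hZ 0)).add (minv_pol_X (ih _ ?_ ?_))
    · intro m
      rw [coeff_mk]
      exact hZ (m + 1)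
    · intro m hm
      rw [coeff_mk]
      exact hK (m + 1) (by omega)

end Inv

theorem m_INV : S_INV.{u} := by
  intro E _ φ ψ h0 hF hR hS
  -- constants
  have key : ∀ K j N : ℕ, K ≤ N + j → ∀ x ∈ φ.F N, φ.Pol K (inv ψ (C x)) := by
    intro K j
    induction j with
    | zero =>
      intro N hN x hx
      refine ((inv_inF (hF N) (X := C x) ?_).mono (by omega)).pol
      intro m
      rw [coeff_C]
      split_ifs
      · exact hx
      · exact zero_mem _
    | succ j ih =>
      intro N hN x hx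
      obtain ⟨Y, hY, _, hY2⟩ := hS N x hx
      have hRR : φ.Rst (C x - ext ψ Y) := (Filt.Rst.C x).sub (ext_rst hF hR hY)
      have e1 : inv ψ (C x) = Y + inv ψ (C x - ext ψ Y) := by
        have e2 : (C x : PowerSeries E) = ext ψ Y + (C x - ext ψ Y) := by abel
        conv_lhs => rw [e2, minv_inv_add ψ h0, inv_ext ψ h0]
      rw [e1]
      obtain ⟨M, hM⟩ := hRR K
      exact (hY K).add (minv_series h0 hF (ih (N + 1) (by omega)) M _ hY2 hM)
  intro Z hZ K
  obtain ⟨M, hM⟩ := hZ K
  exact minv_series h0 hF (key K K 0 (by omega)) M Z (fun m => φ.zero _) hM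

end

end Pool.Agent.MFI
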