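import Pool.Agent.MFI.Core
import Pool.Agent.MFI.M_EV
import Pool.Agent.MFI.M_CPL
import Pool.Agent.MFI.M_INV

/-!
# Isotopy invariance of matrix factorizations (MP_c8c50b_ag), helper26

Part 17: frames of the module of differentials (no global étale coordinates), the exponential
`exp (Σ ε_i D_i)`, and the lifted derivations.
-/

set_option autoImplicit false

open PowerSeries
open Finset.HasAntidiagonal (antidiagonal mem_antidiagonal)

namespace Pool.Agent.MFI

universe u

noncomputable section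

/-- A finite frame of the module of differentials of the `I`-adic `k`-algebra `A`: elements `x_j`
and derivations `D_j` with `da = Σ_j D_j(a) dx_j`, that is `δ(a) = Σ_j D_j(a) δ(x_j)` for every
`k`-derivation `δ` into an `I`-adically separated module. (So the module of separated differentials
is a finitely generated projective module, generated by the `dx_j`.) -/
structure Frame (k A : Type u) [Field k] [CommRing A] [Algebra k A] (I : Ideal A) (n : ℕ) where
  x : Fin n → A
  D : Fin n → Derivation k A A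
  gen : ∀ (M : Type u) [AddCommGroup M] [Module A M] [Module k M] [IsScalarTower k A M]
    [IsHausdorff I M] (δ : Derivation k A M) (a : A), δ a = ∑ j, D j a • δ (x j)

section Gen

variable {k A : Type u} [Field k] [CommRing A] [Algebra k A] {I : Ideal A} {n : ℕ}

/-- a copy of `C` on which `A` acts through `g` -/
def ViaM {A C : Type u} [CommRing A] [CommRing C] (_g : A →+* C) : Type u := C

instance {A C : Type u} [CommRing A] [CommRing C] (g : A →+* C) : AddCommGroup (ViaM g) :=
  inferInstanceAs (AddCommGroup C)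

instance {A C : Type u} [CommRing A] [CommRing C] (g : A →+* C) : Module A (ViaM g) :=
  Module.compHom C g

/-- the universal property for derivations along a ring homomorphism -/
lemma Frame.gen_ring (X : Frame k A I n) {C : Type u} [CommRing C] (g : A →+* C) (φ : Filt C)
    (hg : ∀ N, ∀ a ∈ I ^ N, g a ∈ φ.F N) (hsep : ∀ x, (∀ N, x ∈ φ.F N) → x = 0)
    (δ : A →+ C) (hδ : ∀ a b, δ (a * b) = g a * δ b + g b * δ a)
    (hk : ∀ r : k, δ (algebraMap k A r) = 0) (a : A) :
    δ a = ∑ j, g (X.D j a) * δ (X.x j) := by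
  let m1 : Module k (ViaM g) := Module.compHom (ViaM g) (algebraMap k A)
  have hs : ∀ (a : A) (c : ViaM g), a • c = (show ViaM g from g a * (show C from c)) :=
    fun a c => rfl
  have t1 : IsScalarTower k A (ViaM g) := ⟨fun r a c => by
    change (r • a) • c = (algebraMap k A r) • a • c
    rw [Algebra.smul_def, mul_smul]⟩
  have h1 : IsHausdorff I (ViaM g) := by
    refine ⟨fun c hc => ?_⟩
    refine hsep c fun N => ?_
    have h2 := hc N
    rw [SModEq.zero] at h2
    refine Submodule.smul_induction_on (p := fun (c : ViaM g) => (show C from c) ∈ φ.F N) h2 ?_ ?_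
    · intro a ha c _
      exact φ.mul_right _ (hg N a ha)
    · intro c c' h3 h4
      exact add_mem h3 h4
  let δ' : Derivation k A (ViaM g) :=
    { toFun := fun a => (show ViaM g from δ a)
      map_add' := fun a b => map_add δ a b
      map_smul' := fun r a => by
        change δ (r • a) = g (algebraMap k A r) * δ a
        rw [Algebra.smul_def, hδ, hk, mul_zero, add_zero]
      map_one_eq_zero' := by
        change δ 1 = 0
        have := hk 1
        rwa [map_one] at this
      leibniz' := fun a b => hδ a b }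
  exact X.gen (ViaM g) δ' a

end Gen

section Exp

variable {k A : Type u} [Field k] [CommRing A] [Algebra k A] {I : Ideal A} {n : ℕ}

/-- coefficientwise application of an additive map -/
def dco (n : ℕ) (δ : A →+ A) : BB n A →+ BB n A where
  toFun X := fun α => δ (MvPowerSeries.coeff α X)
  map_zero' := by
    ext α
    exact map_zero δ
  map_add' X Y := by
    ext α
    exact map_add δ _ _

lemma coeff_dco (δ : A →+ A) (X : BB n A) (α : Fin n →₀ ℕ) :
    MvPowerSeries.coeff α (dco n δ X) = δ (MvPowerSeries.coeff α X) := rfl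

lemma dco_mul (δ : A →+ A) (hδ : ∀ a b, δ (a * b) = δ a * b + a * δ b) (X Y : BB n A) :
    dco n δ (X * Y) = dco n δ X * Y + X * dco n δ Y := by
  classical
  ext α
  rw [coeff_dco, map_add, MvPowerSeries.coeff_mul, MvPowerSeries.coeff_mul,
    MvPowerSeries.coeff_mul, map_sum, ← Finset.sum_add_distrib]
  refine Finset.sum_congr rfl fun p _ => ?_
  rw [hδ, coeff_dco, coeff_dco]

lemma dco_cc (δ : A →+ A) (a : A) : dco n δ (cc a) = cc (δ a) := by
  classical
  ext α
  rw [coeff_dco, MvPowerSeries.coeff_C, MvPowerSeries.coeff_C]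
  split_ifs
  · rfl
  · exact map_zero δ

lemma dco_F (δ : A →+ A) {N : ℕ} {X : BB n A} (h : X ∈ (fB n (⊥ : Ideal A)).F N) :
    dco n δ X ∈ (fB n (⊥ : Ideal A)).F N := by
  intro α
  rw [coeff_dco]
  have h1 := h α
  rcases Nat.eq_zero_or_pos (N - α.degree) with h2 | h2
  · rw [h2, pow_zero, Ideal.one_eq_top]
    trivial
  · have h3 : (⊥ : Ideal A) ^ (N - α.degree) = ⊥ := by
      rw [← Ideal.zero_eq_bot]
      exact zero_pow (by omega)
    rw [h3, Ideal.mem_bot] at h1
    rw [h1, map_zero]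
    exact zero_mem _

variable (X : Frame k A I n)

/-- the derivations as additive maps -/
abbrev Frame.δ (i : Fin n) : A →+ A := (X.D i).toLinearMap.toAddMonoidHom

lemma Frame.δ_apply (i : Fin n) (a : A) : X.δ i a = X.D i a := rfl

lemma Frame.δ_mul (i : Fin n) (a b : A) : X.δ i (a * b) = X.δ i a * b + a * X.δ i b := by
  rw [X.δ_apply, X.δ_apply, X.δ_apply, Derivation.leibniz, smul_eq_mul, smul_eq_mul]
  ring

/-- the derivation `Σ ε_i D_i` of `A[[ε]]` -/
def Frame.Xi : BB n A →+ BB n A where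
  toFun F := ∑ i, ee i * dco n (X.δ i) F
  map_zero' := by
    refine Finset.sum_eq_zero fun i _ => ?_
    rw [map_zero, mul_zero]
  map_add' F G := by
    rw [← Finset.sum_add_distrib]
    refine Finset.sum_congr rfl fun i _ => ?_
    rw [map_add, mul_add]

lemma Frame.Xi_apply (F : BB n A) : X.Xi F = ∑ i, ee i * dco n (X.δ i) F := rfl

lemma Frame.Xi_mul (F G : BB n A) : X.Xi (F * G) = X.Xi F * G + F * X.Xi G := by
  rw [X.Xi_apply, X.Xi_apply, X.Xi_apply, Finset.sum_mul, Finset.mul_sum,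
    ← Finset.sum_add_distrib]
  refine Finset.sum_congr rfl fun i _ => ?_
  rw [dco_mul _ (X.δ_mul i)]
  ring

lemma Frame.Xi_F {N : ℕ} {F : BB n A} (h : F ∈ (fB n (⊥ : Ideal A)).F N) :
    X.Xi F ∈ (fB n (⊥ : Ideal A)).F (N + 1) := by
  rw [X.Xi_apply]
  refine sum_mem fun i _ => ?_
  have := (fB n (⊥ : Ideal A)).mul _ _ _ _ (ee_F i) (dco_F (X.δ i) h)
  rwa [add_comm] at this

variable [Algebra ℚ A]

/-- the exponential series `Σ Ξ^m(F) s^m / m!` -/
def Frame.ex (F : BB n A) : PowerSeries (BB n A) :=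
  fl (fun _ : Unit => X.Xi) (fun _ => 1) F

lemma Frame.ex_F (m : ℕ) : ∀ {N : ℕ} {F : BB n A}, F ∈ (fB n (⊥ : Ideal A)).F N →
    coeff m (X.ex F) ∈ (fB n (⊥ : Ideal A)).F (N + m) := by
  induction m with
  | zero =>
    intro N F h
    rw [Frame.ex, coeff_zero_fl, add_zero]
    exact h
  | succ m ih =>
    intro N F h
    have h1 := ih (X.Xi_F h)
    have h2 : dt (X.ex F) = X.ex (X.Xi F) := by
      rw [Frame.ex, dt_fl]
      simp [Frame.ex]
    have h3 := congrArg (coeff m) h2
    rw [coeff_dt] at h3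
    have h4 : coeff (m + 1) (X.ex F) = ((m + 1 : ℚ)⁻¹) • coeff m (X.ex (X.Xi F)) := by
      rw [← h3]
      rw [show ((m + 1) • coeff (m + 1) (X.ex F) : BB n A) =
        ((m + 1 : ℚ)) • coeff (m + 1) (X.ex F) by
          rw [show ((m + 1 : ℚ)) = ((m + 1 : ℕ) : ℚ) by push_cast; rfl, Nat.cast_smul_eq_nsmul],
        smul_smul, inv_mul_cancel₀ (by positivity), one_smul]
    rw [h4]
    refine (fB n (⊥ : Ideal A)).qsmul _ ?_
    rwa [show N + (m + 1) = N + 1 + m by omega]

lemma Frame.ex_rst (F : BB n A) : (fB n (⊥ : Ideal A)).Rst (X.ex F) := by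
  intro N
  refine ⟨N, fun m hm => ?_⟩
  have := X.ex_F m ((fB n (⊥ : Ideal A)).zero F)
  exact (fB n (⊥ : Ideal A)).mono' (by omega) this

lemma Frame.ex_mul (F G : BB n A) : X.ex (F * G) = X.ex F * X.ex G :=
  fl_mul (fun _ => X.Xi_mul) (fun _ _ => mul_comm _ _) F G

lemma Frame.ex_const {a : A} (ha : ∀ i, X.D i a = 0) : X.ex (cc a) = C (cc a) := by
  refine fl_const _ _ fun _ => ?_
  rw [X.Xi_apply]
  refine Finset.sum_eq_zero fun i _ => ?_
  rw [dco_cc, X.δ_apply, ha, map_zero, mul_zero]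

omit [Algebra ℚ A] in
lemma cpl_bot : (fB n (⊥ : Ideal A)).Cpl := by
  refine m_CPL.2.1 ⊥ n ⟨fun x hx => ?_, fun w hw => ?_⟩
  · have := hx 1
    rw [mem_fA, pow_one, Ideal.mem_bot] at this
    exact this
  · obtain ⟨M, hM⟩ := hw 1
    refine ⟨w M, fun N => ⟨M, fun m hm => ?_⟩⟩
    have key : ∀ j, w (M + j) = w M := by
      intro j
      induction j with
      | zero => rfl
      | succ j ih =>
        have h1 := hM (M + j) (by omega)
        rw [mem_fA, pow_one, Ideal.mem_bot, sub_eq_zero] at h1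
        rw [← add_assoc, h1, ih]
    have h2 := key (m - M)
    rw [show M + (m - M) = m by omega] at h2
    rw [h2, sub_self]
    exact zero_mem _

/-- the exponential `T = exp (Σ ε_i D_i) : A → A[[ε]]` -/
def Frame.T : A →+* BB n A where
  toFun a := (fB n (⊥ : Ideal A)).ev 1 (X.ex (cc a))
  map_one' := by
    have h1 : X.ex (cc 1) = C (cc 1) := X.ex_const fun i => (X.D i).map_one_eq_zero
    rw [h1, (m_EV (fB n (⊥ : Ideal A)) cpl_bot 1 fun x => mul_comm _ _).2.2.2.2.1, map_one]
  map_mul' a b := by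
    rw [map_mul, X.ex_mul, (m_EV (fB n (⊥ : Ideal A)) cpl_bot 1 fun x => mul_comm _ _).2.2.2.1 _ _
      (X.ex_rst _) (X.ex_rst _)]
  map_zero' := by
    have h1 : X.ex (cc 0) = C (cc 0) := X.ex_const fun i => map_zero _
    rw [h1, (m_EV (fB n (⊥ : Ideal A)) cpl_bot 1 fun x => mul_comm _ _).2.2.2.2.1, map_zero]
  map_add' a b := by
    have h1 : X.ex (cc (a + b)) = X.ex (cc a) + X.ex (cc b) := by
      rw [map_add]
      exact fl_add _ _ _ _
    rw [h1, (m_EV (fB n (⊥ : Ideal A)) cpl_bot 1 fun x => mul_comm _ _).2.2.1 _ _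
      (X.ex_rst _) (X.ex_rst _)]

lemma Frame.T_apply (a : A) : X.T a = (fB n (⊥ : Ideal A)).ev 1 (X.ex (cc a)) := rfl

lemma Frame.T_const {a : A} (ha : ∀ i, X.D i a = 0) : X.T a = cc a := by
  rw [X.T_apply, X.ex_const ha,
    (m_EV (fB n (⊥ : Ideal A)) cpl_bot 1 fun x => mul_comm _ _).2.2.2.2.1]

/-- the first order expansion -/
lemma Frame.T_two (a : A) :
    X.T a - cc a - ∑ m, cc (X.D m a) * ee m ∈ (fB n (⊥ : Ideal A)).F 2 := by
  obtain ⟨M, hM⟩ := (m_EV (fB n (⊥ : Ideal A)) cpl_bot 1 fun x => mul_comm _ _).1 _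
    (X.ex_rst (cc a)) 2
  have h1 := hM (M + 2) (by omega)
  have h2 : psum (1 : BB n A) (X.ex (cc a)) (M + 2) - cc a - ∑ m, cc (X.D m a) * ee m ∈
      (fB n (⊥ : Ideal A)).F 2 := by
    have h3 : psum (1 : BB n A) (X.ex (cc a)) (M + 2) =
        ∑ j ∈ Finset.range M, coeff (j + 2) (X.ex (cc a)) + coeff 1 (X.ex (cc a)) +
          coeff 0 (X.ex (cc a)) := by
      rw [psum, Finset.sum_range_succ', Finset.sum_range_succ']
      simp
    have h4 : coeff 0 (X.ex (cc a)) = cc a := coeff_zero_fl _ _ _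
    have h5 : coeff 1 (X.ex (cc a)) = ∑ m, cc (X.D m a) * ee m := by
      have h6 : dt (X.ex (cc a)) = X.ex (X.Xi (cc a)) := by
        rw [Frame.ex, dt_fl]
        simp [Frame.ex]
      have h7 := congrArg (coeff 0) h6
      rw [coeff_dt, zero_add, one_smul] at h7
      rw [h7, Frame.ex, coeff_zero_fl, X.Xi_apply]
      refine Finset.sum_congr rfl fun i _ => ?_
      rw [dco_cc, X.δ_apply, mul_comm]
    rw [h3, h4, h5, show (∑ j ∈ Finset.range M, coeff (j + 2) (X.ex (cc a)) +
      ∑ m, cc (X.D m a) * ee m + cc a - cc a - ∑ m, cc (X.D m a) * ee m : BB n A) =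
      ∑ j ∈ Finset.range M, coeff (j + 2) (X.ex (cc a)) by ring]
    refine sum_mem fun j _ => ?_
    exact (fB n (⊥ : Ideal A)).mono' (by omega) (X.ex_F (j + 2) ((fB n (⊥ : Ideal A)).zero _))
  have h3 := add_mem h1 h2
  rwa [show X.T a - cc a - ∑ m, cc (X.D m a) * ee m =
    (fB n (⊥ : Ideal A)).ev 1 (X.ex (cc a)) - psum (1 : BB n A) (X.ex (cc a)) (M + 2) +
    (psum (1 : BB n A) (X.ex (cc a)) (M + 2) - cc a - ∑ m, cc (X.D m a) * ee m) by
      rw [X.T_apply]; ring]

omit [Field k] [Algebra k A] [Algebra ℚ A] in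
lemma bot_F {N : ℕ} {F : BB n A} (h : F ∈ (fB n (⊥ : Ideal A)).F N) : F ∈ (fB n I).F N := by
  intro α
  exact Ideal.pow_right_mono bot_le _ (h α)

lemma Frame.ev0_T (a : A) : ev0 (X.T a) = a := by
  have h1 := (fB n (⊥ : Ideal A)).mono _ _ (X.T_two a)
  rw [mem_F1, Ideal.mem_bot, map_sub, map_sub, map_sum] at h1
  have h2 : ∀ m : Fin n, ev0 (cc (X.D m a) * ee m : BB n A) = 0 := by
    intro m
    rw [map_mul, show ev0 (ee m : BB n A) = 0 from MvPowerSeries.constantCoeff_X m, mul_zero]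
  rw [Finset.sum_eq_zero fun m _ => h2 m, sub_zero,
    show ev0 (cc a : BB n A) = a from MvPowerSeries.constantCoeff_C a, sub_eq_zero] at h1
  exact h1

lemma Frame.ev0_pd_T (i : Fin n) (a : A) : ev0 (pd i (X.T a)) = X.D i a := by
  have h1 := pd_F i (X.T_two a)
  rw [mem_F1, Ideal.mem_bot, map_sub (pd i), map_sub (pd i), map_sum (pd i), pd_cc, sub_zero,
    map_sub, map_sum] at h1
  have h2 : ∀ m : Fin n, ev0 (pd i (cc (X.D m a) * ee m : BB n A)) = if i = m then X.D m a else 0 := by
    intro m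
    rw [pd_mul, pd_cc, zero_mul, zero_add, pd_ee, map_mul,
      show ev0 (cc (X.D m a) : BB n A) = X.D m a from MvPowerSeries.constantCoeff_C _]
    split_ifs
    · rw [map_one, mul_one]
    · rw [map_zero, mul_zero]
  rw [Finset.sum_congr rfl fun m _ => h2 m, Finset.sum_ite_eq, if_pos (Finset.mem_univ i),
    sub_eq_zero] at h1
  exact h1

lemma Frame.T_F (N : ℕ) (a : A) (ha : a ∈ I ^ N) : X.T a ∈ (fB n I).F N := by
  have h1 : ∀ a ∈ I, X.T a ∈ (fB n I).F 1 := by
    intro a ha
    rw [mem_F1, X.ev0_T]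
    exact ha
  induction N generalizing a with
  | zero => exact (fB n I).zero _
  | succ N ih =>
    rw [pow_succ] at ha
    refine Submodule.mul_induction_on ha ?_ ?_
    · intro x hx y hy
      rw [map_mul]
      exact (fB n I).mul _ _ _ _ (ih x hx) (h1 y hy)
    · intro x y hx hy
      rw [map_add]
      exact add_mem hx hy

/-- the chain rule for `T` -/
lemma Frame.pd_T [IsHausdorff I A] (i : Fin n) (a : A) :
    pd i (X.T a) = ∑ j, X.T (X.D j a) * pd i (X.T (X.x j)) := by
  refine X.gen_ring X.T (fB n I) X.T_F ?_ ((pd i).comp X.T.toAddMonoidHom) ?_ ?_ a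
  · intro F hF
    ext α
    have h1 : ∀ N, MvPowerSeries.coeff α F ∈ I ^ N := by
      intro N
      have := hF (N + α.degree) α
      rwa [Nat.add_sub_cancel] at this
    refine IsHausdorff.haus (inferInstance : IsHausdorff I A) _ fun N => ?_
    rw [SModEq.zero]
    simpa using h1 N
  · intro a b
    change pd i (X.T (a * b)) = X.T a * pd i (X.T b) + X.T b * pd i (X.T a)
    rw [map_mul, pd_mul]
    ring
  · intro r
    change pd i (X.T (algebraMap k A r)) = 0
    rw [X.T_const fun i => (X.D i).map_algebraMap r, pd_cc]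

/-- the idempotent matrix `e_ij = D_i(x_j)` -/
def Frame.e : Matrix (Fin n) (Fin n) A := Matrix.of fun i j => X.D i (X.x j)

omit [Algebra ℚ A] in
lemma Frame.rel [IsHausdorff I A] (i : Fin n) (a : A) :
    X.D i a = ∑ j, X.D i (X.x j) * X.D j a := by
  have h1 := X.gen A (X.D i) a
  rw [h1]
  refine Finset.sum_congr rfl fun j _ => ?_
  rw [smul_eq_mul, mul_comm]

omit [Algebra ℚ A] in
lemma Frame.e_mul_e [IsHausdorff I A] : X.e * X.e = X.e := by
  ext i j
  rw [Matrix.mul_apply]
  exact (X.rel i (X.x j)).symm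

/-- the matrix `∂T(x_j)/∂ε_i` -/
def Frame.Xm : Matrix (Fin n) (Fin n) (BB n A) := Matrix.of fun i j => pd i (X.T (X.x j))

lemma Frame.Xm_e [IsHausdorff I A] : X.Xm * X.T.mapMatrix X.e = X.Xm := by
  refine Matrix.ext fun i j => ?_
  rw [Matrix.mul_apply]
  have h1 := X.pd_T i (X.x j)
  change ∑ l, pd i (X.T (X.x l)) * X.T (X.D l (X.x j)) = pd i (X.T (X.x j))
  rw [h1]
  exact Finset.sum_congr rfl fun l _ => mul_comm _ _

lemma Frame.exists_L [IsHausdorff I A] : ∃ L : Matrix (Fin n) (Fin n) (BB n A),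
    L * X.Xm = X.T.mapMatrix X.e ∧ ∀ i j, ev0 (L i j) = if i = j then 1 else 0 := by
  set Y := X.Xm + (1 - X.T.mapMatrix X.e) with hY
  have h0 : (ev0 : BB n A →+* A).mapMatrix Y = 1 := by
    rw [hY, map_add, map_sub, map_one]
    have e1 : (ev0 : BB n A →+* A).mapMatrix X.Xm = X.e := by
      ext i j
      exact X.ev0_pd_T i (X.x j)
    have e2 : (ev0 : BB n A →+* A).mapMatrix (X.T.mapMatrix X.e) = X.e := by
      ext i j
      exact X.ev0_T _
    rw [e1, e2, add_sub_cancel]
  have hu : IsUnit Y := by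
    rw [Matrix.isUnit_iff_isUnit_det, MvPowerSeries.isUnit_iff_constantCoeff]
    have h1 : ev0 Y.det = 1 := by rw [RingHom.map_det, h0, Matrix.det_one]
    change IsUnit (ev0 Y.det)
    rw [h1]
    exact isUnit_one
  obtain ⟨u, hu⟩ := hu
  have h2 : (↑u⁻¹ : Matrix (Fin n) (Fin n) (BB n A)) * Y = 1 := by
    rw [← hu]
    exact u.inv_mul
  refine ⟨(↑u⁻¹ : Matrix (Fin n) (Fin n) (BB n A)), ?_, fun i j => ?_⟩
  · have e1 : Y * X.T.mapMatrix X.e = X.Xm := by
      rw [hY, add_mul, X.Xm_e, sub_mul, one_mul, ← map_mul, X.e_mul_e, sub_self, add_zero]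
    rw [← e1, ← mul_assoc, h2, one_mul]
  · have e2 := congrArg (ev0 : BB n A →+* A).mapMatrix h2
    rw [map_mul, map_one, h0, mul_one] at e2
    have e3 := congrFun (congrFun e2 i) j
    rw [Matrix.one_apply] at e3
    exact e3

/-- the matrix `L` -/
def Frame.L [IsHausdorff I A] : Matrix (Fin n) (Fin n) (BB n A) := X.exists_L.choose

lemma Frame.L_Xm [IsHausdorff I A] : X.L * X.Xm = X.T.mapMatrix X.e := X.exists_L.choose_spec.1

lemma Frame.ev0_L [IsHausdorff I A] (i j : Fin n) : ev0 (X.L i j) = if i = j then 1 else 0 :=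
  X.exists_L.choose_spec.2 i j

/-- the lifted derivations, relative to `c(A)` -/
def Frame.Dt [IsHausdorff I A] (i : Fin n) : BB n A →+ BB n A where
  toFun F := ∑ j, X.L i j * pd j F
  map_zero' := by
    refine Finset.sum_eq_zero fun j _ => ?_
    rw [map_zero, mul_zero]
  map_add' F G := by
    rw [← Finset.sum_add_distrib]
    refine Finset.sum_congr rfl fun j _ => ?_
    rw [map_add, mul_add]

lemma Frame.Dt_apply [IsHausdorff I A] (i : Fin n) (F : BB n A) :
    X.Dt i F = ∑ j, X.L i j * pd j F := rfl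

lemma Frame.Dt_mul [IsHausdorff I A] (i : Fin n) (F G : BB n A) :
    X.Dt i (F * G) = X.Dt i F * G + F * X.Dt i G := by
  rw [X.Dt_apply, X.Dt_apply, X.Dt_apply, Finset.sum_mul, Finset.mul_sum,
    ← Finset.sum_add_distrib]
  refine Finset.sum_congr rfl fun j _ => ?_
  rw [pd_mul]
  ring

lemma Frame.Dt_cc [IsHausdorff I A] (i : Fin n) (a : A) : X.Dt i (cc a) = 0 := by
  rw [X.Dt_apply]
  refine Finset.sum_eq_zero fun j _ => ?_
  rw [pd_cc, mul_zero]

lemma Frame.Dt_F [IsHausdorff I A] (i : Fin n) {N : ℕ} {F : BB n A}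
    (h : F ∈ (fB n I).F (N + 1)) : X.Dt i F ∈ (fB n I).F N := by
  rw [X.Dt_apply]
  exact sum_mem fun j _ => (fB n I).mul_left _ (pd_F j h)

lemma Frame.Dt_T [IsHausdorff I A] (i : Fin n) (a : A) : X.Dt i (X.T a) = X.T (X.D i a) := by
  have h1 : ∀ l, ∑ j, X.L i j * pd j (X.T (X.x l)) = X.T (X.D i (X.x l)) := by
    intro l
    have h2 := congrFun (congrFun X.L_Xm i) l
    rw [Matrix.mul_apply] at h2
    exact h2
  have h3 : ∀ j, X.L i j * pd j (X.T a) =
      ∑ l, X.T (X.D l a) * (X.L i j * pd j (X.T (X.x l))) := by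
    intro j
    rw [X.pd_T, Finset.mul_sum]
    refine Finset.sum_congr rfl fun l _ => ?_
    ring
  rw [X.Dt_apply, Finset.sum_congr rfl fun j _ => h3 j, Finset.sum_comm]
  have h4 : ∀ l, ∑ j, X.T (X.D l a) * (X.L i j * pd j (X.T (X.x l))) =
      X.T (X.D l a * X.D i (X.x l)) := by
    intro l
    rw [← Finset.mul_sum, h1, map_mul]
  rw [Finset.sum_congr rfl fun l _ => h4 l, ← map_sum, X.rel i a]
  congr 1
  exact Finset.sum_congr rfl fun l _ => mul_comm _ _

lemma Frame.Dt_ee [IsHausdorff I A] (i l : Fin n) : X.Dt i (ee l) = X.L i l := by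
  rw [X.Dt_apply, Finset.sum_eq_single l]
  · rw [pd_ee, if_pos rfl, mul_one]
  · intro j _ hj
    rw [pd_ee, if_neg hj, mul_zero]
  · intro h
    exact absurd (Finset.mem_univ l) h

lemma Frame.L_one [IsHausdorff I A] (i l : Fin n) :
    X.L i l - (if i = l then 1 else 0) ∈ (fB n I).F 1 := by
  rw [mem_F1, map_sub, X.ev0_L]
  split_ifs
  · rw [map_one, sub_self]
    exact zero_mem _
  · rw [map_zero, sub_self]
    exact zero_mem _

end Exp

end

end Pool.Agent.MFI
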