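import Pool.Agent.MFI.FlowB

/-!
# Isotopy invariance of matrix factorizations (MP_c8c50b_ag), helper26

Part 15: the fundamental matrix of the family on the Koszul kernel is a restricted series.
-/

set_option autoImplicit false

open PowerSeries
open Finset.HasAntidiagonal (antidiagonal mem_antidiagonal)

namespace Pool.Agent.MFI

noncomputable section

section Clifford

variable {R : Type*} [CommRing R] {n : ℕ}

/-- the square of `Σ a_i ι_i + b_i θ_i` -/
lemma cliff_sq [Algebra ℚ R] (a b : Fin n → R) :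
    (∑ i, (a i • io R i + b i • th R i)) * (∑ i, (a i • io R i + b i • th R i)) =
      (∑ i, a i * b i) • (1 : Matrix (Fk n) (Fk n) R) := by
  have e1 : ∀ i k, (a i • io R i + b i • th R i) * (a k • io R k + b k • th R k) +
      (a k • io R k + b k • th R k) * (a i • io R i + b i • th R i) =
      if i = k then ((a i * b i) • (1 : Matrix (Fk n) (Fk n) R) + (a i * b i) • 1) else 0 := by
    intro i k
    have h1 := io_io (R := R) i k
    have h2 := th_th (R := R) i k
    have h3 := io_th (R := R) i k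
    have h4 := io_th (R := R) k i
    have e2 : (a i • io R i + b i • th R i) * (a k • io R k + b k • th R k) +
      (a k • io R k + b k • th R k) * (a i • io R i + b i • th R i) =
      (a i * a k) • (io R i * io R k + io R k * io R i) +
      (b i * b k) • (th R i * th R k + th R k * th R i) +
      (a i * b k) • (io R i * th R k + th R k * io R i) +
      (b i * a k) • (io R k * th R i + th R i * io R k) := by
      simp only [add_mul, mul_add, smul_mul_smul_comm, smul_add]
      rw [mul_comm (a k) (a i), mul_comm (b k) (b i), mul_comm (a k) (b i), mul_comm (b k) (a i)]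
      abel
    rw [e2, h1, h2, h3, h4, smul_zero, smul_zero, zero_add, zero_add]
    by_cases h : i = k
    · subst h
      rw [if_pos rfl, if_pos rfl, mul_comm (b i) (a i)]
    · rw [if_neg h, if_neg h, if_neg (Ne.symm h), smul_zero, smul_zero, add_zero]
  have e3 : (∑ i, (a i • io R i + b i • th R i)) * (∑ i, (a i • io R i + b i • th R i)) +
      (∑ i, (a i • io R i + b i • th R i)) * (∑ i, (a i • io R i + b i • th R i)) =
      (∑ i, a i * b i) • (1 : Matrix (Fk n) (Fk n) R) + (∑ i, a i * b i) • 1 := by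
    have e4 : (∑ i, (a i • io R i + b i • th R i)) * (∑ i, (a i • io R i + b i • th R i)) =
      ∑ i, ∑ k, (a i • io R i + b i • th R i) * (a k • io R k + b k • th R k) := by
      rw [Finset.sum_mul]
      exact Finset.sum_congr rfl fun i _ => Finset.mul_sum _ _ _
    have e5 : (∑ i, (a i • io R i + b i • th R i)) * (∑ i, (a i • io R i + b i • th R i)) =
      ∑ i, ∑ k, (a k • io R k + b k • th R k) * (a i • io R i + b i • th R i) := by
      rw [e4, Finset.sum_comm]
    conv_lhs =>
      lhs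
      rw [e4]
    rw [e5, ← Finset.sum_add_distrib]
    have e6 : ∀ i, (∑ k, (a i • io R i + b i • th R i) * (a k • io R k + b k • th R k) +
        ∑ k, (a k • io R k + b k • th R k) * (a i • io R i + b i • th R i)) =
        (a i * b i) • (1 : Matrix (Fk n) (Fk n) R) + (a i * b i) • 1 := by
      intro i
      rw [← Finset.sum_add_distrib, Finset.sum_congr rfl fun k _ => e1 i k, Finset.sum_ite_eq,
        if_pos (Finset.mem_univ i)]
    rw [Finset.sum_congr rfl fun i _ => e6 i, Finset.sum_add_distrib, ← Finset.sum_smul]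
  have e7 : (1 + 1) • ((∑ i, (a i • io R i + b i • th R i)) *
      (∑ i, (a i • io R i + b i • th R i)) -
      (∑ i, a i * b i) • (1 : Matrix (Fk n) (Fk n) R)) = 0 := by
    rw [add_smul, one_smul]
    rw [← sub_eq_zero] at e3
    rw [← e3]
    abel
  exact sub_eq_zero.1 (nsmul_inj e7)

end Clifford

section Ent

variable {n : ℕ} {A : Type*} [CommRing A]

/-- `γ Δ = - Δ γ` -/
lemma gam_DD (h : Fin n → BB n A) : gam (BB n A) * DD h = -(DD h * gam (BB n A)) := by
  rw [DD, Finset.mul_sum, Finset.sum_mul, ← Finset.sum_neg_distrib]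
  refine Finset.sum_congr rfl fun i _ => ?_
  rw [mul_add, add_mul, Matrix.mul_smul, Matrix.mul_smul, Matrix.smul_mul, Matrix.smul_mul,
    gam_op, gam_op, smul_neg, smul_neg, neg_add]

/-- the entrywise derivative -/
def DE (k : Fin n) : Matrix (Fk n) (Fk n) (BB n A) →+ Matrix (Fk n) (Fk n) (BB n A) :=
  (pd k).mapMatrix

lemma DE_apply (k : Fin n) (M : Matrix (Fk n) (Fk n) (BB n A)) (a c : Fk n) :
    DE k M a c = pd k (M a c) := rfl

lemma DE_mul (k : Fin n) (M N : Matrix (Fk n) (Fk n) (BB n A)) :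
    DE k (M * N) = DE k M * N + M * DE k N := by
  ext1 a c
  rw [DE_apply, Matrix.add_apply, Matrix.mul_apply, Matrix.mul_apply, Matrix.mul_apply, map_sum,
    ← Finset.sum_add_distrib]
  refine Finset.sum_congr rfl fun b _ => ?_
  rw [pd_mul]
  rfl

lemma pd_smul_C (k : Fin n) (x : BB n A) (M : Matrix (Fk n) (Fk n) (BB n A))
    (hM : DE k M = 0) : DE k (x • M) = pd k x • M := by
  ext1 a c
  rw [DE_apply, Matrix.smul_apply, Matrix.smul_apply, smul_eq_mul, smul_eq_mul, pd_mul]
  have : pd k (M a c) = 0 := by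
    have := congrFun (congrFun hM a) c
    exact this
  rw [this, mul_zero, add_zero]

lemma DE_op (k i : Fin n) (β : Bool) : DE k (op (BB n A) i β) = 0 := by
  have h1 : op (BB n A) i β = (op A i β).map cc := (op_map (cc : A →+* BB n A) i β).symm
  rw [h1]
  ext1 a c
  rw [DE_apply, Matrix.map_apply, pd_cc]
  rfl

lemma DE_gam (k : Fin n) : DE k (gam (n := n) (BB n A)) = 0 := by
  have h1 : gam (n := n) (BB n A) = (gam (n := n) A).map cc :=
    (gam_map (n := n) (cc : A →+* BB n A)).symm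
  rw [h1]
  ext1 a c
  rw [DE_apply, Matrix.map_apply, pd_cc]
  rfl

lemma DE_DD (k : Fin n) (h : Fin n → BB n A) :
    DE k (DD h) = io (BB n A) k + ∑ i, pd k (h i) • th (BB n A) i := by
  rw [DD, map_sum]
  have e1 : ∀ i, DE k ((ee i : BB n A) • io (BB n A) i + h i • th (BB n A) i) =
      (if k = i then 1 else 0 : BB n A) • io (BB n A) i + pd k (h i) • th (BB n A) i := by
    intro i
    rw [map_add, pd_smul_C _ _ _ (DE_op _ _ _), pd_smul_C _ _ _ (DE_op _ _ _), pd_ee]
  rw [Finset.sum_congr rfl fun i _ => e1 i, Finset.sum_add_distrib]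
  congr 1
  rw [Finset.sum_eq_single k]
  · rw [if_pos rfl, one_smul]
  · intro i _ hi
    rw [if_neg (Ne.symm hi), zero_smul]
  · intro h
    exact absurd (Finset.mem_univ k) h

/-- the residue map -/
def chi (I : Ideal A) : BB n A →+* A ⧸ I := (Ideal.Quotient.mk I).comp ev0

lemma chi_eq_zero {I : Ideal A} {x : BB n A} : chi I x = 0 ↔ x ∈ (fB n I).F 1 := by
  rw [mem_F1, chi, RingHom.comp_apply, Ideal.Quotient.eq_zero_iff_mem]

lemma chi_DE (I : Ideal A) (k : Fin n) (h : Fin n → BB n A) :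
    (chi I).mapMatrix (DE k (DD h)) = cR (fun k i => chi I (pd k (h i))) k := by
  rw [DE_DD, map_add, map_sum, cR]
  congr 1
  · exact op_map (chi I) k false
  · refine Finset.sum_congr rfl fun i _ => ?_
    have h1 : (chi I).mapMatrix (pd k (h i) • th (BB n A) i) =
        chi I (pd k (h i)) • (chi I).mapMatrix (th (BB n A) i) := by
      ext1 a c
      exact map_mul (chi I) _ _
    rw [h1]
    congr 1
    exact op_map (chi I) i true

end Ent

section Ham

variable {n : ℕ} {A : Type*} [CommRing A] [Algebra ℚ A] {𝔡 : Cder n A} {I : Ideal A} {f : A}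
variable (Φ : Fam 𝔡 I f)

/-- the velocity as scalar matrices -/
def wE (k : Fin n) : PowerSeries (Matrix (Fk n) (Fk n) (BB n A)) := sc (wB Φ k)

/-- the bivector as scalar matrices -/
def bE (k j : Fin n) : PowerSeries (Matrix (Fk n) (Fk n) (BB n A)) :=
  sc (-(PowerSeries.map (tay 𝔡) (Φ.b k j)))

lemma fl_entry (M : Matrix (Fk n) (Fk n) (BB n A)) (a c : Fk n) :
    toM (fl DE (wE Φ) M) a c = flB Φ (M a c) := by
  refine fl_unique (wB Φ) (Y := Matrix (Fk n) (Fk n) (BB n A)) (fun k M => DE k M)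
    (fun M => toM (fl DE (wE Φ) M) a c) (fun M => flB Φ (M a c)) ?_ ?_ ?_ M
  · intro M
    rw [coeff_toM, coeff_zero_fl, flB_zero_coeff]
  · intro M
    have e1 : dt (toM (fl DE (wE Φ) M) a c) = toM (dt (fl DE (wE Φ) M)) a c := by
      ext m
      rw [coeff_dt, coeff_toM, coeff_toM, coeff_dt]
      rfl
    rw [e1, dt_fl, toM_sum, Matrix.sum_apply]
    refine Finset.sum_congr rfl fun k _ => ?_
    rw [wE, toM_sc_mul]
    rfl
  · intro M
    rw [flB_apply, dt_fl]
    rfl

lemma coeff_fl_entry (M : Matrix (Fk n) (Fk n) (BB n A)) (a c : Fk n) (m : ℕ) :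
    coeff m (fl DE (wE Φ) M) a c = coeff m (flB Φ (M a c)) := by
  rw [← fl_entry, coeff_toM]

lemma fl_smul_one (x : BB n A) :
    fl DE (wE Φ) (x • (1 : Matrix (Fk n) (Fk n) (BB n A))) = sc (flB Φ x) := by
  ext1 m
  ext1 a c
  rw [coeff_fl_entry, coeff_sc, Matrix.algebraMap_matrix_apply, Matrix.smul_apply, smul_eq_mul]
  by_cases h : a = c
  · subst h
    rw [Matrix.one_apply_eq, mul_one, if_pos rfl]
    rfl
  · rw [Matrix.one_apply_ne h, mul_zero, if_neg h, map_zero, map_zero]

variable {h : Fin n → BB n A} (hh : ∑ i, ee i * h i = cc f - tay 𝔡 f)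
include hh

lemma ham : Ham DE (wE Φ) (bE Φ) ((cc f - tay 𝔡 f : BB n A) • 1) (DD h) where
  leib := DE_mul
  wc k Z := sc_comm _ Z
  bc k j Z := sc_comm _ Z
  anti k j := by
    rw [bE, bE, Φ.anti k j, map_neg]
    simp [sc]
  weq k := by
    have e1 : ∀ j, DE j ((cc f - tay 𝔡 f : BB n A) • (1 : Matrix (Fk n) (Fk n) (BB n A))) =
        (-(tay 𝔡 (𝔡.D j f))) • 1 := by
      intro j
      have e2 : DE j (1 : Matrix (Fk n) (Fk n) (BB n A)) = 0 := by
        have h3 := DE_mul j (1 : Matrix (Fk n) (Fk n) (BB n A)) 1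
        rw [mul_one, mul_one, one_mul] at h3
        exact (add_left_cancel ((add_zero _).trans h3)).symm
      rw [pd_smul_C _ _ _ e2, map_sub, pd_cc, pd_tay, zero_sub]
    have e3 : ∀ j, bE Φ k j * fl DE (wE Φ)
        (DE j ((cc f - tay 𝔡 f : BB n A) • (1 : Matrix (Fk n) (Fk n) (BB n A)))) =
        sc (PowerSeries.map (tay 𝔡) (Φ.b k j * Φ.φ (𝔡.D j f))) := by
      intro j
      rw [e1, fl_smul_one, bE, ← sc_mul, map_neg, flB_tay, map_mul, neg_mul_neg]
    rw [Finset.sum_congr rfl fun j _ => e3 j, ← sc_sum, ← map_sum]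
    rfl
  sq := by
    rw [DD, cliff_sq, hh]

omit hh

variable {Φ}

omit [Algebra ℚ A] in
lemma sc_Rst {y : PowerSeries (BB n A)} (hy : (fB n I).Rst y) :
    (fM (Fk n) (fB n I)).Rst (sc y) := by
  intro N
  obtain ⟨M, hM⟩ := hy N
  refine ⟨M, fun m hm a c => ?_⟩
  rw [coeff_sc, Matrix.algebraMap_matrix_apply]
  split_ifs
  · exact hM m hm
  · exact zero_mem _

lemma FamOK.flE_Rst (h : FamOK Φ) (M : Matrix (Fk n) (Fk n) (BB n A)) :
    (fM (Fk n) (fB n I)).Rst (fl DE (wE Φ) M) := by
  intro N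
  choose K hK using fun a c => h.flB_rst (M a c) N
  refine ⟨∑ a, ∑ c, K a c, fun m hm a c => ?_⟩
  rw [coeff_fl_entry]
  refine hK a c m (le_trans ?_ hm)
  exact le_trans (Finset.single_le_sum (f := fun c => K a c) (fun _ _ => Nat.zero_le _)
    (Finset.mem_univ c)) (Finset.single_le_sum (f := fun a => ∑ c, K a c)
      (fun _ _ => Nat.zero_le _) (Finset.mem_univ a))

lemma FamOK.Mt_Rst (h : FamOK Φ) (Δ : Matrix (Fk n) (Fk n) (BB n A)) :
    (fM (Fk n) (fB n I)).Rst (Mt DE (wE Φ) (bE Φ) Δ) := by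
  rw [Mt, Bt]
  refine Filt.Rst.mul (Filt.Rst.C _) (Filt.Rst.sum _ _ fun k _ => Filt.Rst.sum _ _ fun j _ =>
    Filt.Rst.mul (sc_Rst (Filt.Rst.neg ?_)) (h.flE_Rst _))
  exact map_Rst (φ := fA I) (tay 𝔡) (fun _ _ hx => tay_F 𝔡 hx) (Φ.brst k j)

/-- reduction of the equation modulo the first step of the filtration -/
lemma FamOK.map_Mt (hΦ : FamOK Φ) (h : Fin n → BB n A) :
    PowerSeries.map ((chi I).mapMatrix (m := Fk n)) (Mt DE (wE Φ) (bE Φ) (DD h)) =
      MR (fun k i => chi I (pd k (h i)))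
        (fun i j => -(PowerSeries.map (Ideal.Quotient.mk I) (Φ.b i j))) := by
  have e1 : ∀ M : Matrix (Fk n) (Fk n) (BB n A),
      PowerSeries.map ((chi I).mapMatrix (m := Fk n)) (fl DE (wE Φ) M) =
        C ((chi I).mapMatrix M) := by
    intro M
    ext1 m
    ext1 a c
    have e2 : (fB n I).InF 1 (flB Φ (M a c) - C (M a c)) := fl_sub_inF hΦ.wB1 _
    have e3 := chi_eq_zero.2 (e2 m)
    rw [map_sub, map_sub, sub_eq_zero] at e3
    rw [PowerSeries.coeff_map, RingHom.mapMatrix_apply, Matrix.map_apply, coeff_fl_entry, e3,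
      coeff_C, coeff_C]
    split_ifs
    · rfl
    · exact map_zero _
  have e4 : ∀ k j, PowerSeries.map ((chi I).mapMatrix (m := Fk n)) (bE Φ k j) =
      sc (-(PowerSeries.map (Ideal.Quotient.mk I) (Φ.b k j))) := by
    intro k j
    ext1 m
    ext1 a c
    rw [PowerSeries.coeff_map, RingHom.mapMatrix_apply, Matrix.map_apply, bE, coeff_sc, coeff_sc,
      Matrix.algebraMap_matrix_apply, Matrix.algebraMap_matrix_apply]
    split_ifs
    · change chi I (coeff m (-(PowerSeries.map (tay 𝔡) (Φ.b k j)))) =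
        coeff m (-(PowerSeries.map (Ideal.Quotient.mk I) (Φ.b k j)))
      rw [map_neg (coeff m), map_neg (coeff m), map_neg (chi I), PowerSeries.coeff_map,
        PowerSeries.coeff_map, chi, RingHom.comp_apply, ev0_tay]
    · exact map_zero _
  rw [Mt, MR, map_mul, PowerSeries.map_C]
  congr 1
  · congr 1
    exact RingHom.map_rat_algebraMap _ _
  · rw [Bt, map_sum]
    refine Finset.sum_congr rfl fun k _ => ?_
    rw [map_sum]
    refine Finset.sum_congr rfl fun j _ => ?_
    rw [map_mul, e1, e4, map_mul ((chi I).mapMatrix (m := Fk n)), chi_DE, chi_DE]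

/-- the matrix `m` of second derivatives -/
lemma msym (h : Fin n → BB n A) (hh : ∑ i, ee i * h i = cc f - tay 𝔡 f) (k l : Fin n) :
    chi I (pd k (h l)) + chi I (pd l (h k)) = -(Ideal.Quotient.mk I (𝔡.D k (𝔡.D l f))) := by
  have e1 : ∀ (l : Fin n) (g : Fin n → BB n A), pd l (∑ i, ee i * g i) =
      g l + ∑ i, ee i * pd l (g i) := by
    intro l g
    rw [map_sum]
    have e2 : ∀ i, pd l (ee i * g i : BB n A) = (if l = i then g i else 0) + ee i * pd l (g i) := by
      intro i
      rw [pd_mul, pd_ee]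
      split_ifs
      · rw [one_mul]
      · rw [zero_mul]
    rw [Finset.sum_congr rfl fun i _ => e2 i, Finset.sum_add_distrib, Finset.sum_ite_eq,
      if_pos (Finset.mem_univ l)]
  have e3 := congrArg (fun z => chi I (pd k (pd l z))) hh
  rw [e1, map_add, e1, map_sub, pd_cc, pd_tay, zero_sub, map_neg, pd_tay] at e3
  have e4 : chi I (∑ i, ee i * pd k (pd l (h i)) : BB n A) = 0 := by
    rw [chi_eq_zero]
    exact sum_mem fun i _ => (fB n I).mul_right _ (ee_F i)
  rw [map_add, map_add, e4, add_zero, map_neg, chi, RingHom.comp_apply, RingHom.comp_apply,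
    RingHom.comp_apply, ev0_tay] at e3
  rw [chi, RingHom.comp_apply, RingHom.comp_apply, e3]

/-- the fundamental matrix is restricted -/
theorem FamOK.GG_Rst (hΦ : FamOK Φ) (hred : IsReduced (A ⧸ I))
    (hfin : (minimalPrimes (A ⧸ I)).Finite) (h : Fin n → BB n A)
    (hJ : JS (fun k i => chi I (pd k (h i)))
      (fun i j => -(PowerSeries.map (Ideal.Quotient.mk I) (Φ.b i j))) Φ.J) :
    (fM (Fk n) (fB n I)).Rst (GG DE (wE Φ) (bE Φ) (DD h)) ∧
      (fM (Fk n) (fB n I)).Rst (HH DE (wE Φ) (bE Φ) (DD h)) := by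
  set G := GG DE (wE Φ) (bE Φ) (DD h) with hG
  set H := HH DE (wE Φ) (bE Φ) (DD h) with hH
  set X := (chi I : BB n A →+* A ⧸ I).mapMatrix (m := Fk n) with hX
  have e1 := spin_red hfin hJ (g := PowerSeries.map X G) (e := PowerSeries.map X H)
    (by rw [PowerSeries.coeff_map, hG, coeff_GG, map_one])
    (by
      have h1 := congrArg (coeff 0) (GG_HH (D := DE) (w := wE Φ) (b := bE Φ) (Δ := DD h))
      rw [coeff_zero_mul', coeff_GG, one_mul] at h1
      rw [PowerSeries.coeff_map, hH, h1, coeff_zero_one, map_one])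
    (by rw [← map_mul, hG, hH, GG_HH, map_one])
    (by rw [dt_map, hG, dt_GG, map_mul, hΦ.map_Mt])
  have key : ∀ Y : PowerSeries (Matrix (Fk n) (Fk n) (BB n A)), EvZ (PowerSeries.map X Y) →
      (fM (Fk n) (fB n I)).Pol 1 Y := by
    rintro Y ⟨N, hN⟩
    refine ⟨N, fun m hm a c => ?_⟩
    have h1 := congrFun (congrFun (hN m hm) a) c
    rw [PowerSeries.coeff_map] at h1
    exact chi_eq_zero.1 h1
  exact ⟨Filt.lift_left (hΦ.Mt_Rst _) dt_GG dt_HH GG_HH (key _ e1.1) (key _ e1.2),
    Filt.lift_right (hΦ.Mt_Rst _) dt_GG dt_HH GG_HH (key _ e1.1) (key _ e1.2)⟩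

end Ham

end

end Pool.Agent.MFI
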