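import Pool.Agent.MFI.St

/-!
# Isotopy invariance of matrix factorizations (MP_c8c50b_ag), helper26

Part 12: the Taylor homomorphism and the filtration of the ring of jets.
-/

set_option autoImplicit false

open Finset.HasAntidiagonal (antidiagonal mem_antidiagonal)

namespace Pool.Agent.MFI

noncomputable section

variable {n : ℕ} {A : Type*} [CommRing A]

section Pd

lemma pd_apply (k : Fin n) (X : BB n A) : pd k X = MvPowerSeries.pderiv A k X := rfl

lemma coeff_pd (k : Fin n) (X : BB n A) (α : Fin n →₀ ℕ) :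
    MvPowerSeries.coeff α (pd k X) =
      MvPowerSeries.coeff (α + Finsupp.single k 1) X * ((α k : A) + 1) :=
  MvPowerSeries.coeff_pderiv X α

lemma pd_mul (k : Fin n) (X Y : BB n A) : pd k (X * Y) = pd k X * Y + X * pd k Y := by
  rw [pd_apply, pd_apply, pd_apply, Derivation.leibniz, smul_eq_mul, smul_eq_mul]
  ring

lemma pd_cc (k : Fin n) (a : A) : pd k (cc a : BB n A) = 0 := MvPowerSeries.pderiv_C

lemma pd_ee (k l : Fin n) : pd k (ee l : BB n A) = if k = l then 1 else 0 := by
  rw [pd_apply, MvPowerSeries.pderiv_X, Pi.single_apply]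
  by_cases h : k = l
  · rw [if_pos h, if_pos h.symm]
  · rw [if_neg h, if_neg (Ne.symm h)]

lemma pd_comm (i j : Fin n) (X : BB n A) : pd i (pd j X) = pd j (pd i X) := by
  ext α
  rw [coeff_pd, coeff_pd, coeff_pd, coeff_pd, add_right_comm]
  by_cases h : i = j
  · subst h; rfl
  · have e1 : (α + Finsupp.single i 1 : Fin n →₀ ℕ) j = α j := by
      rw [Finsupp.add_apply, Finsupp.single_eq_of_ne (Ne.symm h), add_zero]
    have e2 : (α + Finsupp.single j 1 : Fin n →₀ ℕ) i = α i := by
      rw [Finsupp.add_apply, Finsupp.single_eq_of_ne h, add_zero]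
    rw [e1, e2]
    ring

lemma deg_add_single (k : Fin n) (α : Fin n →₀ ℕ) :
    (α + Finsupp.single k 1).degree = α.degree + 1 := by
  rw [map_add, Finsupp.degree_single]

variable {I : Ideal A}

lemma pd_F (k : Fin n) {N : ℕ} {X : BB n A} (h : X ∈ (fB n I).F (N + 1)) :
    pd k X ∈ (fB n I).F N := by
  rw [mem_fB]
  intro α
  rw [coeff_pd]
  have h1 := h (α + Finsupp.single k 1)
  rw [deg_add_single] at h1
  exact Ideal.mul_mem_right _ _ (Ideal.pow_le_pow_right (by omega) h1)

lemma cc_F {N : ℕ} {a : A} (h : a ∈ I ^ N) : (cc a : BB n A) ∈ (fB n I).F N := by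
  classical
  rw [mem_fB]
  intro α
  rw [MvPowerSeries.coeff_C]
  split_ifs with h1
  · subst h1
    rw [map_zero, Nat.sub_zero]
    exact h
  · exact zero_mem _

lemma ev0_F {N : ℕ} {X : BB n A} (h : X ∈ (fB n I).F N) : ev0 X ∈ I ^ N := by
  have h1 := h 0
  rwa [map_zero, Nat.sub_zero] at h1

lemma mem_F1 {X : BB n A} : X ∈ (fB n I).F 1 ↔ ev0 X ∈ I := by
  constructor
  · intro h
    have := ev0_F h
    rwa [pow_one] at this
  · intro h α
    by_cases hα : α = 0
    · subst hα
      rw [map_zero, Nat.sub_zero, pow_one]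
      exact h
    · have h1 : 0 < α.degree := by
        rw [Nat.pos_iff_ne_zero]
        intro h0
        exact hα ((Finsupp.degree_eq_zero_iff α).1 h0)
      rw [show 1 - α.degree = 0 by omega, pow_zero, Ideal.one_eq_top]
      trivial

lemma ee_F (l : Fin n) : (ee l : BB n A) ∈ (fB n I).F 1 := by
  rw [mem_F1]
  rw [show ev0 (ee l : BB n A) = 0 from MvPowerSeries.constantCoeff_X l]
  exact zero_mem _

end Pd

section Tay

variable (𝔡 : Cder n A)

lemma dpow_zero (a : A) : dpow 𝔡 0 a = a := by simp [dpow]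

lemma dpow_single (k : Fin n) (α : Fin n →₀ ℕ) (a : A) :
    dpow 𝔡 (α + Finsupp.single k 1) a = dpow 𝔡 α (𝔡.D k a) := by
  rw [dpow, dpow, map_add, Multiset.foldr_add, Finsupp.toMultiset_single, one_nsmul,
    Multiset.foldr_singleton]

lemma dpow_add (α : Fin n →₀ ℕ) (a b : A) : dpow 𝔡 α (a + b) = dpow 𝔡 α a + dpow 𝔡 α b := by
  rw [dpow, dpow, dpow]
  induction Finsupp.toMultiset α using Multiset.induction_on with
  | empty => simp
  | cons k s ih => rw [Multiset.foldr_cons, Multiset.foldr_cons, Multiset.foldr_cons, ih, map_add]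

lemma D_one (k : Fin n) : 𝔡.D k 1 = 0 := by
  have h := 𝔡.leib k 1 1
  rw [mul_one, mul_one, one_mul] at h
  have h2 : 𝔡.D k 1 + 0 = 𝔡.D k 1 + 𝔡.D k 1 := by rw [add_zero]; exact h
  exact (add_left_cancel h2).symm

lemma dpow_const {α : Fin n →₀ ℕ} (hα : α ≠ 0) {a : A} (ha : ∀ k, 𝔡.D k a = 0) :
    dpow 𝔡 α a = 0 := by
  have h0 : ∀ s : Multiset (Fin n), Multiset.foldr (fun (k : Fin n) (a : A) => 𝔡.D k a) 0 s = 0 := by
    intro s
    induction s using Multiset.induction_on with
    | empty => simp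
    | cons k s ih => rw [Multiset.foldr_cons, ih, map_zero]
  obtain ⟨k, hk⟩ : ∃ k, α k ≠ 0 := by
    by_contra hc
    push Not at hc
    exact hα (Finsupp.ext hc)
  have h1 : α - Finsupp.single k 1 + Finsupp.single k 1 = α := by
    refine tsub_add_cancel_of_le ?_
    rw [Finsupp.single_le_iff]
    omega
  rw [← h1, dpow_single, ha]
  exact h0 _

lemma mfac_single (k : Fin n) (α : Fin n →₀ ℕ) :
    mfac (α + Finsupp.single k 1) = (α k + 1) * mfac α := by
  classical
  rw [mfac, mfac, ← Finset.mul_prod_erase Finset.univ _ (Finset.mem_univ k),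
    ← Finset.mul_prod_erase Finset.univ (fun i => (α i).factorial) (Finset.mem_univ k), ← mul_assoc]
  congr 1
  · rw [Finsupp.add_apply, Finsupp.single_eq_same, Nat.factorial_succ]
  · refine Finset.prod_congr rfl fun i hi => ?_
    rw [Finsupp.add_apply, Finsupp.single_eq_of_ne (Finset.ne_of_mem_erase hi), add_zero]

lemma mfac_pos (α : Fin n →₀ ℕ) : 0 < mfac α := Finset.prod_pos fun _ _ => Nat.factorial_pos _

variable [Algebra ℚ A]

lemma coeff_tayf (α : Fin n →₀ ℕ) (a : A) :
    MvPowerSeries.coeff α (tayf 𝔡 a) = ((mfac α : ℚ)⁻¹) • dpow 𝔡 α a := rfl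

lemma pd_tayf (k : Fin n) (a : A) : pd k (tayf 𝔡 a) = tayf 𝔡 (𝔡.D k a) := by
  ext α
  rw [coeff_pd, coeff_tayf, coeff_tayf, dpow_single, mfac_single]
  have h1 : ((α k : A) + 1) = algebraMap ℚ A ((α k : ℚ) + 1) := by
    rw [map_add, map_natCast, map_one]
  rw [h1, mul_comm, ← Algebra.smul_def, smul_smul]
  congr 1
  have h2 : ((α k : ℚ) + 1) ≠ 0 := by positivity
  have h3 : (mfac α : ℚ) ≠ 0 := by
    have := mfac_pos α
    positivity
  push_cast
  field_simp

lemma ev0_tayf (a : A) : ev0 (tayf 𝔡 a) = a := by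
  change MvPowerSeries.coeff 0 (tayf 𝔡 a) = a
  rw [coeff_tayf, dpow_zero]
  have : mfac (0 : Fin n →₀ ℕ) = 1 := by simp [mfac]
  rw [this]
  simp

lemma tayf_add (a b : A) : tayf 𝔡 (a + b) = tayf 𝔡 a + tayf 𝔡 b := by
  ext α
  rw [map_add, coeff_tayf, coeff_tayf, coeff_tayf, dpow_add, smul_add]

lemma tayf_const {a : A} (ha : ∀ k, 𝔡.D k a = 0) : tayf 𝔡 a = cc a := by
  classical
  ext α
  rw [coeff_tayf, MvPowerSeries.coeff_C]
  split_ifs with h
  · subst h
    rw [dpow_zero]
    have : mfac (0 : Fin n →₀ ℕ) = 1 := by simp [mfac]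
    rw [this]
    simp
  · rw [dpow_const 𝔡 h ha, smul_zero]

/-- integration: a coefficient is determined by the coefficient of a derivative -/
lemma coeff_of_pd (k : Fin n) (X : BB n A) (α : Fin n →₀ ℕ) :
    MvPowerSeries.coeff (α + Finsupp.single k 1) X =
      (((α k : ℚ) + 1)⁻¹) • MvPowerSeries.coeff α (pd k X) := by
  rw [coeff_pd]
  have h1 : ((α k : A) + 1) = algebraMap ℚ A ((α k : ℚ) + 1) := by
    rw [map_add, map_natCast, map_one]
  have h2 : ((α k : ℚ) + 1) ≠ 0 := by positivity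
  rw [h1, mul_comm, ← Algebra.smul_def, smul_smul, inv_mul_cancel₀ h2, one_smul]

lemma single_ind (P : (Fin n →₀ ℕ) → Prop) (h0 : P 0)
    (h1 : ∀ k α, P α → P (α + Finsupp.single k 1)) (α : Fin n →₀ ℕ) : P α := by
  induction hd : α.degree generalizing α with
  | zero =>
    have : α = 0 := (Finsupp.degree_eq_zero_iff α).1 hd
    rw [this]
    exact h0
  | succ d ih =>
    have hα : α ≠ 0 := by
      rintro rfl
      rw [map_zero] at hd
      omega
    obtain ⟨k, hk⟩ : ∃ k, α k ≠ 0 := by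
      by_contra hc
      push Not at hc
      exact hα (Finsupp.ext hc)
    have h2 : α - Finsupp.single k 1 + Finsupp.single k 1 = α := by
      refine tsub_add_cancel_of_le ?_
      rw [Finsupp.single_le_iff]
      omega
    rw [← h2] at hd ⊢
    rw [deg_add_single] at hd
    exact h1 k _ (ih _ (by omega))

lemma tayf_mul (a b : A) : tayf 𝔡 (a * b) = tayf 𝔡 a * tayf 𝔡 b := by
  have key : ∀ α : Fin n →₀ ℕ, ∀ a b : A,
      MvPowerSeries.coeff α (tayf 𝔡 (a * b)) = MvPowerSeries.coeff α (tayf 𝔡 a * tayf 𝔡 b) := by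
    intro α
    refine single_ind (fun α => ∀ a b : A, MvPowerSeries.coeff α (tayf 𝔡 (a * b)) =
      MvPowerSeries.coeff α (tayf 𝔡 a * tayf 𝔡 b)) ?_ ?_ α
    · intro a b
      change ev0 (tayf 𝔡 (a * b)) = ev0 (tayf 𝔡 a * tayf 𝔡 b)
      rw [map_mul, ev0_tayf, ev0_tayf, ev0_tayf]
    · intro k α ih a b
      rw [coeff_of_pd, coeff_of_pd, pd_mul, pd_tayf, pd_tayf, pd_tayf, 𝔡.leib, tayf_add, map_add,
        map_add, ih, ih]
  ext α
  exact key α a b

/-- the Taylor homomorphism `a(y) ↦ a(y + ε)` -/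
def tay : A →+* BB n A where
  toFun := tayf 𝔡
  map_zero' := by
    rw [tayf_const 𝔡 (fun k => map_zero _), map_zero]
  map_one' := by
    rw [tayf_const 𝔡 (fun k => D_one 𝔡 k), map_one]
  map_add' := tayf_add 𝔡
  map_mul' := tayf_mul 𝔡

lemma pd_tay (k : Fin n) (a : A) : pd k (tay 𝔡 a) = tay 𝔡 (𝔡.D k a) := pd_tayf 𝔡 k a

lemma ev0_tay (a : A) : ev0 (tay 𝔡 a) = a := ev0_tayf 𝔡 a

lemma tay_const {a : A} (ha : ∀ k, 𝔡.D k a = 0) : tay 𝔡 a = cc a := tayf_const 𝔡 ha

lemma ext_pd {X Y : BB n A} (h : ∀ k, pd k X = pd k Y) (h0 : ev0 X = ev0 Y) : X = Y := by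
  ext α
  refine single_ind (fun α => MvPowerSeries.coeff α X = MvPowerSeries.coeff α Y) ?_ ?_ α
  · exact h0
  · intro k α _
    rw [coeff_of_pd, coeff_of_pd, h]

lemma tay_x (l : Fin n) : tay 𝔡 (𝔡.x l) = cc (𝔡.x l) + ee l := by
  refine ext_pd (fun k => ?_) ?_
  · rw [pd_tay, 𝔡.dual, map_add, pd_cc, pd_ee, zero_add]
    split_ifs
    · exact map_one _
    · exact map_zero _
  · rw [ev0_tay, map_add]
    rw [show ev0 (ee l : BB n A) = 0 from MvPowerSeries.constantCoeff_X l, add_zero]
    exact (MvPowerSeries.constantCoeff_C (𝔡.x l)).symm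

variable {I : Ideal A}

omit [Algebra ℚ A] in
lemma D_pow {N : ℕ} (k : Fin n) {a : A} (ha : a ∈ I ^ (N + 1)) : 𝔡.D k a ∈ I ^ N := by
  induction N generalizing a with
  | zero => rw [pow_zero, Ideal.one_eq_top]; trivial
  | succ N ih =>
    rw [pow_succ] at ha
    refine Submodule.mul_induction_on ha ?_ ?_
    · intro x hx y hy
      rw [𝔡.leib]
      refine add_mem ?_ (Ideal.mul_mem_right _ _ hx)
      rw [pow_succ]
      exact Ideal.mul_mem_mul (ih hx) hy
    · intro x y hx hy
      rw [map_add]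
      exact add_mem hx hy

omit [Algebra ℚ A] in
lemma dpow_pow {N : ℕ} (α : Fin n →₀ ℕ) {a : A} (ha : a ∈ I ^ N) :
    dpow 𝔡 α a ∈ I ^ (N - α.degree) := by
  revert N a
  refine single_ind (fun α => ∀ {N : ℕ} {a : A}, a ∈ I ^ N → dpow 𝔡 α a ∈ I ^ (N - α.degree))
    ?_ ?_ α
  · intro N a ha
    rw [dpow_zero, map_zero, Nat.sub_zero]
    exact ha
  · intro k α ih N a ha
    rw [dpow_single, deg_add_single]
    rcases N with _ | N
    · rw [Nat.zero_sub, pow_zero, Ideal.one_eq_top]
      trivial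
    · have := ih (D_pow 𝔡 k ha)
      rwa [show N + 1 - (α.degree + 1) = N - α.degree by omega]

lemma tay_F {N : ℕ} {a : A} (ha : a ∈ I ^ N) : tay 𝔡 a ∈ (fB n I).F N := by
  intro α
  change MvPowerSeries.coeff α (tayf 𝔡 a) ∈ _
  rw [coeff_tayf, Algebra.smul_def]
  exact Ideal.mul_mem_left _ _ (dpow_pow 𝔡 α ha)

/-- the first order expansion of the Taylor series -/
lemma tay_two (a : A) : tay 𝔡 a - cc a - ∑ m, cc (𝔡.D m a) * ee m ∈ (fB n I).F 2 := by
  classical
  intro α
  by_cases h2 : 2 ≤ α.degree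
  · rw [show 2 - α.degree = 0 by omega, pow_zero, Ideal.one_eq_top]
    trivial
  · have h0 : MvPowerSeries.coeff α (tay 𝔡 a - cc a - ∑ m, cc (𝔡.D m a) * ee m) = 0 := by
      rw [map_sub, map_sub, map_sum]
      change MvPowerSeries.coeff α (tayf 𝔡 a) - _ - _ = 0
      rw [coeff_tayf, MvPowerSeries.coeff_C]
      have e1 : ∀ m : Fin n, MvPowerSeries.coeff α (cc (𝔡.D m a) * ee m : BB n A) =
          if α = Finsupp.single m 1 then 𝔡.D m a else 0 := by
        intro m
        rw [MvPowerSeries.coeff_C_mul, MvPowerSeries.coeff_X]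
        split_ifs <;> simp
      rw [Finset.sum_congr rfl fun m _ => e1 m]
      by_cases hα : α = 0
      · subst hα
        rw [if_pos rfl, dpow_zero]
        have h3 : mfac (0 : Fin n →₀ ℕ) = 1 := by simp [mfac]
        rw [h3]
        have h4 : ∀ m : Fin n, (0 : Fin n →₀ ℕ) ≠ Finsupp.single m 1 := by
          intro m hm
          have := DFunLike.congr_fun hm m
          simp at this
        rw [Finset.sum_eq_zero fun m _ => if_neg (h4 m)]
        simp
      · obtain ⟨k, hk⟩ : ∃ k, α k ≠ 0 := by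
          by_contra hc
          push Not at hc
          exact hα (Finsupp.ext hc)
        have h3 : α - Finsupp.single k 1 + Finsupp.single k 1 = α := by
          refine tsub_add_cancel_of_le ?_
          rw [Finsupp.single_le_iff]
          omega
        have h4 : α - Finsupp.single k 1 = 0 := by
          have h5 := deg_add_single k (α - Finsupp.single k 1)
          rw [h3] at h5
          have h6 : (α - Finsupp.single k 1).degree = 0 := by omega
          exact (Finsupp.degree_eq_zero_iff _).1 h6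
        have h5 : α = Finsupp.single k 1 := by rw [← h3, h4, zero_add]
        rw [h5, if_neg (by
          intro h6
          have := DFunLike.congr_fun h6 k
          simp at this), sub_zero]
        have h6 : dpow 𝔡 (Finsupp.single k 1) a = 𝔡.D k a := by
          rw [← zero_add (Finsupp.single k 1), dpow_single, dpow_zero]
        have h7 : mfac (Finsupp.single k 1 : Fin n →₀ ℕ) = 1 := by
          rw [← zero_add (Finsupp.single k 1), mfac_single]
          simp [mfac]
        rw [h6, h7, Finset.sum_eq_single k]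
        · simp
        · intro m _ hm
          rw [if_neg]
          intro h8
          have h9 := DFunLike.congr_fun h8 k
          rw [Finsupp.single_eq_same, Finsupp.single_eq_of_ne (Ne.symm hm)] at h9
          omega
        · intro h8
          exact absurd (Finset.mem_univ k) h8
    rw [h0]
    exact zero_mem _

end Tay

end

end Pool.Agent.MFI
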