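import Pool.Agent.MFI.St

/-!
# Isotopy invariance of matrix factorizations (MP_c8c50b_ag), module CON (helper2)

The contraction of the Koszul kernel (homological perturbation).
-/

set_option autoImplicit false

open scoped Kronecker
open Function

namespace Pool.Agent.MFI

universe u

noncomputable section

/-! ### the abstract perturbation lemma -/

section Pert

variable {A : Type*} [CommRing A] {W V : Type*} [AddCommGroup W] [Module A W] [AddCommGroup V]
  [Module A V]

/-- The perturbation lemma for a differential `D` with `D² = f`, a perturbation of `δ`. -/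
lemma mcon_pert (δ D H0 Γ : W →ₗ[A] W) (i0 : V →ₗ[A] W) (π0 : W →ₗ[A] V) (d g : V →ₗ[A] V) (f : A)
    (e1 : ∀ v, δ (H0 v) + H0 (δ v) = v - i0 (π0 v))
    (e2 : ∀ v, H0 (H0 v) = 0) (e3 : ∀ v, H0 (i0 v) = 0) (e4 : ∀ v, π0 (H0 v) = 0)
    (e5 : ∀ v, δ (i0 v) = 0) (e6 : ∀ v, δ (δ v) = 0) (e7 : ∀ v, π0 (i0 v) = v)
    (e8 : ∀ v, π0 (D v) = d (π0 v)) (e9 : ∀ v, D (D v) = f • v)
    (e10 : IsNilpotent (H0 ∘ₗ (D - δ) : Module.End A W))
    (g1 : ∀ v, Γ (δ v) = - δ (Γ v)) (g2 : ∀ v, Γ (D v) = - D (Γ v))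
    (g3 : ∀ v, Γ (H0 v) = - H0 (Γ v)) (g4 : ∀ v, Γ (i0 v) = i0 (g v)) :
    ∃ (s : V →ₗ[A] W) (H : W →ₗ[A] W), (∀ v, π0 (s v) = v) ∧ (∀ v, D (s v) = s (d v)) ∧
      (∀ v, Γ (s v) = s (g v)) ∧ (∀ v, D (H v) + H (D v) = v - s (π0 v)) ∧
      (∀ v, Γ (H v) = - H (Γ v)) := by
  obtain ⟨u, hu⟩ := e10.isUnit_one_add
  set X : Module.End A W := (↑(u⁻¹) : Module.End A W) with hX
  have hY : ∀ v, (u : Module.End A W) v = v + (H0 (D v) - H0 (δ v)) := by
    intro v
    rw [hu, LinearMap.add_apply, Module.End.one_apply, LinearMap.comp_apply, LinearMap.sub_apply,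
      map_sub]
  have hXY : ∀ v, X ((u : Module.End A W) v) = v := by
    intro v
    rw [hX, ← Module.End.mul_apply, Units.inv_mul, Module.End.one_apply]
  have hYX : ∀ v, (u : Module.End A W) (X v) = v := by
    intro v
    rw [hX, ← Module.End.mul_apply, Units.mul_inv, Module.End.one_apply]
  have hinj : ∀ v w, (u : Module.End A W) v = (u : Module.End A W) w → v = w := by
    intro v w h
    rw [← hXY v, h, hXY]
  have h1 : ∀ v, H0 (X v) = H0 v := by
    intro v
    have h := hYX v
    rw [hY] at h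
    have h' := congrArg H0 h
    rw [map_add, map_sub, e2, e2, sub_zero, add_zero] at h'
    exact h'
  have h2 : ∀ v, π0 (X v) = π0 v := by
    intro v
    have h := hYX v
    rw [hY] at h
    have h' := congrArg π0 h
    rw [map_add, map_sub, e4, e4, sub_zero, add_zero] at h'
    exact h'
  have h3 : ∀ v, H0 (D v) = (u : Module.End A W) v - i0 (π0 v) - δ (H0 v) := by
    intro v
    have h' : H0 (δ v) = v - i0 (π0 v) - δ (H0 v) := by
      rw [← e1 v]; abel
    rw [hY, h']
    abel
  have h4 : ∀ v, (u : Module.End A W) (D v) = δ ((u : Module.End A W) v) + i0 (d (π0 v)) +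
      f • H0 v := by
    intro v
    have a1 : H0 (δ (D v)) = D v - i0 (π0 (D v)) - δ (H0 (D v)) := by
      rw [← e1 (D v)]; abel
    rw [hY (D v), e9, map_smul, a1, e8, h3 v, map_sub, map_sub, e5, e6]
    abel
  refine ⟨X ∘ₗ i0, X ∘ₗ H0, fun v => ?_, fun v => ?_, fun v => ?_, fun v => ?_, fun v => ?_⟩
  · rw [LinearMap.comp_apply, h2, e7]
  · rw [LinearMap.comp_apply, LinearMap.comp_apply]
    apply hinj
    rw [h4, hYX, hYX, h2, e7, h1, e3, e5, smul_zero, add_zero, zero_add]
  · have h5 : ∀ w, Γ (X w) = X (Γ w) := by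
      intro w
      apply hinj
      have h6 : ∀ w, (u : Module.End A W) (Γ w) = Γ ((u : Module.End A W) w) := by
        intro w
        rw [hY, hY, map_add, map_sub, g3, g3, g2, g1, map_neg, map_neg, neg_neg, neg_neg]
      rw [h6, hYX, hYX]
    rw [LinearMap.comp_apply, LinearMap.comp_apply, h5, g4]
  · rw [LinearMap.comp_apply, LinearMap.comp_apply, LinearMap.comp_apply]
    apply hinj
    rw [map_add, map_sub, h4, hYX, hYX, hYX, h2, e4, h1, e2, h3, map_zero, map_zero, smul_zero,
      add_zero, add_zero]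
    abel
  · have h5 : ∀ w, Γ (X w) = X (Γ w) := by
      intro w
      apply hinj
      have h6 : ∀ w, (u : Module.End A W) (Γ w) = Γ ((u : Module.End A W) w) := by
        intro w
        rw [hY, hY, map_add, map_sub, g3, g3, g2, g1, map_neg, map_neg, neg_neg, neg_neg]
      rw [h6, hYX, hYX]
    rw [LinearMap.comp_apply, LinearMap.comp_apply, h5, g3, map_neg]

end Pert

/-! ### the operators on Fock space -/

section Oper

variable {n : ℕ} {A : Type u} [CommRing A]

/-- the number of occupied states -/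
def mcon_nn (a : Fk n) : ℕ := (Finset.univ.filter fun j => a j = true).card

lemma mcon_nn_update {a : Fk n} {k : Fin n} (h : a k = true) :
    mcon_nn a = mcon_nn (update a k false) + 1 := by
  have h1 : k ∈ Finset.univ.filter fun j => a j = true := by simpa using h
  rw [mcon_nn, mcon_nn, ← Finset.card_erase_add_one h1]
  congr 2
  ext j
  by_cases hj : j = k
  · subst hj
    simp
  · simp [hj]

lemma mcon_nn_update' {a : Fk n} {k : Fin n} (h : a k = false) :
    mcon_nn (update a k true) = mcon_nn a + 1 := by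
  have h1 := mcon_nn_update (a := update a k true) (k := k) (by simp)
  rw [h1, update_idem, ← h, update_eq_self]

lemma mcon_nn_zero {a : Fk n} : mcon_nn a = 0 ↔ a = fun _ => false := by
  rw [mcon_nn, Finset.card_eq_zero, Finset.filter_eq_empty_iff]
  constructor
  · intro h
    funext j
    simpa using h (Finset.mem_univ j)
  · intro h j _
    rw [h]
    simp

lemma mcon_nn_le (a : Fk n) : mcon_nn a ≤ n := by
  rw [mcon_nn]
  exact (Finset.card_filter_le _ _).trans (by simp)

lemma mcon_opv (i : Fin n) (β : Bool) (v : Fk n → BB n A) (a : Fk n) :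
    (op (BB n A) i β).mulVec v a =
      if a i = β then sgn i a • v (update a i (!β)) else 0 := by
  refine (op_mul i β (Matrix.of fun c (_ : Fk n) => v c) a a).trans ?_
  simp only [zsmul_eq_mul]
  rfl

lemma mcon_coeff_ee (k : Fin n) (X : BB n A) (α : Fin n →₀ ℕ) :
    MvPowerSeries.coeff α (ee k * X) =
      if α k = 0 then 0 else MvPowerSeries.coeff (α - Finsupp.single k 1) X := by
  rw [show (ee k : BB n A) = MvPowerSeries.monomial (Finsupp.single k 1) (1 : A) from rfl,
    MvPowerSeries.coeff_monomial_mul, one_mul]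
  by_cases h : α k = 0
  · rw [if_pos h, if_neg]
    intro h1
    have h2 := h1 k
    rw [Finsupp.single_eq_same, h] at h2
    omega
  · rw [if_neg h, if_pos]
    rw [Finsupp.single_le_iff]
    omega

lemma mcon_coeff_pd (k : Fin n) (X : BB n A) (α : Fin n →₀ ℕ) :
    MvPowerSeries.coeff α (pd k X) =
      MvPowerSeries.coeff (α + Finsupp.single k 1) X * (α k + 1) :=
  MvPowerSeries.coeff_pderiv X α

/-- the entrywise action of a linear map -/
def mcon_E (L : BB n A →ₗ[A] BB n A) : Module.End A (Fk n → BB n A) where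
  toFun v a := L (v a)
  map_add' v w := by funext a; simp
  map_smul' r v := by funext a; simp

/-- the action of a matrix -/
def mcon_m (M : Matrix (Fk n) (Fk n) (BB n A)) : Module.End A (Fk n → BB n A) :=
  (Matrix.mulVecLin M).restrictScalars A

lemma mcon_m_apply (M : Matrix (Fk n) (Fk n) (BB n A)) (v : Fk n → BB n A) :
    mcon_m M v = M.mulVec v := rfl

lemma mcon_m_mul (M M' : Matrix (Fk n) (Fk n) (BB n A)) : mcon_m (M * M') = mcon_m M * mcon_m M' := by
  refine LinearMap.ext fun v => ?_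
  rw [Module.End.mul_apply, mcon_m_apply, mcon_m_apply, mcon_m_apply, Matrix.mulVec_mulVec]

lemma mcon_m_add (M M' : Matrix (Fk n) (Fk n) (BB n A)) : mcon_m (M + M') = mcon_m M + mcon_m M' := by
  refine LinearMap.ext fun v => ?_
  rw [LinearMap.add_apply, mcon_m_apply, mcon_m_apply, mcon_m_apply, Matrix.add_mulVec]

lemma mcon_m_one : mcon_m (1 : Matrix (Fk n) (Fk n) (BB n A)) = 1 := by
  refine LinearMap.ext fun v => ?_
  rw [Module.End.one_apply, mcon_m_apply, Matrix.one_mulVec]

lemma mcon_m_zero : mcon_m (0 : Matrix (Fk n) (Fk n) (BB n A)) = 0 := by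
  refine LinearMap.ext fun v => ?_
  rw [LinearMap.zero_apply, mcon_m_apply, Matrix.zero_mulVec]

/-- elementary operators commute with entrywise ones -/
lemma mcon_comm (k : Fin n) (β : Bool) (L : BB n A →ₗ[A] BB n A) :
    mcon_m (op (BB n A) k β) * mcon_E L = mcon_E L * mcon_m (op (BB n A) k β) := by
  refine LinearMap.ext fun v => ?_
  funext a
  rw [Module.End.mul_apply, Module.End.mul_apply, mcon_m_apply, mcon_opv]
  show _ = L (mcon_m (op (BB n A) k β) v a)
  rw [mcon_m_apply, mcon_opv]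
  split_ifs
  · rw [map_zsmul]
    rfl
  · rw [map_zero]

/-- multiplication by `ε_k` -/
def mcon_mu (k : Fin n) : BB n A →ₗ[A] BB n A := (LinearMap.mulLeft A (ee k : BB n A))

/-- the derivative -/
def mcon_pd (k : Fin n) : BB n A →ₗ[A] BB n A := (MvPowerSeries.pderiv A k).toLinearMap

lemma mcon_E_mul (L L' : BB n A →ₗ[A] BB n A) : mcon_E (L ∘ₗ L') = mcon_E L * mcon_E L' := rfl

lemma mcon_E_add (L L' : BB n A →ₗ[A] BB n A) : mcon_E (L + L') = mcon_E L + mcon_E L' := rfl

lemma mcon_E_zero : mcon_E (0 : BB n A →ₗ[A] BB n A) = 0 := rfl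

lemma mcon_E_one : mcon_E (LinearMap.id : BB n A →ₗ[A] BB n A) = 1 := rfl

lemma mcon_pd_mu (k l : Fin n) : (mcon_pd l : BB n A →ₗ[A] BB n A) ∘ₗ mcon_mu k =
    mcon_mu k ∘ₗ mcon_pd l + if k = l then LinearMap.id else 0 := by
  refine LinearMap.ext fun X => ?_
  rw [LinearMap.comp_apply, LinearMap.add_apply, LinearMap.comp_apply]
  show (MvPowerSeries.pderiv A l) (ee k * X) = ee k * (MvPowerSeries.pderiv A l) X + _
  rw [Derivation.leibniz, smul_eq_mul, smul_eq_mul]
  congr 1
  rw [show (ee k : BB n A) = MvPowerSeries.X k from rfl, MvPowerSeries.pderiv_X]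
  by_cases h : k = l
  · subst h
    simp
  · simp [h]

lemma mcon_pd_pd (k l : Fin n) : (mcon_pd l : BB n A →ₗ[A] BB n A) ∘ₗ mcon_pd k =
    mcon_pd k ∘ₗ mcon_pd l := by
  refine LinearMap.ext fun X => ?_
  ext α
  show MvPowerSeries.coeff α (pd l (pd k X)) = MvPowerSeries.coeff α (pd k (pd l X))
  rw [mcon_coeff_pd, mcon_coeff_pd, mcon_coeff_pd, mcon_coeff_pd]
  by_cases h : k = l
  · subst h
    rfl
  · rw [Finsupp.add_apply, Finsupp.add_apply, Finsupp.single_eq_of_ne h,
      Finsupp.single_eq_of_ne (Ne.symm h), add_assoc, add_assoc,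
      add_comm (Finsupp.single l 1) (Finsupp.single k 1), add_zero, add_zero]
    ring

end Oper

section Oper2

variable {n : ℕ} {A : Type u} [CommRing A]

/-- creation times derivative -/
def mcon_dd : Module.End A (Fk n → BB n A) :=
  ∑ k : Fin n, mcon_m (th (BB n A) k) * mcon_E (mcon_pd k)

/-- annihilation times `ε` -/
def mcon_d0 : Module.End A (Fk n → BB n A) :=
  ∑ k : Fin n, mcon_m (io (BB n A) k) * mcon_E (mcon_mu k)

lemma mcon_prod (k l : Fin n) (β β' : Bool) (L L' : BB n A →ₗ[A] BB n A) :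
    mcon_m (op (BB n A) k β) * mcon_E L * (mcon_m (op (BB n A) l β') * mcon_E L') =
      mcon_m (op (BB n A) k β * op (BB n A) l β') * mcon_E (L ∘ₗ L') := by
  rw [mcon_m_mul, mcon_E_mul, mul_assoc, ← mul_assoc (mcon_E L), ← mcon_comm l β' L]
  simp only [mul_assoc]

variable [Algebra ℚ A]

lemma mcon_half (S : Module.End A (Fk n → BB n A)) (h : S + S = 0) : S = 0 := by
  refine LinearMap.ext fun v => ?_
  funext a
  ext α
  have h1 := congrArg (fun T : Module.End A (Fk n → BB n A) => MvPowerSeries.coeff α (T v a)) h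
  simp only [LinearMap.add_apply, Pi.add_apply, map_add, LinearMap.zero_apply, Pi.zero_apply,
    map_zero] at h1
  have h2 : (2 : ℚ) • MvPowerSeries.coeff α (S v a) = 0 := by
    rw [two_smul]
    exact h1
  rw [LinearMap.zero_apply, Pi.zero_apply, map_zero]
  exact (smul_eq_zero.1 h2).resolve_left two_ne_zero

lemma mcon_dd_sq : (mcon_dd * mcon_dd : Module.End A (Fk n → BB n A)) = 0 := by
  apply mcon_half
  have e : (mcon_dd * mcon_dd : Module.End A (Fk n → BB n A)) =
      ∑ k : Fin n, ∑ l : Fin n, mcon_m (th (BB n A) k * th (BB n A) l) *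
        mcon_E (mcon_pd k ∘ₗ mcon_pd l) := by
    rw [mcon_dd, Finset.sum_mul_sum]
    exact Finset.sum_congr rfl fun k _ => Finset.sum_congr rfl fun l _ => mcon_prod k l _ _ _ _
  have e' : (mcon_dd * mcon_dd : Module.End A (Fk n → BB n A)) =
      ∑ k : Fin n, ∑ l : Fin n, mcon_m (th (BB n A) l * th (BB n A) k) *
        mcon_E (mcon_pd k ∘ₗ mcon_pd l) := by
    rw [e, Finset.sum_comm]
    exact Finset.sum_congr rfl fun k _ => Finset.sum_congr rfl fun l _ => by rw [mcon_pd_pd]
  nth_rw 1 [e]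
  rw [e', ← Finset.sum_add_distrib]
  refine Finset.sum_eq_zero fun k _ => ?_
  rw [← Finset.sum_add_distrib]
  refine Finset.sum_eq_zero fun l _ => ?_
  rw [← add_mul, ← mcon_m_add, th_th, mcon_m_zero, zero_mul]

lemma mcon_d0_sq : (mcon_d0 * mcon_d0 : Module.End A (Fk n → BB n A)) = 0 := by
  apply mcon_half
  have e : (mcon_d0 * mcon_d0 : Module.End A (Fk n → BB n A)) =
      ∑ k : Fin n, ∑ l : Fin n, mcon_m (io (BB n A) k * io (BB n A) l) *
        mcon_E (mcon_mu k ∘ₗ mcon_mu l) := by
    rw [mcon_d0, Finset.sum_mul_sum]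
    exact Finset.sum_congr rfl fun k _ => Finset.sum_congr rfl fun l _ => mcon_prod k l _ _ _ _
  have e' : (mcon_d0 * mcon_d0 : Module.End A (Fk n → BB n A)) =
      ∑ k : Fin n, ∑ l : Fin n, mcon_m (io (BB n A) l * io (BB n A) k) *
        mcon_E (mcon_mu k ∘ₗ mcon_mu l) := by
    rw [e, Finset.sum_comm]
    refine Finset.sum_congr rfl fun k _ => Finset.sum_congr rfl fun l _ => ?_
    congr 2
    refine LinearMap.ext fun X => ?_
    show ee l * (ee k * X) = ee k * (ee l * X)
    ring
  nth_rw 1 [e]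
  rw [e', ← Finset.sum_add_distrib]
  refine Finset.sum_eq_zero fun k _ => ?_
  rw [← Finset.sum_add_distrib]
  refine Finset.sum_eq_zero fun l _ => ?_
  rw [← add_mul, ← mcon_m_add, io_io, mcon_m_zero, zero_mul]

omit [Algebra ℚ A] in
lemma mcon_anti : (mcon_d0 * mcon_dd + mcon_dd * mcon_d0 : Module.End A (Fk n → BB n A)) =
    ∑ k : Fin n, mcon_E (mcon_mu k ∘ₗ mcon_pd k) +
      ∑ k : Fin n, mcon_m (th (BB n A) k * io (BB n A) k) := by
  have e : (mcon_d0 * mcon_dd : Module.End A (Fk n → BB n A)) =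
      ∑ k : Fin n, ∑ l : Fin n, mcon_m (io (BB n A) k * th (BB n A) l) *
        mcon_E (mcon_mu k ∘ₗ mcon_pd l) := by
    rw [mcon_d0, mcon_dd, Finset.sum_mul_sum]
    exact Finset.sum_congr rfl fun k _ => Finset.sum_congr rfl fun l _ => mcon_prod k l _ _ _ _
  have e' : (mcon_dd * mcon_d0 : Module.End A (Fk n → BB n A)) =
      ∑ k : Fin n, ∑ l : Fin n, (mcon_m (th (BB n A) l * io (BB n A) k) *
        mcon_E (mcon_mu k ∘ₗ mcon_pd l) + if k = l then mcon_m (th (BB n A) l * io (BB n A) k)
          else 0) := by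
    rw [mcon_d0, mcon_dd, Finset.sum_mul_sum, Finset.sum_comm]
    refine Finset.sum_congr rfl fun k _ => Finset.sum_congr rfl fun l _ => ?_
    rw [mcon_prod, mcon_pd_mu, mcon_E_add, mul_add]
    congr 1
    split_ifs
    · rw [mcon_E_one, mul_one]
    · rw [mcon_E_zero, mul_zero]
  rw [e, e', ← Finset.sum_add_distrib, ← Finset.sum_add_distrib]
  refine Finset.sum_congr rfl fun k _ => ?_
  rw [← Finset.sum_add_distrib]
  have h1 : ∀ l : Fin n, mcon_m (io (BB n A) k * th (BB n A) l) *
      mcon_E (mcon_mu k ∘ₗ mcon_pd l) + (mcon_m (th (BB n A) l * io (BB n A) k) *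
        mcon_E (mcon_mu k ∘ₗ mcon_pd l) + if k = l then mcon_m (th (BB n A) l * io (BB n A) k)
          else 0) = if k = l then mcon_E (mcon_mu k ∘ₗ mcon_pd k) +
            mcon_m (th (BB n A) k * io (BB n A) k) else 0 := by
    intro l
    rw [← add_assoc, ← add_mul, ← mcon_m_add, io_th]
    by_cases h : k = l
    · subst h
      rw [if_pos rfl, if_pos rfl, if_pos rfl, mcon_m_one, one_mul]
    · rw [if_neg h, if_neg h, if_neg h, mcon_m_zero, zero_mul, add_zero]
  rw [Finset.sum_congr rfl fun l _ => h1 l, Finset.sum_ite_eq, if_pos (Finset.mem_univ k)]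

/-- the division operator as a linear map -/
def mcon_dvd (r : ℕ) : BB n A →ₗ[A] BB n A where
  toFun := dvd r
  map_add' X Y := by
    ext α
    show (((α.degree + r : ℕ) : ℚ)⁻¹) • MvPowerSeries.coeff α (X + Y) =
      (((α.degree + r : ℕ) : ℚ)⁻¹) • MvPowerSeries.coeff α X +
      (((α.degree + r : ℕ) : ℚ)⁻¹) • MvPowerSeries.coeff α Y
    rw [map_add, smul_add]
  map_smul' c X := by
    ext α
    show (((α.degree + r : ℕ) : ℚ)⁻¹) • MvPowerSeries.coeff α (c • X) =
      c * (((α.degree + r : ℕ) : ℚ)⁻¹) • MvPowerSeries.coeff α X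
    rw [map_smul, smul_eq_mul, mul_smul_comm]

lemma mcon_coeff_dvd (r : ℕ) (X : BB n A) (α : Fin n →₀ ℕ) :
    MvPowerSeries.coeff α (mcon_dvd r X) =
      (((α.degree + r : ℕ) : ℚ)⁻¹) • MvPowerSeries.coeff α X := rfl

lemma mcon_dvd_mu (r : ℕ) (k : Fin n) (X : BB n A) :
    mcon_dvd r (ee k * X) = ee k * mcon_dvd (r + 1) X := by
  ext α
  rw [mcon_coeff_dvd, mcon_coeff_ee, mcon_coeff_ee, mcon_coeff_dvd]
  split_ifs with h
  · rw [smul_zero]
  · congr 3
    have h1 : α = (α - Finsupp.single k 1) + Finsupp.single k 1 := by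
      rw [tsub_add_cancel_of_le]
      rw [Finsupp.single_le_iff]
      omega
    have h2 : α.degree = (α - Finsupp.single k 1).degree + 1 := by
      conv_lhs => rw [h1, map_add, Finsupp.degree_single]
    omega

lemma mcon_dvd_pd (r : ℕ) (k : Fin n) (X : BB n A) :
    mcon_dvd (r + 1) (mcon_pd k X) = mcon_pd k (mcon_dvd r X) := by
  ext α
  show _ = MvPowerSeries.coeff α (pd k (mcon_dvd r X))
  rw [mcon_coeff_dvd, mcon_coeff_pd, mcon_coeff_dvd]
  show _ • MvPowerSeries.coeff α (pd k X) = _
  have h2 : (α + Finsupp.single k 1).degree + r = α.degree + (r + 1) := by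
    rw [map_add, Finsupp.degree_single]
    omega
  rw [mcon_coeff_pd, smul_mul_assoc, h2]

/-- division by the number operator -/
def mcon_R : Module.End A (Fk n → BB n A) where
  toFun v a := mcon_dvd (mcon_nn a) (v a)
  map_add' v w := by funext a; simp
  map_smul' r v := by funext a; simp

lemma mcon_R_apply (v : Fk n → BB n A) (a : Fk n) : mcon_R v a = mcon_dvd (mcon_nn a) (v a) := rfl

omit [Algebra ℚ A] in
lemma mcon_dd_apply (v : Fk n → BB n A) (a : Fk n) : mcon_dd v a =
    ∑ k : Fin n, if a k = true then sgn k a • mcon_pd k (v (update a k false)) else 0 := by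
  rw [mcon_dd, LinearMap.sum_apply, Finset.sum_apply]
  refine Finset.sum_congr rfl fun k _ => ?_
  rw [Module.End.mul_apply, mcon_m_apply, mcon_opv]
  rfl

omit [Algebra ℚ A] in
lemma mcon_d0_apply (v : Fk n → BB n A) (a : Fk n) : mcon_d0 v a =
    ∑ k : Fin n, if a k = false then sgn k a • (ee k * (v (update a k true))) else 0 := by
  rw [mcon_d0, LinearMap.sum_apply, Finset.sum_apply]
  refine Finset.sum_congr rfl fun k _ => ?_
  rw [Module.End.mul_apply, mcon_m_apply, mcon_opv]
  rfl

lemma mcon_R_dd : (mcon_R * mcon_dd : Module.End A (Fk n → BB n A)) = mcon_dd * mcon_R := by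
  refine LinearMap.ext fun v => ?_
  funext a
  rw [Module.End.mul_apply, Module.End.mul_apply, mcon_R_apply, mcon_dd_apply, mcon_dd_apply,
    map_sum]
  refine Finset.sum_congr rfl fun k _ => ?_
  split_ifs with h
  · rw [map_zsmul, mcon_R_apply, mcon_nn_update h, mcon_dvd_pd]
  · rw [map_zero]

lemma mcon_R_d0 : (mcon_R * mcon_d0 : Module.End A (Fk n → BB n A)) = mcon_d0 * mcon_R := by
  refine LinearMap.ext fun v => ?_
  funext a
  rw [Module.End.mul_apply, Module.End.mul_apply, mcon_R_apply, mcon_d0_apply, mcon_d0_apply,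
    map_sum]
  refine Finset.sum_congr rfl fun k _ => ?_
  split_ifs with h
  · rw [map_zsmul, mcon_R_apply, mcon_nn_update' h, mcon_dvd_mu]
  · rw [map_zero]

omit [Algebra ℚ A] in
lemma mcon_euler (X : BB n A) (α : Fin n →₀ ℕ) :
    MvPowerSeries.coeff α (∑ k : Fin n, ee k * mcon_pd k X) =
      (α.degree : A) * MvPowerSeries.coeff α X := by
  rw [map_sum, Finsupp.degree_eq_sum, Nat.cast_sum, Finset.sum_mul]
  refine Finset.sum_congr rfl fun k _ => ?_
  rw [mcon_coeff_ee]
  split_ifs with h
  · rw [h, Nat.cast_zero, zero_mul]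
  · show MvPowerSeries.coeff _ (pd k X) = _
    have h1 : (α - Finsupp.single k 1) + Finsupp.single k 1 = α := by
      rw [tsub_add_cancel_of_le]
      rw [Finsupp.single_le_iff]
      omega
    rw [mcon_coeff_pd, h1, mul_comm]
    congr 1
    rw [Finsupp.tsub_apply, Finsupp.single_eq_same]
    obtain ⟨m, hm⟩ : ∃ m, α k = m + 1 := ⟨α k - 1, by omega⟩
    rw [hm]
    push_cast
    simp

/-- the homotopy formula on Fock space -/
lemma mcon_hom (v : Fk n → BB n A) (a : Fk n) :
    (mcon_R * (mcon_d0 * mcon_dd + mcon_dd * mcon_d0) : Module.End A (Fk n → BB n A)) v a =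
      v a - if a = (fun _ => false) then cc (ev0 (v fun _ => false)) else 0 := by
  rw [mcon_anti, Module.End.mul_apply, mcon_R_apply]
  ext α
  rw [mcon_coeff_dvd, LinearMap.add_apply, Pi.add_apply, LinearMap.sum_apply, LinearMap.sum_apply,
    Finset.sum_apply, Finset.sum_apply, map_add]
  have h1 : MvPowerSeries.coeff α (∑ k : Fin n, mcon_E (mcon_mu k ∘ₗ mcon_pd k) v a) =
      (α.degree : A) * MvPowerSeries.coeff α (v a) := mcon_euler (v a) α
  have h2 : (∑ k : Fin n, mcon_m (th (BB n A) k * io (BB n A) k) v a) =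
      (mcon_nn a : BB n A) * v a := by
    rw [mcon_nn, Finset.card_filter, Nat.cast_sum, Finset.sum_mul]
    refine Finset.sum_congr rfl fun k _ => ?_
    have h3 : th (BB n A) k * io (BB n A) k = Matrix.diagonal fun a => if a k = true then 1 else 0 :=
      num k true
    rw [mcon_m_apply, h3, Matrix.mulVec_diagonal]
    push_cast
    rfl
  have h3 : MvPowerSeries.coeff α ((mcon_nn a : BB n A) * v a) =
      (mcon_nn a : A) * MvPowerSeries.coeff α (v a) := by
    rw [← nsmul_eq_mul, ← nsmul_eq_mul, map_nsmul]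
  rw [h1, h2, h3, ← add_mul, ← Nat.cast_add, map_sub]
  by_cases h4 : α.degree + mcon_nn a = 0
  · have h5 : mcon_nn a = 0 := by omega
    have h6 : α.degree = 0 := by omega
    rw [mcon_nn_zero] at h5
    rw [Finsupp.degree_eq_zero_iff] at h6
    rw [h4, if_pos h5, h5, h6, Nat.cast_zero, Nat.cast_zero, zero_mul, smul_zero]
    show _ = _ - MvPowerSeries.coeff 0 (MvPowerSeries.C (MvPowerSeries.constantCoeff (v _)))
    rw [MvPowerSeries.coeff_zero_C]
    exact (sub_self _).symm
  · have h5 : MvPowerSeries.coeff α (if a = (fun _ => false) then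
        (cc (ev0 (v fun _ => false)) : BB n A) else 0) = 0 := by
      split_ifs with h6
      · have h7 : α ≠ 0 := by
          rintro rfl
          rw [h6, mcon_nn_zero.2 rfl] at h4
          simp at h4
        show MvPowerSeries.coeff α (MvPowerSeries.C _) = 0
        rw [MvPowerSeries.coeff_C, if_neg h7]
      · rw [map_zero]
    rw [h5, sub_zero, ← nsmul_eq_mul, ← Nat.cast_smul_eq_nsmul ℚ, smul_smul, inv_mul_cancel₀,
      one_smul]
    exact_mod_cast h4

end Oper2

/-! ### gradings on Fock space -/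

section Grad

variable {n : ℕ} {A : Type u} [CommRing A]

lemma mcon_gam_apply (v : Fk n → BB n A) (a : Fk n) : mcon_m (gam (BB n A)) v a = par a • v a := by
  rw [mcon_m_apply, gam, Matrix.mulVec_diagonal, zsmul_eq_mul]

lemma mcon_gam_E (L : BB n A →ₗ[A] BB n A) :
    mcon_m (gam (BB n A)) * mcon_E L = mcon_E L * mcon_m (gam (BB n A)) := by
  refine LinearMap.ext fun v => ?_
  funext a
  rw [Module.End.mul_apply, Module.End.mul_apply, mcon_gam_apply]
  show par a • L (v a) = L (mcon_m (gam (BB n A)) v a)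
  rw [mcon_gam_apply, map_zsmul]

lemma mcon_gam_op (k : Fin n) (β : Bool) : mcon_m (gam (BB n A)) * mcon_m (op (BB n A) k β) +
    mcon_m (op (BB n A) k β) * mcon_m (gam (BB n A)) = 0 := by
  rw [← mcon_m_mul, ← mcon_m_mul, ← mcon_m_add, gam_op, neg_add_cancel, mcon_m_zero]

lemma mcon_gam_dd : mcon_m (gam (BB n A)) * mcon_dd + mcon_dd * mcon_m (gam (BB n A)) = 0 := by
  rw [mcon_dd, Finset.mul_sum, Finset.sum_mul, ← Finset.sum_add_distrib]
  refine Finset.sum_eq_zero fun k _ => ?_
  rw [← mul_assoc, mul_assoc _ (mcon_E _), ← mcon_gam_E, ← mul_assoc, ← add_mul, mcon_gam_op,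
    zero_mul]

lemma mcon_gam_d0 : mcon_m (gam (BB n A)) * mcon_d0 + mcon_d0 * mcon_m (gam (BB n A)) = 0 := by
  rw [mcon_d0, Finset.mul_sum, Finset.sum_mul, ← Finset.sum_add_distrib]
  refine Finset.sum_eq_zero fun k _ => ?_
  rw [← mul_assoc, mul_assoc _ (mcon_E _), ← mcon_gam_E, ← mul_assoc, ← add_mul, mcon_gam_op,
    zero_mul]

variable [Algebra ℚ A]

lemma mcon_gam_R : mcon_m (gam (BB n A)) * mcon_R = mcon_R * mcon_m (gam (BB n A)) := by
  refine LinearMap.ext fun v => ?_
  funext a
  rw [Module.End.mul_apply, Module.End.mul_apply, mcon_gam_apply, mcon_R_apply, mcon_R_apply,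
    mcon_gam_apply, map_zsmul]

end Grad

/-! ### the operators on the total space -/

section Tot

variable {n : ℕ} {A : Type u} [CommRing A] {N : Type}

/-- an operator on Fock space acts on the total space -/
def mcon_lift (N : Type) (L : Module.End A (Fk n → BB n A)) :
    Module.End A (Fk n × N → BB n A) where
  toFun v x := L (fun c => v (c, x.2)) x.1
  map_add' v w := by
    funext x
    show L ((fun c => v (c, x.2)) + fun c => w (c, x.2)) x.1 = _
    rw [map_add]
    rfl
  map_smul' r v := by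
    funext x
    show L (r • fun c => v (c, x.2)) x.1 = _
    rw [map_smul]
    rfl

lemma mcon_lift_apply (L : Module.End A (Fk n → BB n A)) (v : Fk n × N → BB n A) (x : Fk n × N) :
    mcon_lift N L v x = L (fun c => v (c, x.2)) x.1 := rfl

lemma mcon_lift_mul (L L' : Module.End A (Fk n → BB n A)) :
    mcon_lift N (L * L') = mcon_lift N L * mcon_lift N L' := rfl

lemma mcon_lift_add (L L' : Module.End A (Fk n → BB n A)) :
    mcon_lift N (L + L') = mcon_lift N L + mcon_lift N L' := rfl

lemma mcon_lift_zero : mcon_lift N (0 : Module.End A (Fk n → BB n A)) = 0 := rfl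

lemma mcon_lift_neg (L : Module.End A (Fk n → BB n A)) :
    mcon_lift N (-L) = -mcon_lift N L := rfl

/-- the signs -/
def mcon_sg (σ : N → ℤ) : Module.End A (Fk n × N → BB n A) where
  toFun v x := σ x.2 • v x
  map_add' v w := by
    funext x
    exact smul_add _ _ _
  map_smul' r v := by
    funext x
    exact smul_comm (σ x.2) r (v x)

lemma mcon_sg_lift (σ : N → ℤ) (L : Module.End A (Fk n → BB n A)) :
    mcon_sg σ * mcon_lift N L = mcon_lift N L * mcon_sg σ := by
  refine LinearMap.ext fun v => ?_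
  funext x
  show σ x.2 • L (fun c => v (c, x.2)) x.1 = L (σ x.2 • fun c => v (c, x.2)) x.1
  rw [map_zsmul]
  rfl

lemma mcon_sg_sq (σ : N → ℤ) (hσ : ∀ i, σ i * σ i = 1) :
    (mcon_sg σ * mcon_sg σ : Module.End A (Fk n × N → BB n A)) = 1 := by
  refine LinearMap.ext fun v => ?_
  funext x
  show σ x.2 • σ x.2 • v x = v x
  rw [smul_smul, hσ, one_smul]

/-- products of twisted lifts -/
lemma mcon_tw (σ : N → ℤ) (hσ : ∀ i, σ i * σ i = 1) (L L' : Module.End A (Fk n → BB n A)) :
    mcon_lift N L * mcon_sg σ * (mcon_lift N L' * mcon_sg σ) = mcon_lift N (L * L') := by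
  rw [mul_assoc, ← mul_assoc (mcon_sg σ), mcon_sg_lift, mul_assoc (mcon_lift N L'), mcon_sg_sq σ hσ,
    mul_one, mcon_lift_mul]

/-- the inclusion of the vacuum -/
def mcon_i0 : (N → A) →ₗ[A] (Fk n × N → BB n A) where
  toFun v x := if x.1 = (fun _ => false) then cc (v x.2) else 0
  map_add' v w := by
    funext x
    show (if x.1 = (fun _ => false) then (cc ((v + w) x.2) : BB n A) else 0) =
      (if x.1 = (fun _ => false) then cc (v x.2) else 0) +
        (if x.1 = (fun _ => false) then cc (w x.2) else 0)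
    split_ifs
    · rw [Pi.add_apply, map_add]
    · rw [add_zero]
  map_smul' r v := by
    funext x
    show (if x.1 = (fun _ => false) then (cc ((r • v) x.2) : BB n A) else 0) =
      r • (if x.1 = (fun _ => false) then (cc (v x.2) : BB n A) else 0)
    split_ifs
    · rw [Pi.smul_apply, smul_eq_mul, map_mul, MvPowerSeries.smul_eq_C_mul]
    · rw [smul_zero]

/-- the projection -/
def mcon_p0 : (Fk n × N → BB n A) →ₗ[A] (N → A) where
  toFun := KP
  map_add' v w := by
    funext i
    exact map_add _ _ _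
  map_smul' r v := by
    funext i
    show ev0 (r • v (fun _ => false, i)) = r * ev0 (v (fun _ => false, i))
    rw [MvPowerSeries.smul_eq_C_mul, map_mul]
    congr 1

variable [Fintype N] [DecidableEq N]

/-- a matrix acts on the total space -/
def mcon_M (M : Matrix (Fk n × N) (Fk n × N) (BB n A)) : Module.End A (Fk n × N → BB n A) :=
  (Matrix.mulVecLin M).restrictScalars A

omit [DecidableEq N] in
lemma mcon_M_apply (M : Matrix (Fk n × N) (Fk n × N) (BB n A)) (v : Fk n × N → BB n A) :
    mcon_M M v = M.mulVec v := rfl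

omit [DecidableEq N] in
lemma mcon_M_mul (M M' : Matrix (Fk n × N) (Fk n × N) (BB n A)) :
    mcon_M (M * M') = mcon_M M * mcon_M M' := by
  refine LinearMap.ext fun v => ?_
  rw [Module.End.mul_apply, mcon_M_apply, mcon_M_apply, mcon_M_apply, Matrix.mulVec_mulVec]

omit [DecidableEq N] in
lemma mcon_M_add (M M' : Matrix (Fk n × N) (Fk n × N) (BB n A)) :
    mcon_M (M + M') = mcon_M M + mcon_M M' := by
  refine LinearMap.ext fun v => ?_
  rw [LinearMap.add_apply, mcon_M_apply, mcon_M_apply, mcon_M_apply, Matrix.add_mulVec]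

lemma mcon_kron (M : Matrix (Fk n) (Fk n) (BB n A)) (σ : N → ℤ) :
    mcon_M (M ⊗ₖ (Matrix.diagonal fun i => ((σ i : ℤ) : BB n A))) =
      mcon_lift N (mcon_m M) * mcon_sg σ := by
  refine LinearMap.ext fun v => ?_
  funext x
  rw [mcon_M_apply, Module.End.mul_apply, mcon_lift_apply, mcon_m_apply, Matrix.mulVec, dotProduct,
    Fintype.sum_prod_type, Matrix.mulVec, dotProduct]
  refine Finset.sum_congr rfl fun c _ => ?_
  rw [Finset.sum_eq_single x.2]
  · rw [Matrix.kroneckerMap_apply, Matrix.diagonal_apply_eq, mul_assoc, ← zsmul_eq_mul]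
    rfl
  · intro j _ hj
    rw [Matrix.kroneckerMap_apply, Matrix.diagonal_apply_ne' _ hj, mul_zero, zero_mul]
  · intro h
    exact absurd (Finset.mem_univ _) h

omit [DecidableEq N] in
lemma mcon_one_kron (B : Matrix N N (BB n A)) (v : Fk n × N → BB n A) (x : Fk n × N) :
    mcon_M ((1 : Matrix (Fk n) (Fk n) (BB n A)) ⊗ₖ B) v x = ∑ j, B x.2 j * v (x.1, j) := by
  rw [mcon_M_apply, Matrix.mulVec, dotProduct, Fintype.sum_prod_type, Finset.sum_eq_single x.1]
  · refine Finset.sum_congr rfl fun j _ => ?_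
    rw [Matrix.kroneckerMap_apply, Matrix.one_apply_eq, one_mul]
  · intro c _ hc
    refine Finset.sum_eq_zero fun j _ => ?_
    rw [Matrix.kroneckerMap_apply, Matrix.one_apply_ne' hc, zero_mul, zero_mul]
  · intro h
    exact absurd (Finset.mem_univ _) h

end Tot

/-! ### squares -/

section Sq

variable {n : ℕ} {A : Type u} [CommRing A]

/-- the part of `DD h` with the annihilation operators -/
lemma mcon_m_io : mcon_m (∑ k : Fin n, (ee k : BB n A) • io (BB n A) k) = mcon_d0 := by
  refine LinearMap.ext fun v => ?_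
  funext a
  rw [mcon_m_apply, Matrix.sum_mulVec, Finset.sum_apply, mcon_d0_apply]
  refine Finset.sum_congr rfl fun k _ => ?_
  rw [Matrix.smul_mulVec, Pi.smul_apply, mcon_opv]
  split_ifs
  · rw [smul_eq_mul, mul_smul_comm]
    rfl
  · rw [smul_zero]

lemma mcon_DD (h : Fin n → BB n A) : DD h =
    ∑ k : Fin n, (ee k : BB n A) • io (BB n A) k + ∑ k : Fin n, h k • th (BB n A) k := by
  rw [DD, Finset.sum_add_distrib]

lemma mcon_gam_DD (h : Fin n → BB n A) : gam (BB n A) * DD h = -(DD h * gam (BB n A)) := by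
  rw [DD, Finset.mul_sum, Finset.sum_mul, ← Finset.sum_neg_distrib]
  refine Finset.sum_congr rfl fun k _ => ?_
  rw [mul_add, add_mul, Matrix.mul_smul, Matrix.mul_smul, gam_op, gam_op, Matrix.smul_mul,
    Matrix.smul_mul, smul_neg, smul_neg, neg_add]

lemma mcon_car (h : Fin n → BB n A) (i j : Fin n) :
    ((ee i : BB n A) • io (BB n A) i + h i • th (BB n A) i) *
      ((ee j : BB n A) • io (BB n A) j + h j • th (BB n A) j) +
    ((ee j : BB n A) • io (BB n A) j + h j • th (BB n A) j) *
      ((ee i : BB n A) • io (BB n A) i + h i • th (BB n A) i) =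
    if i = j then (ee i * h i + ee i * h i : BB n A) • (1 : Matrix (Fk n) (Fk n) (BB n A)) else 0 := by
  have e : ((ee i : BB n A) • io (BB n A) i + h i • th (BB n A) i) *
      ((ee j : BB n A) • io (BB n A) j + h j • th (BB n A) j) +
    ((ee j : BB n A) • io (BB n A) j + h j • th (BB n A) j) *
      ((ee i : BB n A) • io (BB n A) i + h i • th (BB n A) i) =
      (ee i * ee j : BB n A) • (io (BB n A) i * io (BB n A) j + io (BB n A) j * io (BB n A) i) +
      (h i * h j) • (th (BB n A) i * th (BB n A) j + th (BB n A) j * th (BB n A) i) +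
      (ee i * h j) • (io (BB n A) i * th (BB n A) j + th (BB n A) j * io (BB n A) i) +
      (ee j * h i) • (io (BB n A) j * th (BB n A) i + th (BB n A) i * io (BB n A) j) := by
    simp only [mul_add, add_mul, Matrix.smul_mul, Matrix.mul_smul, smul_smul, smul_add]
    rw [mul_comm (ee j : BB n A) (ee i), mul_comm (h j) (h i), mul_comm (h j) (ee i),
      mul_comm (h i) (ee j)]
    abel
  rw [e, io_io, th_th, io_th, io_th, smul_zero, smul_zero, zero_add, zero_add]
  by_cases hij : i = j
  · subst hij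
    rw [if_pos rfl, if_pos rfl, add_smul]
  · rw [if_neg hij, if_neg (Ne.symm hij), if_neg hij, smul_zero, smul_zero, add_zero]

lemma mcon_DD_sq [Algebra ℚ A] (h : Fin n → BB n A) :
    DD h * DD h = (∑ i, ee i * h i : BB n A) • (1 : Matrix (Fk n) (Fk n) (BB n A)) := by
  have e : DD h * DD h + DD h * DD h =
      (∑ i, ee i * h i : BB n A) • (1 : Matrix (Fk n) (Fk n) (BB n A)) +
      (∑ i, ee i * h i : BB n A) • (1 : Matrix (Fk n) (Fk n) (BB n A)) := by
    have e1 : DD h * DD h = ∑ i : Fin n, ∑ j : Fin n,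
        ((ee i : BB n A) • io (BB n A) i + h i • th (BB n A) i) *
          ((ee j : BB n A) • io (BB n A) j + h j • th (BB n A) j) := by
      rw [DD, Finset.sum_mul_sum]
    have e2 : DD h * DD h = ∑ i : Fin n, ∑ j : Fin n,
        ((ee j : BB n A) • io (BB n A) j + h j • th (BB n A) j) *
          ((ee i : BB n A) • io (BB n A) i + h i • th (BB n A) i) := by
      rw [e1, Finset.sum_comm]
    nth_rw 1 [e1]
    rw [e2, ← Finset.sum_add_distrib, ← add_smul, ← Finset.sum_add_distrib, Finset.sum_smul]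
    refine Finset.sum_congr rfl fun i _ => ?_
    rw [← Finset.sum_add_distrib, Finset.sum_congr rfl fun j _ => mcon_car h i j,
      Finset.sum_ite_eq, if_pos (Finset.mem_univ i)]
  ext a c α
  have e3 := congrArg (fun M : Matrix (Fk n) (Fk n) (BB n A) => MvPowerSeries.coeff α (M a c)) e
  simp only [Matrix.add_apply, map_add] at e3
  rw [← two_smul ℚ, ← two_smul ℚ] at e3
  exact smul_right_injective A (two_ne_zero (α := ℚ)) e3

end Sq

/-! ### the theorem -/

section Main

variable {n : ℕ} {A : Type u} [CommRing A] {N : Type}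

/-- the creation part lowers nothing -/
def mcon_L (k : ℕ) (v : Fk n × N → BB n A) : Prop := ∀ x, mcon_nn x.1 < k → v x = 0

lemma mcon_L_top {v : Fk n × N → BB n A} (h : mcon_L (n + 1) v) : v = 0 := by
  funext x
  exact h x (Nat.lt_succ_of_le (mcon_nn_le x.1))

lemma mcon_thh_apply (h : Fin n → BB n A) (w : Fk n → BB n A) (a : Fk n) :
    mcon_m (∑ k : Fin n, h k • th (BB n A) k) w a =
      ∑ k : Fin n, if a k = true then sgn k a • (h k * w (update a k false)) else 0 := by
  rw [mcon_m_apply, Matrix.sum_mulVec, Finset.sum_apply]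
  refine Finset.sum_congr rfl fun k _ => ?_
  rw [Matrix.smul_mulVec, Pi.smul_apply, mcon_opv]
  split_ifs
  · rw [smul_eq_mul, mul_smul_comm]
    rfl
  · rw [smul_zero]

lemma mcon_L_thh (h : Fin n → BB n A) (σ : N → ℤ) {k : ℕ} {v : Fk n × N → BB n A}
    (hv : mcon_L k v) :
    mcon_L k ((mcon_lift N (mcon_m (∑ k : Fin n, h k • th (BB n A) k)) * mcon_sg σ :
      Module.End A (Fk n × N → BB n A)) v) := by
  intro x hx
  rw [Module.End.mul_apply, mcon_lift_apply, mcon_thh_apply]
  refine Finset.sum_eq_zero fun j _ => ?_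
  split_ifs with h1
  · have h2 := mcon_nn_update h1
    have h3 : v (update x.1 j false, x.2) = 0 := hv _ (by show mcon_nn (update x.1 j false) < k; omega)
    show sgn j x.1 • (h j * (σ x.2 • v (update x.1 j false, x.2))) = 0
    rw [h3, smul_zero, mul_zero, smul_zero]
  · rfl

lemma mcon_L_d [Fintype N] (B : Matrix N N (BB n A)) {k : ℕ} {v : Fk n × N → BB n A}
    (hv : mcon_L k v) :
    mcon_L k (mcon_M ((1 : Matrix (Fk n) (Fk n) (BB n A)) ⊗ₖ B) v) := by
  intro x hx
  rw [mcon_one_kron]
  refine Finset.sum_eq_zero fun j _ => ?_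
  rw [hv (x.1, j) hx, mul_zero]

lemma mcon_L_H0 [Algebra ℚ A] (σ : N → ℤ) {k : ℕ} {v : Fk n × N → BB n A}
    (hv : mcon_L k v) :
    mcon_L (k + 1) ((mcon_lift N (mcon_R * mcon_dd) * mcon_sg σ :
      Module.End A (Fk n × N → BB n A)) v) := by
  intro x hx
  rw [Module.End.mul_apply, mcon_lift_apply, Module.End.mul_apply, mcon_R_apply, mcon_dd_apply,
    Finset.sum_eq_zero, map_zero]
  intro j _
  split_ifs with h1
  · have h2 := mcon_nn_update h1
    have h3 : v (update x.1 j false, x.2) = 0 := hv _ (by show mcon_nn (update x.1 j false) < k; omega)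
    show sgn j x.1 • mcon_pd j (σ x.2 • v (update x.1 j false, x.2)) = 0
    rw [h3, smul_zero, map_zero, smul_zero]
  · rfl

lemma mcon_par_vac : par (fun _ => false : Fk n) = 1 := by
  rw [par]
  exact Finset.prod_eq_one fun j _ => rfl

end Main

theorem m_CON : S_CON := by
  intro n A _ _ N _ _ T hT f h hh σ hσ γ d hγ hγd hdd
  have hγT : γ.map T = Matrix.diagonal fun i => ((σ i : ℤ) : BB n A) := by
    rw [hγ, Matrix.diagonal_map (map_zero T)]
    congr 1
    funext i
    exact map_intCast T (σ i)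
  have hγγ : γ * γ = 1 := by
    rw [hγ, Matrix.diagonal_mul_diagonal, ← Matrix.diagonal_one]
    congr 1
    funext i
    rw [← Int.cast_mul, hσ, Int.cast_one]
  have hγγT : γ.map T * γ.map T = 1 := by
    rw [← Matrix.map_mul, hγγ]
    exact Matrix.map_one T (map_zero T) (map_one T)
  have hγdT : γ.map T * d.map T = -(d.map T * γ.map T) := by
    rw [← Matrix.map_mul, hγd, ← Matrix.map_mul]
    ext i j
    rw [Matrix.map_apply, Matrix.neg_apply, map_neg, Matrix.neg_apply, Matrix.map_apply]
  have hddT : d.map T * d.map T = (T f) • (1 : Matrix N N (BB n A)) := by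
    rw [← Matrix.map_mul, hdd]
    ext i j
    rw [Matrix.map_apply, Matrix.smul_apply, Matrix.smul_apply, smul_eq_mul, smul_eq_mul, map_mul,
      Matrix.one_apply, Matrix.one_apply]
    split_ifs
    · rw [map_one]
    · rw [map_zero]
  have hKK : KD T h γ d * KD T h γ d = (cc f : BB n A) • 1 := by
    rw [KD, add_mul, mul_add, mul_add, ← Matrix.mul_kronecker_mul, ← Matrix.mul_kronecker_mul,
      ← Matrix.mul_kronecker_mul, ← Matrix.mul_kronecker_mul, mul_one, one_mul, one_mul, hγγT,
      hγdT, hddT, mcon_DD_sq, hh, Matrix.kronecker_smul, Matrix.smul_kronecker,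
      Matrix.one_kronecker_one]
    rw [show DD h ⊗ₖ (-(d.map T * γ.map T)) = -(DD h ⊗ₖ (d.map T * γ.map T)) from ?_]
    · rw [add_assoc, neg_add_cancel_left, ← add_smul, sub_add_cancel]
    · ext x y
      simp [Matrix.kroneckerMap_apply]
  have hGK : KG T γ * KD T h γ d = -(KD T h γ d * KG T γ) := by
    rw [KD, KG, add_mul, mul_add, ← Matrix.mul_kronecker_mul, ← Matrix.mul_kronecker_mul,
      ← Matrix.mul_kronecker_mul, ← Matrix.mul_kronecker_mul, mul_one, one_mul,
      hγdT, mcon_gam_DD]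
    ext x y
    simp [Matrix.kroneckerMap_apply]
    ring
  -- the operators
  set δ : Module.End A (Fk n × N → BB n A) := mcon_lift N mcon_d0 * mcon_sg σ with hδ
  set D : Module.End A (Fk n × N → BB n A) := mcon_M (KD T h γ d) with hD
  set H0 : Module.End A (Fk n × N → BB n A) := mcon_lift N (mcon_R * mcon_dd) * mcon_sg σ with hH0
  set Γ : Module.End A (Fk n × N → BB n A) := mcon_M (KG T γ) with hΓ
  have hD' : D = mcon_lift N (mcon_m (DD h)) * mcon_sg σ +
      mcon_M ((1 : Matrix (Fk n) (Fk n) (BB n A)) ⊗ₖ d.map T) := by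
    rw [hD, KD, mcon_M_add, hγT, mcon_kron]
  have hΓ' : Γ = mcon_lift N (mcon_m (gam (BB n A))) * mcon_sg σ := by
    rw [hΓ, KG, hγT, mcon_kron]
  have hDδ : D - δ = mcon_lift N (mcon_m (∑ k : Fin n, h k • th (BB n A) k)) * mcon_sg σ +
      mcon_M ((1 : Matrix (Fk n) (Fk n) (BB n A)) ⊗ₖ d.map T) := by
    rw [hD', hδ, mcon_DD, mcon_m_add, mcon_m_io, mcon_lift_add, add_mul]
    abel
  have hH0v : ∀ v x, H0 v x = mcon_dvd (mcon_nn x.1) (∑ k : Fin n, if x.1 k = true then
      sgn k x.1 • mcon_pd k (σ x.2 • v (update x.1 k false, x.2)) else 0) := by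
    intro v x
    rw [hH0, Module.End.mul_apply, mcon_lift_apply, Module.End.mul_apply, mcon_R_apply,
      mcon_dd_apply]
    rfl
  have hδv : ∀ v x, δ v x = ∑ k : Fin n, if x.1 k = false then
      sgn k x.1 • (ee k * (σ x.2 • v (update x.1 k true, x.2))) else 0 := by
    intro v x
    rw [hδ, Module.End.mul_apply, mcon_lift_apply, mcon_d0_apply]
    rfl
  have hvac : ∀ (v : N → A) (x : Fk n × N), mcon_i0 v x =
      if x.1 = (fun _ => false) then (cc (v x.2) : BB n A) else 0 := fun _ _ => rfl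
  refine mcon_pert δ D H0 Γ mcon_i0 mcon_p0 (Matrix.mulVecLin d)
    (Matrix.mulVecLin γ) f ?_ ?_ ?_ ?_ ?_ ?_ ?_ ?_ ?_ ?_ ?_ ?_ ?_ ?_
  · -- e1
    intro v
    have e : δ * H0 + H0 * δ =
        mcon_lift N (mcon_R * (mcon_d0 * mcon_dd + mcon_dd * mcon_d0)) := by
      rw [hδ, hH0, mcon_tw σ hσ, mcon_tw σ hσ, ← mcon_lift_add, ← mul_assoc, ← mcon_R_d0, mul_add,
        mul_assoc, mul_assoc]
    have e1 : (δ * H0 + H0 * δ) v = δ (H0 v) + H0 (δ v) := rfl
    rw [← e1, e]
    funext x
    rw [mcon_lift_apply, mcon_hom]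
    rfl
  · -- e2
    intro v
    have e : H0 * H0 = 0 := by
      rw [hH0, mcon_tw σ hσ]
      have e1 : (mcon_R * mcon_dd * (mcon_R * mcon_dd) : Module.End A (Fk n → BB n A)) = 0 := by
        rw [mul_assoc, ← mul_assoc mcon_dd, ← mcon_R_dd, mul_assoc mcon_R mcon_dd, mcon_dd_sq,
          mul_zero, mul_zero]
      rw [e1, mcon_lift_zero]
    exact congrArg (fun L : Module.End A (Fk n × N → BB n A) => L v) e
  · -- e3
    intro v
    funext x
    rw [hH0v, Finset.sum_eq_zero, map_zero]
    · rfl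
    · intro k _
      rw [hvac]
      split_ifs
      · rw [map_zsmul]
        have h6 : mcon_pd k (cc (v x.2) : BB n A) = 0 := MvPowerSeries.pderiv_C
        rw [h6, smul_zero, smul_zero]
      · rw [smul_zero, map_zero, smul_zero]
      · rfl
  · -- e4
    intro v
    funext i
    show ev0 (H0 v (fun _ => false, i)) = 0
    rw [hH0v, Finset.sum_eq_zero, map_zero, map_zero]
    intro k _
    exact if_neg (by simp)
  · -- e5
    intro v
    funext x
    rw [hδv, Finset.sum_eq_zero]
    · rfl
    · intro k _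
      split_ifs with h6
      · have h7 : (update x.1 k true) ≠ fun _ => false := by
          intro h8
          have h9 := congrFun h8 k
          simp at h9
        rw [hvac, if_neg h7, smul_zero, mul_zero, smul_zero]
      · rfl
  · -- e6
    intro v
    have e : δ * δ = 0 := by
      rw [hδ, mcon_tw σ hσ, mcon_d0_sq, mcon_lift_zero]
    exact congrArg (fun L : Module.End A (Fk n × N → BB n A) => L v) e
  · -- e7
    intro v
    funext i
    show ev0 (mcon_i0 v (fun _ => false, i)) = v i
    rw [hvac, if_pos rfl]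
    exact MvPowerSeries.constantCoeff_C _
  · -- e8
    intro v
    funext i
    show ev0 (D v (fun _ => false, i)) = (d.mulVec fun j => ev0 (v (fun _ => false, j))) i
    rw [hD', LinearMap.add_apply, Pi.add_apply, mcon_one_kron, Module.End.mul_apply,
      mcon_lift_apply, mcon_DD, mcon_m_add, LinearMap.add_apply, Pi.add_apply, mcon_m_io,
      mcon_d0_apply, mcon_thh_apply, map_add, map_add, map_sum, map_sum, map_sum,
      Finset.sum_eq_zero, Finset.sum_eq_zero, zero_add, zero_add, Matrix.mulVec, dotProduct]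
    · refine Finset.sum_congr rfl fun j _ => ?_
      rw [map_mul, Matrix.map_apply, hT]
    · intro k _
      rw [if_neg (by simp), map_zero]
    · intro k _
      rw [if_pos rfl, map_zsmul, map_mul]
      have h6 : ev0 (ee k : BB n A) = 0 := MvPowerSeries.constantCoeff_X k
      rw [h6, zero_mul, smul_zero]
  · -- e9
    intro v
    have e : D * D = mcon_M ((cc f : BB n A) • 1) := by
      rw [hD, ← mcon_M_mul, hKK]
    have e1 : (D * D) v = D (D v) := rfl
    rw [← e1, e, mcon_M_apply, Matrix.smul_mulVec, Matrix.one_mulVec]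
    funext x
    exact (MvPowerSeries.smul_eq_C_mul _ _).symm
  · -- e10
    refine ⟨n + 1, ?_⟩
    refine LinearMap.ext fun v => ?_
    have h7 : ∀ k (w : Fk n × N → BB n A), mcon_L k w → mcon_L (k + 1) (H0 ((D - δ) w)) := by
      intro k w hw
      rw [hH0]
      apply mcon_L_H0
      rw [hDδ, LinearMap.add_apply]
      intro x hx
      rw [Pi.add_apply, mcon_L_thh h σ hw x hx, mcon_L_d (d.map T) hw x hx, add_zero]
    have h6 : ∀ k (v : Fk n × N → BB n A),
        mcon_L k (((H0 ∘ₗ (D - δ) : Module.End A (Fk n × N → BB n A)) ^ k) v) := by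
      intro k
      induction k with
      | zero =>
        intro v x hx
        exact absurd hx (Nat.not_lt_zero _)
      | succ k ih =>
        intro v
        rw [pow_succ', Module.End.mul_apply, LinearMap.comp_apply]
        exact h7 k _ (ih v)
    exact mcon_L_top (h6 (n + 1) v)
  · -- g1
    intro v
    have e : Γ * δ + δ * Γ = 0 := by
      rw [hΓ', hδ, mcon_tw σ hσ, mcon_tw σ hσ, ← mcon_lift_add, mcon_gam_d0, mcon_lift_zero]
    exact eq_neg_of_add_eq_zero_left (congrArg (fun L : Module.End A (Fk n × N → BB n A) => L v) e)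
  · -- g2
    intro v
    have e : Γ * D + D * Γ = 0 := by
      rw [hΓ, hD, ← mcon_M_mul, ← mcon_M_mul, ← mcon_M_add, hGK, neg_add_cancel]
      refine LinearMap.ext fun w => ?_
      rw [mcon_M_apply, Matrix.zero_mulVec, LinearMap.zero_apply]
    exact eq_neg_of_add_eq_zero_left (congrArg (fun L : Module.End A (Fk n × N → BB n A) => L v) e)
  · -- g3
    intro v
    have e : Γ * H0 + H0 * Γ = 0 := by
      rw [hΓ', hH0, mcon_tw σ hσ, mcon_tw σ hσ, ← mcon_lift_add, ← mul_assoc, mcon_gam_R,
        mul_assoc, mul_assoc, ← mul_add, mcon_gam_dd, mul_zero, mcon_lift_zero]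
    exact eq_neg_of_add_eq_zero_left (congrArg (fun L : Module.End A (Fk n × N → BB n A) => L v) e)
  · -- g4
    intro v
    funext x
    rw [hΓ', Module.End.mul_apply, mcon_lift_apply, mcon_gam_apply]
    show par x.1 • (σ x.2 • mcon_i0 v x) = mcon_i0 (γ.mulVec v) x
    rw [hvac, hvac]
    split_ifs with h6
    · rw [h6, mcon_par_vac, one_smul, hγ, Matrix.mulVec_diagonal, map_mul, map_intCast,
        zsmul_eq_mul]
    · rw [smul_zero, smul_zero]

end

end Pool.Agent.MFI
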