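import Pool.Agent.MFI.St

/-!
# Isotopy invariance of matrix factorizations (MP_c8c50b_ag), module FAM (helper14)

First properties of the family.
-/

set_option autoImplicit false

open Finset.HasAntidiagonal (antidiagonal mem_antidiagonal)
open PowerSeries

namespace Pool.Agent.MFI

section MFam

universe u

variable {n : ℕ} {A : Type u} [CommRing A]

/-- the coefficientwise derivative -/
private noncomputable def mfamD (𝔡 : Cder n A) (k : Fin n) : PowerSeries A →+ PowerSeries A where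
  toFun X := PowerSeries.mk fun m => 𝔡.D k (coeff m X)
  map_zero' := by ext m; simp
  map_add' X Y := by ext m; simp

private lemma mfam_coeffD (𝔡 : Cder n A) (k : Fin n) (X : PowerSeries A) (m : ℕ) :
    coeff m (mfamD 𝔡 k X) = 𝔡.D k (coeff m X) := by
  simp [mfamD]

private lemma mfam_leib (𝔡 : Cder n A) (k : Fin n) (X Y : PowerSeries A) :
    mfamD 𝔡 k (X * Y) = mfamD 𝔡 k X * Y + X * mfamD 𝔡 k Y := by
  ext m
  rw [mfam_coeffD, map_add, coeff_mul, coeff_mul, coeff_mul, map_sum, ← Finset.sum_add_distrib]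
  refine Finset.sum_congr rfl fun p _ => ?_
  rw [𝔡.leib, mfam_coeffD, mfam_coeffD]

private lemma mfam_dtD (𝔡 : Cder n A) (k : Fin n) (X : PowerSeries A) :
    dt (mfamD 𝔡 k X) = mfamD 𝔡 k (dt X) := by
  ext m
  rw [coeff_dt, mfam_coeffD, mfam_coeffD, coeff_dt, map_nsmul]

variable [Algebra ℚ A] {𝔡 : Cder n A} {I : Ideal A} {f : A}

private lemma mfam_vel (Φ : Fam 𝔡 I f) (a : A) :
    dt (Φ.φ a) = ∑ k, Φ.w k * Φ.φ (𝔡.D k a) := Φ.vel a

private lemma mfam_w_mem (Φ : Fam 𝔡 I f) {m : ℕ}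
    (h : ∀ i ≤ m, ∀ j, coeff i (Φ.φ (𝔡.D j f)) ∈ I) (i : ℕ) (hi : i ≤ m) (k : Fin n) :
    coeff i (Φ.w k) ∈ I := by
  rw [Fam.w, map_sum]
  refine I.sum_mem fun j _ => ?_
  rw [coeff_mul]
  refine I.sum_mem fun p hp => ?_
  have h1 := mem_antidiagonal.1 hp
  exact I.mul_mem_left _ (h p.2 (by omega) j)

private lemma mfam_step (Φ : Fam 𝔡 I f) {m : ℕ}
    (h : ∀ i ≤ m, ∀ j, coeff i (Φ.φ (𝔡.D j f)) ∈ I) (a : A) :
    coeff (m + 1) (Φ.φ a) ∈ I := by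
  have h1 : coeff m (dt (Φ.φ a)) ∈ I := by
    rw [mfam_vel, map_sum]
    refine I.sum_mem fun k _ => ?_
    rw [coeff_mul]
    refine I.sum_mem fun p hp => ?_
    have h2 := mem_antidiagonal.1 hp
    exact I.mul_mem_right _ (mfam_w_mem Φ h p.1 (by omega) k)
  rw [coeff_dt] at h1
  have h2 : ((m + 1 : ℚ)⁻¹) • ((m + 1) • coeff (m + 1) (Φ.φ a)) = coeff (m + 1) (Φ.φ a) := by
    have h3 : ((m + 1) • coeff (m + 1) (Φ.φ a) : A) = ((m + 1 : ℚ)) • coeff (m + 1) (Φ.φ a) := by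
      rw [show ((m + 1 : ℚ)) = ((m + 1 : ℕ) : ℚ) by push_cast; rfl, Nat.cast_smul_eq_nsmul]
    rw [h3, smul_smul, inv_mul_cancel₀ (by positivity), one_smul]
  rw [← h2, Algebra.smul_def]
  exact I.mul_mem_left _ h1

private lemma mfam_key (Φ : Fam 𝔡 I f) (hf : ∀ k, 𝔡.D k f ∈ I) (m : ℕ) :
    ∀ i ≤ m, ∀ j, coeff i (Φ.φ (𝔡.D j f)) ∈ I := by
  induction m with
  | zero =>
    intro i hi j
    obtain rfl : i = 0 := by omega
    rw [Φ.init]
    exact hf j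
  | succ m ih =>
    intro i hi j
    rcases Nat.lt_or_ge m i with h | h
    · obtain rfl : i = m + 1 := by omega
      exact mfam_step Φ ih _
    · exact ih i h j

private lemma mfam_one (Φ : Fam 𝔡 I f) (hf : ∀ k, 𝔡.D k f ∈ I) (a : A) (m : ℕ) :
    coeff (m + 1) (Φ.φ a) ∈ I := mfam_step Φ (mfam_key Φ hf m) a

private lemma mfam_pow (Φ : Fam 𝔡 I f) (hf : ∀ k, 𝔡.D k f ∈ I) (N : ℕ) :
    ∀ a ∈ I ^ N, (fA I).InF N (Φ.φ a) := by
  induction N with
  | zero =>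
    intro a _ m
    exact (fA I).zero _
  | succ N ih =>
    intro a ha
    rw [pow_succ] at ha
    refine Submodule.mul_induction_on ha ?_ ?_
    · intro x hx y hy
      have h1 : (fA I).InF 1 (Φ.φ y) := by
        intro m
        rw [mem_fA, pow_one]
        rcases m with _ | m
        · rw [Φ.init]
          exact hy
        · exact mfam_one Φ hf y m
      have h2 := (ih x hx).mul h1
      rw [← map_mul] at h2
      exact h2
    · intro x y hx hy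
      rw [map_add]
      exact hx.add hy

private lemma mfam_f (Φ : Fam 𝔡 I f) : Φ.φ f = C f := by
  have h1 : dt (Φ.φ f) = 0 := by
    have h2 : dt (Φ.φ f) = - dt (Φ.φ f) := by
      have e1 : dt (Φ.φ f) = ∑ k, ∑ j, Φ.b k j * Φ.φ (𝔡.D j f) * Φ.φ (𝔡.D k f) := by
        rw [Φ.vel]
        refine Finset.sum_congr rfl fun k _ => ?_
        rw [Finset.sum_mul]
      have e2 : dt (Φ.φ f) = ∑ k, ∑ j, Φ.b j k * Φ.φ (𝔡.D k f) * Φ.φ (𝔡.D j f) := by
        rw [e1]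
        exact Finset.sum_comm
      calc dt (Φ.φ f) = ∑ k, ∑ j, Φ.b j k * Φ.φ (𝔡.D k f) * Φ.φ (𝔡.D j f) := e2
        _ = - ∑ k, ∑ j, Φ.b k j * Φ.φ (𝔡.D j f) * Φ.φ (𝔡.D k f) := by
          rw [← Finset.sum_neg_distrib]
          refine Finset.sum_congr rfl fun k _ => ?_
          rw [← Finset.sum_neg_distrib]
          refine Finset.sum_congr rfl fun j _ => ?_
          rw [Φ.anti j k]
          ring
        _ = - dt (Φ.φ f) := by rw [← e1]
    have h3 : (1 + 1) • dt (Φ.φ f) = 0 := by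
      rw [add_smul, one_smul]
      nth_rewrite 2 [h2]
      exact add_neg_cancel _
    exact nsmul_inj h3
  rw [eq_C_of_dt h1, Φ.init]

private lemma mfam_x (Φ : Fam 𝔡 I f) (j : Fin n) : dt (Φ.φ (𝔡.x j)) = Φ.w j := by
  rw [mfam_vel, Finset.sum_eq_single j]
  · rw [𝔡.dual, if_pos rfl, map_one, mul_one]
  · intro k _ hk
    rw [𝔡.dual, if_neg hk, map_zero, mul_zero]
  · intro h
    exact absurd (Finset.mem_univ j) h

/-- the defect of the chain rule -/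
private noncomputable def mfamE (Φ : Fam 𝔡 I f) (k : Fin n) (a : A) : PowerSeries A :=
  mfamD 𝔡 k (Φ.φ a) - ∑ l, Φ.φ (𝔡.D l a) * mfamD 𝔡 k (Φ.φ (𝔡.x l))

private lemma mfam_dtE (Φ : Fam 𝔡 I f) (k : Fin n) (a : A) :
    dt (mfamE Φ k a) = ∑ i, Φ.w i * mfamE Φ k (𝔡.D i a) := by
  have e1 : dt (mfamD 𝔡 k (Φ.φ a)) =
      ∑ i, (mfamD 𝔡 k (Φ.w i) * Φ.φ (𝔡.D i a) + Φ.w i * mfamD 𝔡 k (Φ.φ (𝔡.D i a))) := by
    rw [mfam_dtD, mfam_vel, map_sum]
    exact Finset.sum_congr rfl fun i _ => mfam_leib 𝔡 k _ _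
  have e2 : dt (∑ l, Φ.φ (𝔡.D l a) * mfamD 𝔡 k (Φ.φ (𝔡.x l))) =
      ∑ l, ((∑ i, Φ.w i * Φ.φ (𝔡.D i (𝔡.D l a))) * mfamD 𝔡 k (Φ.φ (𝔡.x l)) +
        Φ.φ (𝔡.D l a) * mfamD 𝔡 k (Φ.w l)) := by
    rw [map_sum]
    refine Finset.sum_congr rfl fun l _ => ?_
    rw [dt_mul, mfam_vel, mfam_dtD, mfam_x]
  have e3 : ∑ l, (∑ i, Φ.w i * Φ.φ (𝔡.D i (𝔡.D l a))) * mfamD 𝔡 k (Φ.φ (𝔡.x l)) =
      ∑ i, Φ.w i * ∑ l, Φ.φ (𝔡.D l (𝔡.D i a)) * mfamD 𝔡 k (Φ.φ (𝔡.x l)) := by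
    simp only [Finset.sum_mul, Finset.mul_sum]
    rw [Finset.sum_comm]
    refine Finset.sum_congr rfl fun i _ => Finset.sum_congr rfl fun l _ => ?_
    rw [𝔡.comm i l]
    ring
  simp only [mfamE]
  rw [map_sub, e1, e2, Finset.sum_add_distrib, Finset.sum_add_distrib, e3]
  simp only [mul_sub, Finset.sum_sub_distrib]
  have e4 : ∑ i, mfamD 𝔡 k (Φ.w i) * Φ.φ (𝔡.D i a) = ∑ l, Φ.φ (𝔡.D l a) * mfamD 𝔡 k (Φ.w l) :=
    Finset.sum_congr rfl fun i _ => mul_comm _ _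
  rw [e4]
  abel

private lemma mfam_E0 (Φ : Fam 𝔡 I f) (k : Fin n) (a : A) : coeff 0 (mfamE Φ k a) = 0 := by
  have e1 : ∀ l, coeff 0 (Φ.φ (𝔡.D l a) * mfamD 𝔡 k (Φ.φ (𝔡.x l))) =
      𝔡.D l a * 𝔡.D k (𝔡.x l) := by
    intro l
    rw [coeff_zero_mul', Φ.init, mfam_coeffD, Φ.init]
  rw [mfamE, map_sub, mfam_coeffD, Φ.init, map_sum, Finset.sum_congr rfl fun l _ => e1 l,
    Finset.sum_eq_single k]
  · rw [𝔡.dual, if_pos rfl, mul_one, sub_self]
  · intro l _ hl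
    rw [𝔡.dual, if_neg (Ne.symm hl), mul_zero]
  · intro h
    exact absurd (Finset.mem_univ k) h

private lemma mfam_chain (Φ : Fam 𝔡 I f) (k : Fin n) (a : A) : mfamE Φ k a = 0 := by
  refine fl_unique Φ.w (fun i a => 𝔡.D i a) (fun a => mfamE Φ k a) (fun _ => 0) ?_ ?_ ?_ a
  · intro y
    rw [mfam_E0, map_zero]
  · intro y
    exact mfam_dtE Φ k y
  · intro y
    simp

end MFam

universe u

theorem m_FAM : S_FAM.{u} := by
  intro n A _ _ 𝔡 I f Φ hf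
  refine ⟨?_, ?_, ?_, ?_, mfam_f Φ, mfam_x Φ, ?_⟩
  · intro k m
    rw [mem_fA, pow_one]
    exact mfam_w_mem Φ (mfam_key Φ hf m) m le_rfl k
  · intro k
    rw [Fam.w]
    exact Filt.Rst.sum _ _ fun j _ => (Φ.brst k j).mul (Φ.rst _)
  · intro a m
    rw [mem_fA, pow_one]
    rcases m with _ | m
    · rw [map_sub, Φ.init]
      simp
    · rw [map_sub, coeff_C, if_neg (Nat.succ_ne_zero m), sub_zero]
      exact mfam_one Φ hf a m
  · intro N
    exact mfam_pow Φ hf N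
  · intro k m a
    have h := mfam_chain Φ k a
    rw [mfamE, sub_eq_zero] at h
    rw [← mfam_coeffD, h, map_sum]
    refine Finset.sum_congr rfl fun l _ => ?_
    rw [coeff_mul]
    refine Finset.sum_congr rfl fun p _ => ?_
    rw [mfam_coeffD]

end Pool.Agent.MFI
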