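import Pool.Agent.MFI.St2
import Pool.Agent.MFI.HamB

/-!
# Isotopy invariance of matrix factorizations (MP_c8c50b_ag), module FINB (helper18)

An automorphism of the kernel of the diagonal gives an equivalence of functors.
-/

set_option autoImplicit false

open PowerSeries
open scoped Kronecker

namespace Pool.Agent.MFI

universe u

noncomputable section

section Basic

variable {n : ℕ} {A : Type u} [CommRing A]

/-- a matrix over `BB n A` as an `A`-linear map -/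
def mfinb_mv {I J : Type} [Fintype J] (M : Matrix I J (BB n A)) :
    (J → BB n A) →ₗ[A] (I → BB n A) where
  toFun v := M.mulVec v
  map_add' := Matrix.mulVec_add M
  map_smul' a v := by rw [RingHom.id_apply, Matrix.mulVec_smul]

lemma mfinb_mv_apply {I J : Type} [Fintype J] (M : Matrix I J (BB n A)) (v : J → BB n A) :
    mfinb_mv M v = M.mulVec v := rfl

/-- `1 ⊗ T(u)` -/
def mfinb_KK {M N : Type} (T : A →+* BB n A) (u : Matrix M N A) :
    Matrix (Fk n × M) (Fk n × N) (BB n A) :=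
  (1 : Matrix (Fk n) (Fk n) (BB n A)) ⊗ₖ u.map T

/-- `KP` as a linear map -/
def mfinb_KPl {n : ℕ} {A : Type u} [CommRing A] (N : Type) :
    (Fk n × N → BB n A) →ₗ[A] (N → A) where
  toFun v := KP v
  map_add' v w := by
    funext i
    simp only [KP, Pi.add_apply, map_add]
  map_smul' a v := by
    funext i
    simp only [KP, Pi.smul_apply, RingHom.id_apply, MvPowerSeries.smul_eq_C_mul, map_mul,
      MvPowerSeries.constantCoeff_C, smul_eq_mul]

lemma mfinb_KPl_apply {N : Type} (v : Fk n × N → BB n A) : mfinb_KPl N v = KP v := rfl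

variable (T : A →+* BB n A)

lemma mfinb_KK_mul {L M N : Type} [Fintype M] (u : Matrix L M A) (v : Matrix M N A) :
    mfinb_KK T u * mfinb_KK T v = mfinb_KK T (u * v) := by
  classical
  rw [mfinb_KK, mfinb_KK, mfinb_KK, ← Matrix.mul_kronecker_mul, Matrix.map_mul, one_mul]

lemma mfinb_map_add {M N : Type} {R S : Type*} [CommRing R] [CommRing S] (T : R →+* S)
    (u v : Matrix M N R) : (u + v).map T = u.map T + v.map T := by
  ext i j
  simp

lemma mfinb_map_neg {M N : Type} {R S : Type*} [CommRing R] [CommRing S] (T : R →+* S)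
    (u : Matrix M N R) : (-u).map T = -(u.map T) := by
  ext i j
  simp

lemma mfinb_kron_neg {I J : Type} {R : Type*} [CommRing R] (a : Matrix I I R) (b : Matrix J J R) :
    a ⊗ₖ (-b) = -(a ⊗ₖ b) := by
  ext i j
  simp [Matrix.kroneckerMap_apply]

lemma mfinb_neg_kron {I J : Type} {R : Type*} [CommRing R] (a : Matrix I I R) (b : Matrix J J R) :
    (-a) ⊗ₖ b = -(a ⊗ₖ b) := by
  ext i j
  simp [Matrix.kroneckerMap_apply]

lemma mfinb_KK_add {M N : Type} (u v : Matrix M N A) :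
    mfinb_KK T (u + v) = mfinb_KK T u + mfinb_KK T v := by
  rw [mfinb_KK, mfinb_KK, mfinb_KK, mfinb_map_add, Matrix.kronecker_add]

lemma mfinb_KK_sub {M N : Type} (u v : Matrix M N A) :
    mfinb_KK T (u - v) = mfinb_KK T u - mfinb_KK T v := by
  rw [eq_sub_iff_add_eq, ← mfinb_KK_add, sub_add_cancel]

lemma mfinb_KK_one {N : Type} [DecidableEq N] :
    mfinb_KK T (1 : Matrix N N A) = 1 := by
  rw [mfinb_KK, Matrix.map_one T (map_zero T) (map_one T), Matrix.one_kronecker_one]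

lemma mfinb_KK_smul {M N : Type} (a : A) (u : Matrix M N A) :
    mfinb_KK T (a • u) = T a • mfinb_KK T u := by
  have h1 : (a • u).map T = T a • u.map T := by
    ext i j
    simp
  rw [mfinb_KK, mfinb_KK, h1, Matrix.kronecker_smul]

section Sq

variable {N M : Type} [Fintype N] [DecidableEq N]

lemma mfinb_KD_KK (h : Fin n → BB n A) (γ d : Matrix N N A) (u : Matrix N M A) :
    KD T h γ d * mfinb_KK T u = DD h ⊗ₖ (γ * u).map T + mfinb_KK T (d * u) := by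
  rw [KD, mfinb_KK, mfinb_KK, Matrix.add_mul, ← Matrix.mul_kronecker_mul,
    ← Matrix.mul_kronecker_mul, mul_one, one_mul, Matrix.map_mul, Matrix.map_mul]

lemma mfinb_KK_KD (h : Fin n → BB n A) (γ d : Matrix N N A) (u : Matrix M N A) :
    mfinb_KK T u * KD T h γ d = DD h ⊗ₖ (u * γ).map T + mfinb_KK T (u * d) := by
  rw [KD, mfinb_KK, mfinb_KK, Matrix.mul_add, ← Matrix.mul_kronecker_mul,
    ← Matrix.mul_kronecker_mul, one_mul, one_mul, Matrix.map_mul, Matrix.map_mul]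

lemma mfinb_KG_KK (γ : Matrix N N A) (u : Matrix N M A) :
    KG T γ * mfinb_KK T u = gam (BB n A) ⊗ₖ (γ * u).map T := by
  rw [KG, mfinb_KK, ← Matrix.mul_kronecker_mul, mul_one, Matrix.map_mul]

lemma mfinb_KK_KG (γ : Matrix N N A) (u : Matrix M N A) :
    mfinb_KK T u * KG T γ = gam (BB n A) ⊗ₖ (u * γ).map T := by
  rw [KG, mfinb_KK, ← Matrix.mul_kronecker_mul, one_mul, Matrix.map_mul]

lemma mfinb_KG_KG {γ : Matrix N N A} (hγ : γ * γ = 1) : KG T γ * KG T γ = 1 := by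
  rw [KG, ← Matrix.mul_kronecker_mul, gam_sq, ← Matrix.map_mul, hγ,
    Matrix.map_one T (map_zero T) (map_one T), Matrix.one_kronecker_one]

lemma mfinb_KG_KD (h : Fin n → BB n A) {γ d : Matrix N N A} (hγd : γ * d = -(d * γ)) :
    KG T γ * KD T h γ d = -(KD T h γ d * KG T γ) := by
  have e1 : (γ * d).map T = -((d * γ).map T) := by rw [hγd, mfinb_map_neg]
  rw [KG, KD, mul_add, add_mul, ← Matrix.mul_kronecker_mul, ← Matrix.mul_kronecker_mul,
    ← Matrix.mul_kronecker_mul, ← Matrix.mul_kronecker_mul, mul_one, one_mul, gam_DD,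
    ← Matrix.map_mul, ← Matrix.map_mul, ← Matrix.map_mul, e1, neg_add, mfinb_kron_neg,
    mfinb_neg_kron]

lemma mfinb_KD_KD [Algebra ℚ A] {f : A} (h : Fin n → BB n A) (hh : ∑ i, ee i * h i = cc f - T f)
    {γ d e : Matrix N N A} (hγ : γ * γ = 1) (hγd : γ * d = -(d * γ)) (hd : d * d = f • e) :
    KD T h γ d * KD T h γ d = (cc f - T f) • (1 : Matrix (Fk n × N) (Fk n × N) (BB n A)) +
      T f • mfinb_KK T e := by
  have e1 : DD h * DD h = (cc f - T f) • (1 : Matrix (Fk n) (Fk n) (BB n A)) := by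
    rw [DD, cliff_sq, hh]
  have e2 : (γ * d).map T + (d * γ).map T = 0 := by
    rw [hγd, mfinb_map_neg, neg_add_cancel]
  rw [KD, mul_add, add_mul, add_mul, ← Matrix.mul_kronecker_mul, ← Matrix.mul_kronecker_mul,
    ← Matrix.mul_kronecker_mul, ← Matrix.mul_kronecker_mul, mul_one, one_mul, one_mul,
    ← Matrix.map_mul, ← Matrix.map_mul, ← Matrix.map_mul, ← Matrix.map_mul, e1, hγ, hd,
    Matrix.map_one T (map_zero T) (map_one T), Matrix.smul_kronecker, Matrix.one_kronecker_one]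
  have e3 : (1 : Matrix (Fk n) (Fk n) (BB n A)) ⊗ₖ (f • e).map T = T f • mfinb_KK T e :=
    mfinb_KK_smul T f e
  have e4 : DD h ⊗ₖ (d * γ).map T + DD h ⊗ₖ (γ * d).map T = 0 := by
    rw [← Matrix.kronecker_add, add_comm, e2, Matrix.kronecker_zero]
  rw [e3]
  have e5 : ∀ a b c d : Matrix (Fk n × N) (Fk n × N) (BB n A), b + c = 0 →
      a + b + (c + d) = a + d := by
    intro a b c d hbc
    rw [add_assoc, ← add_assoc b c d, hbc, zero_add]
  exact e5 _ _ _ _ e4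

end Sq

section KPl

variable {N M : Type} [Fintype N]

lemma mfinb_KK_mulVec (u : Matrix M N A) (v : Fk n × N → BB n A) (a : Fk n) (i : M) :
    (mfinb_KK T u).mulVec v (a, i) = ∑ j, T (u i j) * v (a, j) := by
  rw [Matrix.mulVec, dotProduct, Fintype.sum_prod_type, Finset.sum_eq_single a]
  · refine Finset.sum_congr rfl fun j _ => ?_
    rw [mfinb_KK, Matrix.kronecker_apply, Matrix.one_apply_eq, one_mul, Matrix.map_apply]
  · intro b _ hb
    refine Finset.sum_eq_zero fun j _ => ?_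
    rw [mfinb_KK, Matrix.kronecker_apply, Matrix.one_apply_ne hb.symm, zero_mul, zero_mul]
  · intro h
    exact absurd (Finset.mem_univ a) h

lemma mfinb_KP_KK (hT : ∀ a, ev0 (T a) = a) (u : Matrix M N A) (v : Fk n × N → BB n A) :
    KP ((mfinb_KK T u).mulVec v) = u.mulVec (KP v) := by
  funext i
  rw [KP, mfinb_KK_mulVec, map_sum, Matrix.mulVec, dotProduct]
  refine Finset.sum_congr rfl fun j _ => ?_
  rw [map_mul, hT, KP]

lemma mfinb_KG_mulVec [DecidableEq N] (γ : Matrix N N A) (v : Fk n × N → BB n A) (a : Fk n) (i : N) :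
    (KG T γ).mulVec v (a, i) = ∑ j, ((par a : ℤ) : BB n A) * T (γ i j) * v (a, j) := by
  rw [Matrix.mulVec, dotProduct, Fintype.sum_prod_type, Finset.sum_eq_single a]
  · refine Finset.sum_congr rfl fun j _ => ?_
    rw [KG, Matrix.kronecker_apply, gam, Matrix.diagonal_apply_eq, Matrix.map_apply]
  · intro b _ hb
    refine Finset.sum_eq_zero fun j _ => ?_
    rw [KG, Matrix.kronecker_apply, gam, Matrix.diagonal_apply_ne _ hb.symm, zero_mul, zero_mul]
  · intro h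
    exact absurd (Finset.mem_univ a) h

lemma mfinb_KP_KG [DecidableEq N] (hT : ∀ a, ev0 (T a) = a) (γ : Matrix N N A) (v : Fk n × N → BB n A) :
    KP ((KG T γ).mulVec v) = γ.mulVec (KP v) := by
  have h1 : par (fun _ : Fin n => false) = 1 := by simp [par, sb]
  funext i
  rw [KP, mfinb_KG_mulVec, map_sum, Matrix.mulVec, dotProduct]
  refine Finset.sum_congr rfl fun j _ => ?_
  rw [h1, Int.cast_one, one_mul, map_mul, hT, KP]

lemma mfinb_KP_DD (h : Fin n → BB n A) (γ : Matrix N N (BB n A)) (v : Fk n × N → BB n A) :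
    KP ((DD h ⊗ₖ γ).mulVec v) = 0 := by
  funext i
  rw [KP, Matrix.mulVec, dotProduct, map_sum]
  refine Finset.sum_eq_zero fun p _ => ?_
  obtain ⟨b, j⟩ := p
  have h1 : ev0 (DD h (fun _ => false) b) = 0 := by
    rw [DD, Matrix.sum_apply, map_sum]
    refine Finset.sum_eq_zero fun k _ => ?_
    have h2 : th (BB n A) k (fun _ => false) b = 0 := by
      simp [op]
    rw [Matrix.add_apply, Matrix.smul_apply, Matrix.smul_apply, h2, smul_zero, add_zero,
      smul_eq_mul, map_mul, MvPowerSeries.constantCoeff_X, zero_mul]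
  rw [Matrix.kronecker_apply, map_mul, map_mul, h1, zero_mul, zero_mul]

lemma mfinb_KP_KD [DecidableEq N] (hT : ∀ a, ev0 (T a) = a) (h : Fin n → BB n A) (γ d : Matrix N N A)
    (v : Fk n × N → BB n A) :
    KP ((KD T h γ d).mulVec v) = d.mulVec (KP v) := by
  have h1 := mfinb_KP_DD h (γ.map T) v
  have h2 := mfinb_KP_KK T hT d v
  have h3 : KP ((DD h ⊗ₖ γ.map T).mulVec v + (mfinb_KK T d).mulVec v) =
      KP ((DD h ⊗ₖ γ.map T).mulVec v) + KP ((mfinb_KK T d).mulVec v) :=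
    (mfinb_KPl (n := n) (A := A) N).map_add _ _
  rw [KD, Matrix.add_mulVec]
  change KP ((DD h ⊗ₖ γ.map T).mulVec v + (mfinb_KK T d).mulVec v) = _
  rw [h3, h1, h2, zero_add]

end KPl

section Con

variable {T} {N : Type} [Fintype N] [DecidableEq N]

/-- the contraction for an idempotent -/
lemma mfinb_con (hCON : S_CON.{u}) [Algebra ℚ A] (hT : ∀ a, ev0 (T a) = a) {f : A}
    {h : Fin n → BB n A} (hh : ∑ i, ee i * h i = cc f - T f) (σ : N → ℤ)
    (hσ : ∀ i, σ i * σ i = 1) {γ e d : Matrix N N A}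
    (hγ : γ = Matrix.diagonal fun i => ((σ i : ℤ) : A)) (idem : e * e = e)
    (even : γ * e = e * γ) (odd : γ * d = -(d * γ)) (ed : e * d = d) (de : d * e = d)
    (dd : d * d = f • e) :
    ∃ (s : (N → A) →ₗ[A] (Fk n × N → BB n A))
      (H : (Fk n × N → BB n A) →ₗ[A] (Fk n × N → BB n A)),
      (∀ v, KP (s v) = e.mulVec v) ∧ (∀ v, (mfinb_KK T e).mulVec (s v) = s v) ∧
      (∀ v, (KD T h γ d).mulVec (s v) = s (d.mulVec v)) ∧
      (∀ v, (KG T γ).mulVec (s v) = s (γ.mulVec v)) ∧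
      (∀ v, (mfinb_KK T e).mulVec (H v) = H v) ∧
      (∀ v, (KD T h γ d).mulVec (H v) + H ((KD T h γ d).mulVec v) =
        (mfinb_KK T e).mulVec v - s (KP v)) ∧
      (∀ v, (KG T γ).mulVec (H v) = - H ((KG T γ).mulVec v)) := by
  obtain ⟨γ2, hγ2⟩ : ∃ γ2 : Matrix (N ⊕ N) (N ⊕ N) A, γ2 = Matrix.fromBlocks γ 0 0 (-γ) :=
    ⟨_, rfl⟩
  obtain ⟨d2, hd2⟩ : ∃ d2 : Matrix (N ⊕ N) (N ⊕ N) A,
    d2 = Matrix.fromBlocks d (f • (1 - e)) (1 - e) (-d) := ⟨_, rfl⟩
  obtain ⟨i2, hi2⟩ : ∃ i2 : Matrix (N ⊕ N) N A, i2 = Matrix.fromRows e 0 := ⟨_, rfl⟩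
  obtain ⟨r2, hr2⟩ : ∃ r2 : Matrix N (N ⊕ N) A, r2 = Matrix.fromCols e 0 := ⟨_, rfl⟩
  have e1 : (1 - e) * e = 0 := by rw [sub_mul, one_mul, idem, sub_self]
  have e1' : e * (1 - e) = 0 := by rw [mul_sub, mul_one, idem, sub_self]
  have e2 : (1 - e) * (1 - e) = 1 - e := by rw [mul_sub, mul_one, e1, sub_zero]
  have e3 : (1 - e) * d = 0 := by rw [sub_mul, one_mul, ed, sub_self]
  have e4 : d * (1 - e) = 0 := by rw [mul_sub, mul_one, de, sub_self]
  have e5 : γ * (1 - e) = (1 - e) * γ := by rw [mul_sub, sub_mul, mul_one, one_mul, even]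
  have k1 : d2 * d2 = f • (1 : Matrix (N ⊕ N) (N ⊕ N) A) := by
    rw [hd2, Matrix.fromBlocks_multiply, ← Matrix.fromBlocks_one, Matrix.fromBlocks_smul]
    simp only [Matrix.smul_mul, Matrix.mul_smul, mul_neg, neg_mul, neg_neg, e2, e3, e4, dd,
      ← smul_add, smul_zero, neg_zero, add_zero, add_sub_cancel, sub_add_cancel]
  have k2 : γ2 * d2 = -(d2 * γ2) := by
    rw [hγ2, hd2, Matrix.fromBlocks_multiply, Matrix.fromBlocks_multiply, Matrix.fromBlocks_neg]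
    simp only [Matrix.zero_mul, Matrix.mul_zero, add_zero, zero_add, neg_mul, mul_neg, neg_neg,
      Matrix.smul_mul, Matrix.mul_smul, e5, odd, neg_zero, smul_zero]
  have k3 : γ2 = Matrix.diagonal fun i =>
      ((Sum.elim σ (fun i => -σ i) i : ℤ) : A) := by
    rw [hγ2, hγ]
    ext i j
    rcases i with i | i <;> rcases j with j | j
    · simp [Matrix.diagonal_apply]
    · simp
    · simp
    · by_cases hij : i = j
      · subst hij; simp
      · simp [Matrix.diagonal_apply, hij]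
  have k4 : ∀ i, Sum.elim σ (fun i => -σ i) i * Sum.elim σ (fun i => -σ i) i = 1 := by
    rintro (i | i)
    · exact hσ i
    · rw [Sum.elim_inr, neg_mul_neg]
      exact hσ i
  have k5 : r2 * i2 = e := by
    rw [hr2, hi2, Matrix.fromCols_mul_fromRows, idem, Matrix.zero_mul, add_zero]
  have k6 : d2 * i2 = i2 * d := by
    rw [hd2, hi2, Matrix.fromBlocks_mul_fromRows, Matrix.fromRows_mul, de, e1, ed,
      Matrix.zero_mul, Matrix.mul_zero, Matrix.mul_zero, add_zero, add_zero]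
  have k7 : r2 * d2 = d * r2 := by
    rw [hd2, hr2, Matrix.fromCols_mul_fromBlocks, Matrix.mul_fromCols, de, ed, Matrix.mul_smul,
      e1', Matrix.zero_mul, Matrix.zero_mul, Matrix.mul_zero, add_zero, add_zero, smul_zero]
  have k8 : γ2 * i2 = i2 * γ := by
    rw [hγ2, hi2, Matrix.fromBlocks_mul_fromRows, Matrix.fromRows_mul, even,
      Matrix.zero_mul, Matrix.zero_mul, Matrix.zero_mul, Matrix.mul_zero, add_zero, add_zero]
  have k9 : r2 * γ2 = γ * r2 := by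
    rw [hγ2, hr2, Matrix.fromCols_mul_fromBlocks, Matrix.mul_fromCols, even,
      Matrix.zero_mul, Matrix.zero_mul, Matrix.mul_zero, Matrix.mul_zero, add_zero, add_zero]
  have k10 : e * r2 = r2 := by
    rw [hr2, Matrix.mul_fromCols, idem, Matrix.mul_zero]
  obtain ⟨s2, H2, c1, c2, c3, c4, c5⟩ := hCON T hT f h hh _ k4 γ2 d2 k3 k2 k1
  have l1 : KD T h γ d * mfinb_KK T r2 = mfinb_KK T r2 * KD T h γ2 d2 := by
    rw [mfinb_KD_KK, mfinb_KK_KD, k7, k9]
  have l2 : KD T h γ2 d2 * mfinb_KK T i2 = mfinb_KK T i2 * KD T h γ d := by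
    rw [mfinb_KD_KK, mfinb_KK_KD, k6, k8]
  have l3 : KG T γ * mfinb_KK T r2 = mfinb_KK T r2 * KG T γ2 := by
    rw [mfinb_KG_KK, mfinb_KK_KG, k9]
  have l4 : KG T γ2 * mfinb_KK T i2 = mfinb_KK T i2 * KG T γ := by
    rw [mfinb_KG_KK, mfinb_KK_KG, k8]
  refine ⟨mfinb_mv (mfinb_KK T r2) ∘ₗ s2 ∘ₗ Matrix.mulVecLin i2,
    mfinb_mv (mfinb_KK T r2) ∘ₗ H2 ∘ₗ mfinb_mv (mfinb_KK T i2), ?_, ?_, ?_, ?_, ?_, ?_, ?_⟩
  · intro v
    simp only [LinearMap.comp_apply, mfinb_mv_apply, Matrix.mulVecLin_apply]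
    rw [mfinb_KP_KK T hT, c1, Matrix.mulVec_mulVec, k5]
  · intro v
    simp only [LinearMap.comp_apply, mfinb_mv_apply, Matrix.mulVecLin_apply]
    rw [Matrix.mulVec_mulVec, mfinb_KK_mul, k10]
  · intro v
    simp only [LinearMap.comp_apply, mfinb_mv_apply, Matrix.mulVecLin_apply]
    rw [Matrix.mulVec_mulVec, l1, ← Matrix.mulVec_mulVec, c2, Matrix.mulVec_mulVec, k6,
      Matrix.mulVec_mulVec]
  · intro v
    simp only [LinearMap.comp_apply, mfinb_mv_apply, Matrix.mulVecLin_apply]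
    rw [Matrix.mulVec_mulVec, l3, ← Matrix.mulVec_mulVec, c3, Matrix.mulVec_mulVec, k8,
      Matrix.mulVec_mulVec]
  · intro v
    simp only [LinearMap.comp_apply, mfinb_mv_apply, Matrix.mulVecLin_apply]
    rw [Matrix.mulVec_mulVec, mfinb_KK_mul, k10]
  · intro v
    simp only [LinearMap.comp_apply, mfinb_mv_apply, Matrix.mulVecLin_apply]
    have m1 : (mfinb_KK T i2).mulVec ((KD T h γ d).mulVec v) =
        (KD T h γ2 d2).mulVec ((mfinb_KK T i2).mulVec v) := by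
      rw [Matrix.mulVec_mulVec, Matrix.mulVec_mulVec, l2]
    rw [m1, Matrix.mulVec_mulVec, l1, ← Matrix.mulVec_mulVec, ← Matrix.mulVec_add, c4,
      Matrix.mulVec_sub, Matrix.mulVec_mulVec, mfinb_KK_mul, k5, mfinb_KP_KK T hT]
  · intro v
    simp only [LinearMap.comp_apply, mfinb_mv_apply, Matrix.mulVecLin_apply]
    rw [Matrix.mulVec_mulVec, l3, ← Matrix.mulVec_mulVec, c5, Matrix.mulVec_mulVec, l4,
      ← Matrix.mulVec_mulVec, Matrix.mulVec_neg]

end Con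

section Theta

variable {T} {L N : Type} [Fintype L] [DecidableEq L] [Fintype N] [DecidableEq N]
variable {Ψ : BB n A ≃+* BB n A} (hΨ : ∀ a, Ψ (cc a) = cc a)

lemma mfinb_symm_cc {Ψ : BB n A ≃+* BB n A} (hΨ : ∀ a, Ψ (cc a) = cc a) (a : A) :
    Ψ.symm (cc a) = cc a := by
  rw [RingEquiv.symm_apply_eq, hΨ]

/-- `Ψ` followed by `H` -/
def mfinb_Th {n : ℕ} {A : Type u} [CommRing A] {Ψ : BB n A ≃+* BB n A}
    (hΨ : ∀ a, Ψ (cc a) = cc a) (N : Type) [Fintype N] [DecidableEq N]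
    (H : Matrix (Fk n) (Fk n) (BB n A)) : (Fk n × N → BB n A) →ₗ[A] (Fk n × N → BB n A) where
  toFun v := (H ⊗ₖ (1 : Matrix N N (BB n A))).mulVec (fun i => Ψ (v i))
  map_add' v w := by
    rw [← Matrix.mulVec_add]
    congr 1
    funext i
    rw [Pi.add_apply, Pi.add_apply, map_add]
  map_smul' a v := by
    rw [RingHom.id_apply, ← Matrix.mulVec_smul]
    congr 1
    funext i
    rw [Pi.smul_apply, Pi.smul_apply, MvPowerSeries.smul_eq_C_mul, MvPowerSeries.smul_eq_C_mul,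
      map_mul]
    congr 1
    exact hΨ a

/-- `G` followed by the inverse of `Ψ` -/
def mfinb_Ti {n : ℕ} {A : Type u} [CommRing A] {Ψ : BB n A ≃+* BB n A}
    (hΨ : ∀ a, Ψ (cc a) = cc a) (N : Type) [Fintype N] [DecidableEq N]
    (G : Matrix (Fk n) (Fk n) (BB n A)) : (Fk n × N → BB n A) →ₗ[A] (Fk n × N → BB n A) where
  toFun w := fun i => Ψ.symm ((G ⊗ₖ (1 : Matrix N N (BB n A))).mulVec w i)
  map_add' v w := by
    funext i
    rw [Matrix.mulVec_add, Pi.add_apply, Pi.add_apply, map_add]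
  map_smul' a v := by
    funext i
    rw [RingHom.id_apply, Matrix.mulVec_smul, Pi.smul_apply, Pi.smul_apply,
      MvPowerSeries.smul_eq_C_mul, MvPowerSeries.smul_eq_C_mul, map_mul]
    congr 1
    exact mfinb_symm_cc hΨ a

variable {G H : Matrix (Fk n) (Fk n) (BB n A)}

lemma mfinb_Th_apply (v : Fk n × N → BB n A) :
    mfinb_Th hΨ N H v = (H ⊗ₖ (1 : Matrix N N (BB n A))).mulVec (fun i => Ψ (v i)) := rfl

lemma mfinb_Ti_apply (v : Fk n × N → BB n A) :
    mfinb_Ti hΨ N G v = fun i => Ψ.symm ((G ⊗ₖ (1 : Matrix N N (BB n A))).mulVec v i) := rfl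

lemma mfinb_Th_Ti (hHG : H * G = 1) (w : Fk n × N → BB n A) :
    mfinb_Th hΨ N H (mfinb_Ti hΨ N G w) = w := by
  rw [mfinb_Th_apply, mfinb_Ti_apply]
  have e1 : (fun i => Ψ (Ψ.symm ((G ⊗ₖ (1 : Matrix N N (BB n A))).mulVec w i))) =
      (G ⊗ₖ (1 : Matrix N N (BB n A))).mulVec w := by
    funext i
    exact Ψ.apply_symm_apply _
  rw [e1, Matrix.mulVec_mulVec, ← Matrix.mul_kronecker_mul, hHG, mul_one,
    Matrix.one_kronecker_one, Matrix.one_mulVec]

lemma mfinb_Ti_Th (hGH : G * H = 1) (w : Fk n × N → BB n A) :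
    mfinb_Ti hΨ N G (mfinb_Th hΨ N H w) = w := by
  rw [mfinb_Th_apply, mfinb_Ti_apply]
  funext i
  rw [Matrix.mulVec_mulVec, ← Matrix.mul_kronecker_mul, hGH, mul_one,
    Matrix.one_kronecker_one, Matrix.one_mulVec]
  exact Ψ.symm_apply_apply _

lemma mfinb_Th_mul {M M'' : Matrix (Fk n × L) (Fk n × N) (BB n A)}
    (hM : (H ⊗ₖ (1 : Matrix L L (BB n A))) * M.map Ψ = M'' * (H ⊗ₖ (1 : Matrix N N (BB n A))))
    (v : Fk n × N → BB n A) :
    mfinb_Th hΨ L H (M.mulVec v) = M''.mulVec (mfinb_Th hΨ N H v) := by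
  rw [mfinb_Th_apply, mfinb_Th_apply, Matrix.mulVec_mulVec, ← hM, ← Matrix.mulVec_mulVec]
  congr 1
  funext i
  exact RingHom.map_mulVec Ψ.toRingHom M v i

lemma mfinb_kron_map {I J K L : Type} (a : Matrix I J (BB n A)) (b : Matrix K L (BB n A)) :
    (a ⊗ₖ b).map Ψ = a.map Ψ ⊗ₖ b.map Ψ := by
  ext i j
  simp only [Matrix.map_apply, Matrix.kroneckerMap_apply, map_mul]

variable {φ : A →+* A} (hΨT : ∀ a, Ψ (T a) = T (φ a))
include hΨT

omit [Fintype L] [DecidableEq L] [Fintype N] [DecidableEq N] in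
lemma mfinb_map_map (u : Matrix L N A) : (u.map T).map Ψ = (u.map φ).map T := by
  ext i j
  simp only [Matrix.map_apply, hΨT]

lemma mfinb_Th_KK (u : Matrix L N A) (v : Fk n × N → BB n A) :
    mfinb_Th hΨ L H ((mfinb_KK T u).mulVec v) =
      (mfinb_KK T (u.map φ)).mulVec (mfinb_Th hΨ N H v) := by
  refine mfinb_Th_mul hΨ ?_ v
  have e1 : (1 : Matrix (Fk n) (Fk n) (BB n A)).map Ψ = 1 :=
    Matrix.map_one Ψ (map_zero Ψ) (map_one Ψ)
  rw [mfinb_KK, mfinb_KK, mfinb_kron_map, mfinb_map_map hΨT, e1, ← Matrix.mul_kronecker_mul,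
    ← Matrix.mul_kronecker_mul, Matrix.one_mul, Matrix.mul_one, Matrix.one_mul, Matrix.mul_one]

lemma mfinb_Th_KG (hgam : gam (BB n A) * H = H * gam (BB n A)) (γ : Matrix N N A)
    (v : Fk n × N → BB n A) :
    mfinb_Th hΨ N H ((KG T γ).mulVec v) = (KG T (γ.map φ)).mulVec (mfinb_Th hΨ N H v) := by
  refine mfinb_Th_mul hΨ ?_ v
  have e1 : (gam (BB n A)).map Ψ = gam (n := n) (BB n A) := gam_map (n := n) Ψ.toRingHom
  rw [KG, KG, mfinb_kron_map, mfinb_map_map hΨT, e1, ← Matrix.mul_kronecker_mul,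
    ← Matrix.mul_kronecker_mul, Matrix.one_mul, Matrix.mul_one, hgam]

lemma mfinb_Th_KD {h : Fin n → BB n A} (hDD : H * (DD h).map Ψ = DD h * H) (γ d : Matrix N N A)
    (v : Fk n × N → BB n A) :
    mfinb_Th hΨ N H ((KD T h γ d).mulVec v) =
      (KD T h (γ.map φ) (d.map φ)).mulVec (mfinb_Th hΨ N H v) := by
  refine mfinb_Th_mul hΨ ?_ v
  have e1 : (1 : Matrix (Fk n) (Fk n) (BB n A)).map Ψ = 1 :=
    Matrix.map_one Ψ (map_zero Ψ) (map_one Ψ)
  have e2 : ∀ a b : Matrix (Fk n × N) (Fk n × N) (BB n A), (a + b).map Ψ = a.map Ψ + b.map Ψ := by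
    intro a b
    ext i j
    simp
  rw [KD, KD, e2, mfinb_kron_map, mfinb_kron_map, mfinb_map_map hΨT, mfinb_map_map hΨT, e1,
    Matrix.mul_add, Matrix.add_mul, ← Matrix.mul_kronecker_mul, ← Matrix.mul_kronecker_mul,
    ← Matrix.mul_kronecker_mul, ← Matrix.mul_kronecker_mul, Matrix.one_mul, Matrix.mul_one,
    Matrix.one_mul, Matrix.mul_one, Matrix.one_mul, Matrix.mul_one, hDD]

end Theta

section Obj

variable {T}

lemma mfinb_mem {N : Type} [Fintype N] {e : Matrix N N A} (idem : e * e = e)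
    (v : Fk n × N → BB n A) :
    v ∈ LinearMap.range (mfinb_mv (mfinb_KK T e)) ↔ (mfinb_KK T e).mulVec v = v := by
  constructor
  · rintro ⟨w, rfl⟩
    rw [mfinb_mv_apply, Matrix.mulVec_mulVec, mfinb_KK_mul, idem]
  · intro h
    exact ⟨v, h⟩

lemma mfinb_cc_smul {J : Type} (a : A) (v : J → BB n A) : (cc a : BB n A) • v = a • v := by
  funext i
  rw [Pi.smul_apply, Pi.smul_apply, MvPowerSeries.smul_eq_C_mul, smul_eq_mul]

variable {f : A}

lemma mfinb_KG_KK_KG {L N : Type} [Fintype L] [DecidableEq L] [Fintype N] [DecidableEq N]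
    (γ : Matrix L L A) (γ' : Matrix N N A) (u : Matrix L N A) :
    KG T γ * mfinb_KK T u * KG T γ' = mfinb_KK T (γ * u * γ') := by
  rw [mfinb_KG_KK, KG, ← Matrix.mul_kronecker_mul, gam_sq, ← Matrix.map_mul]
  rfl

/-- the value of the dg functor `K` on objects -/
def mfinb_obj [Algebra ℚ A] (T : A →+* BB n A) (h : Fin n → BB n A)
    (hh : ∑ i, ee i * h i = cc f - T f) (P : MF A f) : Fact A f where
  M := LinearMap.range (mfinb_mv (mfinb_KK T P.e))
  γ := (mfinb_mv (KG T P.γ)).restrict (by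
    intro v hv
    rw [mfinb_mem P.idem] at hv ⊢
    rw [mfinb_mv_apply, Matrix.mulVec_mulVec, mfinb_KK_KG, ← P.even, ← mfinb_KG_KK,
      ← Matrix.mulVec_mulVec, hv])
  d := (mfinb_mv (KD T h P.γ P.d)).restrict (by
    intro v hv
    rw [mfinb_mem P.idem] at hv ⊢
    rw [mfinb_mv_apply, Matrix.mulVec_mulVec, mfinb_KK_KD, ← P.even, P.ed]
    have e1 : DD h ⊗ₖ (P.γ * P.e).map T + mfinb_KK T P.d =
        KD T h P.γ P.d * mfinb_KK T P.e := by
      rw [mfinb_KD_KK, P.de]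
    rw [e1, ← Matrix.mulVec_mulVec, hv])
  γγ := by
    rintro ⟨v, hv⟩
    apply Subtype.ext
    simp only [LinearMap.restrict_apply, mfinb_mv_apply, Matrix.mulVec_mulVec,
      mfinb_KG_KG T (sg_sq P.p P.q), Matrix.one_mulVec]
  γd := by
    rintro ⟨v, hv⟩
    apply Subtype.ext
    simp only [LinearMap.restrict_apply, mfinb_mv_apply, Matrix.mulVec_mulVec,
      mfinb_KG_KD T h P.odd, Matrix.neg_mulVec, Submodule.coe_neg]
  dd := by
    rintro ⟨v, hv⟩
    apply Subtype.ext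
    rw [mfinb_mem P.idem] at hv
    simp only [LinearMap.restrict_apply, mfinb_mv_apply, Matrix.mulVec_mulVec,
      mfinb_KD_KD T h hh (sg_sq P.p P.q) P.odd P.dd, Submodule.coe_smul]
    rw [Matrix.add_mulVec, Matrix.smul_mulVec, Matrix.smul_mulVec, hv, Matrix.one_mulVec,
      ← add_smul, sub_add_cancel, mfinb_cc_smul]

/-- the value of the dg functor `K` on morphisms -/
def mfinb_map [Algebra ℚ A] (T : A →+* BB n A) (h : Fin n → BB n A)
    (hh : ∑ i, ee i * h i = cc f - T f) {P Q : MF A f} (a : MHom P Q) :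
    (mfinb_obj T h hh P).M →ₗ[A] (mfinb_obj T h hh Q).M :=
  (mfinb_mv (mfinb_KK T a.u)).restrict (by
    intro v _
    rw [mfinb_mem Q.idem, mfinb_mv_apply, Matrix.mulVec_mulVec, mfinb_KK_mul, a.eu])

/-- the dg functor `K` -/
def mfinb_K [Algebra ℚ A] (T : A →+* BB n A) (h : Fin n → BB n A)
    (hh : ∑ i, ee i * h i = cc f - T f) : DGF A f A f where
  obj := mfinb_obj T h hh
  map := mfinb_map T h hh
  map_add {P Q} a b c hc := by
    ext1 ⟨v, hv⟩
    apply Subtype.ext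
    change (mfinb_KK T c.u).mulVec v = (mfinb_KK T a.u).mulVec v + (mfinb_KK T b.u).mulVec v
    rw [hc, mfinb_KK_add, Matrix.add_mulVec]
  map_one {P} a ha := by
    ext1 ⟨v, hv⟩
    apply Subtype.ext
    change (mfinb_KK T a.u).mulVec v = v
    rw [ha]
    exact (mfinb_mem P.idem v).1 hv
  map_comp a b c hc := by
    ext1 ⟨v, hv⟩
    apply Subtype.ext
    change (mfinb_KK T c.u).mulVec v = (mfinb_KK T b.u).mulVec ((mfinb_KK T a.u).mulVec v)
    rw [hc, Matrix.mulVec_mulVec, mfinb_KK_mul]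
  map_gr {P Q} a c hc := by
    rintro ⟨v, hv⟩
    apply Subtype.ext
    change (mfinb_KK T c.u).mulVec v =
      (KG T Q.γ).mulVec ((mfinb_KK T a.u).mulVec ((KG T P.γ).mulVec v))
    rw [hc, Matrix.mulVec_mulVec, Matrix.mulVec_mulVec, ← mfinb_KG_KK_KG]
  map_d {P Q} a c hc := by
    rintro ⟨v, hv⟩
    apply Subtype.ext
    change (mfinb_KK T c.u).mulVec v =
      (KD T h Q.γ Q.d).mulVec ((mfinb_KK T a.u).mulVec v) -
      (KG T Q.γ).mulVec ((mfinb_KK T a.u).mulVec ((KG T P.γ).mulVec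
        ((KD T h P.γ P.d).mulVec v)))
    have e2 : Q.γ * a.u * P.γ * P.γ = Q.γ * a.u := by
      rw [Matrix.mul_assoc, MF.γ, sg_sq, Matrix.mul_one]
    rw [Matrix.mulVec_mulVec, Matrix.mulVec_mulVec, Matrix.mulVec_mulVec, Matrix.mulVec_mulVec,
      mfinb_KG_KK_KG, mfinb_KD_KK, mfinb_KK_KD, e2, ← Matrix.sub_mulVec, add_sub_add_left_eq_sub,
      ← mfinb_KK_sub, hc]

lemma mfinb_K_Lin [Algebra ℚ A] {k : Type u} [Field k] [Algebra k A] (T : A →+* BB n A)
    (hk : ∀ r : k, T (algebraMap k A r) = cc (algebraMap k A r)) (h : Fin n → BB n A)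
    (hh : ∑ i, ee i * h i = cc f - T f) : (mfinb_K T h hh).Lin k := by
  intro P Q r a c hc
  rintro ⟨v, hv⟩
  apply Subtype.ext
  change (mfinb_KK T c.u).mulVec v = algebraMap k A r • (mfinb_KK T a.u).mulVec v
  rw [hc, mfinb_KK_smul, hk, Matrix.smul_mulVec, mfinb_cc_smul]

end Obj

section Wk

variable {T}

lemma mfinb_sg_diag (p q : ℕ) : sg A p q =
    Matrix.diagonal fun i => ((Sum.elim (fun _ => 1) (fun _ => -1) i : ℤ) : A) := by
  ext i j
  rcases i with i | i <;> rcases j with j | j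
  · by_cases hij : i = j
    · subst hij; simp [sg]
    · simp [sg, Matrix.diagonal_apply, Matrix.one_apply_ne hij, hij]
  · simp [sg]
  · simp [sg]
  · by_cases hij : i = j
    · subst hij; simp [sg]
    · simp [sg, Matrix.diagonal_apply, Matrix.one_apply_ne hij, hij]

lemma mfinb_sg_sq' (p q : ℕ) (i : Ix p q) : (Sum.elim (fun _ => 1) (fun _ => -1) i : ℤ) *
    (Sum.elim (fun _ => 1) (fun _ => -1) i : ℤ) = 1 := by
  rcases i with i | i <;> simp

variable {f : A}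

/-- transport of the contraction -/
lemma mfinb_con' (hCON : S_CON.{u}) [Algebra ℚ A] (hT : ∀ a, ev0 (T a) = a)
    {h : Fin n → BB n A} (hh : ∑ i, ee i * h i = cc f - T f) {φ : A →+* A} (hφ : φ f = f)
    {Ψ : BB n A ≃+* BB n A} (hΨ : ∀ a, Ψ (cc a) = cc a) (hΨT : ∀ a, Ψ (T a) = T (φ a))
    {G H : Matrix (Fk n) (Fk n) (BB n A)} (hGH : G * H = 1) (hHG : H * G = 1)
    (hDD : H * (DD h).map Ψ = DD h * H) (hgam : gam (BB n A) * H = H * gam (BB n A))
    (P : MF A f) :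
    ∃ (s : (Ix P.p P.q → A) →ₗ[A] (Fk n × Ix P.p P.q → BB n A))
      (Z : (Fk n × Ix P.p P.q → BB n A) →ₗ[A] (Fk n × Ix P.p P.q → BB n A)),
      (∀ v, KP (mfinb_Th hΨ (Ix P.p P.q) H (s v)) = (P.e.map φ).mulVec v) ∧
      (∀ v, (mfinb_KK T P.e).mulVec (s v) = s v) ∧
      (∀ v, (KD T h P.γ P.d).mulVec (s v) = s ((P.d.map φ).mulVec v)) ∧
      (∀ v, (KG T P.γ).mulVec (s v) = s (P.γ.mulVec v)) ∧
      (∀ v, (mfinb_KK T P.e).mulVec (Z v) = Z v) ∧
      (∀ v, (KD T h P.γ P.d).mulVec (Z v) + Z ((KD T h P.γ P.d).mulVec v) =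
        (mfinb_KK T P.e).mulVec v - s (KP (mfinb_Th hΨ (Ix P.p P.q) H v))) ∧
      (∀ v, (KG T P.γ).mulVec (Z v) = - Z ((KG T P.γ).mulVec v)) := by
  obtain ⟨s2, Z2, c1, c2, c3, c4, c5, c6, c7⟩ := mfinb_con hCON hT hh
    (fun i : Ix P.p P.q => (Sum.elim (fun _ => 1) (fun _ => -1) i : ℤ)) (mfinb_sg_sq' P.p P.q)
    (mfinb_sg_diag P.p P.q) (P.pull φ hφ).idem (P.pull φ hφ).even (P.pull φ hφ).odd
    (P.pull φ hφ).ed (P.pull φ hφ).de (P.pull φ hφ).dd
  change ∀ v, KP (s2 v) = (P.e.map φ).mulVec v at c1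
  change ∀ v, (mfinb_KK T (P.e.map φ)).mulVec (s2 v) = s2 v at c2
  change ∀ v, (KD T h P.γ (P.d.map φ)).mulVec (s2 v) = s2 ((P.d.map φ).mulVec v) at c3
  change ∀ v, (KG T P.γ).mulVec (s2 v) = s2 (P.γ.mulVec v) at c4
  change ∀ v, (mfinb_KK T (P.e.map φ)).mulVec (Z2 v) = Z2 v at c5
  change ∀ v, (KD T h P.γ (P.d.map φ)).mulVec (Z2 v) + Z2 ((KD T h P.γ (P.d.map φ)).mulVec v) =
    (mfinb_KK T (P.e.map φ)).mulVec v - s2 (KP v) at c6
  change ∀ v, (KG T P.γ).mulVec (Z2 v) = - Z2 ((KG T P.γ).mulVec v) at c7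
  have hγ : P.γ.map φ = P.γ := (sg_map φ P.p P.q).symm
  have t1 : ∀ v, mfinb_Th hΨ (Ix P.p P.q) H ((mfinb_KK T P.e).mulVec v) =
      (mfinb_KK T (P.e.map φ)).mulVec (mfinb_Th hΨ (Ix P.p P.q) H v) := fun v =>
    mfinb_Th_KK hΨ hΨT P.e v
  have t2 : ∀ v, mfinb_Th hΨ (Ix P.p P.q) H ((KG T P.γ).mulVec v) =
      (KG T P.γ).mulVec (mfinb_Th hΨ (Ix P.p P.q) H v) := fun v => by
    rw [mfinb_Th_KG hΨ hΨT hgam P.γ v, hγ]
  have t3 : ∀ v, mfinb_Th hΨ (Ix P.p P.q) H ((KD T h P.γ P.d).mulVec v) =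
      (KD T h P.γ (P.d.map φ)).mulVec (mfinb_Th hΨ (Ix P.p P.q) H v) := fun v => by
    rw [mfinb_Th_KD hΨ hΨT hDD P.γ P.d v, hγ]
  have inj : ∀ v w : Fk n × Ix P.p P.q → BB n A,
      mfinb_Th hΨ (Ix P.p P.q) H v = mfinb_Th hΨ (Ix P.p P.q) H w → v = w := by
    intro v w hvw
    rw [← mfinb_Ti_Th hΨ hGH v, hvw, mfinb_Ti_Th hΨ hGH w]
  refine ⟨mfinb_Ti hΨ (Ix P.p P.q) G ∘ₗ s2,
    mfinb_Ti hΨ (Ix P.p P.q) G ∘ₗ Z2 ∘ₗ mfinb_Th hΨ (Ix P.p P.q) H, ?_, ?_, ?_, ?_, ?_, ?_, ?_⟩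
  · intro v
    rw [LinearMap.comp_apply, mfinb_Th_Ti hΨ hHG, c1]
  · intro v
    apply inj
    rw [t1, LinearMap.comp_apply, mfinb_Th_Ti hΨ hHG, c2]
  · intro v
    apply inj
    rw [t3, LinearMap.comp_apply, LinearMap.comp_apply, mfinb_Th_Ti hΨ hHG, mfinb_Th_Ti hΨ hHG, c3]
  · intro v
    apply inj
    rw [t2, LinearMap.comp_apply, LinearMap.comp_apply, mfinb_Th_Ti hΨ hHG, mfinb_Th_Ti hΨ hHG, c4]
  · intro v
    apply inj
    rw [t1, LinearMap.comp_apply, LinearMap.comp_apply, mfinb_Th_Ti hΨ hHG, c5]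
  · intro v
    apply inj
    rw [map_add, map_sub, t3, t1, LinearMap.comp_apply, LinearMap.comp_apply, LinearMap.comp_apply,
      LinearMap.comp_apply, LinearMap.comp_apply, mfinb_Th_Ti hΨ hHG, mfinb_Th_Ti hΨ hHG,
      mfinb_Th_Ti hΨ hHG, t3, c6]
  · intro v
    apply inj
    rw [map_neg, t2, LinearMap.comp_apply, LinearMap.comp_apply, LinearMap.comp_apply,
      LinearMap.comp_apply, mfinb_Th_Ti hΨ hHG, mfinb_Th_Ti hΨ hHG, t2, c7]

section Eta

variable [Algebra ℚ A] (hT : ∀ a, ev0 (T a) = a)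
  {h : Fin n → BB n A} (hh : ∑ i, ee i * h i = cc f - T f) {φ : A →+* A} (hφ : φ f = f)
  {Ψ : BB n A ≃+* BB n A} (hΨ : ∀ a, Ψ (cc a) = cc a) (hΨT : ∀ a, Ψ (T a) = T (φ a))
  {G H : Matrix (Fk n) (Fk n) (BB n A)}
  (hDD : H * (DD h).map Ψ = DD h * H) (hgam : gam (BB n A) * H = H * gam (BB n A))

/-- the comparison map -/
def mfinb_eta {T : A →+* BB n A} (hT : ∀ a, ev0 (T a) = a)
    {h : Fin n → BB n A} (hh : ∑ i, ee i * h i = cc f - T f) {φ : A →+* A} (hφ : φ f = f)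
    {Ψ : BB n A ≃+* BB n A} (hΨ : ∀ a, Ψ (cc a) = cc a) (hΨT : ∀ a, Ψ (T a) = T (φ a))
    {H : Matrix (Fk n) (Fk n) (BB n A)}
    (hDD : H * (DD h).map Ψ = DD h * H) (hgam : gam (BB n A) * H = H * gam (BB n A))
    (P : MF A f) : FMap (mfinb_obj T h hh P) (P.pull φ hφ).fact where
  g := LinearMap.codRestrict (LinearMap.range (Matrix.mulVecLin (P.pull φ hφ).e))
    (mfinb_KPl (Ix P.p P.q) ∘ₗ mfinb_Th hΨ (Ix P.p P.q) H ∘ₗ
      Submodule.subtype (LinearMap.range (mfinb_mv (mfinb_KK T P.e)))) (by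
      rintro ⟨v, hv⟩
      refine ⟨KP (mfinb_Th hΨ (Ix P.p P.q) H v), ?_⟩
      change (P.e.map φ).mulVec (KP (mfinb_Th hΨ (Ix P.p P.q) H v)) =
        KP (mfinb_Th hΨ (Ix P.p P.q) H v)
      rw [← mfinb_KP_KK T hT, ← mfinb_Th_KK hΨ hΨT, (mfinb_mem P.idem v).1 hv])
  ev := by
    rintro ⟨v, hv⟩
    apply Subtype.ext
    change P.γ.mulVec (KP (mfinb_Th hΨ (Ix P.p P.q) H v)) =
      KP (mfinb_Th hΨ (Ix P.p P.q) H ((KG T P.γ).mulVec v))
    have hγ : P.γ.map φ = P.γ := (sg_map φ P.p P.q).symm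
    rw [mfinb_Th_KG hΨ hΨT hgam, mfinb_KP_KG T hT, hγ]
  cl := by
    rintro ⟨v, hv⟩
    apply Subtype.ext
    change (P.d.map φ).mulVec (KP (mfinb_Th hΨ (Ix P.p P.q) H v)) =
      KP (mfinb_Th hΨ (Ix P.p P.q) H ((KD T h P.γ P.d).mulVec v))
    rw [mfinb_Th_KD hΨ hΨT hDD, mfinb_KP_KD T hT]

lemma mfinb_eta_val (P : MF A f) (v : (mfinb_obj T h hh P).M) :
    (P.pull φ hφ).val ((mfinb_eta hT hh hφ hΨ hΨT hDD hgam P).g v) =
      KP (mfinb_Th hΨ (Ix P.p P.q) H v.1) := rfl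

lemma mfinb_eta_nat {P Q : MF A f} (a : MHom P Q) (v : (mfinb_obj T h hh P).M) :
    (mfinb_eta hT hh hφ hΨ hΨT hDD hgam Q).g (mfinb_map T h hh a v) =
      (a.pull φ hφ).lin ((mfinb_eta hT hh hφ hΨ hΨT hDD hgam P).g v) := by
  apply MF.val_inj
  rw [mfinb_eta_val, MHom.lin_coe, mfinb_eta_val]
  change KP (mfinb_Th hΨ (Ix Q.p Q.q) H ((mfinb_KK T a.u).mulVec v.1)) =
    (a.u.map φ).mulVec (KP (mfinb_Th hΨ (Ix P.p P.q) H v.1))
  rw [mfinb_Th_KK hΨ hΨT, mfinb_KP_KK T hT]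

lemma mfinb_eta_eqv (hCON : S_CON.{u}) (hGH : G * H = 1) (hHG : H * G = 1) (P : MF A f) :
    (mfinb_eta hT hh hφ hΨ hΨT hDD hgam P).IsHtpyEquiv := by
  obtain ⟨s, Z, c1, c2, c3, c4, c5, c6, c7⟩ :=
    mfinb_con' hCON hT hh hφ hΨ hΨT hGH hHG hDD hgam P
  have m1 : ∀ v : (P.pull φ hφ).fact.M, s ((P.pull φ hφ).val v) ∈
      LinearMap.range (mfinb_mv (mfinb_KK T P.e)) := fun v =>
    (mfinb_mem P.idem _).2 (c2 _)
  have m2 : ∀ v ∈ LinearMap.range (mfinb_mv (mfinb_KK T P.e)), (-Z) v ∈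
      LinearMap.range (mfinb_mv (mfinb_KK T P.e)) := fun v _ =>
    (mfinb_mem P.idem _).2 (by
      rw [LinearMap.neg_apply, Matrix.mulVec_neg, c5])
  let r : FMap (P.pull φ hφ).fact (mfinb_obj T h hh P) :=
    { g := LinearMap.codRestrict (LinearMap.range (mfinb_mv (mfinb_KK T P.e)))
        (s ∘ₗ (P.pull φ hφ).val) m1
      ev := by
        intro v
        apply Subtype.ext
        change (KG T P.γ).mulVec (s ((P.pull φ hφ).val v)) =
          s (P.γ.mulVec ((P.pull φ hφ).val v))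
        rw [c4]
      cl := by
        intro v
        apply Subtype.ext
        change (KD T h P.γ P.d).mulVec (s ((P.pull φ hφ).val v)) =
          s ((P.d.map φ).mulVec ((P.pull φ hφ).val v))
        rw [c3] }
  refine ⟨r, (-Z).restrict m2, 0, ?_, ?_, ?_, ?_⟩
  · rintro ⟨v, hv⟩
    apply Subtype.ext
    change (KG T P.γ).mulVec (- Z v) = - - Z ((KG T P.γ).mulVec v)
    rw [Matrix.mulVec_neg, c7]
  · intro v
    rw [LinearMap.zero_apply, LinearMap.zero_apply, map_zero, neg_zero]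
  · rintro ⟨v, hv⟩
    apply Subtype.ext
    change s (KP (mfinb_Th hΨ (Ix P.p P.q) H v)) - v =
      (KD T h P.γ P.d).mulVec (- Z v) + - Z ((KD T h P.γ P.d).mulVec v)
    rw [Matrix.mulVec_neg, ← neg_add, c6, (mfinb_mem P.idem v).1 hv, neg_sub]
  · intro v
    rw [LinearMap.zero_apply, LinearMap.zero_apply, map_zero, add_zero, sub_eq_zero]
    apply MF.val_inj
    change KP (mfinb_Th hΨ (Ix P.p P.q) H (s ((P.pull φ hφ).val v))) = (P.pull φ hφ).val v
    rw [c1]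
    exact (P.pull φ hφ).e_coe v

/-- the weak equivalence from `K` to the pull back -/
def mfinb_wk (hCON : S_CON.{u}) (hGH : G * H = 1) (hHG : H * G = 1) :
    Wk (mfinb_K T h hh) (DGF.pull φ hφ) where
  η := mfinb_eta hT hh hφ hΨ hΨT hDD hgam
  nat a v := mfinb_eta_nat hT hh hφ hΨ hΨT hDD hgam a v
  eqv := mfinb_eta_eqv hT hh hφ hΨ hΨT hDD hgam hCON hGH hHG

end Eta

end Wk

end Basic

theorem m_FINBL (hCON : S_CON.{u}) : S_FINBL.{u} := by
  intro k _ n A _ _ _ T hk hT f h hh φ hφ Ψ hΨ hΨT G H hGH hHG hDD hgam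
  have hDD' : H * (DD h).map Ψ = DD h * H := by
    have e1 : H * ((DD h).map Ψ * G) * H = H * (G * DD h) * H := by rw [hDD]
    rw [Matrix.mul_assoc, Matrix.mul_assoc, hGH, Matrix.mul_one, ← Matrix.mul_assoc, hHG,
      Matrix.one_mul] at e1
    exact e1
  have hgam' : gam (BB n A) * H = H * gam (BB n A) := by
    have e1 : H * (gam (BB n A) * G) * H = H * (G * gam (BB n A)) * H := by rw [hgam]
    rw [Matrix.mul_assoc, Matrix.mul_assoc, hGH, Matrix.mul_one, ← Matrix.mul_assoc, hHG,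
      Matrix.one_mul] at e1
    exact e1.symm
  refine ⟨mfinb_K T h hh, mfinb_K_Lin T hk h hh, ⟨?_⟩, ⟨?_⟩⟩
  · refine mfinb_wk (Ψ := RingEquiv.refl _) (G := 1) (H := 1) hT hh rfl (fun _ => rfl)
      (fun _ => rfl) ?_ ?_ hCON (Matrix.mul_one _) (Matrix.mul_one _)
    · rw [Matrix.one_mul, Matrix.mul_one]
      rfl
    · rw [Matrix.one_mul, Matrix.mul_one]
  · exact mfinb_wk hT hh hφ hΨ hΨT hDD' hgam' hCON hGH hHG

end

end Pool.Agent.MFI
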