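import Pool.Agent.MFI.St

/-!
# Isotopy invariance of matrix factorizations (MP_c8c50b_ag), module GEN (helper50)

The reduction of the final statement to the core theorem.
-/

set_option autoImplicit false

open PowerSeries
open Finset.HasAntidiagonal (antidiagonal mem_antidiagonal)

namespace Pool.Agent.MFI

universe u

noncomputable section

/-! ## precomposition of dg functors with a pull back -/

section Pre

variable {A : Type u} [CommRing A] {f : A}

/-- precomposition with the pull back along `φ` -/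
def mgen_pre (K : DGF A f A f) (φ : A →+* A) (h : φ f = f) : DGF A f A f where
  obj P := K.obj (P.pull φ h)
  map a := K.map (a.pull φ h)
  map_add a b c hc := K.map_add _ _ _ (by
    change c.u.map φ = a.u.map φ + b.u.map φ
    rw [hc]
    ext i j
    simp)
  map_one a ha := K.map_one _ (by
    change a.u.map φ = _
    rw [ha]
    rfl)
  map_comp a b c hc := K.map_comp _ _ _ (by
    change c.u.map φ = b.u.map φ * a.u.map φ
    rw [hc, Matrix.map_mul])
  map_gr {P Q} a c hc v := K.map_gr _ _ (by
    change c.u.map φ = sg A Q.p Q.q * a.u.map φ * sg A P.p P.q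
    rw [hc, Matrix.map_mul, Matrix.map_mul, MF.γ, MF.γ, ← sg_map φ, ← sg_map φ]) v
  map_d {P Q} a c hc v := K.map_d _ _ (by
    change c.u.map φ = Q.d.map φ * a.u.map φ -
      sg A Q.p Q.q * a.u.map φ * sg A P.p P.q * P.d.map φ
    have e1 : (Q.d * a.u - Q.γ * a.u * P.γ * P.d).map φ =
        (Q.d * a.u).map φ - (Q.γ * a.u * P.γ * P.d).map φ := by
      ext i j
      simp only [Matrix.map_apply, Matrix.sub_apply, map_sub]
    rw [hc, e1, Matrix.map_mul, Matrix.map_mul, Matrix.map_mul, Matrix.map_mul, MF.γ, MF.γ,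
      ← sg_map φ, ← sg_map φ]) v

/-- precomposition of a weak equivalence -/
def mgen_preW {K F : DGF A f A f} (W : Wk K F) (φ : A →+* A) (h : φ f = f) :
    Wk (mgen_pre K φ h) (mgen_pre F φ h) where
  η P := W.η (P.pull φ h)
  nat a v := W.nat (a.pull φ h) v
  eqv P := W.eqv (P.pull φ h)

lemma mgen_pre_pull (φ β : A →+* A) (h : φ f = f) (hβ : β f = f)
    (hc : (β.comp φ) f = f) :
    mgen_pre (DGF.pull β hβ) φ h = DGF.pull (β.comp φ) hc := rfl

lemma mgen_pull_congr {β γ : A →+* A} (e : β = γ) (hβ : β f = f) (hγ : γ f = f) :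
    DGF.pull β hβ = DGF.pull γ hγ := by
  subst e
  rfl

end Pre

/-! ## derivations -/

section Der

variable {k : Type u} [Field k] {A : Type u} [CommRing A] [Algebra k A] {I : Ideal A} {n : ℕ}

lemma mgen_sum_apply {M : Type u} [AddCommGroup M] [Module A M] [Module k M]
    {ι : Type*} (s : Finset ι) (D : ι → Derivation k A M) (a : A) :
    (∑ i ∈ s, D i) a = ∑ i ∈ s, D i a := by
  classical
  induction s using Finset.induction_on with
  | empty => simp
  | insert i s hi ih => rw [Finset.sum_insert hi, Finset.sum_insert hi, Derivation.add_apply, ih]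

/-- a derivation into a separated module is determined by the values on the coordinates -/
lemma mgen_der (X : Etale k A I n) {M : Type u} [AddCommGroup M] [Module A M] [Module k M]
    [IsScalarTower k A M] [IsHausdorff I M] (δ : Derivation k A M) (a : A) :
    δ a = ∑ l, X.D l a • δ (X.x l) := by
  have key : ∀ a, (δ - ∑ l, (LinearMap.toSpanSingleton A M (δ (X.x l))).compDer (X.D l)) a =
      δ a - ∑ l, X.D l a • δ (X.x l) := by
    intro a
    rw [Derivation.sub_apply, mgen_sum_apply]
    congr 1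
  have h := X.det M (δ - ∑ l, (LinearMap.toSpanSingleton A M (δ (X.x l))).compDer (X.D l)) (by
    intro j
    rw [key]
    have h2 : ∀ l, X.D l (X.x j) • δ (X.x l) = if l = j then δ (X.x l) else 0 := by
      intro l
      rw [X.dual]
      split_ifs
      · rw [one_smul]
      · rw [zero_smul]
    rw [Finset.sum_congr rfl fun l _ => h2 l]
    simp)
  have h3 := key a
  rw [h, Derivation.zero_apply] at h3
  exact (sub_eq_zero.1 h3.symm)

/-- the commuting derivations -/
def mgen_cder [IsHausdorff I A] (X : Etale k A I n) : Cder n A where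
  D i := (X.D i).toLinearMap.toAddMonoidHom
  leib i a b := by
    change X.D i (a * b) = X.D i a * b + a * X.D i b
    rw [Derivation.leibniz, smul_eq_mul, smul_eq_mul]
    ring
  comm i j a := by
    change X.D i (X.D j a) = X.D j (X.D i a)
    have h : ⁅X.D i, X.D j⁆ = 0 := X.det A ⁅X.D i, X.D j⁆ (by
      intro l
      rw [Derivation.commutator_apply, X.dual, X.dual]
      have h1 : ∀ (i : Fin n) (p : Prop) [Decidable p], X.D i (if p then 1 else 0) = 0 := by
        intro i p _
        split_ifs
        · exact (X.D i).map_one_eq_zero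
        · exact map_zero _
      rw [h1, h1, sub_zero])
    have h2 : ⁅X.D i, X.D j⁆ a = 0 := by rw [h, Derivation.zero_apply]
    rw [Derivation.commutator_apply] at h2
    exact sub_eq_zero.1 h2
  x := X.x
  dual := X.dual

lemma mgen_cder_D [IsHausdorff I A] (X : Etale k A I n) (i : Fin n) (a : A) :
    (mgen_cder X).D i a = X.D i a := rfl

end Der

/-! ## the module of series -/

section TM

/-- the series, with `A` acting through `φ` -/
def mgen_TM {A : Type u} [CommRing A] (_φ : A →+* PowerSeries A) : Type u := PowerSeries A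

variable {A : Type u} [CommRing A] (φ : A →+* PowerSeries A)

/-- the series of an element -/
def mgen_to {φ : A →+* PowerSeries A} (x : mgen_TM φ) : PowerSeries A := x

/-- the element of a series -/
def mgen_of (φ : A →+* PowerSeries A) (x : PowerSeries A) : mgen_TM φ := x

instance mgen_grp : AddCommGroup (mgen_TM φ) := inferInstanceAs (AddCommGroup (PowerSeries A))

instance mgen_mod : Module A (mgen_TM φ) where
  smul a x := mgen_of φ (φ a * mgen_to x)
  one_smul x := by
    change mgen_of φ (φ 1 * mgen_to x) = x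
    rw [map_one, one_mul]
    rfl
  mul_smul a b x := by
    change mgen_of φ (φ (a * b) * mgen_to x) = mgen_of φ (φ a * (φ b * mgen_to x))
    rw [map_mul, mul_assoc]
  smul_zero a := by
    change mgen_of φ (φ a * 0) = mgen_of φ 0
    rw [mul_zero]
  smul_add a x y := by
    change mgen_of φ (φ a * (mgen_to x + mgen_to y)) = mgen_of φ (φ a * mgen_to x + φ a * mgen_to y)
    rw [mul_add]
  add_smul a b x := by
    change mgen_of φ (φ (a + b) * mgen_to x) = mgen_of φ (φ a * mgen_to x + φ b * mgen_to x)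
    rw [map_add, add_mul]
  zero_smul x := by
    change mgen_of φ (φ 0 * mgen_to x) = mgen_of φ 0
    rw [map_zero, zero_mul]

variable {k : Type u} [Field k] [Algebra k A]

instance mgen_modk : Module k (mgen_TM φ) := Module.compHom (mgen_TM φ) (algebraMap k A)

instance mgen_tower : IsScalarTower k A (mgen_TM φ) where
  smul_assoc c a x := by
    change (c • a) • x = (algebraMap k A c) • (a • x)
    rw [Algebra.smul_def, mul_smul]

lemma mgen_InF {I : Ideal A} (hc : ∀ a ∈ I, ∀ m, coeff m (φ a) ∈ I) :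
    ∀ N, ∀ a ∈ I ^ N, (fA I).InF N (φ a) := by
  intro N
  induction N with
  | zero =>
    intro a _ m
    exact (fA I).zero _
  | succ N ih =>
    intro a ha
    rw [pow_succ] at ha
    refine Submodule.mul_induction_on ha ?_ ?_
    · intro r hr s hs
      rw [map_mul]
      refine Filt.InF.mul (ih r hr) ?_
      intro m
      rw [mem_fA, pow_one]
      exact hc s hs m
    · intro x y hx hy
      rw [map_add]
      exact hx.add hy

lemma mgen_haus {I : Ideal A} [IsHausdorff I A] (hc : ∀ a ∈ I, ∀ m, coeff m (φ a) ∈ I) :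
    IsHausdorff I (mgen_TM φ) := by
  constructor
  intro x hx
  have h1 : ∀ N, (fA I).InF N (mgen_to x) := by
    intro N
    have h2 := hx N
    rw [SModEq.zero] at h2
    refine Submodule.smul_induction_on (p := fun y => (fA I).InF N (mgen_to y)) h2 ?_ ?_
    · intro r hr y _
      change (fA I).InF N (φ r * mgen_to y)
      exact Filt.InF.mul_right _ (mgen_InF φ hc N r hr)
    · intro y z hy hz
      exact Filt.InF.add (φ := fA I) hy hz
  have h3 : mgen_to x = 0 := by
    refine PowerSeries.ext (R := A) fun m => ?_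
    rw [map_zero]
    refine IsHausdorff.haus' (I := I) (M := A) _ fun N => ?_
    rw [SModEq.zero, smul_eq_mul, Ideal.mul_top]
    exact h1 N m
  exact h3

/-- the derivation `a ↦ d/dt φ(a)` -/
def mgen_dtD (hk : ∀ c : k, φ (algebraMap k A c) = C (algebraMap k A c)) :
    Derivation k A (mgen_TM φ) :=
  Derivation.mk' (R := k) (A := A) (M := mgen_TM φ)
    { toFun := fun a => mgen_of φ (dt (φ a))
      map_add' := fun a b => by
        change mgen_of φ (dt (φ (a + b))) = mgen_of φ (dt (φ a) + dt (φ b))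
        rw [map_add, map_add]
      map_smul' := fun c a => by
        change mgen_of φ (dt (φ (c • a))) = mgen_of φ (φ (algebraMap k A c) * dt (φ a))
        rw [Algebra.smul_def, map_mul, dt_mul, hk, dt_C, zero_mul, zero_add] }
    (fun a b => by
      change mgen_of φ (dt (φ (a * b))) = mgen_of φ (φ a * dt (φ b) + φ b * dt (φ a))
      rw [map_mul, dt_mul, add_comm, mul_comm (dt (φ a))])

lemma mgen_dtD_sum (hk : ∀ c : k, φ (algebraMap k A c) = C (algebraMap k A c)) {n : ℕ}
    (u : Fin n → A) (y : Fin n → A) :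
    (∑ l, u l • mgen_dtD φ hk (y l)) = mgen_of φ (∑ l, φ (u l) * dt (φ (y l))) := by
  have h : ∀ s : Finset (Fin n), (∑ l ∈ s, u l • mgen_dtD φ hk (y l)) =
      mgen_of φ (∑ l ∈ s, φ (u l) * dt (φ (y l))) := by
    classical
    intro s
    induction s using Finset.induction_on with
    | empty => rfl
    | insert i s hi ih =>
      rw [Finset.sum_insert hi, Finset.sum_insert hi, ih]
      rfl
  exact h Finset.univ

end TM

/-! ## the theorem -/

section Main

variable {k : Type u} [Field k] {A : Type u} [CommRing A] [Algebra k A] {I : Ideal A} {n : ℕ}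

/-- the chain rule for the family -/
lemma mgen_chain [IsHausdorff I A] (X : Etale k A I n) {f : A} (Φ : Family X f) (a : A) :
    dt (Φ.φ a) = ∑ l, Φ.φ (X.D l a) * dt (Φ.φ (X.x l)) := by
  have hk : ∀ c : k, (Φ.φ : A →+* PowerSeries A) (algebraMap k A c) = C (algebraMap k A c) :=
    fun c => (Φ.φ.commutes c).trans (PowerSeries.algebraMap_apply ..)
  have := mgen_haus (Φ.φ : A →+* PowerSeries A) Φ.cont
  have h := mgen_der X (mgen_dtD (Φ.φ : A →+* PowerSeries A) hk) a
  rw [mgen_dtD_sum] at h
  exact h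

lemma mgen_vel (X : Etale k A I n) {f : A} (Φ : Family X f) (i : Fin n) :
    dt (Φ.φ (X.x i)) = ∑ j, Φ.b i j * Φ.φ (X.D j f) := by
  rw [← Φ.vel]
  ext m
  rw [coeff_dt, PowerSeries.coeff_derivative, nsmul_eq_mul]
  push_cast
  ring

/-- the conjugate derivation `β (D_k (α a))` -/
def mgen_conj (δ : Derivation k A A) (α β : A →+* A) (hβα : ∀ a, β (α a) = a)
    (hα : ∀ c : k, α (algebraMap k A c) = algebraMap k A c)
    (hβ : ∀ c : k, β (algebraMap k A c) = algebraMap k A c) : Derivation k A A :=
  Derivation.mk' (R := k) (A := A) (M := A)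
    { toFun := fun a => β (δ (α a))
      map_add' := fun a b => by rw [map_add, map_add, map_add]
      map_smul' := fun c a => by
        change β (δ (α (c • a))) = c • β (δ (α a))
        rw [Algebra.smul_def, Algebra.smul_def, map_mul, hα, Derivation.leibniz,
          Derivation.map_algebraMap, smul_zero, add_zero, smul_eq_mul, map_mul, hβ] }
    (fun a b => by
      change β (δ (α (a * b))) = a * β (δ (α b)) + b * β (δ (α a))
      rw [map_mul, Derivation.leibniz, smul_eq_mul, smul_eq_mul, map_add, map_mul, map_mul, hβα,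
        hβα])

lemma mgen_conj_eq [IsHausdorff I A] (X : Etale k A I n) (α β : A →+* A)
    (hβα : ∀ a, β (α a) = a) (hαβ : ∀ a, α (β a) = a)
    (hα : ∀ c : k, α (algebraMap k A c) = algebraMap k A c)
    (hβ : ∀ c : k, β (algebraMap k A c) = algebraMap k A c) (i : Fin n) (a : A) :
    X.D i (α a) = ∑ l, α (X.D l a) * X.D i (α (X.x l)) := by
  have h : β (X.D i (α a)) = ∑ l, X.D l a * β (X.D i (α (X.x l))) :=
    mgen_der X (mgen_conj (X.D i) α β hβα hα hβ) a
  have h2 := congrArg α h
  rw [hαβ, map_sum] at h2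
  rw [h2]
  refine Finset.sum_congr rfl fun l _ => ?_
  rw [map_mul, hαβ]

/-- the family with `φ_0 = 1` -/
def mgen_fam [IsHausdorff I A] (X : Etale k A I n) {f : A} (Φ : Family X f) (α β : A →+* A)
    (hβα : ∀ a, β (α a) = a) (hαβ : ∀ a, α (β a) = a)
    (hα : ∀ c : k, α (algebraMap k A c) = algebraMap k A c)
    (hβ : ∀ c : k, β (algebraMap k A c) = algebraMap k A c)
    (h0 : ∀ a, coeff 0 (Φ.φ a) = β a) (hf : α f = f) : Fam (mgen_cder X) I f where
  φ := (Φ.φ : A →+* PowerSeries A).comp α
  rst a := Φ.rst (α a)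
  init a := by
    change coeff 0 (Φ.φ (α a)) = a
    rw [h0, hβα]
  b l m := ∑ i, ∑ j, Φ.φ (X.D i (α (X.x l))) * Φ.b i j * Φ.φ (X.D j (α (X.x m)))
  brst l m := by
    refine Filt.Rst.sum _ _ fun i _ => Filt.Rst.sum _ _ fun j _ => ?_
    have h1 : (fA I).Rst (Φ.φ (X.D i (α (X.x l)))) := Φ.rst _
    have h2 : (fA I).Rst (Φ.b i j) := Φ.brst i j
    have h3 : (fA I).Rst (Φ.φ (X.D j (α (X.x m)))) := Φ.rst _
    exact (h1.mul h2).mul h3
  anti l m := by
    rw [Finset.sum_comm, ← Finset.sum_neg_distrib]
    refine Finset.sum_congr rfl fun i _ => ?_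
    rw [← Finset.sum_neg_distrib]
    refine Finset.sum_congr rfl fun j _ => ?_
    rw [Φ.anti j i]
    ring
  vel a := by
    change dt (Φ.φ (α a)) = ∑ l, (∑ m, (∑ i, ∑ j,
      Φ.φ (X.D i (α (X.x l))) * Φ.b i j * Φ.φ (X.D j (α (X.x m)))) * Φ.φ (α (X.D m f))) *
        Φ.φ (α (X.D l a))
    have e1 : ∀ j, Φ.φ (X.D j f) = ∑ m, Φ.φ (α (X.D m f)) * Φ.φ (X.D j (α (X.x m))) := by
      intro j
      have h := mgen_conj_eq X α β hβα hαβ hα hβ j f
      rw [hf] at h
      rw [h, map_sum]
      exact Finset.sum_congr rfl fun m _ => map_mul _ _ _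
    have e2 : ∀ i, Φ.φ (X.D i (α a)) =
        ∑ l, Φ.φ (α (X.D l a)) * Φ.φ (X.D i (α (X.x l))) := by
      intro i
      rw [mgen_conj_eq X α β hβα hαβ hα hβ i a, map_sum]
      exact Finset.sum_congr rfl fun m _ => map_mul _ _ _
    rw [mgen_chain X Φ (α a)]
    have e3 : ∀ i, Φ.φ (X.D i (α a)) * dt (Φ.φ (X.x i)) =
        ∑ l, ∑ m, ∑ j, (Φ.φ (X.D i (α (X.x l))) * Φ.b i j * Φ.φ (X.D j (α (X.x m)))) *
          Φ.φ (α (X.D m f)) * Φ.φ (α (X.D l a)) := by
      intro i
      rw [mgen_vel X Φ i, e2 i, Finset.sum_mul]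
      refine Finset.sum_congr rfl fun l _ => ?_
      rw [Finset.mul_sum, Finset.sum_comm]
      refine Finset.sum_congr rfl fun j _ => ?_
      rw [e1 j, Finset.mul_sum, Finset.mul_sum]
      refine Finset.sum_congr rfl fun m _ => ?_
      ring
    rw [Finset.sum_congr rfl fun i _ => e3 i, Finset.sum_comm]
    refine Finset.sum_congr rfl fun l _ => ?_
    rw [Finset.sum_comm, Finset.sum_mul]
    refine Finset.sum_congr rfl fun m _ => ?_
    rw [Finset.sum_mul, Finset.sum_mul]
    refine Finset.sum_congr rfl fun i _ => ?_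
    rw [Finset.sum_mul, Finset.sum_mul]

end Main

theorem m_GEN (hCORE : S_CORE.{u}) (hEV : S_EV.{u}) (hCPL : S_CPL.{u}) : S_GEN.{u} := by
  intro k A _ _ _ _ I hadic hred hmin n X f hf Φ ψ hψ hbij h t
  have hcpl : (fA I).Cpl := hCPL.1 I hadic
  have : IsHausdorff I A := hadic.toIsHausdorff
  let _ : Algebra ℚ A := ((algebraMap k A).comp (algebraMap ℚ k)).toAlgebra
  -- the value at 0
  have h0 : ∀ a, coeff 0 (Φ.φ a) = ψ 0 a := by
    intro a
    have h1 : ψ 0 a - coeff 0 (Φ.φ a) = 0 := by
      refine hcpl.sep _ fun N => ?_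
      obtain ⟨M, hM⟩ := hψ 0 a N
      have h2 := hM (M + 1) (Nat.le_succ M)
      rw [Finset.sum_range_succ', map_zero] at h2
      have h3 : ∑ j ∈ Finset.range M, coeff (j + 1) (Φ.φ a) * (0 : A) ^ (j + 1) = 0 :=
        Finset.sum_eq_zero fun j _ => by rw [pow_succ, mul_zero, mul_zero]
      rw [h3, zero_add, pow_zero, mul_one] at h2
      exact h2
    exact (sub_eq_zero.1 h1).symm
  have hβ : ∀ c : k, ψ 0 (algebraMap k A c) = algebraMap k A c := by
    intro c
    have h1 : Φ.φ (algebraMap k A c) = C (algebraMap k A c) :=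
      (Φ.φ.commutes c).trans (PowerSeries.algebraMap_apply ..)
    rw [← h0, h1]
    exact PowerSeries.coeff_zero_C _
  set e : A ≃+* A := RingEquiv.ofBijective (ψ 0) hbij with he
  set α : A →+* A := (e.symm : A →+* A) with hαdef
  have hβα : ∀ a, ψ 0 (α a) = a := fun a => e.apply_symm_apply a
  have hαβ : ∀ a, α (ψ 0 a) = a := fun a => e.symm_apply_apply a
  have hα : ∀ c : k, α (algebraMap k A c) = algebraMap k A c := by
    intro c
    have h1 := hαβ (algebraMap k A c)
    rwa [hβ] at h1
  have hαf : α f = f := by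
    have h1 := hαβ f
    rwa [h 0] at h1
  have hcomp : ((ψ t).comp α) f = f := by
    rw [RingHom.comp_apply, hαf, h t]
  obtain ⟨K, ⟨W1⟩, ⟨W2⟩⟩ := hCORE (mgen_cder X) I hadic hred hmin f hf
    (mgen_fam X Φ α (ψ 0) hβα hαβ hα hβ h0 hαf) (algebraMap k A t)
    (fun i => Derivation.map_algebraMap (X.D i) t) ((ψ t).comp α) (by
      intro a
      symm
      refine (hEV (fA I) hcpl (algebraMap k A t) (fun x => mul_comm _ _)).2.1 _ _ ?_
      exact hψ t (α a)) hcomp
  refine ⟨mgen_pre K (ψ 0) (h 0), ⟨?_⟩, ⟨?_⟩⟩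
  · exact mgen_preW W1 (ψ 0) (h 0)
  · have W3 := mgen_preW W2 (ψ 0) (h 0)
    have hc : (((ψ t).comp α).comp (ψ 0)) f = f := by
      rw [RingHom.comp_apply, h 0, hcomp]
    rw [mgen_pre_pull (ψ 0) ((ψ t).comp α) (h 0) hcomp hc] at W3
    have e1 : ((ψ t).comp α).comp (ψ 0) = ψ t := by
      ext a
      rw [RingHom.comp_apply, RingHom.comp_apply, hαβ]
    rw [mgen_pull_congr e1 hc (h t)] at W3
    exact W3

end

end Pool.Agent.MFI
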