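import Pool.Agent.MFI.St2
import Pool.Agent.MFI.M_GEN

/-!
# Isotopy invariance of matrix factorizations (MP_c8c50b_ag), module GENL (helper50)

The reduction of the final statement to the core theorem, with linear dg functors.
-/

set_option autoImplicit false

open PowerSeries
open Finset.HasAntidiagonal (antidiagonal mem_antidiagonal)

namespace Pool.Agent.MFI

universe u

noncomputable section

lemma mgen_pre_lin {k : Type u} [Field k] {A : Type u} [CommRing A] [Algebra k A] {f : A}
    {K : DGF A f A f} (hK : K.Lin k) (φ : A →+* A) (h : φ f = f)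
    (hφ : ∀ c : k, φ (algebraMap k A c) = algebraMap k A c) : (mgen_pre K φ h).Lin k := by
  intro P Q r a c hc v
  refine hK r (a.pull φ h) (c.pull φ h) ?_ v
  change c.u.map φ = algebraMap k A r • a.u.map φ
  rw [hc]
  ext i j
  simp only [Matrix.map_apply, Matrix.smul_apply, smul_eq_mul, map_mul, hφ]

theorem m_GENL (hCORE : S_COREL.{u}) (hEV : S_EV.{u}) (hCPL : S_CPL.{u}) : S_GENL.{u} := by
  intro k A _ _ _ _ I hadic hred hmin n X f hf Φ ψ hψ hbij h t
  have hcpl : (fA I).Cpl := hCPL.1 I hadic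
  have : IsHausdorff I A := hadic.toIsHausdorff
  let _ : Algebra ℚ A := ((algebraMap k A).comp (algebraMap ℚ k)).toAlgebra
  -- the value at 0
  have h0 : ∀ a, coeff 0 (Φ.φ a) = ψ 0 a := by
    intro a
    have h1 : ψ 0 a - coeff 0 (Φ.φ a) = 0 := by
      refine hcpl.sep _ fun N => ?_
      obtain ⟨M, hM⟩ := hψ 0 a N
      have h2 := hM (M + 1) (Nat.le_succ M)
      rw [Finset.sum_range_succ', map_zero] at h2
      have h3 : ∑ j ∈ Finset.range M, coeff (j + 1) (Φ.φ a) * (0 : A) ^ (j + 1) = 0 :=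
        Finset.sum_eq_zero fun j _ => by rw [pow_succ, mul_zero, mul_zero]
      rw [h3, zero_add, pow_zero, mul_one] at h2
      exact h2
    exact (sub_eq_zero.1 h1).symm
  have hβ : ∀ c : k, ψ 0 (algebraMap k A c) = algebraMap k A c := by
    intro c
    have h1 : Φ.φ (algebraMap k A c) = C (algebraMap k A c) :=
      (Φ.φ.commutes c).trans (PowerSeries.algebraMap_apply ..)
    rw [← h0, h1]
    exact PowerSeries.coeff_zero_C _
  set e : A ≃+* A := RingEquiv.ofBijective (ψ 0) hbij with he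
  set α : A →+* A := (e.symm : A →+* A) with hαdef
  have hβα : ∀ a, ψ 0 (α a) = a := fun a => e.apply_symm_apply a
  have hαβ : ∀ a, α (ψ 0 a) = a := fun a => e.symm_apply_apply a
  have hα : ∀ c : k, α (algebraMap k A c) = algebraMap k A c := by
    intro c
    have h1 := hαβ (algebraMap k A c)
    rwa [hβ] at h1
  have hαf : α f = f := by
    have h1 := hαβ f
    rwa [h 0] at h1
  have hcomp : ((ψ t).comp α) f = f := by
    rw [RingHom.comp_apply, hαf, h t]
  obtain ⟨K, hKL, ⟨W1⟩, ⟨W2⟩⟩ := hCORE (k := k) (mgen_cder X) I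
    (fun i r => Derivation.map_algebraMap (X.D i) r) hadic hred hmin f hf
    (mgen_fam X Φ α (ψ 0) hβα hαβ hα hβ h0 hαf) t ((ψ t).comp α) (by
      intro a
      symm
      refine (hEV (fA I) hcpl (algebraMap k A t) (fun x => mul_comm _ _)).2.1 _ _ ?_
      exact hψ t (α a)) hcomp
  refine ⟨mgen_pre K (ψ 0) (h 0), mgen_pre_lin hKL (ψ 0) (h 0) hβ, ⟨?_⟩, ⟨?_⟩⟩
  · exact mgen_preW W1 (ψ 0) (h 0)
  · have W3 := mgen_preW W2 (ψ 0) (h 0)
    have hc : (((ψ t).comp α).comp (ψ 0)) f = f := by
      rw [RingHom.comp_apply, h 0, hcomp]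
    rw [mgen_pre_pull (ψ 0) ((ψ t).comp α) (h 0) hcomp hc] at W3
    have e1 : ((ψ t).comp α).comp (ψ 0) = ψ t := by
      ext a
      rw [RingHom.comp_apply, RingHom.comp_apply, hαβ]
    rw [mgen_pull_congr e1 hc (h t)] at W3
    exact W3

end

end Pool.Agent.MFI
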