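import Pool.Agent.MFI.St3
import Pool.Agent.MFI.M_GENL

/-!
# Isotopy invariance of matrix factorizations (MP_c8c50b_ag), module GENF (helper50)

The reduction of the final statement over a frame to the core theorem.
-/

set_option autoImplicit false

open PowerSeries
open Finset.HasAntidiagonal (antidiagonal mem_antidiagonal)

namespace Pool.Agent.MFI

universe u

noncomputable section

section Main

variable {k : Type u} [Field k] {A : Type u} [CommRing A] [Algebra k A] {I : Ideal A} {n : ℕ}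

/-- the chain rule for the family -/
lemma mgenf_chain [IsHausdorff I A] (X : Frame k A I n) {f : A} (Φ : FamilyF X f) (a : A) :
    dt (Φ.φ a) = ∑ l, Φ.φ (X.D l a) * dt (Φ.φ (X.x l)) := by
  have hk : ∀ c : k, (Φ.φ : A →+* PowerSeries A) (algebraMap k A c) = C (algebraMap k A c) :=
    fun c => (Φ.φ.commutes c).trans (PowerSeries.algebraMap_apply ..)
  exact X.gen_ring (Φ.φ : A →+* PowerSeries A) (fP (fA I))
    (mgen_InF (Φ.φ : A →+* PowerSeries A) Φ.cont) sep_fP
    (dt.comp (Φ.φ : A →+* PowerSeries A).toAddMonoidHom) (by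
      intro a b
      change dt ((Φ.φ : A →+* PowerSeries A) (a * b)) =
        (Φ.φ : A →+* PowerSeries A) a * dt ((Φ.φ : A →+* PowerSeries A) b) +
          (Φ.φ : A →+* PowerSeries A) b * dt ((Φ.φ : A →+* PowerSeries A) a)
      rw [map_mul, dt_mul]
      ring) (by
      intro r
      change dt ((Φ.φ : A →+* PowerSeries A) (algebraMap k A r)) = 0
      rw [hk, dt_C]) a

lemma mgenf_vel (X : Frame k A I n) {f : A} (Φ : FamilyF X f) (i : Fin n) :
    dt (Φ.φ (X.x i)) = ∑ j, Φ.b i j * Φ.φ (X.D j f) := by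
  rw [← Φ.vel, dt_eq_deriv]

lemma mgenf_conj_eq [IsHausdorff I A] (X : Frame k A I n) (α β : A →+* A)
    (hβα : ∀ a, β (α a) = a) (hαβ : ∀ a, α (β a) = a)
    (hα : ∀ c : k, α (algebraMap k A c) = algebraMap k A c)
    (hβ : ∀ c : k, β (algebraMap k A c) = algebraMap k A c) (i : Fin n) (a : A) :
    X.D i (α a) = ∑ l, α (X.D l a) * X.D i (α (X.x l)) := by
  have h : β (X.D i (α a)) = ∑ l, X.D l a * β (X.D i (α (X.x l))) :=
    X.gen A (mgen_conj (X.D i) α β hβα hα hβ) a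
  have h2 := congrArg α h
  rw [hαβ, map_sum] at h2
  rw [h2]
  refine Finset.sum_congr rfl fun l _ => ?_
  rw [map_mul, hαβ]

/-- the chain rule for the family with `φ_0 = 1` -/
lemma mgenf_chain' [IsHausdorff I A] (X : Frame k A I n) {f : A} (Φ : FamilyF X f) (α β : A →+* A)
    (hβα : ∀ a, β (α a) = a) (hαβ : ∀ a, α (β a) = a)
    (hα : ∀ c : k, α (algebraMap k A c) = algebraMap k A c)
    (hβ : ∀ c : k, β (algebraMap k A c) = algebraMap k A c) (a : A) :
    dt (Φ.φ (α a)) = ∑ l, Φ.φ (α (X.D l a)) * dt (Φ.φ (α (X.x l))) := by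
  rw [mgenf_chain X Φ (α a)]
  have e1 : ∀ i, Φ.φ (X.D i (α a)) * dt (Φ.φ (X.x i)) =
      ∑ l, Φ.φ (α (X.D l a)) * (Φ.φ (X.D i (α (X.x l))) * dt (Φ.φ (X.x i))) := by
    intro i
    rw [mgenf_conj_eq X α β hβα hαβ hα hβ i a, map_sum, Finset.sum_mul]
    refine Finset.sum_congr rfl fun l _ => ?_
    rw [map_mul, mul_assoc]
  rw [Finset.sum_congr rfl fun i _ => e1 i, Finset.sum_comm]
  refine Finset.sum_congr rfl fun l _ => ?_
  rw [← Finset.mul_sum, ← mgenf_chain X Φ (α (X.x l))]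

/-- the velocity of the family with `φ_0 = 1` -/
lemma mgenf_vel' [IsHausdorff I A] (X : Frame k A I n) {f : A} (Φ : FamilyF X f) (α β : A →+* A)
    (hβα : ∀ a, β (α a) = a) (hαβ : ∀ a, α (β a) = a)
    (hα : ∀ c : k, α (algebraMap k A c) = algebraMap k A c)
    (hβ : ∀ c : k, β (algebraMap k A c) = algebraMap k A c) (hf : α f = f) (l : Fin n) :
    dt (Φ.φ (α (X.x l))) = ∑ m, (∑ i, ∑ j, Φ.φ (X.D i (α (X.x l))) * Φ.b i j *
      Φ.φ (X.D j (α (X.x m)))) * Φ.φ (α (X.D m f)) := by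
  have e1 : ∀ j, Φ.φ (X.D j f) = ∑ m, Φ.φ (α (X.D m f)) * Φ.φ (X.D j (α (X.x m))) := by
    intro j
    have h := mgenf_conj_eq X α β hβα hαβ hα hβ j f
    rw [hf] at h
    rw [h, map_sum]
    exact Finset.sum_congr rfl fun m _ => map_mul _ _ _
  rw [mgenf_chain X Φ (α (X.x l))]
  have e3 : ∀ i, Φ.φ (X.D i (α (X.x l))) * dt (Φ.φ (X.x i)) =
      ∑ m, ∑ j, (Φ.φ (X.D i (α (X.x l))) * Φ.b i j * Φ.φ (X.D j (α (X.x m)))) *
        Φ.φ (α (X.D m f)) := by
    intro i
    rw [mgenf_vel X Φ i, Finset.mul_sum, Finset.sum_comm]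
    refine Finset.sum_congr rfl fun j _ => ?_
    rw [e1 j, Finset.mul_sum, Finset.mul_sum]
    refine Finset.sum_congr rfl fun m _ => ?_
    ring
  rw [Finset.sum_congr rfl fun i _ => e3 i, Finset.sum_comm]
  refine Finset.sum_congr rfl fun m _ => ?_
  rw [Finset.sum_mul]
  refine Finset.sum_congr rfl fun i _ => ?_
  rw [Finset.sum_mul]

/-- an ideal of a `ℚ`-algebra is divisible -/
lemma mgenf_div [Algebra ℚ A] {y : A} {m : ℕ} (h : (m + 1) • y ∈ I) : y ∈ I := by
  have h1 : ((m + 1 : ℚ)⁻¹) • ((m + 1) • y) = y := by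
    have h3 : ((m + 1) • y : A) = ((m + 1 : ℚ)) • y := by
      rw [show ((m + 1 : ℚ)) = ((m + 1 : ℕ) : ℚ) by push_cast; rfl, Nat.cast_smul_eq_nsmul]
    rw [h3, smul_smul, inv_mul_cancel₀ (by positivity), one_smul]
  rw [← h1, Algebra.smul_def]
  exact Ideal.mul_mem_left _ _ h

/-- the family with `φ_0 = 1` has coefficients in `I` on `I` -/
lemma mgenf_cont [IsHausdorff I A] [Algebra ℚ A] (X : Frame k A I n) {f : A} (Φ : FamilyF X f)
    (α β : A →+* A)
    (hβα : ∀ a, β (α a) = a) (hαβ : ∀ a, α (β a) = a)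
    (hα : ∀ c : k, α (algebraMap k A c) = algebraMap k A c)
    (hβ : ∀ c : k, β (algebraMap k A c) = algebraMap k A c)
    (h0 : ∀ a, coeff 0 (Φ.φ a) = β a) (hf : α f = f) (hI : ∀ i, X.D i f ∈ I) :
    ∀ m, ∀ a ∈ I, coeff m (Φ.φ (α a)) ∈ I := by
  intro m
  induction m using Nat.strong_induction_on with
  | _ m ih =>
    intro a ha
    rcases m with _ | m
    · rw [h0, hβα]
      exact ha
    · refine mgenf_div (m := m) ?_
      rw [← coeff_dt, mgenf_chain' X Φ α β hβα hαβ hα hβ a, map_sum]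
      refine sum_mem fun l _ => ?_
      rw [coeff_mul]
      refine sum_mem fun p hp => Ideal.mul_mem_left _ _ ?_
      have hp2 : p.2 ≤ m := by
        have := mem_antidiagonal.1 hp
        omega
      rw [mgenf_vel' X Φ α β hβα hαβ hα hβ hf l, map_sum]
      refine sum_mem fun j _ => ?_
      rw [coeff_mul]
      refine sum_mem fun q hq => Ideal.mul_mem_left _ _ ?_
      have hq2 : q.2 ≤ p.2 := by
        have := mem_antidiagonal.1 hq
        omega
      exact ih q.2 (by omega) _ (hI j)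

/-- the family with `φ_0 = 1` -/
def mgenf_fam [IsHausdorff I A] [Algebra ℚ A] (X : Frame k A I n) {f : A} (Φ : FamilyF X f)
    (α β : A →+* A)
    (hβα : ∀ a, β (α a) = a) (hαβ : ∀ a, α (β a) = a)
    (hα : ∀ c : k, α (algebraMap k A c) = algebraMap k A c)
    (hβ : ∀ c : k, β (algebraMap k A c) = algebraMap k A c)
    (h0 : ∀ a, coeff 0 (Φ.φ a) = β a) (hf : α f = f) (hI : ∀ i, X.D i f ∈ I) : FamF X f where
  φ := (Φ.φ : A →+* PowerSeries A).comp α
  lin r := by
    change Φ.φ (α (algebraMap k A r)) = C (algebraMap k A r)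
    rw [hα]
    exact (Φ.φ.commutes r).trans (PowerSeries.algebraMap_apply ..)
  rst a := Φ.rst (α a)
  cont a ha m := by
    rw [mem_fA, pow_one]
    exact mgenf_cont X Φ α β hβα hαβ hα hβ h0 hf hI m a ha
  init a := by
    change coeff 0 (Φ.φ (α a)) = a
    rw [h0, hβα]
  b l m := ∑ i, ∑ j, Φ.φ (X.D i (α (X.x l))) * Φ.b i j * Φ.φ (X.D j (α (X.x m)))
  brst l m := by
    refine Filt.Rst.sum _ _ fun i _ => Filt.Rst.sum _ _ fun j _ => ?_
    have h1 : (fA I).Rst (Φ.φ (X.D i (α (X.x l)))) := Φ.rst _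
    have h2 : (fA I).Rst (Φ.b i j) := Φ.brst i j
    have h3 : (fA I).Rst (Φ.φ (X.D j (α (X.x m)))) := Φ.rst _
    exact (h1.mul h2).mul h3
  anti l m := by
    rw [Finset.sum_comm, ← Finset.sum_neg_distrib]
    refine Finset.sum_congr rfl fun i _ => ?_
    rw [← Finset.sum_neg_distrib]
    refine Finset.sum_congr rfl fun j _ => ?_
    rw [Φ.anti j i]
    ring
  vel i := mgenf_vel' X Φ α β hβα hαβ hα hβ hf i

end Main

theorem m_GENF (hCORE : S_COREF.{u}) : S_GENF.{u} := by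
  intro k A _ _ _ _ I hadic hred hmin n X f hf Φ ψ hψ hbij h t
  have hcpl : (fA I).Cpl := m_CPL.1 I hadic
  have : IsHausdorff I A := hadic.toIsHausdorff
  let _ : Algebra ℚ A := ((algebraMap k A).comp (algebraMap ℚ k)).toAlgebra
  -- the value at 0
  have h0 : ∀ a, coeff 0 (Φ.φ a) = ψ 0 a := by
    intro a
    have h1 : ψ 0 a - coeff 0 (Φ.φ a) = 0 := by
      refine hcpl.sep _ fun N => ?_
      obtain ⟨M, hM⟩ := hψ 0 a N
      have h2 := hM (M + 1) (Nat.le_succ M)
      rw [Finset.sum_range_succ', map_zero] at h2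
      have h3 : ∑ j ∈ Finset.range M, coeff (j + 1) (Φ.φ a) * (0 : A) ^ (j + 1) = 0 :=
        Finset.sum_eq_zero fun j _ => by rw [pow_succ, mul_zero, mul_zero]
      rw [h3, zero_add, pow_zero, mul_one] at h2
      exact h2
    exact (sub_eq_zero.1 h1).symm
  have hβ : ∀ c : k, ψ 0 (algebraMap k A c) = algebraMap k A c := by
    intro c
    have h1 : Φ.φ (algebraMap k A c) = C (algebraMap k A c) :=
      (Φ.φ.commutes c).trans (PowerSeries.algebraMap_apply ..)
    rw [← h0, h1]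
    exact PowerSeries.coeff_zero_C _
  set e : A ≃+* A := RingEquiv.ofBijective (ψ 0) hbij with he
  set α : A →+* A := (e.symm : A →+* A) with hαdef
  have hβα : ∀ a, ψ 0 (α a) = a := fun a => e.apply_symm_apply a
  have hαβ : ∀ a, α (ψ 0 a) = a := fun a => e.symm_apply_apply a
  have hα : ∀ c : k, α (algebraMap k A c) = algebraMap k A c := by
    intro c
    have h1 := hαβ (algebraMap k A c)
    rwa [hβ] at h1
  have hαf : α f = f := by
    have h1 := hαβ f
    rwa [h 0] at h1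
  have hcomp : ((ψ t).comp α) f = f := by
    rw [RingHom.comp_apply, hαf, h t]
  obtain ⟨K, hKL, ⟨W1⟩, ⟨W2⟩⟩ := hCORE I hadic hred hmin X f hf
    (mgenf_fam X Φ α (ψ 0) hβα hαβ hα hβ h0 hαf hf) t ((ψ t).comp α) (by
      intro a
      symm
      refine (m_EV (fA I) hcpl (algebraMap k A t) (fun x => mul_comm _ _)).2.1 _ _ ?_
      exact hψ t (α a)) hcomp
  refine ⟨mgen_pre K (ψ 0) (h 0), mgen_pre_lin hKL (ψ 0) (h 0) hβ, ⟨?_⟩, ⟨?_⟩⟩
  · exact mgen_preW W1 (ψ 0) (h 0)
  · have W3 := mgen_preW W2 (ψ 0) (h 0)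
    have hc : (((ψ t).comp α).comp (ψ 0)) f = f := by
      rw [RingHom.comp_apply, h 0, hcomp]
    rw [mgen_pre_pull (ψ 0) ((ψ t).comp α) (h 0) hcomp hc] at W3
    have e1 : ((ψ t).comp α).comp (ψ 0) = ψ t := by
      ext a
      rw [RingHom.comp_apply, RingHom.comp_apply, hαβ]
    rw [mgen_pull_congr e1 hc (h t)] at W3
    exact W3

end

end Pool.Agent.MFI
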