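import Pool.Agent.MFI.St

/-!
# Isotopy invariance of matrix factorizations (MP_c8c50b_ag): module JAC (helper27)
-/

set_option autoImplicit false

open PowerSeries
open Finset.HasAntidiagonal (antidiagonal mem_antidiagonal)

namespace Pool.Agent.MFI

universe u

noncomputable section

section

variable {n : ℕ} {A : Type u} [CommRing A] (𝔡 : Cder n A) (I : Ideal A)

/-- the derivative of the coefficients modulo `I` -/
private def mjac_d (k : Fin n) : PowerSeries A →+ PowerSeries (A ⧸ I) where
  toFun X := mk fun m => Ideal.Quotient.mk I (𝔡.D k (coeff m X))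
  map_zero' := by ext m; simp
  map_add' X Y := by ext m; simp

private lemma mjac_coeff (k : Fin n) (X : PowerSeries A) (m : ℕ) :
    coeff m (mjac_d 𝔡 I k X) = Ideal.Quotient.mk I (𝔡.D k (coeff m X)) := by
  simp [mjac_d]

private lemma mjac_mul (k : Fin n) (X Y : PowerSeries A) :
    mjac_d 𝔡 I k (X * Y) = mjac_d 𝔡 I k X * PowerSeries.map (Ideal.Quotient.mk I) Y +
      PowerSeries.map (Ideal.Quotient.mk I) X * mjac_d 𝔡 I k Y := by
  ext m
  rw [mjac_coeff, coeff_mul, map_sum, map_sum, map_add, coeff_mul, coeff_mul,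
    ← Finset.sum_add_distrib]
  refine Finset.sum_congr rfl fun p _ => ?_
  rw [𝔡.leib, map_add, map_mul, map_mul, mjac_coeff, mjac_coeff, PowerSeries.coeff_map,
    PowerSeries.coeff_map]

private lemma mjac_dt (k : Fin n) (X : PowerSeries A) :
    dt (mjac_d 𝔡 I k X) = mjac_d 𝔡 I k (dt X) := by
  ext m
  rw [coeff_dt, mjac_coeff, mjac_coeff, coeff_dt, map_nsmul, map_nsmul]

end

private lemma mjac_neg {E : Type u} [Ring E] [Algebra ℚ E] {x : E} (h : x = -x) : x = 0 := by
  have h1 : (1 + 1) • x = 0 := by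
    rw [add_smul, one_smul]
    nth_rewrite 2 [h]
    exact add_neg_cancel x
  exact nsmul_inj h1

private lemma mjac_derivative {S : Type u} [CommRing S] (y : PowerSeries S) :
    dt y = PowerSeries.derivative S y := by
  ext m
  rw [coeff_dt, coeff_derivative, nsmul_eq_mul, mul_comm]
  push_cast
  rfl

/-- the determinant of a solution -/
private lemma mjac_det {S : Type u} [CommRing S] [Algebra ℚ S] {n : ℕ} {m : Fin n → Fin n → S}
    {β J : Fin n → Fin n → PowerSeries S} (h : JS m β J) : (Matrix.of J).det = 1 := by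
  have h1 : PowerSeries.derivative S (Matrix.of J).det =
      (Matrix.of fun i l => ∑ j, β i j * C (m j l + m l j)).trace * (Matrix.of J).det := by
    apply liouville
    intro i k
    rw [Matrix.mul_apply, ← mjac_derivative]
    exact h.ode i k
  have h2 : (Matrix.of fun i l => ∑ j, β i j * C (m j l + m l j)).trace = 0 := by
    rw [Matrix.trace]
    simp only [Matrix.diag_apply, Matrix.of_apply]
    refine mjac_neg ?_
    nth_rewrite 1 [Finset.sum_comm]
    rw [← Finset.sum_neg_distrib]
    refine Finset.sum_congr rfl fun j _ => ?_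
    rw [← Finset.sum_neg_distrib]
    refine Finset.sum_congr rfl fun k _ => ?_
    rw [h.anti k j, neg_mul, add_comm]
  rw [h2, zero_mul, ← mjac_derivative] at h1
  rw [eq_C_of_dt h1]
  have h3 : coeff 0 (Matrix.of J).det = 1 := by
    have h4 : coeff 0 (Matrix.of J).det =
        ((PowerSeries.constantCoeff (R := S)).mapMatrix (Matrix.of J)).det := by
      rw [← RingHom.map_det, coeff_zero_eq_constantCoeff_apply]
    rw [h4]
    have h5 : (PowerSeries.constantCoeff (R := S)).mapMatrix (Matrix.of J) = 1 := by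
      ext i k
      rw [RingHom.mapMatrix_apply, Matrix.map_apply, Matrix.of_apply,
        ← coeff_zero_eq_constantCoeff_apply, h.init, Matrix.one_apply]
    rw [h5, Matrix.det_one]
  rw [h3, map_one]

theorem m_JAC (hFAM : S_FAM.{u}) : S_JAC.{u} := by
  intro n A _ _ 𝔡 I f Φ hf m hm
  obtain ⟨-, -, f3, f4, -, f6, f7⟩ := hFAM 𝔡 I f Φ hf
  -- values modulo `I`
  have q1 : ∀ X : PowerSeries A, (fA I).InF 1 X →
      PowerSeries.map (Ideal.Quotient.mk I) X = 0 := by
    intro X hX
    ext l
    rw [PowerSeries.coeff_map, map_zero, Ideal.Quotient.eq_zero_iff_mem]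
    have := hX l
    rwa [mem_fA, pow_one] at this
  have q2 : ∀ a, PowerSeries.map (Ideal.Quotient.mk I) (Φ.φ a) = C (Ideal.Quotient.mk I a) := by
    intro a
    have h1 := q1 _ (f3 a)
    rw [map_sub, sub_eq_zero, PowerSeries.map_C] at h1
    exact h1
  have q3 : ∀ j, PowerSeries.map (Ideal.Quotient.mk I) (Φ.φ (𝔡.D j f)) = 0 := by
    intro j
    rw [q2, Ideal.Quotient.eq_zero_iff_mem.2 (hf j), map_zero]
  have q4 : ∀ i k, Φ.J i k = mjac_d 𝔡 I k (Φ.φ (𝔡.x i)) := fun i k => rfl
  have q5 : ∀ k a, mjac_d 𝔡 I k (Φ.φ a) =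
      ∑ l, C (Ideal.Quotient.mk I (𝔡.D l a)) * Φ.J l k := by
    intro k a
    ext r
    rw [mjac_coeff, f7, map_sum, map_sum]
    refine Finset.sum_congr rfl fun l _ => ?_
    rw [← q2, coeff_mul, map_sum]
    refine Finset.sum_congr rfl fun p _ => ?_
    rw [map_mul, PowerSeries.coeff_map, q4, mjac_coeff]
  have h0 : JS m (fun i j => - PowerSeries.map (Ideal.Quotient.mk I) (Φ.b i j)) Φ.J := by
    refine ⟨fun k j => ?_, fun i k => ?_, fun i k => ?_, fun i k => ?_, fun i k => ?_⟩
    · rw [Φ.anti k j, map_neg]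
    · have e1 : dt (Φ.J i k) = ∑ j, PowerSeries.map (Ideal.Quotient.mk I) (Φ.b i j) *
          ∑ l, C (Ideal.Quotient.mk I (𝔡.D l (𝔡.D j f))) * Φ.J l k := by
        rw [q4, mjac_dt, f6, Fam.w, map_sum]
        refine Finset.sum_congr rfl fun j _ => ?_
        rw [mjac_mul, q3, mul_zero, zero_add, q5]
      rw [e1, Finset.sum_congr rfl fun j _ => Finset.mul_sum _ _ _, Finset.sum_comm]
      refine Finset.sum_congr rfl fun l _ => ?_
      rw [Finset.sum_mul]
      refine Finset.sum_congr rfl fun j _ => ?_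
      rw [hm, map_neg, 𝔡.comm j l, neg_mul_neg, mul_assoc]
    · rw [q4, mjac_coeff, Φ.init, 𝔡.dual]
      by_cases h : i = k
      · rw [if_pos h, if_pos h.symm, map_one]
      · rw [if_neg h, if_neg (fun h' => h h'.symm), map_zero]
    · obtain ⟨M, hM⟩ := Φ.brst i k 1
      refine ⟨M, fun l hl => ?_⟩
      have h1 := hM l hl
      rw [mem_fA, pow_one] at h1
      rw [map_neg, PowerSeries.coeff_map, Ideal.Quotient.eq_zero_iff_mem.2 h1, neg_zero]
    · obtain ⟨M, hM⟩ := Φ.rst (𝔡.x i) 2
      refine ⟨M, fun l hl => ?_⟩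
      have h1 := hM l hl
      rw [mem_fA, pow_two] at h1
      rw [q4, mjac_coeff, Ideal.Quotient.eq_zero_iff_mem]
      refine Submodule.mul_induction_on h1 (fun a ha b hb => ?_) fun a b ha hb => ?_
      · rw [𝔡.leib]
        exact add_mem (I.mul_mem_left _ hb) (I.mul_mem_right _ ha)
      · rw [map_add]
        exact add_mem ha hb
  exact ⟨h0, mjac_det h0⟩

end

end Pool.Agent.MFI
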