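import Pool.Agent.MFI.M_GENF
import Pool.Agent.MFI.M_FINB
import Pool.Agent.MFI.M_CON
import Pool.Agent.MFI.Cat

/-!
# Isotopy invariance of matrix factorizations (MP_c8c50b_ag)

Assembly.
-/

set_option autoImplicit false

namespace Pool.Agent.MFI

universe u

/-- isotopy invariance over a frame, dg form -/
theorem main_GENF : S_GENF.{u} := m_GENF (m_COREF (m_FINBL m_CON))

end Pool.Agent.MFI
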