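import Mathlib

/-!
# Isotopy invariance of matrix factorizations (MP_c8c50b_ag), helper26

Part 6: Liouville's formula, and the descent lemma: an invertible matrix `g` of power series with
`det g = 1` such that conjugation by `g` is polynomial in `t` is itself a matrix of polynomials.
-/

set_option autoImplicit false

open PowerSeries

namespace Pool.Agent.MFI

noncomputable section

section Liouville

variable {R A : Type*} [CommRing R] [CommRing A] [Algebra R A] (δ : Derivation R A A)

lemma der_prod {κ : Type*} [DecidableEq κ] (s : Finset κ) (f : κ → A) :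
    δ (∏ i ∈ s, f i) = ∑ i ∈ s, (∏ j ∈ s.erase i, f j) * δ (f i) := by
  induction s using Finset.induction_on with
  | empty => simp
  | insert a s ha ih =>
    rw [Finset.prod_insert ha, δ.leibniz, ih, Finset.sum_insert ha, Finset.erase_insert ha,
      smul_eq_mul, smul_eq_mul, Finset.mul_sum, add_comm]
    congr 1
    refine Finset.sum_congr rfl fun i hi => ?_
    have h1 : i ≠ a := fun h => ha (h ▸ hi)
    rw [Finset.erase_insert_of_ne h1.symm, Finset.prod_insert (fun h => ha (Finset.mem_of_mem_erase h)),
      mul_assoc]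

variable {ι : Type*} [Fintype ι] [DecidableEq ι]

lemma der_det (M : Matrix ι ι A) :
    δ M.det = ∑ c, (M.updateCol c fun a => δ (M a c)).det := by
  rw [Matrix.det_apply, map_sum]
  have h1 : ∀ c, (M.updateCol c fun a => δ (M a c)).det =
      ∑ σ : Equiv.Perm ι, Equiv.Perm.sign σ •
        ((∏ i ∈ Finset.univ.erase c, M (σ i) i) * δ (M (σ c) c)) := by
    intro c
    rw [Matrix.det_apply]
    refine Finset.sum_congr rfl fun σ _ => ?_
    rw [← Finset.mul_prod_erase Finset.univ _ (Finset.mem_univ c), Matrix.updateCol_self, mul_comm]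
    congr 2
    refine Finset.prod_congr rfl fun i hi => ?_
    rw [Matrix.updateCol_ne (Finset.ne_of_mem_erase hi)]
  rw [Finset.sum_congr rfl fun c _ => h1 c, Finset.sum_comm]
  refine Finset.sum_congr rfl fun σ _ => ?_
  rw [← Finset.smul_sum, ← der_prod]
  rcases Int.units_eq_one_or (Equiv.Perm.sign σ) with h | h <;> rw [h] <;> simp

/-- Liouville's formula -/
lemma liouville {M N : Matrix ι ι A} (h : ∀ i j, δ (M i j) = (N * M) i j) :
    δ M.det = N.trace * M.det := by
  rw [← Matrix.det_transpose, der_det, Matrix.trace, Finset.sum_mul]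
  refine Finset.sum_congr rfl fun c _ => ?_
  have h1 : (fun a => δ (M.transpose a c)) = fun k => ∑ i, N c i • M.transpose k i := by
    funext a
    rw [Matrix.transpose_apply, h, Matrix.mul_apply]
    refine Finset.sum_congr rfl fun i _ => ?_
    rw [Matrix.transpose_apply, smul_eq_mul]
  rw [h1, Matrix.det_updateCol_sum, smul_eq_mul, Matrix.diag_apply]

end Liouville

section Pid

variable {K : Type*} [Field K] [CharZero K]

/-- the inclusion of polynomials into power series -/
abbrev cp : Polynomial K →+* PowerSeries K := Polynomial.coeToPowerSeries.ringHom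

omit [CharZero K] in
lemma cp_inj {p q : Polynomial K} (h : cp p = cp q) : p = q := by
  simpa using h

variable {ι : Type*} [Fintype ι] [DecidableEq ι]

/-- the descent lemma -/
theorem descent (o : ι) (g h : Matrix ι ι (PowerSeries K)) (hgh : g * h = 1)
    (h0 : constantCoeff (h o o) = 1) (hdet : g.det = 1)
    (hc : ∀ x : Matrix ι ι K, ∃ P : Matrix ι ι (Polynomial K),
      g * x.map (PowerSeries.C) = P.map cp * g) :
    ∃ G H : Matrix ι ι (Polynomial K), G.map cp = g ∧ H.map cp = h := by
  classical
  have hs : ∀ i a b j, ∃ s : Polynomial K, cp s = g i a * h b j := by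
    intro i a b j
    obtain ⟨P, hP⟩ := hc (Matrix.single a b 1)
    refine ⟨P i j, ?_⟩
    have h1 : g * (Matrix.single a b (1 : K)).map (PowerSeries.C) * h = P.map cp := by
      rw [hP, mul_assoc, hgh, mul_one]
    have h2 := congrFun (congrFun h1 i) j
    have h3 : (Matrix.single a b (1 : K)).map (PowerSeries.C) =
        Matrix.single a b (1 : PowerSeries K) := by
      rw [Matrix.map_single, map_one]
    rw [h3, Matrix.mul_apply, Finset.sum_eq_single b] at h2
    · rw [Matrix.mul_single_apply_same, mul_one] at h2
      exact h2.symm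
    · intro c _ hcb
      rw [Matrix.mul_single_apply_of_ne (hbj := hcb), zero_mul]
    · intro h4
      exact absurd (Finset.mem_univ b) h4
  choose s hs using hs
  have hoo : h o o ≠ 0 := by
    intro h1
    rw [h1, map_zero] at h0
    exact zero_ne_one h0
  set I : Ideal (Polynomial K) := Ideal.span (Set.range fun q : ι × ι => s q.1 q.2 o o) with hI
  set γ := Submodule.IsPrincipal.generator I with hγ
  have hγI : γ ∈ I := Submodule.IsPrincipal.generator_mem I
  obtain ⟨x, hx⟩ := (Ideal.mem_span_range_iff_exists_fun).1 hγI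
  have hp' : ∀ i a, ∃ p' : Polynomial K, s i a o o = p' * γ := by
    intro i a
    have h1 : s i a o o ∈ I := Ideal.subset_span ⟨(i, a), rfl⟩
    obtain ⟨p', h2⟩ := (Submodule.IsPrincipal.mem_iff_generator_dvd I).1 h1
    exact ⟨p', by rw [h2, mul_comm]⟩
  choose p' hp' using hp'
  set c : PowerSeries K := ∑ q : ι × ι, cp (x q) * g q.1 q.2 with hcd
  have e1 : c * h o o = cp γ := by
    rw [hcd, Finset.sum_mul, ← hx, map_sum]
    refine Finset.sum_congr rfl fun q _ => ?_
    rw [map_mul, hs, mul_assoc]
  have e2 : ∀ i a, g i a = cp (p' i a) * c := by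
    intro i a
    apply mul_right_cancel₀ hoo
    rw [mul_assoc, e1, ← map_mul, ← hp', hs]
  set P' : Matrix ι ι (Polynomial K) := Matrix.of p' with hP'
  have e3 : g = c • P'.map cp := by
    ext1 i a
    rw [Matrix.smul_apply, Matrix.map_apply, hP', Matrix.of_apply, e2, smul_eq_mul, mul_comm]
  set Q' : Matrix ι ι (Polynomial K) :=
    Matrix.of fun b j => ∑ q : ι × ι, x q * s q.1 q.2 b j with hQ'
  have e4 : Q'.map cp = c • h := by
    ext1 b j
    rw [Matrix.smul_apply, Matrix.map_apply, hQ', Matrix.of_apply, map_sum, smul_eq_mul, hcd,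
      Finset.sum_mul]
    refine Finset.sum_congr rfl fun q _ => ?_
    rw [map_mul, hs, mul_assoc]
  have e5 : P' * Q' = 1 := by
    have h1 : (P' * Q').map cp = (1 : Matrix ι ι (Polynomial K)).map cp := by
      rw [Matrix.map_mul, e4, Matrix.mul_smul, ← Matrix.smul_mul, ← e3, hgh, Matrix.map_one]
      · exact map_zero _
      · exact map_one _
    ext1 i j
    have h2 := congrFun (congrFun h1 i) j
    rw [Matrix.map_apply, Matrix.map_apply] at h2
    exact cp_inj h2
  have e6 : IsUnit P'.det := by
    have h1 := congrArg Matrix.det e5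
    rw [Matrix.det_mul, Matrix.det_one] at h1
    exact IsUnit.of_mul_eq_one _ h1
  obtain ⟨r, hr, hrd⟩ := Polynomial.isUnit_iff.1 e6
  have e7 : c ^ Fintype.card ι * PowerSeries.C r = 1 := by
    have h1 : (P'.map cp).det = PowerSeries.C r := by
      have h2 : (P'.map cp).det = cp P'.det := by
        rw [RingHom.map_det]
        rfl
      rw [h2, ← hrd]
      simp
    rw [← h1, ← Matrix.det_smul, ← e3, hdet]
  have hc0 : c ≠ 0 := by
    intro h1
    have h2 : g = 0 := by
      rw [e3, h1, zero_smul]
    have h3 := congrFun (congrFun hgh o) o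
    rw [h2, zero_mul, Matrix.zero_apply, Matrix.one_apply_eq] at h3
    exact zero_ne_one h3
  have : Nonempty ι := ⟨o⟩
  have hN : Fintype.card ι ≠ 0 := Fintype.card_ne_zero
  have hr0 : r ≠ 0 := hr.ne_zero
  have e8 : PowerSeries.derivative K c = 0 := by
    have h1 : c ^ Fintype.card ι = PowerSeries.C r⁻¹ := by
      have h2 : (PowerSeries.C r : PowerSeries K) * PowerSeries.C r⁻¹ = 1 := by
        rw [← map_mul, mul_inv_cancel₀ hr0, map_one]
      calc c ^ Fintype.card ι = c ^ Fintype.card ι * (PowerSeries.C r * PowerSeries.C r⁻¹) := by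
            rw [h2, mul_one]
        _ = PowerSeries.C r⁻¹ := by rw [← mul_assoc, e7, one_mul]
    have h3 := congrArg (PowerSeries.derivative K) h1
    rw [PowerSeries.derivative_pow, PowerSeries.derivative_C] at h3
    have h4 : ((Fintype.card ι : ℕ) : PowerSeries K) * c ^ (Fintype.card ι - 1) ≠ 0 := by
      refine mul_ne_zero ?_ (pow_ne_zero _ hc0)
      intro h5
      have h6 := congrArg constantCoeff h5
      rw [map_natCast, map_zero, Nat.cast_eq_zero] at h6
      exact hN h6
    exact (mul_eq_zero.1 h3).resolve_left h4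
  have e9 : c = PowerSeries.C (constantCoeff c) := by
    refine PowerSeries.derivative.ext (by rw [e8, PowerSeries.derivative_C]) (by simp)
  set c0 := constantCoeff c with hc0d
  have hc00 : c0 ≠ 0 := by
    intro h1
    rw [h1, map_zero] at e9
    exact hc0 e9
  have hcC : ∀ y : K, cp (Polynomial.C y) = PowerSeries.C y := fun y => by simp
  refine ⟨Polynomial.C c0 • P', Polynomial.C c0⁻¹ • Q', ?_, ?_⟩
  · ext1 i a
    rw [Matrix.map_apply, Matrix.smul_apply, smul_eq_mul, map_mul, hcC, ← e9, e3,
      Matrix.smul_apply, smul_eq_mul, Matrix.map_apply]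
  · ext1 i a
    have h1 := congrFun (congrFun e4 i) a
    rw [Matrix.map_apply, Matrix.smul_apply, smul_eq_mul] at h1
    rw [Matrix.map_apply, Matrix.smul_apply, smul_eq_mul, map_mul, hcC, h1, e9, ← mul_assoc,
      ← map_mul, inv_mul_cancel₀ hc00, map_one, one_mul]

end Pid

end

end Pool.Agent.MFI
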