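import Mathlib

/-!
# Isotopy invariance of matrix factorizations (MP_c8c50b_ag)

The dg category of factorizations and of matrix factorizations of `f` over `A`, dg functors, their
equivalence, and the dg functor `φ^*` for an automorphism `φ` with `φ(f) = f`.
-/

set_option autoImplicit false

namespace Pool.Agent.MFI

universe u

noncomputable section

/-- A `ℤ/2`-graded factorization of `f`: an `A`-module `M = M₀ ⊕ M₁` and an odd `A`-linear map
`d : M → M` with `d² = f`. The grading is given by the involution `γ` (`1` on `M₀`, `-1` on `M₁`). -/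
structure Fac (A : Type u) [CommRing A] (f : A) where
  M : Type u
  [grp : AddCommGroup M]
  [mod : Module A M]
  γ : M → M
  d : M → M
  γ_lin : IsLinearMap A γ
  d_lin : IsLinearMap A d
  γγ : ∀ v, γ (γ v) = v
  γd : ∀ v, γ (d v) = - d (γ v)
  dd : ∀ v, d (d v) = f • v

attribute [instance] Fac.grp Fac.mod

/-- A matrix factorization of `f`: the module is finitely generated projective. -/
structure MFac (A : Type u) [CommRing A] (f : A) extends Fac A f where
  fin : Module.Finite A M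
  proj : Module.Projective A M

variable {A : Type u} [CommRing A] {f : A}

/-- The graded module of all morphisms of factorizations: all `A`-linear maps. -/
structure FHom (P Q : Fac A f) where
  g : P.M → Q.M
  lin : IsLinearMap A g

section Ops

variable {P Q R : Fac A f}

/-- `c = a + b` -/
def FHom.IsAdd (a b c : FHom P Q) : Prop := ∀ v, c.g v = a.g v + b.g v

/-- `c = r a` -/
def FHom.IsSmul (r : A) (a c : FHom P Q) : Prop := ∀ v, c.g v = r • a.g v

/-- `a` is the identity -/
def FHom.IsOne (a : FHom P P) : Prop := ∀ v, a.g v = v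

/-- `c = b ∘ a` -/
def FHom.IsComp (a : FHom P Q) (b : FHom Q R) (c : FHom P R) : Prop := ∀ v, c.g v = b.g (a.g v)

/-- `c = γ a γ`, that is `a` for even `a` and `-a` for odd `a` -/
def FHom.IsConj (a c : FHom P Q) : Prop := ∀ v, c.g v = Q.γ (a.g (P.γ v))

/-- `c` is the differential of `a`, that is `d a - a d` for even `a` and `d a + a d` for odd `a` -/
def FHom.IsDiff (a c : FHom P Q) : Prop :=
  ∀ v, c.g v = Q.d (a.g v) - Q.γ (a.g (P.γ (P.d v)))

/-- odd maps -/
def FHom.Odd (a : FHom P Q) : Prop := ∀ v, Q.γ (a.g v) = - a.g (P.γ v)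

/-- closed even maps -/
structure FHom.Closed (a : FHom P Q) : Prop where
  ev : ∀ v, Q.γ (a.g v) = a.g (P.γ v)
  cl : ∀ v, Q.d (a.g v) = a.g (P.d v)

/-- `b ∘ a` is homotopic to the identity: `b a - 1 = d z + z d` with an odd map `z` -/
def FHom.IsHtpyLeftInv (a : FHom P Q) (b : FHom Q P) : Prop :=
  ∃ z : FHom P P, z.Odd ∧ ∀ v, b.g (a.g v) - v = P.d (z.g v) + z.g (P.d v)

/-- `a` is a closed even homotopy equivalence -/
def FHom.IsHtpyEquiv (a : FHom P Q) : Prop :=
  a.Closed ∧ ∃ b : FHom Q P, b.Closed ∧ a.IsHtpyLeftInv b ∧ b.IsHtpyLeftInv a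

end Ops

/-- `k`-linear dg functors from the dg category of matrix factorizations of `f` to the dg category
of all factorizations of `f` -/
structure DGFun (k : Type u) [Field k] {A : Type u} [CommRing A] [Algebra k A] (f : A) where
  obj : MFac A f → Fac A f
  map : ∀ P Q : MFac A f, FHom P.toFac Q.toFac → FHom (obj P) (obj Q)
  map_add : ∀ P Q (a b c : FHom P.toFac Q.toFac), FHom.IsAdd a b c →
    FHom.IsAdd (map P Q a) (map P Q b) (map P Q c)
  map_smul : ∀ P Q (r : k) (a c : FHom P.toFac Q.toFac), FHom.IsSmul (algebraMap k A r) a c →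
    FHom.IsSmul (algebraMap k A r) (map P Q a) (map P Q c)
  map_one : ∀ P (a : FHom P.toFac P.toFac), a.IsOne → (map P P a).IsOne
  map_comp : ∀ P Q R (a : FHom P.toFac Q.toFac) (b : FHom Q.toFac R.toFac)
    (c : FHom P.toFac R.toFac), FHom.IsComp a b c →
    FHom.IsComp (map P Q a) (map Q R b) (map P R c)
  map_conj : ∀ P Q (a c : FHom P.toFac Q.toFac), a.IsConj c → (map P Q a).IsConj (map P Q c)
  map_diff : ∀ P Q (a c : FHom P.toFac Q.toFac), a.IsDiff c → (map P Q a).IsDiff (map P Q c)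

variable {k : Type u} [Field k] [Algebra k A]

/-- A weak equivalence of dg functors: a closed even natural transformation which is a homotopy
equivalence for every object -/
structure WEq (K F : DGFun k f) where
  η : ∀ P, FHom (K.obj P) (F.obj P)
  eqv : ∀ P, (η P).IsHtpyEquiv
  nat : ∀ P Q a v, (η Q).g ((K.map P Q a).g v) = (F.map P Q a).g ((η P).g v)

/-- Two dg functors `F`, `G` are equivalent if they are joined by weak equivalences `F ← K → G`. -/
def DGFun.Equiv (F G : DGFun k f) : Prop :=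
  ∃ K : DGFun k f, Nonempty (WEq K F) ∧ Nonempty (WEq K G)

/-! ## the dg functor `φ^*` -/

/-- the value `φ(b)` -/
def ap (φ : A ≃ₐ[k] A) (b : A) : A := φ b

/-- The `A`-module `φ^* M = A ⊗_{φ, A} M`, for an automorphism `φ` of `A`: the abelian group `M`
with the scalar multiplication `b • v = φ⁻¹(b) v` (`v ∈ M` stands for `1 ⊗ v`). -/
@[instance_reducible]
def Fac.pbMod (φ : A ≃ₐ[k] A) (P : Fac A f) : Module A P.M :=
  Module.compHom P.M (φ.symm : A →+* A)

lemma Fac.pb_smul (φ : A ≃ₐ[k] A) (P : Fac A f) (b : A) (v : P.M) :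
    @HSMul.hSMul A P.M P.M (@instHSMul A P.M (P.pbMod φ).toSMul) b v = ap φ.symm b • v := rfl

lemma Fac.pb_lin (φ : A ≃ₐ[k] A) (P Q : Fac A f) (g : P.M → Q.M) (hg : IsLinearMap A g) :
    @IsLinearMap A P.M Q.M _ _ _ (P.pbMod φ) (Q.pbMod φ) g :=
  @IsLinearMap.mk A P.M Q.M _ _ _ (P.pbMod φ) (Q.pbMod φ) g hg.1
    (fun c v => hg.2 (ap φ.symm c) v)

lemma Fac.pb_dd (φ : A ≃ₐ[k] A) (h : ap φ f = f) (P : Fac A f) (v : P.M) :
    P.d (P.d v) = @HSMul.hSMul A P.M P.M (@instHSMul A P.M (P.pbMod φ).toSMul) f v := by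
  rw [Fac.pb_smul, P.dd, show ap φ.symm f = f from φ.symm_apply_eq.2 h.symm]

/-- the factorization `φ^* P` -/
def Fac.pb (φ : A ≃ₐ[k] A) (h : ap φ f = f) (P : Fac A f) : Fac A f where
  M := P.M
  grp := P.grp
  mod := P.pbMod φ
  γ := P.γ
  d := P.d
  γ_lin := Fac.pb_lin φ P P P.γ P.γ_lin
  d_lin := Fac.pb_lin φ P P P.d P.d_lin
  γγ := P.γγ
  γd := P.γd
  dd := P.pb_dd φ h

/-- the map `φ^*(a) : φ^* P → φ^* Q` -/
def FHom.pb (φ : A ≃ₐ[k] A) (h : ap φ f = f) {P Q : Fac A f} (a : FHom P Q) :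
    FHom (P.pb φ h) (Q.pb φ h) := ⟨a.g, Fac.pb_lin φ P Q a.g a.lin⟩

section Pull

variable (φ : A ≃ₐ[k] A) (h : ap φ f = f)

lemma FHom.pb_smul {P Q : Fac A f} (r : k) (a c : FHom P Q)
    (hc : FHom.IsSmul (algebraMap k A r) a c) :
    FHom.IsSmul (algebraMap k A r) (a.pb φ h) (c.pb φ h) := by
  intro v
  change c.g v = ap φ.symm (algebraMap k A r) • a.g v
  rw [show ap φ.symm (algebraMap k A r) = algebraMap k A r from φ.symm.commutes r]
  exact hc v

/-- The dg functor `φ^*`. -/
def DGFun.pb : DGFun k f where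
  obj P := P.toFac.pb φ h
  map _ _ a := a.pb φ h
  map_add _ _ _ _ _ hc := hc
  map_smul _ _ := FHom.pb_smul φ h
  map_one _ _ hc := hc
  map_comp _ _ _ _ _ _ hc := hc
  map_conj _ _ _ _ hc := hc
  map_diff _ _ _ _ hc := hc

end Pull

end

end Pool.Agent.MFI
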