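import Pool.Agent.MFI.Frm

/-!
# Isotopy invariance of matrix factorizations (MP_c8c50b_ag)

The derived critical locus `dCrit(f)` of a function `f` on an affine smooth formal scheme
`𝒰 = Spf A` with a frame `x_1, …, x_n`, `D_1, …, D_n`, and paths in the space of its symplectic
automorphisms.

* `dCrit(f)` is the spectrum of the Koszul cdga `K`: the graded commutative `A`-algebra generated by
  `θ_1, …, θ_n` of cohomological degree `-1` with the relations `θ_i = Σ_j D_i(x_j) θ_j` (so that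
  `K = Sym_A(T[1])` for the module `T` of vector fields, and `θ_i = D_i`) and with `d θ_i = D_i f`.
* `DR(K)` is the graded mixed cdga of differential forms on `K`: the graded commutative algebra
  generated by `A`, `θ_i`, `ξ_i = δ x_i`, `y_i = δ θ_i` with the relations
  `θ_i = Σ_j D_i(x_j) θ_j`, `ξ_j = Σ_i D_i(x_j) ξ_i` and
  `y_i = Σ_j (D_i(x_j) y_j + δ(D_i(x_j)) θ_j)`; `d` is the differential of `K`, `δ` is the de Rham
  differential. The total degree (cohomological degree plus weight) of `θ_i, ξ_i, y_i` is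
  `-1, 1, 0`, and `d`, `δ` are derivations of total degree `1`. `K` is the part of weight `0`.
* The canonical `(-1)`-shifted symplectic form is the closed two-form `ω = Σ_i y_i ξ_i`.
-/

set_option autoImplicit false

namespace Pool.Agent.MFI

universe u

noncomputable section

variable {k : Type u} [Field k] {A : Type u} [CommRing A] [Algebra k A] {I : Ideal A} {n : ℕ}

/-- the derivative `D_i b` -/
def Frame.del (X : Frame k A I n) (i : Fin n) (b : A) : A := X.D i b

/-- the entry `D_i(x_j)` of the idempotent matrix of the frame -/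
def Frame.ent (X : Frame k A I n) (i j : Fin n) : A := X.D i (X.x j)

/-- Elements `b` (`b ∈ A`), `θ_i`, `ξ_i`, `y_i` of a `k`-algebra `R` (with `A → R` a homomorphism of
algebras). -/
structure DRElt (k : Type u) [Field k] (A : Type u) [CommRing A] [Algebra k A] (n : ℕ) (R : Type u)
    [Ring R] [Algebra k R] where
  a : A → R
  a_mul : ∀ b c, a (b * c) = a b * a c
  a_add : ∀ b c, a (b + c) = a b + a c
  a_alg : ∀ r : k, a (algebraMap k A r) = algebraMap k R r
  θ : Fin n → R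
  ξ : Fin n → R
  y : Fin n → R

/-- the differential form `δb = Σ_l D_l(b) ξ_l` -/
def DRElt.form {R : Type u} [Ring R] [Algebra k R] (g : DRElt k A n R) (X : Frame k A I n)
    (b : A) : R := ∑ l, g.a (X.del l b) * g.ξ l

/-- The elements satisfy the relations of the graded commutative algebra `DR(K)`. -/
structure DRElt.Rel {R : Type u} [Ring R] [Algebra k R] (g : DRElt k A n R)
    (X : Frame k A I n) : Prop where
  a_comm : ∀ b w, g.a b * w = w * g.a b
  y_comm : ∀ i w, g.y i * w = w * g.y i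
  θ_θ : ∀ i j, g.θ i * g.θ j = - (g.θ j * g.θ i)
  θ_ξ : ∀ i j, g.θ i * g.ξ j = - (g.ξ j * g.θ i)
  ξ_ξ : ∀ i j, g.ξ i * g.ξ j = - (g.ξ j * g.ξ i)
  rel_θ : ∀ i, g.θ i = ∑ j, g.a (X.ent i j) * g.θ j
  rel_ξ : ∀ j, g.ξ j = ∑ i, g.a (X.ent i j) * g.ξ i
  rel_y : ∀ i, g.y i = ∑ j, (g.a (X.ent i j) * g.y j + g.form X (X.ent i j) * g.θ j)

/-- the homomorphism `F` maps the elements `g` to the elements `g'` -/
def DRElt.Maps {R R' : Type u} [Ring R] [Algebra k R] [Ring R'] [Algebra k R']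
    (g : DRElt k A n R) (g' : DRElt k A n R') (F : R → R') : Prop :=
  (∀ b, F (g.a b) = g'.a b) ∧ (∀ i, F (g.θ i) = g'.θ i) ∧ (∀ i, F (g.ξ i) = g'.ξ i) ∧
    ∀ i, F (g.y i) = g'.y i

/-- The graded commutative algebra `DR(K)`, by its universal property: a `k`-algebra `R` with
elements `b`, `θ_i`, `ξ_i`, `y_i` which is universal for the relations. -/
structure DRAlg (X : Frame k A I n) where
  R : Type u
  [ring : Ring R]
  [alg : Algebra k R]
  g : DRElt k A n R
  rel : g.Rel X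
  univ : ∀ (R' : Type u) [Ring R'] [Algebra k R'] (g' : DRElt k A n R'), g'.Rel X →
    ∃! F : R →ₐ[k] R', g.Maps g' F

attribute [instance] DRAlg.ring DRAlg.alg

variable {X : Frame k A I n}

/-- The product `b θ_{i_1} ⋯ θ_{i_r} ξ_{j_1} ⋯ ξ_{j_s} y_{l_1} ⋯ y_{l_t}`. -/
def DRAlg.mon (M : DRAlg X) (b : A) (i j l : List (Fin n)) : M.R :=
  M.g.a b * (i.map M.g.θ).prod * (j.map M.g.ξ).prod * (l.map M.g.y).prod

/-- The part of `DR(K)` of weight `p` and cohomological degree `-q`: it is spanned by the products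
`b θ_{i_1} ⋯ θ_{i_r} ξ_{j_1} ⋯ ξ_{j_s} y_{l_1} ⋯ y_{l_t}` with `t + s = p` and `t + r = q`. -/
def DRAlg.gr (M : DRAlg X) (p q : ℕ) : Set M.R :=
  AddSubgroup.closure {w | ∃ (b : A) (i j l : List (Fin n)),
    l.length + j.length = p ∧ l.length + i.length = q ∧ w = M.mon b i j l}

/-- `T` is a `k`-linear derivation of odd total degree -/
structure DRAlg.IsOddDer (M : DRAlg X) (T : M.R → M.R) : Prop where
  lin : IsLinearMap k T
  leib : ∀ p q, ∀ v ∈ M.gr p q, ∀ w, T (v * w) = T v * w + (-1) ^ (p + q) * (v * T w)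

/-- The graded mixed cdga `DR(K)`: the algebra `DR(K)` with the differential `d` of `K` and the de
Rham differential `δ`. -/
structure DRModel (X : Frame k A I n) (f : A) extends DRAlg X where
  d : R → R
  d_der : toDRAlg.IsOddDer d
  d_a : ∀ b, d (g.a b) = 0
  d_θ : ∀ i, d (g.θ i) = g.a (X.del i f)
  d_ξ : ∀ i, d (g.ξ i) = 0
  d_y : ∀ i, d (g.y i) = - g.form X (X.del i f)
  δ : R → R
  δ_der : toDRAlg.IsOddDer δ
  δ_a : ∀ b, δ (g.a b) = g.form X b
  δ_θ : ∀ i, δ (g.θ i) = g.y i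
  δ_ξ : ∀ i, δ (g.ξ i) = 0
  δ_y : ∀ i, δ (g.y i) = 0

variable {f : A}

/-- The `(-1)`-shifted symplectic form `ω = Σ_i δθ_i δx_i`. -/
def DRModel.ω (M : DRModel X f) : M.R := ∑ i, M.g.y i * M.g.ξ i

/-- The `I`-adic filtration of `DR(K)`. -/
def DRModel.fil (M : DRModel X f) (N : ℕ) : Set M.R :=
  AddSubgroup.closure {w | ∃ b ∈ I ^ N, ∃ v, w = M.g.a b * v}

/-- `v` is the sum `Σ_j c_j w_j` in the `I`-adic topology. -/
def DRModel.Lim (M : DRModel X f) (c : ℕ → k) (w : ℕ → M.R) (v : M.R) : Prop :=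
  ∀ N, ∃ m₀, ∀ m ≥ m₀, v - ∑ j ∈ Finset.range m, c j • w j ∈ M.fil N

/-- The coefficients `T m` of a `k`-linear map `T : DR(K) → DR(K)⟨s⟩` into restricted power series:
the coefficient of `s^m` in `T(w)` is `T m w`. -/
structure DRModel.IsSeries (M : DRModel X f) (T : ℕ → M.R → M.R) : Prop where
  lin : ∀ m, IsLinearMap k (T m)
  rst : ∀ w N, ∃ m₀, ∀ m ≥ m₀, T m w ∈ M.fil N

/-- `H + ds Θ : DR(K) → DR(K)⟨s⟩[ds]` is a homomorphism of graded algebras (for the weight and the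
cohomological degree, where `ds` has degree one). -/
structure DRModel.IsHom (M : DRModel X f) (H Θ : ℕ → M.R → M.R) : Prop where
  H_gr : ∀ m p q, ∀ w ∈ M.gr p q, H m w ∈ M.gr p q
  Θ_gr : ∀ m p q, ∀ w ∈ M.gr p q, Θ m w ∈ M.gr p (q + 1)
  one : ∀ m, H (m + 1) 1 = 0
  H_mul : ∀ m v w, H m (v * w) = ∑ j ∈ Finset.range (m + 1), H j v * H (m - j) w
  Θ_mul : ∀ m p q, ∀ v ∈ M.gr p q, ∀ w, Θ m (v * w) =
    ∑ j ∈ Finset.range (m + 1), (Θ j v * H (m - j) w + (-1) ^ (p + q) * (H j v * Θ (m - j) w))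

/-- `H + ds Θ` is compatible with the differentials `d + ds ∂_s` and `δ`, and it is the identity at
`s = 0`. -/
structure DRModel.IsPath (M : DRModel X f) (H Θ : ℕ → M.R → M.R) : Prop where
  H_d : ∀ m w, H m (M.d w) = M.d (H m w)
  Θ_d : ∀ (m : ℕ) w, (m + 1 : k) • H (m + 1) w = M.d (Θ m w) + Θ m (M.d w)
  H_δ : ∀ m w, H m (M.δ w) = M.δ (H m w)
  Θ_δ : ∀ m w, Θ m (M.δ w) = - M.δ (Θ m w)
  start : ∀ w, H 0 w = w

/-- A path which starts at the identity in the space of endomorphisms of `dCrit(f)`: a homotopy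
`H + ds Θ : K → K⟨s⟩[ds]` of maps of cdgas (`⟨s⟩`: restricted power series), extended to a map
`H + ds Θ : DR(K) → DR(K)⟨s⟩[ds]` of graded mixed cdgas. The coefficients of `s^m` in `H(w)` and
`Θ(w)` are `H m w` and `Θ m w`. -/
structure Htpy (M : DRModel X f) where
  H : ℕ → M.R → M.R
  Θ : ℕ → M.R → M.R
  H_ser : M.IsSeries H
  Θ_ser : M.IsSeries Θ
  hom : M.IsHom H Θ
  path : M.IsPath H Θ

/-- The path ends at the automorphism of `dCrit(f)` induced by `ψ`: `b ↦ ψ(b)` for `b ∈ A` and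
`θ_i = D_i ↦ ψ ∘ D_i ∘ ψ⁻¹`. -/
def Htpy.EndsAt {M : DRModel X f} (P : Htpy M) (ψ : A ≃ₐ[k] A) : Prop :=
  (∀ b, M.Lim (fun _ => 1) (fun m => P.H m (M.g.a b)) (M.g.a (ψ b))) ∧
  ∀ i, M.Lim (fun _ => 1) (fun m => P.H m (M.g.θ i))
    (∑ j, M.g.a (ψ (X.del i (ψ.symm (X.x j)))) * M.g.θ j)

/-- The path preserves the symplectic structure: the loop `(H + ds Θ)(ω)` of closed two-forms of
degree `-1` is trivial, that is `∫_0^1 Θ(ω) ds = (d + δ)(η_2 + η_3 + …)` for forms `η_p` of weight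
`p` and total degree `-1`. -/
def Htpy.Symplectic {M : DRModel X f} (P : Htpy M) : Prop :=
  ∃ η : ℕ → M.R, (∀ p ≥ 2, η p ∈ M.gr p (p + 1)) ∧
    M.Lim (fun m => (m + 1 : k)⁻¹) (fun m => P.Θ m M.ω) (M.d (η 2)) ∧
    ∀ p ≥ 2, M.δ (η p) + M.d (η (p + 1)) = 0

/-- **`ψ` induces the identity on `dCrit(f)`, together with its `(-1)`-shifted symplectic
structure**: the automorphism of `dCrit(f)` induced by `ψ` is joined to the identity by a path in
the space of symplectic automorphisms of `dCrit(f)`. -/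
def IsIdOnDCrit (X : Frame k A I n) (f : A) (ψ : A ≃ₐ[k] A) : Prop :=
  ∃ (M : DRModel X f) (P : Htpy M), P.EndsAt ψ ∧ P.Symplectic

end

end Pool.Agent.MFI
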