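import Pool.Agent.MFI.Pub
import Pool.Agent.MFI.Dg

/-!
# Isotopy invariance of matrix factorizations (MP_c8c50b_ag), helper42

Every matrix factorization in the sense of `MFac` (finitely generated projective module) is
isomorphic to the factorization of a matrix factorization in the sense of `MF` (matrices).
-/

set_option autoImplicit false

namespace Pool.Agent.MFI

universe u

noncomputable section

namespace PubM

variable {A : Type u} [CommRing A]

lemma mat_ext {ι : Type} [Fintype ι] [DecidableEq ι] {M N : Matrix ι ι A}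
    (h : ∀ v, M.mulVec v = N.mulVec v) : M = N :=
  Matrix.toLin'.injective (LinearMap.ext fun v => by
    rw [Matrix.toLin'_apply, Matrix.toLin'_apply, h])

lemma sg_mulVec_elim (p q : ℕ) (a : Fin p → A) (b : Fin q → A) :
    (sg A p q).mulVec (Sum.elim a b) = Sum.elim a (-b) := by
  rw [sg, Matrix.fromBlocks_mulVec]
  simp only [Sum.elim_comp_inl, Sum.elim_comp_inr, Matrix.one_mulVec, Matrix.zero_mulVec, add_zero,
    zero_add, Matrix.neg_mulVec]

variable {f : A} (P : Fac A f)

/-- the grading as a linear map -/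
def gl : P.M →ₗ[A] P.M := IsLinearMap.mk' P.γ P.γ_lin

/-- the differential as a linear map -/
def dl : P.M →ₗ[A] P.M := IsLinearMap.mk' P.d P.d_lin

lemma gl_apply (v : P.M) : gl P v = P.γ v := rfl

lemma dl_apply (v : P.M) : dl P v = P.d v := rfl

lemma gl_gl (v : P.M) : gl P (gl P v) = v := P.γγ v

lemma gl_dl (v : P.M) : gl P (dl P v) = - dl P (gl P v) := P.γd v

lemma dl_dl (v : P.M) : dl P (dl P v) = f • v := P.dd v

variable (h : A)

/-- the projection to the even part -/
def pp : P.M →ₗ[A] P.M := h • (LinearMap.id + gl P)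

/-- the projection to the odd part -/
def pm : P.M →ₗ[A] P.M := h • (LinearMap.id - gl P)

variable {h} (hh : h + h = 1)

lemma pp_apply (v : P.M) : pp P h v = h • (v + gl P v) := rfl

lemma pm_apply (v : P.M) : pm P h v = h • (v - gl P v) := rfl

include hh in
lemma half_add (x : P.M) : (h * h) • (x + x) = h • x := by
  rw [smul_add, ← add_smul, ← mul_add, hh, mul_one]

include hh in
lemma pp_pp (v : P.M) : pp P h (pp P h v) = pp P h v := by
  rw [pp_apply P (pp P h v), pp_apply, map_smul, map_add, gl_gl, ← smul_add, add_comm (gl P v) v,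
    smul_smul, half_add P hh]

include hh in
lemma pm_pm (v : P.M) : pm P h (pm P h v) = pm P h v := by
  have e : v - gl P v - (gl P v - v) = (v - gl P v) + (v - gl P v) := by abel
  rw [pm_apply P (pm P h v), pm_apply, map_smul, map_sub, gl_gl, ← smul_sub, e,
    smul_smul, half_add P hh]

include hh in
lemma pp_add_pm (v : P.M) : pp P h v + pm P h v = v := by
  have e : v + gl P v + (v - gl P v) = v + v := by abel
  rw [pp_apply, pm_apply, ← smul_add, e, smul_add, ← add_smul, hh, one_smul]

lemma gl_pp (v : P.M) : gl P (pp P h v) = pp P h v := by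
  rw [pp_apply, map_smul, map_add, gl_gl, add_comm]

lemma gl_pm (v : P.M) : gl P (pm P h v) = - pm P h v := by
  rw [pm_apply, map_smul, map_sub, gl_gl, ← smul_neg, neg_sub]

lemma pp_gl (v : P.M) : pp P h (gl P v) = pp P h v := by
  rw [pp_apply, pp_apply, gl_gl, add_comm]

lemma pm_gl (v : P.M) : pm P h (gl P v) = - pm P h v := by
  rw [pm_apply, pm_apply, gl_gl, ← smul_neg, neg_sub]

section Dat

variable {r : ℕ} (π : (Fin r → A) →ₗ[A] P.M) (s : P.M →ₗ[A] (Fin r → A))

/-- `A^r ⊕ A^r → M` -/
def big (h : A) : (Ix r r → A) →ₗ[A] P.M :=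
  pp P h ∘ₗ π ∘ₗ LinearMap.funLeft A A Sum.inl + pm P h ∘ₗ π ∘ₗ LinearMap.funLeft A A Sum.inr

/-- `M → A^r ⊕ A^r` -/
def sec (h : A) : P.M →ₗ[A] (Ix r r → A) where
  toFun v := Sum.elim (s (pp P h v)) (s (pm P h v))
  map_add' v w := by
    rw [map_add, map_add, map_add, map_add]
    ext i
    rcases i with i | i <;> rfl
  map_smul' c v := by
    rw [map_smul, map_smul, map_smul, map_smul]
    ext i
    rcases i with i | i <;> rfl

lemma sec_apply (v : P.M) : sec P s h v = Sum.elim (s (pp P h v)) (s (pm P h v)) := rfl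

lemma big_elim (a b : Fin r → A) :
    big P π h (Sum.elim a b) = pp P h (π a) + pm P h (π b) := rfl

omit [CommRing A] in
lemma elim_self (v : Ix r r → A) : v = Sum.elim (v ∘ Sum.inl) (v ∘ Sum.inr) :=
  (Sum.elim_comp_inl_inr v).symm

variable {π s} (hs : ∀ v, π (s v) = v)

include hh hs in
lemma big_sec (v : P.M) : big P π h (sec P s h v) = v := by
  rw [sec_apply, big_elim, hs, hs, pp_pp P hh, pm_pm P hh, pp_add_pm P hh]

lemma big_sg (v : Ix r r → A) : big P π h ((sg A r r).mulVec v) = gl P (big P π h v) := by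
  rw [elim_self v, sg_mulVec_elim, big_elim, big_elim, map_neg, map_neg, map_add, gl_pp, gl_pm]

lemma sec_gl (v : P.M) : sec P s h (gl P v) = (sg A r r).mulVec (sec P s h v) := by
  rw [sec_apply, sec_apply, sg_mulVec_elim, pp_gl, pm_gl, map_neg]

/-- the matrix of `S g Π` -/
def mt (π : (Fin r → A) →ₗ[A] P.M) (s : P.M →ₗ[A] (Fin r → A)) (h : A) (g : P.M →ₗ[A] P.M) :
    Matrix (Ix r r) (Ix r r) A :=
  LinearMap.toMatrix' (sec P s h ∘ₗ g ∘ₗ big P π h)

lemma mt_mulVec (g : P.M →ₗ[A] P.M) (v : Ix r r → A) :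
    (mt P π s h g).mulVec v = sec P s h (g (big P π h v)) := by
  rw [mt, LinearMap.toMatrix'_mulVec]
  rfl

/-- the matrix factorization -/
def mf (hh : h + h = 1) (hs : ∀ v, π (s v) = v) : MF A f where
  p := r
  q := r
  e := mt P π s h LinearMap.id
  d := mt P π s h (dl P)
  idem := by
    apply mat_ext
    intro v
    rw [← Matrix.mulVec_mulVec, mt_mulVec, mt_mulVec, LinearMap.id_apply, LinearMap.id_apply,
      big_sec P hh hs]
  even := by
    apply mat_ext
    intro v
    rw [← Matrix.mulVec_mulVec, ← Matrix.mulVec_mulVec, mt_mulVec, mt_mulVec, LinearMap.id_apply,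
      LinearMap.id_apply, big_sg, sec_gl]
  odd := by
    apply mat_ext
    intro v
    rw [← Matrix.mulVec_mulVec, Matrix.neg_mulVec, ← Matrix.mulVec_mulVec, mt_mulVec, mt_mulVec,
      ← sec_gl, gl_dl, big_sg, map_neg]
  ed := by
    apply mat_ext
    intro v
    rw [← Matrix.mulVec_mulVec, mt_mulVec, mt_mulVec, LinearMap.id_apply, big_sec P hh hs]
  de := by
    apply mat_ext
    intro v
    rw [← Matrix.mulVec_mulVec, mt_mulVec, mt_mulVec, mt_mulVec, LinearMap.id_apply,
      big_sec P hh hs]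
  dd := by
    apply mat_ext
    intro v
    rw [← Matrix.mulVec_mulVec, Matrix.smul_mulVec, mt_mulVec, mt_mulVec, mt_mulVec,
      LinearMap.id_apply, big_sec P hh hs, dl_dl, map_smul]

end Dat

end PubM

/-- Every matrix factorization is given by matrices. -/
theorem MFac.exists_mat {A : Type u} [CommRing A] [Algebra ℚ A] {f : A} (P : MFac A f) :
    ∃ (m : MF A f) (i : P.M ≃ₗ[A] m.fact.M),
      (∀ v, i (P.γ v) = m.fact.γ (i v)) ∧ ∀ v, i (P.d v) = m.fact.d (i v) := by
  have hfin := P.fin
  have hproj := P.proj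
  obtain ⟨r, π, hπ⟩ := Module.Finite.exists_fin' A P.M
  obtain ⟨s, hs⟩ := Module.projective_lifting_property π LinearMap.id hπ
  have hs' : ∀ v, π (s v) = v := fun v => LinearMap.congr_fun hs v
  have hh : algebraMap ℚ A (1 / 2) + algebraMap ℚ A (1 / 2) = 1 := by
    rw [← map_add, add_halves, map_one]
  let m : MF A f := PubM.mf P.toFac (π := π) (s := s) hh hs'
  let i₀ : P.M →ₗ[A] m.fact.M :=
    LinearMap.codRestrict (LinearMap.range (Matrix.mulVecLin m.e))
      (PubM.sec P.toFac s (algebraMap ℚ A (1 / 2))) (fun v => by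
        refine ⟨PubM.sec P.toFac s (algebraMap ℚ A (1 / 2)) v, ?_⟩
        rw [Matrix.mulVecLin_apply]
        refine (PubM.mt_mulVec P.toFac _ _).trans ?_
        rw [LinearMap.id_apply, PubM.big_sec P.toFac hh hs']
        rfl)
  have hi : ∀ v, m.val (i₀ v) = PubM.sec P.toFac s (algebraMap ℚ A (1 / 2)) v := fun v => rfl
  have hbij : Function.Bijective i₀ := by
    constructor
    · intro v w hvw
      have h1 := congrArg m.val hvw
      rw [hi, hi] at h1
      have h2 := congrArg (PubM.big P.toFac π (algebraMap ℚ A (1 / 2))) h1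
      rwa [PubM.big_sec P.toFac hh hs', PubM.big_sec P.toFac hh hs'] at h2
    · intro w
      refine ⟨PubM.big P.toFac π (algebraMap ℚ A (1 / 2)) (m.val w), ?_⟩
      apply m.val_inj
      rw [hi]
      have h1 := m.e_coe w
      have h2 : m.e.mulVec (m.val w) = PubM.sec P.toFac s (algebraMap ℚ A (1 / 2))
          (PubM.big P.toFac π (algebraMap ℚ A (1 / 2)) (m.val w)) :=
        PubM.mt_mulVec P.toFac LinearMap.id (m.val w)
      rw [← h2, h1]
  refine ⟨m, LinearEquiv.ofBijective i₀ hbij, fun v => ?_, fun v => ?_⟩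
  · apply m.val_inj
    rw [MF.fact_γ_coe]
    change PubM.sec P.toFac s (algebraMap ℚ A (1 / 2)) (P.γ v) =
      m.γ.mulVec (PubM.sec P.toFac s (algebraMap ℚ A (1 / 2)) v)
    exact PubM.sec_gl P.toFac v
  · apply m.val_inj
    rw [MF.fact_d_coe]
    change PubM.sec P.toFac s (algebraMap ℚ A (1 / 2)) (P.d v) =
      m.d.mulVec (PubM.sec P.toFac s (algebraMap ℚ A (1 / 2)) v)
    refine Eq.symm ((PubM.mt_mulVec P.toFac (PubM.dl P.toFac) _).trans ?_)
    rw [PubM.big_sec P.toFac hh hs']
    rfl

end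

end Pool.Agent.MFI
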