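import Pool.Agent.MFI.Pub
import Pool.Agent.MFI.Cat
import Pool.Agent.MFI.St2

/-!
# Isotopy invariance of matrix factorizations (MP_c8c50b_ag), helper26

Equivalence of the dg functors `φ^*`, `φ'^*` defined with matrices implies their equivalence as dg
functors on the dg category of all finitely generated projective factorizations.
-/

set_option autoImplicit false

namespace Pool.Agent.MFI

universe u

noncomputable section

variable {A : Type u} [CommRing A] {f : A}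

/-! ## from linear maps to matrices -/

/-- matrices which agree on the image of `e` -/
lemma mat_ext_on (P : MF A f) {m : Type} {U V : Matrix m (Ix P.p P.q) A}
    (hU : U * P.e = U) (hV : V * P.e = V)
    (h : ∀ v : P.fact.M, U.mulVec (P.val v) = V.mulVec (P.val v)) : U = V := by
  apply mat_ext
  intro v
  have h1 := h ⟨P.e.mulVec v, ⟨v, rfl⟩⟩
  rw [show P.val ⟨P.e.mulVec v, ⟨v, rfl⟩⟩ = P.e.mulVec v from rfl, Matrix.mulVec_mulVec,
    Matrix.mulVec_mulVec, hU, hV] at h1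
  exact h1

/-- a model of a factorization by matrices -/
structure MFac.Mod (P : MFac A f) where
  m : MF A f
  i : P.M ≃ₗ[A] m.fact.M
  iγ : ∀ v, i (P.γ v) = m.fact.γ (i v)
  id : ∀ v, i (P.d v) = m.fact.d (i v)

section ToM

variable {P Q R : MFac A f} (p : P.Mod) (q : Q.Mod) (r : R.Mod)

lemma MFac.Mod.iγ' (w : p.m.fact.M) : p.i.symm (p.m.fact.γ w) = P.γ (p.i.symm w) := by
  apply p.i.injective
  rw [p.iγ, p.i.apply_symm_apply, p.i.apply_symm_apply]

lemma MFac.Mod.id' (w : p.m.fact.M) : p.i.symm (p.m.fact.d w) = P.d (p.i.symm w) := by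
  apply p.i.injective
  rw [p.id, p.i.apply_symm_apply, p.i.apply_symm_apply]

/-- a linear map as a matrix -/
def mtx (a : FHom P.toFac Q.toFac) : MHom p.m q.m :=
  MHom.of (q.i.toLinearMap ∘ₗ (IsLinearMap.mk' a.g a.lin) ∘ₗ p.i.symm.toLinearMap)

lemma mtx_lin (a : FHom P.toFac Q.toFac) (v : p.m.fact.M) :
    (mtx p q a).lin v = q.i (a.g (p.i.symm v)) := by
  rw [mtx, MHom.of_lin]
  rfl

lemma mtx_mulVec (a : FHom P.toFac Q.toFac) (v : p.m.fact.M) :
    (mtx p q a).u.mulVec (p.m.val v) = q.m.val (q.i (a.g (p.i.symm v))) := by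
  rw [← MHom.lin_coe, mtx_lin]

lemma mtx_add (a b c : FHom P.toFac Q.toFac) (hc : FHom.IsAdd a b c) :
    (mtx p q c).u = (mtx p q a).u + (mtx p q b).u := by
  refine mat_ext_on p.m (mtx p q c).ue ?_ fun v => ?_
  · rw [Matrix.add_mul, (mtx p q a).ue, (mtx p q b).ue]
  · rw [Matrix.add_mulVec, mtx_mulVec, mtx_mulVec, mtx_mulVec, hc, map_add, map_add]

lemma mtx_smul (s : A) (a c : FHom P.toFac Q.toFac) (hc : FHom.IsSmul s a c) :
    (mtx p q c).u = s • (mtx p q a).u := by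
  refine mat_ext_on p.m (mtx p q c).ue ?_ fun v => ?_
  · rw [Matrix.smul_mul, (mtx p q a).ue]
  · rw [Matrix.smul_mulVec, mtx_mulVec, mtx_mulVec, hc, map_smul, map_smul]

lemma mtx_one (a : FHom P.toFac P.toFac) (ha : a.IsOne) : (mtx p p a).u = p.m.e := by
  refine mat_ext_on p.m (mtx p p a).ue p.m.idem fun v => ?_
  rw [mtx_mulVec, ha, p.i.apply_symm_apply, p.m.e_coe]

lemma mtx_comp (a : FHom P.toFac Q.toFac) (b : FHom Q.toFac R.toFac) (c : FHom P.toFac R.toFac)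
    (hc : FHom.IsComp a b c) : (mtx p r c).u = (mtx q r b).u * (mtx p q a).u := by
  refine mat_ext_on p.m (mtx p r c).ue ?_ fun v => ?_
  · rw [Matrix.mul_assoc, (mtx p q a).ue]
  · rw [← Matrix.mulVec_mulVec, mtx_mulVec, mtx_mulVec, mtx_mulVec, hc, q.i.symm_apply_apply]

lemma mtx_conj (a c : FHom P.toFac Q.toFac) (hc : a.IsConj c) :
    (mtx p q c).u = q.m.γ * (mtx p q a).u * p.m.γ := by
  refine mat_ext_on p.m (mtx p q c).ue ?_ fun v => ?_
  · rw [Matrix.mul_assoc, p.m.even, ← Matrix.mul_assoc, Matrix.mul_assoc _ _ p.m.e,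
      (mtx p q a).ue]
  · rw [← Matrix.mulVec_mulVec, ← Matrix.mulVec_mulVec, ← MF.fact_γ_coe, mtx_mulVec, mtx_mulVec,
      ← MF.fact_γ_coe, hc, p.iγ', q.iγ]

lemma mtx_diff (a c : FHom P.toFac Q.toFac) (hc : a.IsDiff c) :
    (mtx p q c).u = q.m.d * (mtx p q a).u - q.m.γ * (mtx p q a).u * p.m.γ * p.m.d := by
  refine mat_ext_on p.m (mtx p q c).ue ?_ fun v => ?_
  · rw [Matrix.sub_mul, Matrix.mul_assoc, (mtx p q a).ue, Matrix.mul_assoc _ p.m.d, p.m.de]
  · rw [Matrix.sub_mulVec, ← Matrix.mulVec_mulVec, ← Matrix.mulVec_mulVec, ← Matrix.mulVec_mulVec,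
      ← Matrix.mulVec_mulVec, ← MF.fact_d_coe, ← MF.fact_γ_coe, mtx_mulVec, mtx_mulVec,
      mtx_mulVec, ← MF.fact_d_coe, ← MF.fact_γ_coe, hc, p.iγ', p.id', ← q.id, ← q.iγ, map_sub,
      map_sub]

end ToM

/-! ## the functors -/

/-- a factorization of `Dg` as a factorization of `Pub` -/
def Fact.fac (P : Fact A f) : Fac A f where
  M := P.M
  γ := P.γ
  d := P.d
  γ_lin := P.γ.isLinear
  d_lin := P.d.isLinear
  γγ := P.γγ
  γd := P.γd
  dd := P.dd

variable {k : Type u} [Field k] [Algebra k A]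

/-- extension of a dg functor from matrices to modules -/
def DGF.ext (K : DGF A f A f) (hK : K.Lin k) (c : ∀ P : MFac A f, P.Mod) : DGFun k f where
  obj P := (K.obj (c P).m).fac
  map P Q a := ⟨K.map (mtx (c P) (c Q) a), (K.map _).isLinear⟩
  map_add _ _ a b c' hc v := LinearMap.congr_fun (K.map_add _ _ _ (mtx_add _ _ a b c' hc)) v
  map_smul _ _ r a c' hc v := hK r _ _ (mtx_smul _ _ _ a c' hc) v
  map_one _ a ha v := LinearMap.congr_fun (K.map_one _ (mtx_one _ a ha)) v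
  map_comp _ _ _ a b c' hc v :=
    LinearMap.congr_fun (K.map_comp _ _ _ (mtx_comp _ _ _ a b c' hc)) v
  map_conj _ _ a c' hc v := K.map_gr _ _ (mtx_conj _ _ a c' hc) v
  map_diff _ _ a c' hc v := K.map_d _ _ (mtx_diff _ _ a c' hc) v

/-! ## the comparison of the pull backs -/

lemma map_mulVec' {m n : Type} [Fintype n] (ψ : A →+* A) (U : Matrix m n A) (v : n → A) :
    (fun i => ψ (U.mulVec v i)) = (U.map ψ).mulVec (fun j => ψ (v j)) := by
  funext i
  exact RingHom.map_mulVec ψ U v i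

section Sig

variable (φ : A ≃ₐ[k] A) (h : (φ : A →+* A) f = f) (m : MF A f)

lemma map_symm_map {a b : Type} (U : Matrix a b A) :
    (U.map (φ : A →+* A)).map (φ.symm : A →+* A) = U := by
  ext i j
  simp

/-- `φ⁻¹` on vectors -/
def sgm (w : (m.pull (φ : A →+* A) h).fact.M) : m.fact.M :=
  ⟨fun i => φ.symm (w.1 i), ⟨fun i => φ.symm (w.1 i), by
    have h1 := map_mulVec' (φ.symm : A →+* A) (m.e.map (φ : A →+* A)) w.1
    rw [map_symm_map] at h1
    have h2 : (m.e.map (φ : A →+* A)).mulVec w.1 = w.1 := (m.pull (φ : A →+* A) h).e_coe w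
    rw [h2] at h1
    exact h1.symm⟩⟩

/-- `φ` on vectors -/
def tau (v : m.fact.M) : (m.pull (φ : A →+* A) h).fact.M :=
  ⟨fun i => φ (v.1 i), ⟨fun i => φ (v.1 i), by
    have h1 := map_mulVec' (φ : A →+* A) m.e v.1
    have h2 : m.e.mulVec v.1 = v.1 := m.e_coe v
    rw [h2] at h1
    exact h1.symm⟩⟩

lemma sgm_tau (v : m.fact.M) : sgm φ h m (tau φ h m v) = v := by
  apply Subtype.ext
  funext i
  exact φ.symm_apply_apply _

lemma tau_sgm (w : (m.pull (φ : A →+* A) h).fact.M) : tau φ h m (sgm φ h m w) = w := by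
  apply Subtype.ext
  funext i
  exact φ.apply_symm_apply _

lemma sgm_add (v w : (m.pull (φ : A →+* A) h).fact.M) :
    sgm φ h m (v + w) = sgm φ h m v + sgm φ h m w := by
  apply Subtype.ext
  funext i
  exact map_add φ.symm _ _

lemma sgm_smul (a : A) (w : (m.pull (φ : A →+* A) h).fact.M) :
    sgm φ h m (a • w) = φ.symm a • sgm φ h m w := by
  apply Subtype.ext
  funext i
  exact map_mul φ.symm _ _

lemma sgm_γ (w : (m.pull (φ : A →+* A) h).fact.M) :
    sgm φ h m ((m.pull (φ : A →+* A) h).fact.γ w) = m.fact.γ (sgm φ h m w) := by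
  apply Subtype.ext
  have h1 := map_mulVec' (φ.symm : A →+* A) (sg A m.p m.q) w.1
  rw [← sg_map] at h1
  exact h1

lemma sgm_d (w : (m.pull (φ : A →+* A) h).fact.M) :
    sgm φ h m ((m.pull (φ : A →+* A) h).fact.d w) = m.fact.d (sgm φ h m w) := by
  apply Subtype.ext
  have h1 := map_mulVec' (φ.symm : A →+* A) (m.d.map (φ : A →+* A)) w.1
  rw [map_symm_map] at h1
  exact h1

lemma sgm_lin {m' : MF A f} (a : MHom m m') (w : (m.pull (φ : A →+* A) h).fact.M) :
    sgm φ h m' ((a.pull (φ : A →+* A) h).lin w) = a.lin (sgm φ h m w) := by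
  apply Subtype.ext
  have h1 := map_mulVec' (φ.symm : A →+* A) (a.u.map (φ : A →+* A)) w.1
  rw [map_symm_map] at h1
  exact h1

end Sig

/-! ## weak equivalences -/

/-- composition of a homotopy equivalence with an isomorphism -/
lemma FHom.IsHtpyEquiv.comp_iso {P Q R : Fac A f} {a : FHom P Q} (ha : a.IsHtpyEquiv)
    (j : FHom Q R) (j' : FHom R Q) (hj : j.Closed) (hj' : j'.Closed) (h1 : ∀ v, j'.g (j.g v) = v)
    (h2 : ∀ v, j.g (j'.g v) = v) (c : FHom P R) (hc : FHom.IsComp a j c) : c.IsHtpyEquiv := by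
  obtain ⟨ha, b, hb, ⟨z, hz, hz1⟩, ⟨z', hz', hz1'⟩⟩ := ha
  have jadd : ∀ v w, j.g (v + w) = j.g v + j.g w := j.lin.map_add
  have jneg : ∀ v, j.g (- v) = - j.g v := j.lin.map_neg
  have jsub : ∀ v w, j.g (v - w) = j.g v - j.g w := j.lin.map_sub
  refine ⟨⟨fun v => ?_, fun v => ?_⟩, ⟨fun v => b.g (j'.g v), ⟨fun v w => ?_, fun s v => ?_⟩⟩,
    ⟨fun v => ?_, fun v => ?_⟩, ⟨z, hz, fun v => ?_⟩,
    ⟨⟨fun v => j.g (z'.g (j'.g v)), ⟨fun v w => ?_, fun s v => ?_⟩⟩, fun v => ?_, fun v => ?_⟩⟩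
  · rw [hc, hc, hj.ev, ha.ev]
  · rw [hc, hc, hj.cl, ha.cl]
  · rw [j'.lin.map_add, b.lin.map_add]
  · rw [j'.lin.map_smul, b.lin.map_smul]
  · change P.γ (b.g (j'.g v)) = b.g (j'.g (R.γ v))
    rw [hb.ev, hj'.ev]
  · change P.d (b.g (j'.g v)) = b.g (j'.g (R.d v))
    rw [hb.cl, hj'.cl]
  · change b.g (j'.g (c.g v)) - v = _
    rw [hc, h1, hz1]
  · rw [j'.lin.map_add, z'.lin.map_add, jadd]
  · rw [j'.lin.map_smul, z'.lin.map_smul, j.lin.map_smul]
  · change R.γ (j.g (z'.g (j'.g v))) = - j.g (z'.g (j'.g (R.γ v)))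
    rw [hj.ev, hz', jneg, hj'.ev]
  · change c.g (b.g (j'.g v)) - v = R.d (j.g (z'.g (j'.g v))) + j.g (z'.g (j'.g (R.d v)))
    rw [hc, hj.cl, ← hj'.cl, ← jadd, ← hz1', jsub, h2]

section Main

variable (φ : A ≃ₐ[k] A) (h : (φ : A →+* A) f = f)

/-- the isomorphism of the two models of `φ^* P` -/
def jj {P : MFac A f} (p : P.Mod) :
    FHom (p.m.pull (φ : A →+* A) h).fact.fac (P.toFac.pb φ h) where
  g w := p.i.symm (sgm φ h p.m w)
  lin := by
    constructor
    · intro v w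
      exact (congrArg p.i.symm (sgm_add φ h p.m v w)).trans (map_add p.i.symm _ _)
    · intro a w
      exact (congrArg p.i.symm (sgm_smul φ h p.m a w)).trans (p.i.symm.map_smul _ _)

lemma sgm_inj {m : MF A f} {v w : (m.pull (φ : A →+* A) h).fact.M}
    (e : sgm φ h m v = sgm φ h m w) : v = w := by
  rw [← tau_sgm φ h m v, e, tau_sgm]

/-- the inverse isomorphism -/
def jj' {P : MFac A f} (p : P.Mod) :
    FHom (P.toFac.pb φ h) (p.m.pull (φ : A →+* A) h).fact.fac where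
  g v := tau φ h p.m (p.i v)
  lin := by
    constructor
    · intro v w
      apply sgm_inj φ h
      refine (sgm_tau φ h p.m _).trans ?_
      refine Eq.trans ?_ (sgm_add φ h p.m _ _).symm
      rw [sgm_tau, sgm_tau]
      exact map_add p.i _ _
    · intro a v
      apply sgm_inj φ h
      refine (sgm_tau φ h p.m _).trans ?_
      refine Eq.trans ?_ (sgm_smul φ h p.m a _).symm
      rw [sgm_tau]
      exact p.i.map_smul (φ.symm a) v

lemma jj_closed {P : MFac A f} (p : P.Mod) : (jj φ h p).Closed where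
  ev w := by
    change P.γ (p.i.symm (sgm φ h p.m w)) =
      p.i.symm (sgm φ h p.m ((p.m.pull (φ : A →+* A) h).fact.γ w))
    rw [sgm_γ, p.iγ']
  cl w := by
    change P.d (p.i.symm (sgm φ h p.m w)) =
      p.i.symm (sgm φ h p.m ((p.m.pull (φ : A →+* A) h).fact.d w))
    rw [sgm_d, p.id']

lemma jj_jj' {P : MFac A f} (p : P.Mod) (v : (P.toFac.pb φ h).M) :
    (jj φ h p).g ((jj' φ h p).g v) = v := by
  change p.i.symm (sgm φ h p.m (tau φ h p.m (p.i v))) = v
  rw [sgm_tau, p.i.symm_apply_apply]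

lemma jj'_jj {P : MFac A f} (p : P.Mod) (v : (p.m.pull (φ : A →+* A) h).fact.fac.M) :
    (jj' φ h p).g ((jj φ h p).g v) = v := by
  change tau φ h p.m (p.i (p.i.symm (sgm φ h p.m v))) = v
  rw [p.i.apply_symm_apply, tau_sgm]

lemma jj'_closed {P : MFac A f} (p : P.Mod) : (jj' φ h p).Closed where
  ev w := by
    have h1 := (jj_closed φ h p).ev ((jj' φ h p).g w)
    rw [jj_jj'] at h1
    rw [h1, jj'_jj]
  cl w := by
    have h1 := (jj_closed φ h p).cl ((jj' φ h p).g w)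
    rw [jj_jj'] at h1
    rw [h1, jj'_jj]

lemma jj_nat {P Q : MFac A f} (p : P.Mod) (q : Q.Mod) (a : FHom P.toFac Q.toFac)
    (w : (p.m.pull (φ : A →+* A) h).fact.M) :
    (jj φ h q).g (((mtx p q a).pull (φ : A →+* A) h).lin w) = a.g ((jj φ h p).g w) := by
  change q.i.symm (sgm φ h q.m (((mtx p q a).pull (φ : A →+* A) h).lin w)) =
    a.g (p.i.symm (sgm φ h p.m w))
  rw [sgm_lin, mtx_lin, q.i.symm_apply_apply]

/-- a weak equivalence of `Dg` as a weak equivalence of `Pub` -/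
theorem Wk.ext {K : DGF A f A f} (hK : K.Lin k) (c : ∀ P : MFac A f, P.Mod)
    (w : Wk K (DGF.pull (φ : A →+* A) h)) : Nonempty (WEq (K.ext hK c) (DGFun.pb φ h)) := by
  refine ⟨⟨fun P => ⟨fun v => (jj φ h (c P)).g ((w.η (c P).m).g v), ⟨fun v v' => ?_, fun a v => ?_⟩⟩,
    fun P => ?_, fun P Q a v => ?_⟩⟩
  · exact (congrArg _ (map_add (w.η (c P).m).g v v')).trans ((jj φ h (c P)).lin.map_add _ _)
  · exact (congrArg _ (map_smul (w.η (c P).m).g a v)).trans ((jj φ h (c P)).lin.map_smul _ _)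
  · obtain ⟨r, z, z', hz, hz', e1, e2⟩ := w.eqv (c P).m
    refine FHom.IsHtpyEquiv.comp_iso
      (P := (K.obj (c P).m).fac) (Q := ((c P).m.pull (φ : A →+* A) h).fact.fac)
      (a := ⟨(w.η (c P).m).g, (w.η (c P).m).g.isLinear⟩)
      ⟨⟨(w.η (c P).m).ev, (w.η (c P).m).cl⟩, ⟨r.g, r.g.isLinear⟩, ⟨r.ev, r.cl⟩,
        ⟨⟨z, z.isLinear⟩, hz, e1⟩, ⟨⟨z', z'.isLinear⟩, hz', e2⟩⟩
      (jj φ h (c P)) (jj' φ h (c P)) (jj_closed φ h (c P)) (jj'_closed φ h (c P))
      (jj'_jj φ h (c P)) (jj_jj' φ h (c P)) _ fun v => rfl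
  · change (jj φ h (c Q)).g ((w.η (c Q).m).g (K.map (mtx (c P) (c Q) a) v)) =
      a.g ((jj φ h (c P)).g ((w.η (c P).m).g v))
    rw [w.nat, ← jj_nat]
    rfl

/-- **Transfer.** -/
theorem DGEqL.ext (H : ∀ P : MFac A f, Nonempty P.Mod) (φ' : A ≃ₐ[k] A)
    (h' : (φ' : A →+* A) f = f)
    (e : DGEqL k (DGF.pull (φ : A →+* A) h) (DGF.pull (φ' : A →+* A) h')) :
    (DGFun.pb φ h).Equiv (DGFun.pb φ' h') := by
  obtain ⟨K, hK, ⟨w⟩, ⟨w'⟩⟩ := e
  exact ⟨K.ext hK fun P => (H P).some, Wk.ext φ h hK _ w, Wk.ext φ' h' hK _ w'⟩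

end Main

end

end Pool.Agent.MFI
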