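import Pool.Agent.MFI.SpinF

/-!
# Isotopy invariance of matrix factorizations (MP_c8c50b_ag), helper26

Part 9: the spin equation over a reduced ring with finitely many minimal primes.
-/

set_option autoImplicit false

open PowerSeries

namespace Pool.Agent.MFI

noncomputable section

/-- eventually zero coefficients -/
def EvZ {E : Type*} [Semiring E] (y : PowerSeries E) : Prop := ∃ N, ∀ l ≥ N, coeff l y = 0

section Map

variable {S T : Type*} [CommRing S] [CommRing T] (ρ : S →+* T) {n : ℕ}

lemma dt_map {E E' : Type*} [Ring E] [Ring E'] (f : E →+* E') (y : PowerSeries E) :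
    dt (PowerSeries.map f y) = PowerSeries.map f (dt y) := by
  ext m
  rw [coeff_dt, PowerSeries.coeff_map, PowerSeries.coeff_map, coeff_dt, map_nsmul]

lemma map_cR (m : Fin n → Fin n → S) (k : Fin n) :
    (cR m k).map ρ = cR (fun i j => ρ (m i j)) k := by
  ext a c
  rw [Matrix.map_apply, cR, cR, Matrix.add_apply, Matrix.add_apply, Matrix.sum_apply,
    Matrix.sum_apply, map_add, map_sum]
  have h1 : ∀ i b, ρ (op S i b a c) = op T i b a c := by
    intro i b
    have := congrFun (congrFun (op_map ρ i b) a) c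
    rwa [Matrix.map_apply] at this
  rw [h1]
  congr 1
  refine Finset.sum_congr rfl fun i _ => ?_
  rw [Matrix.smul_apply, Matrix.smul_apply, smul_eq_mul, smul_eq_mul, map_mul, h1]

variable [Algebra ℚ S] [Algebra ℚ T]

lemma map_MR (m : Fin n → Fin n → S) (β : Fin n → Fin n → PowerSeries S) :
    PowerSeries.map (ρ.mapMatrix (m := Fk n)) (MR m β) =
      MR (fun i j => ρ (m i j)) (fun i j => PowerSeries.map ρ (β i j)) := by
  rw [MR, MR, map_mul, PowerSeries.map_C]
  congr 1
  · congr 1
    exact RingHom.map_rat_algebraMap _ _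
  · rw [map_sum]
    refine Finset.sum_congr rfl fun k _ => ?_
    rw [map_sum]
    refine Finset.sum_congr rfl fun j _ => ?_
    rw [map_mul, PowerSeries.map_C, map_mul, RingHom.mapMatrix_apply, RingHom.mapMatrix_apply,
      map_cR, map_cR]
    congr 1
    ext1 l
    rw [PowerSeries.coeff_map, coeff_sc, coeff_sc, PowerSeries.coeff_map]
    ext a c
    rw [RingHom.mapMatrix_apply, Matrix.map_apply, Matrix.algebraMap_matrix_apply,
      Matrix.algebraMap_matrix_apply]
    split_ifs <;> simp

end Map

section Red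

variable {S : Type*} [CommRing S] [Algebra ℚ S] {n : ℕ}

/-- the hypotheses on `J` over a ring -/
structure JS (m : Fin n → Fin n → S) (β J : Fin n → Fin n → PowerSeries S) : Prop where
  anti : ∀ k j, β k j = - β j k
  ode : ∀ i k, dt (J i k) = ∑ l, (∑ j, β i j * C (m j l + m l j)) * J l k
  init : ∀ i k, coeff 0 (J i k) = if i = k then 1 else 0
  pb : ∀ i k, EvZ (β i k)
  pJ : ∀ i k, EvZ (J i k)

lemma exists_poly {K : Type*} [Field K] {y : PowerSeries K} (h : EvZ y) :
    ∃ p : Polynomial K, cp p = y := by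
  obtain ⟨N, hN⟩ := h
  refine ⟨PowerSeries.trunc N y, ?_⟩
  ext l
  have e1 : coeff l (cp (PowerSeries.trunc N y)) = (PowerSeries.trunc N y).coeff l := by simp
  rw [e1, coeff_trunc]
  split_ifs with h1
  · rfl
  · rw [hN l (by omega)]

lemma spin_at {m : Fin n → Fin n → S} {β J : Fin n → Fin n → PowerSeries S} (h : JS m β J)
    {g e : PowerSeries (Matrix (Fk n) (Fk n) S)}
    (hg0 : coeff 0 g = 1) (he0 : coeff 0 e = 1) (hge : g * e = 1) (hg : dt g = MR m β * g)
    {K : Type*} [Field K] [Algebra ℚ K] (ρ : S →+* K) :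
    ∃ N, ∀ l ≥ N, (coeff l g).map ρ = 0 ∧ (coeff l e).map ρ = 0 := by
  have : CharZero K := algebraRat.charZero K
  have pe : ∀ {y : PowerSeries S}, EvZ y → EvZ (PowerSeries.map ρ y) := by
    rintro y ⟨N, hN⟩
    exact ⟨N, fun l hl => by rw [PowerSeries.coeff_map, hN l hl, map_zero]⟩
  choose b hb using fun i k => exists_poly (pe (h.pb i k))
  choose J' hJ' using fun i k => exists_poly (pe (h.pJ i k))
  have hC : ∀ x : K, cp (Polynomial.C x) = C x := fun x => by simp
  have hJP : JP (fun i j => ρ (m i j)) b J' := by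
    refine ⟨fun k j => ?_, fun i k => ?_, fun i k => ?_⟩
    · apply cp_inj
      rw [map_neg, hb, hb, h.anti k j, map_neg]
    · apply cp_inj
      rw [← dt_cp, hJ', dt_map, h.ode, map_sum, map_sum]
      refine Finset.sum_congr rfl fun l _ => ?_
      rw [map_mul, map_mul, map_sum, map_sum, hJ']
      congr 1
      refine Finset.sum_congr rfl fun j _ => ?_
      rw [map_mul, map_mul, hb, hC, PowerSeries.map_C, map_add]
    · have e1 : (J' i k).coeff 0 = coeff 0 (cp (J' i k)) := by simp
      rw [e1, hJ', PowerSeries.coeff_map, h.init]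
      split_ifs <;> simp
  obtain ⟨N, hN⟩ := spin_field hJP (g := PowerSeries.map (ρ.mapMatrix (m := Fk n)) g)
    (e := PowerSeries.map (ρ.mapMatrix (m := Fk n)) e)
    (by rw [PowerSeries.coeff_map, hg0, map_one]) (by rw [PowerSeries.coeff_map, he0, map_one])
    (by rw [← map_mul, hge, map_one])
    (by
      rw [dt_map, hg, map_mul, map_MR]
      congr 2
      funext i j
      rw [hb])
  refine ⟨N, fun l hl => ?_⟩
  have h1 := hN l hl
  rw [PowerSeries.coeff_map, PowerSeries.coeff_map] at h1
  exact h1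

/-- the spin equation over a reduced ring with finitely many minimal primes -/
theorem spin_red [IsReduced S] (hfin : (minimalPrimes S).Finite) {m : Fin n → Fin n → S}
    {β J : Fin n → Fin n → PowerSeries S} (h : JS m β J)
    {g e : PowerSeries (Matrix (Fk n) (Fk n) S)}
    (hg0 : coeff 0 g = 1) (he0 : coeff 0 e = 1) (hge : g * e = 1) (hg : dt g = MR m β * g) :
    EvZ g ∧ EvZ e := by
  have h1 : ∀ p ∈ minimalPrimes S, ∃ N, ∀ l ≥ N, ∀ a c,
      coeff l g a c ∈ p ∧ coeff l e a c ∈ p := by
    intro p hp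
    have : p.IsPrime := hp.1.1
    obtain ⟨N, hN⟩ := spin_at h hg0 he0 hge hg
      ((algebraMap (S ⧸ p) (FractionRing (S ⧸ p))).comp (Ideal.Quotient.mk p))
    refine ⟨N, fun l hl a c => ?_⟩
    have key : ∀ x : S, ((algebraMap (S ⧸ p) (FractionRing (S ⧸ p))).comp
        (Ideal.Quotient.mk p)) x = 0 → x ∈ p := by
      intro x hx
      rw [RingHom.comp_apply] at hx
      rw [← Ideal.Quotient.eq_zero_iff_mem]
      exact (IsFractionRing.injective (S ⧸ p) (FractionRing (S ⧸ p))) (by rw [hx, map_zero])
    constructor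
    · have h2 := congrFun (congrFun (hN l hl).1 a) c
      exact key _ h2
    · have h2 := congrFun (congrFun (hN l hl).2 a) c
      exact key _ h2
  choose! N hN using h1
  obtain ⟨M, hM⟩ : ∃ M, ∀ p ∈ minimalPrimes S, N p ≤ M := by
    obtain ⟨M, hM⟩ := (hfin.image N).bddAbove
    exact ⟨M, fun p hp => hM (Set.mem_image_of_mem N hp)⟩
  have key : ∀ x : S, (∀ p ∈ minimalPrimes S, x ∈ p) → x = 0 := by
    intro x hx
    have h2 : x ∈ sInf (minimalPrimes S) := by
      rw [Ideal.mem_sInf]
      intro p hp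
      exact hx p hp
    have h3 : sInf (minimalPrimes S) = (⊥ : Ideal S).radical := Ideal.sInf_minimalPrimes
    rw [h3] at h2
    have h4 : (⊥ : Ideal S).radical = ⊥ := nilradical_eq_zero S
    rw [h4] at h2
    exact h2
  constructor
  · refine ⟨M, fun l hl => ?_⟩
    ext a c
    exact key _ fun p hp => (hN p hp l (le_trans (hM p hp) hl) a c).1
  · refine ⟨M, fun l hl => ?_⟩
    ext a c
    exact key _ fun p hp => (hN p hp l (le_trans (hM p hp) hl) a c).2

end Red

end

end Pool.Agent.MFI
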