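import Mathlib

/-!
# Isotopy invariance of matrix factorizations (MP_c8c50b_ag), helper26

Part 1: power series in `t` over a noncommutative ring `E`: linear differential equations and flows.
-/

set_option autoImplicit false

open PowerSeries
open Finset.HasAntidiagonal (antidiagonal mem_antidiagonal)

namespace Pool.Agent.MFI

noncomputable section

section Basic

variable {E : Type*} [Ring E]

/-- the derivative with respect to `t` -/
def dt : PowerSeries E →+ PowerSeries E where
  toFun F := mk fun m => (m + 1) • coeff (m + 1) F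
  map_zero' := by ext m; simp
  map_add' F G := by ext m; simp

@[simp] lemma coeff_dt (F : PowerSeries E) (m : ℕ) :
    coeff m (dt F) = (m + 1) • coeff (m + 1) F := by
  simp [dt]

lemma dt_mul (F G : PowerSeries E) : dt (F * G) = dt F * G + F * dt G := by
  ext m
  rw [coeff_dt, map_add, coeff_mul, coeff_mul, coeff_mul]
  have h1 : (m + 1) • ∑ p ∈ antidiagonal (m + 1), coeff p.1 F * coeff p.2 G =
      (∑ p ∈ antidiagonal (m + 1), p.1 • (coeff p.1 F * coeff p.2 G)) +
        ∑ p ∈ antidiagonal (m + 1), p.2 • (coeff p.1 F * coeff p.2 G) := by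
    rw [← Finset.sum_add_distrib, Finset.smul_sum]
    refine Finset.sum_congr rfl fun p hp => ?_
    rw [← add_smul, mem_antidiagonal.1 hp]
  rw [h1, Finset.Nat.sum_antidiagonal_succ, Finset.Nat.sum_antidiagonal_succ']
  simp only [zero_smul, zero_add, coeff_dt]
  congr 1
  · refine Finset.sum_congr rfl fun p _ => ?_
    rw [smul_mul_assoc]
  · refine Finset.sum_congr rfl fun p _ => ?_
    rw [mul_smul_comm]

@[simp] lemma dt_C (x : E) : dt (C x) = 0 := by
  ext m
  simp

@[simp] lemma dt_one : dt (1 : PowerSeries E) = 0 := dt_C 1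

lemma coeff_zero_mul' (F G : PowerSeries E) : coeff 0 (F * G) = coeff 0 F * coeff 0 G := by
  rw [coeff_mul]
  simp

end Basic

section Rat

variable {E : Type*} [Ring E] [Algebra ℚ E]

lemma nsmul_inj {x : E} {m : ℕ} (h : (m + 1) • x = 0) : x = 0 := by
  have h1 : ((m + 1 : ℚ)⁻¹) • ((m + 1) • x) = 0 := by rw [h, smul_zero]
  have h2 : ((m + 1) • x : E) = ((m + 1 : ℚ)) • x := by
    rw [show ((m + 1 : ℚ)) = ((m + 1 : ℕ) : ℚ) by push_cast; rfl, Nat.cast_smul_eq_nsmul]
  rw [h2, smul_smul, inv_mul_cancel₀ (by positivity), one_smul] at h1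
  exact h1

lemma inv_nsmul (x : E) (m : ℕ) : (m + 1) • (((m + 1 : ℚ)⁻¹) • x) = x := by
  have h2 : ((m + 1) • (((m + 1 : ℚ)⁻¹) • x) : E) = ((m + 1 : ℚ)) • (((m + 1 : ℚ)⁻¹) • x) := by
    rw [show ((m + 1 : ℚ)) = ((m + 1 : ℕ) : ℚ) by push_cast; rfl, Nat.cast_smul_eq_nsmul]
  rw [h2, smul_smul, mul_inv_cancel₀ (by positivity), one_smul]

/-- a solution of a linear homogeneous equation with zero initial value is zero -/
lemma eq_zero_of_dt {Z : PowerSeries E} (h0 : coeff 0 Z = 0)
    (h : ∀ m, (∀ i ≤ m, coeff i Z = 0) → coeff m (dt Z) = 0) : Z = 0 := by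
  have key : ∀ m, ∀ i ≤ m, coeff i Z = 0 := by
    intro m
    induction m with
    | zero =>
      intro i hi
      rw [Nat.le_zero.1 hi, h0]
    | succ m ih =>
      intro i hi
      rcases Nat.lt_or_ge i (m + 1) with h1 | h1
      · exact ih i (Nat.lt_succ_iff.1 h1)
      · have h2 : i = m + 1 := le_antisymm hi h1
        subst h2
        have h3 := h m ih
        rw [coeff_dt] at h3
        exact nsmul_inj h3
  ext m
  rw [key m m le_rfl, map_zero]

omit [Algebra ℚ E] in
/-- `coeff m (F * Z) = 0` if `Z` vanishes up to order `m` -/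
lemma coeff_mul_zero_right {F Z : PowerSeries E} {m : ℕ} (h : ∀ i ≤ m, coeff i Z = 0) :
    coeff m (F * Z) = 0 := by
  rw [coeff_mul]
  refine Finset.sum_eq_zero fun p hp => ?_
  have h1 := mem_antidiagonal.1 hp
  rw [h p.2 (by omega), mul_zero]

omit [Algebra ℚ E] in
lemma coeff_mul_zero_left {F Z : PowerSeries E} {m : ℕ} (h : ∀ i ≤ m, coeff i Z = 0) :
    coeff m (Z * F) = 0 := by
  rw [coeff_mul]
  refine Finset.sum_eq_zero fun p hp => ?_
  have h1 := mem_antidiagonal.1 hp
  rw [h p.1 (by omega), zero_mul]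

/-- uniqueness for `Z' = M Z` -/
lemma ode_unique {M Z : PowerSeries E} (h0 : coeff 0 Z = 0) (h : dt Z = M * Z) : Z = 0 :=
  eq_zero_of_dt h0 fun m hm => by rw [h]; exact coeff_mul_zero_right hm

lemma ode_unique' {M Z : PowerSeries E} (h0 : coeff 0 Z = 0) (h : dt Z = Z * M) : Z = 0 :=
  eq_zero_of_dt h0 fun m hm => by rw [h]; exact coeff_mul_zero_left hm

/-- a series with derivative zero is constant -/
lemma eq_C_of_dt {Z : PowerSeries E} (h : dt Z = 0) : Z = C (coeff 0 Z) := by
  have h1 : Z - C (coeff 0 Z) = 0 := by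
    refine eq_zero_of_dt (by simp) fun m _ => ?_
    rw [map_sub, h, dt_C, sub_zero, map_zero]
  exact sub_eq_zero.1 h1

/-- the coefficients of the solution of `G' = M G`, `G(0) = 1` -/
def sol (M : PowerSeries E) : ℕ → E
  | 0 => 1
  | (m + 1) => ((m + 1 : ℚ)⁻¹) • ∑ i : Fin (m + 1), coeff (m - i) M * sol M i
decreasing_by exact i.2

/-- the solution of `G' = M G`, `G(0) = 1` -/
def solS (M : PowerSeries E) : PowerSeries E := mk (sol M)

lemma coeff_zero_solS (M : PowerSeries E) : coeff 0 (solS M) = 1 := by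
  rw [solS, coeff_mk, sol]

omit [Algebra ℚ E] in
lemma sum_fin_anti (f : ℕ → ℕ → E) (m : ℕ) :
    ∑ i : Fin (m + 1), f (m - i) i = ∑ p ∈ antidiagonal m, f p.1 p.2 := by
  rw [Finset.Nat.sum_antidiagonal_eq_sum_range_succ (fun i j => f i j) m,
    ← Finset.sum_range_reflect (fun i => f i (m - i)) (m + 1),
    Finset.sum_range (fun i => f (m - i) i) |>.symm]
  refine Finset.sum_congr rfl fun i hi => ?_
  have h1 : i ≤ m := Nat.lt_succ_iff.1 (Finset.mem_range.1 hi)
  have h2 : m + 1 - 1 - i = m - i := by omega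
  have h3 : m - (m - i) = i := by omega
  rw [h2, h3]

lemma dt_solS (M : PowerSeries E) : dt (solS M) = M * solS M := by
  ext m
  rw [coeff_dt, coeff_mul, solS, coeff_mk, sol, inv_nsmul,
    sum_fin_anti (fun i j => coeff i M * sol M j) m]
  refine Finset.sum_congr rfl fun p _ => ?_
  rw [coeff_mk]

/-- the coefficients of the solution of `H' = H N`, `H(0) = 1` -/
def solr (N : PowerSeries E) : ℕ → E
  | 0 => 1
  | (m + 1) => ((m + 1 : ℚ)⁻¹) • ∑ i : Fin (m + 1), solr N i * coeff (m - i) N
decreasing_by exact i.2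

def solrS (N : PowerSeries E) : PowerSeries E := mk (solr N)

lemma coeff_zero_solrS (M : PowerSeries E) : coeff 0 (solrS M) = 1 := by
  rw [solrS, coeff_mk, solr]

lemma dt_solrS (N : PowerSeries E) : dt (solrS N) = solrS N * N := by
  ext m
  rw [coeff_dt, coeff_mul, solrS, coeff_mk, solr, inv_nsmul,
    sum_fin_anti (fun i j => solr N j * coeff i N) m,
    ← Finset.Nat.sum_antidiagonal_swap]
  refine Finset.sum_congr rfl fun p _ => ?_
  rw [coeff_mk]
  rfl

lemma sol_mul_left (M : PowerSeries E) : solrS (-M) * solS M = 1 := by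
  have h1 : dt (solrS (-M) * solS M) = 0 := by
    rw [dt_mul, dt_solS, dt_solrS]
    noncomm_ring
  rw [eq_C_of_dt h1, coeff_zero_mul', coeff_zero_solS, coeff_zero_solrS, mul_one, map_one]

lemma sol_mul_right (M : PowerSeries E) : solS M * solrS (-M) = 1 := by
  have h1 : solS M * solrS (-M) - 1 = 0 := by
    refine eq_zero_of_dt ?_ fun m hm => ?_
    · rw [map_sub, coeff_zero_mul', coeff_zero_solS, coeff_zero_solrS, mul_one]
      simp
    · have h2 : dt (solS M * solrS (-M) - 1) =
          M * (solS M * solrS (-M) - 1) - (solS M * solrS (-M) - 1) * M := by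
        rw [map_sub, dt_mul, dt_solS, dt_solrS, dt_one]
        noncomm_ring
      rw [h2, map_sub, coeff_mul_zero_right hm, coeff_mul_zero_left hm, sub_zero]
  exact sub_eq_zero.1 h1

/-- every solution of `G' = M G`, `G(0) = 1` is the standard one -/
lemma eq_solS {M G : PowerSeries E} (h0 : coeff 0 G = 1) (h : dt G = M * G) : G = solS M := by
  have h1 : G - solS M = 0 := by
    refine ode_unique (M := M) (by rw [map_sub, h0, coeff_zero_solS, sub_self]) ?_
    rw [map_sub, h, dt_solS, mul_sub]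
  exact sub_eq_zero.1 h1

end Rat

end

end Pool.Agent.MFI
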