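import Pool.Agent.MFI.Thm
import Pool.Agent.MFI.Fock
import Pool.Agent.MFI.Pid

/-!
# Isotopy invariance of matrix factorizations (MP_c8c50b_ag), helper26

Part 7: the spin equation on Fock space. Over a field of characteristic zero its fundamental matrix
is polynomial in `t` if the corresponding orthogonal family `J` is polynomial in `t`.
-/

set_option autoImplicit false

open PowerSeries
open Finset.HasAntidiagonal (antidiagonal mem_antidiagonal)

namespace Pool.Agent.MFI

noncomputable section

section ToM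

variable {R : Type*} [CommRing R] {ι : Type*} [Fintype ι] [DecidableEq ι]

/-- power series of matrices as matrices of power series -/
def toM (F : PowerSeries (Matrix ι ι R)) : Matrix ι ι (PowerSeries R) :=
  fun a c => PowerSeries.mk fun m => coeff m F a c

lemma coeff_toM (F : PowerSeries (Matrix ι ι R)) (a c : ι) (m : ℕ) :
    coeff m (toM F a c) = coeff m F a c := by simp [toM]

lemma toM_add (F G : PowerSeries (Matrix ι ι R)) : toM (F + G) = toM F + toM G := by
  ext a c m
  simp [coeff_toM]

lemma toM_sum {κ : Type*} (s : Finset κ) (F : κ → PowerSeries (Matrix ι ι R)) :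
    toM (∑ i ∈ s, F i) = ∑ i ∈ s, toM (F i) := by
  classical
  induction s using Finset.induction_on with
  | empty =>
    ext a c m
    simp [coeff_toM]
  | insert i s hi ih => rw [Finset.sum_insert hi, Finset.sum_insert hi, toM_add, ih]

lemma toM_mul (F G : PowerSeries (Matrix ι ι R)) : toM (F * G) = toM F * toM G := by
  ext a c m
  rw [coeff_toM, coeff_mul, Matrix.sum_apply, Matrix.mul_apply, map_sum]
  simp only [Matrix.mul_apply, coeff_mul, coeff_toM]
  rw [Finset.sum_comm]

lemma toM_C (x : Matrix ι ι R) : toM (C x) = x.map (PowerSeries.C) := by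
  ext a c m
  rw [coeff_toM, coeff_C, Matrix.map_apply, coeff_C]
  split_ifs <;> rfl

lemma toM_one : toM (1 : PowerSeries (Matrix ι ι R)) = 1 := by
  have h := toM_C (1 : Matrix ι ι R)
  rw [map_one] at h
  rw [h, Matrix.map_one _ (map_zero _) (map_one _)]

/-- scalar series -/
def sc (y : PowerSeries R) : PowerSeries (Matrix ι ι R) :=
  PowerSeries.map (algebraMap R (Matrix ι ι R)) y

lemma coeff_sc (y : PowerSeries R) (m : ℕ) :
    coeff m (sc y : PowerSeries (Matrix ι ι R)) = algebraMap R (Matrix ι ι R) (coeff m y) := by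
  simp [sc]

lemma sc_comm (y : PowerSeries R) (Z : PowerSeries (Matrix ι ι R)) : sc y * Z = Z * sc y := by
  ext1 m
  rw [coeff_mul, coeff_mul, ← Finset.Nat.sum_antidiagonal_swap]
  refine Finset.sum_congr rfl fun p _ => ?_
  rw [coeff_sc, Algebra.commutes, coeff_sc]
  rfl

lemma sc_mul (x y : PowerSeries R) :
    (sc (x * y) : PowerSeries (Matrix ι ι R)) = sc x * sc y := by simp [sc]

lemma sc_add (x y : PowerSeries R) :
    (sc (x + y) : PowerSeries (Matrix ι ι R)) = sc x + sc y := by simp [sc]

lemma sc_zero : (sc 0 : PowerSeries (Matrix ι ι R)) = 0 := by simp [sc]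

lemma sc_sum {κ : Type*} (s : Finset κ) (f : κ → PowerSeries R) :
    (sc (∑ i ∈ s, f i) : PowerSeries (Matrix ι ι R)) = ∑ i ∈ s, sc (f i) := by simp [sc]

lemma sc_C (r : R) (x : Matrix ι ι R) : sc (C r) * C x = C (r • x) := by
  rw [sc, PowerSeries.map_C, ← map_mul, Algebra.smul_def]

lemma dt_sc (y : PowerSeries R) : dt (sc y : PowerSeries (Matrix ι ι R)) = sc (dt y) := by
  ext1 m
  rw [coeff_dt, coeff_sc, coeff_sc, coeff_dt, map_nsmul]

lemma toM_sc_mul (y : PowerSeries R) (Z : PowerSeries (Matrix ι ι R)) :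
    toM (sc y * Z) = y • toM Z := by
  ext a c m
  rw [coeff_toM, Matrix.smul_apply, smul_eq_mul, coeff_mul, coeff_mul, Matrix.sum_apply]
  refine Finset.sum_congr rfl fun p _ => ?_
  rw [coeff_sc, coeff_toM, ← Algebra.smul_def, Matrix.smul_apply, smul_eq_mul]

end ToM

section Spin

variable {R : Type*} [CommRing R] {n : ℕ}

/-- the Clifford generators on Fock space -/
def cR (m : Fin n → Fin n → R) (k : Fin n) : Matrix (Fk n) (Fk n) R :=
  io R k + ∑ i, m k i • th R i

lemma cR_th (m : Fin n → Fin n → R) (k i : Fin n) :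
    cR m k * th R i + th R i * cR m k = (if k = i then (1 : R) else 0) • 1 := by
  rw [cR, add_mul, mul_add, Finset.sum_mul, Finset.mul_sum]
  have h1 : ∑ j, m k j • th R j * th R i + ∑ j, th R i * m k j • th R j = 0 := by
    rw [← Finset.sum_add_distrib]
    refine Finset.sum_eq_zero fun j _ => ?_
    rw [smul_mul_assoc, mul_smul_comm, ← smul_add, th_th, smul_zero]
  calc io R k * th R i + ∑ j, m k j • th R j * th R i +
        (th R i * io R k + ∑ j, th R i * m k j • th R j)
      = (io R k * th R i + th R i * io R k) +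
        (∑ j, m k j • th R j * th R i + ∑ j, th R i * m k j • th R j) := by abel
    _ = (if k = i then (1 : R) else 0) • 1 := by
      rw [h1, add_zero, io_th]
      split_ifs <;> simp

lemma cR_anti (m : Fin n → Fin n → R) (k l : Fin n) :
    cR m k * cR m l + cR m l * cR m k = (m k l + m l k) • 1 := by
  have h1 : cR m k * (∑ i, m l i • th R i) + (∑ i, m l i • th R i) * cR m k = m l k • 1 := by
    rw [Finset.mul_sum, Finset.sum_mul, ← Finset.sum_add_distrib]
    rw [Finset.sum_eq_single k]
    · rw [smul_mul_assoc, mul_smul_comm, ← smul_add, cR_th, if_pos rfl, one_smul]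
    · intro i _ hi
      rw [smul_mul_assoc, mul_smul_comm, ← smul_add, cR_th, if_neg hi.symm, zero_smul, smul_zero]
    · intro h
      exact absurd (Finset.mem_univ k) h
  have h2 : cR m k * io R l + io R l * cR m k = m k l • 1 := by
    rw [cR, add_mul, mul_add, Finset.sum_mul, Finset.mul_sum]
    have h3 : ∑ j, m k j • th R j * io R l + ∑ j, io R l * m k j • th R j = m k l • 1 := by
      rw [← Finset.sum_add_distrib, Finset.sum_eq_single l]
      · rw [smul_mul_assoc, mul_smul_comm, ← smul_add, add_comm, io_th, if_pos rfl]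
      · intro i _ hi
        rw [smul_mul_assoc, mul_smul_comm, ← smul_add, add_comm, io_th, if_neg hi.symm, smul_zero]
      · intro h
        exact absurd (Finset.mem_univ l) h
    calc io R k * io R l + ∑ j, m k j • th R j * io R l +
          (io R l * io R k + ∑ j, io R l * m k j • th R j)
        = (io R k * io R l + io R l * io R k) +
          (∑ j, m k j • th R j * io R l + ∑ j, io R l * m k j • th R j) := by abel
      _ = m k l • 1 := by rw [io_io, h3, zero_add]
  have h4 : cR m l = io R l + ∑ i, m l i • th R i := rfl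
  calc cR m k * cR m l + cR m l * cR m k
      = (cR m k * io R l + io R l * cR m k) +
        (cR m k * (∑ i, m l i • th R i) + (∑ i, m l i • th R i) * cR m k) := by
        rw [h4, mul_add, add_mul]
        abel
    _ = (m k l + m l k) • 1 := by rw [h1, h2, add_smul]

variable [Algebra ℚ R]

/-- the matrix of the spin equation -/
def MR (m : Fin n → Fin n → R) (β : Fin n → Fin n → PowerSeries R) :
    PowerSeries (Matrix (Fk n) (Fk n) R) :=
  C (algebraMap ℚ _ (-(1 / 2))) * ∑ k, ∑ j, sc (β k j) * C (cR m j * cR m k)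

lemma half_lem {E : Type*} [Ring E] [Algebra ℚ E] (x : E) :
    algebraMap ℚ E (-(1 / 2)) * (-((2 : ℕ) • x)) = x := by
  rw [map_neg, neg_mul_neg, ← Algebra.smul_def, two_nsmul, ← two_smul ℚ x, smul_smul]
  norm_num

/-- the commutator with an element which anticommutes with the generators up to scalars -/
lemma comm_lem {m : Fin n → Fin n → R} {β : Fin n → Fin n → PowerSeries R}
    (hβ : ∀ k j, β k j = - β j k) {x : Matrix (Fk n) (Fk n) R} {r : Fin n → R}
    (hx : ∀ j, cR m j * x + x * cR m j = r j • 1) :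
    MR m β * C x - C x * MR m β = ∑ k, ∑ j, sc (β k j * C (r j)) * C (cR m k) := by
  have h1 : ∀ j k, cR m j * cR m k * x - x * (cR m j * cR m k) =
      r k • cR m j - r j • cR m k := by
    intro j k
    have e1 : cR m k * x = r k • 1 - x * cR m k := eq_sub_of_add_eq (hx k)
    have e2 : x * cR m j = r j • 1 - cR m j * x := by
      rw [eq_sub_iff_add_eq, add_comm]
      exact hx j
    rw [mul_assoc, e1, ← mul_assoc x, e2, mul_sub, sub_mul, mul_smul_comm, mul_one,
      smul_mul_assoc, one_mul, mul_assoc]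
    abel
  have h2 : (∑ k, ∑ j, sc (β k j) * C (cR m j * cR m k)) * C x -
      C x * (∑ k, ∑ j, sc (β k j) * C (cR m j * cR m k)) =
      ∑ k, ∑ j, sc (β k j) * C (r k • cR m j - r j • cR m k) := by
    rw [Finset.sum_mul, Finset.mul_sum, ← Finset.sum_sub_distrib]
    refine Finset.sum_congr rfl fun k _ => ?_
    rw [Finset.sum_mul, Finset.mul_sum, ← Finset.sum_sub_distrib]
    refine Finset.sum_congr rfl fun j _ => ?_
    rw [← h1, map_sub, map_mul C (cR m j * cR m k) x, map_mul C x, mul_sub, mul_assoc,
      ← mul_assoc (C x), ← sc_comm, mul_assoc]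
  have h3 : ∑ k, ∑ j, sc (β k j) * C (r k • cR m j) =
      - ∑ k, ∑ j, (sc (β k j) : PowerSeries (Matrix (Fk n) (Fk n) R)) * C (r j • cR m k) := by
    rw [Finset.sum_comm, ← Finset.sum_neg_distrib]
    refine Finset.sum_congr rfl fun j _ => ?_
    rw [← Finset.sum_neg_distrib]
    refine Finset.sum_congr rfl fun k _ => ?_
    rw [hβ k j]
    have h4 : (sc (-(β j k)) : PowerSeries (Matrix (Fk n) (Fk n) R)) = - sc (β j k) := by
      simp [sc]
    rw [h4, neg_mul]
  have h4 : ∑ k, ∑ j, sc (β k j) * C (r k • cR m j - r j • cR m k) =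
      -((2 : ℕ) • ∑ k, ∑ j, (sc (β k j * C (r j)) : PowerSeries (Matrix (Fk n) (Fk n) R)) *
        C (cR m k)) := by
    have h5 : ∀ k j, (sc (β k j) : PowerSeries (Matrix (Fk n) (Fk n) R)) *
        C (r k • cR m j - r j • cR m k) =
        sc (β k j) * C (r k • cR m j) - sc (β k j) * C (r j • cR m k) := by
      intro k j
      rw [map_sub, mul_sub]
    have h6 : ∀ k j, (sc (β k j) : PowerSeries (Matrix (Fk n) (Fk n) R)) *
        C (r j • cR m k) = sc (β k j * C (r j)) * C (cR m k) := by
      intro k j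
      rw [sc_mul, mul_assoc, sc_C]
    simp only [h5, Finset.sum_sub_distrib]
    rw [h3]
    simp only [h6]
    rw [two_nsmul]
    abel
  have h7 : MR m β * C x - C x * MR m β = C (algebraMap ℚ _ (-(1 / 2))) *
      ((∑ k, ∑ j, sc (β k j) * C (cR m j * cR m k)) * C x -
      C x * (∑ k, ∑ j, sc (β k j) * C (cR m j * cR m k))) := by
    rw [MR, mul_sub, ← mul_assoc (C x), ← half_comm, mul_assoc, mul_assoc]
  rw [h7, h2, h4]
  ext1 l
  rw [coeff_C_mul, map_neg (coeff l), map_nsmul, half_lem]

lemma conj_abs {A B : Type*} [Ring A] [CommRing B] (s : B →+* A) (hs : ∀ y Z, s y * Z = Z * s y)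
    (c : Fin n → A) (M X : A) (b h : Fin n → Fin n → B) (r y : Fin n → B)
    (hX : M * X - X * M = ∑ k, ∑ j, s (b k j * r j) * c k)
    (hc : ∀ i, M * c i - c i * M = ∑ k, ∑ j, s (b k j * h j i) * c k) :
    ∑ k, s (∑ j, b k j * r j + ∑ l, (∑ j, b k j * h j l) * y l) * c k =
      M * (X + ∑ i, s (y i) * c i) - (X + ∑ i, s (y i) * c i) * M := by
  have e1 : M * (X + ∑ i, s (y i) * c i) - (X + ∑ i, s (y i) * c i) * M = (M * X - X * M) +
      ∑ i, s (y i) * (M * c i - c i * M) := by
    rw [mul_add, add_mul, Finset.mul_sum, Finset.sum_mul]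
    have e2 : ∀ i, s (y i) * (M * c i - c i * M) =
        M * (s (y i) * c i) - s (y i) * c i * M := by
      intro i
      rw [mul_sub, ← mul_assoc, hs, mul_assoc, mul_assoc]
    simp only [e2, Finset.sum_sub_distrib]
    abel
  rw [e1, hX]
  have e3 : ∀ k, s (∑ j, b k j * r j + ∑ l, (∑ j, b k j * h j l) * y l) * c k =
      ∑ j, s (b k j * r j) * c k + ∑ l, s (y l) * ∑ j, s (b k j * h j l) * c k := by
    intro k
    rw [map_add, add_mul, map_sum, Finset.sum_mul, map_sum, Finset.sum_mul]
    congr 1
    refine Finset.sum_congr rfl fun l _ => ?_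
    rw [mul_comm _ (y l), map_mul, mul_assoc, map_sum, Finset.sum_mul]
  rw [Finset.sum_congr rfl fun k _ => e3 k, Finset.sum_add_distrib]
  congr 1
  rw [Finset.sum_comm]
  refine Finset.sum_congr rfl fun l _ => ?_
  rw [hc, Finset.mul_sum]

/-- conjugation by the fundamental matrix -/
lemma conj_lem {m : Fin n → Fin n → R} {β : Fin n → Fin n → PowerSeries R}
    (hβ : ∀ k j, β k j = - β j k) {x : Matrix (Fk n) (Fk n) R} {r : Fin n → R}
    (hx : ∀ j, cR m j * x + x * cR m j = r j • 1) {y : Fin n → PowerSeries R}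
    (hy0 : ∀ i, coeff 0 (y i) = 0)
    (hy : ∀ i, dt (y i) = ∑ j, β i j * C (r j) + ∑ l, (∑ j, β i j * C (m j l + m l j)) * y l)
    {g : PowerSeries (Matrix (Fk n) (Fk n) R)} (hg0 : coeff 0 g = 1) (hg : dt g = MR m β * g) :
    g * C x = (C x + ∑ i, sc (y i) * C (cR m i)) * g := by
  set P := C x + ∑ i, sc (y i) * C (cR m i) with hP
  have h1 : dt P = MR m β * P - P * MR m β := by
    have e4 : dt P = ∑ k, sc (dt (y k)) * C (cR m k) := by
      rw [hP, map_add, dt_C, zero_add, map_sum]
      refine Finset.sum_congr rfl fun k _ => ?_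
      rw [dt_mul, dt_C, mul_zero, add_zero, dt_sc]
    rw [e4, Finset.sum_congr rfl fun k _ => by rw [hy k]]
    exact conj_abs (PowerSeries.map (algebraMap R (Matrix (Fk n) (Fk n) R))) sc_comm
      (fun k => C (cR m k)) (MR m β) (C x) β (fun j l => C (m j l + m l j)) (fun j => C (r j)) y
      (comm_lem hβ hx) fun i => comm_lem hβ (r := fun j => m j i + m i j) fun j => cR_anti m j i
  have h2 : g * C x - P * g = 0 := by
    refine ode_unique (M := MR m β) ?_ ?_
    · rw [map_sub, coeff_zero_mul', coeff_zero_mul', hg0]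
      have e1 : coeff 0 P = x := by
        rw [hP, map_add, map_sum]
        have e2 : ∑ i, coeff 0 (sc (y i) * C (cR m i)) = 0 := by
          refine Finset.sum_eq_zero fun i _ => ?_
          rw [coeff_zero_mul', coeff_sc, hy0, map_zero, zero_mul]
        rw [e2, add_zero]
        simp
      rw [e1]
      simp
    · rw [map_sub, dt_mul, dt_mul, hg, dt_C, mul_zero, add_zero, h1]
      noncomm_ring
  exact sub_eq_zero.1 h2

end Spin

end

end Pool.Agent.MFI
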