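import Pool.Agent.MFI.Spin

/-!
# Isotopy invariance of matrix factorizations (MP_c8c50b_ag), helper26

Part 8: over a field of characteristic zero the fundamental matrix of the spin equation is a
polynomial in `t` if the orthogonal family `J` is.
-/

set_option autoImplicit false

open PowerSeries

namespace Pool.Agent.MFI

noncomputable section

variable {K : Type*} [Field K] [CharZero K] {n : ℕ}

omit [CharZero K] in
lemma dt_eq_derivative (y : PowerSeries K) : dt y = PowerSeries.derivative K y := by
  ext m
  rw [coeff_dt, coeff_derivative, nsmul_eq_mul, mul_comm]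
  push_cast
  rfl

omit [CharZero K] in
lemma dt_cp (p : Polynomial K) : dt (cp p) = cp (Polynomial.derivative p) := by
  rw [dt_eq_derivative]
  exact PowerSeries.derivative_coe p

lemma exists_antiderivative (p : Polynomial K) :
    ∃ q : Polynomial K, Polynomial.derivative q = p ∧ q.coeff 0 = 0 := by
  induction p using Polynomial.induction_on' with
  | add p q hp hq =>
    obtain ⟨a, ha, ha0⟩ := hp
    obtain ⟨b, hb, hb0⟩ := hq
    exact ⟨a + b, by rw [map_add, ha, hb], by rw [Polynomial.coeff_add, ha0, hb0, add_zero]⟩
  | monomial k a =>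
    refine ⟨Polynomial.monomial (k + 1) (a / (k + 1)), ?_, ?_⟩
    · rw [Polynomial.derivative_monomial, Nat.add_sub_cancel]
      congr 1
      push_cast
      have : (k : K) + 1 ≠ 0 := Nat.cast_add_one_ne_zero k
      field_simp
    · rw [Polynomial.coeff_monomial, if_neg (Nat.succ_ne_zero k)]

/-- the trace of an antisymmetric times a symmetric matrix -/
lemma trace_anti {A : Type*} [CommRing A] [CharZero A] [NoZeroDivisors A]
    {b h : Fin n → Fin n → A} (hb : ∀ k j, b k j = - b j k)
    (hh : ∀ k j, h k j = h j k) : ∑ k, ∑ j, b k j * h j k = 0 := by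
  have h1 : ∑ k, ∑ j, b k j * h j k = - ∑ k, ∑ j, b k j * h j k := by
    nth_rewrite 1 [Finset.sum_comm]
    rw [← Finset.sum_neg_distrib]
    refine Finset.sum_congr rfl fun j _ => ?_
    rw [← Finset.sum_neg_distrib]
    refine Finset.sum_congr rfl fun k _ => ?_
    rw [hb k j, hh j k, neg_mul]
  exact self_eq_neg.1 h1

/-- the hypotheses on `J` -/
structure JP (m : Fin n → Fin n → K) (β J : Fin n → Fin n → Polynomial K) : Prop where
  anti : ∀ k j, β k j = - β j k
  ode : ∀ i k, Polynomial.derivative (J i k) =
    ∑ l, (∑ j, β i j * Polynomial.C (m j l + m l j)) * J l k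
  init : ∀ i k, (J i k).coeff 0 = if i = k then 1 else 0

variable {m : Fin n → Fin n → K} {β J : Fin n → Fin n → Polynomial K}

/-- `β H` -/
def NN (m : Fin n → Fin n → K) (β : Fin n → Fin n → Polynomial K) :
    Matrix (Fin n) (Fin n) (Polynomial K) :=
  Matrix.of fun i l => ∑ j, β i j * Polynomial.C (m j l + m l j)

lemma trace_NN (h : JP m β J) : (NN m β).trace = 0 := by
  rw [Matrix.trace]
  simp only [NN, Matrix.diag_apply, Matrix.of_apply]
  exact trace_anti (h := fun j k => Polynomial.C (m j k + m k j)) h.anti
    (fun k j => by rw [add_comm])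

lemma det_J (h : JP m β J) : (Matrix.of J).det = 1 := by
  have h1 : Polynomial.derivative' (Matrix.of J).det = (NN m β).trace * (Matrix.of J).det := by
    apply liouville
    intro i k
    rw [Matrix.mul_apply]
    exact h.ode i k
  rw [trace_NN h, zero_mul] at h1
  have h2 := Polynomial.derivative_eq_zero.1 (show Polynomial.derivative (Matrix.of J).det = 0 from h1)
  rw [Polynomial.eq_C_of_natDegree_eq_zero h2]
  have h3 : (Matrix.of J).det.coeff 0 = 1 := by
    rw [Polynomial.coeff_zero_eq_eval_zero]
    have h4 : Polynomial.eval 0 (Matrix.of J).det =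
        ((Polynomial.evalRingHom (0 : K)).mapMatrix (Matrix.of J)).det := by
      rw [← RingHom.map_det]
      rfl
    rw [h4]
    have h5 : (Polynomial.evalRingHom (0 : K)).mapMatrix (Matrix.of J) = 1 := by
      ext i k
      rw [RingHom.mapMatrix_apply, Matrix.map_apply, Matrix.of_apply, Polynomial.coe_evalRingHom,
        ← Polynomial.coeff_zero_eq_eval_zero, h.init, Matrix.one_apply]
    rw [h5, Matrix.det_one]
  rw [h3, map_one]

/-- the solution of `u' = β + β H u`, `u(0) = 0` -/
lemma exists_u (h : JP m β J) : ∃ u : Fin n → Fin n → Polynomial K,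
    (∀ i k, (u i k).coeff 0 = 0) ∧
    ∀ i k, Polynomial.derivative (u i k) = β i k +
      ∑ l, (∑ j, β i j * Polynomial.C (m j l + m l j)) * u l k := by
  set Jm : Matrix (Fin n) (Fin n) (Polynomial K) := Matrix.of J with hJm
  set A : Matrix (Fin n) (Fin n) (Polynomial K) := Jm.adjugate * Matrix.of β with hA
  choose S hS hS0 using fun p : Polynomial K => exists_antiderivative p
  refine ⟨fun i k => ∑ l, J i l * S (A l k), ?_, ?_⟩
  · intro i k
    rw [Polynomial.finsetSum_coeff]
    refine Finset.sum_eq_zero fun l _ => ?_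
    rw [Polynomial.mul_coeff_zero, hS0, mul_zero]
  · intro i k
    have e1 : Polynomial.derivative (∑ l, J i l * S (A l k)) =
        ∑ l, Polynomial.derivative (J i l) * S (A l k) + ∑ l, J i l * A l k := by
      rw [map_sum, ← Finset.sum_add_distrib]
      refine Finset.sum_congr rfl fun l _ => ?_
      rw [Polynomial.derivative_mul, hS]
    have e2 : ∑ l, J i l * A l k = β i k := by
      have h1 : Jm * A = Matrix.of β := by
        rw [hA, ← Matrix.mul_assoc, Matrix.mul_adjugate, det_J h, one_smul, Matrix.one_mul]
      have h2 := congrFun (congrFun h1 i) k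
      rw [Matrix.mul_apply] at h2
      exact h2
    rw [e1, e2, add_comm]
    congr 1
    have e3 : ∀ l, Polynomial.derivative (J i l) * S (A l k) =
        ∑ q, (∑ j, β i j * Polynomial.C (m j q + m q j)) * (J q l * S (A l k)) := by
      intro l
      rw [h.ode, Finset.sum_mul]
      refine Finset.sum_congr rfl fun q _ => ?_
      rw [mul_assoc]
    rw [Finset.sum_congr rfl fun l _ => e3 l, Finset.sum_comm]
    refine Finset.sum_congr rfl fun q _ => ?_
    rw [Finset.mul_sum]

variable [Algebra ℚ K]

/-- the subalgebra of matrices with polynomial conjugates -/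
def WW (g : Matrix (Fk n) (Fk n) (PowerSeries K)) : Subalgebra K (Matrix (Fk n) (Fk n) K) where
  carrier := {x | ∃ P : Matrix (Fk n) (Fk n) (Polynomial K),
    g * x.map (PowerSeries.C) = P.map cp * g}
  mul_mem' := by
    rintro x y ⟨P, hP⟩ ⟨Q, hQ⟩
    refine ⟨P * Q, ?_⟩
    rw [Matrix.map_mul, ← mul_assoc, hP, mul_assoc, hQ, ← mul_assoc, Matrix.map_mul]
  add_mem' := by
    rintro x y ⟨P, hP⟩ ⟨Q, hQ⟩
    refine ⟨P + Q, ?_⟩
    rw [Matrix.map_add _ (map_add _), mul_add, hP, hQ, ← add_mul, Matrix.map_add _ (map_add _)]
  algebraMap_mem' := by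
    intro r
    refine ⟨(algebraMap K (Matrix (Fk n) (Fk n) K) r).map Polynomial.C, ?_⟩
    have h1 : ((algebraMap K (Matrix (Fk n) (Fk n) K) r).map Polynomial.C).map cp =
        (algebraMap K (Matrix (Fk n) (Fk n) K) r).map (PowerSeries.C) := by
      ext1 a c
      rw [Matrix.map_apply, Matrix.map_apply, Matrix.map_apply]
      generalize (algebraMap K (Matrix (Fk n) (Fk n) K)) r a c = y
      simp
    have h2 : (algebraMap K (Matrix (Fk n) (Fk n) K) r).map (PowerSeries.C) =
        PowerSeries.C r • (1 : Matrix (Fk n) (Fk n) (PowerSeries K)) := by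
      ext1 a c
      rw [Matrix.map_apply, Matrix.algebraMap_matrix_apply, Matrix.smul_apply, Matrix.one_apply]
      split_ifs <;> simp
    rw [h1, h2, mul_smul_comm, smul_mul_assoc, mul_one, one_mul]

omit [CharZero K] [Algebra ℚ K] in
lemma mem_WW_of {m : Fin n → Fin n → K} {g : PowerSeries (Matrix (Fk n) (Fk n) K)}
    {x : Matrix (Fk n) (Fk n) K} (p : Fin n → Polynomial K)
    (h : g * C x = (C x + ∑ i, sc (cp (p i)) * C (cR m i)) * g) : x ∈ WW (toM g) := by
  refine ⟨x.map Polynomial.C + ∑ i, p i • (cR m i).map Polynomial.C, ?_⟩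
  have h1 := congrArg toM h
  rw [toM_mul, toM_mul, toM_C, toM_add, toM_C, toM_sum] at h1
  rw [h1]
  congr 1
  ext1 a c
  rw [Matrix.add_apply, Matrix.map_apply, Matrix.sum_apply, Matrix.map_apply, Matrix.add_apply,
    Matrix.map_apply, Matrix.sum_apply, map_add, map_sum]
  congr 1
  · simp
  · refine Finset.sum_congr rfl fun i _ => ?_
    rw [toM_sc_mul, toM_C, Matrix.smul_apply, Matrix.smul_apply, Matrix.map_apply,
      Matrix.map_apply, smul_eq_mul, smul_eq_mul, map_mul]
    simp

/-- the fundamental matrix of the spin equation over a field is polynomial -/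
theorem spin_field (h : JP m β J) {g e : PowerSeries (Matrix (Fk n) (Fk n) K)}
    (hg0 : coeff 0 g = 1) (he0 : coeff 0 e = 1) (hge : g * e = 1)
    (hg : dt g = MR m (fun i j => cp (β i j)) * g) :
    ∃ N, ∀ l ≥ N, coeff l g = 0 ∧ coeff l e = 0 := by
  have hβ : ∀ k j, cp (β k j) = - cp (β j k) := by
    intro k j
    rw [h.anti k j, map_neg]
  -- the Clifford generators
  have w1 : ∀ k, cR m k ∈ WW (toM g) := by
    intro k
    refine mem_WW_of (m := m) (fun i => J i k - Polynomial.C (if i = k then 1 else 0)) ?_
    refine conj_lem (r := fun j => m j k + m k j) hβ (fun j => cR_anti m j k) ?_ ?_ hg0 hg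
    · intro i
      rw [map_sub, map_sub]
      have e1 : coeff 0 (cp (J i k)) = (J i k).coeff 0 := by simp
      rw [e1, h.init]
      simp
    · intro i
      rw [dt_cp, map_sub, Polynomial.derivative_C, sub_zero, h.ode, map_sum]
      have e1 : ∀ l, cp ((∑ j, β i j * Polynomial.C (m j l + m l j)) * J l k) =
          (∑ j, cp (β i j) * C (m j l + m l j)) * cp (J l k - Polynomial.C (if l = k then 1 else 0)) +
          (∑ j, cp (β i j) * C (m j l + m l j)) * (if l = k then 1 else 0) := by
        intro l
        have e2 : cp (∑ j, β i j * Polynomial.C (m j l + m l j)) =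
            ∑ j, cp (β i j) * C (m j l + m l j) := by
          rw [map_sum]
          refine Finset.sum_congr rfl fun j _ => ?_
          rw [map_mul]
          simp
        rw [map_mul, e2, ← mul_add, map_sub]
        congr 1
        split_ifs <;> simp
      rw [Finset.sum_congr rfl fun l _ => e1 l, Finset.sum_add_distrib, add_comm]
      congr 1
      simp
  have w2 : ∀ k, th K k ∈ WW (toM g) := by
    intro k
    obtain ⟨u, hu0, hu⟩ := exists_u h
    refine mem_WW_of (m := m) (fun i => u i k) ?_
    refine conj_lem (r := fun j => if j = k then 1 else 0) hβ (fun j => cR_th m j k) ?_ ?_ hg0 hg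
    · intro i
      have e1 : coeff 0 (cp (u i k)) = (u i k).coeff 0 := by simp
      rw [e1, hu0]
    · intro i
      rw [dt_cp, hu, map_add, map_sum]
      congr 1
      · simp
      · refine Finset.sum_congr rfl fun l _ => ?_
        rw [map_mul, map_sum]
        congr 1
        refine Finset.sum_congr rfl fun j _ => ?_
        rw [map_mul]
        simp
  have w3 : WW (toM g) = ⊤ := by
    apply gen_top
    intro i b
    cases b
    · have e1 : op K i false = cR m i - ∑ j, m i j • th K j := by
        rw [cR]
        abel
      rw [e1]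
      exact (WW (toM g)).sub_mem (w1 i)
        ((WW (toM g)).sum_mem fun j _ => (WW (toM g)).smul_mem (w2 j) _)
    · exact w2 i
  have hdet : (toM g).det = 1 := by
    have e1 : PowerSeries.derivative K (toM g).det =
        (toM (MR m fun i j => cp (β i j))).trace * (toM g).det := by
      apply liouville
      intro i j
      rw [← toM_mul, ← hg, ← dt_eq_derivative]
      ext l
      rw [coeff_dt, coeff_toM, coeff_toM, coeff_dt, Matrix.smul_apply]
    have e2 : (toM (MR m fun i j => cp (β i j))).trace = 0 := by
      have e3 : MR m (fun i j => cp (β i j)) =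
          sc (C (algebraMap ℚ K (-(1 / 2)))) * ∑ k, ∑ j, sc (cp (β k j)) * C (cR m j * cR m k) := by
        rw [MR]
        congr 1
        rw [sc, PowerSeries.map_C]
        congr 1
      rw [e3, toM_sc_mul, Matrix.trace_smul, toM_sum, Matrix.trace_sum]
      have e4 : ∑ k, (toM (∑ j, sc (cp (β k j)) * C (cR m j * cR m k))).trace = 0 := by
        have e5 : ∀ k, (toM (∑ j, sc (cp (β k j)) * C (cR m j * cR m k))).trace =
            ∑ j, cp (β k j) * C ((cR m j * cR m k).trace) := by
          intro k
          rw [toM_sum, Matrix.trace_sum]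
          refine Finset.sum_congr rfl fun j _ => ?_
          rw [toM_sc_mul, toM_C, Matrix.trace_smul, smul_eq_mul]
          congr 1
          rw [Matrix.trace, Matrix.trace, map_sum]
          rfl
        rw [Finset.sum_congr rfl fun k _ => e5 k]
        have : CharZero (PowerSeries K) :=
          charZero_of_injective_algebraMap (R := K) (A := PowerSeries K) PowerSeries.C_injective
        exact trace_anti (b := fun k j => cp (β k j))
          (h := fun j k => C ((cR m j * cR m k).trace)) hβ fun j k => by
            rw [Matrix.trace_mul_comm]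
      rw [e4, smul_zero]
    rw [e2, zero_mul] at e1
    refine PowerSeries.derivative.ext (by rw [e1, PowerSeries.derivative_one]) ?_
    rw [map_one]
    have e3 : constantCoeff (toM g).det =
        ((PowerSeries.constantCoeff (R := K)).mapMatrix (toM g)).det := by
      rw [RingHom.map_det]
    rw [e3]
    have e4 : (PowerSeries.constantCoeff (R := K)).mapMatrix (toM g) = 1 := by
      ext i j
      rw [RingHom.mapMatrix_apply, Matrix.map_apply, ← coeff_zero_eq_constantCoeff_apply,
        coeff_toM, hg0]
    rw [e4, Matrix.det_one]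
  obtain ⟨G, H, hG, hH⟩ := descent (o := fun _ => false) (toM g) (toM e)
    (by rw [← toM_mul, hge, toM_one])
    (by rw [← coeff_zero_eq_constantCoeff_apply, coeff_toM, he0, Matrix.one_apply_eq]) hdet
    (fun x => by
      have h1 : x ∈ WW (toM g) := by rw [w3]; exact Algebra.mem_top
      exact h1)
  refine ⟨∑ a, ∑ c, ((G a c).natDegree + 1 + ((H a c).natDegree + 1)), fun l hl => ?_⟩
  have e1 : ∀ a c, (G a c).natDegree + 1 + ((H a c).natDegree + 1) ≤ l := by
    intro a c
    refine le_trans ?_ hl
    refine le_trans ?_ (Finset.single_le_sum (f := fun a => ∑ c, ((G a c).natDegree + 1 +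
      ((H a c).natDegree + 1))) (fun _ _ => Nat.zero_le _) (Finset.mem_univ a))
    exact Finset.single_le_sum (f := fun c => ((G a c).natDegree + 1 +
      ((H a c).natDegree + 1))) (fun _ _ => Nat.zero_le _) (Finset.mem_univ c)
  constructor
  · ext a c
    have e2 := congrArg (coeff l) (congrFun (congrFun hG a) c)
    rw [coeff_toM, Matrix.map_apply] at e2
    rw [← e2, Matrix.zero_apply]
    have e3 : coeff l (cp (G a c)) = (G a c).coeff l := by simp
    rw [e3]
    exact Polynomial.coeff_eq_zero_of_natDegree_lt (by have := e1 a c; omega)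
  · ext a c
    have e2 := congrArg (coeff l) (congrFun (congrFun hH a) c)
    rw [coeff_toM, Matrix.map_apply] at e2
    rw [← e2, Matrix.zero_apply]
    have e3 : coeff l (cp (H a c)) = (H a c).coeff l := by simp
    rw [e3]
    exact Polynomial.coeff_eq_zero_of_natDegree_lt (by have := e1 a c; omega)

end

end Pool.Agent.MFI
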