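import Pool.Agent.MFI.Dg

/-!
# Isotopy invariance of matrix factorizations (MP_c8c50b_ag), helper26

Statements of the modules.
-/

set_option autoImplicit false

open PowerSeries
open Finset.HasAntidiagonal (antidiagonal mem_antidiagonal)
open scoped Kronecker

namespace Pool.Agent.MFI

universe u

noncomputable section

/-- module EV: values of restricted series in a complete filtered ring -/
def S_EV : Prop := ∀ {E : Type u} [Ring E] (φ : Filt E), φ.Cpl → ∀ τ : E, (∀ x, τ * x = x * τ) →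
  (∀ X, φ.Rst X → ∀ N, ∃ M, ∀ m ≥ M, φ.ev τ X - psum τ X m ∈ φ.F N) ∧
  (∀ X y, (∀ N, ∃ M, ∀ m ≥ M, y - psum τ X m ∈ φ.F N) → φ.ev τ X = y) ∧
  (∀ X Y, φ.Rst X → φ.Rst Y → φ.ev τ (X + Y) = φ.ev τ X + φ.ev τ Y) ∧
  (∀ X Y, φ.Rst X → φ.Rst Y → φ.ev τ (X * Y) = φ.ev τ X * φ.ev τ Y) ∧
  (∀ x, φ.ev τ (C x) = x) ∧
  (∀ X N, φ.Rst X → φ.InF N X → φ.ev τ X ∈ φ.F N)

/-- module EV, second part: values and the extension of an additive map -/
def S_EVM : Prop := ∀ {E E' : Type u} [Ring E] [Ring E'] (φ : Filt E) (φ' : Filt E'), φ.Cpl →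
  φ'.Cpl → ∀ (τ : E) (τ' : E'), (∀ x, τ * x = x * τ) → (∀ x, τ' * x = x * τ') →
  ∀ ψ : E →+ PowerSeries E', (∀ x, ψ (x * τ) = ψ x * C τ') →
  (∀ N, ∀ x ∈ φ.F N, φ'.InF N (ψ x)) → (∀ x, φ'.Rst (ψ x)) →
  ∀ X, φ.Rst X → φ'.Rst (ext ψ X) ∧ φ'.ev τ' (ext ψ X) = φ'.ev τ' (ψ (φ.ev τ X))

/-- module CPL: completeness of the filtrations -/
def S_CPL : Prop :=
  (∀ {A : Type u} [CommRing A] (I : Ideal A), IsAdicComplete I A → (fA I).Cpl) ∧
  (∀ {A : Type u} [CommRing A] (I : Ideal A) (n : ℕ), (fA I).Cpl → (fB n I).Cpl) ∧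
  (∀ {E : Type u} [Ring E] (V : Type) [Fintype V] [DecidableEq V] (φ : Filt E), φ.Cpl →
    (fM V φ).Cpl)

/-- module INV: the inverse of the extension of a filtered additive map preserves restricted
series, if it is onto on the graded pieces -/
def S_INV : Prop := ∀ {E : Type u} [Ring E] (φ : Filt E) (ψ : E →+ PowerSeries E),
  (∀ x, coeff 0 (ψ x) = x) → (∀ N, ∀ x ∈ φ.F N, φ.InF N (ψ x)) → (∀ x, φ.Rst (ψ x)) →
  (∀ N, ∀ x ∈ φ.F N, ∃ Y : PowerSeries E, φ.Rst Y ∧ φ.InF N Y ∧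
    φ.InF (N + 1) (C x - ext ψ Y)) →
  ∀ X, φ.Rst X → φ.Rst (inv ψ X)

/-- the square root of the potential `Σ ε_i h_i` on the Fock space -/
def DD {n : ℕ} {A : Type u} [CommRing A] (h : Fin n → BB n A) :
    Matrix (Fk n) (Fk n) (BB n A) :=
  ∑ i : Fin n, ((ee i : BB n A) • io (BB n A) i + h i • th (BB n A) i)

/-- the total differential on `Λ ⊗ B ⊗ A^N` -/
def KD {n : ℕ} {A : Type u} [CommRing A] {N : Type} [Fintype N] [DecidableEq N]
    (T : A →+* BB n A) (h : Fin n → BB n A) (γ d : Matrix N N A) :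
    Matrix (Fk n × N) (Fk n × N) (BB n A) :=
  DD h ⊗ₖ γ.map T + (1 : Matrix (Fk n) (Fk n) (BB n A)) ⊗ₖ d.map T

/-- the total grading operator -/
def KG {n : ℕ} {A : Type u} [CommRing A] {N : Type} [Fintype N] [DecidableEq N]
    (T : A →+* BB n A) (γ : Matrix N N A) :
    Matrix (Fk n × N) (Fk n × N) (BB n A) :=
  gam (BB n A) ⊗ₖ γ.map T

/-- restriction to the diagonal and to the vacuum -/
def KP {n : ℕ} {A : Type u} [CommRing A] {N : Type} (v : Fk n × N → BB n A) : N → A :=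
  fun i => ev0 (v (fun _ => false, i))

/-- module CON: the contraction of `Λ ⊗ B ⊗ A^N` (with the differential `KD`) onto `A^N` -/
def S_CON : Prop := ∀ {n : ℕ} {A : Type u} [CommRing A] [Algebra ℚ A] {N : Type} [Fintype N]
  [DecidableEq N] (T : A →+* BB n A), (∀ a, ev0 (T a) = a) → ∀ (f : A) (h : Fin n → BB n A),
  (∑ i, ee i * h i = cc f - T f) → ∀ (σ : N → ℤ), (∀ i, σ i * σ i = 1) →
  ∀ (γ d : Matrix N N A), (γ = Matrix.diagonal fun i => ((σ i : ℤ) : A)) → (γ * d = -(d * γ)) →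
  (d * d = f • (1 : Matrix N N A)) →
  ∃ (s : (N → A) →ₗ[A] (Fk n × N → BB n A))
    (H : (Fk n × N → BB n A) →ₗ[A] (Fk n × N → BB n A)),
    (∀ v, KP (s v) = v) ∧
    (∀ v, (KD T h γ d).mulVec (s v) = s (d.mulVec v)) ∧
    (∀ v, (KG T γ).mulVec (s v) = s (γ.mulVec v)) ∧
    (∀ v, (KD T h γ d).mulVec (H v) + H ((KD T h γ d).mulVec v) = v - s (KP v)) ∧
    (∀ v, (KG T γ).mulVec (H v) = - H ((KG T γ).mulVec v))

/-- module FAM: first properties of the family -/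
def S_FAM : Prop := ∀ {n : ℕ} {A : Type u} [CommRing A] [Algebra ℚ A] (𝔡 : Cder n A)
  (I : Ideal A) (f : A) (Φ : Fam 𝔡 I f), (∀ k, 𝔡.D k f ∈ I) →
  (∀ k, (fA I).InF 1 (Φ.w k)) ∧
  (∀ k, (fA I).Rst (Φ.w k)) ∧
  (∀ a, (fA I).InF 1 (Φ.φ a - C a)) ∧
  (∀ N, ∀ a ∈ I ^ N, (fA I).InF N (Φ.φ a)) ∧
  Φ.φ f = C f ∧
  (∀ j, dt (Φ.φ (𝔡.x j)) = Φ.w j) ∧
  -- the chain rule
  (∀ k m a, 𝔡.D k (coeff m (Φ.φ a)) = ∑ l, ∑ p ∈ antidiagonal m,
    coeff p.1 (Φ.φ (𝔡.D l a)) * 𝔡.D k (coeff p.2 (Φ.φ (𝔡.x l))))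

/-- the Jacobian matrix of the family modulo `I` -/
def Fam.J {n : ℕ} {A : Type u} [CommRing A] {𝔡 : Cder n A} {I : Ideal A} {f : A}
    (Φ : Fam 𝔡 I f) (i k : Fin n) : PowerSeries (A ⧸ I) :=
  PowerSeries.mk fun m => Ideal.Quotient.mk I (𝔡.D k (coeff m (Φ.φ (𝔡.x i))))

/-- module JAC: the equation of the Jacobian matrix -/
def S_JAC : Prop := ∀ {n : ℕ} {A : Type u} [CommRing A] [Algebra ℚ A]
  (𝔡 : Cder n A) (I : Ideal A) (f : A) (Φ : Fam 𝔡 I f),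
  (∀ k, 𝔡.D k f ∈ I) → ∀ m : Fin n → Fin n → A ⧸ I,
  (∀ k l, m k l + m l k = - Ideal.Quotient.mk I (𝔡.D k (𝔡.D l f))) →
  JS m (fun i j => - PowerSeries.map (Ideal.Quotient.mk I) (Φ.b i j)) Φ.J ∧
  (Matrix.of Φ.J).det = 1

/-- module FINB: an automorphism of the kernel of the diagonal gives an equivalence of functors -/
def S_FINB : Prop := ∀ {n : ℕ} {A : Type u} [CommRing A] [Algebra ℚ A] (T : A →+* BB n A),
  (∀ a, ev0 (T a) = a) → ∀ (f : A) (h : Fin n → BB n A), (∑ i, ee i * h i = cc f - T f) →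
  ∀ (φ : A →+* A) (hφ : φ f = f) (Ψ : BB n A ≃+* BB n A), (∀ a, Ψ (cc a) = cc a) →
  (∀ a, Ψ (T a) = T (φ a)) → ∀ G H : Matrix (Fk n) (Fk n) (BB n A), G * H = 1 → H * G = 1 →
  (DD h).map Ψ * G = G * DD h → gam (BB n A) * G = G * gam (BB n A) →
  DGEq (DGF.pull (RingHom.id A) (rfl : (RingHom.id A) f = f)) (DGF.pull φ hφ)

/-- the core theorem: families with `φ_0 = 1` -/
def S_CORE : Prop := ∀ {n : ℕ} {A : Type u} [CommRing A] [Algebra ℚ A] (𝔡 : Cder n A)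
  (I : Ideal A), IsAdicComplete I A → IsReduced (A ⧸ I) → (minimalPrimes (A ⧸ I)).Finite →
  ∀ f : A, (∀ k, 𝔡.D k f ∈ I) → ∀ (Φ : Fam 𝔡 I f) (τ : A), (∀ k, 𝔡.D k τ = 0) →
  ∀ φ : A →+* A, (∀ a, φ a = (fA I).ev τ (Φ.φ a)) → ∀ h : φ f = f,
  DGEq (DGF.pull (RingHom.id A) (rfl : (RingHom.id A) f = f)) (DGF.pull φ h)

/-! ## the final statement -/

/-- Étale coordinates `x_1, …, x_n` on the smooth affine formal scheme `Spf A` (`A` with the
`I`-adic topology): dual derivations `D_i`, and derivations into separated modules are determined by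
their values on the coordinates. -/
structure Etale (k : Type u) [Field k] (A : Type u) [CommRing A] [Algebra k A] (I : Ideal A)
    (n : ℕ) where
  x : Fin n → A
  D : Fin n → Derivation k A A
  dual : ∀ i j, D i (x j) = if i = j then 1 else 0
  det : ∀ (M : Type u) [AddCommGroup M] [Module A M] [Module k M] [IsScalarTower k A M]
    [IsHausdorff I M] (δ : Derivation k A M), (∀ j, δ (x j) = 0) → δ = 0

/-- A family `φ : 𝒰 × 𝔸¹ → 𝒰` of morphisms preserving `f`, given by the homomorphism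
`φ : A → A⟨t⟩` into restricted power series, whose velocity field is Koszul exact:
`dφ_t(x_i)/dt = Σ_j b_ij φ_t(D_j f)` with an antisymmetric matrix `b` over `A⟨t⟩`. -/
structure Family {k : Type u} [Field k] {A : Type u} [CommRing A] [Algebra k A] {I : Ideal A}
    {n : ℕ} (X : Etale k A I n) (f : A) where
  φ : A →ₐ[k] PowerSeries A
  rst : ∀ a N, ∃ M, ∀ m ≥ M, coeff m (φ a) ∈ I ^ N
  cont : ∀ a ∈ I, ∀ m, coeff m (φ a) ∈ I
  inv : φ f = C f
  b : Fin n → Fin n → PowerSeries A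
  brst : ∀ i j N, ∃ M, ∀ m ≥ M, coeff m (b i j) ∈ I ^ N
  anti : ∀ i j, b i j = - b j i
  vel : ∀ i, PowerSeries.derivative A (φ (X.x i)) = ∑ j, b i j * φ (X.D j f)

/-- `ψ : A → A` is the value at `t ∈ k` of the family `φ : A → A⟨t⟩` -/
def IsValue {k : Type u} [Field k] {A : Type u} [CommRing A] [Algebra k A] (I : Ideal A)
    (φ : A → PowerSeries A) (t : k) (ψ : A → A) : Prop :=
  ∀ a N, ∃ M, ∀ m ≥ M, ψ a - ∑ j ∈ Finset.range m, coeff j (φ a) * algebraMap k A t ^ j ∈ I ^ N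

/-- the final statement for dg functors: `φ_t^*` is equivalent to `φ_0^*` -/
def S_GEN : Prop := ∀ {k A : Type u} [Field k] [CharZero k] [CommRing A] [Algebra k A]
  (I : Ideal A) [IsAdicComplete I A] [IsReduced (A ⧸ I)], (minimalPrimes (A ⧸ I)).Finite →
  ∀ {n : ℕ} (X : Etale k A I n) (f : A), (∀ i, X.D i f ∈ I) → ∀ (Φ : Family X f)
  (ψ : k → (A →+* A)), (∀ t, IsValue I Φ.φ t (ψ t)) → Function.Bijective (ψ 0) →
  ∀ (h : ∀ t, ψ t f = f) (t : k), DGEq (DGF.pull (ψ 0) (h 0)) (DGF.pull (ψ t) (h t))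

end

end Pool.Agent.MFI
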